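import Mathlib

open Finset

namespace Pool.Agent.H26.AG

theorem count {R Λ S : Type} [Fintype R] [Fintype Λ] [Fintype S] [DecidableEq Λ] [DecidableEq S]
    (σ : R → Λ → S)
    (h : Fintype.card R * (Fintype.card S - 1) ^ Fintype.card Λ < Fintype.card S ^ Fintype.card Λ) :
    ∃ τ : Λ → S, ∀ r, ∃ l, τ l = σ r l := by
  by_contra hc
  push Not at hc
  have h1 : (univ : Finset (Λ → S)) ⊆
      univ.biUnion fun r => Fintype.piFinset fun l => univ.erase (σ r l) := by
    intro τ _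
    obtain ⟨r, hr⟩ := hc τ
    simp only [mem_biUnion, mem_univ, true_and, Fintype.mem_piFinset, mem_erase, and_true]
    exact ⟨r, hr⟩
  have h2 := (card_le_card h1).trans card_biUnion_le
  simp [Fintype.card_piFinset, card_erase_of_mem] at h2
  omega

theorem ineq (P c : ℕ) (hP : 1 ≤ P) : ∃ M, 0 < M ∧ 2 ^ (c * M ^ 2) * (P - 1) ^ (M ^ 3) < P ^ (M ^ 3) := by
  obtain ⟨Q, rfl⟩ : ∃ Q, P = Q + 1 := ⟨P - 1, by omega⟩
  rcases Nat.eq_zero_or_pos Q with rfl | hQ
  · exact ⟨1, one_pos, by simp⟩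
  refine ⟨Q * (c + 1), by positivity, ?_⟩
  have h1 : 2 * Q ^ Q ≤ (Q + 1) ^ Q := by
    obtain ⟨q, rfl⟩ : ∃ q, Q = q + 1 := ⟨Q - 1, by omega⟩
    have h := pow_add_mul_le_add_pow (a := q + 1) (b := 1) (by omega) (by omega) (q + 1)
    simp only [Nat.cast_id, Nat.add_sub_cancel, mul_one] at h
    rw [pow_succ] at h ⊢
    linarith
  set M := Q * (c + 1)
  have hM : 0 < M := by positivity
  have e : M ^ 3 = Q * ((c + 1) * M ^ 2) := by simp only [M]; ring
  rw [Nat.add_sub_cancel, e, pow_mul Q, pow_mul (Q + 1)]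
  refine lt_of_lt_of_le ?_ (Nat.pow_le_pow_left h1 _)
  rw [mul_pow 2 (Q ^ Q)]
  refine Nat.mul_lt_mul_of_pos_right (Nat.pow_lt_pow_right one_lt_two ?_) (pow_pos (pow_pos hQ _) _)
  nlinarith [pow_pos hM 2]

theorem sorted {P : Type} [Fintype P] (r : Fin (Fintype.card P + Fintype.card P) → ℕ)
    (hr : Function.Injective r) : ∃ g : P × Bool → Fin (Fintype.card P + Fintype.card P),
      Function.Injective g ∧ ∀ p q, r (g (p, true)) < r (g (q, false)) := by
  let E : P × Bool → Fin (Fintype.card P + Fintype.card P) := fun u =>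
    if u.2 then Fin.castAdd _ (Fintype.equivFin P u.1) else Fin.natAdd _ (Fintype.equivFin P u.1)
  have hE : ∀ p q, E (p, true) < E (q, false) := by
    intro p q
    have := (Fintype.equivFin P p).2
    simp only [E, Fin.lt_def, if_true, Bool.false_eq_true, if_false, Fin.val_castAdd, Fin.val_natAdd]
    omega
  have hm : StrictMono (r ∘ Tuple.sort r) :=
    (Tuple.monotone_sort r).strictMono_of_injective (hr.comp (Tuple.sort r).injective)
  refine ⟨Tuple.sort r ∘ E, (Tuple.sort r).injective.comp ?_, fun p q => hm (hE p q)⟩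
  rintro ⟨p, _ | _⟩ ⟨q, _ | _⟩ h
  · simpa [E] using h
  · exact absurd h (hE q p).ne'
  · exact absurd h (hE p q).ne
  · simpa [E, Fin.ext_iff, Fin.val_inj] using h

def cv (l : ℕ × ℕ × ℕ) (i : ℕ) : ℕ × ℕ := (i, l.1 + i * l.2.1 + i ^ 2 * l.2.2)

theorem cv_eq {l m : ℕ × ℕ × ℕ} {i j k : ℕ} (hij : i ≠ j) (hik : i ≠ k) (hjk : j ≠ k)
    (hi : cv l i = cv m i) (hj : cv l j = cv m j) (hk : cv l k = cv m k) : l = m := by
  obtain ⟨a, b, c⟩ := l
  obtain ⟨a', b', c'⟩ := m
  simp only [cv, Prod.mk.injEq, true_and] at hi hj hk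
  zify at *
  have h1 : ((i : ℤ) - j) * ((b - b') + (i + j) * (c - c')) = 0 := by linear_combination hi - hj
  have h2 : ((i : ℤ) - k) * ((b - b') + (i + k) * (c - c')) = 0 := by linear_combination hi - hk
  have h3 := (mul_eq_zero.1 h1).resolve_left (sub_ne_zero.2 hij)
  have h4 := (mul_eq_zero.1 h2).resolve_left (sub_ne_zero.2 hik)
  have h5 : ((j : ℤ) - k) * (c - c') = 0 := by linear_combination h3 - h4
  have h6 := (mul_eq_zero.1 h5).resolve_left (sub_ne_zero.2 hjk)
  have h7 : (b : ℤ) - b' = 0 := by linear_combination h3 - (i + j) * h6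
  have h8 : (a : ℤ) - a' = 0 := by linear_combination hi - i * h7 - i ^ 2 * h6
  simp only [Prod.mk.injEq]
  omega

theorem design (P : Type) [Fintype P] :
    ∃ (S : Set (ℕ × ℕ × ℕ)) (τ : ℕ × ℕ × ℕ → P × Bool → ℕ),
      (∀ l ∈ S, Function.Injective (τ l)) ∧ ∀ ρ : ℕ × ℕ → ℕ, Function.Injective ρ →
        ∃ l ∈ S, ∀ p q, ρ (cv l (τ l (p, true))) < ρ (cv l (τ l (q, false))) := by
  classical
  set L := Fintype.card P + Fintype.card P
  have : Nonempty (P × Bool → Fin L) := ⟨(sorted Fin.val Fin.val_injective).choose⟩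
  obtain ⟨M, hM, h⟩ := ineq (Fintype.card (P × Bool → Fin L)) ((L * (1 + L + L ^ 2)) ^ 2)
    Fintype.card_pos
  let up : Fin M × Fin M × Fin M → ℕ × ℕ × ℕ := fun l => (l.1, l.2.1, l.2.2)
  have hup : Function.Injective up := by
    rintro ⟨a, b, c⟩ ⟨a', b', c'⟩ h
    simpa [up, Fin.val_inj] using h
  let v : Fin M × Fin M × Fin M → Fin L → Fin L × Fin ((1 + L + L ^ 2) * M) := fun l i =>
    (i, ⟨(cv (up l) i).2, by
      have h1 := l.1.2
      have h2 : (i : ℕ) * l.2.1 ≤ L * M := Nat.mul_le_mul i.2.le l.2.1.2.le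
      have h3 : (i : ℕ) ^ 2 * l.2.2 ≤ L ^ 2 * M :=
        Nat.mul_le_mul (Nat.pow_le_pow_left i.2.le 2) l.2.2.2.le
      simp only [cv, up]
      nlinarith⟩)
  obtain ⟨τ, hτ⟩ := count (Λ := Fin M × Fin M × Fin M)
    (fun (ρ : Fin L × Fin ((1 + L + L ^ 2) * M) → Fin L × Fin ((1 + L + L ^ 2) * M) → Bool) l =>
      Classical.epsilon fun g : P × Bool → Fin L => Function.Injective g ∧
        ∀ p q, ρ (v l (g (p, true))) (v l (g (q, false))) = true) (by
      have e1 : Fintype.card (Fin M × Fin M × Fin M) = M ^ 3 := by simp; ring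
      have e2 : Fintype.card (Fin L × Fin ((1 + L + L ^ 2) * M) →
          Fin L × Fin ((1 + L + L ^ 2) * M) → Bool) = 2 ^ ((L * (1 + L + L ^ 2)) ^ 2 * M ^ 2) := by
        simp only [Fintype.card_fun, Fintype.card_prod, Fintype.card_fin, Fintype.card_bool,
          ← pow_mul]
        congr 1; ring
      rwa [e1, e2])
  refine ⟨{l | Function.Injective (Function.extend up (fun l u => (τ l u : ℕ)) 0 l)},
    Function.extend up (fun l u => (τ l u : ℕ)) 0, fun l hl => hl, fun ρ hρ => ?_⟩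
  obtain ⟨l, hl⟩ := hτ fun a b => decide (ρ (a.1, a.2) < ρ (b.1, b.2))
  have hs := Classical.epsilon_spec (p := fun g : P × Bool → Fin L => Function.Injective g ∧
    ∀ p q, decide (ρ ((v l (g (p, true))).1, (v l (g (p, true))).2) <
      ρ ((v l (g (q, false))).1, (v l (g (q, false))).2)) = true) (by
    obtain ⟨g, hg1, hg2⟩ := sorted (fun i : Fin L => ρ (cv (up l) i)) fun i j h => by
      have := hρ h
      simp only [cv, Prod.mk.injEq] at this
      exact Fin.ext this.1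
    exact ⟨g, hg1, fun p q => decide_eq_true (hg2 p q)⟩)
  rw [← hl] at hs
  refine ⟨up l, ?_, fun p q => ?_⟩
  · rw [Set.mem_ofPred_eq, hup.extend_apply]
    exact Fin.val_injective.comp hs.1
  · rw [hup.extend_apply]
    exact of_decide_eq_true (hs.2 p q)

end Pool.Agent.H26.AG
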