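import Pool.Agent.H26.SeqSp

open Finset

namespace Pool.Agent.H26.AG

noncomputable def phi (l : Finset ℕ × (ℕ → ℕ)) (k : ℕ) (c : ℕ → ℝ) : ℝ :=
  ∑ n ∈ l.1.filter (fun n => l.2 n < k), c n / 2 ^ l.2 n

def Le (F : Set (Finset ℕ × (ℕ → ℕ))) (c : ℕ → ℝ) (M : ℝ) : Prop :=
  (∀ (j : ℕ) (S : Finset ℕ), S.card ≤ 4 ^ j → ∑ n ∈ S, |c n| ≤ 2 ^ j * M) ∧
    ∀ l ∈ F, ∀ k, |phi l k c| ≤ M

def Thin (l : Finset ℕ × (ℕ → ℕ)) : Prop := ∀ k, phi l k (fun _ => 1) ≤ 2 * 2 ^ k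

lemma phi_head {l : Finset ℕ × (ℕ → ℕ)} (hl : Thin l) (k : ℕ) (c : ℕ → ℝ) (t : ℝ) (ht : 0 ≤ t)
    (hc : ∀ n, |c n| ≤ t) : |phi l k c| ≤ 2 * 2 ^ k * t := by
  refine (abs_sum_le_sum_abs _ _).trans (le_trans ?_ (mul_le_mul_of_nonneg_right (hl k) ht))
  rw [phi, sum_mul]
  refine sum_le_sum fun n _ => ?_
  rw [abs_div, abs_of_pos (by positivity : (0 : ℝ) < 2 ^ l.2 n), div_mul_eq_mul_div, one_mul]
  gcongr
  exact hc n

lemma phi_tail (l : Finset ℕ × (ℕ → ℕ)) (k0 k : ℕ) (hk : k0 ≤ k) (c : ℕ → ℝ) (T : Finset ℕ)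
    (hc : ∀ n ∉ T, c n = 0) : |phi l k c - phi l k0 c| ≤ (∑ n ∈ T, |c n|) / 2 ^ k0 := by
  have hs : l.1.filter (fun n => l.2 n < k0) ⊆ l.1.filter (fun n => l.2 n < k) :=
    fun n hn => by simp only [mem_filter] at hn ⊢; exact ⟨hn.1, by omega⟩
  rw [phi, phi, ← sum_sdiff hs, add_sub_cancel_right, sum_div]
  refine (abs_sum_le_sum_abs _ _).trans (le_trans (sum_le_sum (g := fun n => |c n| / 2 ^ k0)
    fun n hn => ?_) ?_)
  · have : k0 ≤ l.2 n := by
      simp only [mem_sdiff, mem_filter, not_and, not_lt] at hn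
      exact hn.2 hn.1.1
    rw [abs_div, abs_of_pos (by positivity : (0 : ℝ) < 2 ^ l.2 n)]
    gcongr
    norm_num
  · rw [← sum_filter_ne_zero]
    refine sum_le_sum_of_subset_of_nonneg (fun n h => ?_) (fun n _ _ => by positivity)
    by_contra h'
    simp [hc n h'] at h

lemma phi_sub (l : Finset ℕ × (ℕ → ℕ)) (k : ℕ) (c d : ℕ → ℝ) :
    phi l k (fun n => c n - d n) = phi l k c - phi l k d := by
  simp [phi, sub_div, sum_sub_distrib]

theorem key (F : Set (Finset ℕ × (ℕ → ℕ))) (hF : ∀ l ∈ F, Thin l) (y z : ℕ → ℝ) (M : ℝ)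
    (hM : 0 ≤ M) (D E : Finset ℕ) (hE : E.card ≤ D.card) (h1 : ∀ n ∉ D, n ∉ E → z n = y n)
    (h2 : ∀ n ∈ D, z n = 0) (h3 : ∀ n ∈ E, y n = 0) (h4 : ∀ n ∈ D, ∀ k, |z k| ≤ |y n|)
    (h : Le F y M) : Le F z (9 * M) := by
  rcases D.eq_empty_or_nonempty with rfl | hD
  · have : z = y := funext fun n => h1 n (by simp) (by simp [card_eq_zero.1 (Nat.le_zero.1 hE)])
    rw [this]
    exact ⟨fun j S hS => (h.1 j S hS).trans (by gcongr; linarith),
      fun l hl k => (h.2 l hl k).trans (by linarith)⟩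
  obtain ⟨i, hi, hmin⟩ := D.exists_min_image (fun n => |y n|) hD
  set t := |y i|
  have ht : 0 ≤ t := abs_nonneg _
  have hz : ∀ k, |z k| ≤ t := h4 i hi
  obtain ⟨j, hj1, hj2⟩ : ∃ j, 4 ^ j ≤ D.card ∧ D.card < 4 ^ (j + 1) :=
    ⟨Nat.log 4 D.card, Nat.pow_log_le_self 4 (card_pos.2 hD).ne', Nat.lt_pow_succ_log_self
      (by norm_num) _⟩
  have e4 : ∀ j : ℕ, (4 : ℝ) ^ j = 2 ^ j * 2 ^ j := fun j => by rw [← mul_pow]; norm_num
  have htM : 2 ^ j * t ≤ M := by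
    obtain ⟨S, hS, hc⟩ := exists_subset_card_eq hj1
    have h5 := h.1 j S hc.le
    have h6 := card_nsmul_le_sum S (fun n => |y n|) t fun n hn => hmin n (hS hn)
    rw [hc, nsmul_eq_mul] at h6
    push_cast at h6
    rw [e4, mul_assoc] at h6
    exact le_of_mul_le_mul_left (h6.trans h5) (by positivity)
  have hEs : ∀ S : Finset ℕ, ∑ n ∈ S, |z n| ≤ S.card * t := fun S => by
    simpa using sum_le_card_nsmul S (fun n => |z n|) t fun n _ => hz n
  have hE2 : ∑ n ∈ E, |z n| ≤ 2 ^ (j + 1) * (2 * M) := by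
    have h5 : (E.card : ℝ) ≤ 4 ^ (j + 1) := by exact_mod_cast hE.trans hj2.le
    refine (hEs E).trans ((mul_le_mul_of_nonneg_right h5 ht).trans ?_)
    rw [e4, mul_assoc]
    refine mul_le_mul_of_nonneg_left ?_ (by positivity)
    rw [pow_succ]; linarith
  refine ⟨fun a S hS => ?_, fun l hl k => ?_⟩
  · by_cases ha : a ≤ j + 1
    · have h5 : (S.card : ℝ) ≤ 4 ^ a := by exact_mod_cast hS
      refine (hEs S).trans ((mul_le_mul_of_nonneg_right h5 ht).trans ?_)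
      rw [e4, mul_assoc]
      have h6 : (2 : ℝ) ^ a ≤ 2 ^ (j + 1) := pow_le_pow_right₀ one_le_two ha
      rw [pow_succ] at h6
      refine mul_le_mul_of_nonneg_left ?_ (by positivity)
      nlinarith
    · have h6 : (2 : ℝ) ^ (j + 1) ≤ 2 ^ a := pow_le_pow_right₀ one_le_two (by omega)
      have h7 : ∑ n ∈ S, |z n| ≤ ∑ n ∈ S, |y n| + ∑ n ∈ E, |z n| := by
        rw [← sum_filter_add_sum_filter_not S (· ∈ E), add_comm]
        refine add_le_add (le_trans (sum_le_sum fun n hn => ?_)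
          (sum_le_sum_of_subset_of_nonneg (filter_subset _ _) fun _ _ _ => abs_nonneg _))
          (sum_le_sum_of_subset_of_nonneg (fun n hn => (mem_filter.1 hn).2)
            fun _ _ _ => abs_nonneg _)
        by_cases hn' : n ∈ D
        · simp [h2 n hn']
        · rw [h1 n hn' (mem_filter.1 hn).2]
      have := h.1 a S hS
      nlinarith [mul_le_mul_of_nonneg_right h6 hM, pow_pos (two_pos (α := ℝ)) a]
  · by_cases hk : k ≤ j + 1
    · have h6 : (2 : ℝ) ^ k ≤ 2 ^ (j + 1) := pow_le_pow_right₀ one_le_two hk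
      have := phi_head (hF l hl) k z t ht hz
      rw [pow_succ] at h6
      nlinarith
    · have a1 := phi_head (hF l hl) (j + 1) z t ht hz
      have a2 := phi_tail l (j + 1) k (by omega) (fun n => z n - y n) (D ∪ E) fun n hn => by
        rw [mem_union, not_or] at hn
        rw [h1 n hn.1 hn.2, sub_self]
      have a3 : ∑ n ∈ D ∪ E, |z n - y n| ≤ 2 ^ (j + 1) * (3 * M) := by
        have b1 : ∑ n ∈ D, |z n - y n| = ∑ n ∈ D, |y n| :=
          sum_congr rfl fun n hn => by simp [h2 n hn]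
        have b2 : ∑ n ∈ E, |z n - y n| = ∑ n ∈ E, |z n| :=
          sum_congr rfl fun n hn => by simp [h3 n hn]
        have b3 := sum_union_inter (s₁ := D) (s₂ := E) (f := fun n => |z n - y n|)
        have b4 : 0 ≤ ∑ n ∈ D ∩ E, |z n - y n| := sum_nonneg fun _ _ => abs_nonneg _
        have b5 := h.1 (j + 1) D hj2.le
        linarith
      have a4 : (∑ n ∈ D ∪ E, |z n - y n|) / 2 ^ (j + 1) ≤ 3 * M := by
        rw [div_le_iff₀' (by positivity)]; exact a3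
      rw [phi_sub, phi_sub] at a2
      have a5 := abs_le.1 (h.2 l hl k)
      have a6 := abs_le.1 (h.2 l hl (j + 1))
      have a7 := abs_le.1 (a2.trans a4)
      have a8 := abs_le.1 a1
      rw [pow_succ] at a8
      rw [abs_le]
      constructor <;> nlinarith

def Good (F : Set (Finset ℕ × (ℕ → ℕ))) (φ : (ℕ → ℝ) →L[ℝ] ℝ) : Prop :=
  (∃ (j : ℕ) (S : Finset ℕ) (s : ℕ → ℝ), S.card ≤ 4 ^ j ∧ (∀ n, |s n| ≤ 1) ∧
    ∀ c, φ c = (∑ n ∈ S, s n * c n) / 2 ^ j) ∨ ∃ l ∈ F, ∃ k, ∀ c, φ c = phi l k c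

lemma le_iff (F : Set (Finset ℕ × (ℕ → ℕ))) (c : ℕ → ℝ) (M : ℝ) :
    (∀ w : {φ // Good F φ}, ‖w.1 c‖ ≤ M) ↔ Le F c M := by
  constructor
  · intro h
    refine ⟨fun j S hS => ?_, fun l hl k => ?_⟩
    · have := h ⟨∑ n ∈ S, ((SignType.sign (c n) : ℝ) / 2 ^ j) • ContinuousLinearMap.proj n,
        Or.inl ⟨j, S, fun n => SignType.sign (c n), hS, fun n => by
          rcases lt_trichotomy (c n) 0 with h | h | h <;> simp [h], fun d => by
          simp [sum_div, div_mul_eq_mul_div]⟩⟩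
      simp only [_root_.sum_apply, _root_.smul_apply, ContinuousLinearMap.proj_apply, smul_eq_mul,
        div_mul_eq_mul_div, sign_mul_self, ← sum_div, Real.norm_eq_abs] at this
      rw [← div_le_iff₀' (by positivity)]
      exact (le_abs_self _).trans this
    · have := h ⟨∑ n ∈ l.1.filter (fun n => l.2 n < k), ((1 : ℝ) / 2 ^ l.2 n) •
        ContinuousLinearMap.proj n, Or.inr ⟨l, hl, k, fun d => by
          simp [phi, div_eq_inv_mul]⟩⟩
      simpa [phi, div_eq_inv_mul] using this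
  · rintro h ⟨φ, ⟨j, S, s, hS, hs, hφ⟩ | ⟨l, hl, k, hφ⟩⟩
    · rw [Real.norm_eq_abs, hφ, abs_div, abs_of_pos (by positivity : (0 : ℝ) < 2 ^ j),
        div_le_iff₀' (by positivity)]
      refine (abs_sum_le_sum_abs _ _).trans ((sum_le_sum fun n _ => ?_).trans (h.1 j S hS))
      rw [abs_mul]
      exact mul_le_of_le_one_left (abs_nonneg _) (hs n)
    · rw [Real.norm_eq_abs, hφ]; exact h.2 l hl k

lemma le_single (F : Set (Finset ℕ × (ℕ → ℕ))) (n : ℕ) : Le F (Pi.single n 1) 1 := by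
  refine ⟨fun j S _ => ?_, fun l _ k => ?_⟩
  · have : ∑ m ∈ S, |(Pi.single n 1 : ℕ → ℝ) m| ≤ 1 := by
      simp only [Pi.single_apply, apply_ite abs, abs_one, abs_zero, sum_ite_eq']
      split_ifs <;> simp
    rw [mul_one]
    exact this.trans (one_le_pow₀ one_le_two)
  · simp only [phi, Pi.single_apply, ite_div, zero_div, sum_ite_eq']
    split_ifs
    · rw [abs_of_pos (by positivity), div_le_one (by positivity)]
      exact one_le_pow₀ one_le_two
    · simp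

theorem space (F : Set (Finset ℕ × (ℕ → ℕ))) (hF : ∀ l ∈ F, Thin l) :
    ∃ (X : Type) (_ : NormedAddCommGroup X) (_ : NormedSpace ℝ X) (_ : CompleteSpace X)
      (e : ℕ → X) (f : ℕ → X →L[ℝ] ℝ), (∀ k n, f k (e n) = if k = n then 1 else 0) ∧
      Dense (Submodule.span ℝ (Set.range e) : Set X) ∧ (∀ x, (∀ n, f n x = 0) → x = 0) ∧
      (∀ x, Le F (fun n => f n x) ‖x‖) ∧ (∀ x C, 0 ≤ C → Le F (fun n => f n x) C → ‖x‖ ≤ C) ∧
      ∀ (x : X) (A B : Finset ℕ), (∀ i ∈ A, ∀ j : ℕ, j ∉ A → ‖f j x‖ ≤ ‖f i x‖) →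
        B.card ≤ A.card → ‖x - ∑ i ∈ A, f i x • e i‖ ≤ 9 * ‖x - ∑ i ∈ B, f i x • e i‖ := by
  obtain ⟨X, _, _, _, e, f, h1, h2, h3, h4, h5⟩ := Pool.Agent.H26.SeqSp.exists_space ℝ
    (fun w : {φ // Good F φ} => w.1) (fun n => ⟨1, (le_iff F _ _).2 (le_single F n)⟩)
    (fun n => ⟨⟨ContinuousLinearMap.proj n, Or.inl ⟨0, {n}, fun _ => 1, by simp, by simp,
      by simp⟩⟩, ContinuousLinearMap.id ℝ ℝ, fun c => rfl⟩)
  have hle : ∀ x, Le F (fun n => f n x) ‖x‖ := fun x => (le_iff F _ _).1 fun w => h4 w x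
  have hge : ∀ x C, 0 ≤ C → Le F (fun n => f n x) C → ‖x‖ ≤ C := fun x C h0 h =>
    h5 x C h0 ((le_iff F _ _).2 h)
  have hco : ∀ (x : X) (A : Finset ℕ) (k : ℕ),
      f k (x - ∑ n ∈ A, f n x • e n) = if k ∈ A then 0 else f k x := by
    intro x A k
    simp only [map_sub, map_sum, map_smul, h1, smul_eq_mul, mul_ite, mul_one, mul_zero,
      Finset.sum_ite_eq]
    split_ifs <;> simp
  refine ⟨X, inferInstance, inferInstance, inferInstance, e, f, h1, h2, h3, hle, hge,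
    fun x A B hA hB => hge _ _ (by positivity) ?_⟩
  refine key F hF _ _ _ (norm_nonneg _) (A \ B) (B \ A) ?_ (fun n a b => ?_) (fun n a => ?_)
    (fun n a => ?_) (fun n a k => ?_) (hle (x - ∑ n ∈ B, f n x • e n))
  · have := card_sdiff_add_card_inter A B
    have := card_sdiff_add_card_inter B A
    rw [inter_comm] at this
    omega
  · by_cases p : n ∈ A <;> by_cases q : n ∈ B <;> simp_all
  · simp [hco, (mem_sdiff.1 a).1]
  · simp [hco, (mem_sdiff.1 a).1]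
  · obtain ⟨p, q⟩ := mem_sdiff.1 a
    by_cases r : k ∈ A
    · simp [hco, r]
    · simpa [hco, r, q] using hA n p k r

end Pool.Agent.H26.AG
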