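import Pool.Agent.H26.AG1
import Pool.Agent.H26.AG2

open Finset Filter Topology

namespace Pool.Agent.H26.AG

abbrev Pos (J : ℕ) := (Σ j : Fin J, Fin (4 ^ (j : ℕ))) × Bool

noncomputable def line {J : ℕ} (g : Pos J → ℕ) : Finset ℕ × (ℕ → ℕ) :=
  (univ.image g, Function.extend g (fun u => u.1.1) 0)

lemma phi_line {J : ℕ} {g : Pos J → ℕ} (hg : Function.Injective g) (k : ℕ) (c : ℕ → ℝ) :
    phi (line g) k c = ∑ j : Fin J, ∑ i : Fin (4 ^ (j : ℕ)), if (j : ℕ) < k then
      (c (g (⟨j, i⟩, true)) + c (g (⟨j, i⟩, false))) / 2 ^ (j : ℕ) else 0 := by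
  rw [phi, sum_filter, line, sum_image fun _ _ _ _ h => hg h, Fintype.sum_prod_type,
    Fintype.sum_sigma]
  refine sum_congr rfl fun j _ => sum_congr rfl fun i _ => ?_
  simp only [hg.extend_apply, Fintype.sum_bool]
  split_ifs <;> simp [add_div]

lemma e4 (j : ℕ) : (4 : ℝ) ^ j = 2 ^ j * 2 ^ j := by rw [← mul_pow]; norm_num

lemma thin_line {J : ℕ} {g : Pos J → ℕ} (hg : Function.Injective g) : Thin (line g) := by
  intro k
  rw [phi_line hg]
  have h1 : ∀ j : Fin J, (∑ i : Fin (4 ^ (j : ℕ)), if (j : ℕ) < k then ((1 : ℝ) + 1) / 2 ^ (j : ℕ)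
      else 0) = if (j : ℕ) < k then 2 * 2 ^ (j : ℕ) else 0 := by
    intro j
    split_ifs
    · simp [e4]; field_simp; norm_num
    · simp
  simp only [h1]
  rw [Fin.sum_univ_eq_sum_range (fun j => if j < k then (2 : ℝ) * 2 ^ j else 0), ← sum_filter]
  have h2 : ∀ k : ℕ, ∑ j ∈ range k, (2 : ℝ) * 2 ^ j ≤ 2 * 2 ^ k := by
    intro k
    induction k with
    | zero => simp
    | succ k ih => rw [sum_range_succ, pow_succ]; linarith
  refine le_trans (sum_le_sum_of_subset_of_nonneg (fun j hj => ?_) fun _ _ _ => by positivity) (h2 k)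
  exact mem_range.2 (mem_filter.1 hj).2

noncomputable def val {J : ℕ} (u : Pos J) : ℝ := (if u.2 then 1 else -1) / 2 ^ (u.1.1 : ℕ)

lemma val_abs {J : ℕ} (u : Pos J) : |val u| = 1 / 2 ^ (u.1.1 : ℕ) := by
  rw [val, abs_div, abs_of_pos (by positivity : (0 : ℝ) < 2 ^ (u.1.1 : ℕ))]
  split_ifs <;> simp

lemma test {J : ℕ} {g : Pos J → ℕ} (hg : Function.Injective g) (F : Set (Finset ℕ × (ℕ → ℕ)))
    (hF : ∀ l ∈ F, l = line g ∨ (l.1 ∩ univ.image g).card ≤ 2) (c : ℕ → ℝ)
    (h1 : ∀ u, c (g u) = val u) (h2 : ∀ n ∉ univ.image g, c n = 0) : Le F c 3 := by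
  refine ⟨fun a S hS => ?_, fun l hl k => ?_⟩
  · have h3 : ∀ n ∈ S, |c n| ≤ 1 / 2 ^ a + if n ∈ (line g).1.filter (fun n => (line g).2 n < a)
        then 1 / 2 ^ (line g).2 n else 0 := by
      intro n _
      by_cases hn : n ∈ univ.image g
      · obtain ⟨u, -, rfl⟩ := mem_image.1 hn
        rw [h1, val_abs]
        simp only [line, mem_filter, hn, true_and, hg.extend_apply]
        split_ifs with h
        · exact le_add_of_nonneg_left (by positivity)
        · rw [add_zero]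
          exact one_div_le_one_div_of_le (by positivity) (pow_le_pow_right₀ one_le_two (by omega))
      · rw [h2 n hn, abs_zero]
        split_ifs <;> positivity
    refine (sum_le_sum h3).trans ?_
    rw [sum_add_distrib, sum_ite_mem, sum_const, nsmul_eq_mul]
    have h4 := (sum_le_sum_of_subset_of_nonneg (f := fun n => (1 : ℝ) / 2 ^ (line g).2 n)
      (inter_subset_right (s₁ := S)) fun _ _ _ => by positivity).trans (thin_line hg a)
    have h5 : (S.card : ℝ) * (1 / 2 ^ a) ≤ 2 ^ a := by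
      rw [mul_one_div, div_le_iff₀ (by positivity), ← e4]
      exact_mod_cast hS
    linarith
  · rcases hF l hl with rfl | h
    · simp [phi_line hg, h1, val, neg_div]
    · have h3 := phi_tail l 0 k (Nat.zero_le k) (fun n => if n ∈ l.1 then c n else 0)
        (l.1 ∩ univ.image g) fun n hn => by
          split_ifs with h
          · exact h2 n fun h' => hn (mem_inter.2 ⟨h, h'⟩)
          · rfl
      have h4 : phi l k (fun n => if n ∈ l.1 then c n else 0) = phi l k c :=
        sum_congr rfl fun n hn => by simp [(mem_filter.1 hn).1]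
      have h5 := sum_le_card_nsmul (l.1 ∩ univ.image g)
        (fun n => |if n ∈ l.1 then c n else 0|) 1 fun n hn => by
          obtain ⟨u, -, rfl⟩ := mem_image.1 (mem_inter.1 hn).2
          rw [if_pos (mem_inter.1 hn).1, h1, val_abs, div_le_one (by positivity)]
          exact one_le_pow₀ one_le_two
      have h6 : ((l.1 ∩ univ.image g).card : ℝ) ≤ 2 := by exact_mod_cast h
      rw [h4, show ∀ d, phi l 0 d = 0 from fun d => by simp [phi], sub_zero, pow_zero,
        div_one] at h3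
      rw [nsmul_eq_mul, mul_one] at h5
      linarith

theorem main : ∃ (X : Type) (_ : NormedAddCommGroup X) (_ : NormedSpace ℝ X) (_ : CompleteSpace X)
    (e : ℕ → X) (f : ℕ → X →L[ℝ] ℝ), (∀ k n, f k (e n) = if k = n then 1 else 0) ∧
    Dense (Submodule.span ℝ (Set.range e) : Set X) ∧ (∀ x, (∀ n, f n x = 0) → x = 0) ∧
    (∀ n, ‖e n‖ = 1 ∧ ∀ x, ‖f n x‖ ≤ ‖x‖) ∧
    (∀ (x : X) (A B : Finset ℕ), (∀ i ∈ A, ∀ j : ℕ, j ∉ A → ‖f j x‖ ≤ ‖f i x‖) →
      B.card ≤ A.card → ‖x - ∑ i ∈ A, f i x • e i‖ ≤ 9 * ‖x - ∑ i ∈ B, f i x • e i‖) ∧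
    ∀ π : Equiv.Perm ℕ, ∃ x : X,
      ¬ Tendsto (fun n : ℕ => ∑ k ∈ range n, f (π k) x • e (π k)) atTop (𝓝 x) := by
  choose S τ hτ hρ using fun J : ℕ => design (Σ j : Fin J, Fin (4 ^ (j : ℕ)))
  let g : ∀ J, ℕ × ℕ × ℕ → Pos J → ℕ := fun J l u => Encodable.encode (J, cv l (τ J l u))
  have hg : ∀ J, ∀ l ∈ S J, Function.Injective (g J l) := fun J l hl u v h => by
    have := Encodable.encode_injective h
    simp only [cv, Prod.mk.injEq, true_and] at this
    exact hτ J l hl this.1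
  let F : Set (Finset ℕ × (ℕ → ℕ)) := {L | ∃ J, ∃ l ∈ S J, L = line (g J l)}
  obtain ⟨X, _, _, _, e, f, h1, h2, h3, hle, hge, h4⟩ := space F (by
    rintro _ ⟨J, l, hl, rfl⟩; exact thin_line (hg J l hl))
  have hf : ∀ n x, ‖f n x‖ ≤ ‖x‖ := fun n x => by simpa using (hle x).1 0 {n} (by simp)
  refine ⟨X, inferInstance, inferInstance, inferInstance, e, f, h1, h2, h3,
    fun n => ⟨le_antisymm (hge _ _ zero_le_one ?_) (by simpa [h1] using hf n (e n)), hf n⟩, h4,
    fun π => ?_⟩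
  · rw [show (fun k => f k (e n)) = Pi.single n 1 from funext fun k => by rw [h1, Pi.single_apply]]
    exact le_single F n
  by_contra hc
  push Not at hc
  let T : ℕ → X →L[ℝ] X := fun n => ∑ k ∈ range n, (f (π k)).smulRight (e (π k))
  have hT : ∀ n x, T n x = ∑ k ∈ range n, f (π k) x • e (π k) := fun n x => by simp [T]
  obtain ⟨C, hC⟩ := banach_steinhaus (g := T) fun x => by
    obtain ⟨C, hC⟩ := (hc x).norm.bddAbove_range
    exact ⟨C, fun n => hC ⟨n, by simp only [hT]⟩⟩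
  obtain ⟨J, hJ⟩ := exists_nat_gt (C * 3)
  obtain ⟨l, hl, hlt⟩ := hρ J (fun v => π.symm (Encodable.encode (J, v))) fun u v h => by
    simpa using Encodable.encode_injective (π.symm.injective h)
  have hgl := hg J l hl
  let x : X := ∑ u : Pos J, val u • e (g J l u)
  have hx1 : ∀ u, f (g J l u) x = val u := fun u => by simp [x, h1, hgl.eq_iff]
  have hx2 : ∀ n ∉ univ.image (g J l), f n x = 0 := fun n hn => by
    simp only [x, map_sum, map_smul, h1]
    refine sum_eq_zero fun u _ => ?_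
    rw [if_neg, smul_zero]
    rintro rfl
    exact hn (mem_image_of_mem _ (mem_univ _))
  have hx : ‖x‖ ≤ 3 := by
    refine hge _ _ (by norm_num) (test hgl F ?_ _ hx1 hx2)
    rintro _ ⟨J', l', hl', rfl⟩
    by_contra hh
    rw [not_or, not_le, two_lt_card] at hh
    obtain ⟨hne, a, ha, b, hb, c, hc, hab, hac, hbc⟩ := hh
    have key : ∀ n ∈ (line (g J' l')).1 ∩ univ.image (g J l), J' = J ∧
        ∃ i, cv l' i = cv l i ∧ n = Encodable.encode (J, cv l i) := by
      intro n hn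
      obtain ⟨u, -, hu⟩ := mem_image.1 (mem_inter.1 hn).1
      obtain ⟨v, -, rfl⟩ := mem_image.1 (mem_inter.1 hn).2
      obtain ⟨e1, e2⟩ := Prod.mk.inj (Encodable.encode_injective hu)
      have e3 : τ J' l' u = τ J l v := (Prod.mk.inj e2).1
      exact ⟨e1, τ J l v, by rwa [e3] at e2, rfl⟩
    obtain ⟨rfl, i, hi, rfl⟩ := key a ha
    obtain ⟨-, j, hj, rfl⟩ := key b hb
    obtain ⟨-, k, hk, rfl⟩ := key c hc
    refine hne ?_
    rw [cv_eq (fun h => hab (by rw [h])) (fun h => hac (by rw [h])) (fun h => hbc (by rw [h]))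
      hi hj hk]
  obtain ⟨N, hN1, hN2⟩ : ∃ N, (∀ p, π.symm (g J l (p, true)) < N) ∧
      ∀ q, ¬ π.symm (g J l (q, false)) < N := by
    refine ⟨univ.sup fun p => π.symm (g J l (p, true)) + 1, fun p => ?_, fun q => ?_⟩
    · exact le_sup (f := fun p => π.symm (g J l (p, true)) + 1) (mem_univ p)
    · exact not_lt.2 (Finset.sup_le fun p _ => hlt p q)
  have hco : ∀ n, f n (T N x) = if π.symm n < N then f n x else 0 := by
    intro n
    obtain ⟨m, rfl⟩ := π.surjective n
    simp [hT, h1]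
  have h5 := (hle (T N x)).2 _ ⟨J, l, hl, rfl⟩ J
  have h6 : phi (line (g J l)) J (fun n => f n (T N x)) = J := by
    rw [phi_line hgl]
    have : ∀ j : Fin J, ∑ i : Fin (4 ^ (j : ℕ)), (1 : ℝ) / 2 ^ (j : ℕ) / 2 ^ (j : ℕ) = 1 := by
      intro j
      simp [e4]; field_simp
    simp only [hco, hN1, hN2, hx1, val, Fin.is_lt, if_true, if_false, add_zero, this]
    simp
  rw [h6, Nat.abs_cast] at h5
  have h7 := (T N).le_opNorm x
  nlinarith [hC N, norm_nonneg (T N), norm_nonneg x]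

end Pool.Agent.H26.AG
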