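import Mathlib

set_option autoImplicit false

namespace Pool.Agent.H26.AR

open MeasureTheory Filter Topology Finset ENNReal

structure Tail where
  T : ℕ → ℝ
  zero : T 0 = 1
  anti : ∀ k, T (k + 1) < T k
  lim : Tendsto T atTop (𝓝 0)

namespace Tail

variable (t : Tail)

def p (k : ℕ) : ℝ := t.T k - t.T (k + 1)

lemma p_pos (k : ℕ) : 0 < t.p k := sub_pos.mpr (t.anti k)

lemma T_pos (k : ℕ) : 0 < t.T k := by
  have h := strictAnti_nat_of_succ_lt t.anti
  exact (h.antitone.le_of_tendsto t.lim (k + 1)).trans_lt (t.anti k)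

lemma T_le (k : ℕ) : t.T k ≤ 1 := t.zero ▸ (strictAnti_nat_of_succ_lt t.anti).antitone k.zero_le

lemma p_le (k : ℕ) : t.p k ≤ 1 := by unfold p; linarith [t.T_le k, t.T_pos (k + 1)]

lemma p_sum (n : ℕ) : ∑ k ∈ range n, t.p k = 1 - t.T n := by
  induction n with
  | zero => simp [t.zero]
  | succ n ih => rw [sum_range_succ, ih, p]; ring

lemma p_hasSum : HasSum t.p 1 := by
  rw [hasSum_iff_tendsto_nat_of_nonneg fun k => (t.p_pos k).le]
  simp only [p_sum]
  simpa using tendsto_const_nhds.sub t.lim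

lemma p_tsum : ∑' k, ENNReal.ofReal (t.p k) = 1 := by
  rw [← ENNReal.ofReal_tsum_of_nonneg (fun k => (t.p_pos k).le) t.p_hasSum.summable,
    t.p_hasSum.tsum_eq, ofReal_one]

noncomputable def idx : PMF ℕ :=
  ⟨fun k => ENNReal.ofReal (t.p k), t.p_tsum ▸ ENNReal.summable.hasSum⟩

noncomputable def nu : PMF (ℕ × Bool) :=
  t.idx.bind fun k => (PMF.uniformOfFintype Bool).map fun b => (k, b)

lemma nu_fst (s : Set ℕ) : t.nu.toMeasure (Prod.fst ⁻¹' s) = t.idx.toMeasure s := by
  have : t.nu.map Prod.fst = t.idx := by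
    simp only [nu, PMF.map_bind, PMF.map_comp]
    conv_rhs => rw [← PMF.bind_pure t.idx]
    congr 1
    funext k
    exact PMF.map_const _ _
  rw [← this, PMF.toMeasure_map_apply _ _ _ measurable_fst (MeasurableSet.of_discrete)]

lemma idx_single (K : ℕ) : t.idx.toMeasure {K} = ENNReal.ofReal (t.p K) :=
  PMF.toMeasure_apply_singleton _ _ (measurableSet_singleton _)

lemma idx_range (K : ℕ) : t.idx.toMeasure (range K : Set ℕ) = ENNReal.ofReal (1 - t.T K) := by
  rw [PMF.toMeasure_apply_finset, ← p_sum, ofReal_sum_of_nonneg fun k _ => (t.p_pos k).le]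
  rfl

lemma idx_compl (s : Set ℕ) (c : ℝ) (hc : 0 ≤ c) (h : t.idx.toMeasure s = ENNReal.ofReal c) :
    t.idx.toMeasure sᶜ = ENNReal.ofReal (1 - c) := by
  rw [prob_compl_eq_one_sub MeasurableSet.of_discrete, h, ofReal_sub _ hc, ofReal_one]

lemma nu_supp (x : ℕ × Bool) : x ∈ t.nu.support := by
  simp only [nu, PMF.support_map, PMF.support_bind, Set.mem_image, Set.mem_iUnion]
  exact ⟨x.1, (ofReal_pos.mpr (t.p_pos _)).ne', x.2, by simp, rfl⟩

lemma nu_flip (u : ℕ → Bool) : t.nu.map (fun x => (x.1, xor (u x.1) x.2)) = t.nu := by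
  simp only [nu, PMF.map_bind, PMF.map_comp]
  congr 1
  funext k
  have h1 : (PMF.uniformOfFintype Bool).map (fun b => xor (u k) b) = PMF.uniformOfFintype Bool := by
    ext b
    rw [PMF.map_apply, tsum_eq_single (xor (u k) b)]
    · simp
    · intro c hc
      rw [if_neg]
      rintro rfl
      simp at hc
  conv_rhs => rw [← h1, PMF.map_comp]
  rfl

lemma symm {Γ : Type} [InvolutiveInv Γ] (φ : ℕ × Bool → Γ) (h : ∀ k b, φ (k, !b) = (φ (k, b))⁻¹)
    (g : Γ) : (t.nu.map φ) g⁻¹ = (t.nu.map φ) g := by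
  have h2 : (t.nu.map φ).map (fun g => g⁻¹) = t.nu.map φ := by
    conv_rhs => rw [← t.nu_flip fun _ => true]
    simp only [PMF.map_comp]
    congr 1
    funext x
    simp [h]
  conv_rhs => rw [← h2, PMF.map_apply, tsum_eq_single g⁻¹ (fun c hc => by
    rw [if_neg]; rintro rfl; simp at hc)]
  simp

lemma supp {Γ : Type} (φ : ℕ × Bool → Γ) : (t.nu.map φ).support = Set.range φ := by
  ext g
  simp only [PMF.support_map, Set.mem_image, Set.mem_range]
  exact ⟨fun ⟨x, _, h⟩ => ⟨x, h⟩, fun ⟨x, h⟩ => ⟨x, t.nu_supp x, h⟩⟩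

noncomputable abbrev P : Measure (ℕ → ℕ × Bool) := Measure.infinitePi fun _ : ℕ => t.nu.toMeasure

lemma map_eq {Γ : Type} [MeasurableSpace Γ] (φ : ℕ × Bool → Γ) :
    t.P.map (fun ω i => φ (ω i)) = Measure.infinitePi fun _ : ℕ => (t.nu.map φ).toMeasure := by
  have hm : Measurable φ := measurable_of_countable _
  have e := Measure.infinitePi_map_pi (fun _ : ℕ => t.nu.toMeasure) (f := fun _ => φ) fun _ => hm
  simpa only [PMF.toMeasure_map _ _ hm] using e

lemma ae_pull {Γ : Type} [MeasurableSpace Γ] (φ : ℕ × Bool → Γ) (Q : (ℕ → Γ) → Prop)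
    (h : ∀ᵐ ζ ∂(Measure.infinitePi fun _ : ℕ => (t.nu.map φ).toMeasure), Q ζ) :
    ∀ᵐ ω ∂t.P, Q fun i => φ (ω i) := by
  have hm : Measurable φ := measurable_of_countable _
  rw [← t.map_eq] at h
  exact ae_of_ae_map (Measurable.aemeasurable (by fun_prop)) h

lemma ae_push {Γ : Type} [MeasurableSpace Γ] [DiscreteMeasurableSpace Γ] (φ : ℕ × Bool → Γ)
    (hφ : Function.Injective φ) (Q : (ℕ → Γ) → Prop) (h : ∀ᵐ ω ∂t.P, Q fun i => φ (ω i)) :
    ∀ᵐ ζ ∂(Measure.infinitePi fun _ : ℕ => (t.nu.map φ).toMeasure), Q ζ := by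
  have hm : Measurable φ := measurable_of_countable _
  have hi : Measurable (Function.invFun φ) := Measurable.of_discrete
  have he : MeasurableEmbedding (fun (ω : ℕ → ℕ × Bool) i => φ (ω i)) := by
    refine MeasurableEmbedding.of_measurable_inverse (g := fun ζ i => Function.invFun φ (ζ i))
      (by fun_prop) ?_ (by fun_prop) fun ω => funext fun i => Function.leftInverse_invFun hφ _
    have : Set.range (fun (ω : ℕ → ℕ × Bool) i => φ (ω i)) =
        ⋂ i, (fun ζ : ℕ → Γ => ζ i) ⁻¹' Set.range φ := by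
      ext ζ
      simp only [Set.mem_range, Set.mem_iInter, Set.mem_preimage]
      constructor
      · rintro ⟨ω, rfl⟩ i; exact ⟨_, rfl⟩
      · intro h; choose ω hω using h; exact ⟨ω, funext hω⟩
    rw [this]
    exact .iInter fun i => measurable_pi_apply i MeasurableSet.of_discrete
  rw [← t.map_eq, he.ae_map_iff]
  exact h

lemma P_all (N : ℕ) (s : Set ℕ) :
    t.P {ω | ∀ i < N, (ω i).1 ∈ s} = t.idx.toMeasure s ^ N := by
  have : {ω : ℕ → ℕ × Bool | ∀ i < N, (ω i).1 ∈ s} =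
      Set.pi (range N) fun _ => Prod.fst ⁻¹' s := by ext; simp
  rw [this, Measure.infinitePi_pi _ fun i _ => MeasurableSet.of_discrete]
  simp [nu_fst]

lemma P_one (i : ℕ) (s : Set ℕ) : t.P {ω | (ω i).1 ∈ s} = t.idx.toMeasure s := by
  have : {ω : ℕ → ℕ × Bool | (ω i).1 ∈ s} =
      Set.pi ({i} : Finset ℕ) fun _ => Prod.fst ⁻¹' s := by ext; simp
  rw [this, Measure.infinitePi_pi _ fun i _ => MeasurableSet.of_discrete]
  simp [nu_fst]

end Tail

def B (K a b : ℕ) : Set (ℕ → ℕ × Bool) :=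
  Set.pi (range (a + b + 2)) fun i => Prod.fst ⁻¹'
    (if i = a ∨ i = a + b + 1 then {K} else (range K : Set ℕ))

lemma PB (t : Tail) (K a b : ℕ) : t.P (B K a b) = ENNReal.ofReal (t.p K) ^ 2 *
    (ENNReal.ofReal (1 - t.T K) ^ a * ENNReal.ofReal (1 - t.T K) ^ b) := by
  have h3 : (range (a + b + 2)).filter (fun i => i = a ∨ i = a + b + 1) = {a, a + b + 1} := by
    ext i; simp; omega
  have h4 := card_filter_add_card_filter_not (s := range (a + b + 2))
    (fun i => i = a ∨ i = a + b + 1)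
  rw [h3, card_pair (by omega), card_range] at h4
  rw [B, Measure.infinitePi_pi _ fun i _ => MeasurableSet.of_discrete]
  simp only [t.nu_fst, apply_ite t.idx.toMeasure, t.idx_single, t.idx_range]
  rw [prod_ite, prod_const, prod_const, h3, card_pair (by omega), ← pow_add]
  congr 2
  omega

lemma PB_le (t : Tail) (K : ℕ) :
    t.P (⋃ a, ⋃ b, B K a b) ≤ ENNReal.ofReal ((t.p K / t.T K) ^ 2) := by
  have e : (1 - ENNReal.ofReal (1 - t.T K))⁻¹ = ENNReal.ofReal (t.T K)⁻¹ := by
    rw [← ofReal_one, ← ofReal_sub _ (by linarith [t.T_le K]), _root_.sub_sub_cancel,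
      ← ofReal_inv_of_pos (t.T_pos K)]
  have h := (inv_pos.mpr (t.T_pos K)).le
  calc _ ≤ ∑' a, ∑' b, t.P (B K a b) :=
        (measure_iUnion_le _).trans (ENNReal.tsum_le_tsum fun a => measure_iUnion_le _)
    _ = _ := by
        simp only [PB, ENNReal.tsum_mul_left, ENNReal.tsum_mul_right, ENNReal.tsum_geometric, e]
        rw [← ofReal_pow (t.p_pos K).le, ← ofReal_mul h, ← ofReal_mul (sq_nonneg _)]
        congr 1
        ring

lemma record (ω : ℕ → ℕ × Bool) (h : ∀ K a b, ω ∉ B K a b) (m : ℕ) (hm : 1 ≤ m) :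
    ∃ a, a < m ∧ (∀ j < a, (ω j).1 ≠ (ω a).1) ∧ ∀ i < m, i ≠ a → (ω i).1 < (ω a).1 := by
  classical
  obtain ⟨i0, hi0, hmax⟩ := exists_max_image (range m) (fun i => (ω i).1) ⟨0, by simp; omega⟩
  have hex : ∃ i, (ω i).1 = (ω i0).1 := ⟨i0, rfl⟩
  set K := (ω i0).1
  set a := Nat.find hex
  have ha : (ω a).1 = K := Nat.find_spec hex
  have ham : a < m := (Nat.find_min' hex rfl).trans_lt (mem_range.mp hi0)
  have uniq : ∀ i, i < m → i ≠ a → (ω i).1 ≠ K := by
    intro i
    induction i using Nat.strong_induction_on with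
    | _ i ih =>
      intro him hia hK
      have hlt : a < i := lt_of_le_of_ne (Nat.find_min' hex hK) hia.symm
      obtain ⟨b, rfl⟩ : ∃ b, i = a + b + 1 := ⟨i - a - 1, by omega⟩
      refine h K a b fun j hj => ?_
      have hj' : j < a + b + 2 := by simpa using hj
      simp only [Set.mem_preimage]
      split_ifs with h1
      · rcases h1 with rfl | rfl
        · exact ha
        · exact hK
      · have h2 := hmax j (mem_range.mpr (by omega))
        have h3 := ih j (by omega) (by omega) (by omega)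
        simp only [coe_range, Set.mem_Iio]
        omega
  refine ⟨a, ham, fun j hj => ha ▸ Nat.find_min hex hj, fun i hi hia => ?_⟩
  have := hmax i (mem_range.mpr hi)
  have := uniq i hi hia
  omega

noncomputable def sgn (ω : ℕ → ℕ × Bool) (K : ℕ) : Bool := by
  classical exact if h : ∃ i, (ω i).1 = K then (ω (Nat.find h)).2 else true

lemma sgn_eq (ω : ℕ → ℕ × Bool) (a : ℕ) (h : ∀ j < a, (ω j).1 ≠ (ω a).1) :
    sgn ω (ω a).1 = (ω a).2 := by
  classical
  have hex : ∃ i, (ω i).1 = (ω a).1 := ⟨a, rfl⟩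
  have : Nat.find hex = a := (Nat.find_eq_iff hex).mpr ⟨rfl, h⟩
  simp only [sgn, dif_pos hex, this]

lemma atoms {Γ : Type} [Countable Γ] [MeasurableSpace Γ] [DiscreteMeasurableSpace Γ] (μ : PMF Γ) :
    ∀ᵐ ζ ∂(Measure.infinitePi fun _ : ℕ => μ.toMeasure),
      ∀ g ∈ μ.support, ∀ n, ∃ m, n ≤ m ∧ ζ m = g := by
  rw [ae_all_iff]; intro g
  by_cases hg : g ∈ μ.support
  swap
  · exact Eventually.of_forall fun _ h => absurd h hg
  simp only [hg, forall_true_left]
  rw [ae_all_iff]; intro n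
  rw [ae_iff]
  have h1 : μ.toMeasure {g}ᶜ < 1 := by
    rw [prob_compl_eq_one_sub MeasurableSet.of_discrete,
      PMF.toMeasure_apply_singleton _ _ MeasurableSet.of_discrete]
    exact ENNReal.sub_lt_self one_ne_top one_ne_zero hg
  refine le_antisymm (ge_of_tendsto' (ENNReal.tendsto_pow_atTop_nhds_zero_of_lt_one h1)
    fun k => ?_) zero_le
  calc _ ≤ (Measure.infinitePi fun _ : ℕ => μ.toMeasure) (Set.pi (Ico n (n + k)) fun _ => {g}ᶜ) := by
        refine measure_mono fun ζ hζ i hi h => hζ ⟨i, ?_, h⟩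
        exact (mem_Ico.mp hi).1
    _ = _ := by
        rw [Measure.infinitePi_pi _ fun i _ => MeasurableSet.of_discrete]
        simp

lemma top_of_inv {Γ : Type} [Group Γ] (ζ : ℕ → Γ) (n : ℕ) (A : Set Γ)
    (hA : Subgroup.closure A = ⊤) (h : ∀ g ∈ A, ∃ m, n ≤ m ∧ ζ m = g) (S : Subsemigroup Γ)
    (hS : ∀ k, ((List.range (n + k)).map ζ).prod ∈ S) (hi : ∀ x ∈ S, x⁻¹ ∈ S) : S = ⊤ := by
  have h1 : (1 : Γ) ∈ S := by simpa using S.mul_mem (hS 0) (hi _ (hS 0))
  let H : Subgroup Γ :=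
    { carrier := S
      mul_mem' := fun a b => S.mul_mem a b
      one_mem' := h1
      inv_mem' := fun a => hi _ a }
  have : Subgroup.closure A ≤ H := by
    rw [Subgroup.closure_le]
    intro g hg
    obtain ⟨m, hm, rfl⟩ := h g hg
    obtain ⟨k, rfl⟩ := Nat.exists_eq_add_of_le hm
    have := S.mul_mem (hi _ (hS k)) (hS (k + 1))
    rwa [← add_assoc, List.range_succ, List.map_append, List.prod_append, inv_mul_cancel_left,
      List.map_singleton, List.prod_singleton] at this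
  rw [eq_top_iff]
  intro x _
  exact this (hA ▸ trivial)

lemma inv_closure {Γ : Type} [Group Γ] (A : Set Γ)
    (h : ∀ x ∈ A, x⁻¹ ∈ Subsemigroup.closure A) :
    ∀ x ∈ Subsemigroup.closure A, x⁻¹ ∈ Subsemigroup.closure A := by
  intro x hx
  induction hx using Subsemigroup.closure_induction with
  | mem x hx => exact h x hx
  | mul x y _ _ hx hy => rw [mul_inv_rev]; exact Subsemigroup.mul_mem _ hy hx

end Pool.Agent.H26.AR
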