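import Pool.Agent.H26.AR0

set_option autoImplicit false

namespace Pool.Agent.H26.AR

open MeasureTheory Filter Topology Finset ENNReal

noncomputable def tail (c : ℝ) (hc : 0 < c) : Tail where
  T k := c / (k + c)
  zero := by simp [hc.ne']
  anti k := by
    have : (0 : ℝ) ≤ k := Nat.cast_nonneg k
    push_cast
    exact div_lt_div_of_pos_left hc (by linarith) (by linarith)
  lim := tendsto_const_nhds.div_atTop (tendsto_natCast_atTop_atTop.atTop_add tendsto_const_nhds)

lemma tail_B (c : ℝ) (hc : 0 < c) (K : ℕ) :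
    ((tail c hc).p K / (tail c hc).T K) ^ 2 ≤ (tail c hc).p K / c := by
  have : (0 : ℝ) ≤ K := Nat.cast_nonneg K
  have h1 : (tail c hc).p K = c / ((K + c) * (K + 1 + c)) := by
    simp only [Tail.p, tail]; push_cast; field_simp; ring
  have h2 : (tail c hc).T K = c / (K + c) := rfl
  rw [h1, h2]
  field_simp
  linarith

lemma sum_le (t : Tail) (A : ℕ → Set (ℕ → ℕ × Bool)) (r : ℝ) (hr : 0 ≤ r)
    (h : ∀ K, t.P (A K) ≤ ENNReal.ofReal (t.p K * r)) : t.P (⋃ K, A K) ≤ ENNReal.ofReal r := by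
  refine (measure_iUnion_le _).trans ((ENNReal.tsum_le_tsum h).trans ?_)
  simp only [fun K => ofReal_mul (q := r) (t.p_pos K).le, ENNReal.tsum_mul_right, t.p_tsum,
    one_mul, le_refl]

lemma PBB (c : ℝ) (hc : 0 < c) :
    (tail c hc).P (⋃ K, ⋃ a, ⋃ b, B K a b) ≤ ENNReal.ofReal c⁻¹ :=
  sum_le _ _ _ (inv_pos.mpr hc).le fun K =>
    (PB_le _ K).trans (ofReal_le_ofReal (tail_B c hc K))

lemma not_ae (t : Tail) (A : Set (ℕ → ℕ × Bool)) (r : ℝ) (hr : r < 1)
    (h : t.P A ≤ ENNReal.ofReal r) (Q : (ℕ → ℕ × Bool) → Prop) (hQ : ∀ ω, ω ∉ A → ¬ Q ω) :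
    ¬ ∀ᵐ ω ∂t.P, Q ω := by
  intro h2
  have h4 : t.P Set.univ ≤ t.P A :=
    measure_mono_ae (h2.mono fun ω hω _ => by by_contra hc; exact hQ ω hc hω)
  rw [measure_univ] at h4
  exact absurd (h4.trans h) (not_le.mpr (ofReal_lt_one.mpr hr))

def sg (b : Bool) : ℤ := if b then 1 else -1

lemma sg_not (b : Bool) : sg (!b) = -sg b := by cases b <;> simp [sg]

lemma sg_sq (b : Bool) : sg b * sg b = 1 := by cases b <;> simp [sg]

abbrev G0 := Multiplicative (ℕ →₀ ℤ)

lemma list_prod {Γ : Type} [CommMonoid Γ] (f : ℕ → Γ) (m : ℕ) :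
    ((List.range m).map f).prod = ∏ i ∈ range m, f i := by
  induction m with
  | zero => simp
  | succ m ih => rw [List.range_succ, List.map_append, List.prod_append, ih, prod_range_succ]; simp

lemma gen_G0 (A : Subgroup G0)
    (h : ∀ k, Multiplicative.ofAdd (Finsupp.single k (1 : ℤ)) ∈ A) : A = ⊤ := by
  rw [eq_top_iff]
  intro g _
  change Multiplicative.ofAdd g.toAdd ∈ A
  generalize g.toAdd = v
  induction v using Finsupp.induction_linear with
  | zero => exact one_mem _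
  | add f g hf hg => exact mul_mem hf hg
  | single a b => simpa [← ofAdd_zsmul] using zpow_mem (h a) b

lemma good0 {Γ : Type} [Group Γ] (φ : ℕ × Bool → Γ) (ρ : Γ →* G0)
    (hρ : ∀ x, ρ (φ x) = Multiplicative.ofAdd (Finsupp.single x.1 (sg x.2)))
    (ω : ℕ → ℕ × Bool) (h : ∀ K a b, ω ∉ B K a b) :
    Subsemigroup.closure (Set.range fun k =>
      ((List.range (1 + k)).map fun i => φ (ω i)).prod) ≠ ⊤ := by
  let C : Subsemigroup Γ :=
    { carrier := {g | ∃ K, 0 < sg (sgn ω K) * (ρ g).toAdd K ∧ ∀ k, K < k → (ρ g).toAdd k = 0}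
      mul_mem' := by
        rintro f g ⟨K, h1, h2⟩ ⟨L, h3, h4⟩
        simp only [Set.mem_setOf_eq, map_mul, toAdd_mul, Finsupp.add_apply]
        rcases lt_trichotomy K L with h5 | rfl | h5
        · exact ⟨L, by simpa [h2 L h5] using h3, fun k hk => by simp [h2 k (by omega), h4 k hk]⟩
        · exact ⟨K, by rw [mul_add]; omega, fun k hk => by simp [h2 k hk, h4 k hk]⟩
        · exact ⟨K, by simpa [h4 K h5] using h1, fun k hk => by simp [h2 k hk, h4 k (by omega)]⟩ }
  have hC : Subsemigroup.closure (Set.range fun k =>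
      ((List.range (1 + k)).map fun i => φ (ω i)).prod) ≤ C := by
    rw [Subsemigroup.closure_le]
    rintro _ ⟨m, rfl⟩
    obtain ⟨a, ham, h1, h2⟩ := record ω h (1 + m) (by omega)
    have ev : ∀ k, (ρ ((List.range (1 + m)).map fun i => φ (ω i)).prod).toAdd k =
        ∑ i ∈ range (1 + m), if (ω i).1 = k then sg (ω i).2 else 0 := by
      intro k
      rw [map_list_prod, List.map_map, list_prod, toAdd_prod]
      simp only [Function.comp, hρ, toAdd_ofAdd, Finsupp.coe_finsetSum, Finset.sum_apply,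
        Finsupp.single_apply]
    refine ⟨(ω a).1, ?_, fun k hk => ?_⟩
    · rw [ev, sum_eq_single a (fun i hi hia => if_neg (h2 i (mem_range.mp hi) hia).ne)
        (fun h => absurd (mem_range.mpr ham) h), if_pos rfl, sgn_eq ω a h1, sg_sq]
      exact one_pos
    · rw [ev]
      refine sum_eq_zero fun i hi => if_neg ?_
      by_cases hia : i = a
      · subst hia; omega
      · have := h2 i (mem_range.mp hi) hia
        omega
  intro htop
  obtain ⟨K, h1, -⟩ : (1 : Γ) ∈ C := hC (htop ▸ trivial)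
  simp at h1

lemma notAR0 {Γ : Type} [Group Γ] [MeasurableSpace Γ] (φ : ℕ × Bool → Γ) (ρ : Γ →* G0)
    (hρ : ∀ x, ρ (φ x) = Multiplicative.ofAdd (Finsupp.single x.1 (sg x.2))) :
    ¬ ∀ᵐ ζ ∂(Measure.infinitePi fun _ : ℕ => ((tail 2 two_pos).nu.map φ).toMeasure),
      Subsemigroup.closure (Set.range fun k => ((List.range (1 + k)).map ζ).prod) = ⊤ := by
  intro h
  refine not_ae _ _ _ (by norm_num) (PBB 2 two_pos) _ (fun ω hω => ?_) (Tail.ae_pull _ φ _ h)
  simp only [Set.mem_iUnion, not_exists] at hω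
  exact good0 φ ρ hρ ω hω

lemma tele {Γ : Type} [Group Γ] (f : Γ → ℝ) (R : ℝ) (hR : ∀ g, |f g| ≤ R) (u : Γ) (m C : ℝ)
    (hC : 1 ≤ C) (h1 : ∀ g, m - (f (u * (g * u)) - f (g * u)) ≤ C * (m - (f (u * g) - f g)))
    (h3 : ∀ ε, 0 < ε → ∃ g, u * g = g * u ∧ m - (f (u * g) - f g) ≤ ε) : m ≤ 0 := by
  have key : ∀ (J : ℕ) (ε : ℝ), 0 < ε → ∀ g, u * g = g * u →
      m - (f (u * g) - f g) ≤ ε / C ^ J → J * (m - ε) ≤ f (g * u ^ J) - f g := by
    intro J
    induction J with
    | zero => intro ε _ g _ _; simp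
    | succ J ih =>
      intro ε hε g hg h
      have hJ : 0 < C ^ J := by positivity
      have h4 := ih ε hε (g * u) (by rw [← mul_assoc, hg]) ((h1 g).trans (by
        rw [pow_succ, le_div_iff₀ (by positivity)] at h
        rw [le_div_iff₀ hJ]
        linarith))
      have h5 : ε / C ^ (J + 1) ≤ ε := div_le_self hε.le (one_le_pow₀ hC)
      rw [mul_assoc, ← pow_succ'] at h4
      rw [hg] at h
      push_cast
      linarith
  by_contra hm
  push Not at hm
  obtain ⟨J, hJ⟩ := exists_nat_gt (2 * R / (m / 2))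
  obtain ⟨g, hg, h⟩ := h3 (m / 2 / C ^ J) (by positivity)
  have h6 := key J (m / 2) (by positivity) g hg h
  rw [div_lt_iff₀ (by positivity)] at hJ
  have := abs_le.mp (hR g)
  have := abs_le.mp (hR (g * u ^ J))
  nlinarith

end Pool.Agent.H26.AR
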