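import Pool.Agent.H26.AR1

set_option autoImplicit false

namespace Pool.Agent.H26.AR

open MeasureTheory Filter Topology Finset ENNReal LaurentPolynomial

@[ext] structure W where
  f : LaurentPolynomial ℤ
  z : ℤ

noncomputable instance : Mul W := ⟨fun x y => ⟨x.f + T x.z * y.f, x.z + y.z⟩⟩
noncomputable instance : One W := ⟨⟨0, 0⟩⟩
noncomputable instance : Inv W := ⟨fun x => ⟨-(T (-x.z) * x.f), -x.z⟩⟩

@[simp] lemma mul_f (x y : W) : (x * y).f = x.f + T x.z * y.f := rfl
@[simp] lemma mul_z (x y : W) : (x * y).z = x.z + y.z := rfl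
@[simp] lemma one_f : (1 : W).f = 0 := rfl
@[simp] lemma one_z : (1 : W).z = 0 := rfl
@[simp] lemma inv_f (x : W) : x⁻¹.f = -(T (-x.z) * x.f) := rfl
@[simp] lemma inv_z (x : W) : x⁻¹.z = -x.z := rfl

noncomputable instance : Group W := Group.ofLeftAxioms
  (fun x y z => W.ext (by simp only [mul_f, mul_z, T_add]; ring) (by simp [add_assoc]))
  (fun x => W.ext (by simp) (by simp)) (fun x => W.ext (by simp) (by simp))

noncomputable def wt : W := ⟨0, 1⟩
noncomputable def wa : W := ⟨1, 0⟩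

lemma gen_W (A : Subgroup W) (ht : wt ∈ A) (ha : wa ∈ A) : A = ⊤ := by
  have h1 : ∀ z : ℤ, (⟨0, z⟩ : W) ∈ A := by
    intro z
    induction z using Int.induction_on with
    | zero => exact A.one_mem
    | succ n ih => convert A.mul_mem ih ht using 1; ext1 <;> simp [wt]
    | pred n ih => convert A.mul_mem ih (A.inv_mem ht) using 1; ext1 <;> simp [wt, sub_eq_add_neg]
  have h0 : ∀ p q : LaurentPolynomial ℤ, (⟨p, 0⟩ : W) ∈ A → (⟨q, 0⟩ : W) ∈ A →
      (⟨p + q, 0⟩ : W) ∈ A := fun p q hp hq => by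
    convert A.mul_mem hp hq using 1; ext1 <;> simp
  have h2 : ∀ p : LaurentPolynomial ℤ, (⟨p, 0⟩ : W) ∈ A := by
    intro p
    induction p using LaurentPolynomial.induction_on' with
    | add p q hp hq => exact h0 p q hp hq
    | C_mul_T n a =>
      have h3 : (⟨T n, 0⟩ : W) ∈ A := by
        convert A.mul_mem (h1 n) (A.mul_mem ha (h1 (-n))) using 1; ext1 <;> simp [wa]
      induction a using Int.induction_on with
      | zero => simpa using h1 0
      | succ k ih => convert h0 _ _ ih h3 using 2; simp [add_mul]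
      | pred k ih =>
        have h4 : (⟨-T n, 0⟩ : W) ∈ A := by
          convert A.inv_mem h3 using 1; ext1 <;> simp
        convert h0 _ _ ih h4 using 2; simp [sub_mul, sub_eq_add_neg, add_mul]
  rw [eq_top_iff]
  intro x _
  convert A.mul_mem (h2 x.f) (h1 x.z) using 1; ext1 <;> simp

lemma itin (s : ℕ → Bool) : ∃ x : ℝ, ∀ K, 1 ≤ sg (s K) * (fun y : ℝ => y ^ 2 - 6)^[K] x ∧
    sg (s K) * (fun y : ℝ => y ^ 2 - 6)^[K] x ≤ 3 := by
  let C : (ℕ → Bool) → ℕ → Set ℝ := fun s n => Set.Icc (-3) 3 ∩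
    ⋂ K ∈ Set.Iio n, (fun x => sg (s K) * (fun y : ℝ => y ^ 2 - 6)^[K] x) ⁻¹' Set.Icc 1 3
  have hne : ∀ n s, (C s n).Nonempty := by
    intro n
    induction n with
    | zero => intro s; exact ⟨0, by simp [C]⟩
    | succ n ih =>
      intro s
      obtain ⟨y, hy, h⟩ := ih fun K => s (K + 1)
      have h0 : 0 ≤ y + 6 := by linarith [hy.1]
      have h1 : 1 ≤ √(y + 6) := Real.one_le_sqrt.mpr (by linarith [hy.1])
      have h2 : √(y + 6) ≤ 3 := Real.sqrt_le_iff.mpr ⟨by norm_num, by linarith [hy.2]⟩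
      have h3 : (sg (s 0) : ℝ) * sg (s 0) = 1 := by exact_mod_cast sg_sq _
      refine ⟨sg (s 0) * √(y + 6), ?_, ?_⟩
      · cases s 0 <;> simp [sg] <;> constructor <;> linarith
      · simp only [Set.mem_iInter, Set.mem_preimage, Set.mem_Iio] at h ⊢
        intro K hK
        rcases K with _ | K
        · simp only [Function.iterate_zero, id, ← mul_assoc, h3, one_mul]
          exact ⟨h1, h2⟩
        · rw [Function.iterate_succ_apply]
          have : (sg (s 0) * √(y + 6)) ^ 2 - 6 = y := by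
            rw [mul_pow, Real.sq_sqrt h0, sq, h3]; ring
          simp only [this]
          exact h K (by omega)
  have hcl : ∀ n, IsClosed (C s n) := fun n => isClosed_Icc.inter (isClosed_biInter fun K _ =>
    isClosed_Icc.preimage (continuous_const.mul (Continuous.iterate (by fun_prop) K)))
  obtain ⟨x, hx⟩ := IsCompact.nonempty_iInter_of_sequence_nonempty_isCompact_isClosed (C s)
    (fun n => Set.inter_subset_inter_right _ (Set.biInter_subset_biInter_left
      (Set.Iio_subset_Iio n.le_succ))) (hne · s)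
    (isCompact_Icc.of_isClosed_subset (hcl 0) Set.inter_subset_left) hcl
  refine ⟨x, fun K => ?_⟩
  have := (Set.mem_iInter.mp hx (K + 1)).2
  simp only [Set.mem_iInter] at this
  exact this K (by simp)

noncomputable def qq : ℕ → LaurentPolynomial ℤ
  | 0 => T 1 - 4
  | K + 1 => qq K ^ 2 - 6

noncomputable def tw : Tail := tail 4 (by norm_num)

noncomputable def NN (K : ℕ) : ℕ := ⌈4 / (tw.p K * tw.T (K + 1))⌉₊

noncomputable def MM : ℕ → ℕ
  | 0 => 1
  | K + 1 => 3 * NN (K + 1) * 49 ^ NN (K + 1) * MM K + MM K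

lemma MM_mono : Monotone MM := monotone_nat_of_le_succ fun K => by simp [MM]

noncomputable def psi (K : ℕ) : W :=
  if K = 0 then wt else if K = 1 then wa else ⟨MM K * qq K, 0⟩

def LW (K : ℕ) : Set (ℕ → ℕ × Bool) := {ω | ∀ i < NN K, (ω i).1 ∈ (range (K + 1) : Set ℕ)}

lemma pow_le_inv (x : ℝ) (h0 : 0 < x) (h1 : x ≤ 1) (N : ℕ) : (1 - x) ^ N * (N * x) ≤ 1 := by
  have h2 := one_add_mul_le_pow (show (-2 : ℝ) ≤ x by linarith) N
  have h3 : (1 - x) ^ N * (1 + x) ^ N ≤ 1 := by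
    rw [← mul_pow]
    exact pow_le_one₀ (by nlinarith) (by nlinarith)
  have h4 : 0 ≤ (1 - x) ^ N := pow_nonneg (by linarith) _
  nlinarith

lemma PLW : tw.P (⋃ K, LW K) ≤ ENNReal.ofReal 4⁻¹ := by
  refine sum_le _ _ _ (by norm_num) fun K => ?_
  rw [LW, Tail.P_all, Tail.idx_range, ← ofReal_pow (by linarith [tw.T_le (K + 1)])]
  refine ofReal_le_ofReal ?_
  have h1 := pow_le_inv _ (tw.T_pos (K + 1)) (tw.T_le _) (NN K)
  have h2 : 4 / (tw.p K * tw.T (K + 1)) ≤ NN K := Nat.le_ceil _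
  have h3 := tw.p_pos K
  have h4 := tw.T_pos (K + 1)
  have h5 : 0 ≤ (1 - tw.T (K + 1)) ^ NN K := pow_nonneg (by linarith [tw.T_le (K + 1)]) _
  rw [div_le_iff₀ (by positivity)] at h2
  nlinarith [mul_le_mul_of_nonneg_left h2 h5, mul_le_mul_of_nonneg_left h1 h3.le]

def F0 : Set (ℕ → ℕ × Bool) := {ω | (ω 0).1 ∈ (range 2 : Set ℕ)}

lemma PF0 : tw.P F0 ≤ ENNReal.ofReal 3⁻¹ := by
  rw [F0, Tail.P_one, Tail.idx_range]
  refine ofReal_le_ofReal ?_
  simp only [tw, tail]
  norm_num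

end Pool.Agent.H26.AR
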