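import Pool.Agent.H26.AR2

set_option autoImplicit false

namespace Pool.Agent.H26.AR

open MeasureTheory Filter Topology Finset ENNReal LaurentPolynomial

noncomputable def psb (x : ℕ × Bool) : W := if x.2 then psi x.1 else (psi x.1)⁻¹

lemma psb_z (x : ℕ × Bool) : |(psb x).z| ≤ 1 := by
  unfold psb psi
  split_ifs <;> simp [wt, wa]

lemma psb_f (x : ℕ × Bool) (h : 2 ≤ x.1) : (psb x).f = sg x.2 * (MM x.1 * qq x.1) := by
  have h0 : x.1 ≠ 0 := by omega
  have h1 : x.1 ≠ 1 := by omega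
  unfold psb psi
  cases x.2 <;> simp [h0, h1, sg]

lemma MM_pos (K : ℕ) : 1 ≤ MM K := MM_mono K.zero_le

lemma goodW {Γ : Type} [Group Γ] (φ : ℕ × Bool → Γ) (ρ : Γ →* W) (hρ : ∀ x, ρ (φ x) = psb x)
    (ω : ℕ → ℕ × Bool) (h : ∀ K a b, ω ∉ B K a b) (hL : ∀ K, ω ∉ LW K) (hF : ω ∉ F0) :
    Subsemigroup.closure (Set.range fun k =>
      ((List.range (1 + k)).map fun i => φ (ω i)).prod) ≠ ⊤ := by
  obtain ⟨x, hx⟩ := itin (sgn ω)
  have hab : ∀ K, |(fun y : ℝ => y ^ 2 - 6)^[K] x| ≤ 3 := by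
    intro K
    have := hx K
    rw [abs_le]
    cases hs : sgn ω K <;> simp [hs, sg] at this <;> constructor <;> linarith [this.1, this.2]
  have h0 := abs_le.mp (hab 0)
  simp only [Function.iterate_zero, id] at h0
  set l : ℝ := x + 4 with hl
  have l1 : 1 ≤ l := by linarith
  have l7 : l ≤ 7 := by linarith
  have lp : 0 < l := by linarith
  let ev : LaurentPolynomial ℤ →+* ℝ := eval₂ (Int.castRingHom ℝ) (Units.mk0 l lp.ne')
  have evT : ∀ z, ev (T z) = l ^ z := fun z => by simp [ev, eval₂_T]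
  have evq : ∀ K, ev (qq K) = (fun y : ℝ => y ^ 2 - 6)^[K] x := by
    intro K
    induction K with
    | zero => simp only [qq, map_sub, evT, map_ofNat]; simp [hl]
    | succ K ih => rw [Function.iterate_succ_apply', ← ih]; simp only [qq, map_sub, map_pow, map_ofNat]
  have hc : ∀ y : ℕ × Bool, |ev (psb y).f| ≤ 3 * MM y.1 := by
    intro y
    have h1 : (1 : ℝ) ≤ MM y.1 := by exact_mod_cast MM_pos _
    by_cases hy : 2 ≤ y.1
    · rw [psb_f y hy, map_mul, map_mul, evq, map_intCast, map_natCast, abs_mul, abs_mul,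
        Nat.abs_cast]
      have : |(sg y.2 : ℝ)| = 1 := by cases y.2 <;> simp [sg]
      rw [this]
      nlinarith [hab y.1]
    · unfold psb psi
      split_ifs <;> first | omega | (simp [wt, wa]; try linarith)
  have hz : ∀ (N : ℕ) (z : ℤ), |z| ≤ N → l ^ z ≤ 7 ^ N := fun N z hz =>
    (zpow_le_zpow_right₀ l1 (le_of_abs_le hz)).trans (by
      rw [zpow_natCast]; exact pow_le_pow_left₀ lp.le l7 N)
  let X : ℕ → W := fun m => ρ ((List.range m).map fun i => φ (ω i)).prod
  have hX : ∀ m, X (m + 1) = X m * psb (ω m) := fun m => by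
    simp only [X, List.range_succ, List.map_append, List.prod_append, map_mul,
      List.map_singleton, List.prod_singleton, hρ]
  have X0 : X 0 = 1 := by simp [X]
  have hXz : ∀ m, |(X m).z| ≤ m := by
    intro m
    induction m with
    | zero => simp [X0]
    | succ m ih =>
      rw [hX, mul_z]
      push_cast
      exact (abs_add_le _ _).trans (add_le_add ih (psb_z _))
  have hXf : ∀ m, ev (X m).f = ∑ i ∈ range m, l ^ (X i).z * ev (psb (ω i)).f := by
    intro m
    induction m with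
    | zero => simp [X0]
    | succ m ih => rw [hX, mul_f, map_add, map_mul, ih, sum_range_succ, evT]
  let C : Subsemigroup Γ :=
    { carrier := {g | 0 < ev (ρ g).f}
      mul_mem' := by
        intro f g h1 h2
        simp only [Set.mem_setOf_eq, map_mul, mul_f, map_add, evT] at h1 h2 ⊢
        positivity }
  have hC : Subsemigroup.closure (Set.range fun k =>
      ((List.range (1 + k)).map fun i => φ (ω i)).prod) ≤ C := by
    rw [Subsemigroup.closure_le]
    rintro _ ⟨m, rfl⟩
    obtain ⟨a, ham, h1, h2⟩ := record ω h (1 + m) (by omega)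
    change 0 < ev (X (1 + m)).f
    generalize 1 + m = m at *
    have h3 : ∀ i < m, (ω i).1 ≤ (ω a).1 := fun i hi => by
      by_cases hia : i = a
      · rw [hia]
      · exact (h2 i hi hia).le
    have h4 : 2 ≤ (ω a).1 := by
      have := h3 0 (by omega)
      simp only [F0, Set.mem_setOf_eq, coe_range, Set.mem_Iio] at hF
      omega
    have h5 : m ≤ NN (ω a).1 := by
      by_contra hc
      exact hL (ω a).1 fun i hi => by
        simp only [coe_range, Set.mem_Iio]
        exact Nat.lt_succ_of_le (h3 i (by omega))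
    obtain ⟨K, hK⟩ : ∃ K, (ω a).1 = K + 1 := ⟨(ω a).1 - 1, by omega⟩
    have h6 : (MM (ω a).1 : ℝ) ≤ ev (psb (ω a)).f := by
      rw [psb_f _ h4, map_mul, map_mul, evq, map_intCast, map_natCast, ← sgn_eq ω a h1]
      nlinarith [(hx (ω a).1).1, (Nat.cast_nonneg _ : (0 : ℝ) ≤ MM (ω a).1)]
    rw [hK] at h2 h5 h6
    set N := NN (K + 1)
    have h7 : (MM (K + 1) : ℝ) = 3 * N * (7 ^ N * 7 ^ N) * MM K + MM K := by
      rw [MM, ← mul_pow, show (7 : ℝ) * 7 = 49 by norm_num]; push_cast; rfl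
    have h8 : (1 : ℝ) ≤ MM K := by exact_mod_cast MM_pos _
    have h9 : 1 ≤ l ^ (X a).z * 7 ^ N := by
      have := hz N (-(X a).z) (by rw [abs_neg]; exact (hXz a).trans (by omega))
      rwa [zpow_neg, inv_le_iff_one_le_mul₀' (by positivity)] at this
    have h10 : ∑ i ∈ (range m).erase a, -(7 ^ N * (3 * MM K) : ℝ) ≤
        ∑ i ∈ (range m).erase a, l ^ (X i).z * ev (psb (ω i)).f := by
      refine sum_le_sum fun i hi => ?_
      obtain ⟨hi1, hi2⟩ := mem_erase.mp hi
      have hi3 := mem_range.mp hi2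
      have e1 := hz N (X i).z ((hXz i).trans (by omega))
      have e2 : (MM (ω i).1 : ℝ) ≤ MM K := by
        exact_mod_cast MM_mono (Nat.le_of_lt_succ (h2 i hi3 hi1))
      have e3 := (abs_le.mp (hc (ω i))).1
      have e4 : 0 < l ^ (X i).z := by positivity
      nlinarith
    rw [hXf, ← add_sum_erase _ _ (mem_range.mpr ham)]
    rw [sum_const, nsmul_eq_mul] at h10
    have h11 : (((range m).erase a).card : ℝ) ≤ N := by
      exact_mod_cast (card_erase_le.trans (by simpa using h5))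
    have e4 : 0 < l ^ (X a).z := by positivity
    have e5 : (0 : ℝ) < 7 ^ N * (3 * MM K) := by positivity
    have e6 : (N : ℝ) * (7 ^ N * (3 * MM K)) < l ^ (X a).z * MM (K + 1) := by
      rw [h7]
      have : (0 : ℝ) ≤ N * (7 ^ N * (3 * MM K)) := by positivity
      nlinarith [mul_le_mul_of_nonneg_left h9 this]
    nlinarith [mul_le_mul_of_nonneg_left h6 e4.le]
  intro htop
  have h1 : (1 : Γ) ∈ C := hC (htop ▸ trivial)
  simp [C] at h1

lemma notARW {Γ : Type} [Group Γ] [MeasurableSpace Γ] (φ : ℕ × Bool → Γ) (ρ : Γ →* W)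
    (hρ : ∀ x, ρ (φ x) = psb x) :
    ¬ ∀ᵐ ζ ∂(Measure.infinitePi fun _ : ℕ => (tw.nu.map φ).toMeasure),
      Subsemigroup.closure (Set.range fun k => ((List.range (1 + k)).map ζ).prod) = ⊤ := by
  intro h
  refine not_ae tw ((⋃ K, ⋃ a, ⋃ b, B K a b) ∪ ((⋃ K, LW K) ∪ F0)) (4⁻¹ + (4⁻¹ + 3⁻¹))
    (by norm_num) ?_ _ (fun ω hω => ?_) (Tail.ae_pull _ φ _ h)
  · rw [ofReal_add (by norm_num) (by norm_num), ofReal_add (by norm_num) (by norm_num)]
    exact (measure_union_le _ _).trans (add_le_add (PBB 4 (by norm_num))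
      ((measure_union_le _ _).trans (add_le_add PLW PF0)))
  · simp only [Set.mem_union, Set.mem_iUnion, not_or, not_exists] at hω
    exact goodW φ ρ hρ ω hω.1 hω.2.1 hω.2.2

lemma psb_not (k : ℕ) (b : Bool) : psb (k, !b) = (psb (k, b))⁻¹ := by
  cases b <;> simp [psb]

end Pool.Agent.H26.AR
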