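import Pool.Agent.H26.AR2

set_option autoImplicit false

namespace Pool.Agent.H26.AR

open MeasureTheory Filter Topology Finset ENNReal

def nrm (d : ℕ) (y : ℕ →₀ ℤ) : ℤ := ∑ i ∈ range d, |y i|

lemma nrm_add (d : ℕ) (u v : ℕ →₀ ℤ) : nrm d (u + v) ≤ nrm d u + nrm d v := by
  simp only [nrm, ← sum_add_distrib]
  exact sum_le_sum fun i _ => abs_add_le _ _

lemma nrm_single (d k : ℕ) (c : ℤ) : nrm d (Finsupp.single k c) ≤ |c| := by
  simp only [nrm, Finsupp.single_apply, apply_ite abs, abs_zero, sum_ite_eq]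
  split_ifs <;> simp

lemma nrm_sum (d m : ℕ) (u : ℕ → ℕ →₀ ℤ) :
    nrm d (∑ i ∈ range m, u i) ≤ ∑ i ∈ range m, nrm d (u i) := by
  induction m with
  | zero => simp [nrm]
  | succ m ih => rw [sum_range_succ, sum_range_succ]; linarith [nrm_add d (∑ i ∈ range m, u i) (u m)]

lemma nrm_step (d k : ℕ) (hk : k < d) (y : ℕ →₀ ℤ) (c : ℤ) :
    nrm d (y + Finsupp.single k c) = nrm d y - |y k| + |y k + c| := by
  simp only [nrm]
  rw [← add_sum_erase _ _ (mem_range.mpr hk), ← add_sum_erase _ _ (mem_range.mpr hk),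
    sum_congr rfl (g := fun i => |y i|) fun i hi => by
      simp [Finsupp.single_apply, (mem_erase.mp hi).1.symm]]
  simp only [Finsupp.add_apply, Finsupp.single_eq_same]
  ring

lemma descent (A : AddSubmonoid (ℕ →₀ ℤ)) (d : ℕ)
    (h : ∀ k < d, ∀ b, ∃ (w : ℕ →₀ ℤ) (M : ℤ), (∀ i, d ≤ i → w i = 0) ∧ nrm d w < M ∧
      Finsupp.single k (sg b * M) + w ∈ A) (x : ℕ →₀ ℤ) (hx : x ∈ A) (hx0 : ∀ i, d ≤ i → x i = 0) :
    -x ∈ A := by
  choose! w M hw hM hA using h
  obtain ⟨R, hR⟩ := ((range d ×ˢ (univ : Finset Bool)).image fun p => M p.1 p.2).bddAbove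
  have hR' : ∀ k < d, ∀ b, M k b ≤ R := fun k hk b =>
    hR (mem_coe.mpr (mem_image.mpr ⟨(k, b), by simp [hk], rfl⟩))
  let c : ℕ →₀ ℤ := Finsupp.onFinset (range d) (fun i => if i < d then R else 0) (by
    intro i hi; simp only [ne_eq, ite_eq_right_iff, not_forall] at hi; simpa using hi.1)
  have red : ∀ (n : ℕ) (y : ℕ →₀ ℤ), (∀ i, d ≤ i → y i = 0) → nrm d y < n →
      ∃ y' ∈ Set.Icc (-c) c, y' - y ∈ A := by
    intro n
    induction n with
    | zero => intro y _ h; exact absurd h (not_lt.mpr (sum_nonneg fun i _ => abs_nonneg _))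
    | succ n ih =>
      intro y hy hn
      by_cases hb : ∀ k < d, |y k| ≤ R
      · refine ⟨y, ⟨fun i => ?_, fun i => ?_⟩, by simp⟩ <;>
        · by_cases hi : i < d
          · have := abs_le.mp (hb i hi)
            simp [c, hi, this]
          · simp [c, hi, hy i (by omega)]
      · push Not at hb
        obtain ⟨k, hk, hb⟩ := hb
        set b := decide (y k < 0) with hbd
        have h0 : 0 ≤ nrm d (w k b) := sum_nonneg fun i _ => abs_nonneg _
        have h1 := hM k hk b
        have h2 := hR' k hk b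
        obtain ⟨y', h3, h4⟩ := ih (y + Finsupp.single k (sg b * M k b) + w k b) (fun i hi => by
          simp [hy i hi, hw k hk b i hi, Finsupp.single_apply, show k ≠ i by omega]) (by
          have h5 := nrm_add d (y + Finsupp.single k (sg b * M k b)) (w k b)
          rw [nrm_step d k hk] at h5
          have h6 : |y k + sg b * M k b| = |y k| - M k b := by
            by_cases h7 : y k < 0
            · rw [abs_of_neg h7] at hb ⊢
              rw [show sg b = 1 by simp [hbd, h7, sg], abs_of_nonpos (by omega)]; ring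
            · rw [abs_of_nonneg (not_lt.mp h7)] at hb ⊢
              rw [show sg b = -1 by simp [hbd, h7, sg], abs_of_nonneg (by omega)]; ring
          push_cast at hn
          omega)
        refine ⟨y', h3, ?_⟩
        convert A.add_mem h4 (hA k hk b) using 1
        abel
  have red2 : ∀ y : Set.Icc (-c) c, ∃ y' : Set.Icc (-c) c, y'.1 - (y.1 + x) ∈ A := by
    intro y
    obtain ⟨y', h1, h2⟩ := red ((nrm d (y.1 + x)).toNat + 1) (y.1 + x) (fun i hi => by
      have h1 := y.2.1 i
      have h2 := y.2.2 i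
      simp [c, show ¬ i < d by omega] at h1 h2
      simp [hx0 i hi, le_antisymm h2 h1]) (by omega)
    exact ⟨⟨y', h1⟩, h2⟩
  choose F hF using red2
  obtain ⟨y0, h0, -⟩ := red 1 0 (by simp) (by simp [nrm])
  have : Finite (Set.Icc (-c) c) := (Set.finite_Icc _ _).to_subtype
  have key : ∀ i j, (F^[i + j + 1] ⟨y0, h0⟩).1 - (F^[i] ⟨y0, h0⟩).1 - x ∈ A := by
    intro i j
    induction j with
    | zero => rw [Function.iterate_succ_apply', sub_sub]; exact hF _
    | succ j ih =>
      rw [← add_assoc, Function.iterate_succ_apply']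
      convert A.add_mem (hF (F^[i + j + 1] ⟨y0, h0⟩)) (A.add_mem ih hx) using 1
      abel
  obtain ⟨i, j, hij, e⟩ := Finite.exists_ne_map_eq_of_infinite fun i => F^[i] ⟨y0, h0⟩
  rcases lt_or_gt_of_ne hij with h | h
  · obtain ⟨k, rfl⟩ := Nat.exists_eq_add_of_lt h
    simpa [← e] using key i k
  · obtain ⟨k, rfl⟩ := Nat.exists_eq_add_of_lt h
    simpa [e] using key j k

end Pool.Agent.H26.AR
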