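import Pool.Agent.H26.AR4

set_option autoImplicit false

namespace Pool.Agent.H26.AR

open MeasureTheory Filter Topology Finset ENNReal

noncomputable def t2 : Tail where
  T k := (1 / 2) ^ (k ^ 2)
  zero := by simp
  anti k := pow_lt_pow_right_of_lt_one₀ (by norm_num) (by norm_num)
    (Nat.pow_lt_pow_left k.lt_succ_self two_ne_zero)
  lim := (_root_.tendsto_pow_atTop_nhds_zero_of_lt_one (by norm_num) (by norm_num)).comp
    (tendsto_pow_atTop two_ne_zero)

def N2 (k : ℕ) : ℕ := 2 ^ (k ^ 2 + k)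

lemma bc (t : Tail) (A : ℕ → Set (ℕ → ℕ × Bool)) (u : ℕ → ℝ) (hu : Summable u)
    (h : ∀ n, t.P (A n) ≤ ENNReal.ofReal (u n)) : ∀ᵐ ω ∂t.P, ∀ᶠ n in atTop, ω ∉ A n :=
  ae_eventually_notMem (ne_top_of_le_ne_top hu.tsum_ofReal_ne_top (ENNReal.tsum_le_tsum h))

lemma ae1 : ∀ᵐ ω ∂t2.P, ∀ᶠ l in atTop, ∀ i < N2 l, (ω i).1 ≤ l := by
  have := bc t2 (fun l => ⋃ i ∈ range (N2 l), {ω | (ω i).1 ∈ (range (l + 1) : Set ℕ)ᶜ})
    (fun l => (1 / 2) ^ l) summable_geometric_two fun l => by
      refine (measure_biUnion_finset_le _ _).trans ?_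
      simp only [Tail.P_one, t2.idx_compl _ _ (sub_nonneg.mpr (t2.T_le _)) (t2.idx_range _),
        sum_const, card_range, nsmul_eq_mul]
      rw [← ofReal_natCast, ← ofReal_mul (Nat.cast_nonneg _)]
      refine ofReal_le_ofReal ?_
      simp only [t2, N2, _root_.sub_sub_cancel, show (l + 1) ^ 2 = (l ^ 2 + l) + (l + 1) by ring]
      push_cast
      rw [pow_add (1 / 2 : ℝ), ← mul_assoc, ← mul_pow, show (2 : ℝ) * (1 / 2) = 1 by norm_num,
        one_pow, one_mul]
      exact pow_le_pow_of_le_one (by norm_num) (by norm_num) l.le_succ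
  filter_upwards [this] with ω hω
  filter_upwards [hω] with l hl i hi
  by_contra hc
  exact hl (Set.mem_biUnion (mem_coe.mpr (mem_range.mpr hi)) (by simpa using hc))

lemma ae2 : ∀ᵐ ω ∂t2.P, ∀ᶠ l in atTop, ∃ i < N2 l, (ω i).1 = l := by
  have := bc t2 (fun l => {ω | ∀ i < N2 l, (ω i).1 ∈ ({l} : Set ℕ)ᶜ})
    (fun l => 2 * (1 / 2) ^ l) (summable_geometric_two.mul_left 2) fun l => by
      rw [Tail.P_all, t2.idx_compl _ _ (t2.p_pos l).le (t2.idx_single l),
        ← ofReal_pow (sub_nonneg.mpr (t2.p_le l))]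
      refine ofReal_le_ofReal ?_
      have h1 := pow_le_inv _ (t2.p_pos l) (t2.p_le l) (N2 l)
      have h2 : 0 ≤ (1 - t2.p l) ^ N2 l := pow_nonneg (sub_nonneg.mpr (t2.p_le l)) _
      have h3 : (1 / 2 : ℝ) ^ (l ^ 2 + 1) ≤ t2.p l := by
        have : (1 / 2 : ℝ) ^ ((l + 1) ^ 2) ≤ (1 / 2) ^ (l ^ 2 + 1) :=
          pow_le_pow_of_le_one (by norm_num) (by norm_num)
            (Nat.pow_lt_pow_left l.lt_succ_self two_ne_zero)
        have e := pow_succ (1 / 2 : ℝ) (l ^ 2)
        simp only [Tail.p, t2]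
        linarith
      have h4 : (N2 l : ℝ) * (1 / 2) ^ (l ^ 2 + 1) * (2 * (1 / 2) ^ l) = 1 := by
        simp only [N2, pow_add, one_div, inv_pow]
        push_cast
        field_simp
      have h5 : (0 : ℝ) < 2 * (1 / 2) ^ l := by positivity
      have h6 : (0 : ℝ) ≤ N2 l := Nat.cast_nonneg _
      have h7 : 1 ≤ N2 l * t2.p l * (2 * (1 / 2) ^ l) := by
        exact h4.symm.le.trans (by gcongr)
      nlinarith [mul_le_mul_of_nonneg_left h7 h2, mul_le_mul_of_nonneg_right h1 h5.le]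
  filter_upwards [this] with ω hω
  filter_upwards [hω] with l hl
  simpa using hl

def E (b : Bool) (Λ : Finset ℕ) : Set (ℕ → ℕ × Bool) :=
  {ω | ∀ l ∈ Λ, ∃ a, ω a = (l, b) ∧ ∀ j < a, (ω j).1 ≠ l}

lemma E_meas (b : Bool) (Λ : Finset ℕ) : MeasurableSet (E b Λ) := by
  have h : ∀ (a : ℕ) (s : Set (ℕ × Bool)), MeasurableSet {ω : ℕ → ℕ × Bool | ω a ∈ s} :=
    fun a s => measurable_pi_apply a MeasurableSet.of_discrete
  simp only [E, Set.setOf_forall, Set.setOf_exists, Set.setOf_and]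
  exact .iInter fun l => .iInter fun _ => .iUnion fun a => (h a {(l, b)}).inter
      (.iInter fun j => .iInter fun _ => h j {x | x.1 ≠ l})

lemma PE (t : Tail) (b : Bool) (Λ : Finset ℕ) : t.P (E b Λ) ≤ 2⁻¹ ^ Λ.card := by
  induction Λ using Finset.induction_on with
  | empty => simp [prob_le_one]
  | insert l Λ hl ih =>
    let φ : ℕ × Bool → ℕ × Bool := fun x => (x.1, xor (decide (x.1 = l)) x.2)
    have hm : Measurable φ := measurable_of_countable _
    have h1 := t.map_eq φ
    rw [t.nu_flip fun k => decide (k = l)] at h1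
    have h2 : t.P ((fun ω i => φ (ω i)) ⁻¹' E b (insert l Λ)) = t.P (E b (insert l Λ)) := by
      rw [← Measure.map_apply (by fun_prop) (E_meas _ _), h1]
    have h3 : Disjoint ((fun ω i => φ (ω i)) ⁻¹' E b (insert l Λ)) (E b (insert l Λ)) := by
      rw [Set.disjoint_left]
      intro ω h4 h5
      obtain ⟨a, ha, ha'⟩ := h4 l (mem_insert_self _ _)
      obtain ⟨c, hc, hc'⟩ := h5 l (mem_insert_self _ _)
      have e1 : (ω a).1 = l := congrArg Prod.fst ha
      have e2 : (ω c).1 = l := congrArg Prod.fst hc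
      have : a = c := le_antisymm (not_lt.mp fun h => ha' c h e2) (not_lt.mp fun h => hc' a h e1)
      subst this
      simp [φ, hc] at ha
    have h4 : (fun ω i => φ (ω i)) ⁻¹' E b (insert l Λ) ∪ E b (insert l Λ) ⊆ E b Λ := by
      rintro ω (h | h) k hk
      · obtain ⟨a, ha, ha'⟩ := h k (mem_insert_of_mem hk)
        have e1 : (ω a).1 = k := congrArg Prod.fst ha
        have e2 : k ≠ l := fun e => hl (e ▸ hk)
        refine ⟨a, ?_, ha'⟩
        simp only [φ, e1, e2, decide_false, Bool.false_xor, Prod.mk.injEq, true_and] at ha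
        exact Prod.ext e1 ha
      · exact h k (mem_insert_of_mem hk)
    have h5 := (measure_mono h4).trans ih
    rw [measure_union h3 (E_meas _ _), h2, ← two_mul] at h5
    rw [card_insert_of_notMem hl, pow_succ']
    calc _ = 2⁻¹ * (2 * t.P (E b (insert l Λ))) := by
          rw [← mul_assoc, ENNReal.inv_mul_cancel two_ne_zero ofNat_ne_top, one_mul]
      _ ≤ _ := by gcongr

def Lam (s k : ℕ) : Finset ℕ := (Ico s (2 * s)).image (Nat.pair k)

lemma ae3 (t : Tail) : ∀ᵐ ω ∂t.P, ∀ᶠ s in atTop, ∀ k < 2 * s, ∀ b, ω ∉ E b (Lam s k) := by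
  have := bc t (fun s => ⋃ p ∈ range (2 * s) ×ˢ (univ : Finset Bool), E p.2 (Lam s p.1))
    (fun s => 4 * (s ^ 1 * (1 / 2) ^ s))
    ((summable_pow_mul_geometric_of_norm_lt_one (R := ℝ) (r := 1 / 2) 1
      (by norm_num)).mul_left 4) fun s => by
      refine (measure_biUnion_finset_le (μ := t.P) (range (2 * s) ×ˢ (univ : Finset Bool))
        fun p => E p.2 (Lam s p.1)).trans ((sum_le_sum fun p _ => PE t p.2 (Lam s p.1)).trans ?_)
      have : ∀ k, (Lam s k).card = s := fun k => by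
        rw [Lam, card_image_of_injective _ fun a b h => (Nat.pair_eq_pair.mp h).2]
        simp; omega
      simp only [this, sum_const, card_product, card_range, card_univ, Fintype.card_bool,
        nsmul_eq_mul]
      rw [← mul_assoc, ofReal_mul (by positivity), ofReal_pow (by norm_num), one_div,
        ofReal_inv_of_pos two_pos, ofReal_ofNat, ← ofReal_natCast]
      refine mul_le_mul_left (ofReal_le_ofReal (le_of_eq ?_)) _
      push_cast
      ring
  filter_upwards [this] with ω hω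
  filter_upwards [hω] with s hs k hk b h
  exact hs (Set.mem_biUnion (x := (k, b)) (by simpa using hk) h)

end Pool.Agent.H26.AR
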