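import Mathlib

set_option autoImplicit false

namespace Pool.Agent.H26.Achieve

open Set Filter Topology

noncomputable def h (n : ℕ) : ℝ := (1 / 2) ^ n

lemma h_pos (n : ℕ) : 0 < h n := by unfold h; positivity

lemma h_succ (n : ℕ) : h n = 2 * h (n + 1) := by unfold h; rw [pow_succ]; ring

lemma h_add (n d : ℕ) : h n = 2 ^ d * h (n + d) := by
  induction d with
  | zero => simp
  | succ d ih => rw [ih, h_succ (n + d), pow_succ, add_assoc]; ring

lemma h_anti {n m : ℕ} (hnm : n ≤ m) : h m ≤ h n :=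
  pow_le_pow_of_le_one (by norm_num) (by norm_num) hnm

structure Data where
  E : ℕ → Set ℝ
  x : ℕ → ℝ
  r : ℕ → ℝ
  B : ℝ
  a : ℝ
  θ : ℝ
  hE : ∀ n y, y ∈ E n → y ∈ E (n + 1) ∨ y - x n ∈ E (n + 1)
  hr : ∀ n y, y ∈ E n → 0 ≤ y ∧ y ≤ r n
  hx : ∀ n, |x n - h n| ≤ B * θ ^ n - B * θ ^ (n + 1)
  hr2 : ∀ n, |r n - 2 * h n| ≤ B * θ ^ n
  hg : ∀ n, ∃ m, n ≤ m ∧ m ≤ n + 1 ∧ a * θ ^ m ≤ x m - r (m + 1)
  θ0 : 0 < θ
  θ1 : θ < 1 / 2
  a0 : 0 < a
  B0 : 0 < B

variable (D : Data)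

noncomputable def Data.ρ (n : ℕ) : ℝ := D.B * D.θ ^ n

lemma ρ_pos (n : ℕ) : 0 < D.ρ n := mul_pos D.B0 (pow_pos D.θ0 n)

lemma ρ_anti {n m : ℕ} (hnm : n ≤ m) : D.ρ m ≤ D.ρ n :=
  mul_le_mul_of_nonneg_left (pow_le_pow_of_le_one D.θ0.le (by linarith [D.θ1]) hnm) D.B0.le

lemma descent (n : ℕ) (c u v : ℝ) (n' : ℕ) (hn : n ≤ n')
    (H : ∀ l, n ≤ l → l < n' → v - u < D.x l - D.r (l + 1) ∨
      ∀ z : ℤ, Odd z → v < c + z * h l - D.ρ n ∨ c + z * h l + D.ρ n < u) :
    ∃ (c' : ℝ) (z : ℤ), |c' - c - 2 * z * h n'| ≤ D.ρ n - D.ρ n' ∧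
      ∀ y, u ≤ y → y ≤ v → y - c ∈ D.E n → y - c' ∈ D.E n' := by
  induction n', hn using Nat.le_induction with
  | base => exact ⟨c, 0, by simp, fun y _ _ hy => hy⟩
  | succ l hl ih =>
    obtain ⟨c', z, hz, hc'⟩ := ih fun l' h1 h2 => H l' h1 (by omega)
    have hx : |D.x l - h l| ≤ D.ρ l - D.ρ (l + 1) := D.hx l
    have hr : |D.r (l + 1) - 2 * h (l + 1)| ≤ D.ρ (l + 1) := D.hr2 (l + 1)
    have hh := h_succ l
    have p1 := ρ_pos D (l + 1)
    have p2 : D.ρ (l + 1) ≤ D.ρ l := ρ_anti D (Nat.le_succ l)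
    have hzz : (z : ℝ) * h l = 2 * (z * h (l + 1)) := by rw [hh]; ring
    rw [abs_le] at hz hx hr
    have side : v < c' + D.x l ∨ c' + D.r (l + 1) < u := by
      rcases H l hl (Nat.lt_succ_self l) with h1 | h1
      · by_cases h2 : v < c' + D.x l
        · exact Or.inl h2
        · right; linarith
      · rcases h1 (2 * z + 1) ⟨z, rfl⟩ with h2 | h2
        · left; push_cast at h2; linarith [hz.1, hx.1]
        · right; push_cast at h2; linarith [hz.2, hr.2]
    rcases side with h1 | h1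
    · refine ⟨c', 2 * z, ?_, fun y hu hv hy => ?_⟩
      · push_cast
        rw [abs_le]
        constructor <;> linarith [hz.1, hz.2]
      · rcases D.hE l _ (hc' y hu hv hy) with h2 | h2
        · exact h2
        · have := (D.hr _ _ h2).1
          linarith
    · refine ⟨c' + D.x l, 2 * z + 1, ?_, fun y hu hv hy => ?_⟩
      · push_cast
        rw [abs_le]
        constructor <;> linarith [hz.1, hz.2, hx.1, hx.2]
      · rcases D.hE l _ (hc' y hu hv hy) with h2 | h2
        · have := (D.hr _ _ h2).2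
          linarith
        · rwa [show y - (c' + D.x l) = y - c' - D.x l by ring]

lemma avoid_one (c s u g ρ : ℝ) (hg : 0 < g) (hs : 2 * g ≤ s) (hρ : 6 * ρ < g) :
    ∃ u', u ≤ u' ∧ u' + g / 3 ≤ u + g ∧
      ∀ z : ℤ, u' + g / 3 < c + z * s - ρ ∨ c + z * s + ρ < u' := by
  have hs0 : 0 < s := by linarith
  obtain ⟨z0, h1, h2⟩ : ∃ z0 : ℤ, c + z0 * s ≤ u + g / 2 ∧ u + g / 2 < c + (z0 + 1) * s := by
    refine ⟨⌊(u + g / 2 - c) / s⌋, ?_, ?_⟩
    · have := Int.floor_le ((u + g / 2 - c) / s)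
      rw [le_div_iff₀ hs0] at this; linarith
    · have := Int.lt_floor_add_one ((u + g / 2 - c) / s)
      rw [div_lt_iff₀ hs0] at this; linarith
  have lo : ∀ z : ℤ, z ≤ z0 → c + z * s ≤ c + z0 * s := fun z hz => by
    have : (z : ℝ) ≤ z0 := by exact_mod_cast hz
    nlinarith
  have hi : ∀ z : ℤ, z0 < z → c + (z0 + 1) * s ≤ c + z * s := fun z hz => by
    have : (z0 : ℝ) + 1 ≤ z := by exact_mod_cast hz
    nlinarith
  by_cases hc : c + z0 * s ≤ u - g / 2
  · refine ⟨u, le_rfl, by linarith, fun z => ?_⟩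
    rcases le_or_gt z z0 with hz | hz
    · right; linarith [lo z hz]
    · left; linarith [hi z hz]
  · refine ⟨u + 2 * g / 3, by linarith, by linarith, fun z => ?_⟩
    rcases le_or_gt z z0 with hz | hz
    · right; linarith [lo z hz]
    · left; linarith [hi z hz]

lemma avoid_all (L : List ℝ) (s ρ : ℝ) : ∀ u g : ℝ, 0 < g → 2 * g ≤ s →
    6 * 3 ^ L.length * ρ < g → 0 ≤ ρ →
    ∃ u', u ≤ u' ∧ u' + g / 3 ^ L.length ≤ u + g ∧
      ∀ c ∈ L, ∀ z : ℤ, u' + g / 3 ^ L.length < c + z * s - ρ ∨ c + z * s + ρ < u' := by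
  induction L with
  | nil => intro u g _ _ _ _; exact ⟨u, le_rfl, by simp, by simp⟩
  | cons c L ih =>
    intro u g hg hs hρ hρ0
    rw [List.length_cons, pow_succ] at hρ ⊢
    have h3 : (1 : ℝ) ≤ 3 ^ L.length := one_le_pow₀ (by norm_num)
    obtain ⟨u1, a1, a2, a3⟩ := avoid_one c s u g ρ hg hs (by nlinarith)
    obtain ⟨u2, b1, b2, b3⟩ := ih u1 (g / 3) (by linarith) (by linarith) (by linarith) hρ0
    have e : g / (3 ^ L.length * 3) = g / 3 / 3 ^ L.length := by field_simp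
    rw [e]
    refine ⟨u2, by linarith, by linarith, fun c' hc' z => ?_⟩
    rcases List.mem_cons.mp hc' with rfl | hc'
    · rcases a3 z with h1 | h1
      · left; linarith
      · right; linarith
    · exact b3 c' hc' z

lemma odd_far (w : ℤ) (hw : Odd w) (t : ℝ) (ht : 0 < t) : t ≤ |w * t| := by
  have h0 : w ≠ 0 := by rintro rfl; exact absurd hw (by decide)
  have h1 : (1 : ℝ) ≤ |(w : ℝ)| := by exact_mod_cast Int.one_le_abs h0
  rw [abs_mul, abs_of_pos ht]
  nlinarith

lemma far (d η : ℝ) (m M l : ℕ) (hm : m ≤ M) (hl : l ≤ M) (hlm : l ≠ m) (zp z : ℤ) (hzp : Odd zp)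
    (hz : Odd z) (hη : 2 * η ≤ h M)
    (H : (∃ z0 : ℤ, |d - 2 * z0 * h m| < η) ∨ ∀ z0 : ℤ, η ≤ |d - z0 * h M|) :
    η ≤ |d + z * h l - zp * h m| := by
  rcases H with ⟨z0, H⟩ | H
  · have key : h M ≤ |2 * z0 * h m + z * h l - zp * h m| := by
      rcases lt_or_gt_of_ne hlm with h1 | h1
      · obtain ⟨e, rfl⟩ := Nat.exists_eq_add_of_lt h1
        have e1 := h_add l (e + 1)
        rw [← add_assoc] at e1
        have h2 := odd_far (2 * z0 + 2 * (z * 2 ^ e) - zp)
          (Even.sub_odd (by simp [parity_simps]) hzp) _ (h_pos (l + e + 1))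
        refine le_trans (h_anti hm) (le_of_le_of_eq h2 ?_)
        congr 1
        rw [e1]; push_cast; ring
      · obtain ⟨e, rfl⟩ := Nat.exists_eq_add_of_lt h1
        have e1 := h_add m (e + 1)
        rw [← add_assoc] at e1
        have h2 := odd_far (2 * ((2 * z0 - zp) * 2 ^ e) + z)
          (Even.add_odd (by simp [parity_simps]) hz) _ (h_pos (m + e + 1))
        refine le_trans (h_anti hl) (le_of_le_of_eq h2 ?_)
        congr 1
        rw [e1]; push_cast; ring
    have h3 : |2 * z0 * h m + z * h l - zp * h m| ≤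
        |d + z * h l - zp * h m| + |d - 2 * z0 * h m| := by
      have := abs_sub (d + z * h l - zp * h m) (d - 2 * z0 * h m)
      refine le_of_eq_of_le ?_ this
      congr 1; ring
    linarith
  · obtain ⟨e1, rfl⟩ := Nat.exists_eq_add_of_le hm
    obtain ⟨e2, he2⟩ := Nat.exists_eq_add_of_le hl
    have a1 := h_add m e1
    have a2 := h_add l e2
    rw [← he2] at a2
    refine le_of_le_of_eq (H (zp * 2 ^ e1 - z * 2 ^ e2)) ?_
    congr 1
    generalize h (m + e1) = t at a1 a2 ⊢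
    rw [a2, a1]
    push_cast; ring

def Cov (n : ℕ) (L : List ℝ) (u v : ℝ) : Prop :=
  ∀ y, u ≤ y → y ≤ v → ∃ c ∈ L, y - c ∈ D.E n

lemma cov_map (n n' : ℕ) (L : List ℝ) (u v : ℝ) (hc : Cov D n L u v)
    (H : ∀ c ∈ L, ∃ c', ∀ y, u ≤ y → y ≤ v → y - c ∈ D.E n → y - c' ∈ D.E n') :
    ∃ L' : List ℝ, L'.length = L.length ∧ Cov D n' L' u v := by
  choose! f hf using H
  refine ⟨L.map f, by simp, fun y hu hv => ?_⟩
  obtain ⟨c, hcL, hy⟩ := hc y hu hv
  exact ⟨f c, List.mem_map_of_mem hcL, hf c hcL y hu hv hy⟩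

lemma pick_level (L : List ℝ) (c1 η : ℝ) (mm : ℕ → ℕ) (C : ℕ)
    (hmm : ∀ t t', t < t' → mm t + C < mm t') :
    ∃ t, t ≤ L.length ∧ ∀ c ∈ L, (∃ z0 : ℤ, |c - c1 - 2 * z0 * h (mm t)| < η) ∨
      ∀ z0 : ℤ, η ≤ |c - c1 - z0 * h (mm t + C)| := by
  classical
  by_contra hcon
  push Not at hcon
  choose! f hf using hcon
  have hcard : L.toFinset.card < (Finset.range (L.length + 1)).card := by
    rw [Finset.card_range]
    exact Nat.lt_succ_of_le (List.toFinset_card_le L)
  obtain ⟨t, ht, t', ht', hne, hff⟩ := Finset.exists_ne_map_eq_of_card_lt_of_maps_to hcard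
    (f := f) (fun t ht => by
      have := (hf t (Nat.lt_succ_iff.mp (Finset.mem_range.mp ht))).1
      simpa using this)
  have key : ∀ s s', s ≤ L.length → s' ≤ L.length → s < s' → f s ≠ f s' := by
    intro s s' hs hs' hlt e
    obtain ⟨z, hz⟩ := (hf s hs).2.2
    obtain ⟨d, hd⟩ := Nat.exists_eq_add_of_lt (hmm s s' hlt)
    have a1 := h_add (mm s + C) (d + 1)
    rw [← add_assoc, ← hd] at a1
    have h2 := (hf s' hs').2.1 (z * 2 ^ d)
    rw [← e] at h2
    refine absurd (lt_of_eq_of_lt ?_ hz) (not_lt.mpr h2)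
    congr 1
    rw [a1]; push_cast; ring
  have h1 := Nat.lt_succ_iff.mp (Finset.mem_range.mp ht)
  have h2 := Nat.lt_succ_iff.mp (Finset.mem_range.mp ht')
  rcases lt_or_gt_of_ne hne with h3 | h3
  · exact key t t' h1 h2 h3 hff
  · exact key t' t h2 h1 h3 hff.symm

lemma gap_le (n m : ℕ) (hnm : n ≤ m) : D.x m - D.r (m + 1) ≤ D.ρ n := by
  have hx : |D.x m - h m| ≤ D.ρ m - D.ρ (m + 1) := D.hx m
  have hr : |D.r (m + 1) - 2 * h (m + 1)| ≤ D.ρ (m + 1) := D.hr2 (m + 1)
  have := h_succ m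
  have := ρ_anti D hnm
  rw [abs_le] at hx hr
  linarith [hx.2, hr.1]

lemma kill (n m : ℕ) (hnm : n ≤ m) (c1 g : ℝ) (zp : ℤ) (hzp : Odd zp) (hg : 0 < g)
    (hg2 : 3 * g ≤ D.x m - D.r (m + 1)) (hρ : 4 * D.ρ n < h m) :
    ∃ u, c1 + zp * h m - D.ρ n ≤ u ∧ u + g ≤ c1 + zp * h m + D.ρ n ∧
      ∀ y, u ≤ y → y ≤ u + g → y - c1 ∉ D.E n := by
  have hm := h_pos m
  obtain ⟨c', z, hz, hc'⟩ := descent D n c1 (c1 + zp * h m - D.ρ n) (c1 + zp * h m + D.ρ n) m hnm
    (fun l _ hl => Or.inr fun z hz => by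
      have h1 := far 0 (h m / 2) m m l le_rfl hl.le hl.ne zp z hzp hz (by linarith)
        (Or.inl ⟨0, by simpa using hm⟩)
      rcases le_abs'.mp h1 with h2 | h2
      · right; linarith
      · left; linarith)
  have hx : |D.x m - h m| ≤ D.ρ m - D.ρ (m + 1) := D.hx m
  have hr : |D.r (m + 1) - 2 * h (m + 1)| ≤ D.ρ (m + 1) := D.hr2 (m + 1)
  have hr' : |D.r m - 2 * h m| ≤ D.ρ m := D.hr2 m
  have hh := h_succ m
  have p1 := ρ_pos D (m + 1)
  have p0 := ρ_pos D m
  have p3 := gap_le D n m hnm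
  rw [abs_le] at hz hx hr hr'
  rcases lt_trichotomy zp (2 * z + 1) with h1 | h1 | h1
  · have h2 : zp ≤ 2 * z - 1 := by obtain ⟨w, rfl⟩ := hzp; omega
    have h3 : (zp : ℝ) ≤ 2 * z - 1 := by exact_mod_cast h2
    have h4 : (zp : ℝ) * h m ≤ (2 * z - 1) * h m := mul_le_mul_of_nonneg_right h3 hm.le
    refine ⟨c1 + zp * h m - D.ρ n, le_rfl, by linarith, fun y hu hv hy => ?_⟩
    have := (D.hr _ _ (hc' y hu (by linarith) hy)).1
    linarith [hz.1]
  · subst h1
    push_cast at hc' ⊢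
    refine ⟨c' + D.r (m + 1) + g, by linarith [hz.1, hr.1], by linarith [hz.2, hx.2],
      fun y hu hv hy => ?_⟩
    rcases D.hE m _ (hc' y (by linarith [hz.1, hr.1]) (by linarith [hz.2, hx.2]) hy) with h2 | h2
    · have := (D.hr _ _ h2).2
      linarith
    · have := (D.hr _ _ h2).1
      linarith
  · have h2 : 2 * z + 3 ≤ zp := by obtain ⟨w, rfl⟩ := hzp; omega
    have h3 : 2 * (z : ℝ) + 3 ≤ zp := by exact_mod_cast h2
    have h4 : (2 * z + 3) * h m ≤ (zp : ℝ) * h m := mul_le_mul_of_nonneg_right h3 hm.le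
    refine ⟨c1 + zp * h m - D.ρ n, le_rfl, by linarith, fun y hu hv hy => ?_⟩
    have := (D.hr _ _ (hc' y hu (by linarith) hy)).2
    linarith [hz.2, hr'.2]

lemma exists_h_lt (ε : ℝ) (hε : 0 < ε) : ∃ n, h n < ε :=
  exists_pow_lt_of_lt_one hε (by norm_num)

lemma exists_scale (M : ℕ) (g : ℝ) (hg : 0 < g) (hM : g ≤ h M) :
    ∃ n', M ≤ n' ∧ g ≤ h n' ∧ h n' < 2 * g := by
  classical
  have hex : ∃ l, h (M + l + 1) < g := by
    obtain ⟨n, hn⟩ := exists_h_lt g hg
    exact ⟨n, lt_of_le_of_lt (h_anti (by omega)) hn⟩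
  refine ⟨M + Nat.find hex, by omega, ?_, ?_⟩
  · rcases Nat.eq_zero_or_pos (Nat.find hex) with h0 | h0
    · rw [h0]; exact hM
    · have := Nat.find_min hex (m := Nat.find hex - 1) (by omega)
      rw [show M + (Nat.find hex - 1) + 1 = M + Nat.find hex by omega] at this
      exact not_lt.mp this
  · have := Nat.find_spec hex
    rw [h_succ]; linarith

theorem no_cover (k : ℕ) : ∀ lam > 0, ∃ n0, ∀ n, n0 ≤ n → ∀ L : List ℝ, L.length ≤ k →
    ∀ u, ¬ Cov D n L u (u + lam * h n) := by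
  induction k with
  | zero =>
    intro lam hlam
    refine ⟨0, fun n _ L hL u hc => ?_⟩
    obtain ⟨c, hcL, -⟩ := hc u le_rfl (by have := h_pos n; nlinarith)
    rw [List.length_eq_zero_iff.mp (Nat.le_zero.mp hL)] at hcL
    simp at hcL
  | succ k ih =>
    intro lam hlam
    obtain ⟨n1, hn1⟩ := ih (1 / (2 * 3 ^ k)) (by positivity)
    obtain ⟨m0, hm0⟩ := exists_h_lt (lam / 4) (by positivity)
    have hB := D.B0
    have ha := D.a0
    obtain ⟨C, hC⟩ := exists_pow_lt_of_lt_one (show 0 < D.a / (18 * 3 ^ k * D.B) by positivity)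
      (show D.θ < 1 by linarith [D.θ1])
    obtain ⟨W, hW⟩ : ∃ W, W = m0 + (k + 1) * (C + 2) := ⟨_, rfl⟩
    have hWp := h_pos W
    obtain ⟨n2, hn2⟩ := exists_pow_lt_of_lt_one (show 0 < h W / (4 * D.B) by positivity)
      (show 2 * D.θ < 1 by linarith [D.θ1])
    refine ⟨max n1 n2, fun n hn L hL u hc => ?_⟩
    have hn1' : n1 ≤ n := le_trans (le_max_left _ _) hn
    have hn2' : n2 ≤ n := le_trans (le_max_right _ _) hn
    have hhn := h_pos n
    have hρ : 4 * D.ρ n < h (n + W) := by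
      have a1 : (2 * D.θ) ^ n ≤ (2 * D.θ) ^ n2 :=
        pow_le_pow_of_le_one (by linarith [D.θ0]) (by linarith [D.θ1]) hn2'
      have a2 := lt_of_le_of_lt a1 hn2
      rw [lt_div_iff₀ (by positivity)] at a2
      have a3 : D.θ ^ n = (2 * D.θ) ^ n * h n := by
        unfold h; rw [← mul_pow]; congr 1; ring
      have a4 : h (n + W) = h W * h n := by unfold h; rw [pow_add]; ring
      unfold Data.ρ
      rw [a3, a4]
      nlinarith
    cases L with
    | nil =>
      obtain ⟨c, hcL, -⟩ := hc u le_rfl (by nlinarith)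
      simp at hcL
    | cons c1 L =>
      have hL' : L.length ≤ k := by simpa using hL
      choose gl gl1 gl2 gl3 using D.hg
      obtain ⟨t, ht, hal⟩ := pick_level L c1 (h (n + W) / 2)
        (fun t => gl (n + m0 + t * (C + 2))) C (fun t t' htt => by
          have a1 := gl2 (n + m0 + t * (C + 2))
          have a2 := gl1 (n + m0 + t' * (C + 2))
          have a3 : (t + 1) * (C + 2) ≤ t' * (C + 2) := Nat.mul_le_mul_right _ htt
          rw [add_mul] at a3
          omega)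
      obtain ⟨m, hm⟩ : ∃ m, m = gl (n + m0 + t * (C + 2)) := ⟨_, rfl⟩
      have b1 := gl1 (n + m0 + t * (C + 2))
      have b2 := gl2 (n + m0 + t * (C + 2))
      have b3 := gl3 (n + m0 + t * (C + 2))
      rw [← hm] at b1 b2 b3 hal
      have b4 : (t + 1) * (C + 2) ≤ (k + 1) * (C + 2) := Nat.mul_le_mul_right _ (by omega)
      rw [add_mul t] at b4
      have hMW : m + C ≤ n + W := by omega
      have hnm : n ≤ m := by omega
      have hM := h_anti hMW
      have hM2 : h (m + C) ≤ h m := h_anti (by omega)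
      have hmp := h_pos m
      have hml : h m ≤ lam / 4 * h n := by
        have a1 : h m ≤ h (n + m0) := h_anti (by omega)
        have a4 : h (n + m0) = h m0 * h n := by unfold h; rw [pow_add]; ring
        nlinarith
      obtain ⟨g, hg⟩ : ∃ g, g = D.a * D.θ ^ m / 3 := ⟨_, rfl⟩
      have hθm := pow_pos D.θ0 m
      have hg0 : 0 < g := by rw [hg]; positivity
      have hg3 : 3 * g ≤ D.x m - D.r (m + 1) := by linarith
      have pn := ρ_pos D n
      obtain ⟨zp, hzp, z1, z2⟩ : ∃ zp : ℤ, Odd zp ∧ u + D.ρ n ≤ c1 + zp * h m ∧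
          c1 + zp * h m ≤ u + D.ρ n + 2 * h m := by
        have q1 := Int.floor_le ((u + D.ρ n - c1 + h m) / (2 * h m))
        have q2 := Int.lt_floor_add_one ((u + D.ρ n - c1 + h m) / (2 * h m))
        rw [le_div_iff₀ (by positivity)] at q1
        rw [div_lt_iff₀ (by positivity)] at q2
        refine ⟨2 * ⌊(u + D.ρ n - c1 + h m) / (2 * h m)⌋ + 1, ⟨_, rfl⟩, ?_, ?_⟩
        · push_cast; linarith
        · push_cast; linarith
      obtain ⟨u1, k1, k2, k3⟩ := kill D n m hnm c1 g zp hzp hg0 hg3 (by linarith)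
      have cov1 : Cov D n L u1 (u1 + g) := by
        intro y hu hv
        obtain ⟨c, hcL, hy⟩ := hc y (by linarith) (by linarith)
        rcases List.mem_cons.mp hcL with rfl | hcL
        · exact absurd hy (k3 y hu hv)
        · exact ⟨c, hcL, hy⟩
      obtain ⟨L1, len1, cov2⟩ := cov_map D n (m + C) L u1 (u1 + g) cov1 (fun c hcL => by
        obtain ⟨c', -, -, hc'⟩ := descent D n c u1 (u1 + g) (m + C) (by omega)
          (fun l _ hl => by
            by_cases hlm : l = m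
            · left; rw [hlm]; linarith
            · right
              intro z hz
              have h1 := far (c - c1) (h (n + W) / 2) m (m + C) l (by omega) hl.le hlm zp z hzp hz
                (by linarith) (hal c hcL)
              rcases le_abs'.mp h1 with h2 | h2
              · right; linarith
              · left; linarith)
        exact ⟨c', hc'⟩)
      have p3 := gap_le D n m hnm
      obtain ⟨n', c1', c2', c3'⟩ := exists_scale (m + C) g hg0 (by linarith)
      have h3k : (3 : ℝ) ^ L1.length ≤ 3 ^ k := pow_le_pow_right₀ (by norm_num) (by omega)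
      have h3p : (0 : ℝ) < 3 ^ L1.length := by positivity
      have pM := ρ_pos D (m + C)
      have hρM : 6 * 3 ^ k * D.ρ (m + C) < g := by
        rw [lt_div_iff₀ (by positivity)] at hC
        unfold Data.ρ
        rw [hg, pow_add]
        nlinarith
      obtain ⟨u2, d1, d2, d3⟩ := avoid_all L1 (2 * h n') (D.ρ (m + C)) u1 g hg0 (by linarith)
        (by nlinarith) pM.le
      have hv2 : 1 / (2 * 3 ^ k) * h n' ≤ g / 3 ^ L1.length := by
        have a1 : g / 3 ^ k ≤ g / 3 ^ L1.length := div_le_div_of_nonneg_left hg0.le h3p h3k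
        refine le_trans ?_ a1
        rw [le_div_iff₀ (by positivity)]
        have : 1 / (2 * 3 ^ k) * h n' * 3 ^ k = h n' / 2 := by field_simp
        linarith
      have cov3 : Cov D (m + C) L1 u2 (u2 + 1 / (2 * 3 ^ k) * h n') := fun y hu hv =>
        cov2 y (by linarith) (by linarith)
      obtain ⟨L2, len2, cov4⟩ := cov_map D (m + C) n' L1 _ _ cov3 (fun c hcL => by
        obtain ⟨c', -, -, hc'⟩ := descent D (m + C) c u2 (u2 + 1 / (2 * 3 ^ k) * h n') n' c1'
          (fun l _ hl => Or.inr fun z _ => by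
            obtain ⟨d, hd⟩ := Nat.exists_eq_add_of_lt hl
            have a1 := h_add l (d + 1)
            rw [← add_assoc, ← hd] at a1
            have a2 : (z : ℝ) * h l = ((z * 2 ^ d : ℤ) : ℝ) * (2 * h n') := by
              rw [a1]; push_cast; ring
            rw [a2]
            rcases d3 c hcL (z * 2 ^ d) with h2 | h2
            · left; linarith
            · right; linarith)
        exact ⟨c', hc'⟩)
      exact hn1 n' (by omega) L2 (by omega) u2 cov4

lemma cover_all (n : ℕ) : ∃ F : Finset ℝ, F.card ≤ 2 ^ n ∧ ∀ y ∈ D.E 0, ∃ c ∈ F, y - c ∈ D.E n := by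
  classical
  induction n with
  | zero => exact ⟨{0}, by simp, fun y hy => ⟨0, by simp, by simpa using hy⟩⟩
  | succ n ih =>
    obtain ⟨F, hF, hc⟩ := ih
    refine ⟨F ∪ F.image (fun c => c + D.x n), ?_, fun y hy => ?_⟩
    · have a1 := Finset.card_union_le F (F.image (fun c => c + D.x n))
      have a2 := Finset.card_image_le (s := F) (f := fun c => c + D.x n)
      rw [pow_succ]; omega
    · obtain ⟨c, hcF, hyc⟩ := hc y hy
      rcases D.hE n _ hyc with h1 | h1
      · exact ⟨c, Finset.mem_union_left _ hcF, h1⟩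
      · refine ⟨c + D.x n, Finset.mem_union_right _ (Finset.mem_image_of_mem _ hcF), ?_⟩
        rwa [show y - (c + D.x n) = y - c - D.x n by ring]

theorem interior_empty : interior (D.E 0) = ∅ := by
  classical
  rw [eq_empty_iff_forall_notMem]
  intro u hu
  obtain ⟨s, hs, hball⟩ := Metric.isOpen_iff.mp isOpen_interior u hu
  obtain ⟨c, hc⟩ := exists_h_lt (s / 4) (by positivity)
  obtain ⟨n0, hn0⟩ := no_cover D (2 ^ c) (1 / 2) (by norm_num)
  have hB := D.B0
  obtain ⟨n2, hn2⟩ := exists_pow_lt_of_lt_one (show 0 < 1 / D.B by positivity)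
    (show 2 * D.θ < 1 by linarith [D.θ1])
  obtain ⟨e, he⟩ : ∃ e, e = max n0 n2 := ⟨_, rfl⟩
  have he0 : n0 ≤ e := he ▸ le_max_left _ _
  have he2 : n2 ≤ e := he ▸ le_max_right _ _
  have hhn := h_pos (c + e)
  have hρ : D.ρ (c + e) ≤ h (c + e) := by
    have a1 : (2 * D.θ) ^ (c + e) ≤ (2 * D.θ) ^ n2 :=
      pow_le_pow_of_le_one (by linarith [D.θ0]) (by linarith [D.θ1]) (by omega)
    have a2 := lt_of_le_of_lt a1 hn2
    rw [lt_div_iff₀ hB] at a2
    have a3 : D.θ ^ (c + e) = (2 * D.θ) ^ (c + e) * h (c + e) := by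
      unfold h; rw [← mul_pow]; congr 1; ring
    unfold Data.ρ
    rw [a3]
    nlinarith
  have hr : |D.r (c + e) - 2 * h (c + e)| ≤ D.ρ (c + e) := D.hr2 _
  rw [abs_le] at hr
  obtain ⟨F, hF, hFc⟩ := cover_all D (c + e)
  obtain ⟨i, hi, hfib⟩ := Finset.exists_card_fiber_lt_of_card_lt_mul
    (s := F) (t := (Finset.range (2 ^ e)).image (fun i : ℕ => (i : ℤ))) (n := 2 ^ c + 1)
    (f := fun a => ⌊(a - u) / (4 * h (c + e))⌋) (by
      rw [Finset.card_image_of_injective _ Nat.cast_injective, Finset.card_range]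
      have : 0 < 2 ^ e := by positivity
      calc F.card ≤ 2 ^ (c + e) := hF
        _ < 2 ^ e * (2 ^ c + 1) := by rw [pow_add, mul_add, mul_comm]; omega)
  obtain ⟨j, hj, rfl⟩ := Finset.mem_image.mp hi
  have hj' : (j : ℝ) + 1 ≤ 2 ^ e := by exact_mod_cast Finset.mem_range.mp hj
  refine hn0 (c + e) (by omega) (F.filter fun a => ⌊(a - u) / (4 * h (c + e))⌋ = (j : ℤ)).toList
    (by rw [Finset.length_toList]; omega) (u + (4 * j + 3) * h (c + e)) fun y hy1 hy2 => ?_
  have a1 := h_add c e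
  have hj0 : (0 : ℝ) ≤ j := Nat.cast_nonneg j
  have hyE : y ∈ D.E 0 := by
    refine interior_subset (hball ?_)
    rw [Metric.mem_ball, Real.dist_eq, abs_lt]
    constructor <;> nlinarith
  obtain ⟨a, haF, hya⟩ := hFc y hyE
  refine ⟨a, ?_, hya⟩
  rw [Finset.mem_toList, Finset.mem_filter]
  refine ⟨haF, ?_⟩
  have a2 := D.hr _ _ hya
  rw [Int.floor_eq_iff, le_div_iff₀ (by positivity), div_lt_iff₀ (by positivity)]
  push_cast
  constructor <;> linarith [a2.1, a2.2, hr.2]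

end Pool.Agent.H26.Achieve
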