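import Mathlib

set_option autoImplicit false

namespace Pool.Agent.H26.Brouwer

open Set Filter Topology

def Good (K : Set ℝ) (p : ℝ × ℝ) : Prop :=
  p.1 ∈ K ∧ p.2 ∈ K ∧ p.1 < p.2 ∧ (∀ ε > 0, ∃ y ∈ K, p.1 < y ∧ y < p.1 + ε) ∧
    (∀ ε > 0, ∃ y ∈ K, y < p.2 ∧ p.2 - ε < y)

lemma split (K : Set ℝ) (hc : IsCompact K)
    (hp : ∀ s ∈ K, ∀ ε > 0, ∃ y ∈ K, y ≠ s ∧ |y - s| < ε) (hi : interior K = ∅)
    (p : ℝ × ℝ) (h : Good K p) :
    ∃ b' a' : ℝ, Good K (p.1, b') ∧ Good K (a', p.2) ∧ b' < a' ∧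
      b' - p.1 ≤ 2 / 3 * (p.2 - p.1) ∧ p.2 - a' ≤ 2 / 3 * (p.2 - p.1) ∧
      ∀ y ∈ K, y ≤ b' ∨ a' ≤ y := by
  obtain ⟨a, b⟩ := p
  obtain ⟨ha, hb, hab, hra, hlb⟩ := h
  simp only at ha hb hab hra hlb ⊢
  have hne : ¬ Ioo ((2 * a + b) / 3) ((a + 2 * b) / 3) ⊆ K := by
    intro hs
    have h1 := interior_maximal hs isOpen_Ioo
    rw [hi] at h1
    exact h1 (show (a + b) / 2 ∈ Ioo ((2 * a + b) / 3) ((a + 2 * b) / 3) from
      ⟨by linarith, by linarith⟩)
  obtain ⟨c, ⟨hc1, hc2⟩, hcK⟩ := not_subset.mp hne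
  obtain ⟨b', ⟨hb'K, hb'c⟩, hb'max⟩ := (hc.inter_right (isClosed_Iic (a := c))).exists_isGreatest
    ⟨a, ha, show a ≤ c by linarith⟩
  obtain ⟨a', ⟨ha'K, ha'c⟩, ha'min⟩ := (hc.inter_right (isClosed_Ici (a := c))).exists_isLeast
    ⟨b, hb, show c ≤ b by linarith⟩
  have hb'c' : b' < c := lt_of_le_of_ne hb'c (fun e => hcK (e ▸ hb'K))
  have ha'c' : c < a' := lt_of_le_of_ne ha'c (fun e => hcK (e ▸ ha'K))
  have hor : ∀ y ∈ K, y ≤ b' ∨ a' ≤ y := fun y hy => by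
    rcases le_total y c with h1 | h1
    · exact Or.inl (hb'max ⟨hy, h1⟩)
    · exact Or.inr (ha'min ⟨hy, h1⟩)
  refine ⟨b', a', ⟨ha, hb'K, ?_, hra, fun ε hε => ?_⟩, ⟨ha'K, hb, ?_, fun ε hε => ?_, hlb⟩,
    by linarith, by linarith, by linarith, hor⟩
  · obtain ⟨y, hy, h1, h2⟩ := hra (c - a) (by linarith)
    exact lt_of_lt_of_le h1 (hb'max ⟨hy, show y ≤ c by linarith⟩)
  · obtain ⟨y, hy, h1, h2⟩ := hp b' hb'K (min ε (a' - b')) (lt_min hε (by linarith))
    rw [abs_lt] at h2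
    have h3 := min_le_left ε (a' - b')
    have h4 := min_le_right ε (a' - b')
    rcases hor y hy with h5 | h5
    · exact ⟨y, hy, lt_of_le_of_ne h5 h1, by simp only; linarith⟩
    · linarith
  · obtain ⟨y, hy, h1, h2⟩ := hlb (b - c) (by linarith)
    exact lt_of_le_of_lt (ha'min ⟨hy, show c ≤ y by linarith⟩) h1
  · obtain ⟨y, hy, h1, h2⟩ := hp a' ha'K (min ε (a' - b')) (lt_min hε (by linarith))
    rw [abs_lt] at h2
    have h3 := min_le_left ε (a' - b')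
    have h4 := min_le_right ε (a' - b')
    rcases hor y hy with h5 | h5
    · linarith
    · exact ⟨y, hy, lt_of_le_of_ne h5 h1.symm, by simp only; linarith⟩

theorem homeo (K : Set ℝ) (hc : IsCompact K) (hne : K.Nonempty)
    (hp : ∀ s ∈ K, ∀ ε > 0, ∃ y ∈ K, y ≠ s ∧ |y - s| < ε) (hi : interior K = ∅) :
    Nonempty (K ≃ₜ cantorSet) := by
  obtain ⟨a0, ha0, hmin⟩ := hc.exists_isLeast hne
  obtain ⟨b0, hb0, hmax⟩ := hc.exists_isGreatest hne
  have g0 : Good K (a0, b0) := by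
    refine ⟨ha0, hb0, ?_, fun ε hε => ?_, fun ε hε => ?_⟩
    · obtain ⟨y, hy, h1, -⟩ := hp a0 ha0 1 one_pos
      exact lt_of_lt_of_le (lt_of_le_of_ne (hmin hy) h1.symm) (hmax hy)
    · obtain ⟨y, hy, h1, h2⟩ := hp a0 ha0 ε hε
      rw [abs_lt] at h2
      exact ⟨y, hy, lt_of_le_of_ne (hmin hy) h1.symm, by simp only; linarith⟩
    · obtain ⟨y, hy, h1, h2⟩ := hp b0 hb0 ε hε
      rw [abs_lt] at h2
      exact ⟨y, hy, lt_of_le_of_ne (hmax hy) h1, by simp only; linarith⟩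
  choose fb fa hg1 hg2 hlt hl1 hl2 hor using split K hc hp hi
  let P := {p : ℝ × ℝ // Good K p}
  let sp : P → Bool → P := fun p t =>
    Bool.casesOn t ⟨(p.1.1, fb p.1 p.2), hg1 p.1 p.2⟩ ⟨(fa p.1 p.2, p.1.2), hg2 p.1 p.2⟩
  have sp1 : ∀ p t, p.1.1 ≤ (sp p t).1.1 ∧ (sp p t).1.2 ≤ p.1.2 ∧
      (sp p t).1.2 - (sp p t).1.1 ≤ 2 / 3 * (p.1.2 - p.1.1) := by
    intro p t
    have h1 := (hg1 p.1 p.2).2.2.1
    have h2 := (hg2 p.1 p.2).2.2.1
    have h3 := hlt p.1 p.2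
    simp only at h1 h2
    cases t with
    | false => exact ⟨le_rfl, show fb p.1 p.2 ≤ _ by linarith, hl1 p.1 p.2⟩
    | true => exact ⟨show _ ≤ fa p.1 p.2 by linarith, le_rfl, hl2 p.1 p.2⟩
  let sq : (ℕ → Bool) → ℕ → P := fun ε n => Nat.rec ⟨(a0, b0), g0⟩ (fun n p => sp p (ε n)) n
  have sq_succ : ∀ ε n, sq ε (n + 1) = sp (sq ε n) (ε n) := fun _ _ => rfl
  have mono1 : ∀ ε, Monotone fun n => (sq ε n).1.1 := fun ε =>
    monotone_nat_of_le_succ fun n => (sp1 _ _).1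
  have mono2 : ∀ ε, Antitone fun n => (sq ε n).1.2 := fun ε =>
    antitone_nat_of_succ_le fun n => (sp1 _ _).2.1
  have len : ∀ ε n, (sq ε n).1.2 - (sq ε n).1.1 ≤ (2 / 3) ^ n * (b0 - a0) := by
    intro ε n
    induction n with
    | zero => simp [sq]
    | succ n ih =>
      have := (sp1 (sq ε n) (ε n)).2.2
      rw [sq_succ, pow_succ]
      linarith
  have cross : ∀ ε n m, (sq ε n).1.1 ≤ (sq ε m).1.2 := fun ε n m => by
    have h1 := mono1 ε (le_max_left n m)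
    have h2 := mono2 ε (le_max_right n m)
    have h3 := (sq ε (max n m)).2.2.2.1
    simp only at h1 h2
    linarith
  let φ : (ℕ → Bool) → ℝ := fun ε => ⨆ n, (sq ε n).1.1
  have bdd : ∀ ε, BddAbove (range fun n => (sq ε n).1.1) := fun ε =>
    ⟨(sq ε 0).1.2, by rintro _ ⟨n, rfl⟩; exact cross ε n 0⟩
  have φ1 : ∀ ε n, (sq ε n).1.1 ≤ φ ε := fun ε n => le_ciSup (bdd ε) n
  have φ2 : ∀ ε n, φ ε ≤ (sq ε n).1.2 := fun ε n => ciSup_le fun m => cross ε m n
  have φK : ∀ ε, φ ε ∈ K := fun ε =>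
    hc.isClosed.mem_of_tendsto (tendsto_atTop_ciSup (mono1 ε) (bdd ε))
      (Eventually.of_forall fun n => (sq ε n).2.1)
  have loc : ∀ ε ε' n, (∀ i, i < n → ε i = ε' i) → sq ε n = sq ε' n := by
    intro ε ε' n
    induction n with
    | zero => intro _; rfl
    | succ n ih =>
      intro h
      rw [sq_succ, sq_succ, ih fun i hi => h i (by omega), h n (by omega)]
  have small : ∀ δ > 0, ∃ n : ℕ, (2 / 3 : ℝ) ^ n * (b0 - a0) < δ := by
    intro δ hδ
    have h1 : Tendsto (fun n : ℕ => (2 / 3 : ℝ) ^ n * (b0 - a0)) atTop (𝓝 (0 * (b0 - a0))) :=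
      (tendsto_pow_atTop_nhds_zero_of_lt_one (by norm_num) (by norm_num)).mul_const _
    rw [zero_mul] at h1
    exact (h1.eventually (gt_mem_nhds hδ)).exists
  have φc : Continuous φ := by
    rw [continuous_iff_continuousAt]
    intro ε
    rw [ContinuousAt, Metric.tendsto_nhds]
    intro δ hδ
    obtain ⟨n, hn⟩ := small δ hδ
    have h1 : ∀ᶠ ε' in 𝓝 ε, ∀ i ∈ Finset.range n, ε' i = ε i := by
      rw [Filter.eventually_all_finset]
      intro i _
      exact (continuous_apply i).continuousAt.eventually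
        ((isOpen_discrete {t : Bool | t = ε i}).mem_nhds rfl)
    filter_upwards [h1] with ε' h
    have e := loc ε' ε n fun i hi => h i (Finset.mem_range.mpr hi)
    have a1 := φ1 ε n
    have a2 := φ2 ε n
    have a3 := φ1 ε' n
    have a4 := φ2 ε' n
    have a5 := len ε n
    rw [e] at a3 a4
    rw [Real.dist_eq, abs_lt]
    constructor <;> linarith
  have sepa : ∀ ε ε' n, sq ε n = sq ε' n → ε n = false → ε' n = true → φ ε < φ ε' := by
    intro ε ε' n e h1 h2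
    have a1 := φ2 ε (n + 1)
    have a2 := φ1 ε' (n + 1)
    rw [sq_succ, h1] at a1
    rw [sq_succ, h2, ← e] at a2
    exact lt_of_le_of_lt a1 (lt_of_lt_of_le (hlt _ _) a2)
  have φi : Function.Injective φ := by
    intro ε ε' h
    by_contra hne'
    have hex : ∃ n, ε n ≠ ε' n := Function.ne_iff.mp hne'
    have e := loc ε ε' (Nat.find hex) fun i hi => not_not.mp (Nat.find_min hex hi)
    have hn := Nat.find_spec hex
    cases h1 : ε (Nat.find hex) <;> cases h2 : ε' (Nat.find hex)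
    · exact hn (h1.trans h2.symm)
    · exact (sepa ε ε' _ e h1 h2).ne h
    · exact (sepa ε' ε _ e.symm h2 h1).ne h.symm
    · exact hn (h1.trans h2.symm)
  have φs : ∀ y ∈ K, ∃ ε, φ ε = y := by
    intro y hy
    let q : ℕ → P := fun n => Nat.rec ⟨(a0, b0), g0⟩
      (fun _ p => sp p (decide (fb p.1 p.2 < y))) n
    let ε : ℕ → Bool := fun n => decide (fb (q n).1 (q n).2 < y)
    have e : ∀ n, sq ε n = q n := by
      intro n
      induction n with
      | zero => rfl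
      | succ n ih => rw [sq_succ, ih]
    have inq : ∀ n, (q n).1.1 ≤ y ∧ y ≤ (q n).1.2 := by
      intro n
      induction n with
      | zero => exact ⟨hmin hy, hmax hy⟩
      | succ n ih =>
        have e1 : q (n + 1) = sp (q n) (decide (fb (q n).1 (q n).2 < y)) := rfl
        rw [e1]
        by_cases h : fb (q n).1 (q n).2 < y
        · rw [decide_eq_true h]
          rcases hor (q n).1 (q n).2 y hy with h1 | h1
          · exact absurd h (not_lt.mpr h1)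
          · exact ⟨h1, ih.2⟩
        · rw [decide_eq_false h]
          exact ⟨ih.1, not_lt.mp h⟩
    refine ⟨ε, eq_of_forall_dist_le fun δ hδ => ?_⟩
    obtain ⟨n, hn⟩ := small δ hδ
    have a1 := φ1 ε n
    have a2 := φ2 ε n
    have a5 := len ε n
    rw [e] at a1 a2 a5
    have a3 := inq n
    rw [Real.dist_eq, abs_le]
    constructor <;> linarith [a3.1, a3.2]
  let ψ : (ℕ → Bool) ≃ K := Equiv.ofBijective (fun ε => ⟨φ ε, φK ε⟩)
    ⟨fun ε ε' h => φi (congrArg Subtype.val h), fun y => by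
      obtain ⟨ε, h⟩ := φs y.1 y.2
      exact ⟨ε, Subtype.ext h⟩⟩
  have ψc : Continuous ψ := φc.subtype_mk _
  exact ⟨(ψc.homeoOfEquivCompactToT2.symm).trans cantorSetHomeomorphNatToBool.symm⟩

end Pool.Agent.H26.Brouwer
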