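import Pool.Agent.H26.Achieve
import Pool.Agent.H26.Brouwer

set_option autoImplicit false

namespace Pool.Agent.H26.Achieve

open Set Filter Topology

def tailSet (x : ℕ → ℝ) (n : ℕ) : Set ℝ :=
  {s | ∃ A : Set ℕ, (∀ i ∈ A, n ≤ i) ∧ s = ∑' i : A, x i}

theorem cantor (x : ℕ → ℝ) (B a θ : ℝ) (θ0 : 0 < θ) (θ1 : θ < 1 / 2) (a0 : 0 < a) (B0 : 0 < B)
    (xpos : ∀ n, 0 < x n) (hx : ∀ n, |x n - h n| ≤ B * θ ^ n - B * θ ^ (n + 1))
    (hg : ∀ r : ℕ → ℝ, (∀ n, r n = x n + r (n + 1)) → (∀ n, |r n - 2 * h n| ≤ B * θ ^ n) →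
      ∀ n, ∃ m, n ≤ m ∧ m ≤ n + 1 ∧ a * θ ^ m ≤ x m - r (m + 1)) :
    Nonempty (tailSet x 1 ≃ₜ cantorSet) := by
  classical
  have sθ : Summable fun n : ℕ => θ ^ n := summable_geometric_of_lt_one θ0.le (by linarith)
  have sh : Summable h := summable_geometric_of_lt_one (by norm_num) (by norm_num)
  have sx : Summable x := by
    refine Summable.of_nonneg_of_le (fun n => (xpos n).le) (fun n => ?_) (sh.add (sθ.mul_left B))
    have := (abs_le.mp (hx n)).2
    have : 0 < B * θ ^ (n + 1) := by positivity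
    linarith
  let r : ℕ → ℝ := fun n => ∑' i, x (i + n)
  have r_succ : ∀ n, r n = x n + r (n + 1) := fun n => by
    have := ((summable_nat_add_iff n).mpr sx).tsum_eq_zero_add
    simp only [r]
    rw [this, zero_add]
    congr 1
    refine tsum_congr fun i => ?_
    congr 1; ring
  have hr2 : ∀ n, |r n - 2 * h n| ≤ B * θ ^ n := fun n => by
    have e1 : HasSum (fun i => h (i + n)) (2 * h n) := by
      have := (hasSum_geometric_two).mul_right (h n)
      have e : (fun i => h (i + n)) = fun i : ℕ => (1 / 2 : ℝ) ^ i * h n :=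
        funext fun i => by unfold h; rw [pow_add]
      rw [e]; exact this
    have e2 : HasSum (fun i : ℕ => B * θ ^ (i + n) - B * θ ^ (i + n + 1)) (B * θ ^ n) := by
      have := (hasSum_geometric_of_lt_one θ0.le (show θ < 1 by linarith)).mul_left
        (B * θ ^ n * (1 - θ))
      have hne : (1 - θ) ≠ 0 := by linarith
      rw [mul_assoc (B * θ ^ n), mul_inv_cancel₀ hne, mul_one] at this
      have e : (fun i : ℕ => B * θ ^ (i + n) - B * θ ^ (i + n + 1)) =
          fun i : ℕ => B * θ ^ n * (1 - θ) * θ ^ i :=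
        funext fun i => by rw [pow_succ, pow_add]; ring
      rw [e]; exact this
    have e3 := (((summable_nat_add_iff n).mpr sx).hasSum).sub e1
    have e4 := e3.norm_le_of_bounded e2 (fun i => hx (i + n))
    exact e4
  have sub : ∀ A : Set ℕ, ∑' i : A, x i = ∑' i, A.indicator x i := fun A => tsum_subtype A x
  have sind : ∀ A : Set ℕ, Summable (A.indicator x) := fun A => sx.indicator A
  have rem : ∀ (A : Set ℕ) (n : ℕ), n ∈ A → ∑' i : A, x i = x n + ∑' i : ↥(A \ {n}), x i := by
    intro A n hn
    rw [sub, sub, (sind A).tsum_eq_add_tsum_ite n, indicator_of_mem hn]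
    congr 1
    refine tsum_congr fun i => ?_
    by_cases hi : i = n
    · simp [hi]
    · by_cases hA : i ∈ A <;> simp [hi, hA]
  let D : Data := {
    E := tailSet x
    x := x
    r := r
    B := B
    a := a
    θ := θ
    hE := by
      rintro n y ⟨A, hA, rfl⟩
      by_cases hn : n ∈ A
      · right
        refine ⟨A \ {n}, fun i hi => ?_, by rw [rem A n hn]; ring⟩
        exact lt_of_le_of_ne (hA i hi.1) (fun e => hi.2 e.symm)
      · left
        exact ⟨A, fun i hi => lt_of_le_of_ne (hA i hi) (fun e => hn (e ▸ hi)), rfl⟩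
    hr := by
      rintro n y ⟨A, hA, rfl⟩
      refine ⟨tsum_nonneg fun i => (xpos i).le, ?_⟩
      rw [sub, ← (sind A).sum_add_tsum_nat_add n, Finset.sum_eq_zero, zero_add]
      · refine ((summable_nat_add_iff n).mpr (sind A)).tsum_le_tsum (fun i => ?_)
          ((summable_nat_add_iff n).mpr sx)
        exact indicator_le_self' (fun _ _ => (xpos _).le) _
      · intro i hi
        exact indicator_of_notMem (fun hiA => absurd (hA i hiA)
          (not_le.mpr (Finset.mem_range.mp hi))) _
    hx := hx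
    hr2 := hr2
    hg := hg r r_succ hr2
    θ0 := θ0
    θ1 := θ1
    a0 := a0
    B0 := B0 }
  refine Brouwer.homeo _ ?_ ⟨_, ∅, by simp, rfl⟩ ?_ ?_
  · have hc : Continuous fun ε : ℕ → Bool => ∑' i, (if ε i = true ∧ 1 ≤ i then x i else 0) := by
      refine continuous_tsum (fun i => ?_) sx (fun i ε => ?_)
      · exact (continuous_of_discreteTopology
          (f := fun t : Bool => if t = true ∧ 1 ≤ i then x i else 0)).comp (continuous_apply i)
      · split_ifs
        · rw [Real.norm_eq_abs, abs_of_pos (xpos i)]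
        · simpa using (xpos i).le
    have e : tailSet x 1 =
        range fun ε : ℕ → Bool => ∑' i, (if ε i = true ∧ 1 ≤ i then x i else 0) := by
      ext s
      constructor
      · rintro ⟨A, hA, rfl⟩
        refine ⟨fun i => decide (i ∈ A), ?_⟩
        rw [sub]
        refine tsum_congr fun i => ?_
        by_cases hi : i ∈ A
        · simp [hi, hA i hi]
        · simp [hi]
      · rintro ⟨ε, rfl⟩
        refine ⟨{i | ε i = true ∧ 1 ≤ i}, fun i hi => hi.2, ?_⟩
        rw [sub]
        exact tsum_congr fun i => by simp only [indicator_apply, mem_ofPred_eq]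
    rw [e]
    exact isCompact_range hc
  · rintro s ⟨A, hA, rfl⟩ ε hε
    obtain ⟨n, hn1, hn⟩ := ((eventually_ge_atTop 1).and
      (sx.tendsto_atTop_zero.eventually (gt_mem_nhds hε))).exists
    have hp := xpos n
    by_cases hnA : n ∈ A
    · refine ⟨_, ⟨A \ {n}, fun i hi => hA i hi.1, rfl⟩, ?_, ?_⟩
      · rw [rem A n hnA]; linarith
      · rw [rem A n hnA, abs_lt]; constructor <;> linarith
    · have e := rem (insert n A) n (mem_insert n A)
      rw [insert_diff_self_of_notMem hnA] at e
      refine ⟨_, ⟨insert n A, fun i hi => ?_, rfl⟩, ?_, ?_⟩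
      · rcases hi with rfl | hi
        · exact hn1
        · exact hA i hi
      · rw [e]; linarith
      · rw [e, abs_lt]; constructor <;> linarith
  · have h0 := interior_empty D
    refine eq_empty_of_subset_empty (h0 ▸ interior_mono ?_)
    rintro s ⟨A, hA, rfl⟩
    exact ⟨A, fun i _ => Nat.zero_le i, rfl⟩

end Pool.Agent.H26.Achieve
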