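import Pool.Agent.H26.Subsum

set_option autoImplicit false

namespace Pool.Agent.H26.Adj

open Pool.Agent.H26.Subsum Set

noncomputable def y (n : ℕ) : ℝ :=
  (if n % 4 = 0 then 7 else if n % 4 = 1 then 6 else if n % 4 = 2 then 5 else 3) * (1 / 9) ^ (n / 4)

lemma y_pos (n : ℕ) : 0 < y n := by unfold y; split_ifs <;> positivity

lemma y_shift (n : ℕ) : y (n + 1 + 1 + 1 + 1) = 1 / 9 * y n := by
  unfold y
  rw [show (n + 1 + 1 + 1 + 1) % 4 = n % 4 by omega,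
    show (n + 1 + 1 + 1 + 1) / 4 = n / 4 + 1 by omega, pow_succ]
  ring

lemma geo_sum : Summable fun n : ℕ => (1 / 9 : ℝ) ^ (n / 4) := by
  refine Summable.of_nonneg_of_le (fun n => by positivity) (fun n => ?_)
    ((summable_geometric_of_lt_one (show (0 : ℝ) ≤ 2 / 3 by norm_num) (by norm_num)).mul_left 4)
  have h1 : (1 / 9 : ℝ) ^ (n / 4) ≤ ((2 / 3) ^ 4) ^ (n / 4) :=
    pow_le_pow_left₀ (by norm_num) (by norm_num) _
  have h2 : (2 / 3 : ℝ) ^ (4 * (n / 4) + 3) ≤ (2 / 3) ^ n :=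
    pow_le_pow_of_le_one (by norm_num) (by norm_num) (by omega)
  rw [← pow_mul] at h1
  rw [pow_add] at h2
  have h3 : (0 : ℝ) < (2 / 3) ^ (4 * (n / 4)) := by positivity
  linarith

lemma y_sum : Summable y := by
  refine Summable.of_nonneg_of_le (fun n => (y_pos n).le) (fun n => ?_) (geo_sum.mul_left 18)
  have h3 : (0 : ℝ) < (1 / 9) ^ (n / 4) := by positivity
  unfold y
  split_ifs <;> linarith

def FX : Set ℝ := {f | f = 0 ∨ f = 3 ∨ f = 18 ∨ f = 21}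

def FY : Set ℝ := {f | ∃ a b c d : ℝ, (a = 0 ∨ a = 7) ∧ (b = 0 ∨ b = 6) ∧ (c = 0 ∨ c = 5) ∧
  (d = 0 ∨ d = 3) ∧ f = a + b + c + d}

lemma or_iff (s t c : ℝ) : (s = t ∨ s = c + t) ↔ ∃ a, (a = 0 ∨ a = c) ∧ s = a + t := by
  constructor
  · rintro (h | h)
    · exact ⟨0, Or.inl rfl, by rw [h, zero_add]⟩
    · exact ⟨c, Or.inr rfl, h⟩
  · rintro ⟨a, rfl | rfl, h⟩
    · left; rw [h, zero_add]
    · right; exact h

lemma Y_iff (s : ℝ) : s ∈ Es y ↔ ∃ f ∈ FY, ∃ s' ∈ Es y, s = f + 1 / 9 * s' := by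
  have s1 := (summable_nat_add_iff 1).mpr y_sum
  have s2 := (summable_nat_add_iff 1).mpr s1
  have s3 := (summable_nat_add_iff 1).mpr s2
  have e0 : y 0 = 7 := by norm_num [y]
  have e1 : y (0 + 1) = 6 := by norm_num [y]
  have e2 : y (0 + 1 + 1) = 5 := by norm_num [y]
  have e3 : y (0 + 1 + 1 + 1) = 3 := by norm_num [y]
  simp only [Es_step y y_sum s, Es_step _ s1, Es_step _ s2, Es_step _ s3, y_shift, Es_scale,
    e0, e1, e2, e3, or_iff]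
  constructor
  · rintro ⟨_, ⟨_, ⟨_, ⟨_, ⟨t, ht, rfl⟩, d, hd, rfl⟩, c, hc, rfl⟩, b, hb, rfl⟩, a, ha, rfl⟩
    exact ⟨_, ⟨a, b, c, d, ha, hb, hc, hd, rfl⟩, t, ht, by ring⟩
  · rintro ⟨_, ⟨a, b, c, d, ha, hb, hc, hd, rfl⟩, t, ht, rfl⟩
    exact ⟨_, ⟨_, ⟨_, ⟨_, ⟨t, ht, rfl⟩, d, hd, rfl⟩, c, hc, rfl⟩, b, hb, rfl⟩, a, ha, by ring⟩

lemma FY_cases (f : ℝ) (hf : f ∈ FY) :
    f = 0 ∨ f = 3 ∨ f = 5 ∨ (6 ≤ f ∧ f ≤ 15) ∨ f = 16 ∨ f = 18 ∨ f = 21 := by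
  obtain ⟨a, b, c, d, rfl | rfl, rfl | rfl, rfl | rfl, rfl | rfl, rfl⟩ := hf <;> norm_num

lemma FX_sub (f : ℝ) (hf : f ∈ FX) : f ∈ FY := by
  rcases hf with rfl | rfl | rfl | rfl
  · exact ⟨0, 0, 0, 0, by simp, by simp, by simp, by simp, by norm_num⟩
  · exact ⟨0, 0, 0, 3, by simp, by simp, by simp, by simp, by norm_num⟩
  · exact ⟨7, 6, 5, 0, by simp, by simp, by simp, by simp, by norm_num⟩
  · exact ⟨7, 6, 5, 3, by simp, by simp, by simp, by simp, by norm_num⟩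

lemma FY_mid (k : ℕ) (h1 : 5 ≤ k) (h2 : k ≤ 16) : (k : ℝ) ∈ FY := by
  interval_cases k
  · exact ⟨0, 0, 5, 0, by simp, by simp, by simp, by simp, by norm_num⟩
  · exact ⟨0, 6, 0, 0, by simp, by simp, by simp, by simp, by norm_num⟩
  · exact ⟨7, 0, 0, 0, by simp, by simp, by simp, by simp, by norm_num⟩
  · exact ⟨0, 0, 5, 3, by simp, by simp, by simp, by simp, by norm_num⟩
  · exact ⟨0, 6, 0, 3, by simp, by simp, by simp, by simp, by norm_num⟩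
  · exact ⟨7, 0, 0, 3, by simp, by simp, by simp, by simp, by norm_num⟩
  · exact ⟨0, 6, 5, 0, by simp, by simp, by simp, by simp, by norm_num⟩
  · exact ⟨7, 0, 5, 0, by simp, by simp, by simp, by simp, by norm_num⟩
  · exact ⟨7, 6, 0, 0, by simp, by simp, by simp, by simp, by norm_num⟩
  · exact ⟨0, 6, 5, 3, by simp, by simp, by simp, by simp, by norm_num⟩
  · exact ⟨7, 0, 5, 3, by simp, by simp, by simp, by simp, by norm_num⟩
  · exact ⟨7, 6, 0, 3, by simp, by simp, by simp, by simp, by norm_num⟩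

lemma y_tot : ∑' n, y n = 189 / 8 := by
  have h := y_sum.sum_add_tsum_nat_add 4
  have e : ∑' n, y (n + 4) = 1 / 9 * ∑' n, y n := by
    rw [← tsum_mul_left]; exact tsum_congr fun n => y_shift n
  have e2 : ∑ i ∈ Finset.range 4, y i = 21 := by norm_num [Finset.sum_range_succ, y]
  rw [e, e2] at h
  linarith

lemma Y_bd (s : ℝ) (hs : s ∈ Es y) : 0 ≤ s ∧ s ≤ 189 / 8 :=
  y_tot ▸ Es_bound y y_sum (fun n => (y_pos n).le) s hs

lemma toY (S : Set ℝ) (hM : ∀ s ∈ S, |s| ≤ 100)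
    (hS : ∀ s ∈ S, ∃ f ∈ FY, ∃ s' ∈ S, s = f + 1 / 9 * s') : S ⊆ Es y :=
  attract (Es y) S FY (1 / 9) 100 (by norm_num) (by norm_num) (Es_closed y y_sum) (Es_zero y)
    (fun f hf k hk => (Y_iff _).mpr ⟨f, hf, k, hk, rfl⟩) hM hS

lemma up (s : ℝ) (hs : s ∈ Es y) (h : s ≤ 45 / 8) : 18 + s ∈ Es y := by
  refine toY (Es y ∪ {t | t - 18 ∈ Es y ∧ t - 18 ≤ 45 / 8}) ?_ ?_ (Or.inr ⟨by simpa, by simpa⟩)
  · rintro t (ht | ⟨ht, -⟩) <;> have := Y_bd _ ht <;> rw [abs_le] <;> constructor <;> linarith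
  · rintro t (ht | ⟨ht, ht'⟩)
    · obtain ⟨f, hf, u, hu, e⟩ := (Y_iff _).mp ht
      exact ⟨f, hf, u, Or.inl hu, e⟩
    · obtain ⟨f, hf, u, hu, e⟩ := (Y_iff _).mp ht
      have hb := Y_bd u hu
      rcases FY_cases f hf with h1 | h1 | h1 | h1 | h1 | h1 | h1
      · exact ⟨18, FX_sub _ (by simp [FX]), u, Or.inl hu, by linarith⟩
      · exact ⟨21, FX_sub _ (by simp [FX]), u, Or.inl hu, by linarith⟩
      · exact ⟨21, FX_sub _ (by simp [FX]), 18 + u, Or.inr ⟨by simpa, by linarith⟩, by linarith⟩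
      all_goals linarith [h1, hb.1]

lemma down (s : ℝ) (hs : s ∈ Es y) (h : 18 ≤ s) : s - 18 ∈ Es y := by
  refine toY (Es y ∪ {t | t + 18 ∈ Es y ∧ 0 ≤ t}) ?_ ?_ (Or.inr ⟨by simpa, by simpa⟩)
  · rintro t (ht | ⟨ht, -⟩) <;> have := Y_bd _ ht <;> rw [abs_le] <;> constructor <;> linarith
  · rintro t (ht | ⟨ht, ht'⟩)
    · obtain ⟨f, hf, u, hu, e⟩ := (Y_iff _).mp ht
      exact ⟨f, hf, u, Or.inl hu, e⟩
    · obtain ⟨f, hf, u, hu, e⟩ := (Y_iff _).mp ht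
      have hb := Y_bd u hu
      rcases FY_cases f hf with h1 | h1 | h1 | h1 | h1 | h1 | h1
      · linarith [hb.2]
      · linarith [hb.2]
      · linarith [hb.2]
      · linarith [hb.2, h1.2]
      · exact ⟨0, FX_sub _ (by simp [FX]), u - 18, Or.inr ⟨by simpa, by linarith⟩, by linarith⟩
      · exact ⟨0, FX_sub _ (by simp [FX]), u, Or.inl hu, by linarith⟩
      · exact ⟨3, FX_sub _ (by simp [FX]), u, Or.inl hu, by linarith⟩

lemma mid : Icc (45 / 8 : ℝ) 18 ⊆ Es y := by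
  refine toY _ (fun s hs => by rw [abs_le]; constructor <;> linarith [hs.1, hs.2]) ?_
  intro s hs
  have h0 : (0 : ℝ) ≤ s - 5 / 8 := by linarith [hs.1]
  have h1 := Nat.floor_le h0
  have h2 := Nat.lt_floor_add_one (s - 5 / 8)
  have h3 : 5 ≤ ⌊s - 5 / 8⌋₊ := Nat.le_floor (by push_cast; linarith [hs.1])
  by_cases h4 : ⌊s - 5 / 8⌋₊ ≤ 16
  · exact ⟨_, FY_mid _ h3 h4, 9 * (s - ⌊s - 5 / 8⌋₊), ⟨by linarith, by linarith⟩, by ring⟩
  · have h5 : (17 : ℝ) ≤ ⌊s - 5 / 8⌋₊ := by exact_mod_cast (by omega : 17 ≤ ⌊s - 5 / 8⌋₊)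
    exact ⟨_, FY_mid 16 (by norm_num) le_rfl, 9 * (s - 16),
      ⟨by linarith, by linarith [hs.2]⟩, by push_cast; ring⟩

end Pool.Agent.H26.Adj
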