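import Pool.Agent.H26.Adj

set_option autoImplicit false

namespace Pool.Agent.H26.Adj

open Pool.Agent.H26.Subsum Set Filter Topology

lemma gap1 (s : ℝ) (h1 : 21 / 8 < s) (h2 : s < 3) : s ∉ Es y := by
  intro hs
  obtain ⟨f, hf, u, hu, e⟩ := (Y_iff _).mp hs
  have hb := Y_bd u hu
  rcases FY_cases f hf with h | h | h | h | h | h | h <;> linarith [h, hb.1, hb.2]

lemma L1 (s : ℝ) (hs : s ∈ Es y) (h2 : s < 3) : 9 * s ∈ Es y := by
  obtain ⟨f, hf, u, hu, e⟩ := (Y_iff _).mp hs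
  have hb := Y_bd u hu
  rcases FY_cases f hf with h | h | h | h | h | h | h
  · rwa [show 9 * s = u by linarith]
  all_goals linarith [h, hb.1]

lemma L2 (s : ℝ) (hs : s ∈ Es y) (h1 : 3 ≤ s) (h2 : s ≤ 45 / 8) : 9 * (s - 3) ∈ Es y := by
  obtain ⟨f, hf, u, hu, e⟩ := (Y_iff _).mp hs
  have hb := Y_bd u hu
  rcases FY_cases f hf with h | h | h | h | h | h | h
  · linarith [hb.2]
  · rwa [show 9 * (s - 3) = u by linarith]
  · rw [show 9 * (s - 3) = 18 + u by linarith]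
    exact up u hu (by linarith)
  all_goals linarith [h, hb.1]

lemma q_bd (k : ℕ) : 0 < (1 / 9 : ℝ) ^ k ∧ (1 / 9 : ℝ) ^ k ≤ 1 :=
  ⟨by positivity, pow_le_one₀ (by norm_num) (by norm_num)⟩

lemma N0 (k : ℕ) : 14 / 5 * (1 / 9 : ℝ) ^ k ∉ Es y := by
  induction k with
  | zero => exact gap1 _ (by norm_num) (by norm_num)
  | succ k ih =>
    intro h
    have hq := q_bd k
    rw [pow_succ] at h
    have := L1 _ h (by linarith [hq.2])
    exact ih (by rwa [show 9 * (14 / 5 * ((1 / 9 : ℝ) ^ k * (1 / 9))) = 14 / 5 * (1 / 9) ^ k by ring]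
      at this)

lemma N1 (g : ℝ) (g0 : 0 ≤ g) (g1 : g ≤ 45 / 8) (hg : 45 / 8 - g ∉ Es y) (k : ℕ) :
    45 / 8 - g * (1 / 9 : ℝ) ^ k ∉ Es y := by
  induction k with
  | zero => simpa using hg
  | succ k ih =>
    intro h
    have hq := q_bd k
    have h1 : 0 ≤ g * (1 / 9) ^ k := mul_nonneg g0 hq.1.le
    have h2 : g * (1 / 9) ^ k ≤ 45 / 8 := by nlinarith [hq.2]
    rw [pow_succ, ← mul_assoc] at h
    have a1 := down _ (L2 _ h (by linarith) (by linarith)) (by linarith)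
    exact ih (by rwa [show 9 * (45 / 8 - g * (1 / 9 : ℝ) ^ k * (1 / 9) - 3) - 18 =
      45 / 8 - g * (1 / 9) ^ k by ring] at a1)

lemma small (δ : ℝ) (hδ : 0 < δ) : ∃ k : ℕ, (1 / 9 : ℝ) ^ k < δ :=
  exists_pow_lt_of_lt_one hδ (by norm_num)

lemma FY_fin : FY.Finite := by
  refine (toFinite ({0, 3, 5, 6, 7, 8, 9, 10, 11, 12, 13, 14, 15, 16, 18, 21} : Set ℝ)).subset ?_
  rintro _ ⟨a, b, c, d, rfl | rfl, rfl | rfl, rfl | rfl, rfl | rfl, rfl⟩ <;> norm_num

lemma levels (k : ℕ) : ∃ F : Set ℝ, F.Finite ∧ ∀ s, s ∈ Es y ↔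
    ∃ f ∈ F, ∃ u ∈ Es y, s = f + (1 / 9) ^ k * u := by
  induction k with
  | zero =>
    refine ⟨{0}, toFinite _, fun s => ⟨fun h => ⟨0, rfl, s, h, by simp⟩, ?_⟩⟩
    rintro ⟨f, rfl, u, hu, rfl⟩
    simpa using hu
  | succ k ih =>
    obtain ⟨F, hF, h⟩ := ih
    refine ⟨image2 (fun f g => f + (1 / 9) ^ k * g) F FY, hF.image2 _ FY_fin, fun s => ?_⟩
    rw [h]
    constructor
    · rintro ⟨f, hf, u, hu, rfl⟩
      obtain ⟨g, hg, v, hv, rfl⟩ := (Y_iff _).mp hu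
      exact ⟨_, ⟨f, hf, g, hg, rfl⟩, v, hv, by rw [pow_succ]; ring⟩
    · rintro ⟨_, ⟨f, hf, g, hg, rfl⟩, v, hv, rfl⟩
      exact ⟨f, hf, _, (Y_iff _).mpr ⟨g, hg, v, hv, rfl⟩, by rw [pow_succ]; ring⟩

lemma E_cpt : IsCompact (Es y) :=
  (isCompact_Icc (a := 0) (b := ∑' n, y n)).of_isClosed_subset (Es_closed y y_sum)
    fun s hs => Es_bound y y_sum (fun n => (y_pos n).le) s hs

lemma isol (F : Set ℝ) (hF : F.Finite) (w : ℝ) : ∃ η > 0, ∀ f ∈ F, |f - w| < η → f = w := by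
  have h1 : IsOpen (F \ {w})ᶜ := (hF.subset diff_subset).isClosed.isOpen_compl
  obtain ⟨η, hη, h2⟩ := Metric.isOpen_iff.mp h1 w (by simp)
  refine ⟨η, hη, fun f hf h3 => ?_⟩
  by_contra hne
  exact h2 (show f ∈ Metric.ball w η from h3) ⟨hf, hne⟩

lemma right_iso (w z : ℝ) (hz : z < w) (hgap : ∀ s ∈ Es y, z < s → w ≤ s) (η : ℝ) (hη : 0 < η) :
    ¬ Icc w (w + η) ⊆ Es y := by
  intro hI
  obtain ⟨k, hk⟩ := small ((w - z) / 24) (by linarith)
  obtain ⟨F, hF, h⟩ := levels k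
  obtain ⟨η', hη', hiso⟩ := isol F hF w
  obtain ⟨j, hj⟩ := small (min η η' / 3) (by positivity)
  have a1 := min_le_left η η'
  have a2 := min_le_right η η'
  have qk := q_bd k
  have qj := q_bd j
  have a3 : (1 / 9 : ℝ) ^ k * (1 / 9) ^ j ≤ (1 / 9) ^ j := by nlinarith
  have a4 : 0 < (1 / 9 : ℝ) ^ k * (1 / 9) ^ j := mul_pos qk.1 qj.1
  obtain ⟨f, hf, u, hu, e⟩ := (h _).mp (hI (show w + 14 / 5 * ((1 / 9) ^ k * (1 / 9) ^ j) ∈ _ from
    ⟨by linarith, by linarith⟩))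
  have hb := Y_bd u hu
  have b1 : 0 ≤ (1 / 9 : ℝ) ^ k * u := mul_nonneg qk.1.le hb.1
  have b2 : (1 / 9 : ℝ) ^ k * u ≤ (1 / 9) ^ k * (189 / 8) := mul_le_mul_of_nonneg_left hb.2 qk.1.le
  have b3 := hgap f ((h f).mpr ⟨f, hf, 0, Es_zero y, by simp⟩) (by linarith)
  have b4 := hiso f hf (by rw [abs_lt]; constructor <;> linarith)
  refine N0 j ?_
  rwa [show 14 / 5 * (1 / 9 : ℝ) ^ j = u from mul_left_cancel₀ qk.1.ne' (by linarith)]

lemma left_iso (w z : ℝ) (hz : w < z) (hgap : ∀ s ∈ Es y, s < z → s ≤ w) (η : ℝ) (hη : 0 < η) :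
    ¬ Icc (w - η) w ⊆ Es y := by
  intro hI
  obtain ⟨k, hk⟩ := small ((z - w) / 24) (by linarith)
  obtain ⟨F, hF, h⟩ := levels k
  obtain ⟨η', hη', hiso⟩ := isol F hF (w - (1 / 9) ^ k * (189 / 8))
  obtain ⟨j, hj⟩ := small (min η η' / 3) (by positivity)
  have a1 := min_le_left η η'
  have a2 := min_le_right η η'
  have qk := q_bd k
  have qj := q_bd j
  have a3 : (1 / 9 : ℝ) ^ k * (1 / 9) ^ j ≤ (1 / 9) ^ j := by nlinarith
  have a4 : 0 < (1 / 9 : ℝ) ^ k * (1 / 9) ^ j := mul_pos qk.1 qj.1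
  obtain ⟨f, hf, u, hu, e⟩ := (h _).mp (hI (show w - 14 / 5 * ((1 / 9) ^ k * (1 / 9) ^ j) ∈ _ from
    ⟨by linarith, by linarith⟩))
  have hb := Y_bd u hu
  have b1 : 0 ≤ (1 / 9 : ℝ) ^ k * u := mul_nonneg qk.1.le hb.1
  have b2 : (1 / 9 : ℝ) ^ k * u ≤ (1 / 9) ^ k * (189 / 8) := mul_le_mul_of_nonneg_left hb.2 qk.1.le
  have top : (18 + 45 / 8 : ℝ) ∈ Es y := up _ (mid ⟨le_rfl, by norm_num⟩) le_rfl
  have b3 := hgap _ ((h _).mpr ⟨f, hf, _, top, rfl⟩) (by linarith)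
  have b4 := hiso f hf (by rw [abs_lt]; constructor <;> linarith)
  have b5 : u = 189 / 8 - 14 / 5 * (1 / 9 : ℝ) ^ j := mul_left_cancel₀ qk.1.ne' (by linarith)
  refine N1 (14 / 5) (by norm_num) (by norm_num) (gap1 _ (by norm_num) (by norm_num)) j ?_
  have := down u hu (by linarith [qj.2])
  rwa [show u - 18 = 45 / 8 - 14 / 5 * (1 / 9 : ℝ) ^ j by linarith] at this

lemma one_point (E : Set ℝ) (w : ℝ) (hw : w ∈ E) (h1 : ∀ η > 0, ¬ Icc (w - η) w ⊆ E)
    (h2 : ∀ η > 0, ¬ Icc w (w + η) ⊆ E) : connectedComponentIn E w = {w} := by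
  refine eq_singleton_iff_unique_mem.mpr ⟨mem_connectedComponentIn hw, fun z hz => ?_⟩
  have oc := (isPreconnected_connectedComponentIn (F := E) (x := w)).ordConnected
  rcases lt_trichotomy z w with h | h | h
  · refine absurd ?_ (h1 (w - z) (by linarith))
    rw [sub_sub_cancel]
    exact (oc.out hz (mem_connectedComponentIn hw)).trans (connectedComponentIn_subset _ _)
  · exact h
  · refine absurd ?_ (h2 (z - w) (by linarith))
    rw [add_sub_cancel]
    exact (oc.out (mem_connectedComponentIn hw) hz).trans (connectedComponentIn_subset _ _)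

lemma ends (p : ℝ) (hp : p ∈ Es y) :
    sInf (connectedComponentIn (Es y) p) ∈
      closure {w ∈ Es y | connectedComponentIn (Es y) w = {w}} ∧
    sSup (connectedComponentIn (Es y) p) ∈
      closure {w ∈ Es y | connectedComponentIn (Es y) w = {w}} := by
  have hsub := connectedComponentIn_subset (Es y) p
  have hne : (connectedComponentIn (Es y) p).Nonempty := ⟨p, mem_connectedComponentIn hp⟩
  have hcl : closure (connectedComponentIn (Es y) p) ⊆ Es y :=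
    closure_minimal hsub E_cpt.isClosed
  have hpc := (isPreconnected_connectedComponentIn (F := Es y) (x := p)).closure
  have bb := E_cpt.bddBelow.mono hsub
  have ba := E_cpt.bddAbove.mono hsub
  constructor
  · have hu := csInf_mem_closure hne bb
    rw [Metric.mem_closure_iff]
    intro ε hε
    have h1 : ¬ Icc (sInf (connectedComponentIn (Es y) p) - ε / 2)
        (sInf (connectedComponentIn (Es y) p)) ⊆ Es y := by
      intro hI
      have h2 := (hpc.union _ hu (right_mem_Icc.mpr (by linarith)) isPreconnected_Icc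
        ).subset_connectedComponentIn (Or.inl (subset_closure (mem_connectedComponentIn hp)))
        (union_subset hcl hI)
      have := csInf_le bb (h2 (Or.inr (left_mem_Icc.mpr (by linarith))))
      linarith
    obtain ⟨z, ⟨z1, z2⟩, hz⟩ := not_subset.mp h1
    obtain ⟨w, ⟨hw, hzw⟩, hmin⟩ := (E_cpt.inter_right (isClosed_Ici (a := z))).exists_isLeast
      ⟨_, hcl hu, z2⟩
    have hzw' : z < w := lt_of_le_of_ne hzw fun e => hz (e ▸ hw)
    have hwu := hmin ⟨hcl hu, z2⟩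
    refine ⟨w, ⟨hw, one_point _ w hw (fun η hη hI => ?_)
      (right_iso w z hzw' fun s hs h => hmin ⟨hs, h.le⟩)⟩, ?_⟩
    · have a1 := le_max_left z (w - η)
      have a2 := le_max_right z (w - η)
      have a3 : max z (w - η) < w := max_lt hzw' (by linarith)
      exact absurd (hmin ⟨hI ⟨a2, a3.le⟩, a1⟩) (not_le.mpr a3)
    · rw [Real.dist_eq, abs_lt]; constructor <;> linarith
  · have hu := csSup_mem_closure hne ba
    rw [Metric.mem_closure_iff]
    intro ε hε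
    have h1 : ¬ Icc (sSup (connectedComponentIn (Es y) p))
        (sSup (connectedComponentIn (Es y) p) + ε / 2) ⊆ Es y := by
      intro hI
      have h2 := (hpc.union _ hu (left_mem_Icc.mpr (by linarith)) isPreconnected_Icc
        ).subset_connectedComponentIn (Or.inl (subset_closure (mem_connectedComponentIn hp)))
        (union_subset hcl hI)
      have := le_csSup ba (h2 (Or.inr (right_mem_Icc.mpr (by linarith))))
      linarith
    obtain ⟨z, ⟨z1, z2⟩, hz⟩ := not_subset.mp h1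
    obtain ⟨w, ⟨hw, hzw⟩, hmax⟩ := (E_cpt.inter_right (isClosed_Iic (a := z))).exists_isGreatest
      ⟨_, hcl hu, z1⟩
    have hzw' : w < z := lt_of_le_of_ne hzw fun e => hz (e ▸ hw)
    have hwu := hmax ⟨hcl hu, z1⟩
    refine ⟨w, ⟨hw, one_point _ w hw (left_iso w z hzw' fun s hs h => hmax ⟨hs, h.le⟩)
      (fun η hη hI => ?_)⟩, ?_⟩
    · have a1 := min_le_left z (w + η)
      have a2 := min_le_right z (w + η)
      have a3 : w < min z (w + η) := lt_min hzw' (by linarith)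
      exact absurd (hmax ⟨hI ⟨a3.le, a2⟩, a1⟩) (not_le.mpr a3)
    · rw [Real.dist_eq, abs_lt]; constructor <;> linarith

lemma aff (A B : Set ℝ) (f q : ℝ) (hq : 0 < q) (h : ∀ u ∈ A, f + q * u ∈ B) (k : ℝ)
    (hk : k ∈ closure (interior A)) : f + q * k ∈ closure (interior B) := by
  refine map_mem_closure (f := fun t => f + q * t) (by fun_prop) hk fun z hz => ?_
  rw [mem_interior_iff_mem_nhds, Metric.mem_nhds_iff] at hz ⊢
  obtain ⟨η, hη, hb⟩ := hz
  refine ⟨q * η, mul_pos hq hη, fun t ht => ?_⟩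
  rw [show t = f + q * ((t - f) / q) by field_simp; ring]
  refine h _ (hb ?_)
  rw [Metric.mem_ball, Real.dist_eq] at ht ⊢
  rw [show (t - f) / q - z = (t - (f + q * z)) / q by field_simp; ring, abs_div, abs_of_pos hq,
    div_lt_iff₀ hq]
  linarith

lemma regY : Es y ⊆ closure (interior (Es y)) := by
  have step : ∀ f ∈ FY, ∀ k ∈ closure (interior (Es y)),
      f + 1 / 9 * k ∈ closure (interior (Es y)) := fun f hf k hk =>
    aff _ _ f (1 / 9) (by norm_num) (fun u hu => (Y_iff _).mpr ⟨f, hf, u, hu, rfl⟩) k hk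
  have h10 : ∀ k : ℕ, 10 * (1 / 9 : ℝ) ^ k ∈ closure (interior (Es y)) := by
    intro k
    induction k with
    | zero =>
      exact subset_closure (interior_maximal (Ioo_subset_Icc_self.trans mid) isOpen_Ioo
        ⟨by norm_num, by norm_num⟩)
    | succ k ih =>
      have := step 0 (FX_sub _ (by simp [FX])) _ ih
      rwa [show 0 + 1 / 9 * (10 * (1 / 9 : ℝ) ^ k) = 10 * (1 / 9) ^ (k + 1) by
        rw [pow_succ]; ring] at this
  have h0 : (0 : ℝ) ∈ closure (interior (Es y)) := by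
    have h1 : Tendsto (fun k : ℕ => 10 * (1 / 9 : ℝ) ^ k) atTop (𝓝 (10 * 0)) :=
      (tendsto_pow_atTop_nhds_zero_of_lt_one (by norm_num) (by norm_num)).const_mul _
    rw [mul_zero] at h1
    exact isClosed_closure.mem_of_tendsto h1 (Eventually.of_forall h10)
  refine attract _ _ FY (1 / 9) 100 (by norm_num) (by norm_num) isClosed_closure h0 step
    (fun s hs => ?_) fun s hs => (Y_iff s).mp hs
  have := Y_bd s hs
  rw [abs_le]; constructor <;> linarith

lemma gap2 (s : ℝ) (h1 : 165 / 8 < s) (h2 : s < 21) : s ∉ Es y := fun hs =>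
  gap1 _ (by linarith) (by linarith) (down s hs (by linarith))

def Sub (z : ℕ → ℝ) : Prop := ∀ n, z n = 0 ∨ z n = y n

lemma Sub.sum {z : ℕ → ℝ} (hz : Sub z) : Summable z :=
  Summable.of_nonneg_of_le (fun n => by rcases hz n with h | h <;> rw [h]; exact (y_pos n).le)
    (fun n => by rcases hz n with h | h <;> rw [h]; exact (y_pos n).le) y_sum

lemma Sub.sub {z : ℕ → ℝ} (hz : Sub z) : Es z ⊆ Es y := by
  classical
  rintro _ ⟨A, rfl⟩
  refine ⟨A ∩ {n | z n = y n}, tsum_congr fun n => ?_⟩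
  by_cases h1 : n ∈ A
  · by_cases h2 : z n = y n
    · rw [indicator_of_mem h1, indicator_of_mem (show n ∈ A ∩ {n | z n = y n} from ⟨h1, h2⟩), h2]
    · rw [indicator_of_mem h1, indicator_of_notMem (fun h => h2 h.2), (hz n).resolve_right h2]
  · rw [indicator_of_notMem h1, indicator_of_notMem (fun h => h1 h.1)]

lemma Sub.shift {z : ℕ → ℝ} (hz : Sub z) : Sub fun n => 9 * z (n + 1 + 1 + 1 + 1) := fun n => by
  rcases hz (n + 1 + 1 + 1 + 1) with h | h
  · left; simp [h]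
  · right; simp only [h, y_shift]; ring

lemma Sub.dec {z : ℕ → ℝ} (hz : Sub z) (s : ℝ) (hs : s ∈ Es z) :
    ∃ d : ℤ, ∃ u ∈ Es fun n => 9 * z (n + 1 + 1 + 1 + 1), s = d + 1 / 9 * u ∧
      (z 0 = 0 ∨ z 3 = 0 → d % 9 ≠ 1) ∧ (z 1 = 0 ∨ z 2 = 0 → d % 9 ≠ 2) := by
  have s0 := hz.sum
  have s1 := (summable_nat_add_iff 1).mpr s0
  have s2 := (summable_nat_add_iff 1).mpr s1
  have s3 := (summable_nat_add_iff 1).mpr s2
  have e0 : y 0 = 7 := by norm_num [y]
  have e1 : y 1 = 6 := by norm_num [y]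
  have e2 : y 2 = 5 := by norm_num [y]
  have e3 : y 3 = 3 := by norm_num [y]
  simp only [Es_step z s0 s, Es_step _ s1, Es_step _ s2, Es_step _ s3, or_iff] at hs
  obtain ⟨_, ⟨_, ⟨_, ⟨t, ht, d, hd, rfl⟩, c, hc, rfl⟩, b, hb, rfl⟩, a, ha, rfl⟩ := hs
  have hu : 9 * t ∈ Es fun n => 9 * z (n + 1 + 1 + 1 + 1) := (Es_scale _ 9 _).mpr ⟨t, ht, rfl⟩
  have int : ∀ (v w : ℝ) (m : ℤ), (v = 0 ∨ v = w) → (w = 0 ∨ w = m) →
      ∃ i : ℤ, v = i ∧ (i = 0 ∨ i = m) ∧ (w = 0 → i = 0) := by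
    intro v w m h1 h2
    by_cases h : v = 0
    · exact ⟨0, by simpa using h, Or.inl rfl, fun _ => rfl⟩
    · have h3 := h1.resolve_left h
      exact ⟨m, h3.trans (h2.resolve_left (h3 ▸ h)), Or.inr rfl, fun h4 => absurd (h3.trans h4) h⟩
  obtain ⟨i0, rfl, a0, b0⟩ := int a (z 0) 7 ha (by simpa [e0] using hz 0)
  obtain ⟨i1, rfl, a1, b1⟩ := int b (z 1) 6 hb (by simpa [e1] using hz 1)
  obtain ⟨i2, rfl, a2, b2⟩ := int c (z 2) 5 hc (by simpa [e2] using hz 2)
  obtain ⟨i3, rfl, a3, b3⟩ := int d (z 3) 3 hd (by simpa [e3] using hz 3)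
  refine ⟨i0 + i1 + i2 + i3, _, hu, by push_cast; ring, ?_, ?_⟩
  · rintro (h | h)
    · have := b0 h; omega
    · have := b3 h; omega
  · rintro (h | h)
    · have := b1 h; omega
    · have := b2 h; omega

lemma holes (j : ℕ) : ∀ z : ℕ → ℝ, Sub z → ∀ i, i < 4 → z (4 * j + i) = 0 →
    ∃ r : ℤ, ∀ m : ℤ, (1 / 9 : ℝ) ^ j * (9 * (m : ℝ) + r + 1 + 14 / 45) ∉ Es z := by
  induction j with
  | zero =>
    intro z hz i hi h0
    have key : ∀ r : ℤ, (∀ s ∈ Es z, ∃ d : ℤ, ∃ u ∈ Es y, s = d + 1 / 9 * u ∧ d % 9 ≠ r % 9) →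
        ∀ m : ℤ, (1 / 9 : ℝ) ^ 0 * (9 * (m : ℝ) + r + 1 + 14 / 45) ∉ Es z := by
      intro r h m hm
      obtain ⟨d, u, hu, e, hd⟩ := h _ hm
      have hb := Y_bd u hu
      rw [pow_zero, one_mul] at e
      have a1 : (9 * m + r - 2 : ℝ) < d := by linarith
      have a2 : (d : ℝ) < 9 * m + r + 2 := by linarith
      have a3 : 9 * m + r - 2 < d := by exact_mod_cast a1
      have a4 : d < 9 * m + r + 2 := by exact_mod_cast a2
      have a5 : d = 9 * m + r - 1 ∨ d = 9 * m + r + 1 := by omega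
      rcases a5 with rfl | rfl
      · push_cast at e; exact gap2 u (by linarith) (by linarith) hu
      · push_cast at e; exact gap1 u (by linarith) (by linarith) hu
    rw [mul_zero, zero_add] at h0
    by_cases h : i = 0 ∨ i = 3
    · refine ⟨1, key 1 fun s hs => ?_⟩
      obtain ⟨d, u, hu, e, h1, -⟩ := hz.dec s hs
      exact ⟨d, u, hz.shift.sub hu, e, h1 (by rcases h with rfl | rfl <;> simp [h0])⟩
    · refine ⟨2, key 2 fun s hs => ?_⟩
      obtain ⟨d, u, hu, e, -, h1⟩ := hz.dec s hs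
      have : i = 1 ∨ i = 2 := by omega
      exact ⟨d, u, hz.shift.sub hu, e, h1 (by rcases this with rfl | rfl <;> simp [h0])⟩
  | succ j ih =>
    intro z hz i hi h0
    obtain ⟨r, hr⟩ := ih _ hz.shift i hi (by
      rw [show 4 * j + i + 1 + 1 + 1 + 1 = 4 * (j + 1) + i by ring, h0, mul_zero])
    refine ⟨r, fun m hm => ?_⟩
    obtain ⟨d, u, hu, e, -⟩ := hz.dec _ hm
    refine hr (m - 9 ^ j * d) ?_
    have e1 : (1 / 9 : ℝ) ^ j * 9 ^ j = 1 := by rw [← mul_pow]; norm_num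
    have e2 : (1 / 9 : ℝ) ^ j * (9 * ((m - 9 ^ j * d : ℤ) : ℝ) + r + 1 + 14 / 45) = u := by
      push_cast
      rw [pow_succ] at e
      linear_combination 9 * e - 9 * d * e1
    rwa [e2]

lemma no_interval (z : ℕ → ℝ) (hz : Sub z) (hinf : {n | z n = 0}.Infinite) (a b : ℝ)
    (hab : a < b) : ¬ Icc a b ⊆ Es z := by
  intro hI
  obtain ⟨k, hk⟩ := small ((b - a) / 9) (by linarith)
  obtain ⟨n, hn, hkn⟩ := hinf.exists_gt (4 * k)
  obtain ⟨r, hr⟩ := holes (n / 4) z hz (n % 4) (by omega) (by rwa [Nat.div_add_mod])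
  have q1 : (1 / 9 : ℝ) ^ (n / 4) ≤ (1 / 9) ^ k :=
    pow_le_pow_of_le_one (by norm_num) (by norm_num) (by omega)
  have q0 := (q_bd (n / 4)).1
  generalize (1 / 9 : ℝ) ^ (n / 4) = q at hr q1 q0
  have a1 := Int.le_ceil ((a - q * (r + 1 + 14 / 45)) / (9 * q))
  have a2 := Int.ceil_lt_add_one ((a - q * (r + 1 + 14 / 45)) / (9 * q))
  rw [div_le_iff₀ (by positivity)] at a1
  rw [← sub_lt_iff_lt_add, lt_div_iff₀ (by positivity)] at a2
  exact hr ⌈(a - q * (r + 1 + 14 / 45)) / (9 * q)⌉ (hI ⟨by linarith, by linarith⟩)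

end Pool.Agent.H26.Adj
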