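import Mathlib

open Filter Topology

namespace Pool.Agent.H26.Ann

lemma geo_sum : HasSum (fun n : ℕ => (1 / 4 : ℝ) ^ (n + 1)) (1 / 3) := by
  have h := (hasSum_geometric_of_lt_one (r := (1 / 4 : ℝ)) (by norm_num) (by norm_num)).mul_left
    (1 / 4)
  have e : (1 / 4 : ℝ) * (1 - 1 / 4)⁻¹ = 1 / 3 := by norm_num
  rw [e] at h
  refine h.congr_fun ?_ |> id
  intro n
  ring

lemma dom (T : ℕ → ℂ) (s : ℂ) (hs : HasSum T s) (ν : ℕ)
    (h : ∀ n, n ≠ ν → ‖T n‖ ≤ ‖T ν‖ * (1 / 4 : ℝ) ^ (n + 1)) : 2 / 3 * ‖T ν‖ ≤ ‖s‖ := by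
  classical
  have h1 := hasSum_ite_sub_hasSum hs ν
  have h2 := geo_sum.mul_left ‖T ν‖
  have h3 : ‖s - T ν‖ ≤ ‖T ν‖ * (1 / 3) := by
    refine HasSum.norm_le_of_bounded h1 h2 fun n => ?_
    by_cases hn : n = ν
    · simp only [hn, if_true, norm_zero]
      positivity
    · simp only [hn, if_false]
      exact h n hn
  have h4 : ‖T ν‖ ≤ ‖s‖ + ‖s - T ν‖ := by
    calc ‖T ν‖ = ‖s - (s - T ν)‖ := by simp
      _ ≤ _ := norm_sub_le _ _
  linarith

lemma exists_max (v : ℕ → ℝ) (hv : Tendsto v atTop (𝓝 0)) (n0 : ℕ) (h0 : 0 < v n0) :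
    ∃ ν, ∀ n, v n ≤ v ν := by
  obtain ⟨N, hN⟩ := eventually_atTop.1 (hv.eventually (gt_mem_nhds h0))
  obtain ⟨ν, hν, hm⟩ := (Finset.range (N + n0 + 1)).exists_max_image v ⟨0, by simp⟩
  refine ⟨ν, fun n => ?_⟩
  by_cases hn : n < N + n0 + 1
  · exact hm n (Finset.mem_range.2 hn)
  · have := hN n (by omega)
    have := hm n0 (Finset.mem_range.2 (by omega))
    linarith

theorem wv (q : ℕ → ℕ) (hq0 : ∀ n, 0 < q n) (hq : Tendsto q atTop atTop) (w : ℕ → ℝ)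
    (hw : ∀ n, 1 ≤ w n)
    (H : ∀ n ν, n ≠ ν →
      w n * Real.exp (-((q n : ℝ) / q ν)) ≤ w ν / 3 * (1 / 4 : ℝ) ^ (n + 1))
    (b : ℕ → ℂ) (hb : ∀ r : ℝ, 0 < r → r < 1 → Tendsto (fun n => ‖b n‖ * r ^ q n) atTop (𝓝 0))
    (hu : ∀ C : ℝ, ∃ n, C ≤ ‖b n‖ / w n) (K ρ : ℝ) (hρ : ρ < 1) :
    ∃ r, ρ < r ∧ r < 1 ∧ ∀ z : ℂ, ‖z‖ = r → ∀ s, HasSum (fun n => b n * z ^ q n) s →
      K ≤ ‖s‖ := by
  set ρ' := max ρ (1 / 2) with hρ'
  have hρ1 : ρ' < 1 := max_lt hρ (by norm_num)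
  have hρ0 : 0 < ρ' := lt_of_lt_of_le (by norm_num) (le_max_right _ _)
  set t := -Real.log ρ' with ht
  have ht0 : 0 < t := by
    have := Real.log_neg hρ0 hρ1
    linarith
  obtain ⟨N, hN⟩ : ∃ N, ∀ n, N ≤ n → 1 / (q n : ℝ) < t / 2 := by
    have h1 : Tendsto (fun n => 1 / (q n : ℝ)) atTop (𝓝 0) :=
      tendsto_const_nhds.div_atTop (tendsto_natCast_atTop_atTop.comp hq)
    exact eventually_atTop.1 (h1.eventually (gt_mem_nhds (by linarith)))
  set u : ℕ → ℝ := fun n => ‖b n‖ / w n with hu'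
  have hw0 : ∀ n, 0 < w n := fun n => lt_of_lt_of_le one_pos (hw n)
  have hu0 : ∀ n, 0 ≤ u n := fun n => div_nonneg (norm_nonneg _) (hw0 n).le
  set U := ∑ n ∈ Finset.range N, u n + 5 * |K| + 1 with hU
  have hS : 0 ≤ ∑ n ∈ Finset.range N, u n := Finset.sum_nonneg fun n _ => hu0 n
  have hK := abs_nonneg K
  obtain ⟨n0, hn0⟩ := hu (3 * U)
  have hqr : ∀ n, (0 : ℝ) < q n := fun n => by exact_mod_cast hq0 n
  set s := min (t / 2) (1 / (q n0 : ℝ)) with hs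
  have hs0 : 0 < s := lt_min (by linarith) (one_div_pos.2 (hqr n0))
  set v : ℕ → ℝ := fun n => u n * Real.exp (-(q n * s)) with hv
  have hv0 : ∀ n, 0 ≤ v n := fun n => mul_nonneg (hu0 n) (Real.exp_pos _).le
  have he3 : (1 / 3 : ℝ) ≤ Real.exp (-1) := by
    rw [Real.exp_neg, one_div]
    refine inv_anti₀ (Real.exp_pos _) ?_
    have := Real.exp_one_lt_d9
    linarith
  have hvU : U ≤ v n0 := by
    have h1 : (q n0 : ℝ) * s ≤ 1 := by
      have : s ≤ 1 / (q n0 : ℝ) := min_le_right _ _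
      rw [le_div_iff₀ (hqr n0)] at this
      linarith
    have h2 : Real.exp (-1) ≤ Real.exp (-(q n0 * s)) := Real.exp_le_exp.2 (by linarith)
    have h3 : 3 * U ≤ u n0 := hn0
    have h4 : 0 < U := by linarith
    calc U = 3 * U * (1 / 3) := by ring
      _ ≤ u n0 * Real.exp (-(q n0 * s)) :=
        mul_le_mul h3 (he3.trans h2) (by norm_num) (hu0 n0)
  have hvt : Tendsto v atTop (𝓝 0) := by
    refine squeeze_zero hv0 (fun n => ?_)
      (hb (Real.exp (-s)) (Real.exp_pos _) ((Real.exp_lt_one_iff.2 (by linarith))))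
    have e : Real.exp (-s) ^ q n = Real.exp (-(q n * s)) := by
      rw [← Real.exp_nat_mul]; congr 1; ring
    rw [e]
    refine mul_le_mul_of_nonneg_right ?_ (Real.exp_pos _).le
    exact div_le_self (norm_nonneg _) (hw n)
  obtain ⟨ν, hν⟩ := exists_max v hvt n0 (by linarith)
  have hνU : U ≤ v ν := hvU.trans (hν n0)
  have hNν : N ≤ ν := by
    by_contra hc
    have h1 : u ν ≤ ∑ n ∈ Finset.range N, u n :=
      Finset.single_le_sum (fun n _ => hu0 n) (Finset.mem_range.2 (by omega))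
    have h2 : v ν ≤ u ν := by
      refine mul_le_of_le_one_right (hu0 ν) (Real.exp_le_one_iff.2 ?_)
      have := mul_pos (hqr ν) hs0
      linarith
    linarith
  set τ := s + 1 / (q ν : ℝ) with hτ
  have hτ0 : 0 < τ := add_pos hs0 (one_div_pos.2 (hqr ν))
  have hτt : τ < t := by
    have := hN ν hNν
    have : s ≤ t / 2 := min_le_left _ _
    linarith
  refine ⟨Real.exp (-τ), ?_, (Real.exp_lt_one_iff.2 (by linarith)), fun z hz S hS' => ?_⟩
  · have h1 : Real.exp (-t) < Real.exp (-τ) := Real.exp_lt_exp.2 (by linarith)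
    have h2 : Real.exp (-t) = ρ' := by rw [ht, neg_neg, Real.exp_log hρ0]
    have h3 : ρ ≤ ρ' := le_max_left _ _
    linarith
  · have hT : ∀ n, ‖b n * z ^ q n‖ = v n * (w n * Real.exp (-((q n : ℝ) / q ν))) := by
      intro n
      rw [norm_mul, norm_pow, hz, ← Real.exp_nat_mul]
      have e : (q n : ℝ) * -τ = -(q n * s) + -((q n : ℝ) / q ν) := by
        rw [hτ]; ring
      rw [e, Real.exp_add]
      simp only [hv, hu']
      field_simp [(hw0 n).ne']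
    have hTν : v ν * (w ν / 3) ≤ ‖b ν * z ^ q ν‖ := by
      rw [hT, div_self (hqr ν).ne']
      refine mul_le_mul_of_nonneg_left ?_ (hv0 ν)
      have := mul_le_mul_of_nonneg_left he3 (hw0 ν).le
      linarith
    have hd := dom _ S hS' ν fun n hn => by
      rw [hT n]
      calc v n * (w n * Real.exp (-((q n : ℝ) / q ν)))
          ≤ v ν * (w ν / 3 * (1 / 4 : ℝ) ^ (n + 1)) :=
            mul_le_mul (hν n) (H n ν hn) (mul_pos (hw0 n) (Real.exp_pos _)).le (hv0 ν)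
        _ = v ν * (w ν / 3) * (1 / 4 : ℝ) ^ (n + 1) := by ring
        _ ≤ _ := mul_le_mul_of_nonneg_right hTν (by positivity)
    have h5 : v ν * (1 / 3) ≤ v ν * (w ν / 3) :=
      mul_le_mul_of_nonneg_left (by have := hw ν; linarith) (hv0 ν)
    have := le_abs_self K
    linarith

lemma two_pow_ge (n : ℕ) : n + 1 ≤ 2 ^ n := Nat.lt_two_pow_self

lemma hyp (Q : ℕ) (hQ : 100 ≤ Q) (n ν : ℕ) (h : n ≠ ν) :
    (100 : ℝ) ^ (2 ^ n) * Real.exp (-(((Q ^ (2 ^ n) : ℕ) : ℝ) / ((Q ^ (2 ^ ν) : ℕ) : ℝ)))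
      ≤ (100 : ℝ) ^ (2 ^ ν) / 3 * (1 / 4 : ℝ) ^ (n + 1) := by
  have hQr : (100 : ℝ) ≤ Q := by exact_mod_cast hQ
  have hQ0 : (0 : ℝ) < Q := by linarith
  have h34 : ∀ m : ℕ, 1 ≤ m → (24 : ℝ) * 4 ^ m ≤ 100 ^ m := by
    intro m hm
    have : (100 : ℝ) ^ m = 25 ^ m * 4 ^ m := by rw [← mul_pow]; norm_num
    rw [this]
    refine mul_le_mul_of_nonneg_right ?_ (by positivity)
    calc (24 : ℝ) ≤ 25 ^ 1 := by norm_num
      _ ≤ 25 ^ m := pow_le_pow_right₀ (by norm_num) hm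
  rcases lt_or_gt_of_ne h with h | h
  · have h1 : Real.exp (-(((Q ^ (2 ^ n) : ℕ) : ℝ) / ((Q ^ (2 ^ ν) : ℕ) : ℝ))) ≤ 1 := by
      rw [Real.exp_le_one_iff, neg_nonpos]; positivity
    have h2 : 2 ^ n + (n + 1) ≤ 2 ^ ν := by
      have := two_pow_ge n
      have h3 : 2 ^ (n + 1) ≤ 2 ^ ν := Nat.pow_le_pow_right (by norm_num) h
      rw [pow_succ] at h3
      omega
    have h3 : (100 : ℝ) ^ (2 ^ n) * 100 ^ (n + 1) ≤ 100 ^ (2 ^ ν) := by
      rw [← pow_add]; exact pow_le_pow_right₀ (by norm_num) h2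
    have h4 := h34 (n + 1) (by omega)
    have h5 : (0 : ℝ) < 100 ^ (2 ^ n) := by positivity
    have h6 : (0 : ℝ) < 4 ^ (n + 1) := by positivity
    calc _ ≤ (100 : ℝ) ^ (2 ^ n) * 1 := mul_le_mul_of_nonneg_left h1 h5.le
      _ ≤ _ := by
        rw [one_div, inv_pow, ← div_eq_mul_inv, le_div_iff₀ h6, le_div_iff₀ (by norm_num)]
        nlinarith
  · obtain ⟨d, hd⟩ : ∃ d, 2 ^ n = 2 ^ ν + d :=
      Nat.exists_eq_add_of_le (Nat.pow_le_pow_right (by norm_num) h.le)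
    have hdn : n ≤ d := by
      obtain ⟨m, rfl⟩ : ∃ m, n = m + 1 := ⟨n - 1, by omega⟩
      have h3 : 2 ^ ν ≤ 2 ^ m := Nat.pow_le_pow_right (by norm_num) (by omega)
      have := two_pow_ge m
      rw [pow_succ] at hd
      omega
    have e : ((Q ^ (2 ^ n) : ℕ) : ℝ) / ((Q ^ (2 ^ ν) : ℕ) : ℝ) = (Q : ℝ) ^ d := by
      push_cast
      rw [hd, pow_add]
      field_simp
    rw [e, hd, pow_add]
    set x := (Q : ℝ) ^ d with hx
    have hy : (100 : ℝ) ^ d ≤ x := pow_le_pow_left₀ (by norm_num) hQr d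
    have hy2 : (100 : ℝ) ^ n ≤ 100 ^ d := pow_le_pow_right₀ (by norm_num) hdn
    have h4 := h34 n (by omega)
    have h6 : (0 : ℝ) < 4 ^ n := by positivity
    have hx0 : 0 < x := by positivity
    have h7 : x ^ 2 / 2 ≤ Real.exp x := by
      have := Real.pow_div_factorial_le_exp x hx0.le 2
      simpa using this
    have h8 : x * Real.exp (-x) ≤ 2 / x := by
      rw [Real.exp_neg, ← div_eq_mul_inv, div_le_div_iff₀ (Real.exp_pos _) hx0]
      nlinarith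
    have h9 : 2 / x ≤ 1 / 3 * (1 / 4 : ℝ) ^ (n + 1) := by
      rw [one_div (4 : ℝ), inv_pow, ← div_eq_mul_inv, div_le_div_iff₀ hx0 (by positivity), pow_succ]
      nlinarith
    have h10 : (100 : ℝ) ^ d * Real.exp (-x) ≤ 1 / 3 * (1 / 4 : ℝ) ^ (n + 1) :=
      ((mul_le_mul_of_nonneg_right hy (Real.exp_pos _).le).trans h8).trans h9
    calc (100 : ℝ) ^ (2 ^ ν) * 100 ^ d * Real.exp (-x)
        = 100 ^ (2 ^ ν) * (100 ^ d * Real.exp (-x)) := by ring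
      _ ≤ 100 ^ (2 ^ ν) * (1 / 3 * (1 / 4 : ℝ) ^ (n + 1)) :=
        mul_le_mul_of_nonneg_left h10 (by positivity)
      _ = _ := by ring

end Pool.Agent.H26.Ann
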