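import Mathlib
import Pool.Agent.H26.AnnA

open Filter Topology Metric

namespace Pool.Agent.H26.Ann

def Rep (a : ℕ → ℂ) (g : ℂ → ℂ) : Prop :=
  ∀ z ∈ ball (0 : ℂ) 1, HasSum (fun q => a q * z ^ q) (g z)

lemma Rep.tendsto {a : ℕ → ℂ} {g : ℂ → ℂ} (h : Rep a g) (r : ℝ) (h0 : 0 ≤ r) (h1 : r < 1) :
    Tendsto (fun q => ‖a q‖ * r ^ q) atTop (𝓝 0) := by
  have := (h (r : ℂ) (by simpa [abs_of_nonneg h0] using h1)).summable.tendsto_atTop_zero.norm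
  simpa [abs_of_nonneg h0] using this

lemma Rep.fps {a : ℕ → ℂ} {g : ℂ → ℂ} (h : Rep a g) :
    HasFPowerSeriesOnBall g (FormalMultilinearSeries.ofScalars ℂ a) 0 1 where
  r_le := by
    refine ENNReal.le_of_forall_nnreal_lt fun r hr => ?_
    refine FormalMultilinearSeries.le_radius_of_tendsto _ (l := 0) ?_
    simp only [FormalMultilinearSeries.ofScalars_norm]
    exact h.tendsto r r.2 (by exact_mod_cast hr)
  r_pos := one_pos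
  hasSum := by
    intro y hy
    have hy' : y ∈ ball (0 : ℂ) 1 := by
      rwa [← ENNReal.coe_one, Metric.eball_coe] at hy
    simpa [FormalMultilinearSeries.ofScalars_apply_eq, mul_comm] using h y hy'

lemma Rep.diff {a : ℕ → ℂ} {g : ℂ → ℂ} (h : Rep a g) : DifferentiableOn ℂ g (ball 0 1) := by
  have := h.fps.differentiableOn
  rwa [← ENNReal.coe_one, Metric.eball_coe] at this

lemma Rep.coeff {a : ℕ → ℂ} {g : ℂ → ℂ} (h : Rep a g) (q : ℕ) :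
    a q = ((q.factorial : ℂ))⁻¹ * iteratedDeriv q g 0 := by
  have h1 := h.fps.factorial_smul 1 q
  rw [FormalMultilinearSeries.ofScalars_apply_eq, ← iteratedDeriv_eq_iteratedFDeriv] at h1
  rw [← h1]
  have : (q.factorial : ℂ) ≠ 0 := by exact_mod_cast q.factorial_ne_zero
  simp only [one_pow, smul_eq_mul, mul_one, nsmul_eq_mul]
  field_simp

lemma rep_of_diff {g : ℂ → ℂ} (h : DifferentiableOn ℂ g (ball 0 1)) :
    Rep (fun q => ((q.factorial : ℂ))⁻¹ * iteratedDeriv q g 0) g := by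
  intro z hz
  have := Complex.hasSum_taylorSeries_on_ball h hz
  refine this.congr_fun ?_ |> id
  intro q
  simp only [sub_zero, smul_eq_mul]
  ring

lemma iter_lim {ι : Type*} {F : Filter ι} [F.NeBot] (q : ℕ) :
    ∀ {G : ι → ℂ → ℂ} {g : ℂ → ℂ}, (∀ᶠ i in F, DifferentiableOn ℂ (G i) (ball 0 1)) →
      TendstoLocallyUniformlyOn G g F (ball 0 1) →
      Tendsto (fun i => iteratedDeriv q (G i) 0) F (𝓝 (iteratedDeriv q g 0)) := by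
  induction q with
  | zero =>
    intro G g _ h
    simpa using h.tendsto_at (mem_ball_self one_pos)
  | succ q ih =>
    intro G g hG h
    simp only [iteratedDeriv_succ']
    exact ih (G := deriv ∘ G) (hG.mono fun i hi => hi.deriv isOpen_ball)
      (h.deriv hG isOpen_ball)

noncomputable def cc (n : ℕ) : ℂ := (10000 : ℂ) ^ (2 ^ n)

def jj (n : ℕ) : ℕ := (Nat.unpair n).1

def P (Q : ℕ) (g : ℂ → ℂ) : Prop :=
  ∃ a, Rep a g ∧ (∀ q, (∀ n, q ≠ Q ^ (2 ^ n)) → a q = 0) ∧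
    ∀ n n', jj n = jj n' → a (Q ^ (2 ^ n)) * cc n' = a (Q ^ (2 ^ n')) * cc n

lemma P.zero (Q : ℕ) : P Q (fun _ => 0) :=
  ⟨fun _ => 0, fun z _ => by simp, fun _ _ => rfl, fun _ _ _ => by simp⟩

lemma P.add {Q : ℕ} {f g : ℂ → ℂ} (hf : P Q f) (hg : P Q g) : P Q (fun z => f z + g z) := by
  obtain ⟨a, ha, ha1, ha2⟩ := hf
  obtain ⟨b, hb, hb1, hb2⟩ := hg
  refine ⟨fun q => a q + b q, fun z hz => ?_, fun q hq => ?_, fun n n' h => ?_⟩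
  · simpa [add_mul] using (ha z hz).add (hb z hz)
  · simp [ha1 q hq, hb1 q hq]
  · simp only [add_mul, ha2 n n' h, hb2 n n' h]

lemma P.smul {Q : ℕ} {f : ℂ → ℂ} (hf : P Q f) (c : ℂ) : P Q (fun z => c * f z) := by
  obtain ⟨a, ha, ha1, ha2⟩ := hf
  refine ⟨fun q => c * a q, fun z hz => ?_, fun q hq => ?_, fun n n' h => ?_⟩
  · simpa [mul_assoc] using (ha z hz).mul_left c
  · simp [ha1 q hq]
  · simp only [mul_assoc, ha2 n n' h]

lemma P.congr {Q : ℕ} {f g : ℂ → ℂ} (hf : P Q f) (h : ∀ z ∈ ball (0 : ℂ) 1, f z = g z) :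
    P Q g := by
  obtain ⟨a, ha, ha1, ha2⟩ := hf
  exact ⟨a, fun z hz => h z hz ▸ ha z hz, ha1, ha2⟩

lemma P.diff {Q : ℕ} {f : ℂ → ℂ} (hf : P Q f) : DifferentiableOn ℂ f (ball 0 1) := by
  obtain ⟨a, ha, -⟩ := hf
  exact ha.diff

lemma P.closed {Q : ℕ} {ι : Type*} {F : Filter ι} [F.NeBot] {G : ι → ℂ → ℂ} {g : ℂ → ℂ}
    (hG : ∀ᶠ i in F, P Q (G i)) (h : TendstoLocallyUniformlyOn G g F (ball 0 1)) : P Q g := by
  have hd : ∀ᶠ i in F, DifferentiableOn ℂ (G i) (ball 0 1) := hG.mono fun i hi => hi.diff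
  have hg := h.differentiableOn hd isOpen_ball
  have hl : ∀ q : ℕ, Tendsto (fun i => ((q.factorial : ℂ))⁻¹ * iteratedDeriv q (G i) 0) F
      (𝓝 (((q.factorial : ℂ))⁻¹ * iteratedDeriv q g 0)) :=
    fun q => (iter_lim q hd h).const_mul _
  refine ⟨_, rep_of_diff hg, fun q hq => ?_, fun n n' hn => ?_⟩
  · refine tendsto_nhds_unique (hl q) (tendsto_const_nhds.congr' ?_)
    filter_upwards [hG] with i ⟨a, ha, ha1, _⟩
    rw [← ha.coeff q, ha1 q hq]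
  · refine tendsto_nhds_unique ((hl _).mul_const _) (((hl _).mul_const _).congr' ?_)
    filter_upwards [hG] with i ⟨a, ha, _, ha2⟩
    rw [← ha.coeff, ← ha.coeff, ha2 n n' hn]

lemma q_strict {Q : ℕ} (hQ : 100 ≤ Q) : StrictMono fun n : ℕ => Q ^ (2 ^ n) :=
  fun _ _ h => Nat.pow_lt_pow_right (by omega) (Nat.pow_lt_pow_right (by norm_num) h)

lemma sum_iff {Q : ℕ} (hQ : 100 ≤ Q) {a : ℕ → ℂ} (ha : ∀ q, (∀ n, q ≠ Q ^ (2 ^ n)) → a q = 0)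
    (z s : ℂ) : HasSum (fun n : ℕ => a (Q ^ (2 ^ n)) * z ^ (Q ^ (2 ^ n))) s ↔
      HasSum (fun q => a q * z ^ q) s := by
  refine (q_strict hQ).injective.hasSum_iff (f := fun q => a q * z ^ q) fun q hq => ?_
  rw [ha q fun n hn => hq ⟨n, hn.symm⟩, zero_mul]

lemma cc_norm (n : ℕ) : ‖cc n‖ = (100 : ℝ) ^ (2 ^ n) * 100 ^ (2 ^ n) := by
  rw [cc, norm_pow, ← mul_pow]
  norm_num

lemma cc_ne (n : ℕ) : cc n ≠ 0 := pow_ne_zero _ (by norm_num)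

theorem P.sa {Q : ℕ} (hQ : 100 ≤ Q) {g : ℂ → ℂ} (hg : P Q g)
    (hne : ∃ z ∈ ball (0 : ℂ) 1, g z ≠ 0) (K ρ : ℝ) (hρ : ρ < 1) :
    ∃ r, ρ < r ∧ r < 1 ∧ ∀ z : ℂ, ‖z‖ = r → K ≤ ‖g z‖ := by
  obtain ⟨a, ha, ha1, ha2⟩ := hg
  obtain ⟨m, hm⟩ : ∃ m, a (Q ^ (2 ^ m)) ≠ 0 := by
    by_contra hc
    push Not at hc
    obtain ⟨z, hz, hz0⟩ := hne
    have := (sum_iff hQ ha1 z _).2 (ha z hz)
    simp only [hc, zero_mul] at this
    exact hz0 (this.unique hasSum_zero)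
  have hu : ∀ C : ℝ, ∃ n, C ≤ ‖a (Q ^ (2 ^ n))‖ / (100 : ℝ) ^ (2 ^ n) := by
    intro C
    have hpos : 0 < ‖a (Q ^ (2 ^ m))‖ / ‖cc m‖ :=
      div_pos (norm_pos_iff.2 hm) (norm_pos_iff.2 (cc_ne m))
    obtain ⟨i, hi⟩ := exists_nat_ge (C / (‖a (Q ^ (2 ^ m))‖ / ‖cc m‖))
    refine ⟨Nat.pair (jj m) i, ?_⟩
    set n := Nat.pair (jj m) i with hn
    have h1 := ha2 n m (by simp [hn, jj])
    have h2 : ‖a (Q ^ (2 ^ n))‖ = ‖a (Q ^ (2 ^ m))‖ / ‖cc m‖ * ‖cc n‖ := by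
      have := congrArg norm h1
      rw [norm_mul, norm_mul] at this
      have h3 := (norm_pos_iff.2 (cc_ne m)).ne'
      field_simp
      linarith
    rw [h2, cc_norm n, mul_div_assoc, mul_div_assoc, div_self (by positivity), mul_one]
    rw [div_le_iff₀ hpos, mul_comm] at hi
    refine hi.trans (mul_le_mul_of_nonneg_left ?_ hpos.le)
    have h4 : i ≤ n := Nat.right_le_pair _ _
    have h5 : n < 100 ^ (2 ^ n) :=
      lt_of_lt_of_le (Nat.lt_pow_self (by norm_num : 1 < 100))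
        (Nat.pow_le_pow_right (by norm_num) (Nat.lt_two_pow_self).le)
    exact_mod_cast (h4.trans h5.le)
  obtain ⟨r, h1, h2, h3⟩ := wv (fun n => Q ^ (2 ^ n)) (fun n => pow_pos (by omega) _)
    (q_strict hQ).tendsto_atTop (fun n => (100 : ℝ) ^ (2 ^ n))
    (fun n => one_le_pow₀ (by norm_num)) (hyp Q hQ) (fun n => a (Q ^ (2 ^ n)))
    (fun r h0 h1 => (ha.tendsto r h0.le h1).comp (q_strict hQ).tendsto_atTop) hu K ρ hρ
  refine ⟨r, h1, h2, fun z hz => h3 z hz _ ((sum_iff hQ ha1 z _).2 (ha z ?_))⟩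
  simpa [hz] using h2

open Classical in
noncomputable def co (Q k q : ℕ) : ℂ :=
  Function.extend (fun n : ℕ => Q ^ (2 ^ n)) (fun n => if jj n = k then cc n else 0) 0 q

lemma co_at {Q : ℕ} (hQ : 100 ≤ Q) (k n : ℕ) :
    co Q k (Q ^ (2 ^ n)) = if jj n = k then cc n else 0 := by
  unfold co
  exact (q_strict hQ).injective.extend_apply _ _ n

lemma co_off {Q : ℕ} (k q : ℕ) (h : ∀ n, q ≠ Q ^ (2 ^ n)) : co Q k q = 0 := by
  unfold co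
  rw [Function.extend_apply' _ _ _ (fun ⟨n, hn⟩ => h n hn.symm)]
  rfl

noncomputable def fk (Q k : ℕ) (z : ℂ) : ℂ := ∑' q, co Q k q * z ^ q

lemma exp_le_rpow {x β : ℝ} (hx : 0 < x) (h0 : 0 ≤ β) (h1 : β ≤ 1) :
    Real.exp (-x) ≤ x ^ (-β) := by
  rcases le_total x 1 with h | h
  · exact (Real.exp_le_one_iff.2 (by linarith)).trans
      (Real.one_le_rpow_of_pos_of_le_one_of_nonpos hx h (by linarith))
  · calc Real.exp (-x) ≤ x ^ (-1 : ℝ) := by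
          rw [Real.exp_neg, Real.rpow_neg_one]
          exact inv_anti₀ hx (by linarith [Real.add_one_le_exp x])
      _ ≤ _ := Real.rpow_le_rpow_of_exponent_le h (by linarith)

lemma term_le {Q : ℕ} (hQ : 100 ≤ Q) {β : ℝ} (h0 : 0 ≤ β) (h1 : β ≤ 1)
    (hβ : 20000 ≤ (Q : ℝ) ^ β) (k n : ℕ) {z : ℂ} (hz : ‖z‖ < 1) :
    ‖co Q k (Q ^ (2 ^ n)) * z ^ (Q ^ (2 ^ n))‖ ≤ (1 - ‖z‖) ^ (-β) * (1 / 2 : ℝ) ^ n := by
  have hQ0 : (0 : ℝ) < Q := by exact_mod_cast (by omega : 0 < Q)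
  have hδ : 0 < 1 - ‖z‖ := by linarith
  have e1 : ‖co Q k (Q ^ (2 ^ n))‖ ≤ (10000 : ℝ) ^ (2 ^ n) := by
    rw [co_at hQ]
    split_ifs
    · rw [cc, norm_pow]; norm_num
    · simp
  have e2 : ‖z‖ ^ (Q ^ (2 ^ n)) ≤ Real.exp (-((Q : ℝ) ^ (2 ^ n) * (1 - ‖z‖))) := by
    calc ‖z‖ ^ (Q ^ (2 ^ n)) ≤ Real.exp (-(1 - ‖z‖)) ^ (Q ^ (2 ^ n)) :=
          pow_le_pow_left₀ (norm_nonneg _) (by linarith [Real.add_one_le_exp (-(1 - ‖z‖))]) _
      _ = _ := by rw [← Real.exp_nat_mul]; push_cast; congr 1; ring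
  have e3 := exp_le_rpow (mul_pos (pow_pos hQ0 (2 ^ n)) hδ) h0 h1
  rw [Real.mul_rpow (pow_pos hQ0 _).le hδ.le] at e3
  have e4 : ((Q : ℝ) ^ (2 ^ n)) ^ (-β) ≤ ((20000 : ℝ) ^ (2 ^ n))⁻¹ := by
    rw [Real.rpow_neg (pow_pos hQ0 _).le, ← Real.rpow_natCast, ← Real.rpow_mul hQ0.le, mul_comm,
      Real.rpow_mul hQ0.le, Real.rpow_natCast]
    exact inv_anti₀ (by positivity) (pow_le_pow_left₀ (by norm_num) hβ _)
  have e5 : (10000 : ℝ) ^ (2 ^ n) * ((20000 : ℝ) ^ (2 ^ n))⁻¹ ≤ (1 / 2 : ℝ) ^ n := by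
    rw [← div_eq_mul_inv, ← div_pow]
    have : (10000 / 20000 : ℝ) = 1 / 2 := by norm_num
    rw [this]
    exact pow_le_pow_of_le_one (by norm_num) (by norm_num) (Nat.lt_two_pow_self).le
  have e6 : 0 ≤ (1 - ‖z‖) ^ (-β) := Real.rpow_nonneg hδ.le _
  rw [norm_mul, norm_pow]
  calc _ ≤ (10000 : ℝ) ^ (2 ^ n) * (((20000 : ℝ) ^ (2 ^ n))⁻¹ * (1 - ‖z‖) ^ (-β)) :=
        mul_le_mul e1 ((e2.trans e3).trans (mul_le_mul_of_nonneg_right e4 e6)) (by positivity)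
          (by positivity)
    _ = (1 - ‖z‖) ^ (-β) * ((10000 : ℝ) ^ (2 ^ n) * ((20000 : ℝ) ^ (2 ^ n))⁻¹) := by ring
    _ ≤ _ := mul_le_mul_of_nonneg_left e5 e6

lemma fk_spec {Q : ℕ} (hQ : 100 ≤ Q) {β : ℝ} (h0 : 0 ≤ β) (h1 : β ≤ 1)
    (hβ : 20000 ≤ (Q : ℝ) ^ β) (k : ℕ) :
    Rep (co Q k) (fk Q k) ∧ ∀ z : ℂ, ‖z‖ < 1 → ‖fk Q k z‖ ≤ (1 - ‖z‖) ^ (-β) * 2 := by
  have key : ∀ z : ℂ, ‖z‖ < 1 → HasSum (fun q => co Q k q * z ^ q) (fk Q k z) := by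
    intro z hz
    have hs : Summable fun n : ℕ => co Q k (Q ^ (2 ^ n)) * z ^ (Q ^ (2 ^ n)) :=
      Summable.of_norm_bounded (summable_geometric_two.mul_left _)
        (fun n => term_le hQ h0 h1 hβ k n hz)
    exact ((sum_iff hQ (co_off k) z _).1 hs.hasSum).summable.hasSum
  refine ⟨fun z hz => key z (by simpa using hz), fun z hz => ?_⟩
  exact HasSum.norm_le_of_bounded ((sum_iff hQ (co_off k) z _).2 (key z hz))
    (hasSum_geometric_two.mul_left _) (fun n => term_le hQ h0 h1 hβ k n hz)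

lemma fk_P {Q : ℕ} (hQ : 100 ≤ Q) {β : ℝ} (h0 : 0 ≤ β) (h1 : β ≤ 1)
    (hβ : 20000 ≤ (Q : ℝ) ^ β) (k : ℕ) : P Q (fk Q k) := by
  refine ⟨_, (fk_spec hQ h0 h1 hβ k).1, co_off k, fun n n' h => ?_⟩
  rw [co_at hQ, co_at hQ, h]
  split_ifs
  · ring
  · simp

lemma fk_indep {Q : ℕ} (hQ : 100 ≤ Q) {β : ℝ} (h0 : 0 ≤ β) (h1 : β ≤ 1)
    (hβ : 20000 ≤ (Q : ℝ) ^ β) (s : Finset ℕ) (l : ℕ → ℂ)
    (h : ∀ z ∈ ball (0 : ℂ) 1, ∑ k ∈ s, l k * fk Q k z = 0) (k : ℕ) (hk : k ∈ s) : l k = 0 := by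
  classical
  have hr : Rep (fun q => ∑ i ∈ s, l i * co Q i q) (fun _ => 0) := by
    intro z hz
    rw [← h z hz]
    have := hasSum_sum (s := s) (fun i _ => ((fk_spec hQ h0 h1 hβ i).1 z hz).mul_left (l i))
    simpa [Finset.sum_mul, mul_assoc] using this
  have h2 := hr.coeff (Q ^ (2 ^ Nat.pair k 0))
  simp only [co_at hQ, jj, Nat.unpair_pair, iteratedDeriv_const, ite_self, mul_zero, mul_ite,
    Finset.sum_ite_eq, hk, if_true] at h2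
  exact (mul_eq_zero.1 h2).resolve_right (cc_ne _)

lemma exists_Q {β : ℝ} (h0 : 0 < β) : ∃ Q : ℕ, 100 ≤ Q ∧ 20000 ≤ (Q : ℝ) ^ β := by
  have := ((tendsto_rpow_atTop h0).comp tendsto_natCast_atTop_atTop).eventually_ge_atTop 20000
  obtain ⟨Q, h1, h2⟩ := ((eventually_ge_atTop 100).and this).exists
  exact ⟨Q, h1, h2⟩

end Pool.Agent.H26.Ann
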