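import Mathlib
import Pool.Agent.H26.AnnB

open Filter Topology Metric MeasureTheory

namespace Pool.Agent.H26.Ann

noncomputable def II (p α : ℝ) (g : ℂ → ℂ) : ENNReal :=
  ∫⁻ z in ball (0 : ℂ) 1, ENNReal.ofReal (‖g z‖ ^ p * (1 - ‖z‖) ^ α / Real.pi)

theorem point_bound {p : ℝ} (hp : 0 < p) (α : ℝ) {ρ : ℝ} (h0 : 0 ≤ ρ) (h1 : ρ < 1) :
    ∃ κ : ℝ, 0 < κ ∧ ∀ g : ℂ → ℂ, DifferentiableOn ℂ g (ball 0 1) → ∀ z : ℂ, ‖z‖ ≤ ρ →
      ENNReal.ofReal (κ * ‖g z‖ ^ p) ≤ II p α g := by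
  set R := (1 + ρ) / 2 with hR
  have hR1 : R < 1 := by linarith
  have hρR : ρ < R := by linarith
  set S : ℝ := 4 ^ p⁻¹ with hS
  have hS0 : 0 < S := Real.rpow_pos_of_pos (by norm_num) _
  set ε : ℝ := 1 / (4 * (S + 1)) with hε
  have hε0 : 0 < ε := by positivity
  set m : ℝ := min 1 ((1 - R) ^ α) with hm
  have hm0 : 0 < m := lt_min one_pos (Real.rpow_pos_of_pos (by linarith) _)
  have hwt : ∀ w : ℂ, ‖w‖ ≤ R → m ≤ (1 - ‖w‖) ^ α := by
    intro w hw
    rcases le_total 0 α with h | h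
    · exact (min_le_right _ _).trans (Real.rpow_le_rpow (by linarith) (by linarith) h)
    · exact (min_le_left _ _).trans (Real.one_le_rpow_of_pos_of_le_one_of_nonpos (by linarith)
        (by linarith [norm_nonneg w]) h)
  have h2p : (0 : ℝ) < 2 ^ p := Real.rpow_pos_of_pos (by norm_num) _
  refine ⟨(R - ρ) ^ 2 * (m * ε ^ 2 / 2 ^ p), by have := sub_pos.2 hρR; positivity,
    fun g hg z hz => ?_⟩
  have hsub : closedBall (0 : ℂ) R ⊆ ball 0 1 := closedBall_subset_ball hR1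
  have hc : ContinuousOn (fun w : ℂ => (R - ‖w‖) ^ 2 * ‖g w‖ ^ p) (closedBall 0 R) := by
    refine ContinuousOn.mul (by fun_prop) ?_
    exact ((hg.continuousOn.mono hsub).norm).rpow_const fun _ _ => Or.inr hp.le
  obtain ⟨z0, hz0, hmax⟩ := (isCompact_closedBall (0 : ℂ) R).exists_isMaxOn
    ⟨0, mem_closedBall_self (by linarith)⟩ hc
  have hmax' : ∀ w : ℂ, ‖w‖ ≤ R →
      (R - ‖w‖) ^ 2 * ‖g w‖ ^ p ≤ (R - ‖z0‖) ^ 2 * ‖g z0‖ ^ p :=
    fun w hw => hmax (by simpa using hw)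
  have hz0' : ‖z0‖ ≤ R := by simpa using hz0
  have hA : (R - ρ) ^ 2 * ‖g z‖ ^ p ≤ (R - ‖z0‖) ^ 2 * ‖g z0‖ ^ p := by
    refine le_trans ?_ (hmax' z (by linarith))
    refine mul_le_mul_of_nonneg_right ?_ (by positivity)
    exact pow_le_pow_left₀ (by linarith) (by linarith) 2
  have hB : ENNReal.ofReal ((R - ‖z0‖) ^ 2 * ‖g z0‖ ^ p * (m * ε ^ 2 / 2 ^ p)) ≤ II p α g := by
    rcases eq_or_lt_of_le hz0' with he | hlt
    · simp [he]
    set δ := R - ‖z0‖ with hδ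
    have hδ0 : 0 < δ := by linarith
    have hb1 : ∀ w ∈ ball z0 (δ / 2), ‖w‖ ≤ R - δ / 2 := by
      intro w hw
      rw [mem_ball_iff_norm] at hw
      have := norm_le_norm_add_norm_sub' w z0
      linarith
    have hb2 : ∀ w ∈ ball z0 (δ / 2), ‖g w‖ ≤ S * ‖g z0‖ := by
      intro w hw
      have h3 := hb1 w hw
      have h4 := hmax' w (by linarith)
      have h5 : (δ / 2) ^ 2 * ‖g w‖ ^ p ≤ (R - ‖w‖) ^ 2 * ‖g w‖ ^ p :=
        mul_le_mul_of_nonneg_right (pow_le_pow_left₀ (by linarith) (by linarith) 2) (by positivity)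
      have h6 : ‖g w‖ ^ p ≤ 4 * ‖g z0‖ ^ p := by
        have h7 : 0 < δ ^ 2 := by positivity
        have : δ ^ 2 * ‖g w‖ ^ p ≤ δ ^ 2 * (4 * ‖g z0‖ ^ p) := by nlinarith
        exact le_of_mul_le_mul_left this h7
      have h8 : (S * ‖g z0‖) ^ p = 4 * ‖g z0‖ ^ p := by
        rw [Real.mul_rpow hS0.le (norm_nonneg _), hS, Real.rpow_inv_rpow (by norm_num) hp.ne']
      rw [← h8] at h6
      exact (Real.rpow_le_rpow_iff (norm_nonneg _) (by positivity) hp).1 h6
    have hsub2 : ball z0 (δ / 2) ⊆ ball 0 1 := fun w hw => by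
      have := hb1 w hw
      rw [mem_ball_zero_iff]; linarith
    have hmaps : Set.MapsTo g (ball z0 (δ / 2)) (closedBall (g z0) ((S + 1) * ‖g z0‖)) := by
      intro w hw
      rw [mem_closedBall_iff_norm]
      have := norm_sub_le (g w) (g z0)
      have := hb2 w hw
      linarith
    have hεle : ε * δ ≤ δ / 2 := by
      have : ε ≤ 1 / 2 := one_div_le_one_div_of_le (by norm_num) (by linarith)
      nlinarith
    have hb3 : ∀ w ∈ ball z0 (ε * δ), ‖g z0‖ / 2 ≤ ‖g w‖ := by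
      intro w hw
      have h3 := Complex.dist_le_div_mul_dist_of_mapsTo_ball (hg.mono hsub2) hmaps
        (ball_subset_ball hεle hw)
      have h4 : (S + 1) * ‖g z0‖ / (δ / 2) * dist w z0 ≤ (S + 1) * ‖g z0‖ / (δ / 2) * (ε * δ) :=
        mul_le_mul_of_nonneg_left (mem_ball.1 hw).le (by positivity)
      have h5 : (S + 1) * ‖g z0‖ / (δ / 2) * (ε * δ) = ‖g z0‖ / 2 := by
        rw [hε]; field_simp; ring
      rw [dist_eq_norm] at h3
      have := norm_le_norm_add_norm_sub' (g z0) (g w)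
      rw [norm_sub_rev] at this
      linarith
    have hb4 : ∀ w ∈ ball z0 (ε * δ), ENNReal.ofReal (‖g z0‖ ^ p / 2 ^ p * m / Real.pi) ≤
        ENNReal.ofReal (‖g w‖ ^ p * (1 - ‖w‖) ^ α / Real.pi) := by
      intro w hw
      refine ENNReal.ofReal_le_ofReal (div_le_div_of_nonneg_right ?_ Real.pi_pos.le)
      have h3 := hb1 w (ball_subset_ball hεle hw)
      refine mul_le_mul ?_ (hwt w (by linarith)) hm0.le (by positivity)
      rw [← Real.div_rpow (norm_nonneg _) (by norm_num)]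
      exact Real.rpow_le_rpow (by positivity) (hb3 w hw) hp.le
    calc _ = ENNReal.ofReal (‖g z0‖ ^ p / 2 ^ p * m / Real.pi) * volume (ball z0 (ε * δ)) := by
          rw [Complex.volume_ball, ← ENNReal.ofReal_pow (by positivity),
            ← ENNReal.ofReal_coe_nnreal, ← ENNReal.ofReal_mul (by positivity),
            ← ENNReal.ofReal_mul (by positivity)]
          congr 1
          have := Real.pi_pos
          simp only [NNReal.coe_real_pi]
          field_simp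
      _ = ∫⁻ _ in ball z0 (ε * δ), ENNReal.ofReal (‖g z0‖ ^ p / 2 ^ p * m / Real.pi) := by
          rw [setLIntegral_const]
      _ ≤ ∫⁻ w in ball z0 (ε * δ), ENNReal.ofReal (‖g w‖ ^ p * (1 - ‖w‖) ^ α / Real.pi) :=
          setLIntegral_mono' measurableSet_ball hb4
      _ ≤ _ := lintegral_mono_set ((ball_subset_ball hεle).trans hsub2)
  refine le_trans (ENNReal.ofReal_le_ofReal ?_) hB
  have : 0 ≤ m * ε ^ 2 / 2 ^ p := by positivity
  nlinarith [mul_le_mul_of_nonneg_right hA this]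

lemma II_congr {p α : ℝ} {f g : ℂ → ℂ} (h : ∀ z ∈ ball (0 : ℂ) 1, f z = g z) :
    II p α f = II p α g :=
  setLIntegral_congr_fun measurableSet_ball fun z hz => by simp only [h z hz]

lemma II_meas {p : ℝ} (hp : 0 < p) (α : ℝ) {g : ℂ → ℂ} (hg : DifferentiableOn ℂ g (ball 0 1)) :
    AEMeasurable (fun z : ℂ => ENNReal.ofReal (‖g z‖ ^ p * (1 - ‖z‖) ^ α / Real.pi))
      (volume.restrict (ball 0 1)) := by
  refine ContinuousOn.aemeasurable ?_ measurableSet_ball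
  refine ENNReal.continuous_ofReal.comp_continuousOn (ContinuousOn.div_const ?_ _)
  refine (hg.continuousOn.norm.rpow_const fun _ _ => Or.inr hp.le).mul ?_
  refine ContinuousOn.rpow_const (by fun_prop) fun z hz => Or.inl ?_
  rw [mem_ball_zero_iff] at hz
  linarith

lemma II_smul {p α : ℝ} {g : ℂ → ℂ} (c : ℂ) (h : II p α g < ⊤) :
    II p α (fun z => c * g z) < ⊤ := by
  have : II p α (fun z => c * g z) = ENNReal.ofReal (‖c‖ ^ p) * II p α g := by
    unfold II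
    rw [← lintegral_const_mul' _ _ ENNReal.ofReal_ne_top]
    congr 1
    ext z
    rw [← ENNReal.ofReal_mul (by positivity), norm_mul,
      Real.mul_rpow (norm_nonneg _) (norm_nonneg _)]
    congr 1
    ring
  rw [this]
  exact ENNReal.mul_lt_top ENNReal.ofReal_lt_top h

lemma II_add {p : ℝ} (hp : 0 < p) {α : ℝ} {f g : ℂ → ℂ} (hd : DifferentiableOn ℂ f (ball 0 1))
    (hf : II p α f < ⊤) (hg : II p α g < ⊤) : II p α (fun z => f z + g z) < ⊤ := by
  have h1 := II_smul 2 hf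
  have h2 := II_smul 2 hg
  refine lt_of_le_of_lt ?_ (ENNReal.add_lt_top.2 ⟨h1, h2⟩)
  unfold II
  rw [← lintegral_add_left' (II_meas hp α (hd.const_mul 2))]
  refine setLIntegral_mono' measurableSet_ball fun z hz => ?_
  have hw : 0 ≤ (1 - ‖z‖) ^ α / Real.pi := by
    rw [mem_ball_zero_iff] at hz
    exact div_nonneg (Real.rpow_nonneg (by linarith) _) Real.pi_pos.le
  have h3 := norm_add_le (f z) (g z)
  rcases le_total ‖f z‖ ‖g z‖ with h | h
  · refine le_trans (ENNReal.ofReal_le_ofReal ?_) le_add_self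
    rw [mul_div_assoc, mul_div_assoc]
    refine mul_le_mul_of_nonneg_right (Real.rpow_le_rpow (norm_nonneg _) ?_ hp.le) hw
    rw [norm_mul, Complex.norm_two]; linarith
  · refine le_trans (ENNReal.ofReal_le_ofReal ?_) le_self_add
    rw [mul_div_assoc, mul_div_assoc]
    refine mul_le_mul_of_nonneg_right (Real.rpow_le_rpow (norm_nonneg _) ?_ hp.le) hw
    rw [norm_mul, Complex.norm_two]; linarith

lemma II_fin {p α β : ℝ} (hp : 0 < p) (h : -1 < α - β * p) {g : ℂ → ℂ}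
    (hg : ∀ z : ℂ, ‖z‖ < 1 → ‖g z‖ ≤ (1 - ‖z‖) ^ (-β) * 2) : II p α g < ⊤ := by
  have h1 : IntegrableOn (fun y : ℝ => (1 - y) ^ (α - β * p)) (Set.Ioo 0 1) := by
    have := (intervalIntegral.intervalIntegrable_rpow' (a := 1) (b := 0) h).comp_sub_left 1
    simp only [sub_self, sub_zero] at this
    exact (intervalIntegrable_iff_integrableOn_Ioo_of_le zero_le_one).1 this
  have h2 : IntegrableOn (fun z : ℂ => (1 - ‖z‖) ^ (α - β * p)) (ball 0 1) := by
    rw [integrableOn_fun_norm_addHaar volume (f := fun y => (1 - y) ^ (α - β * p))]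
    simp only [smul_eq_mul]
    exact IntegrableOn.continuousOn_mul_of_subset (X := ℝ) (K := Set.Icc 0 1) (by fun_prop) h1
      isCompact_Icc measurableSet_Ioo Set.Ioo_subset_Icc_self
  have h3 := (h2.const_mul (2 ^ p / Real.pi)).lintegral_lt_top
  refine lt_of_le_of_lt (setLIntegral_mono' measurableSet_ball fun z hz => ?_) h3
  rw [mem_ball_zero_iff] at hz
  refine ENNReal.ofReal_le_ofReal ?_
  have hδ : 0 < 1 - ‖z‖ := by linarith
  have h4 : ‖g z‖ ^ p ≤ (1 - ‖z‖) ^ (-(β * p)) * 2 ^ p := by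
    refine (Real.rpow_le_rpow (norm_nonneg _) (hg z hz) hp.le).trans (le_of_eq ?_)
    rw [Real.mul_rpow (Real.rpow_nonneg hδ.le _) (by norm_num), ← Real.rpow_mul hδ.le, neg_mul]
  rw [sub_eq_add_neg α, Real.rpow_add hδ]
  have h5 : 0 ≤ (1 - ‖z‖) ^ α / Real.pi := div_nonneg (Real.rpow_nonneg hδ.le _) Real.pi_pos.le
  calc _ = ‖g z‖ ^ p * ((1 - ‖z‖) ^ α / Real.pi) := by ring
    _ ≤ (1 - ‖z‖) ^ (-(β * p)) * 2 ^ p * ((1 - ‖z‖) ^ α / Real.pi) :=
      mul_le_mul_of_nonneg_right h4 h5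
    _ = _ := by ring

theorem lu_of_II {p : ℝ} (hp : 0 < p) {α : ℝ} {G : ℕ → ℂ → ℂ} {g : ℂ → ℂ}
    (hG : ∀ i, DifferentiableOn ℂ (G i) (ball 0 1)) (hg : DifferentiableOn ℂ g (ball 0 1))
    (h : Tendsto (fun i => II p α (fun z => g z - G i z)) atTop (𝓝 0)) :
    TendstoLocallyUniformlyOn G g atTop (ball 0 1) := by
  rw [Metric.tendstoLocallyUniformlyOn_iff]
  intro ε hε x hx
  rw [mem_ball_zero_iff] at hx
  have hx0 := norm_nonneg x
  obtain ⟨κ, hκ, hb⟩ := point_bound hp α (ρ := (1 + ‖x‖) / 2) (by linarith) (by linarith)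
  refine ⟨closedBall 0 ((1 + ‖x‖) / 2), mem_nhdsWithin_of_mem_nhds
    (closedBall_mem_nhds_of_mem (by rw [mem_ball_zero_iff]; linarith)), ?_⟩
  have hpos : 0 < κ * ε ^ p := mul_pos hκ (Real.rpow_pos_of_pos hε _)
  filter_upwards [h.eventually (gt_mem_nhds (ENNReal.ofReal_pos.2 hpos))] with i hi y hy
  have h1 := (hb _ (hg.sub (hG i)) y (by simpa using hy)).trans_lt hi
  rw [ENNReal.ofReal_lt_ofReal_iff hpos] at h1
  have h2 := lt_of_mul_lt_mul_left h1 hκ.le
  rw [dist_eq_norm]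
  exact (Real.rpow_lt_rpow_iff (norm_nonneg _) hε.le hp).1 h2

open Classical in
noncomputable def ext (f : ball (0 : ℂ) 1 → ℂ) (z : ℂ) : ℂ :=
  if h : z ∈ ball (0 : ℂ) 1 then f ⟨z, h⟩ else 0

lemma ext_coe (f : ball (0 : ℂ) 1 → ℂ) (z : ball (0 : ℂ) 1) : ext f z = f z := by
  simp only [ext, z.2, dif_pos]

lemma ext_mem (f : ball (0 : ℂ) 1 → ℂ) {z : ℂ} (h : z ∈ ball (0 : ℂ) 1) : ext f z = f ⟨z, h⟩ :=
  ext_coe f ⟨z, h⟩

end Pool.Agent.H26.Ann
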