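import Mathlib

set_option autoImplicit false

open Metric

namespace Pool.Agent.H26.BL0

structure BL : Type 1 where
  X : Type
  [nacg : NormedAddCommGroup X]
  [ns : NormedSpace ℝ X]
  [lat : Lattice X]
  [ord : IsOrderedAddMonoid X]
  [pos : PosSMulMono ℝ X]
  [solid : HasSolidNorm X]
  [comp : CompleteSpace X]

attribute [instance] BL.nacg BL.ns BL.lat BL.ord BL.pos BL.solid BL.comp

instance : CoeSort BL Type := ⟨BL.X⟩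

def IsHom {X Y : BL} (T : X →L[ℝ] Y) : Prop := ∀ x, T |x| = |T x|

def IsQuot {X Z : BL} (Q : X →L[ℝ] Z) : Prop :=
  IsHom Q ∧ Function.Surjective Q ∧ ∀ x, ‖Q x‖ = infDist x {j | Q j = 0}

def Proj (P : BL) : Prop :=
  ∀ (X Z : BL) (Q : X →L[ℝ] Z), IsQuot Q → ∀ T : P →L[ℝ] Z, IsHom T → ∀ ε > 0,
    ∃ S : P →L[ℝ] X, IsHom S ∧ Q.comp S = T ∧ ‖S‖ ≤ (1 + ε) * ‖T‖

def HasUnit (P : BL) : Prop := ∃ e : P, 0 ≤ e ∧ Dense {x | ∃ c : ℝ, |x| ≤ c • e}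

def Semiproj (A : BL) : Prop :=
  ∀ (E Z : BL) (Zn : ℕ → BL) (Q : E →L[ℝ] Z) (Qn : ∀ n, E →L[ℝ] Zn n) (π : ∀ n, Zn n →L[ℝ] Z),
    TopologicalSpace.SeparableSpace E → IsQuot Q → (∀ n, IsQuot (Qn n)) →
    (Monotone fun n => {x | Qn n x = 0}) → {x | Q x = 0} = closure (⋃ n, {x | Qn n x = 0}) →
    (∀ n, (π n).comp (Qn n) = Q) → ∀ φ : A →L[ℝ] Z, IsHom φ → ‖φ‖ ≤ 1 →
      ∃ n, ∀ ε > 0, ∃ ψ : A →L[ℝ] Zn n, IsHom ψ ∧ ‖ψ‖ ≤ 1 + ε ∧ (π n).comp ψ = φ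

noncomputable abbrev real : BL := ⟨ℝ⟩

noncomputable abbrev prod (X Y : BL) : BL :=
  haveI : HasSolidNorm (X × Y) := ⟨fun _ _ h =>
    max_le_max (HasSolidNorm.solid h.1) (HasSolidNorm.solid h.2)⟩
  ⟨X × Y⟩

end Pool.Agent.H26.BL0
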