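import Mathlib
import Pool.Agent.H26.BL0

set_option autoImplicit false

open Metric Filter Topology
open scoped BoundedContinuousFunction

namespace Pool.Agent.H26.BL1

open BL0

section VL

variable {V : Type} [AddCommGroup V] [Module ℝ V] [Lattice V] [IsOrderedAddMonoid V]
  [PosSMulMono ℝ V]

lemma smul_sup' {c : ℝ} (hc : 0 ≤ c) (x y : V) : c • (x ⊔ y) = c • x ⊔ c • y := by
  rcases hc.eq_or_lt with rfl | h
  · simp
  refine le_antisymm ?_ (sup_le (by gcongr; exact le_sup_left) (by gcongr; exact le_sup_right))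
  have : x ⊔ y ≤ c⁻¹ • (c • x ⊔ c • y) := sup_le
    ((inv_smul_smul₀ h.ne' x).ge.trans (by gcongr; exact le_sup_left))
    ((inv_smul_smul₀ h.ne' y).ge.trans (by gcongr; exact le_sup_right))
  exact (smul_le_smul_of_nonneg_left this hc).trans_eq (smul_inv_smul₀ h.ne' _)

lemma smul_inf' {c : ℝ} (hc : 0 ≤ c) (x y : V) : c • (x ⊓ y) = c • x ⊓ c • y := by
  have := smul_sup' hc (-x) (-y)
  rwa [← neg_inf, smul_neg, smul_neg, smul_neg, ← neg_inf, neg_inj] at this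

lemma abs_smul' (c : ℝ) (x : V) : |c • x| = |c| • |x| := by
  have : ∀ c : ℝ, 0 ≤ c → |c • x| = c • |x| := fun c hc => by
    rw [abs, abs, smul_sup' hc, smul_neg]
  rcases le_total 0 c with h | h
  · rw [this c h, abs_of_nonneg h]
  · rw [← abs_neg, ← neg_smul, this _ (neg_nonneg.2 h), abs_of_nonpos h]

lemma abs_add_disj {x y : V} (h : |x| ⊓ |y| = 0) : |x + y| = |x| + |y| := by
  refine le_antisymm (abs_add_le _ _) ?_
  have h1 := two_nsmul_inf_eq_add_sub_abs_sub |x| |y|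
  have h2 := abs_abs_sub_abs_le y (-x)
  rw [h, smul_zero, eq_comm, sub_eq_zero] at h1
  rwa [abs_neg, ← h1, sub_neg_eq_add, add_comm y] at h2

lemma add_inf_le {x y z : V} (hx : 0 ≤ x) (hy : 0 ≤ y) (hz : 0 ≤ z) :
    (x + y) ⊓ z ≤ x ⊓ z + y ⊓ z := by
  rw [add_inf, inf_add, inf_add]
  exact le_inf (le_inf inf_le_left (inf_le_right.trans (le_add_of_nonneg_right hy)))
    (le_inf (inf_le_right.trans (le_add_of_nonneg_left hx))
      (inf_le_right.trans (le_add_of_nonneg_left hz)))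

lemma smul_disj {x y : V} (hx : 0 ≤ x) (hy : 0 ≤ y) (h : x ⊓ y = 0) {c d : ℝ} (hc : 0 ≤ c)
    (hd : 0 ≤ d) : c • x ⊓ d • y = 0 := by
  refine le_antisymm ?_ (le_inf (smul_nonneg hc hx) (smul_nonneg hd hy))
  calc _ ≤ (c + d) • x ⊓ (c + d) • y := inf_le_inf
        (by rw [add_smul]; exact le_add_of_nonneg_right (smul_nonneg hd hx))
        (by rw [add_smul]; exact le_add_of_nonneg_left (smul_nonneg hc hy))
    _ = 0 := by rw [← smul_inf' (add_nonneg hc hd), h, smul_zero]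

lemma posPart_sub_disj {a b : V} (h : a ⊓ b = 0) : (a - b)⁺ = a := by
  have := inf_eq_sub_posPart_sub a b
  rw [h, eq_comm, sub_eq_zero] at this
  exact this.symm

lemma abs_sum_disj (u : ℕ → V) (h0 : ∀ n, 0 ≤ u n) (h : ∀ n m, n ≠ m → u n ⊓ u m = 0)
    (a : ℕ → ℝ) (s : Finset ℕ) : |∑ n ∈ s, a n • u n| = ∑ n ∈ s, |a n| • u n := by
  induction s using Finset.induction_on with
  | empty => simp
  | insert m s hm ih =>
    have h1 : |a m • u m| = |a m| • u m := by rw [abs_smul', abs_of_nonneg (h0 m)]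
    rw [Finset.sum_insert hm, Finset.sum_insert hm, abs_add_disj, ih, h1]
    rw [ih, h1, inf_comm]
    refine (Finset.sum_induction _ (fun y => 0 ≤ y ∧ y ⊓ |a m| • u m = 0) (fun y z hy hz =>
      ⟨add_nonneg hy.1 hz.1, le_antisymm ((add_inf_le hy.1 hz.1 (smul_nonneg (abs_nonneg _)
        (h0 m))).trans (by rw [hy.2, hz.2, add_zero])) (le_inf (add_nonneg hy.1 hz.1)
          (smul_nonneg (abs_nonneg _) (h0 m)))⟩) ⟨le_rfl, inf_eq_left.2 (smul_nonneg (abs_nonneg _)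
            (h0 m))⟩ fun n hn => ⟨smul_nonneg (abs_nonneg _) (h0 n), smul_disj (h0 n) (h0 m)
              (h n m fun e => hm (e ▸ hn)) (abs_nonneg _) (abs_nonneg _)⟩).2

end VL

variable {X Y Z : BL}

lemma IsHom.sup {T : X →L[ℝ] Y} (h : IsHom T) (x y : X) : T (x ⊔ y) = T x ⊔ T y := by
  rw [sup_eq_half_smul_add_add_abs_sub ℝ, sup_eq_half_smul_add_add_abs_sub ℝ, map_smul, map_add,
    map_add, h, map_sub]

lemma IsHom.inf {T : X →L[ℝ] Y} (h : IsHom T) (x y : X) : T (x ⊓ y) = T x ⊓ T y := by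
  rw [inf_eq_half_smul_add_sub_abs_sub ℝ, inf_eq_half_smul_add_sub_abs_sub ℝ, map_smul, map_sub,
    map_add, h, map_sub]

lemma IsHom.posPart {T : X →L[ℝ] Y} (h : IsHom T) (x : X) : T x⁺ = (T x)⁺ := by
  rw [posPart_def, posPart_def, IsHom.sup h, map_zero]

lemma IsHom.mono {T : X →L[ℝ] Y} (h : IsHom T) {x y : X} (hxy : x ≤ y) : T x ≤ T y := by
  rw [← sup_eq_right, ← IsHom.sup h, sup_eq_right.2 hxy]

lemma IsHom.nonneg {T : X →L[ℝ] Y} (h : IsHom T) {x : X} (hx : 0 ≤ x) : 0 ≤ T x :=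
  (map_zero T).ge.trans (IsHom.mono h hx)

lemma IsHom.comp {S : Y →L[ℝ] Z} {T : X →L[ℝ] Y} (hS : IsHom S) (hT : IsHom T) :
    IsHom (S.comp T) := fun x => by
  rw [ContinuousLinearMap.comp_apply, hT, hS]; rfl

lemma IsQuot.norm_le {Q : X →L[ℝ] Z} (h : IsQuot Q) (x : X) : ‖Q x‖ ≤ ‖x‖ := by
  rw [h.2.2]
  exact (infDist_le_dist_of_mem (s := {j | Q j = 0}) (map_zero Q)).trans_eq (dist_zero_right _)

lemma IsQuot.lift {Q : X →L[ℝ] Z} (h : IsQuot Q) (z : Z) {r : ℝ} (hr : ‖z‖ < r) :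
    ∃ x, Q x = z ∧ ‖x‖ < r := by
  obtain ⟨x, rfl⟩ := h.2.1 z
  rw [h.2.2] at hr
  obtain ⟨j, hj, hj'⟩ := (infDist_lt_iff (s := {j | Q j = 0}) ⟨0, map_zero Q⟩).1 hr
  exact ⟨x - j, by rw [map_sub, hj, sub_zero], by rwa [← dist_eq_norm]⟩

lemma IsQuot.lift_pos {Q : X →L[ℝ] Z} (h : IsQuot Q) {z : Z} (hz : 0 ≤ z) {r : ℝ} (hr : ‖z‖ < r) :
    ∃ x, 0 ≤ x ∧ Q x = z ∧ ‖x‖ < r := by
  obtain ⟨x, h1, h2⟩ := IsQuot.lift h z hr
  exact ⟨|x|, abs_nonneg _, by rw [h.1, h1, abs_of_nonneg hz], by rwa [norm_abs_eq_norm]⟩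

lemma isQuot_of {Q : X →L[ℝ] Z} (h1 : IsHom Q) (h2 : ∀ x, ‖Q x‖ ≤ ‖x‖)
    (h3 : ∀ z r, ‖z‖ < r → ∃ x, Q x = z ∧ ‖x‖ ≤ r) : IsQuot Q := by
  refine ⟨h1, fun z => (h3 z _ (lt_add_one _)).imp fun _ h => h.1, fun x => le_antisymm
    ((le_infDist (s := {j | Q j = 0}) ⟨0, map_zero Q⟩).2 fun j hj => ?_) (le_of_forall_gt_imp_ge_of_dense fun r hr => ?_)⟩
  · rw [dist_eq_norm, ← sub_zero (Q x), ← show Q j = 0 from hj, ← map_sub]
    exact h2 _
  · obtain ⟨y, hy, hy'⟩ := h3 _ r hr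
    exact (infDist_le_dist_of_mem (s := {j | Q j = 0}) (show Q (x - y) = 0 by rw [map_sub, hy, sub_self])).trans
      (by simpa using hy')

noncomputable def sub (X : BL) (S : Submodule ℝ X) (hc : IsClosed (S : Set X))
    (hs : ∀ x ∈ S, |x| ∈ S) : BL :=
  letI : Lattice S := Subtype.lattice
    (fun x y hx hy => by
      rw [sup_eq_half_smul_add_add_abs_sub ℝ]
      exact S.smul_mem _ (S.add_mem (S.add_mem hx hy) (hs _ (S.sub_mem hy hx))))
    fun x y hx hy => by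
      rw [inf_eq_half_smul_add_sub_abs_sub ℝ]
      exact S.smul_mem _ (S.sub_mem (S.add_mem hx hy) (hs _ (S.sub_mem hy hx)))
  haveI : IsOrderedAddMonoid S :=
    { add_le_add_left := fun a b h c => add_le_add_left (show (a : X) ≤ b from h) c.1 }
  haveI : PosSMulMono ℝ S := ⟨fun c hc a b h => show c • (a : X) ≤ c • (b : X) from
    smul_le_smul_of_nonneg_left (show (a : X) ≤ b from h) hc⟩
  haveI : HasSolidNorm S := ⟨fun _ _ h => HasSolidNorm.solid (α := X) h⟩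
  haveI := hc.completeSpace_coe
  ⟨S⟩

noncomputable abbrev bcf (α : Type) [TopologicalSpace α] (X : BL) : BL :=
  haveI : PosSMulMono ℝ (α →ᵇ X) := ⟨fun _ hc _ _ h i => smul_le_smul_of_nonneg_left (h i) hc⟩
  ⟨α →ᵇ X⟩

def Syn (X : Type) : Type := X

noncomputable def renorm (X : BL) (p : Seminorm ℝ X) (C : ℝ) (h1 : ∀ x, ‖x‖ ≤ C * p x)
    (h2 : ∀ x, p x ≤ C * ‖x‖) (h3 : ∀ x y, |x| ≤ |y| → p x ≤ p y) : BL :=
  letI : AddCommGroup (Syn X) := inferInstanceAs (AddCommGroup X)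
  letI : Module ℝ (Syn X) := inferInstanceAs (Module ℝ X)
  letI : Lattice (Syn X) := inferInstanceAs (Lattice X)
  letI : NormedAddCommGroup (Syn X) := AddGroupNorm.toNormedAddCommGroup
    { p.toAddGroupSeminorm with
      eq_zero_of_map_eq_zero' := fun x hx => norm_le_zero_iff.1
        ((h1 x).trans_eq (by rw [show p x = 0 from hx, mul_zero])) }
  letI : NormedSpace ℝ (Syn X) := ⟨fun c x => (map_smul_eq_mul p c x).le⟩
  haveI : IsOrderedAddMonoid (Syn X) := inferInstanceAs (IsOrderedAddMonoid X)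
  haveI : PosSMulMono ℝ (Syn X) := inferInstanceAs (PosSMulMono ℝ X)
  haveI : HasSolidNorm (Syn X) := ⟨h3⟩
  haveI : CompleteSpace (Syn X) := (LinearEquiv.toContinuousLinearEquivOfBounds
    (E := Syn X) (F := X) (LinearEquiv.refl ℝ X) C C h1 h2).isUniformEmbedding.completeSpace_congr
      (fun x => ⟨x, rfl⟩) |>.2 inferInstance
  ⟨Syn X⟩

abbrev L : Type := lp (fun _ : ℕ => ℝ) 1

noncomputable def l1 : BL :=
  letI : Lattice L := Subtype.lattice (α := ℕ → ℝ) (P := fun f => Memℓp f 1)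
    (fun f g hf hg => (hf.norm.add hg.norm).mono fun i => norm_sup_le_add _ _)
    fun f g hf hg => (hf.norm.add hg.norm).mono fun i => norm_inf_le_add _ _
  haveI : IsOrderedAddMonoid L :=
    { add_le_add_left := fun _ _ h c i => add_le_add_left (h i) (c i) }
  haveI : PosSMulMono ℝ L := ⟨fun _ hc _ _ h i => smul_le_smul_of_nonneg_left (h i) hc⟩
  haveI : HasSolidNorm L := ⟨fun _ _ h => lp.norm_mono one_ne_zero h⟩
  ⟨L⟩

def co (a : l1) (k : ℕ) : ℝ := (show L from a) k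

noncomputable def e (k : ℕ) : l1 := (lp.single 1 k (1 : ℝ) : L)

lemma e_norm (k : ℕ) : ‖e k‖ = 1 := (lp.norm_single (E := fun _ : ℕ => ℝ) one_pos k (1 : ℝ)).trans norm_one

lemma e_apply (k n : ℕ) : co (e k) n = if n = k then 1 else 0 := by
  simp [e, co, Pi.single_apply]

lemma e_nonneg (k : ℕ) : 0 ≤ e k := fun n => by
  change (0 : ℝ) ≤ co (e k) n
  rw [e_apply]; positivity

lemma e_disj {n m : ℕ} (h : n ≠ m) : e n ⊓ e m = 0 := lp.ext (funext fun k => by
  change min (co (e n) k) (co (e m) k) = 0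
  simp only [e_apply]
  split_ifs <;> simp_all)

lemma hasSum_e (a : l1) : HasSum (fun k => co a k • e k) a := by
  have := lp.hasSum_single (p := 1) (by simp) (show L from a)
  rwa [show (fun k => co a k • e k) = fun k => (lp.single 1 k (co a k) : L) from funext fun k =>
    (lp.single_smul (E := fun _ : ℕ => ℝ) 1 k (co a k) (1 : ℝ)).symm.trans (by simp)]

lemma hasSum_norm (a : l1) : HasSum (fun k => |co a k|) ‖a‖ := by
  have := lp.hasSum_norm (p := 1) (by simp) (show L from a)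
  simp only [ENNReal.toReal_one, Real.rpow_one] at this
  exact this

lemma exists_W (u : ℕ → X) (C : ℝ) (h : ∀ k, ‖u k‖ ≤ C) :
    ∃ W : l1 →L[ℝ] X, (∀ k, W (e k) = u k) ∧ ‖W‖ ≤ C := by
  have h0 : 0 ≤ C := (norm_nonneg _).trans (h 0)
  have hb : ∀ (a : l1) k, ‖co a k • u k‖ ≤ |co a k| * C := fun a k => by
    rw [norm_smul]; exact mul_le_mul_of_nonneg_left (h k) (abs_nonneg _)
  have hs : ∀ a : l1, Summable fun k => co a k • u k := fun a =>
    .of_norm_bounded ((hasSum_norm a).mul_right C).summable (hb a)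
  refine ⟨LinearMap.mkContinuous
    { toFun := fun a => ∑' k, co a k • u k
      map_add' := fun a b => by
        rw [← (hs a).tsum_add (hs b)]; exact tsum_congr fun k => add_smul _ _ _
      map_smul' := fun c a => by
        rw [RingHom.id_apply, ← (hs a).tsum_const_smul c]; exact tsum_congr fun k => mul_smul _ _ _ } C
    fun a => (tsum_of_norm_bounded ((hasSum_norm a).mul_right C) (hb a)).trans_eq (mul_comm _ _),
    fun k => ?_, LinearMap.mkContinuous_norm_le _ h0 _⟩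
  change ∑' n, co (e k) n • u n = _
  simp [e_apply]

lemma hasSum_W (W : l1 →L[ℝ] X) (a : l1) : HasSum (fun k => co a k • W (e k)) (W a) := by
  simpa using (hasSum_e a).mapL W

lemma W_ext {W W' : l1 →L[ℝ] X} (h : ∀ k, W (e k) = W' (e k)) : W = W' := by
  ext a
  exact (hasSum_W W a).unique (by simpa only [h] using hasSum_W W' a)

lemma W_norm (W : l1 →L[ℝ] X) {C : ℝ} (h : ∀ k, ‖W (e k)‖ ≤ C) : ‖W‖ ≤ C := by
  obtain ⟨W', h1, h2⟩ := exists_W _ C h
  rwa [W_ext h1] at h2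

lemma W_nonneg (W : l1 →L[ℝ] X) (h : ∀ k, 0 ≤ W (e k)) {a : l1} (ha : 0 ≤ a) : 0 ≤ W a :=
  (hasSum_W W a).nonneg fun k => smul_nonneg (ha k) (h k)

lemma W_hom (W : l1 →L[ℝ] X) (h0 : ∀ k, 0 ≤ W (e k))
    (h : ∀ n m, n ≠ m → W (e n) ⊓ W (e m) = 0) : IsHom W := fun a =>
  tendsto_nhds_unique (hasSum_W W |a|) (((continuous_id.sup continuous_neg).tendsto _).comp
    (hasSum_W W a) |>.congr fun s => abs_sum_disj _ h0 h _ s)

lemma disj_lift {Q : X →L[ℝ] Z} (hQ : IsHom Q) (w : ℕ → X) (h0 : ∀ n, 0 ≤ w n) (C : ℝ)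
    (hC : ∀ n, ‖w n‖ ≤ C) (h : ∀ n m, n ≠ m → Q (w n) ⊓ Q (w m) = 0) :
    ∃ u : ℕ → X, (∀ n, 0 ≤ u n ∧ u n ≤ w n ∧ Q (u n) = Q (w n)) ∧
      ∀ n m, n ≠ m → u n ⊓ u m = 0 := by
  obtain ⟨W, hW, -⟩ := exists_W w C hC
  let g : l1 := ⟨fun k => (1 / 2 : ℝ) ^ k, memℓp_gen (by simpa using summable_geometric_two)⟩
  have hg : ∀ k, 0 < co g k := fun k => pow_pos one_half_pos k
  have hW0 : ∀ {a : l1}, 0 ≤ a → 0 ≤ W a := W_nonneg W fun k => hW k ▸ h0 k
  let r : ℕ → l1 := fun n => g - co g n • e n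
  have hr : ∀ n k, co (r n) k = if k = n then 0 else co g k := fun n k => by
    change co g k - co g n * co (e n) k = _
    rw [e_apply]; split_ifs with h <;> simp [h]
  have hr1 : ∀ n m, n ≠ m → co g m • w m ≤ W (r n) := fun n m hnm => by
    rw [← hW, ← map_smul, ← sub_nonneg, ← map_sub]
    refine hW0 fun k => ?_
    change (0 : ℝ) ≤ co (r n) k - co g m * co (e m) k
    rw [hr, e_apply]
    have := hg k
    split_ifs <;> simp_all [le_of_lt]
  have hr0 : ∀ n, 0 ≤ r n := fun n k => by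
    change (0 : ℝ) ≤ co (r n) k
    rw [hr]; split_ifs; exacts [le_rfl, (hg k).le]
  refine ⟨fun n => (co g n)⁻¹ • (co g n • w n - W (r n))⁺, fun n => ⟨smul_nonneg
    (inv_nonneg.2 (hg n).le) (posPart_nonneg _), ?_, ?_⟩, fun n m hnm => smul_disj
      (posPart_nonneg _) (posPart_nonneg _) (le_antisymm ?_ (le_inf (posPart_nonneg _)
        (posPart_nonneg _))) (inv_nonneg.2 (hg n).le) (inv_nonneg.2 (hg m).le)⟩
  · refine le_trans ?_ (inv_smul_smul₀ (hg n).ne' _).le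
    exact smul_le_smul_of_nonneg_left (sup_le (sub_le_self _ (hW0 (hr0 n)))
      (smul_nonneg (hg n).le (h0 n))) (inv_nonneg.2 (hg n).le)
  · have hT : IsHom (Q.comp W) := W_hom _ (fun k => by simpa [hW] using IsHom.nonneg hQ (h0 k))
      fun n m hnm => by simpa [hW] using h n m hnm
    have h1 : co g n • e n ⊓ r n = 0 := lp.ext (funext fun k => by
      change min (co g n * co (e n) k) (co (r n) k) = 0
      rw [hr, e_apply]
      have := hg k
      split_ifs <;> simp_all [le_of_lt])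
    have h2 := IsHom.inf hT (co g n • e n) (r n)
    rw [h1, map_zero, map_smul, ContinuousLinearMap.comp_apply, hW,
      ContinuousLinearMap.comp_apply] at h2
    rw [map_smul, IsHom.posPart hQ, map_sub, map_smul, posPart_sub_disj h2.symm,
      inv_smul_smul₀ (hg n).ne']
  · refine le_trans (inf_le_inf (posPart_mono (sub_le_sub_left (hr1 n m hnm) _))
      (posPart_mono (sub_le_sub_left (hr1 m n hnm.symm) _))) ?_
    rw [← neg_sub (co g n • w n)]
    exact (posPart_inf_negPart_eq_zero _).le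

lemma l1_proj : Proj l1 := fun X Z Q hQ T hT ε hε => by
  rcases (norm_nonneg T).eq_or_lt with h | h
  · exact ⟨0, fun _ => by simp, by rw [norm_eq_zero.1 h.symm]; simp, by simp [← h]⟩
  choose w h0 h1 h2 using fun n => IsQuot.lift_pos hQ (IsHom.nonneg hT (e_nonneg n))
    (r := (1 + ε) * ‖T‖) ((T.le_opNorm _).trans_lt (by rw [e_norm]; nlinarith))
  obtain ⟨u, h3, h4⟩ := disj_lift hQ.1 w h0 _ (fun n => (h2 n).le) fun n m h => by
    rw [h1, h1, ← IsHom.inf hT, e_disj h, map_zero]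
  obtain ⟨W, h5, h6⟩ := exists_W u _ fun n => (norm_le_norm_of_abs_le_abs (by
    rw [abs_of_nonneg (h3 n).1, abs_of_nonneg (h0 n)]; exact (h3 n).2.1)).trans (h2 n).le
  exact ⟨W, W_hom W (fun k => h5 k ▸ (h3 k).1) fun n m h => by rw [h5, h5, h4 n m h],
    W_ext fun k => by rw [ContinuousLinearMap.comp_apply, h5, (h3 k).2.2, h1], h6⟩

lemma real_proj : Proj real := fun X Z Q hQ T hT ε hε => by
  rcases (norm_nonneg T).eq_or_lt with h | h
  · exact ⟨0, fun _ => by simp, by rw [norm_eq_zero.1 h.symm]; simp, by simp [← h]⟩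
  obtain ⟨w, h0, h1, h2⟩ := IsQuot.lift_pos hQ (IsHom.nonneg hT (show (0 : ℝ) ≤ 1 from zero_le_one))
    (r := (1 + ε) * ‖T‖) ((T.le_opNorm_of_le (c := 1) (norm_one (α := ℝ)).le).trans_lt
      (by nlinarith))
  refine ⟨ContinuousLinearMap.toSpanSingleton ℝ w, fun x : ℝ => ?_, ?_,
    (ContinuousLinearMap.norm_toSpanSingleton w).trans_le h2.le⟩
  · change |x| • w = |x • w|
    rw [abs_smul', abs_of_nonneg h0]
  · refine ContinuousLinearMap.ext fun x : ℝ => ?_
    change Q (x • w) = _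
    rw [map_smul, h1, ← map_smul]
    exact congrArg T (mul_one x)

end Pool.Agent.H26.BL1
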