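import Mathlib
import Pool.Agent.H26.BL1

set_option autoImplicit false

open Metric Filter Topology TopologicalSpace
open scoped BoundedContinuousFunction

namespace Pool.Agent.H26.BL2

open BL0 BL1

variable {X Y Z : BL}

lemma exists_supSem (φ : ℕ → X →L[ℝ] ℝ) (h0 : ∀ k x, 0 ≤ x → 0 ≤ φ k x) (C : ℝ) (hC0 : 0 ≤ C)
    (hC : ∀ k x, φ k x ≤ C * ‖x‖) : ∃ p : Seminorm ℝ X, (∀ k x, φ k |x| ≤ p x) ∧
      (∀ x r, (∀ k, φ k |x| ≤ r) → p x ≤ r) ∧ (∀ x, p x ≤ C * ‖x‖) ∧
        ∀ x y, |x| ≤ |y| → p x ≤ p y := by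
  have hb : ∀ x : X, BddAbove (Set.range fun k => φ k |x|) := fun x =>
    ⟨C * ‖|x|‖, by rintro _ ⟨k, rfl⟩; exact hC k _⟩
  have hm : ∀ k x y, x ≤ y → φ k x ≤ φ k y := fun k x y h => by
    simpa using h0 k _ (sub_nonneg.2 h)
  refine ⟨Seminorm.ofSMulLE (fun x => ⨆ k, φ k |x|) (by simp) (fun x y => ciSup_le fun k =>
    (hm k _ _ (abs_add_le x y)).trans ((map_add _ _ _).trans_le
      (add_le_add (le_ciSup (hb x) k) (le_ciSup (hb y) k)))) fun c x => ciSup_le fun k => ?_,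
    fun k x => le_ciSup (hb x) k, fun x r h => ciSup_le h, fun x => ciSup_le fun k =>
      norm_abs_eq_norm x ▸ hC k _, fun x y h => ciSup_mono (hb y) fun k => hm k _ _ h⟩
  rw [abs_smul', map_smul]
  exact mul_le_mul_of_nonneg_left (le_ciSup (hb x) k) (abs_nonneg c)

lemma l1_sep : SeparableSpace l1 := isSeparable_univ_iff.1
  (((Set.countable_range e).isSeparable.span (R := ℝ)).closure.mono fun a _ =>
    mem_closure_of_tendsto (hasSum_e a) (Eventually.of_forall fun _ => Submodule.sum_mem _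
      fun k _ => Submodule.smul_mem _ _ (Submodule.subset_span ⟨k, rfl⟩)))

lemma l1_unit : HasUnit l1 := by
  let g : l1 := ⟨fun k => (1 / 2 : ℝ) ^ k, memℓp_gen (by simpa using summable_geometric_two)⟩
  have hg : ∀ k, 0 < co g k := fun k => pow_pos one_half_pos k
  refine ⟨g, fun k => (hg k).le, fun a => mem_closure_of_tendsto (hasSum_e a)
    (Eventually.of_forall fun s => ?_)⟩
  refine Finset.sum_induction _ (fun x : l1 => ∃ c : ℝ, |x| ≤ c • g) ?_ ⟨0, by simp⟩ fun k _ =>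
    ⟨|co a k| / co g k, fun n => ?_⟩
  · rintro x y ⟨c, hc⟩ ⟨d, hd⟩
    exact ⟨c + d, (abs_add_le _ _).trans (by rw [add_smul]; exact add_le_add hc hd)⟩
  · change |co a k * co (e k) n| ≤ |co a k| / co g k * co g n
    have := hg k
    have := hg n
    rw [e_apply]
    split_ifs with h
    · rw [h, div_mul_cancel₀ _ (hg k).ne', mul_one]
    · rw [mul_zero, abs_zero]; positivity

lemma real_unit : HasUnit real :=
  ⟨(1 : ℝ), zero_le_one (α := ℝ), fun x : ℝ => subset_closure ⟨|x|, (mul_one |x|).ge⟩⟩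

theorem obstruction : ∃ (X : BL) (Q : X →L[ℝ] prod l1 real), SeparableSpace X ∧ IsQuot Q ∧
    ∀ S : prod l1 real →L[ℝ] X, IsHom S → Q.comp S = .id ℝ _ → 2 ≤ ‖S‖ := by
  have : ∀ k, ∃ W : l1 →L[ℝ] ℝ, (∀ n, W (e n) = if k ≤ n then 1 else 0) ∧ ‖W‖ ≤ 1 := fun k =>
    exists_W (X := real) (fun n => if k ≤ n then (1 : ℝ) else 0) 1 fun n => by split_ifs <;> simp
  choose τ h1 h2 using this
  have h3 : ∀ k a, HasSum (fun n => if k ≤ n then co a n else 0) (τ k a) := fun k a => by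
    simpa [h1] using hasSum_W (X := real) (τ k) a
  let Y := prod (bcf (OnePoint ℕ) real) l1
  let ev : OnePoint ℕ → Y →L[ℝ] ℝ := fun t =>
    (BoundedContinuousFunction.evalCLM ℝ t).comp (ContinuousLinearMap.fst ℝ (OnePoint ℕ →ᵇ ℝ) l1)
  let sn : Y →L[ℝ] l1 := ContinuousLinearMap.snd ℝ (OnePoint ℕ →ᵇ ℝ) l1
  let φ : ℕ → Y →L[ℝ] ℝ := fun k => ev k + (τ k).comp sn
  have h4 : ∀ k a, 0 ≤ a → (0 : ℝ) ≤ τ k a := fun k a ha =>
    W_nonneg (X := real) (τ k) (fun n => by rw [h1]; positivity) ha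
  have h5 : ∀ k (a : l1), τ k a ≤ ‖a‖ := fun k a =>
    (le_abs_self _).trans (((τ k).le_of_opNorm_le (h2 k) a).trans_eq (one_mul _))
  obtain ⟨p, p1, p2, p3, p4⟩ := exists_supSem φ (fun k x hx => add_nonneg (hx.1 k) (h4 k _ hx.2))
    2 zero_le_two fun k x => (add_le_add ((le_abs_self _).trans ((x.1.norm_coe_le_norm k).trans
      (le_max_left _ _))) ((h5 k _).trans (le_max_right _ _))).trans_eq (two_mul _).symm
  have hl : ∀ x : Y, Tendsto (fun k : ℕ => ev k x) atTop (𝓝 (ev OnePoint.infty x)) := fun x =>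
    (OnePoint.continuous_iff_from_nat _).1 x.1.continuous
  have p5 : ∀ x, ‖x‖ ≤ p x := fun x => by
    have : ∀ k : ℕ, ev k |x| ≤ p x := fun k =>
      (le_add_of_nonneg_right (h4 k _ (abs_nonneg x.2))).trans (p1 k x)
    refine max_le ((BoundedContinuousFunction.norm_le (apply_nonneg p x)).2 fun t => ?_) ?_
    · induction t using OnePoint.rec with
      | infty => exact le_of_tendsto' (hl |x|) this
      | coe k => exact this k
    · refine le_trans ?_ ((le_add_of_nonneg_left (abs_nonneg (ev (0 : ℕ) x))).trans (p1 0 x))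
      exact ((hasSum_norm x.2).unique (h3 0 |x.2|)).le
  let X := renorm Y p 2 (fun x => (p5 x).trans (by linarith [apply_nonneg p x])) p3 p4
  refine ⟨X, LinearMap.mkContinuous (sn.prod (ev OnePoint.infty)).toLinearMap 1 fun x =>
    (max_le (le_max_right _ _) ((x.1.norm_coe_le_norm _).trans (le_max_left _ _))).trans
      ((p5 x).trans_eq (one_mul _).symm), ?_, isQuot_of (fun x => rfl) (fun x =>
        (max_le (le_max_right _ _) ((x.1.norm_coe_le_norm _).trans (le_max_left _ _))).trans (p5 x))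
        fun z r hr => ?_, fun S hS hQ => ?_⟩
  · haveI := l1_sep
    haveI : SeparableSpace (OnePoint ℕ →ᵇ ℝ) := (ContinuousMap.isometryEquivBoundedOfCompact
      (OnePoint ℕ) ℝ).surjective.denseRange.separableSpace (IsometryEquiv.continuous _)
    haveI : SeparableSpace Y := inferInstanceAs (SeparableSpace ((OnePoint ℕ →ᵇ ℝ) × l1))
    let ι : Y →L[ℝ] X := LinearMap.mkContinuous (E := Y) (F := X) LinearMap.id 2 p3
    exact (show Function.Surjective ι from fun x => ⟨x, rfl⟩).denseRange.separableSpace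
      ι.continuous
  · have h6 : Tendsto (fun k => τ k |z.1|) atTop (𝓝 0) := by
      refine (tendsto_sum_nat_add (co |z.1|)).congr fun k => ?_
      have := (hasSum_nat_add_iff' k).2 (h3 k |z.1|)
      rw [Finset.sum_eq_zero fun i hi => if_neg (Finset.mem_range.1 hi).not_ge] at this
      simpa using this.tsum_eq
    obtain ⟨K, hK⟩ := eventually_atTop.1 (h6.eventually (gt_mem_nhds
      (sub_pos.2 ((le_max_right _ _).trans_lt hr))))
    let f : OnePoint ℕ → ℝ := OnePoint.rec z.2 fun k => if K ≤ k then z.2 else 0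
    refine ⟨(BoundedContinuousFunction.mkOfCompact ⟨f, (OnePoint.continuous_iff_from_nat _).2
      (tendsto_const_nhds.congr' ((eventually_ge_atTop K).mono fun k hk => (if_pos hk).symm))⟩, z.1),
      rfl, p2 _ _ fun k => ?_⟩
    change |if K ≤ k then z.2 else 0| + τ k |z.1| ≤ r
    split_ifs with h
    · exact (add_lt_of_lt_sub_left (hK k h)).le
    · rw [abs_zero, zero_add]
      exact (h5 _ _).trans ((norm_abs_eq_norm _).trans_le ((le_max_left _ _).trans hr.le))
  · have h7 : ∀ z, (sn (S z), ev OnePoint.infty (S z)) = z := fun z => congrArg (· z) hQ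
    have h12 : ∀ k (y : Y), 0 ≤ y → φ k y ≤ p y := fun k y hy => by
      simpa only [abs_of_nonneg hy] using p1 k y
    have h15 : ∀ t (a b : Y), a ≤ b → ev t a ≤ ev t b := fun t a b h => h.1 t
    have h8 : ∀ k : ℕ, ev k (S (0, (1 : ℝ))) + 1 ≤ ‖S‖ := fun k => by
      have h9 : 0 ≤ S (e k, (1 : ℝ)) := IsHom.nonneg hS ⟨e_nonneg k, zero_le_one (α := ℝ)⟩
      have h10 : S (0, (1 : ℝ)) ≤ S (e k, (1 : ℝ)) := IsHom.mono hS ⟨e_nonneg k, le_rfl⟩
      have h11 : φ k (S (e k, (1 : ℝ))) ≤ ‖S (e k, (1 : ℝ))‖ := h12 k _ h9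
      have h13 : ‖S (e k, (1 : ℝ))‖ ≤ ‖S‖ * 1 :=
        S.le_opNorm_of_le (max_le (e_norm k).le (norm_one (α := ℝ)).le)
      have h14 : ev k (S (0, (1 : ℝ))) ≤ ev k (S (e k, (1 : ℝ))) := h15 k _ _ h10
      have h16 : sn (S (e k, (1 : ℝ))) = e k := congrArg Prod.fst (h7 _)
      have h17 : ∀ y, φ k y = ev k y + τ k (sn y) := fun _ => rfl
      rw [h17, h16, h1, if_pos le_rfl] at h11
      linarith
    have := le_of_tendsto' ((hl _).add_const 1) h8
    rw [show ev OnePoint.infty _ = 1 from congrArg Prod.snd (h7 _)] at this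
    linarith

end Pool.Agent.H26.BL2
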