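import Mathlib
import Pool.Agent.H26.BL2

set_option autoImplicit false

open Metric Filter Topology

namespace Pool.Agent.H26.BL3

open BL0 BL1

lemma le_mul_sInf {S : Set ℝ} (hS : S.Nonempty) {a c : ℝ} (hc : 0 ≤ c) (h : ∀ r ∈ S, a ≤ c * r) :
    a ≤ c * sInf S := by
  rcases hc.eq_or_lt with rfl | hc
  · obtain ⟨r, hr⟩ := hS
    simpa using h r hr
  · exact (div_le_iff₀' hc).1 (le_csInf hS fun r hr => (div_le_iff₀' hc).2 (h r hr))

lemma exists_renorm (X : BL) (p : Seminorm ℝ X) (C : ℝ) (h1 : ∀ x, ‖x‖ ≤ C * p x)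
    (h2 : ∀ x, p x ≤ C * ‖x‖) (h3 : ∀ x y, |x| ≤ |y| → p x ≤ p y) :
    ∃ (P : BL) (ι : X ≃L[ℝ] P), (∀ x, ‖ι x‖ = p x) ∧ (∀ x y, ι x ≤ ι y ↔ x ≤ y) ∧
      IsHom ι.toContinuousLinearMap ∧ IsHom ι.symm.toContinuousLinearMap :=
  ⟨renorm X p C h1 h2 h3, LinearEquiv.toContinuousLinearEquivOfBounds
    (E := X) (F := renorm X p C h1 h2 h3) (LinearEquiv.refl ℝ X) C C h2 h1, fun _ => rfl,
    fun _ _ => Iff.rfl, fun _ => rfl, fun _ => rfl⟩

lemma exists_pW (X : BL) (W : l1 →L[ℝ] X) (hW : ∀ k, 0 ≤ W (e k)) : ∃ p : Seminorm ℝ X,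
    (∀ x, p x ≤ ‖x‖) ∧ (∀ k, p (W (e k)) ≤ 1) ∧ (∀ x y, |x| ≤ |y| → p x ≤ p y) ∧
    ∀ (Y : BL) (T : X →L[ℝ] Y), IsHom T → ∀ C, ‖T‖ ≤ C → (∀ k, ‖T (W (e k))‖ ≤ C) →
      ∀ x, ‖T x‖ ≤ C * p x := by
  let S : X → Set ℝ := fun x => {r | ∃ g t, 0 ≤ t ∧ |x| ≤ g + W t ∧ r = ‖g‖ + ‖t‖}
  have h1 : ∀ x, ‖x‖ ∈ S x := fun x => ⟨|x|, 0, le_rfl, by simp, by simp [norm_abs_eq_norm]⟩
  have h2 : ∀ x, BddBelow (S x) := fun x => ⟨0, by rintro _ ⟨g, t, -, -, rfl⟩; positivity⟩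
  refine ⟨Seminorm.ofSMulLE (fun x => sInf (S x)) (le_antisymm ((csInf_le (h2 0) (h1 0)).trans_eq
    norm_zero) (le_csInf ⟨_, h1 0⟩ (by rintro _ ⟨g, t, -, -, rfl⟩; positivity))) (fun x y => ?_)
    fun c x => le_mul_sInf ⟨_, h1 x⟩ (norm_nonneg c) ?_, fun x => csInf_le (h2 x) (h1 x),
    fun k => csInf_le (h2 _) ⟨0, e k, e_nonneg k, by simp [abs_of_nonneg (hW k)], by simp [e_norm]⟩,
    fun x y h => csInf_le_csInf (h2 x) ⟨_, h1 y⟩ fun r ⟨g, t, h3, h4, h5⟩ =>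
      ⟨g, t, h3, h.trans h4, h5⟩, fun Y T hT C hC hC' x =>
        le_mul_sInf ⟨_, h1 x⟩ ((norm_nonneg _).trans hC) ?_⟩
  · refine sub_le_iff_le_add.1 (le_csInf ⟨_, h1 x⟩ ?_)
    rintro _ ⟨g, t, h3, h4, rfl⟩
    refine sub_le_comm.1 (le_csInf ⟨_, h1 y⟩ ?_)
    rintro _ ⟨g', t', h5, h6, rfl⟩
    have := csInf_le (h2 (x + y)) ⟨g + g', t + t', add_nonneg h3 h5, (abs_add_le _ _).trans
      ((add_le_add h4 h6).trans_eq (by rw [map_add]; abel)), rfl⟩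
    linarith [norm_add_le g g', norm_add_le t t']
  · rintro _ ⟨g, t, h3, h4, rfl⟩
    refine csInf_le (h2 _) ⟨|c| • g, |c| • t, smul_nonneg (abs_nonneg c) h3, ?_, by
      simp [norm_smul, mul_add]⟩
    rw [abs_smul', map_smul, ← smul_add]
    exact smul_le_smul_of_nonneg_left h4 (abs_nonneg c)
  · rintro _ ⟨g, t, h3, h4, rfl⟩
    have h5 := IsHom.mono hT h4
    rw [hT, map_add] at h5
    have h6 := (T.comp W).le_of_opNorm_le (W_norm _ hC') t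
    calc _ ≤ ‖T g + T (W t)‖ := norm_le_norm_of_abs_le_abs (h5.trans (le_abs_self _))
      _ ≤ C * ‖g‖ + C * ‖t‖ := norm_add_le_of_le (T.le_of_opNorm_le hC g) h6
      _ = _ := (mul_add _ _ _).symm

lemma l1_lub (s : Set l1) (h1 : s.Nonempty) (h2 : BddAbove s) : ∃ x, IsLUB s x := by
  obtain ⟨a, ha⟩ := h1
  obtain ⟨b, hb⟩ := h2
  have h3 : ∀ k, BddAbove ((co · k) '' s) := fun k => ⟨co b k, by
    rintro _ ⟨x, hx, rfl⟩; exact hb hx k⟩
  have h4 : ∀ b ∈ upperBounds s, ∀ k, sSup ((co · k) '' s) ≤ co b k := fun b hb k =>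
    csSup_le ⟨_, a, ha, rfl⟩ (by rintro _ ⟨x, hx, rfl⟩; exact hb hx k)
  refine ⟨⟨fun k => sSup ((co · k) '' s), ((lp.memℓp (show L from a)).norm.add
    (lp.memℓp (show L from b)).norm).mono fun k => abs_le.2 ⟨?_, ?_⟩⟩,
    fun x hx k => le_csSup (h3 k) ⟨x, hx, rfl⟩, fun b hb k => h4 b hb k⟩
  · have := le_csSup (h3 k) ⟨a, ha, rfl⟩
    change -(|co a k| + |co b k|) ≤ _
    linarith [neg_abs_le (co a k), abs_nonneg (co b k)]
  · change _ ≤ |co a k| + |co b k|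
    linarith [h4 b hb k, le_abs_self (co b k), abs_nonneg (co a k)]

theorem path : ∃ (P : BL) (a : ℕ → P), Proj P ∧
    (∀ s : Set P, s.Nonempty → BddAbove s → ∃ x, IsLUB s x) ∧ LinearIndependent ℝ a ∧
    (∀ k, 0 ≤ a k) ∧ (∀ k x, 0 ≤ x → x ≤ a k → ∃ c : ℝ, x = c • a k) ∧ (∀ k, 1 ≤ ‖a k‖) ∧
    ∀ k, ‖a k + a (k + 1)‖ ≤ 1 := by
  obtain ⟨W, hW, hW'⟩ := exists_W (fun k => e k + e (k + 1)) 2 fun k =>
    (norm_add_le _ _).trans (by rw [e_norm, e_norm]; norm_num)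
  obtain ⟨p, h1, h2, h3, h4⟩ := exists_pW l1 W fun k =>
    hW k ▸ add_nonneg (e_nonneg _) (e_nonneg _)
  have h5 := h4 l1 (.id ℝ _) (fun _ => rfl) 2 (ContinuousLinearMap.norm_id_le.trans one_le_two)
    fun k => (W.le_of_opNorm_le hW' _).trans (by rw [e_norm, mul_one])
  obtain ⟨P, ι, i1, i2, i3, i4⟩ := exists_renorm l1 p 2 h5
    (fun x => (h1 x).trans (by linarith [norm_nonneg x])) h3
  let c : ℕ → l1 →L[ℝ] real := fun k => lp.evalCLM ℝ (fun _ : ℕ => ℝ) 1 k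
  have hc : ∀ k n, c k (e n) = if k = n then 1 else 0 := fun _ _ => e_apply _ _
  refine ⟨P, fun k => ι (e k), fun X Z Q hQ T hT ε hε => ?_, fun s hs hs' => ?_, ?_,
    fun k => IsHom.nonneg i3 (e_nonneg k), fun k x h0 h => ?_, fun k => ?_,
    fun k => by rw [← map_add, i1, ← hW]; exact h2 k⟩
  · rcases (norm_nonneg T).eq_or_lt with h | h
    · exact ⟨0, fun _ => by simp, by rw [norm_eq_zero.1 h.symm]; simp, by simp [← h]⟩
    have hT' := IsHom.comp hT i3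
    set U := T.comp ι.toContinuousLinearMap
    have hU : ∀ n, 0 ≤ U (e n) := fun n => IsHom.nonneg hT' (e_nonneg n)
    choose y y0 y1 y2 using fun k => IsQuot.lift_pos hQ (add_nonneg (hU k) (hU (k + 1)))
      (r := (1 + ε) * ‖T‖) (((congrArg _ ((map_add U _ _).symm.trans (congrArg U (hW k).symm))).trans_le
        (T.le_opNorm_of_le ((i1 _).trans_le (h2 k)))).trans_lt (by nlinarith))
    choose w w0 w1 w2 using fun n => IsQuot.lift_pos hQ (hU n) (lt_add_one _)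
    have h6 : ∀ n, Q (w n ⊓ y n ⊓ y (n - 1)) = U (e n) := fun n => by
      rw [IsHom.inf hQ.1, IsHom.inf hQ.1, w1, y1, y1, inf_eq_left.2 (le_add_of_nonneg_right (hU _)),
        inf_eq_left]
      rcases n with _ | n
      exacts [le_add_of_nonneg_right (hU _), le_add_of_nonneg_left (hU _)]
    have h7 : ∀ {x : X} k, 0 ≤ x → x ≤ y k → ‖x‖ ≤ (1 + ε) * ‖T‖ := fun k h0 h =>
      (norm_le_norm_of_abs_le_abs (by rwa [abs_of_nonneg h0, abs_of_nonneg (y0 k)])).trans (y2 k).le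
    obtain ⟨u, h8, h9⟩ := disj_lift hQ.1 (fun n => w n ⊓ y n ⊓ y (n - 1))
      (fun n => le_inf (le_inf (w0 n) (y0 n)) (y0 _)) _ (fun n => h7 _
        (le_inf (le_inf (w0 n) (y0 n)) (y0 _)) inf_le_right) fun n m h => by
          rw [h6, h6, ← IsHom.inf hT', e_disj h, map_zero]
    obtain ⟨S, s1, s2⟩ := exists_W u _ fun n => h7 _ (h8 n).1 ((h8 n).2.1.trans inf_le_right)
    have s3 : IsHom S := W_hom S (fun k => s1 k ▸ (h8 k).1) fun n m h => by rw [s1, s1, h9 n m h]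
    have s4 : Q.comp S = U := W_ext fun k => by
      rw [ContinuousLinearMap.comp_apply, s1, (h8 k).2.2, h6]
    refine ⟨S.comp ι.symm.toContinuousLinearMap, IsHom.comp s3 i4, by
      rw [← ContinuousLinearMap.comp_assoc, s4]; ext; simp [U], ContinuousLinearMap.opNorm_le_bound _
        (by positivity) fun x => (h4 X S s3 _ s2 (fun k => ?_) _).trans_eq (by simp [← i1])⟩
    rw [hW, map_add, s1, s1]
    refine h7 k (add_nonneg (h8 _).1 (h8 _).1) ?_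
    rw [← inf_add_sup, h9 _ _ k.succ_ne_self.symm, zero_add]
    exact sup_le ((h8 k).2.1.trans (inf_le_left.trans inf_le_right))
      ((h8 (k + 1)).2.1.trans inf_le_right)
  · let o : l1 ≃o P := ⟨ι.toEquiv, i2 _ _⟩
    obtain ⟨x, hx⟩ := l1_lub (o.symm '' s) (hs.image _) (o.symm.monotone.map_bddAbove hs')
    exact ⟨o x, o.symm.isLUB_image.1 hx⟩
  · refine linearIndependent_iff'.2 fun s g hg k hk => ?_
    have := congrArg (fun x => c k (ι.symm x)) hg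
    simpa [hc, hk] using this
  · obtain ⟨x, rfl⟩ := ι.surjective x
    rw [← map_zero ι, i2] at h0
    refine ⟨co x k, (congrArg ι (lp.ext (funext fun n => ?_))).trans (map_smul ι _ _)⟩
    change co x n = co x k * co (e k) n
    have h6 : co x n ≤ co (e k) n := (i2 _ _).1 h n
    have h7 : 0 ≤ co x n := h0 n
    rw [e_apply] at h6 ⊢
    split_ifs at h6 ⊢ with h8
    · rw [h8, mul_one]
    · rw [mul_zero]; exact le_antisymm h6 h7
  · have := h4 real (c k) (fun _ => rfl) 1 (W_norm _ fun n => by rw [hc]; split_ifs <;> simp)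
      (fun n => by rw [hW, map_add, hc, hc]; split_ifs <;> simp_all) (e k)
    simpa [hc, i1] using this

end Pool.Agent.H26.BL3
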