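import Mathlib
import Pool.Agent.H26.BL3

set_option autoImplicit false

open Metric Filter Topology

namespace Pool.Agent.H26.BL4

open BL0 BL1 BL3

section VL

variable {V : Type} [AddCommGroup V] [Module ℝ V] [Lattice V] [IsOrderedAddMonoid V]
  [PosSMulMono ℝ V]

def Good (q : V → ℝ) : Prop := (∀ x y, q (x + y) ≤ q x + q y) ∧
  (∀ c > 0, ∀ x, q (c • x) ≤ c * q x) ∧ (∀ x y, q (x ⊔ y) ≤ max (q x) (q y)) ∧ Monotone q

lemma good_inf (S : V → Set ℝ) (hn : ∀ x, (S x).Nonempty) (hb : ∀ x, BddBelow (S x))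
    (h1 : ∀ x y, ∀ r ∈ S x, ∀ s ∈ S y, ∃ t ∈ S (x + y), t ≤ r + s)
    (h2 : ∀ c > 0, ∀ x, ∀ r ∈ S x, ∃ t ∈ S (c • x), t ≤ c * r)
    (h3 : ∀ x y, ∀ r ∈ S x, ∀ s ∈ S y, ∃ t ∈ S (x ⊔ y), t ≤ max r s)
    (h4 : ∀ x y, x ≤ y → ∀ r ∈ S y, ∃ t ∈ S x, t ≤ r) : Good fun x => sInf (S x) := by
  have key : ∀ {x r}, (∃ t ∈ S x, t ≤ r) → sInf (S x) ≤ r := fun ⟨t, h, h'⟩ =>
    (csInf_le (hb _) h).trans h'
  refine ⟨fun x y => sub_le_iff_le_add.1 (le_csInf (hn x) fun r hr => sub_le_comm.1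
    (le_csInf (hn y) fun s hs => sub_le_iff_le_add'.2 (key (h1 x y r hr s hs)))),
    fun c hc x => le_mul_sInf (hn x) hc.le fun r hr => key (h2 c hc x r hr), fun x y =>
    le_of_forall_gt_imp_ge_of_dense fun a ha => ?_,
    fun x y h => le_csInf (hn y) fun r hr => key (h4 x y h r hr)⟩
  obtain ⟨r, hr, hr'⟩ := exists_lt_of_csInf_lt (hn x) (max_lt_iff.1 ha).1
  obtain ⟨s, hs, hs'⟩ := exists_lt_of_csInf_lt (hn y) (max_lt_iff.1 ha).2
  exact (key (h3 x y r hr s hs)).trans (max_le hr'.le hs'.le)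

lemma Good.zero {q : V → ℝ} (h : Good q) : q 0 = 0 := by
  have h1 := h.1 0 0
  have h2 := h.2.1 (1 / 2) one_half_pos 0
  rw [add_zero] at h1
  rw [smul_zero] at h2
  linarith

lemma Good.smul {q : V → ℝ} (h : Good q) {c : ℝ} (hc : 0 ≤ c) (x : V) : q (c • x) = c * q x := by
  rcases hc.eq_or_lt with rfl | hc
  · simp [h.zero]
  have := h.2.1 c⁻¹ (inv_pos.2 hc) (c • x)
  rw [inv_smul_smul₀ hc.ne', le_inv_mul_iff₀ hc] at this
  exact (h.2.1 c hc x).antisymm this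

lemma Good.neg {q : V → ℝ} (h : Good q) (x : V) : -q (-x) ≤ q x := by
  have := h.1 x (-x)
  rw [add_neg_cancel, h.zero] at this
  linarith

lemma Good.shift {q : V → ℝ} (h : Good q) (z : V) :
    ∃ q' : V → ℝ, Good q' ∧ q' ≤ q ∧ q' (-z) ≤ -q z := by
  let S : V → Set ℝ := fun x => {r | ∃ t, 0 ≤ t ∧ r = q (x + t • z) - t * q z}
  have hb : ∀ x, BddBelow (S x) := fun x => ⟨-q (-x), by
    rintro _ ⟨t, ht, rfl⟩
    have := h.1 (x + t • z) (-x)
    rw [add_neg_cancel_comm, h.smul ht] at this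
    linarith⟩
  have ha : ∀ x s t, s ≤ t → q (x + t • z) - t * q z ≤ q (x + s • z) - s * q z := fun x s t hst => by
    have := h.1 (x + s • z) ((t - s) • z)
    rw [h.smul (sub_nonneg.2 hst), add_assoc, ← add_smul, add_sub_cancel] at this
    linarith
  refine ⟨_, good_inf S (fun x => ⟨_, 0, le_rfl, rfl⟩) hb ?_ ?_ ?_ ?_,
    fun x => csInf_le (hb x) ⟨0, le_rfl, by simp⟩, csInf_le (hb _) ⟨1, zero_le_one, by simp [h.zero]⟩⟩
  · rintro x y _ ⟨s, hs, rfl⟩ _ ⟨t, ht, rfl⟩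
    refine ⟨_, ⟨s + t, by positivity, rfl⟩, ?_⟩
    have := h.1 (x + s • z) (y + t • z)
    rw [add_add_add_comm, ← add_smul] at this
    linarith
  · rintro c hc x _ ⟨t, ht, rfl⟩
    refine ⟨_, ⟨c * t, by positivity, rfl⟩, ?_⟩
    rw [mul_smul, ← smul_add, h.smul hc.le]
    linarith
  · rintro x y _ ⟨s, hs, rfl⟩ _ ⟨t, ht, rfl⟩
    refine ⟨_, ⟨max s t, by positivity, rfl⟩, ?_⟩
    rw [sup_add]
    refine (sub_le_sub_right (h.2.2.1 _ _) _).trans ?_
    rw [← max_sub_sub_right]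
    exact max_le_max (ha x _ _ (le_max_left _ _)) (ha y _ _ (le_max_right _ _))
  · rintro x y hxy _ ⟨t, ht, rfl⟩
    exact ⟨_, ⟨t, ht, rfl⟩, sub_le_sub_right (h.2.2.2 (add_le_add_left hxy _)) _⟩

lemma Good.exists_hom {p : V → ℝ} (h : Good p) (a : V) : ∃ φ : V →ₗ[ℝ] ℝ,
    (∀ x y, φ (x ⊔ y) = max (φ x) (φ y)) ∧ (∀ x, φ x ≤ p x) ∧ p a ≤ φ a := by
  obtain ⟨p', h1, h2, h3⟩ := h.shift a
  obtain ⟨m, -, hm⟩ := zorn_le_nonempty₀ (α := (V → ℝ)ᵒᵈ) {q | Good q ∧ ∀ x, q x ≤ p' x}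
    (fun c hc hc' y hy => by
      have hb : ∀ x, BddBelow ((· x) '' c) := fun x => ⟨-p' (-x), by
        rintro _ ⟨q, hq, rfl⟩
        linarith [(hc hq).1.neg x, (hc hq).2 (-x)]⟩
      have hd : ∀ q ∈ c, ∀ r ∈ c, ∃ s ∈ c, (∀ x, s x ≤ q x) ∧ ∀ x, s x ≤ r x := fun q hq r hr => by
        rcases hc'.total hq hr with h | h
        exacts [⟨r, hr, h, fun _ => le_rfl⟩, ⟨q, hq, fun _ => le_rfl, h⟩]
      refine ⟨fun x => sInf ((· x) '' c), ⟨good_inf _ (fun x => ⟨_, y, hy, rfl⟩) hb ?_ ?_ ?_ ?_,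
        fun x => (csInf_le (hb x) ⟨y, hy, rfl⟩).trans ((hc hy).2 x)⟩,
        fun z hz x => csInf_le (hb x) ⟨z, hz, rfl⟩⟩
      · rintro x y _ ⟨q, hq, rfl⟩ _ ⟨r, hr, rfl⟩
        obtain ⟨s, hs, h1, h2⟩ := hd q hq r hr
        exact ⟨_, ⟨s, hs, rfl⟩, ((hc hs).1.1 x y).trans (add_le_add (h1 x) (h2 y))⟩
      · rintro t ht x _ ⟨q, hq, rfl⟩
        exact ⟨_, ⟨q, hq, rfl⟩, (hc hq).1.2.1 t ht x⟩
      · rintro x y _ ⟨q, hq, rfl⟩ _ ⟨r, hr, rfl⟩
        obtain ⟨s, hs, h1, h2⟩ := hd q hq r hr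
        exact ⟨_, ⟨s, hs, rfl⟩, ((hc hs).1.2.2.1 x y).trans (max_le_max (h1 x) (h2 y))⟩
      · rintro x y hxy _ ⟨q, hq, rfl⟩
        exact ⟨_, ⟨q, hq, rfl⟩, (hc hq).1.2.2.2 hxy⟩) p' ⟨h1, fun _ => le_rfl⟩
  have hg := hm.prop.1
  have hn : ∀ z, m (-z) = -m z := fun z => by
    obtain ⟨q, h4, h5, h6⟩ := hg.shift z
    have := hm.le_of_ge (show q ∈ {q | Good q ∧ ∀ x, q x ≤ p' x} from
      ⟨h4, fun x => (h5 x).trans (hm.prop.2 x)⟩) h5 (-z)
    exact le_antisymm (le_trans this h6) (neg_le.1 (hg.neg z))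
  refine ⟨⟨⟨m, fun x y => (hg.1 x y).antisymm ?_⟩, fun c x => ?_⟩, fun x y => (hg.2.2.1 x y).antisymm
    (max_le (hg.2.2.2 le_sup_left) (hg.2.2.2 le_sup_right)), fun x => (hm.prop.2 x).trans (h2 x), ?_⟩
  · have := hg.1 (-x) (-y)
    rw [← neg_add, hn, hn, hn] at this
    linarith
  · rcases le_total 0 c with hc | hc
    · exact hg.smul hc x
    · have := hg.smul (neg_nonneg.2 hc) x
      rw [neg_smul, hn] at this
      change m _ = c * m x
      linarith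
  · have := hm.prop.2 (-a)
    rw [hn] at this
    change _ ≤ m a
    linarith

def St (u : V) (φ : V →ₗ[ℝ] ℝ) : Prop := (∀ x y, φ (x ⊔ y) = max (φ x) (φ y)) ∧ φ u = 1

lemma separate {u : V} (hu : 0 ≤ u) (h1 : ∀ x, ∃ c : ℝ, |x| ≤ c • u)
    (h2 : ∀ x, (∀ ε > (0 : ℝ), x ≤ ε • u) → x ≤ 0) {a b : V} (h : ∀ φ, St u φ → φ a ≤ φ b) :
    a ≤ b := by
  have hm : ∀ {s t : ℝ}, s ≤ t → s • u ≤ t • u := fun {s t} hst => by
    rw [← sub_nonneg, ← sub_smul]; exact smul_nonneg (sub_nonneg.2 hst) hu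
  by_cases h0 : u ≤ 0
  · obtain ⟨c, hc⟩ := h1 (a - b)
    rw [le_antisymm h0 hu, smul_zero] at hc
    exact sub_nonpos.1 ((le_abs_self _).trans hc)
  let S : V → Set ℝ := fun x => {t | x ≤ t • u}
  have hn : ∀ x, (S x).Nonempty := fun x => (h1 x).imp fun _ => (le_abs_self x).trans
  have hb : ∀ x, BddBelow (S x) := fun x => by
    obtain ⟨c, hc⟩ := hn (-x)
    refine ⟨-c, fun t ht => not_lt.1 fun hlt => h0 ?_⟩
    have h3 := add_le_add ht hc
    rw [add_neg_cancel, ← add_smul] at h3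
    have h4 := smul_nonneg (inv_nonneg.2 (show 0 ≤ -(t + c) by linarith)) h3
    rwa [smul_smul, inv_neg, neg_mul, inv_mul_cancel₀ (by linarith), neg_smul, one_smul,
      neg_nonneg] at h4
  obtain ⟨φ, h3, h4, h5⟩ := (good_inf S hn hb
    (fun x y r hr s hs => ⟨r + s, (add_le_add hr hs).trans_eq (add_smul _ _ _).symm, le_rfl⟩)
    (fun c hc x r hr => ⟨c * r, (smul_le_smul_of_nonneg_left hr hc.le).trans_eq (smul_smul _ _ _),
      le_rfl⟩)
    (fun x y r hr s hs => ⟨_, sup_le (le_trans hr (hm (le_max_left _ _)))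
      (le_trans hs (hm (le_max_right _ _))), le_rfl⟩)
    fun x y hxy r hr => ⟨r, hxy.trans hr, le_rfl⟩).exists_hom (a - b)
  have h6 := (h4 u).trans (csInf_le (hb u) (one_smul ℝ u).ge)
  have h7 := (h4 (-u)).trans (csInf_le (hb _) (neg_one_smul ℝ u).ge)
  rw [map_neg] at h7
  have h8 := h φ ⟨h3, by linarith⟩
  rw [map_sub] at h5
  refine sub_nonpos.1 (h2 _ fun ε hε => ?_)
  obtain ⟨t, ht, ht'⟩ := exists_lt_of_csInf_lt (hn (a - b)) (show _ < ε by linarith)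
  exact le_trans ht (hm ht'.le)

lemma St.inf {u : V} {φ : V →ₗ[ℝ] ℝ} (h : St u φ) (x y : V) : φ (x ⊓ y) = min (φ x) (φ y) := by
  have := h.1 (-x) (-y)
  rw [← neg_inf, map_neg, map_neg, map_neg, max_neg_neg, neg_inj] at this
  exact this

lemma St.abs {u : V} {φ : V →ₗ[ℝ] ℝ} (h : St u φ) (x : V) : φ |x| = |φ x| := by
  rw [_root_.abs, h.1, map_neg, abs_eq_max_neg]

lemma St.mono {u : V} {φ : V →ₗ[ℝ] ℝ} (h : St u φ) {x y : V} (hxy : x ≤ y) : φ x ≤ φ y := by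
  rw [← sup_eq_right.2 hxy, h.1]; exact le_max_left _ _

lemma approx_mul (u v x : V) (h0 : 0 ≤ v) (h1 : v ≤ u) (hx : 0 ≤ x) (c : ℝ) (hc : x ≤ c • u)
    (n : ℕ) : ∃ y : V, ∀ φ, St u φ → |φ y - φ v * φ x| ≤ 2 * c / (n + 1) := by
  have hn : (0 : ℝ) < n + 1 := by positivity
  have key : ∀ m : ℕ, ∃ y : V, ∀ φ, St u φ → φ y ≤ φ v * φ x ∧ 0 ≤ φ y ∧
      ∀ i < m, (i + 1 : ℝ) / (n + 1) ≤ φ v → i / (n + 1) * φ x ≤ φ y := fun m => by
    induction m with
    | zero => exact ⟨0, fun φ h => ⟨by simpa using (mul_nonneg (show 0 ≤ φ v by simpa using h.mono h0)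
        (show 0 ≤ φ x by simpa using h.mono hx)), by simp⟩⟩
    | succ m ih =>
      obtain ⟨y, hy⟩ := ih
      refine ⟨y ⊔ ((m / (n + 1) : ℝ) • x ⊓ (m * c) • (v - (m / (n + 1) : ℝ) • u)), fun φ h => ?_⟩
      obtain ⟨h2, h3, h4⟩ := hy φ h
      have h5 : 0 ≤ φ x := by simpa using h.mono hx
      have h6 : φ x ≤ c := by simpa [h.2] using h.mono hc
      have h7 : 0 ≤ φ v := by simpa using h.mono h0
      simp only [h.1, h.inf, map_smul, map_sub, h.2, smul_eq_mul, mul_one]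
      refine ⟨max_le h2 ?_, le_max_of_le_left h3, fun i hi hi' => ?_⟩
      · rcases le_total (m / (n + 1) : ℝ) (φ v) with h8 | h8
        · exact min_le_of_left_le (by gcongr)
        · exact min_le_of_right_le ((mul_nonpos_of_nonneg_of_nonpos (mul_nonneg m.cast_nonneg
            (h5.trans h6)) (sub_nonpos.2 h8)).trans (by positivity))
      · rcases (Nat.lt_succ_iff.1 hi).eq_or_lt with rfl | hi
        · refine le_max_of_le_right (le_min le_rfl ?_)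
          rw [add_div] at hi'
          calc _ ≤ (i * c) * (1 / (n + 1)) := by
                rw [mul_right_comm, mul_one_div]; gcongr
            _ ≤ _ := mul_le_mul_of_nonneg_left (by linarith) (mul_nonneg i.cast_nonneg (h5.trans h6))
        · exact le_max_of_le_left (h4 i hi hi')
  obtain ⟨y, hy⟩ := key (n + 1)
  refine ⟨y, fun φ h => ?_⟩
  obtain ⟨h2, h3, h4⟩ := hy φ h
  have h5 : 0 ≤ φ x := by simpa using h.mono hx
  have h6 : φ x ≤ c := by simpa [h.2] using h.mono hc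
  have h7 : 0 ≤ φ v := by simpa using h.mono h0
  have h8 : φ v ≤ 1 := by simpa [h.2] using h.mono h1
  rw [abs_sub_comm, abs_of_nonneg (sub_nonneg.2 h2)]
  have h9 := Nat.lt_floor_add_one (φ v * (n + 1))
  have h10 := Nat.floor_le (mul_nonneg h7 hn.le)
  rw [le_div_iff₀ hn]
  rcases h11 : ⌊φ v * (n + 1)⌋₊ with _ | i
  · rw [h11] at h9
    push_cast at h9
    nlinarith [mul_nonneg h3 hn.le]
  · rw [h11] at h9 h10
    push_cast at h9 h10
    have h12 := h4 i (by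
      have : (i : ℝ) < n + 1 := by nlinarith
      exact_mod_cast this) ((div_le_iff₀ hn).2 h10)
    rw [div_mul_eq_mul_div, div_le_iff₀ hn] at h12
    nlinarith

end VL

lemma exists_mul (X : BL) (u v : X) (h0 : 0 ≤ v) (h1 : v ≤ u)
    (hd : Dense {x | ∃ c : ℝ, |x| ≤ c • u}) : ∃ M : X →L[ℝ] X, IsHom M ∧ (∀ x, |M x| ≤ |x|) ∧
      (∀ (c : ℝ) x, |x| ≤ c • u → |x - M x| ≤ c • (u - v)) ∧
      ∀ (c : ℝ) x, 0 ≤ c → 0 ≤ x → x ≤ u → v ≤ (u - c • x)⁺ → c • M x ≤ u := by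
  have hu := h0.trans h1
  let S : Submodule ℝ X :=
    { carrier := {x | ∃ c : ℝ, |x| ≤ c • u}
      add_mem' := fun ⟨c, hc⟩ ⟨d, hd⟩ =>
        ⟨c + d, (abs_add_le _ _).trans (by rw [add_smul]; exact add_le_add hc hd)⟩
      zero_mem' := ⟨0, by simp⟩
      smul_mem' := fun c x ⟨d, hd⟩ => ⟨|c| * d, by
        rw [abs_smul', mul_smul]; exact smul_le_smul_of_nonneg_left hd (abs_nonneg c)⟩ }
  have hs : ∀ x ∈ S, |x| ∈ S := fun x ⟨c, hc⟩ => ⟨c, by rwa [abs_abs]⟩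
  letI : Lattice S := Subtype.lattice
    (fun x y hx hy => by
      rw [sup_eq_half_smul_add_add_abs_sub ℝ]
      exact S.smul_mem _ (S.add_mem (S.add_mem hx hy) (hs _ (S.sub_mem hy hx))))
    fun x y hx hy => by
      rw [inf_eq_half_smul_add_sub_abs_sub ℝ]
      exact S.smul_mem _ (S.sub_mem (S.add_mem hx hy) (hs _ (S.sub_mem hy hx)))
  haveI : IsOrderedAddMonoid S :=
    { add_le_add_left := fun a b h c => add_le_add_left (show (a : X) ≤ b from h) c.1 }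
  haveI : PosSMulMono ℝ S := ⟨fun c hc a b h => show c • (a : X) ≤ c • (b : X) from
    smul_le_smul_of_nonneg_left (show (a : X) ≤ b from h) hc⟩
  have hm : ∀ {x : X}, 0 ≤ x → x ≤ u → x ∈ S := fun h h' => ⟨1, by rwa [abs_of_nonneg h, one_smul]⟩
  let U : S := ⟨u, hm hu le_rfl⟩
  let V : S := ⟨v, hm h0 h1⟩
  have sep : ∀ {a b : S}, (∀ φ, St U φ → φ a ≤ φ b) → a ≤ b := fun h =>
    separate (u := U) hu (fun x => x.2) (fun x hx => show (x : X) ≤ 0 from ge_of_tendsto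
      (f := fun n : ℕ => (1 / (n + 1 : ℝ)) • u) (x := atTop) (by
        simpa using (tendsto_one_div_add_atTop_nhds_zero_nat (𝕜 := ℝ)).smul_const u)
      (Eventually.of_forall fun n => hx _ Nat.one_div_pos_of_nat)) h
  have ex1 : ∀ x : S, 0 ≤ x → ∃ y : S, ∀ φ, St U φ → φ y = φ V * φ x := fun x hx => by
    obtain ⟨c, hc⟩ := x.2
    choose y hy using approx_mul U V x h0 h1 hx c ((le_abs_self _).trans hc)
    have h2 : Tendsto (fun n : ℕ => 2 * c / (n + 1)) atTop (𝓝 0) := by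
      simpa [div_eq_mul_inv] using tendsto_one_div_add_atTop_nhds_zero_nat.const_mul (2 * c)
    have h3 : ∀ n m, |(y n : X) - y m| ≤ (2 * c / (n + 1) + 2 * c / (m + 1)) • u := fun n m =>
      sep (a := |y n - y m|) (b := (2 * c / (n + 1) + 2 * c / (m + 1)) • U) fun φ h => by
        rw [h.abs, map_sub, map_smul, h.2, smul_eq_mul, mul_one]
        exact (abs_sub_le _ _ _).trans (add_le_add (hy n φ h) ((abs_sub_comm _ _).trans_le (hy m φ h)))
    obtain ⟨z, hz⟩ := cauchySeq_tendsto_of_complete (u := fun n => (y n : X))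
      (cauchySeq_iff_tendsto_dist_atTop_0.2 (squeeze_zero (fun _ => dist_nonneg) (fun n =>
        (dist_eq_norm _ _).trans_le (norm_le_norm_of_abs_le_abs ((h3 n.1 n.2).trans
          (le_abs_self _)))) (by
          simpa using (((h2.comp (prod_atTop_atTop_eq (α := ℕ) (β := ℕ) ▸ tendsto_fst)).add
            (h2.comp (prod_atTop_atTop_eq (α := ℕ) (β := ℕ) ▸ tendsto_snd))).smul_const u).norm)))
    have h4 : ∀ n, |(y n : X) - z| ≤ (2 * c / (n + 1)) • u := fun n =>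
      le_of_tendsto_of_tendsto' (((continuous_id.sup continuous_neg).tendsto _).comp
        (hz.const_sub (y n : X))) (by simpa using (h2.const_add (2 * c / (n + 1))).smul_const u) (h3 n)
    have h5 : z ∈ S := by simpa using S.sub_mem (y 0).2 ⟨_, h4 0⟩
    refine ⟨⟨z, h5⟩, fun φ h => eq_of_abs_sub_nonpos (ge_of_tendsto' (by simpa using h2.add h2)
      fun n => (abs_sub_le _ (φ (y n)) _).trans (add_le_add ?_ (hy n φ h)))⟩
    have := h.mono (show |y n - ⟨z, h5⟩| ≤ (2 * c / (n + 1)) • U from h4 n)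
    rwa [h.abs, map_sub, map_smul, h.2, smul_eq_mul, mul_one, abs_sub_comm] at this
  have ex2 : ∀ x : S, ∃ y : S, ∀ φ, St U φ → φ y = φ V * φ x := fun x => by
    obtain ⟨y, hy⟩ := ex1 _ (posPart_nonneg x)
    obtain ⟨z, hz⟩ := ex1 _ (negPart_nonneg x)
    exact ⟨y - z, fun φ h => by rw [map_sub, hy φ h, hz φ h, ← mul_sub, ← map_sub, posPart_sub_negPart]⟩
  choose m hm' using ex2
  have ext : ∀ {a b : S}, (∀ φ, St U φ → φ a = φ b) → a = b := fun h =>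
    le_antisymm (sep fun φ h' => (h φ h').le) (sep fun φ h' => (h φ h').ge)
  have v0 : ∀ φ, St U φ → 0 ≤ φ V ∧ φ V ≤ 1 := fun φ h =>
    ⟨by simpa using h.mono (show 0 ≤ V from h0), h.2 ▸ h.mono (show V ≤ U from h1)⟩
  let M0 : S →ₗ[ℝ] S :=
    { toFun := m
      map_add' := fun x y => ext fun φ h => by
        rw [map_add, hm' _ φ h, hm' _ φ h, hm' _ φ h, map_add, mul_add]
      map_smul' := fun c x => ext fun φ h => by
        rw [map_smul, hm' _ φ h, hm' _ φ h, map_smul]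
        exact mul_left_comm _ _ _ }
  have h6 : ∀ x : S, |(m x : X)| ≤ |(x : X)| := fun x => sep (a := |m x|) (b := |x|) fun φ h => by
    rw [h.abs, h.abs, hm' _ φ h, abs_mul, abs_of_nonneg (v0 φ h).1]
    exact mul_le_of_le_one_left (abs_nonneg _) (v0 φ h).2
  have h7 : DenseRange S.subtype := hd.denseRange_val
  have h8 : ∀ x : S, (S.subtype.comp M0).extendOfNorm S.subtype x = m x := fun x =>
    LinearMap.extendOfNorm_eq h7 ⟨1, fun x =>
      (norm_le_norm_of_abs_le_abs (h6 x)).trans_eq (one_mul _).symm⟩ x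
  generalize (S.subtype.comp M0).extendOfNorm S.subtype = M at h8
  have ha : Continuous fun x : X => |x| := continuous_id.sup continuous_neg
  refine ⟨M, fun x => ?_, fun x => h7.induction_on x (isClosed_le (ha.comp M.continuous) ha)
      fun x => (congrArg _ (h8 x)).trans_le (h6 x), fun c x hx => ?_, fun c x hc hx hx' h => ?_⟩
  · refine h7.induction_on x (isClosed_eq (M.continuous.comp ha) (ha.comp M.continuous)) fun x => ?_
    refine (h8 |x|).trans ((congrArg Subtype.val (ext (b := |m x|) fun φ h => ?_)).trans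
      (congrArg (fun y : X => |y|) (h8 x).symm))
    rw [h.abs, hm' _ φ h, hm' _ φ h, abs_mul, abs_of_nonneg (v0 φ h).1, h.abs]
  · rw [show M x = _ from h8 ⟨x, c, hx⟩]
    refine sep (a := |⟨x, c, hx⟩ - m ⟨x, c, hx⟩|) (b := c • (U - V)) fun φ h => ?_
    have := h.mono (show |⟨x, c, hx⟩| ≤ c • U from hx)
    rw [h.abs, map_smul, h.2, smul_eq_mul, mul_one] at this
    rw [h.abs, map_sub, hm' _ φ h, map_smul, map_sub, h.2, ← one_sub_mul, abs_mul, mul_comm,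
      abs_of_nonneg (sub_nonneg.2 (v0 φ h).2)]
    exact mul_le_mul_of_nonneg_right this (sub_nonneg.2 (v0 φ h).2)
  · rw [show M x = _ from h8 ⟨x, hm hx hx'⟩]
    refine sep (a := c • m ⟨x, hm hx hx'⟩) (b := U) fun φ h' => ?_
    have h9 := h'.mono (show V ≤ (U - c • ⟨x, hm hx hx'⟩) ⊔ 0 from h)
    have h10 := h'.mono (show (0 : S) ≤ ⟨x, hm hx hx'⟩ from hx)
    rw [h'.1, map_sub, map_smul, h'.2, map_zero, smul_eq_mul] at h9
    rw [map_smul, hm' _ φ h', h'.2, smul_eq_mul, mul_left_comm]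
    rw [map_zero] at h10
    have h11 := mul_nonneg hc h10
    rcases le_max_iff.1 h9 with h9 | h9 <;> nlinarith [v0 φ h']

end Pool.Agent.H26.BL4
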