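import Mathlib
import Pool.Agent.H26.BL4

set_option autoImplicit false

open Metric Filter Topology TopologicalSpace
open scoped BoundedContinuousFunction

namespace Pool.Agent.H26.BL5

open BL0 BL1 BL4

variable {X Y Z : BL}

lemma exists_qi [SeparableSpace X] (J : Submodule ℝ X) (hc : IsClosed (J : Set X))
    (hs : ∀ x ∈ J, |x| ∈ J) :
    ∃ j ∈ J, 0 ≤ j ∧ (J : Set X) ⊆ closure {x | ∃ c : ℝ, |x| ≤ c • j} := by
  haveI := UniformSpace.secondCountable_of_separable X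
  obtain ⟨d, hd⟩ := exists_dense_seq J
  let r : ℕ → ℝ := fun n => (1 / 2) ^ n / (1 + ‖(d n : X)‖)
  have hr : ∀ n, 0 < r n := fun n => by positivity
  have h0 : ∀ n, 0 ≤ r n • |(d n : X)| := fun n => smul_nonneg (hr n).le (abs_nonneg _)
  have h1 : Summable fun n => r n • |(d n : X)| := .of_norm_bounded summable_geometric_two fun n => by
    rw [norm_smul, norm_abs_eq_norm, Real.norm_of_nonneg (hr n).le, div_mul_eq_mul_div,
      div_le_iff₀ (by positivity)]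
    gcongr
    linarith
  refine ⟨_, tsum_mem hc fun n => J.smul_mem (r n) (hs _ (d n).2), tsum_nonneg h0, fun x hx =>
    closure_mono ?_ (image_closure_subset_closure_image continuous_subtype_val
      ⟨⟨x, hx⟩, hd _, rfl⟩)⟩
  rintro _ ⟨_, ⟨n, rfl⟩, rfl⟩
  exact ⟨(r n)⁻¹, (inv_smul_smul₀ (hr n).ne' _).ge.trans (smul_le_smul_of_nonneg_left
    (h1.le_tsum n fun m _ => h0 m) (inv_nonneg.2 (hr n).le))⟩

lemma exists_M [SeparableSpace X] {Q : X →L[ℝ] Z} (hQ : IsHom Q) : ∃ M : ℕ → X →L[ℝ] X,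
    (∀ k, IsHom (M k)) ∧ (∀ k x, ‖M k x‖ ≤ ‖x‖) ∧ (∀ k x, Q (M k x) = Q x) ∧
      ∀ x, Q x = 0 → Tendsto (fun k => M k x) atTop (𝓝 0) := by
  obtain ⟨w, -, w0, w1⟩ := exists_qi (⊤ : Submodule ℝ X) isClosed_univ fun _ _ => trivial
  obtain ⟨j, j1, j0, j2⟩ := exists_qi Q.ker Q.isClosed_ker fun x hx =>
    (hQ x).trans ((congrArg _ hx).trans abs_zero)
  have hu := add_nonneg w0 j0
  have hd : Dense {x | ∃ c : ℝ, |x| ≤ c • (w + j)} := fun x => closure_mono (by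
    rintro x ⟨c, hc⟩
    exact ⟨|c|, hc.trans ((le_abs_self _).trans (by
      rw [abs_smul', abs_of_nonneg w0]
      exact smul_le_smul_of_nonneg_left (le_add_of_nonneg_right j0) (abs_nonneg c)))⟩) (w1 trivial)
  choose M h1 h2 h3 h4 using fun k : ℕ => exists_mul X (w + j) (w + j - (k + 1 : ℝ) • j)⁺
    (posPart_nonneg _) (sup_le (sub_le_self _ (smul_nonneg (by positivity) j0)) hu) hd
  have h5 : ∀ k x, ‖M k x‖ ≤ ‖x‖ := fun k x => norm_le_norm_of_abs_le_abs (h2 k x)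
  refine ⟨M, h1, h5, fun k x => ?_, fun x hx => ?_⟩
  · refine hd.induction (P := fun x => Q (M k x) = Q x) (fun x ⟨c, hc⟩ => ?_)
      (isClosed_eq (Q.continuous.comp (M k).continuous) Q.continuous) x
    have := IsHom.mono hQ (h3 k c x hc)
    rw [hQ, map_smul, map_sub Q (w + j), IsHom.posPart hQ, map_sub Q (w + j), map_smul,
      show Q j = 0 from j1, smul_zero, sub_zero, posPart_eq_self.2 (IsHom.nonneg hQ hu), sub_self,
      smul_zero, map_sub] at this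
    exact (sub_eq_zero.1 (norm_le_zero_iff.1 ((norm_le_norm_of_abs_le_abs
      (this.trans_eq abs_zero.symm)).trans_eq norm_zero))).symm
  · refine Metric.tendsto_nhds.2 fun ε hε => ?_
    obtain ⟨y, ⟨c, hc⟩, hy⟩ := Metric.mem_closure_iff.1 (j2 hx) _ (half_pos hε)
    have h6 : Tendsto (fun k : ℕ => ‖c • (w + j)‖ / (k + 1)) atTop (𝓝 0) := by
      simpa [div_eq_mul_inv] using tendsto_one_div_add_atTop_nhds_zero_nat.const_mul ‖c • (w + j)‖
    refine (h6.eventually (gt_mem_nhds (half_pos hε))).mono fun k hk => ?_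
    have hk0 : (0 : ℝ) < k + 1 := by positivity
    have h7 := smul_le_smul_of_nonneg_left
      (h4 k (k + 1) j hk0.le j0 (le_add_of_nonneg_left w0) le_rfl) (abs_nonneg c)
    have h8 : |M k y| ≤ |c| • M k j := by
      rw [← h1, ← map_smul]
      exact IsHom.mono (h1 k) (hc.trans ((le_abs_self _).trans_eq (by
        rw [abs_smul', abs_of_nonneg j0])))
    have h9 : ‖(k + 1 : ℝ) • M k y‖ ≤ ‖c • (w + j)‖ := norm_le_norm_of_abs_le_abs (by
      rw [abs_smul', abs_smul', abs_of_pos hk0, abs_of_nonneg hu]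
      exact (smul_le_smul_of_nonneg_left h8 hk0.le).trans ((smul_comm _ _ _).trans_le h7))
    rw [norm_smul, Real.norm_of_nonneg hk0.le, ← le_div_iff₀' hk0] at h9
    rw [dist_zero_right, ← sub_add_cancel x y, map_add]
    rw [dist_eq_norm] at hy
    linarith [norm_add_le (M k (x - y)) (M k y), h5 k (x - y)]

lemma exists_E {Q : X →L[ℝ] Z} (hQ : IsHom Q) (M : ℕ → X →L[ℝ] X) (h1 : ∀ k, IsHom (M k))
    (h2 : ∀ k x, ‖M k x‖ ≤ ‖x‖) : ∃ (E : BL) (ι : E →L[ℝ] bcf ℕ X), IsHom ι ∧ (∀ x, ‖ι x‖ = ‖x‖) ∧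
      ∀ x : ℕ →ᵇ X, x ∈ Set.range ι ↔
        (∀ k, Q (x k) = Q (x 0)) ∧ Tendsto (fun k => x k - M k (x 0)) atTop (𝓝 0) := by
  let S : Submodule ℝ (ℕ →ᵇ X) :=
    { carrier := {x | (∀ k, Q (x k) = Q (x 0)) ∧ Tendsto (fun k => x k - M k (x 0)) atTop (𝓝 0)}
      add_mem' := fun ⟨a1, a2⟩ ⟨b1, b2⟩ => ⟨fun k => by simp [a1 k, b1 k], by
        simpa [add_sub_add_comm] using a2.add b2⟩
      zero_mem' := ⟨fun _ => rfl, by simp⟩
      smul_mem' := fun c x ⟨a1, a2⟩ => ⟨fun k => by simp [a1 k], by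
        simpa [smul_sub] using a2.const_smul c⟩ }
  have hc : IsClosed (S : Set (ℕ →ᵇ X)) := isClosed_of_closure_subset fun x hx => ⟨fun k =>
    closure_minimal (fun x hx => hx.1 k) (isClosed_eq (f := fun x : ℕ →ᵇ X => Q (x k))
      (g := fun x => Q (x 0)) (by fun_prop) (by fun_prop)) hx, Metric.tendsto_nhds.2 fun ε hε => by
      obtain ⟨y, hy, hy'⟩ := Metric.mem_closure_iff.1 hx (ε / 3) (by positivity)
      refine (Metric.tendsto_nhds.1 hy.2 (ε / 3) (by positivity)).mono fun k hk => ?_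
      rw [dist_zero_right] at hk ⊢
      rw [dist_eq_norm] at hy'
      rw [show x k - M k (x 0) = (x - y) k - M k ((x - y) 0) + (y k - M k (y 0)) by simp; abel]
      linarith [norm_add_le ((x - y) k - M k ((x - y) 0)) (y k - M k (y 0)),
        norm_sub_le ((x - y) k) (M k ((x - y) 0)), h2 k ((x - y) 0), (x - y).norm_coe_le_norm k,
        (x - y).norm_coe_le_norm 0]⟩
  refine ⟨sub (bcf ℕ X) S hc fun x hx => ⟨fun k => ?_, squeeze_zero_norm (fun k => ?_)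
    (tendsto_zero_iff_norm_tendsto_zero.1 hx.2)⟩, S.subtypeL, fun _ => rfl, fun _ => rfl,
    fun x => ⟨by rintro ⟨y, rfl⟩; exact y.2, fun hx => ⟨⟨x, hx⟩, rfl⟩⟩⟩
  · change Q |x k| = Q |x 0|
    rw [hQ, hQ, hx.1]
  · change ‖|x k| - M k |x 0|‖ ≤ _
    rw [h1]
    exact norm_abs_sub_abs _ _

lemma sep_E [SeparableSpace X] (M : ℕ → X →L[ℝ] X) (h2 : ∀ k x, ‖M k x‖ ≤ ‖x‖) :
    IsSeparable {x : ℕ →ᵇ X | Tendsto (fun k => x k - M k (x 0)) atTop (𝓝 0)} := by
  haveI := UniformSpace.secondCountable_of_separable X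
  have hb : ∀ (p : X × C(OnePoint ℕ, X)) (k : ℕ), ‖M k p.1 + p.2 k‖ ≤ 2 * ‖p‖ := fun p k => by
    linarith [norm_add_le (M k p.1) (p.2 k), h2 k p.1, p.2.norm_coe_le_norm k, norm_fst_le p,
      norm_snd_le p]
  let G : X × C(OnePoint ℕ, X) → ℕ →ᵇ X := fun p =>
    .ofNormedAddCommGroupDiscrete (fun k => M k p.1 + p.2 k) _ (hb p)
  have hG : LipschitzWith 2 G := .of_dist_le_mul fun p q =>
    (BoundedContinuousFunction.dist_le (by positivity)).2 fun k => by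
      rw [dist_eq_norm, dist_eq_norm]
      refine le_of_eq_of_le (congrArg _ ?_) (hb (p - q) k)
      simp [G, add_sub_add_comm]
  refine (isSeparable_range hG.continuous).mono fun x hx => ⟨(x 0, ⟨fun t => t.elim 0 fun k =>
    x k - M k (x 0), (OnePoint.continuous_iff_from_nat _).2 hx⟩), ?_⟩
  ext k
  exact add_sub_cancel _ _

lemma exists_comp {E F : BL} {ι : E →L[ℝ] bcf ℕ X} {κ : F →L[ℝ] bcf ℕ X} (h1 : IsHom ι)
    (h2 : ∀ x, ‖ι x‖ = ‖x‖) (h3 : IsHom κ) (h4 : ∀ x, ‖κ x‖ = ‖x‖) (σ : ℕ → ℕ)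
    (h : ∀ x, ∃ y, ∀ k, κ y k = ι x (σ k)) :
    ∃ T : E →L[ℝ] F, IsHom T ∧ (∀ x, ‖T x‖ ≤ ‖x‖) ∧ ∀ x k, κ (T x) k = ι x (σ k) := by
  choose T hT using h
  have hi : ∀ {a b}, (∀ k, κ a k = κ b k) → a = b := fun {a b} h => by
    rw [← sub_eq_zero, ← norm_eq_zero, ← h4, map_sub, norm_eq_zero, sub_eq_zero]
    exact BoundedContinuousFunction.ext h
  have hn : ∀ x, ‖T x‖ ≤ ‖x‖ := fun x => by
    rw [← h4, ← h2]
    exact (BoundedContinuousFunction.norm_le (norm_nonneg _)).2 fun k =>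
      hT x k ▸ (ι x).norm_coe_le_norm _
  refine ⟨LinearMap.mkContinuous ⟨⟨T, fun x y => hi fun k => by simp [hT]⟩, fun c x =>
    hi fun k => by simp [hT]⟩ 1 fun x => (hn x).trans_eq (one_mul _).symm, fun x => hi fun k => ?_,
    hn, hT⟩
  rw [h3]
  exact (hT _ k).trans ((congrArg (· (σ k)) (h1 x)).trans (congrArg (fun y : X => |y|) (hT x k).symm))

theorem semiproj_lift {A : BL} (hA : Semiproj A) [SeparableSpace X] {Q : X →L[ℝ] Z} (hQ : IsQuot Q)
    {φ : A →L[ℝ] Z} (h1 : IsHom φ) (h2 : ‖φ‖ ≤ 1) {ε : ℝ} (hε : 0 < ε) :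
    ∃ ψ : A →L[ℝ] X, IsHom ψ ∧ ‖ψ‖ ≤ 1 + ε ∧ Q.comp ψ = φ := by
  obtain ⟨M, m1, m2, m3, m4⟩ := exists_M hQ.1
  choose E ι e1 e2 e3 using fun n => exists_E hQ.1 (fun k => M (k + n)) (fun _ => m1 _) fun _ => m2 _
  have e4 := fun n x => (e3 n _).1 ⟨x, rfl⟩
  have m5 : ∀ n x, Q x = 0 → Tendsto (fun k => M (k + n) x) atTop (𝓝 0) := fun n x h =>
    (m4 x h).comp (tendsto_add_atTop_nat n)
  choose q q1 q2 q3 using fun n => exists_comp (e1 0) (e2 0) (e1 n) (e2 n) (· + n) fun x => by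
    obtain ⟨y, hy⟩ := (e3 n ((ι 0 x).compContinuous ⟨(· + n), continuous_of_discreteTopology⟩)).2
      ⟨fun k => ((e4 0 x).1 _).trans ((e4 0 x).1 _).symm, by
        simpa using ((e4 0 x).2.comp (tendsto_add_atTop_nat n)).add (m5 n (ι 0 x 0 - ι 0 x n) (by
          rw [map_sub, (e4 0 x).1 n, sub_self]))⟩
    exact ⟨y, fun k => by rw [hy]; rfl⟩
  let ev : ∀ n, E n →L[ℝ] X := fun n => (BoundedContinuousFunction.evalCLM ℝ 0).comp (ι n)
  have v1 : ∀ n, IsHom (ev n) := fun n x => congrArg (· 0) (e1 n x)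
  have v2 : ∀ n x, ‖ev n x‖ ≤ ‖x‖ := fun n x => e2 n x ▸ (ι n x).norm_coe_le_norm 0
  refine (hA (E 0) Z E (Q.comp (ev 0)) q (fun n => Q.comp (ev n)) (isSeparable_univ_iff.1
    (((AddMonoidHomClass.isometry_of_norm _ (e2 0)).isEmbedding.isInducing.isSeparable_preimage
      (sep_E _ fun k => m2 (k + 0))).mono fun x _ => (e4 0 x).2))
    (isQuot_of (IsHom.comp hQ.1 (v1 0)) (fun x => (IsQuot.norm_le hQ _).trans (v2 0 x)) fun z r hr => ?_)
    (fun n => isQuot_of (q1 n) (q2 n) fun z r hr => ?_) (fun n m hnm x hx => ?_) ?_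
    (fun n => ContinuousLinearMap.ext fun x => (congrArg Q (q3 n x 0)).trans ((e4 0 x).1 _)) φ h1
    h2).elim fun n hn => ?_
  · obtain ⟨y, rfl, hy⟩ := IsQuot.lift hQ z hr
    obtain ⟨x, hx⟩ := (e3 0 (.ofNormedAddCommGroupDiscrete (fun k => M k y) _ fun k => m2 k y)).2
      ⟨fun k => (m3 _ _).trans (m3 _ _).symm, by
        simpa using m4 (y - M 0 y) (by rw [map_sub, m3, sub_self])⟩
    exact ⟨x, (congrArg (fun f : ℕ →ᵇ X => Q (f 0)) hx).trans (m3 _ _), by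
      rw [← e2, hx]
      exact (BoundedContinuousFunction.norm_le ((norm_nonneg _).trans hr.le)).2 fun k =>
        (m2 k y).trans hy.le⟩
  · obtain ⟨x, hx⟩ := (e3 0 ((ι n z).compContinuous ⟨(· - n), continuous_of_discreteTopology⟩)).2
      ⟨fun k => ((e4 n z).1 _).trans ((e4 n z).1 _).symm, (tendsto_add_atTop_iff_nat n).1 (by
        simpa using (e4 n z).2)⟩
    refine ⟨x, ?_, ?_⟩
    · rw [← sub_eq_zero, ← norm_eq_zero, ← e2, map_sub, norm_eq_zero, sub_eq_zero]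
      ext k
      rw [q3, hx]
      simp
    · rw [← e2, hx]
      exact (BoundedContinuousFunction.norm_compContinuous_le _ _).trans ((e2 n z).trans_le hr.le)
  · change q m x = 0
    rw [← norm_eq_zero, ← e2, norm_eq_zero]
    ext k
    rw [q3, show k + m = k + m - n + n by omega, ← q3, show q n x = 0 from hx, map_zero]
    rfl
  · refine subset_antisymm (fun x hx => Metric.mem_closure_iff.2 fun δ hδ => ?_)
      (closure_minimal (Set.iUnion_subset fun n x hx => ?_) (Q.comp (ev 0)).isClosed_ker)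
    · have h3 : Tendsto (ι 0 x) atTop (𝓝 0) := by simpa using (e4 0 x).2.add (m5 0 (ι 0 x 0) hx)
      obtain ⟨n, hn⟩ := Metric.tendsto_atTop.1 h3 _ (half_pos hδ)
      have h4 : ∀ k, Q (if k < n then ι 0 x k else 0) = 0 := fun k => by
        split_ifs
        exacts [((e4 0 x).1 k).trans hx, map_zero _]
      obtain ⟨y, hy⟩ := (e3 0 (.ofNormedAddCommGroupDiscrete (fun k => if k < n then ι 0 x k else 0)
        ‖ι 0 x‖ fun k => by split_ifs; exacts [(ι 0 x).norm_coe_le_norm k, by simp])).2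
        ⟨fun k => (h4 k).trans (h4 0).symm, by
          simpa using (tendsto_const_nhds.congr' ((eventually_ge_atTop n).mono fun k hk =>
            (if_neg hk.not_gt).symm)).sub (m5 0 _ (h4 0))⟩
      refine ⟨y, Set.mem_iUnion.2 ⟨n, ?_⟩, ?_⟩
      · change q n y = 0
        rw [← norm_eq_zero, ← e2, norm_eq_zero]
        ext k
        rw [q3, hy]
        exact if_neg (by omega)
      · rw [dist_eq_norm, ← e2, map_sub, hy]
        refine ((BoundedContinuousFunction.norm_le (half_pos hδ).le).2 fun k => ?_).trans_lt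
          (half_lt_self hδ)
        change ‖ι 0 x k - if k < n then ι 0 x k else 0‖ ≤ _
        split_ifs with h
        · rw [sub_self, norm_zero]; positivity
        · simpa using (hn k (not_lt.1 h)).le
    · change Q (ι 0 x 0) = 0
      rw [← (e4 0 x).1 (0 + n), ← q3, show q n x = 0 from hx, map_zero (ι n)]
      exact map_zero Q
  · obtain ⟨ψ, h3, h4, h5⟩ := hn ε hε
    exact ⟨(ev n).comp ψ, IsHom.comp (v1 n) h3, ContinuousLinearMap.opNorm_le_bound _ (by positivity)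
      fun a => (v2 n _).trans (ψ.le_of_opNorm_le h4 a), h5⟩

lemma semiproj_of_lift {A : BL} (h : ∀ (X Z : BL) (Q : X →L[ℝ] Z), SeparableSpace X → IsQuot Q →
    ∀ φ : A →L[ℝ] Z, IsHom φ → ‖φ‖ ≤ 1 → ∀ ε > 0,
      ∃ ψ : A →L[ℝ] X, IsHom ψ ∧ ‖ψ‖ ≤ 1 + ε ∧ Q.comp ψ = φ) : Semiproj A :=
  fun E Z _ Q q _ hE hQ hq _ _ hπ φ h1 h2 => ⟨0, fun ε hε => by
    obtain ⟨ψ, h3, h4, h5⟩ := h E Z Q hE hQ φ h1 h2 ε hε
    exact ⟨(q 0).comp ψ, IsHom.comp (hq 0).1 h3, ContinuousLinearMap.opNorm_le_bound _ (by positivity)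
      fun a => (IsQuot.norm_le (hq 0) _).trans (ψ.le_of_opNorm_le h4 a), by
        rw [← ContinuousLinearMap.comp_assoc, hπ, h5]⟩⟩

lemma Proj.semiproj {A : BL} (h : Proj A) : Semiproj A :=
  semiproj_of_lift fun X Z Q _ hQ φ h1 h2 ε hε => by
    obtain ⟨ψ, h3, h4, h5⟩ := h X Z Q hQ φ h1 ε hε
    exact ⟨ψ, h3, h5.trans (mul_le_of_le_one_right (by positivity) h2), h4⟩

end Pool.Agent.H26.BL5
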