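import Mathlib
import Pool.Agent.H26.BL5

set_option autoImplicit false

open Metric Filter Topology TopologicalSpace

namespace Pool.Agent.H26.BL6

open BL0 BL1 BL5

variable {X Y Z : BL}

lemma exists_closed {α ι : Type} [Countable ι] (op : ι → α → α → α) {s : Set α} (hs : s.Countable) :
    ∃ D : Set α, D.Countable ∧ s ⊆ D ∧ ∀ i, ∀ x ∈ D, ∀ y ∈ D, op i x y ∈ D := by
  let F : Set α → Set α := fun t => t ∪ ⋃ i, Set.image2 (op i) t t
  have h1 : ∀ n, (F^[n] s).Countable := fun n => by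
    induction n with
    | zero => exact hs
    | succ n ih =>
      rw [Function.iterate_succ_apply']
      exact ih.union (Set.countable_iUnion fun i => ih.image2 ih _)
  have h2 : Monotone fun n => F^[n] s := monotone_nat_of_le_succ fun n => by
    rw [Function.iterate_succ_apply']; exact Set.subset_union_left
  refine ⟨⋃ n, F^[n] s, Set.countable_iUnion h1, Set.subset_iUnion (fun n => F^[n] s) 0,
    fun i x hx y hy => ?_⟩
  obtain ⟨n, hn⟩ := Set.mem_iUnion.1 hx
  obtain ⟨m, hm⟩ := Set.mem_iUnion.1 hy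
  refine Set.mem_iUnion.2 ⟨max n m + 1, ?_⟩
  rw [Function.iterate_succ_apply']
  exact Or.inr (Set.mem_iUnion.2 ⟨i, x, h2 (le_max_left _ _) hn, y, h2 (le_max_right _ _) hm, rfl⟩)

lemma closure_sub (D : Set X) (h0 : 0 ∈ D) (h1 : ∀ q : ℚ, ∀ x ∈ D, ∀ y ∈ D, x + (q : ℝ) • y ∈ D)
    (h2 : ∀ x ∈ D, |x| ∈ D) : ∃ (E : BL) (ι : E →L[ℝ] X), IsHom ι ∧ (∀ x, ‖ι x‖ = ‖x‖) ∧
      Set.range ι = closure D := by
  let S : Submodule ℝ X :=
    { carrier := closure D
      add_mem' := fun hx hy => map_mem_closure₂ continuous_add hx hy fun x hx y hy => by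
        simpa using h1 1 x hx y hy
      zero_mem' := subset_closure h0
      smul_mem' := fun c x hx => map_mem_closure₂ continuous_smul (Rat.denseRange_cast c) hx (by
        rintro _ ⟨q, rfl⟩ y hy
        simpa using h1 q 0 h0 y hy) }
  exact ⟨sub X S isClosed_closure fun x hx => map_mem_closure (continuous_id.sup continuous_neg) hx h2,
    S.subtypeL, fun _ => rfl, fun _ => rfl, Subtype.range_coe⟩

lemma exists_factor {κ : Y →L[ℝ] Z} (h1 : IsHom κ) (h2 : ∀ x, ‖κ x‖ = ‖x‖) {T : X →L[ℝ] Z}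
    (h3 : IsHom T) (h : ∀ x, T x ∈ Set.range κ) : ∃ S : X →L[ℝ] Y, IsHom S ∧ ∀ x, κ (S x) = T x := by
  choose S hS using h
  have hi := (AddMonoidHomClass.isometry_of_norm _ h2).injective
  exact ⟨LinearMap.mkContinuous ⟨⟨S, fun x y => hi (by simp [hS])⟩, fun c x => hi (by simp [hS])⟩ ‖T‖
    fun x => (h2 _).ge.trans (hS x ▸ T.le_opNorm x), fun x => hi ((hS _).trans ((h3 x).trans
      ((congrArg _ (hS x).symm).trans (h1 _).symm))), hS⟩

theorem semiproj_proj {A : BL} [SeparableSpace A] (hA : Semiproj A) : Proj A := by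
  intro X Z Q hQ T hT ε hε
  rcases (norm_nonneg T).eq_or_lt with h | h
  · exact ⟨0, fun _ => by simp, by rw [norm_eq_zero.1 h.symm]; simp, by simp [← h]⟩
  obtain ⟨d, hd⟩ := exists_dense_seq A
  choose g g1 g2 using fun (m : ℕ) z => IsQuot.lift hQ z (lt_add_of_pos_right ‖z‖
    (Nat.one_div_pos_of_nat (n := m)))
  obtain ⟨D, d1, d2, d3⟩ := exists_closed (fun (i : Option (ℚ ⊕ ℕ)) (x y : X) =>
    i.elim |x| (Sum.elim (fun q => x + (q : ℝ) • y) fun m => g m (Q x)))
    ((Set.countable_range fun n => g 0 (T (d n))).insert 0)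
  have d0 : 0 ∈ D := d2 (Set.mem_insert _ _)
  have d4 : ∀ q : ℚ, ∀ x ∈ D, ∀ y ∈ D, x + (q : ℝ) • y ∈ D := fun q => d3 (some (.inl q))
  obtain ⟨E, ι, e1, e2, e3⟩ := closure_sub D d0 d4 fun x hx => d3 none x hx x hx
  have d5 : ∀ q : ℚ, ∀ x ∈ Q '' D, ∀ y ∈ Q '' D, x + (q : ℝ) • y ∈ Q '' D := by
    rintro q _ ⟨x, hx, rfl⟩ _ ⟨y, hy, rfl⟩
    exact ⟨_, d4 q x hx y hy, by simp⟩
  obtain ⟨F, κ, f1, f2, f3⟩ := closure_sub (Q '' D) ⟨0, d0, map_zero Q⟩ d5 (by
    rintro _ ⟨x, hx, rfl⟩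
    exact ⟨_, d3 none x hx x hx, hQ.1 x⟩)
  obtain ⟨q, q1, q2⟩ := exists_factor f1 f2 (IsHom.comp hQ.1 e1) fun x =>
    f3.ge (map_mem_closure (x := ι x) Q.continuous (e3.le ⟨x, rfl⟩) fun y hy => ⟨y, hy, rfl⟩)
  obtain ⟨t, t1, t2⟩ := exists_factor f1 f2 hT fun x =>
    f3 ▸ map_mem_closure T.continuous (hd x) (by
      rintro _ ⟨n, rfl⟩
      exact ⟨_, d2 (Set.mem_insert_of_mem _ ⟨n, rfl⟩), g1 _ _⟩)
  haveI : SeparableSpace E := isSeparable_univ_iff.1
    (((AddMonoidHomClass.isometry_of_norm _ e2).isEmbedding.isInducing.isSeparable_preimage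
      d1.isSeparable.closure).mono fun x _ => e3 ▸ ⟨x, rfl⟩)
  have hq : IsQuot q := isQuot_of q1 (fun x => by
    rw [← f2, q2, ← e2]; exact IsQuot.norm_le hQ _) fun z r hr => by
      let K : AddSubgroup Z :=
        { carrier := Q '' D
          add_mem' := fun hx hy => by simpa using d5 1 _ hx _ hy
          zero_mem' := ⟨0, d0, map_zero Q⟩
          neg_mem' := fun hx => by simpa using d5 (-1) _ ⟨0, d0, map_zero Q⟩ _ hx }
      rcases (norm_nonneg z).eq_or_lt with hz | hz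
      · exact ⟨0, by rw [map_zero, norm_eq_zero.1 hz.symm], by rw [norm_zero]; linarith⟩
      have hη : 0 < (r - ‖z‖) / ‖z‖ / 2 := by have := sub_pos.2 hr; positivity
      obtain ⟨x, hx, hx'⟩ := controlled_closure_of_complete (K := K)
        (f := ⟨fun x => Q (ι x), fun x y => by simp, ⟨1, fun x => by
          rw [one_mul, ← e2]; exact IsQuot.norm_le hQ _⟩⟩) (add_pos one_pos hη) hη (by
          rintro _ ⟨x, hx, rfl⟩
          rcases (norm_nonneg (Q x)).eq_or_lt with h0 | h0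
          · exact ⟨0, by simp [norm_eq_zero.1 h0.symm], by simp [← h0]⟩
          obtain ⟨m, hm⟩ := exists_nat_one_div_lt (mul_pos hη h0)
          obtain ⟨y, hy⟩ := e3.ge (subset_closure (d3 (some (.inr m)) x hx x hx))
          refine ⟨y, (congrArg Q hy).trans (g1 _ _), ?_⟩
          rw [← e2, hy, add_mul, one_mul]
          exact ((g2 m _).trans (add_lt_add_right hm _)).le) (κ z) (f3.le ⟨z, rfl⟩)
      refine ⟨x, (AddMonoidHomClass.isometry_of_norm _ f2).injective ((q2 x).trans hx),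
        hx'.trans_eq ?_⟩
      rw [f2]
      field_simp
      ring
  obtain ⟨ψ, h1, h2, h3⟩ := semiproj_lift hA hq (φ := ‖T‖⁻¹ • t) (fun x => by
    simp [t1 x, abs_smul']) (ContinuousLinearMap.opNorm_le_bound _ zero_le_one fun x => by
      rw [ContinuousLinearMap.smul_apply, norm_smul, norm_inv, norm_norm, ← f2, t2, one_mul,
        inv_mul_le_iff₀ h]
      exact T.le_opNorm x) hε
  refine ⟨‖T‖ • ι.comp ψ, fun x => by simp [h1 x, e1 _, abs_smul'], ContinuousLinearMap.ext fun x => ?_,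
    ContinuousLinearMap.opNorm_le_bound _ (by positivity) fun x => ?_⟩
  · have := congrArg (fun S => κ (S x)) h3
    simp only [ContinuousLinearMap.comp_apply, q2, ContinuousLinearMap.smul_apply, map_smul, t2] at this ⊢
    rw [this, smul_inv_smul₀ h.ne']
  · rw [ContinuousLinearMap.smul_apply, norm_smul, norm_norm, ContinuousLinearMap.comp_apply, e2,
      mul_comm (1 + ε), mul_assoc]
    exact mul_le_mul_of_nonneg_left (ψ.le_of_opNorm_le h2 x) h.le

end Pool.Agent.H26.BL6
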