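import Mathlib
import Pool.Agent.H26.BL6

set_option autoImplicit false

open Metric Filter Topology TopologicalSpace
open scoped ENNReal

namespace Pool.Agent.H26.BL7

open BL0 BL1 BL6

variable {X Y Z : BL} {A : Type}

noncomputable def linf {I : Type} (Y : I → BL) : BL :=
  letI : Lattice (lp (fun i => Y i) ∞) := Subtype.lattice (α := ∀ i, Y i) (P := fun f => Memℓp f ∞)
    (fun f g hf hg => (hf.norm.add hg.norm).mono fun i => norm_sup_le_add _ _)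
    fun f g hf hg => (hf.norm.add hg.norm).mono fun i => norm_inf_le_add _ _
  haveI : IsOrderedAddMonoid (lp (fun i => Y i) ∞) :=
    { add_le_add_left := fun _ _ h c i => add_le_add_left (h i) (c i) }
  haveI : PosSMulMono ℝ (lp (fun i => Y i) ∞) :=
    ⟨fun _ hc _ _ h i => smul_le_smul_of_nonneg_left (h i) hc⟩
  haveI : HasSolidNorm (lp (fun i => Y i) ∞) :=
    ⟨fun _ _ h => lp.norm_mono ENNReal.top_ne_zero fun i => HasSolidNorm.solid (h i)⟩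
  ⟨lp (fun i => Y i) ∞⟩

lemma exists_linf {I : Type} (Y : I → BL) : ∃ (P : BL) (π : ∀ i, P →L[ℝ] Y i), (∀ i, IsHom (π i)) ∧
    (∀ i x, ‖π i x‖ ≤ ‖x‖) ∧ (∀ x r, 0 ≤ r → (∀ i, ‖π i x‖ ≤ r) → ‖x‖ ≤ r) ∧
    ∀ (f : ∀ i, Y i) (r : ℝ), (∀ i, ‖f i‖ ≤ r) → ∃ x, ∀ i, π i x = f i :=
  ⟨linf Y, lp.evalCLM ℝ (fun i => Y i) ∞, fun _ _ => rfl,
    fun i x => lp.norm_apply_le_norm ENNReal.top_ne_zero x i,
    fun _ _ h h' => lp.norm_le_of_forall_le h h', fun f r h =>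
      ⟨⟨f, memℓp_infty ⟨r, by rintro _ ⟨i, rfl⟩; exact h i⟩⟩, fun _ => rfl⟩⟩

inductive Tm (A : Type) : Type
  | zero : Tm A
  | var : A → Tm A
  | lin : ℚ → Tm A → Tm A → Tm A
  | abs : Tm A → Tm A
  deriving Countable

noncomputable def ev (f : A → Y) : Tm A → Y
  | .zero => 0
  | .var a => f a
  | .lin q s t => ev f s + (q : ℝ) • ev f t
  | .abs s => |ev f s|

lemma ev_hom {T : X →L[ℝ] Y} (hT : IsHom T) {f : A → X} {g : A → Y} (h : ∀ a, T (f a) = g a)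
    (t : Tm A) : T (ev f t) = ev g t := by
  induction t with
  | zero => exact map_zero T
  | var a => exact h a
  | lin q s t hs ht => rw [ev, ev, map_add, map_smul, hs, ht]
  | abs s hs => rw [ev, ev, hT, hs]

lemma hom_ext {S T : X →L[ℝ] Y} (hS : IsHom S) (hT : IsHom T) {f : A → X} (hf : DenseRange (ev f))
    (h : ∀ a, S (f a) = T (f a)) : S = T :=
  ContinuousLinearMap.ext fun x => hf.induction_on x (isClosed_eq S.continuous T.continuous)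
    fun t => (ev_hom hS h t).trans (ev_hom hT (fun _ => rfl) t).symm

lemma gen_sub (f : A → X) : ∃ (E : BL) (ι : E →L[ℝ] X) (δ : A → E), IsHom ι ∧ (∀ x, ‖ι x‖ = ‖x‖) ∧
    (∀ a, ι (δ a) = f a) ∧ DenseRange (ev δ) := by
  obtain ⟨E, ι, h1, h2, h3⟩ := closure_sub (Set.range (ev f)) ⟨.zero, rfl⟩
    (by rintro q _ ⟨s, rfl⟩ _ ⟨t, rfl⟩; exact ⟨.lin q s t, rfl⟩)
    (by rintro _ ⟨s, rfl⟩; exact ⟨.abs s, rfl⟩)
  choose δ hδ using fun a => h3.ge (subset_closure ⟨.var a, rfl⟩)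
  refine ⟨E, ι, δ, h1, h2, hδ, fun x => ?_⟩
  rw [(AddMonoidHomClass.isometry_of_norm _ h2).isEmbedding.closure_eq_preimage_closure_image,
    ← Set.range_comp, show ι ∘ ev δ = ev f from funext (ev_hom h1 hδ), ← h3]
  exact ⟨x, rfl⟩

lemma exists_ext {δ : A → X} (hδ : DenseRange (ev δ)) (f : A → Y) (h : ∀ t, ‖ev f t‖ ≤ ‖ev δ t‖) :
    ∃ T : X →L[ℝ] Y, IsHom T ∧ (∀ x, ‖T x‖ ≤ ‖x‖) ∧ ∀ a, T (δ a) = f a := by
  obtain ⟨G, ι, γ, h1, h2, h3, h4⟩ := gen_sub (X := prod X Y) fun a => (δ a, f a)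
  let p := (ContinuousLinearMap.fst ℝ X Y).comp ι
  let q := (ContinuousLinearMap.snd ℝ X Y).comp ι
  have hp : IsHom p := fun x => congrArg Prod.fst (h1 x)
  have hq : IsHom q := fun x => congrArg Prod.snd (h1 x)
  have h5 := ev_hom hp (g := δ) fun a => congrArg Prod.fst (h3 a)
  have h6 : ∀ x, ‖q x‖ ≤ ‖p x‖ := fun x => h4.induction_on x (isClosed_le (by fun_prop) (by fun_prop))
    fun t => by rw [h5, ev_hom hq (g := f) fun a => congrArg Prod.snd (h3 a)]; exact h t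
  have h7 : ∀ x, ‖p x‖ = ‖x‖ := fun x => (max_eq_left (h6 x)).symm.trans (h2 x)
  have h8 := AddMonoidHomClass.isometry_of_norm _ h7
  obtain ⟨S, s1, s2⟩ := exists_factor hp h7 (T := .id ℝ X) (fun _ => rfl) fun x =>
    hδ.induction_on x h8.isClosedEmbedding.isClosed_range fun t => ⟨_, h5 t⟩
  refine ⟨q.comp S, IsHom.comp hq s1, fun x => (h6 _).trans_eq (congrArg _ (s2 x)), fun a => ?_⟩
  rw [ContinuousLinearMap.comp_apply, h8.injective ((s2 _).trans (h5 (.var a)).symm)]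
  exact congrArg Prod.snd (h3 a)

theorem exists_univ (C : ∀ Y : BL, (A → Y) → Prop) (hC : ∀ Y f, C Y f → ∀ a, ‖f a‖ ≤ 1) :
    ∃ (F : BL) (δ : A → F), DenseRange (ev δ) ∧
      (∀ Y f, C Y f → ∃ T : F →L[ℝ] Y, IsHom T ∧ (∀ x, ‖T x‖ ≤ ‖x‖) ∧ ∀ a, T (δ a) = f a) ∧
      ∀ t r, 0 ≤ r → (∀ Y f, C Y f → ‖ev f t‖ ≤ r) → ‖ev δ t‖ ≤ r := by
  choose Y f h1 h2 using fun i : {ρ : Tm A → ℝ // ∃ Y f, C Y f ∧ ∀ t, ‖ev f t‖ = ρ t} => i.2
  obtain ⟨P, π, p1, p2, p3, p4⟩ := exists_linf Y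
  choose g hg using fun a => p4 (fun i => f i a) 1 fun i => hC _ _ (h1 i) a
  obtain ⟨F, ι, δ, f1, f2, f3, f4⟩ := gen_sub g
  have h3 : ∀ i t, π i (ι (ev δ t)) = ev (f i) t := fun i t => by
    rw [ev_hom f1 f3, ev_hom (p1 i) (hg · i)]
  refine ⟨F, δ, f4, fun Z f' h => exists_ext f4 f' fun t => ?_, fun t r hr h => f2 _ ▸ p3 _ r hr
    fun i => h3 i t ▸ h _ _ (h1 i)⟩
  rw [← f2]
  exact (h2 ⟨_, Z, f', h, fun _ => rfl⟩ t).ge.trans (h3 _ t ▸ p2 _ _)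

end Pool.Agent.H26.BL7
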