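import Mathlib
import Pool.Agent.H26.BL7

set_option autoImplicit false

open Metric Filter Topology TopologicalSpace

namespace Pool.Agent.H26.BL8

open BL0 BL1 BL3 BL6 BL7

variable {X Y Z : BL}

lemma pos_mono {T : X →L[ℝ] Y} (h : ∀ x, 0 ≤ x → 0 ≤ T x) {x y : X} (hxy : x ≤ y) : T x ≤ T y := by
  simpa using h _ (sub_nonneg.2 hxy)

lemma pos_abs {T : X →L[ℝ] Y} (h : ∀ x, 0 ≤ x → 0 ≤ T x) (x : X) : |T x| ≤ T |x| :=
  sup_le (pos_mono h (le_abs_self x)) (map_neg T x ▸ pos_mono h (neg_le_abs x))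

lemma extreme_hom (g : X →L[ℝ] ℝ) (h0 : ∀ x, 0 ≤ x → 0 ≤ g x)
    (h : ∀ g' : X →L[ℝ] ℝ, (∀ x, 0 ≤ x → 0 ≤ g' x ∧ g' x ≤ g x) → ∃ c : ℝ, g' = c • g) :
    IsHom (Y := real) g := fun x => by
  have hm : ∀ {x y}, x ≤ y → g x ≤ g y := pos_mono (Y := real) h0
  let S : X → Set ℝ := fun y => {r | ∃ t : ℝ, 0 ≤ t ∧ r = g (y - t • x⁻)⁺}
  have h1 : ∀ y, g y⁺ ∈ S y := fun y => ⟨0, le_rfl, by simp⟩
  have h2 : ∀ y, ∀ r ∈ S y, 0 ≤ r := by rintro y _ ⟨t, -, rfl⟩; exact h0 _ (posPart_nonneg _)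
  have h3 : ∀ y, BddBelow (S y) := fun y => ⟨0, h2 y⟩
  have h4 : ∀ c, 0 < c → ∀ y, sInf (S (c • y)) ≤ c * sInf (S y) := fun c hc y =>
    le_mul_sInf ⟨_, h1 y⟩ hc.le (by
      rintro _ ⟨t, ht, rfl⟩
      refine csInf_le (h3 _) ⟨c * t, by positivity, ?_⟩
      rw [mul_smul, ← smul_sub, posPart_def, posPart_def, ← smul_eq_mul, ← map_smul, smul_sup' hc.le,
        smul_zero])
  have h5 : ∀ c, 0 < c → ∀ y, sInf (S (c • y)) = c * sInf (S y) := fun c hc y => by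
    have := h4 c⁻¹ (inv_pos.2 hc) (c • y)
    rw [inv_smul_smul₀ hc.ne', le_inv_mul_iff₀ hc] at this
    exact (h4 c hc y).antisymm this
  have h6 : g x⁺ = 0 ∨ g x⁻ = 0 := by
    refine or_iff_not_imp_left.2 fun ha => ?_
    have ha' : x⁺ ≠ 0 := fun h => ha (by rw [h, map_zero])
    obtain ⟨f, f1, f2⟩ := exists_extension_of_le_sublinear (LinearPMap.mkSpanSingleton x⁺ (g x⁺) ha')
      (fun y => sInf (S y)) h5 (fun y z => sub_le_iff_le_add.1 (le_csInf ⟨_, h1 y⟩ (by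
        rintro _ ⟨s, hs, rfl⟩
        refine sub_le_comm.1 (le_csInf ⟨_, h1 z⟩ ?_)
        rintro _ ⟨t, ht, rfl⟩
        refine sub_le_iff_le_add'.2 ((csInf_le (h3 _) ⟨s + t, by positivity, rfl⟩).trans ?_)
        rw [← map_add, add_smul, ← sub_add_sub_comm]
        exact hm (sup_le (add_le_add (le_posPart _) (le_posPart _))
          (add_nonneg (posPart_nonneg _) (posPart_nonneg _)))))) (by
        rintro ⟨y, hy⟩
        obtain ⟨c, rfl⟩ := Submodule.mem_span_singleton.1 hy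
        rw [LinearPMap.mkSpanSingleton'_apply]
        refine le_csInf ⟨_, h1 _⟩ ?_
        rintro _ ⟨t, ht, rfl⟩
        rcases le_total 0 c with hc | hc
        · rw [posPart_sub_disj (smul_disj (posPart_nonneg x) (negPart_nonneg x)
            (posPart_inf_negPart_eq_zero x) hc ht), map_smul]
          rfl
        · exact (mul_nonpos_of_nonpos_of_nonneg hc (h0 _ (posPart_nonneg x))).trans
            (h0 _ (posPart_nonneg _)))
    have f3 : ∀ y, f y ≤ g y⁺ := fun y => (f2 y).trans (csInf_le (h3 y) (h1 y))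
    have f4 : ∀ y, f y ≤ ‖g‖ * ‖y‖ := fun y => (f3 y).trans ((hm (sup_le (le_abs_self y)
      (abs_nonneg y))).trans ((le_abs_self _).trans (norm_abs_eq_norm y ▸ g.le_opNorm _)))
    obtain ⟨c, hc⟩ := h (f.mkContinuous ‖g‖ fun y => abs_le.2 ⟨by
      simpa [neg_le] using f4 (-y), f4 y⟩) fun y hy => ⟨by
        simpa [negPart_eq_zero.2 hy] using f3 (-y), by simpa [posPart_eq_self.2 hy] using f3 y⟩
    have f5 : f x⁺ = g x⁺ := (f1 ⟨_, Submodule.mem_span_singleton_self _⟩).trans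
      (LinearPMap.mkSpanSingleton'_apply_self _ _ _ _)
    have f6 : ∀ y, f y = c * g y := fun y => congrArg (· y) hc
    have f7 := (f2 x⁻).trans (csInf_le (h3 _) ⟨1, zero_le_one, rfl⟩)
    rw [f6, mul_right_cancel₀ ha ((f6 _).symm.trans (f5.trans (one_mul _).symm))] at f7
    exact le_antisymm (by simpa using f7) (h0 _ (negPart_nonneg x))
  change g |x| = |g x|
  conv_rhs => rw [← posPart_sub_negPart x]
  rw [← posPart_add_negPart, map_add, map_sub]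
  rcases h6 with h | h <;> simp [h, abs_of_nonneg (h0 _ (posPart_nonneg x)),
    abs_of_nonneg (h0 _ (negPart_nonneg x))]

lemma dom_hom {β : X →L[ℝ] ℝ} (hβ : IsHom (Y := real) β) {γ : X →L[ℝ] ℝ} {c : ℝ}
    (h : ∀ x, 0 ≤ x → 0 ≤ γ x ∧ γ x ≤ c * β x) (u x : X) : β u * γ x = β x * γ u := by
  have := (pos_abs (Y := real) (fun x hx => (h x hx).1) (β u • x - β x • u)).trans
    (h _ (abs_nonneg _)).2
  rw [show β _ = _ from hβ _] at this
  simpa [mul_comm, sub_eq_zero] using this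

lemma exists_quot {Q : X →L[ℝ] Z} (h1 : IsHom Q) (h2 : ∀ x, ‖Q x‖ ≤ ‖x‖) {C : ℝ} (hC : 1 ≤ C)
    (h3 : ∀ z, ∃ x, Q x = z ∧ ‖x‖ ≤ C * ‖z‖) : ∃ (W : BL) (ι : Z ≃L[ℝ] W),
      IsHom ι.toContinuousLinearMap ∧ IsHom ι.symm.toContinuousLinearMap ∧
        IsQuot (ι.toContinuousLinearMap.comp Q) := by
  let S : Z → Set ℝ := fun z => {r | ∃ x, Q x = z ∧ ‖x‖ = r}
  have s1 : ∀ z, (S z).Nonempty := fun z => let ⟨x, h, _⟩ := h3 z; ⟨_, x, h, rfl⟩
  have s2 : ∀ z, BddBelow (S z) := fun z => ⟨0, by rintro _ ⟨x, -, rfl⟩; positivity⟩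
  have s3 : ∀ z, ‖z‖ ≤ sInf (S z) := fun z => le_csInf (s1 z) (by rintro _ ⟨x, rfl, rfl⟩; exact h2 x)
  obtain ⟨W, ι, i1, -, i3, i4⟩ := exists_renorm Z (Seminorm.ofSMulLE (fun z => sInf (S z))
    (le_antisymm (csInf_le (s2 0) ⟨0, map_zero Q, norm_zero⟩) (norm_zero.ge.trans (s3 0)))
    (fun y z => sub_le_iff_le_add.1 (le_csInf (s1 y) (by
      rintro _ ⟨a, rfl, rfl⟩
      refine sub_le_comm.1 (le_csInf (s1 z) ?_)
      rintro _ ⟨b, rfl, rfl⟩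
      exact sub_le_iff_le_add'.2 ((csInf_le (s2 _) ⟨a + b, map_add _ _ _, rfl⟩).trans
        (norm_add_le _ _)))))
    fun c z => le_mul_sInf (s1 z) (norm_nonneg c) (by
      rintro _ ⟨a, rfl, rfl⟩
      exact csInf_le (s2 _) ⟨c • a, map_smul _ _ _, norm_smul _ _⟩)) C
    (fun z => (s3 z).trans (le_mul_of_one_le_left ((norm_nonneg _).trans (s3 z)) hC))
    (fun z => let ⟨x, h, h'⟩ := h3 z; (csInf_le (s2 z) ⟨x, h, rfl⟩).trans h')
    fun y z h => le_csInf (s1 z) (by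
      rintro _ ⟨b, rfl, rfl⟩
      obtain ⟨a, rfl, -⟩ := h3 y
      refine (csInf_le (s2 _) ⟨a ⊓ |b| ⊔ -|b|, ?_, rfl⟩).trans (norm_le_norm_of_abs_le_abs
        (abs_le'.2 ⟨sup_le inf_le_right (neg_le_self (abs_nonneg b)), neg_le.1 le_sup_right⟩))
      rw [IsHom.sup h1, IsHom.inf h1, map_neg, h1, inf_eq_left.2 (abs_le'.1 h).1,
        sup_eq_left.2 (neg_le.1 (abs_le'.1 h).2)])
  refine ⟨W, ι, i3, i4, isQuot_of (IsHom.comp i3 h1) (fun x => (i1 _).trans_le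
    (csInf_le (s2 _) ⟨x, rfl, rfl⟩)) fun z r hr => ?_⟩
  obtain ⟨z, rfl⟩ := ι.surjective z
  obtain ⟨_, ⟨x, rfl, rfl⟩, hx⟩ := exists_lt_of_csInf_lt (s1 z) ((i1 z).symm.trans_lt hr)
  exact ⟨x, rfl, hx.le⟩

lemma exists_G (I : Type) : ∃ (P : BL) (u : P) (h : I → P), Proj P ∧ HasUnit P ∧ 0 ≤ u ∧
    (∀ i, 0 ≤ h i ∧ h i ≤ (2 : ℝ) • u ∧ ‖h i‖ ≤ 1) ∧ ∀ (Y : BL) (v : Y) (k : I → Y), ‖v‖ ≤ 1 → 0 ≤ v →
      (∀ i, 0 ≤ k i ∧ k i ≤ (2 : ℝ) • v ∧ ‖k i‖ ≤ 1) →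
      (∃ T : P →L[ℝ] Y, IsHom T ∧ T u = v ∧ ∀ i, T (h i) = k i) ∧
      ∀ T : P →L[ℝ] Y, IsHom T → T u = v → (∀ i, T (h i) = k i) → ∀ x, ‖T x‖ ≤ ‖x‖ := by
  obtain ⟨P, δ, h1, h2, h3⟩ := exists_univ (A := Option I) (fun _ f => ∀ a, 0 ≤ f a ∧
    f a ≤ (2 : ℝ) • f none ∧ ‖f a‖ ≤ 1) fun _ _ h a => (h a).2.2
  have d1 : ∀ a, ‖δ a‖ ≤ 1 := fun a => h3 (.var a) 1 zero_le_one fun _ _ h => (h a).2.2
  have d0 : ∀ t, (∀ (Y : BL) (f : Option I → Y), (∀ a, 0 ≤ f a ∧ f a ≤ (2 : ℝ) • f none) →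
      0 ≤ ev f t) → 0 ≤ ev δ t := fun t ht => by
    have := h3 (.lin (-1) (.abs t) t) 0 le_rfl fun _ f h => by
      simp [ev, abs_of_nonneg (ht _ f fun a => ⟨(h a).1, (h a).2.1⟩)]
    simp only [ev, Rat.cast_neg, Rat.cast_one, neg_smul, one_smul, norm_le_zero_iff,
      add_neg_eq_zero] at this
    exact this ▸ abs_nonneg _
  have d2 : ∀ a, 0 ≤ δ a := fun a => d0 (.var a) fun _ _ h => (h a).1
  have d3 : ∀ a, δ a ≤ (2 : ℝ) • δ none := fun a => by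
    simpa [ev] using d0 (.lin (-1) (.lin 2 .zero (.var none)) (.var a)) fun _ _ h => by
      simpa [ev] using (h a).2
  have d4 : ∀ {Y : BL} {v : Y}, 0 ≤ v → v ≤ (2 : ℝ) • v := fun h => by
    rw [two_smul]; exact le_add_of_nonneg_left h
  refine ⟨P, δ none, fun i => δ (some i), fun X Z Q hQ T hT ε hε => ?_, ⟨δ none, d2 _, h1.mono ?_⟩,
    d2 _, fun i => ⟨d2 _, d3 _, d1 _⟩, fun Y v k v1 v0 hk => ?_⟩
  · rcases (norm_nonneg T).eq_or_lt with h | h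
    · exact ⟨0, fun _ => by simp, by rw [norm_eq_zero.1 h.symm]; simp, by simp [← h]⟩
    choose w w0 w1 w2 using fun a => IsQuot.lift_pos hQ (IsHom.nonneg hT (d2 a))
      (r := (1 + ε) * ‖T‖) ((T.le_opNorm_of_le (d1 a)).trans_lt (by nlinarith))
    have hr : 0 < (1 + ε) * ‖T‖ := by positivity
    have w3 : ∀ a, 0 ≤ w a ⊓ (2 : ℝ) • w none := fun a =>
      le_inf (w0 a) (smul_nonneg zero_le_two (w0 _))
    obtain ⟨S, s1, s2, s3⟩ := h2 X (fun a => ((1 + ε) * ‖T‖)⁻¹ • (w a ⊓ (2 : ℝ) • w none)) fun a =>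
      ⟨smul_nonneg (inv_pos.2 hr).le (w3 a), by
        rw [inf_eq_left.2 (d4 (w0 none)), smul_comm]
        exact smul_le_smul_of_nonneg_left inf_le_right (inv_pos.2 hr).le, by
        rw [norm_smul, norm_inv, Real.norm_of_nonneg hr.le, inv_mul_le_one₀ hr]
        exact (norm_le_norm_of_abs_le_abs (by
          rw [abs_of_nonneg (w3 a), abs_of_nonneg (w0 a)]; exact inf_le_left)).trans (w2 a).le⟩
    have s4 : IsHom (((1 + ε) * ‖T‖) • S) := fun x => by simp [s1 x, abs_smul', abs_of_pos hr]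
    refine ⟨_, s4, hom_ext (IsHom.comp hQ.1 s4) hT h1 fun a => ?_,
      ContinuousLinearMap.opNorm_le_bound _ hr.le fun x => ?_⟩
    · rw [ContinuousLinearMap.comp_apply, ContinuousLinearMap.smul_apply, s3, smul_inv_smul₀ hr.ne',
        IsHom.inf hQ.1, map_smul, w1, w1, ← map_smul, ← IsHom.inf hT, inf_eq_left.2 (d3 a)]
    · rw [ContinuousLinearMap.smul_apply, norm_smul, Real.norm_of_nonneg hr.le]
      exact mul_le_mul_of_nonneg_left (s2 x) hr.le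
  · rintro _ ⟨t, rfl⟩
    induction t with
    | zero => exact ⟨0, by simp [ev]⟩
    | var a => exact ⟨2, (abs_of_nonneg (d2 a)).trans_le (d3 a)⟩
    | lin q s t hs ht =>
      obtain ⟨c, hc⟩ := hs
      obtain ⟨d, hd⟩ := ht
      refine ⟨c + |(q : ℝ)| * d, (abs_add_le _ _).trans ?_⟩
      rw [add_smul, abs_smul', mul_smul]
      exact add_le_add hc (smul_le_smul_of_nonneg_left hd (abs_nonneg _))
    | abs s hs => exact hs.imp fun c hc => (abs_abs _).trans_le hc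
  · obtain ⟨S, s1, s2, s3⟩ := h2 Y (fun a => a.elim v k) fun a => by
      cases a
      exacts [⟨v0, d4 v0, v1⟩, hk _]
    refine ⟨⟨S, s1, s3 none, fun i => s3 (some i)⟩, fun T t1 t2 t3 => ?_⟩
    rwa [hom_ext t1 s1 h1 fun a => by cases a; exacts [t2.trans (s3 none).symm, (t3 _).trans (s3 (some _)).symm]]

end Pool.Agent.H26.BL8
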