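import Mathlib
import Pool.Agent.H26.BL8

set_option autoImplicit false

open Metric Filter Topology TopologicalSpace

namespace Pool.Agent.H26.BL9

open BL0 BL1 BL4 BL7

variable {X Y Z : BL} {A : Type}

lemma sep_term (f : A → X) {u : X} (hu : 0 ≤ u) (hf : ∀ a, |f a| ≤ u) (t : Tm A) (η : ℝ)
    (h : ∀ ξ : A → ℝ, (∀ a, |ξ a| ≤ 1) → (∀ a, f a = 0 → ξ a = 0) → |ev (Y := real) ξ t| ≤ η) :
    |ev f t| ≤ η • u := by
  let S : Submodule ℝ X :=
    { carrier := {x | ∃ c : ℝ, |x| ≤ c • u}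
      add_mem' := fun ⟨c, hc⟩ ⟨d, hd⟩ =>
        ⟨c + d, (abs_add_le _ _).trans (by rw [add_smul]; exact add_le_add hc hd)⟩
      zero_mem' := ⟨0, by simp⟩
      smul_mem' := fun c x ⟨d, hd⟩ => ⟨|c| * d, by
        rw [abs_smul', mul_smul]; exact smul_le_smul_of_nonneg_left hd (abs_nonneg c)⟩ }
  have hs : ∀ x ∈ S, |x| ∈ S := fun x ⟨c, hc⟩ => ⟨c, by rwa [abs_abs]⟩
  letI : Lattice S := Subtype.lattice
    (fun x y hx hy => by
      rw [sup_eq_half_smul_add_add_abs_sub ℝ]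
      exact S.smul_mem _ (S.add_mem (S.add_mem hx hy) (hs _ (S.sub_mem hy hx))))
    fun x y hx hy => by
      rw [inf_eq_half_smul_add_sub_abs_sub ℝ]
      exact S.smul_mem _ (S.sub_mem (S.add_mem hx hy) (hs _ (S.sub_mem hy hx)))
  haveI : IsOrderedAddMonoid S :=
    { add_le_add_left := fun a b h c => add_le_add_left (show (a : X) ≤ b from h) c.1 }
  haveI : PosSMulMono ℝ S := ⟨fun c hc a b h => show c • (a : X) ≤ c • (b : X) from
    smul_le_smul_of_nonneg_left (show (a : X) ≤ b from h) hc⟩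
  let U : S := ⟨u, 1, by rw [abs_of_nonneg hu, one_smul]⟩
  let g : A → S := fun a => ⟨f a, 1, by rw [one_smul]; exact hf a⟩
  have h1 : ∀ t, ∃ y : S, y.1 = ev f t ∧ ∀ φ, St U φ → φ y = ev (Y := real) (fun a => φ (g a)) t :=
    fun t => by
      induction t with
      | zero => exact ⟨0, rfl, fun φ _ => map_zero φ⟩
      | var a => exact ⟨g a, rfl, fun _ _ => rfl⟩
      | lin q s t hs ht =>
        obtain ⟨y, y1, y2⟩ := hs
        obtain ⟨z, z1, z2⟩ := ht
        exact ⟨y + (q : ℝ) • z, by rw [ev, ← y1, ← z1]; rfl, fun φ h => by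
          rw [ev, ← y2 φ h, ← z2 φ h, map_add, map_smul]⟩
      | abs s hs =>
        obtain ⟨y, y1, y2⟩ := hs
        exact ⟨|y|, by rw [ev, ← y1]; rfl, fun φ h => by rw [ev, ← y2 φ h, h.abs]⟩
  obtain ⟨y, y1, y2⟩ := h1 t
  rw [← y1]
  refine separate (u := U) hu (fun x => x.2) (fun x hx => show (x : X) ≤ 0 from ge_of_tendsto
    (f := fun n : ℕ => (1 / (n + 1 : ℝ)) • u) (x := atTop) (by
      simpa using (tendsto_one_div_add_atTop_nhds_zero_nat (𝕜 := ℝ)).smul_const u)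
    (Eventually.of_forall fun n => hx _ Nat.one_div_pos_of_nat)) (a := |y|) (b := η • U)
    fun φ hφ => ?_
  rw [hφ.abs, y2 φ hφ, map_smul, hφ.2, smul_eq_mul, mul_one]
  refine h _ (fun a => ?_) fun a ha => by rw [show g a = 0 from Subtype.ext ha, map_zero]
  rw [← hφ.abs, ← hφ.2]
  exact hφ.mono (show |g a| ≤ U from hf a)

lemma vars (t : Tm A) : ∃ B : Finset A, ∀ f g : A → X, (∀ a ∈ B, f a = g a) → ev f t = ev g t := by
  classical
  induction t with
  | zero => exact ⟨∅, fun _ _ _ => rfl⟩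
  | var a => exact ⟨{a}, fun _ _ h => h a (Finset.mem_singleton_self a)⟩
  | lin q s t hs ht =>
    obtain ⟨B, hB⟩ := hs
    obtain ⟨C, hC⟩ := ht
    exact ⟨B ∪ C, fun f g h => by
      rw [ev, ev, hB f g fun a ha => h a (Finset.mem_union_left _ ha),
        hC f g fun a ha => h a (Finset.mem_union_right _ ha)]⟩
  | abs s hs => exact hs.imp fun B hB f g h => by rw [ev, ev, hB f g h]

lemma ev_cont (t : Tm A) : Continuous fun ξ : A → ℝ => (ev (Y := real) ξ t : ℝ) := by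
  induction t with
  | zero => exact continuous_const
  | var a => exact continuous_apply a
  | lin q s t hs ht => exact hs.add (ht.const_smul (q : ℝ))
  | abs s hs => exact hs.abs

lemma exists_FBL (A : Type) [Nonempty A] : ∃ (F : BL) (δ : A → F) (P : Set A → F →L[ℝ] F)
    (ψ : (A → ℚ) → F →L[ℝ] real), DenseRange (ev δ) ∧ (∀ a, ‖δ a‖ ≤ 1) ∧
    (∀ (Y : BL) (f : A → Y), (∀ a, ‖f a‖ ≤ 1) →
      ∃ T : F →L[ℝ] Y, IsHom T ∧ (∀ x, ‖T x‖ ≤ ‖x‖) ∧ ∀ a, T (δ a) = f a) ∧
    (∀ S, IsHom (P S) ∧ ∀ a, P S (δ a) = S.indicator δ a) ∧ (∀ ξ, IsHom (ψ ξ) ∧ ∀ x, ‖ψ ξ x‖ ≤ ‖x‖) ∧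
    (∀ w, ∃ e : ℕ → A, ∀ S, Set.range e ⊆ S → P S w = w) ∧
    ∀ S v, P S v = v → v ≠ 0 → ∃ (B : Finset A) (ξ : A → ℚ), ↑B ⊆ S ∧ (∀ a ∉ B, ξ a = 0) ∧
      ψ ξ v ≠ 0 := by
  classical
  obtain ⟨F, δ, h1, h2, h3⟩ := exists_univ (A := A) (fun _ f => ∀ a, ‖f a‖ ≤ 1) fun _ _ h => h
  have d1 : ∀ a, ‖δ a‖ ≤ 1 := fun a => h3 (.var a) 1 zero_le_one fun _ _ h => h a
  choose P p1 p2 p3 using fun S : Set A => h2 F (S.indicator δ) fun a =>
    (norm_indicator_le_norm_self δ a).trans (d1 a)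
  let cl : ℝ → ℝ := fun r => max (-1) (min 1 r)
  choose ψ q1 q2 q3 using fun ξ : A → ℚ => h2 real (fun a => cl (ξ a)) fun a =>
    abs_le.2 ⟨le_max_left _ _, max_le (by norm_num) (min_le_left _ _)⟩
  refine ⟨F, δ, P, ψ, h1, d1, h2, fun S => ⟨p1 S, p3 S⟩, fun ξ => ⟨q1 ξ, q2 ξ⟩, fun w => ?_,
    fun S v hv hv' => ?_⟩
  · obtain ⟨x, hx, hx'⟩ := mem_closure_iff_seq_limit.1 (h1 w)
    choose t ht using hx
    choose B hB using fun n => vars (X := F) (t n)
    obtain ⟨e, he⟩ := Set.countable_iff_exists_subset_range.1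
      (Set.countable_iUnion fun n => (B n).countable_toSet)
    refine ⟨e, fun S hS => tendsto_nhds_unique (((P S).continuous.tendsto w).comp hx')
      (hx'.congr fun n => ?_)⟩
    rw [Function.comp_apply, ← ht, ev_hom (p1 S) (p3 S)]
    exact hB n _ _ fun a ha => (Set.indicator_of_mem (hS (he (Set.mem_iUnion.2 ⟨n, ha⟩))) δ).symm
  by_contra! h
  obtain ⟨t, ht⟩ := h1.exists_dist_lt v (half_pos (norm_pos_iff.2 hv'))
  obtain ⟨C, hC⟩ := vars (X := F) t
  let B := C.filter (· ∈ S)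
  have h4 : P B v = 0 := norm_le_zero_iff.1 (le_of_forall_pos_le_add fun η hη => by
    let u := ∑ b ∈ B, |δ b|
    have hu : 0 ≤ u := Finset.sum_nonneg fun _ _ => abs_nonneg _
    have h0 : 0 < η / (1 + ‖u‖) := by positivity
    obtain ⟨s, hs⟩ := h1.exists_dist_lt v h0
    rw [dist_eq_norm] at hs
    have h5 := sep_term ((B : Set A).indicator δ) hu (fun a => by
      by_cases ha : a ∈ (B : Set A)
      · rw [Set.indicator_of_mem ha]
        exact Finset.single_le_sum (f := fun b => |δ b|) (fun _ _ => abs_nonneg _) ha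
      · rw [Set.indicator_of_notMem ha, abs_zero]; exact hu) s (η / (1 + ‖u‖)) fun ξ x1 x2 => by
      have h6 : ξ ∈ closure (Set.univ.pi fun a => if a ∈ B then Set.range ((↑) : ℚ → ℝ) else {0}) :=
        mem_closure_pi.2 fun a _ => by
          split_ifs with ha
          exacts [Rat.denseRange_cast _, subset_closure (x2 a (Set.indicator_of_notMem ha _))]
      rw [show ξ = fun a => cl (ξ a) from funext fun a => by
        simp [cl, (abs_le.1 (x1 a)).1, (abs_le.1 (x1 a)).2]]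
      refine closure_minimal (fun ζ hζ => ?_) (isClosed_le (f := fun ξ : A → ℝ =>
        |(ev (Y := real) (fun a => cl (ξ a)) s : ℝ)|) ((ev_cont s).comp (by fun_prop)).abs
          continuous_const) h6
      have h7 : ∀ a, ∃ q : ℚ, (q : ℝ) = ζ a ∧ (a ∉ B → q = 0) := fun a => by
        have := hζ a trivial
        beta_reduce at this
        by_cases ha : a ∈ B
        · rw [if_pos ha] at this
          exact this.imp fun q hq => ⟨hq, fun h => absurd ha h⟩
        · rw [if_neg ha] at this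
          exact ⟨0, Rat.cast_zero.trans this.symm, fun _ => rfl⟩
      choose q z1 z2 using h7
      have := q2 q (v - ev δ s)
      rw [map_sub, h B q (fun a ha => (Finset.mem_filter.1 ha).2) z2, zero_sub, norm_neg,
        ev_hom (q1 q) (q3 q)] at this
      simp only [z1] at this
      exact this.trans hs.le
    have h6 := norm_le_norm_of_abs_le_abs (h5.trans (le_abs_self _))
    have h7 := p2 B (v - ev δ s)
    rw [← ev_hom (p1 B) (p3 B), norm_smul, Real.norm_of_nonneg h0.le] at h6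
    rw [map_sub] at h7
    have h8 : η / (1 + ‖u‖) * ‖u‖ + η / (1 + ‖u‖) = η := by field_simp; ring
    linarith [norm_sub_norm_le (P B v) (P B (ev δ s))])
  have h5 : P S (v - ev δ t) - P B (v - ev δ t) = v := by
    rw [map_sub, map_sub, hv, h4, ev_hom (p1 _) (p3 _), ev_hom (p1 _) (p3 _), hC _ ((B : Set A).indicator δ)
      fun a ha => by simp [B, Set.indicator, ha]]
    abel
  rw [dist_eq_norm] at ht
  linarith [norm_sub_le (P S (v - ev δ t)) (P B (v - ev δ t)), p2 S (v - ev δ t), p2 B (v - ev δ t),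
    congrArg norm h5]

end Pool.Agent.H26.BL9
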