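import Mathlib

open Filter Topology

namespace Pool.Agent.H26.BasicSeq

variable {𝕜 : Type*} [RCLike 𝕜] {Z : Type*} [NormedAddCommGroup Z] [NormedSpace 𝕜 Z]

theorem grunblum (f : ℕ → Z) (hf : ∀ n, f n ≠ 0) (K : ℝ)
    (hK : ∀ (a : ℕ → 𝕜) (n m : ℕ), n ≤ m →
      ‖∑ i ∈ Finset.range n, a i • f i‖ ≤ K * ‖∑ i ∈ Finset.range m, a i • f i‖)
    (y : Z) (hy : y ∈ (Submodule.span 𝕜 (Set.range f)).topologicalClosure) :
    ∃! a : ℕ → 𝕜, Tendsto (fun N => ∑ i ∈ Finset.range N, a i • f i) atTop (𝓝 y) := by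
  have h1 : ∀ (a b : ℕ → 𝕜) (u v : Z),
      Tendsto (fun N => ∑ i ∈ Finset.range N, a i • f i) atTop (𝓝 u) →
      Tendsto (fun N => ∑ i ∈ Finset.range N, b i • f i) atTop (𝓝 v) →
      ∀ n, ‖∑ i ∈ Finset.range n, (a i - b i) • f i‖ ≤ K * ‖u - v‖ := by
    intro a b u v hu hv n
    refine ge_of_tendsto ((hu.sub hv).norm.const_mul K) ?_
    filter_upwards [eventually_ge_atTop n] with m hm
    simpa only [sub_smul, Finset.sum_sub_distrib] using hK (fun i => a i - b i) n m hm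
  have h2 : ∀ (c : ℕ → 𝕜) (C : ℝ), (∀ n, ‖∑ i ∈ Finset.range n, c i • f i‖ ≤ C) →
      ∀ i, ‖c i‖ ≤ 2 * C / ‖f i‖ := by
    intro c C h i
    rw [le_div_iff₀ (norm_pos_iff.2 (hf i)), ← norm_smul]
    have e : c i • f i = ∑ j ∈ Finset.range (i + 1), c j • f j - ∑ j ∈ Finset.range i, c j • f j := by
      rw [Finset.sum_range_succ]; abel
    rw [e]
    linarith [norm_sub_le (∑ j ∈ Finset.range (i + 1), c j • f j) (∑ j ∈ Finset.range i, c j • f j),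
      h (i + 1), h i]
  refine existsUnique_of_exists_of_unique ?_ fun a b ha hb => funext fun i => ?_
  swap
  · have := h2 _ _ (h1 a b y y ha hb) i
    simpa [sub_eq_zero] using this
  obtain ⟨w, hw, hwy⟩ := mem_closure_iff_seq_limit.1 hy
  have h3 : ∀ z ∈ Submodule.span 𝕜 (Set.range f), ∃ a : ℕ → 𝕜,
      Tendsto (fun N => ∑ i ∈ Finset.range N, a i • f i) atTop (𝓝 z) := by
    intro z hz
    induction hz using Submodule.span_induction with
    | mem x hx =>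
      obtain ⟨j, rfl⟩ := hx
      refine ⟨fun i => if i = j then 1 else 0, tendsto_const_nhds.congr' ?_⟩
      filter_upwards [eventually_gt_atTop j] with n hn
      simp [hn]
    | zero => exact ⟨0, by simp⟩
    | add x y _ _ hx hy =>
      obtain ⟨a, ha⟩ := hx
      obtain ⟨b, hb⟩ := hy
      exact ⟨a + b, by simpa [add_smul, Finset.sum_add_distrib] using ha.add hb⟩
    | smul c x _ hx =>
      obtain ⟨a, ha⟩ := hx
      exact ⟨c • a, by simpa [Finset.smul_sum, smul_smul] using ha.const_smul c⟩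
  choose A hA using fun k => h3 (w k) (hw k)
  have h4 : ∀ i, CauchySeq fun k => A k i := by
    intro i
    rw [cauchySeq_iff_tendsto_dist_atTop_0]
    have h5 := cauchySeq_iff_tendsto_dist_atTop_0.1 hwy.cauchySeq
    have h6 := ((h5.const_mul K).const_mul 2).div_const ‖f i‖
    simp only [mul_zero, zero_div] at h6
    refine squeeze_zero (fun _ => dist_nonneg) (fun p => ?_) h6
    simp only [dist_eq_norm]
    exact h2 _ _ (h1 _ _ _ _ (hA p.1) (hA p.2)) i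
  choose a ha using fun i => cauchySeq_tendsto_of_complete (h4 i)
  have h5 : ∀ k n, ‖∑ i ∈ Finset.range n, (A k i - a i) • f i‖ ≤ K * ‖w k - y‖ := fun k n =>
    le_of_tendsto_of_tendsto' (tendsto_finsetSum _ fun i _ =>
      ((ha i).const_sub (A k i)).smul_const (f i)).norm
      (((hwy.const_sub (w k)).norm).const_mul K) fun l => h1 _ _ _ _ (hA k) (hA l) n
  refine ⟨a, Metric.tendsto_nhds.2 fun ε hε => ?_⟩
  have h6 : Tendsto (fun k => K * ‖w k - y‖ + ‖w k - y‖) atTop (𝓝 0) := by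
    have := tendsto_iff_norm_sub_tendsto_zero.1 hwy
    simpa using (this.const_mul K).add this
  obtain ⟨k, hk⟩ := (h6.eventually (gt_mem_nhds (half_pos hε))).exists
  filter_upwards [Metric.tendsto_nhds.1 (hA k) _ (half_pos hε)] with n hn
  rw [dist_eq_norm] at hn ⊢
  have e : ∑ i ∈ Finset.range n, a i • f i - y = (∑ i ∈ Finset.range n, A k i • f i - w k)
      - ∑ i ∈ Finset.range n, (A k i - a i) • f i + (w k - y) := by
    simp only [sub_smul, Finset.sum_sub_distrib]; abel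
  rw [e]
  refine lt_of_le_of_lt ((norm_add_le _ _).trans (add_le_add_left (norm_sub_le _ _) _)) ?_
  linarith [h5 k n]

theorem mazur (F W : Submodule 𝕜 Z) [FiniteDimensional 𝕜 F] (hW : ¬ FiniteDimensional 𝕜 W)
    (ε : ℝ) (hε : 0 < ε) :
    ∃ u ∈ W, ‖u‖ = 1 ∧ ∀ x ∈ F, ∀ a : 𝕜, (1 - ε) * ‖x‖ ≤ ‖x + a • u‖ := by
  have : ProperSpace F := FiniteDimensional.proper_rclike 𝕜 F
  obtain ⟨t, ht1, ht2, ht3⟩ := finite_cover_balls_of_compact (isCompact_sphere (0 : F) 1) hε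
  have hψ : ∀ x : F, ∃ g : StrongDual 𝕜 Z, ‖g‖ ≤ 1 ∧ g x = ‖(x : Z)‖ :=
    fun x => exists_dual_vector'' 𝕜 (x : Z)
  choose ψ hψ1 hψ2 using hψ
  have : Finite t := ht2
  let L : W →ₗ[𝕜] (t → 𝕜) := LinearMap.pi fun x : t => (ψ x).toLinearMap.comp W.subtype
  obtain ⟨v, hv, hv0⟩ : ∃ v : W, L v = 0 ∧ v ≠ 0 := by
    by_contra hc
    push Not at hc
    exact hW (FiniteDimensional.of_injective L ((injective_iff_map_eq_zero L).2 hc))
  have hn : ‖(v : Z)‖ ≠ 0 := norm_ne_zero_iff.2 fun h => hv0 (Subtype.ext h)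
  refine ⟨((‖(v : Z)‖ : 𝕜))⁻¹ • v, W.smul_mem _ v.2, by
    rw [norm_smul, norm_inv, RCLike.norm_ofReal, abs_norm, inv_mul_cancel₀ hn], fun x hx a => ?_⟩
  by_cases hx0 : x = 0
  · simp [hx0]
  have hx1 : 0 < ‖x‖ := norm_pos_iff.2 hx0
  let x' : F := ((‖x‖ : 𝕜))⁻¹ • ⟨x, hx⟩
  have hx' : x' ∈ Metric.sphere (0 : F) 1 := by
    rw [mem_sphere_zero_iff_norm, norm_smul, norm_inv, RCLike.norm_ofReal, abs_norm]
    exact inv_mul_cancel₀ hx1.ne'
  obtain ⟨s, hs, hs'⟩ := Set.mem_iUnion₂.1 (ht3 hx')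
  have h1 : ‖(s : Z)‖ = 1 := mem_sphere_zero_iff_norm.1 (ht1 hs)
  have h2 : ψ s v = 0 := congrFun hv ⟨s, hs⟩
  have h3 : x = (‖x‖ : 𝕜) • (x' : Z) := by
    have : (‖x‖ : 𝕜) ≠ 0 := by exact_mod_cast hx1.ne'
    simp [x', smul_smul, this]
  have h4 : 1 - ε ≤ ‖ψ s x'‖ := by
    have a1 : ‖ψ s ((s : Z) - x')‖ ≤ ε := by
      refine ((ψ s).le_opNorm _).trans ((mul_le_of_le_one_left (norm_nonneg _) (hψ1 s)).trans ?_)
      rw [Metric.mem_ball, dist_comm, dist_eq_norm] at hs'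
      exact hs'.le
    rw [map_sub, hψ2, h1] at a1
    have a2 := norm_sub_norm_le ((1 : ℝ) : 𝕜) (ψ s x')
    rw [RCLike.norm_ofReal, abs_one] at a2
    linarith
  have h5 : ‖ψ s (x + a • ((‖(v : Z)‖ : 𝕜))⁻¹ • (v : Z))‖ = ‖x‖ * ‖ψ s x'‖ := by
    rw [map_add, map_smul, map_smul, h2, smul_zero, smul_zero, add_zero]
    nth_rewrite 1 [h3]
    rw [map_smul, norm_smul, RCLike.norm_ofReal, abs_norm]
  have h6 := ((ψ s).le_opNorm (x + a • ((‖(v : Z)‖ : 𝕜))⁻¹ • (v : Z))).trans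
    (mul_le_of_le_one_left (norm_nonneg _) (hψ1 s))
  rw [h5] at h6
  nlinarith

theorem step (F W : Submodule 𝕜 Z) [FiniteDimensional 𝕜 F] (hW : ¬ FiniteDimensional 𝕜 W)
    (g : Z) (ε : ℝ) (hε : 0 < ε) (hε1 : ε ≤ 1) :
    ∃ f, f - g ∈ W ∧ ∀ x ∈ F, ∀ a : 𝕜, (1 - ε) * ‖x‖ ≤ ‖x + a • f‖ := by
  obtain ⟨u, hu, hu1, h⟩ := mazur F W hW (ε / 2) (half_pos hε)
  set M : ℝ := 6 * ‖g‖ / ε + 1 with hM
  have hM0 : 0 < M := by positivity
  have hM1 : 6 * ‖g‖ ≤ ε * M := by rw [hM, mul_add, mul_div_cancel₀ _ hε.ne']; linarith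
  refine ⟨g + (M : 𝕜) • u, by simpa using W.smul_mem _ hu, fun x hx a => ?_⟩
  have h1 := h x hx (a * M)
  set v := x + (a * (M : 𝕜)) • u with hv
  have h2 : ‖a‖ * M ≤ ‖v‖ + ‖x‖ := by
    have := norm_sub_le v x
    rw [hv, add_sub_cancel_left, norm_smul, hu1, norm_mul, RCLike.norm_ofReal, abs_of_pos hM0,
      mul_one] at this
    exact this
  have h3 : ‖v‖ ≤ ‖x + a • (g + (M : 𝕜) • u)‖ + ‖a‖ * ‖g‖ := by
    have e : v = x + a • (g + (M : 𝕜) • u) - a • g := by rw [hv, smul_add, smul_smul]; abel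
    rw [e, ← norm_smul]
    exact norm_sub_le _ _
  have h4 : ‖x‖ ≤ 2 * ‖v‖ := by nlinarith [norm_nonneg x]
  have h5 : ‖a‖ * ‖g‖ ≤ ε / 2 * ‖v‖ := by
    have := mul_le_mul_of_nonneg_left hM1 (norm_nonneg a)
    nlinarith
  have h6 : (1 - ε / 2) * ((1 - ε / 2) * ‖x‖) ≤ (1 - ε / 2) * ‖v‖ :=
    mul_le_mul_of_nonneg_left h1 (by linarith)
  nlinarith [mul_nonneg (sq_nonneg ε) (norm_nonneg x)]

theorem exists_basic (W : Submodule 𝕜 Z) (hW : ¬ FiniteDimensional 𝕜 W) (g : ℕ → Z) :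
    ∃ f : ℕ → Z, (∀ n, f n - g n ∈ W) ∧ ∀ (a : ℕ → 𝕜) (n m : ℕ), n ≤ m →
      ‖∑ i ∈ Finset.range n, a i • f i‖ ≤ 2 * ‖∑ i ∈ Finset.range m, a i • f i‖ := by
  classical
  have h1 : ∀ (n : ℕ) (s : Finset Z), ∃ f, f - g n ∈ W ∧ ∀ x ∈ Submodule.span 𝕜 (s : Set Z),
      ∀ a : 𝕜, (1 - 1 / (2 * ((n : ℝ) + 1) * (n + 2))) * ‖x‖ ≤ ‖x + a • f‖ := fun n s =>
    step _ W hW (g n) _ (by positivity) (by
      rw [div_le_one (by positivity)]
      nlinarith [(Nat.cast_nonneg n : (0 : ℝ) ≤ n)])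
  choose nx h2 h3 using h1
  let S : ℕ → Finset Z := fun n => Nat.rec ∅ (fun n s => insert (nx n s) s) n
  have hS : ∀ n, S (n + 1) = insert (nx n (S n)) (S n) := fun _ => rfl
  have hmono : Monotone S := monotone_nat_of_le_succ fun n => hS n ▸ Finset.subset_insert _ _
  refine ⟨fun n => nx n (S n), fun n => h2 n _, fun a n m hnm => ?_⟩
  set s : ℕ → Z := fun n => ∑ i ∈ Finset.range n, a i • nx i (S i) with hs
  have h4 : Monotone fun n : ℕ => (2 - 1 / ((n : ℝ) + 1)) * ‖s n‖ := by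
    refine monotone_nat_of_le_succ fun n => ?_
    have h5 := h3 n (S n) (s n) (Submodule.sum_mem _ fun i hi => Submodule.smul_mem _ _
      (Submodule.subset_span (hmono (Finset.mem_range.1 hi)
        (hS i ▸ Finset.mem_insert_self _ _)))) (a n)
    rw [← Finset.sum_range_succ (fun i => a i • nx i (S i))] at h5
    have hn : (0 : ℝ) ≤ n := Nat.cast_nonneg n
    have h6 : (2 - 1 / ((n : ℝ) + 1)) ≤
        (2 - 1 / ((n : ℝ) + 1 + 1)) * (1 - 1 / (2 * ((n : ℝ) + 1) * (n + 2))) := by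
      rw [← sub_nonneg]
      have : (2 - 1 / ((n : ℝ) + 1 + 1)) * (1 - 1 / (2 * ((n : ℝ) + 1) * (n + 2))) -
          (2 - 1 / ((n : ℝ) + 1)) = 1 / (2 * ((n : ℝ) + 1) * (n + 2) ^ 2) := by
        field_simp; ring
      rw [this]; positivity
    have h7 : 0 ≤ 2 - 1 / ((n : ℝ) + 1 + 1) := by
      have : 1 / ((n : ℝ) + 1 + 1) ≤ 1 := by rw [div_le_one (by positivity)]; linarith
      linarith
    push_cast
    calc _ ≤ (2 - 1 / ((n : ℝ) + 1 + 1)) * (1 - 1 / (2 * ((n : ℝ) + 1) * (n + 2))) * ‖s n‖ :=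
          mul_le_mul_of_nonneg_right h6 (norm_nonneg _)
      _ ≤ _ := by rw [mul_assoc]; exact mul_le_mul_of_nonneg_left h5 h7
  have h5 := h4 hnm
  have h6 : 1 / ((n : ℝ) + 1) ≤ 1 := by
    rw [div_le_one (by positivity)]; linarith [(Nat.cast_nonneg n : (0 : ℝ) ≤ n)]
  have h7 : 0 ≤ 1 / ((m : ℝ) + 1) := by positivity
  simp only at h5
  nlinarith [norm_nonneg (s n), norm_nonneg (s m)]

end Pool.Agent.H26.BasicSeq
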