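import Mathlib

set_option autoImplicit false

open Finset ComplexConjugate

namespace Pool.Agent.H26.Cone

def rel (y f g : ℂ) : Prop := ∃ α β : ℝ, 0 ≤ α ∧ 0 ≤ β ∧ g * conj f = α + β * y

variable {y : ℂ}

theorem rel_refl (f : ℂ) : rel y f f :=
  ⟨Complex.normSq f, 0, Complex.normSq_nonneg f, le_rfl, by rw [Complex.mul_conj]; simp⟩

theorem rel_zero_left (f : ℂ) : rel y 0 f := ⟨0, 0, le_rfl, le_rfl, by simp⟩

theorem rel_zero_right (f : ℂ) : rel y f 0 := ⟨0, 0, le_rfl, le_rfl, by simp⟩

theorem rel.add_right {f g h : ℂ} (h1 : rel y f g) (h2 : rel y f h) : rel y f (g + h) := by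
  obtain ⟨a, b, ha, hb, e⟩ := h1
  obtain ⟨c, d, hc, hd, e'⟩ := h2
  exact ⟨a + c, b + d, by positivity, by positivity, by push_cast; linear_combination e + e'⟩

theorem rel.add_left {f g h : ℂ} (h1 : rel y f h) (h2 : rel y g h) : rel y (f + g) h := by
  obtain ⟨a, b, ha, hb, e⟩ := h1
  obtain ⟨c, d, hc, hd, e'⟩ := h2
  exact ⟨a + c, b + d, by positivity, by positivity, by
    rw [map_add]; push_cast; linear_combination e + e'⟩

theorem rel.mul_right {f g : ℂ} {t : ℝ} (ht : 0 ≤ t) (h : rel y f g) : rel y f (t * g) := by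
  obtain ⟨a, b, ha, hb, e⟩ := h
  exact ⟨t * a, t * b, by positivity, by positivity, by push_cast; linear_combination t * e⟩

theorem rel.mul_left {f g : ℂ} {t : ℝ} (ht : 0 ≤ t) (h : rel y f g) : rel y (t * f) g := by
  obtain ⟨a, b, ha, hb, e⟩ := h
  exact ⟨t * a, t * b, by positivity, by positivity, by
    rw [map_mul, Complex.conj_ofReal]; push_cast; linear_combination t * e⟩

theorem rel.shift {f g : ℂ} (h : rel y f g) : rel y g (y * f) := by
  obtain ⟨a, b, ha, hb, e⟩ := h
  refine ⟨b * Complex.normSq y, a, mul_nonneg hb (Complex.normSq_nonneg y), ha, ?_⟩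
  have e2 := congrArg conj e
  simp only [map_mul, map_add, Complex.conj_conj, Complex.conj_ofReal] at e2
  push_cast
  rw [← Complex.mul_conj]
  linear_combination y * e2

theorem rel.cancel {f g c : ℂ} (hc : c ≠ 0) (h : rel y (c * f) (c * g)) : rel y f g := by
  obtain ⟨a, b, ha, hb, e⟩ := h
  have hn : 0 < Complex.normSq c := Complex.normSq_pos.2 hc
  have hn' : (Complex.normSq c : ℂ) ≠ 0 := by exact_mod_cast hn.ne'
  refine ⟨a / Complex.normSq c, b / Complex.normSq c, by positivity, by positivity, ?_⟩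
  push_cast
  field_simp
  rw [← Complex.mul_conj]
  rw [map_mul] at e
  linear_combination e

theorem rel_sum_right {s : Finset ℕ} {f : ℂ} {g : ℕ → ℂ} (h : ∀ i ∈ s, rel y f (g i)) :
    rel y f (∑ i ∈ s, g i) :=
  Finset.sum_induction g (rel y f) (fun _ _ => rel.add_right) (rel_zero_right f) h

theorem rel_sum_left {s : Finset ℕ} {f : ℂ} {g : ℕ → ℂ} (h : ∀ i ∈ s, rel y (g i) f) :
    rel y (∑ i ∈ s, g i) f :=
  Finset.sum_induction g (fun x => rel y x f) (fun _ _ => rel.add_left) (rel_zero_left f) h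

theorem rel.ne (hy : ¬ (y.im = 0 ∧ y.re < 0)) {f g : ℂ} {t : ℝ} (ht : 0 < t) (hf : f ≠ 0)
    (h : rel y f g) : g + t * f ≠ 0 := by
  intro h0
  obtain ⟨a, b, ha, hb, e⟩ := h
  have hn : 0 < Complex.normSq f := Complex.normSq_pos.2 hf
  have e2 : (a : ℂ) + b * y + t * Complex.normSq f = 0 := by
    rw [← Complex.mul_conj]; linear_combination conj f * h0 - e
  have e3 := congrArg Complex.re e2
  have e4 := congrArg Complex.im e2
  simp at e3 e4
  have h5 : 0 < t * Complex.normSq f := mul_pos ht hn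
  apply hy
  rcases e4 with e4 | e4
  · rw [e4] at e3; linarith
  · refine ⟨e4, ?_⟩
    by_contra hc
    have := mul_nonneg hb (not_lt.1 hc)
    linarith

theorem down {P : ℕ → Prop} {lo hi : ℕ} (h0 : P hi)
    (hs : ∀ j, lo ≤ j → j < hi → P (j + 1) → P j) : ∀ j, lo ≤ j → j ≤ hi → P j := by
  intro j h1 h2
  induction h2 using Nat.decreasingInduction with
  | self => exact h0
  | of_succ k hk ih => exact hs k h1 hk (ih (by omega))

theorem core_pos (hy : ¬ (y.im = 0 ∧ y.re < 0)) {n r : ℕ} (hn : 0 < n) (hr : 0 < r)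
    {a : ℕ → ℝ} (ha : ∀ i, 0 < a i) {R : ℕ → ℕ → ℂ} (h0 : ∀ j, j ≤ n → R 0 j = 1)
    (hA : ∀ m j, j < n → R (m + 1) j = R (m + 1) (j + 1) + a j * R m j)
    (hB : ∀ m, R (m + 1) n = y * if r ≤ m + 1 then R (m + 1 - r) 0 else 0) (m : ℕ) :
    R m 0 ≠ 0 := by
  have key : ∀ m, (∀ m1, m1 ≤ m → m + 1 ≤ m1 + r → ∀ k, k < n → rel y (R m1 0) (R m k)) ∧
      (∀ k' k, k ≤ k' → k' < n → rel y (R m k) (R m k')) ∧ R m 0 ≠ 0 := by
    intro m
    induction m using Nat.strong_induction_on with
    | _ m ih =>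
    rcases m with _ | m
    · refine ⟨fun m1 h1 _ k hk => ?_, fun k' k h1 h2 => ?_, by rw [h0 0 (by omega)]; simp⟩
      · obtain rfl : m1 = 0 := by omega
        rw [h0 0 (by omega), h0 k hk.le]; exact rel_refl 1
      · rw [h0 k (by omega), h0 k' h2.le]; exact rel_refl 1
    obtain ⟨hb, hc, hd⟩ := ih m (by omega)
    have u1 : ∀ k, k < n → rel y (R m k) (R (m + 1) n) := by
      intro k hk
      rw [hB]
      apply rel.shift
      split_ifs with h
      · exact hb _ (by omega) (by omega) k hk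
      · exact rel_zero_left _
    have he : ∀ i, i < n → ∀ j, i ≤ j → j ≤ n → rel y (R m i) (R (m + 1) j) := by
      intro i hi
      refine down (u1 i hi) fun j h1 h2 h3 => ?_
      rw [hA m j h2]
      exact h3.add_right ((hc j i h1 h2).mul_right (ha j).le)
    have hc' : ∀ k' k, k ≤ k' → k' < n → rel y (R (m + 1) k) (R (m + 1) k') := by
      intro k' k h1 h2
      refine down (P := fun k => rel y (R (m + 1) k) (R (m + 1) k')) (lo := 0) (rel_refl _)
        (fun j _ h4 h3 => ?_) k (Nat.zero_le _) h1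
      show rel y (R (m + 1) j) _
      rw [hA m j (by omega)]
      exact h3.add_left ((he j (by omega) k' h4.le h2.le).mul_left (ha j).le)
    refine ⟨fun m1 h1 h2 k hk => ?_, hc', ?_⟩
    · rcases h1.eq_or_lt with rfl | h1
      · exact hc' k 0 (Nat.zero_le _) hk
      refine down (P := fun k => rel y (R m1 0) (R (m + 1) k)) (lo := 0) ?_
        (fun j _ h4 h3 => ?_) k (Nat.zero_le _) hk.le
      · show rel y _ (R (m + 1) n)
        rw [hB]
        apply rel.shift
        split_ifs with h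
        · exact (ih m1 h1).1 _ (by omega) (by omega) 0 hn
        · exact rel_zero_left _
      · show rel y _ (R (m + 1) j)
        rw [hA m j h4]
        exact h3.add_right ((hb m1 (by omega) (by omega) j h4).mul_right (ha j).le)
    · rw [hA m 0 hn]
      exact (he 0 hn 1 (by omega) hn).ne hy (ha 0) hd
  exact (key m).2.2

theorem core_zero (hy : ¬ (y.im = 0 ∧ y.re < 0)) (hy1 : 1 - y ≠ 0) {n : ℕ} (hn : 0 < n)
    {a : ℕ → ℝ} (ha : ∀ i, 0 < a i) {R : ℕ → ℕ → ℂ} (h0 : ∀ j, j ≤ n → R 0 j = R 0 0)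
    (h00 : R 0 0 ≠ 0)
    (hA : ∀ m j, j < n → R (m + 1) j = R (m + 1) (j + 1) + a j * R m j)
    (hB : ∀ m, R (m + 1) n = y * R (m + 1) 0) (m : ℕ) : R m 0 ≠ 0 := by
  have key : ∀ m, (∀ k' k, k ≤ k' → k' < n → rel y (R m k) (R m k')) ∧ R m 0 ≠ 0 := by
    intro m
    induction m with
    | zero =>
      refine ⟨fun k' k h1 h2 => ?_, h00⟩
      rw [h0 k (by omega), h0 k' h2.le]; exact rel_refl _
    | succ m ih =>
      obtain ⟨hc, hd⟩ := ih
      set T : ℕ → ℕ → ℂ := fun i j => ∑ k ∈ Ico i j, (a k : ℂ) * R m k with hT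
      have hs : ∀ j, 0 ≤ j → j ≤ n → R (m + 1) j = R (m + 1) n + T j n := by
        refine down (by simp [hT]) fun j _ h2 h3 => ?_
        rw [hA m j h2, h3]
        simp only [hT]
        rw [Finset.sum_eq_sum_Ico_succ_bot h2]
        ring
      have hadd : ∀ i j k, i ≤ j → j ≤ k → T i k = T i j + T j k := fun i j k h1 h2 =>
        (Finset.sum_Ico_consecutive _ h1 h2).symm
      have hG : ∀ j, j ≤ n → (1 - y) * R (m + 1) j = T j n + y * T 0 j := by
        intro j hj
        have e1 := hs j (Nat.zero_le _) hj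
        have e2 := hs 0 le_rfl (Nat.zero_le _)
        have e3 := hB m
        have e4 := hadd 0 j n (Nat.zero_le _) hj
        linear_combination (1 - y) * e1 + e3 + y * e2 + y * e4
      have hTT : ∀ i j k l, j ≤ k → l ≤ n → rel y (T i j) (T k l) := by
        intro i j k l h1 h2
        refine rel_sum_left fun s hs => rel_sum_right fun t ht => ?_
        rw [Finset.mem_Ico] at hs ht
        exact ((hc t s (by omega) (by omega)).mul_left (ha s).le).mul_right (ha t).le
      refine ⟨fun j i h1 h2 => rel.cancel hy1 ?_, fun h => ?_⟩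
      · have hW : rel y (T i j) (T j n + y * T 0 i) :=
          (hTT i j j n le_rfl le_rfl).add_right (hTT 0 i i j le_rfl h2.le).shift
        have e1 : (1 - y) * R (m + 1) i = T i j + (T j n + y * T 0 i) := by
          rw [hG i (by omega), hadd i j n h1 h2.le]; ring
        have e2 : (1 - y) * R (m + 1) j = (T j n + y * T 0 i) + y * T i j := by
          rw [hG j h2.le, hadd 0 i j (Nat.zero_le _) h1]; ring
        rw [e1, e2]
        exact (hW.add_right (rel_refl _).shift).add_left ((rel_refl _).add_right hW.shift)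
      · have e1 := hG 0 (Nat.zero_le _)
        have e2 : T 0 n = T 1 n + a 0 * R m 0 := by
          simp only [hT]
          rw [Finset.sum_eq_sum_Ico_succ_bot hn]; ring
        have e3 : T 0 0 = 0 := by simp [hT]
        have h3 : rel y (R m 0) (T 1 n) := by
          refine rel_sum_right fun t ht => ?_
          rw [Finset.mem_Ico] at ht
          exact (hc t 0 (Nat.zero_le _) ht.2).mul_right (ha t).le
        apply h3.ne hy (ha 0) hd
        rw [h, e2, e3] at e1
        linear_combination -e1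
  exact (key m).2

end Pool.Agent.H26.Cone
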