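import Mathlib

open Filter Topology
open scoped RealInnerProductSpace

namespace Pool.Agent.H26.DGA

variable {H E : Type} [NormedAddCommGroup H] [InnerProductSpace ℝ H]
  [NormedAddCommGroup E] [NormedSpace ℝ E]

theorem space [CompleteSpace H] [CompleteSpace E] (J : E →L[ℝ] H) :
    ∃ (X : Type) (_ : NormedAddCommGroup X) (_ : NormedSpace ℝ X) (_ : CompleteSpace X)
      (S : X →L[ℝ] H) (T : H →L[ℝ] X), (∀ h, S (T h) = h) ∧ (∀ x, T (S x) = x) ∧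
      (∀ x y b r, S x = J y + b → ‖y‖ ≤ r → ‖b‖ ≤ r → ‖x‖ ≤ r) ∧
      ∀ x r, ‖x‖ < r → ∃ y b, S x = J y + b ∧ ‖y‖ ≤ r ∧ ‖b‖ ≤ r := by
  let Φ : E × H →L[ℝ] H := J.coprod (ContinuousLinearMap.id ℝ H)
  haveI : IsClosed ((Φ.ker : Submodule ℝ (E × H)) : Set (E × H)) := Φ.isClosed_ker
  let S : ((E × H) ⧸ Φ.ker) →L[ℝ] H := Φ.ker.liftQL Φ le_rfl
  have hS : ∀ v, S (Submodule.Quotient.mk v) = J v.1 + v.2 := fun v => rfl
  have hi : ∀ x x', S x = S x' → x = x' := by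
    intro x x' h
    obtain ⟨v, rfl⟩ := Submodule.Quotient.mk_surjective _ x
    obtain ⟨v', rfl⟩ := Submodule.Quotient.mk_surjective _ x'
    refine (Submodule.Quotient.eq _).2 ?_
    change Φ (v - v') = 0
    rw [map_sub]
    exact sub_eq_zero.2 h
  let T : H →L[ℝ] ((E × H) ⧸ Φ.ker) := Φ.ker.mkQL.comp (ContinuousLinearMap.inr ℝ E H)
  have hT : ∀ h, S (T h) = h := fun h => by
    change S (Submodule.Quotient.mk (0, h)) = h
    simp [hS]
  refine ⟨(E × H) ⧸ Φ.ker, inferInstance, inferInstance, inferInstance, S, T, hT,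
    fun x => hi _ _ (hT _), fun x y b r h hy hb => ?_, fun x r h => ?_⟩
  · rw [hi x (Submodule.Quotient.mk (y, b)) h]
    exact (Submodule.Quotient.norm_mk_le _ _).trans (max_le hy hb)
  · obtain ⟨v, rfl, hv⟩ := Submodule.Quotient.norm_mk_lt x (sub_pos.2 h)
    exact ⟨v.1, v.2, hS v, by linarith [norm_fst_le v], by linarith [norm_snd_le v]⟩

section

variable {X : Type} [NormedAddCommGroup X] [NormedSpace ℝ X] {J : E →L[ℝ] H} {S : X →L[ℝ] H}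
  (hJ : ∀ y, ‖J y‖ ≤ ‖y‖ / 2)
  (ha : ∀ x y b r, S x = J y + b → ‖y‖ ≤ r → ‖b‖ ≤ r → ‖x‖ ≤ r)
  (hb : ∀ x r, ‖x‖ < r → ∃ y b, S x = J y + b ∧ ‖y‖ ≤ r ∧ ‖b‖ ≤ r)

include hJ ha in
lemma smooth1 (x z : X) (y : E) (b : H) (h : S x = J y + b) (hy : ‖y‖ ≤ 1) (hb : ‖b‖ ≤ 1) :
    ‖x + z‖ ≤ 1 + ⟪b, S z⟫ / (1 + ⟪b, J y⟫) + 2 * ‖S z‖ ^ 2 := by
  have h1 : ‖J y‖ ≤ 1 / 2 := by linarith [hJ y]
  have h2 : |⟪b, J y⟫| ≤ 1 / 2 := (abs_real_inner_le_norm _ _).trans (by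
    nlinarith [norm_nonneg b, norm_nonneg (J y)])
  have h3 : |⟪b, S z⟫| ≤ ‖S z‖ := (abs_real_inner_le_norm _ _).trans (by
    nlinarith [norm_nonneg b, norm_nonneg (S z)])
  have h4 : 1 / 2 ≤ 1 + ⟪b, J y⟫ := by linarith [(abs_le.1 h2).1]
  set s := ⟪b, S z⟫ / (1 + ⟪b, J y⟫) with hs
  have h5 : |s| ≤ 2 * ‖S z‖ := by
    rw [hs, abs_div, abs_of_pos (by linarith : 0 < 1 + ⟪b, J y⟫), div_le_iff₀ (by linarith)]
    nlinarith [norm_nonneg (S z)]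
  have h6 : ⟪b, S z - s • J y⟫ = s := by
    rw [inner_sub_right, inner_smul_right, hs]
    field_simp
    ring
  have h7 : ‖S z - s • J y‖ ≤ 2 * ‖S z‖ := by
    refine (norm_sub_le _ _).trans ?_
    rw [norm_smul, Real.norm_eq_abs]
    nlinarith [abs_nonneg s, norm_nonneg (J y)]
  obtain ⟨h8, h9⟩ := abs_le.1 h5
  refine ha _ ((1 + s) • y) (b + (S z - s • J y)) _ ?_ ?_ ?_
  · rw [map_add, h, map_smul]; module
  · rw [norm_smul, Real.norm_eq_abs]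
    refine (mul_le_of_le_one_right (abs_nonneg _) hy).trans (abs_le.2 ⟨?_, ?_⟩) <;>
      nlinarith [sq_nonneg (1 - ‖S z‖), sq_nonneg ‖S z‖]
  · have := norm_add_sq_real b (S z - s • J y)
    rw [h6] at this
    have h10 : ‖S z - s • J y‖ ^ 2 ≤ (2 * ‖S z‖) ^ 2 := by gcongr
    have h11 : ‖b‖ ^ 2 ≤ 1 := by nlinarith [norm_nonneg b]
    nlinarith [sq_nonneg (‖b + (S z - s • J y)‖ - 1)]

include hJ hb in
lemma S_le (x : X) : ‖S x‖ ≤ 3 / 2 * ‖x‖ := by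
  refine le_of_forall_pos_le_add fun ε hε => ?_
  obtain ⟨y, b, h, hy, hb⟩ := hb x (‖x‖ + ε / 2) (by linarith)
  rw [h]
  linarith [norm_add_le (J y) b, hJ y]

include hJ ha hb in
lemma smooth (x z : X) (hx : ‖x‖ = 1) (hz : ‖z‖ = 1) (u : ℝ) (hu : 0 < u) :
    (‖x + u • z‖ + ‖x - u • z‖) / 2 - 1 ≤ 5 * u ^ 2 := by
  have h0 : ‖S (u • z)‖ ^ 2 ≤ (3 / 2 * u) ^ 2 := by
    have := S_le hJ hb (u • z)
    rw [norm_smul, hz, Real.norm_eq_abs, abs_of_pos hu, mul_one] at this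
    gcongr
  refine le_of_forall_pos_le_add fun ε hε => ?_
  have hr : 0 < 1 + ε := by linarith
  obtain ⟨y, b, h, hy, hb⟩ := hb x (1 + ε) (by linarith)
  have n1 : ∀ {V : Type} [NormedAddCommGroup V] [NormedSpace ℝ V] (v : V),
      ‖(1 + ε)⁻¹ • v‖ = ‖v‖ / (1 + ε) := fun v => by
    rw [norm_smul, Real.norm_eq_abs, abs_of_pos (inv_pos.2 hr), div_eq_inv_mul]
  have key := fun w => smooth1 hJ ha ((1 + ε)⁻¹ • x) ((1 + ε)⁻¹ • w) ((1 + ε)⁻¹ • y)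
    ((1 + ε)⁻¹ • b) (by simp [h]) (by rwa [n1, div_le_one hr]) (by rwa [n1, div_le_one hr])
  have k1 := key (u • z)
  have k2 := key (-(u • z))
  rw [← smul_add, n1] at k1 k2
  rw [smul_neg, map_neg, inner_neg_right, neg_div, norm_neg, ← sub_eq_add_neg x] at k2
  have h1 : ‖S ((1 + ε)⁻¹ • u • z)‖ ^ 2 * (1 + ε) ≤ ‖S (u • z)‖ ^ 2 := by
    rw [map_smul, n1, div_pow, sq (1 + ε), ← div_div, div_mul_cancel₀ _ hr.ne', div_le_iff₀ hr]
    nlinarith [sq_nonneg ‖S (u • z)‖]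
  have h2 : (‖x + u • z‖ + ‖x - u • z‖) / (1 + ε) ≤ 2 + 4 * ‖S ((1 + ε)⁻¹ • u • z)‖ ^ 2 := by
    rw [add_div]; linarith
  rw [div_le_iff₀ hr] at h2
  nlinarith [sq_nonneg u]

include hb in
lemma func_le (b : H) (κ : ℝ) (hκ : 0 ≤ κ) (h1 : ‖b‖ ≤ 1) (h2 : ∀ y, ⟪b, J y⟫ ≤ κ * ‖y‖) (x : X) :
    ⟪b, S x⟫ ≤ (1 + κ) * ‖x‖ := by
  refine le_of_forall_pos_le_add fun ε hε => ?_
  obtain ⟨y, c, h, hy, hc⟩ := hb x (‖x‖ + ε / (1 + κ)) (lt_add_of_pos_right _ (by positivity))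
  have e : (1 + κ) * (‖x‖ + ε / (1 + κ)) = (1 + κ) * ‖x‖ + ε := by field_simp
  have h3 := real_inner_le_norm b c
  have h4 := mul_le_mul_of_nonneg_left hy hκ
  have h5 := mul_le_of_le_one_left (norm_nonneg c) h1
  rw [h, inner_add_right, ← e]
  linarith [h2 y]

end

def Cex : Prop := ∃ (X : Type) (_ : NormedAddCommGroup X) (_ : NormedSpace ℝ X)
    (_ : CompleteSpace X) (D : Set X) (f : ℕ → X) (F : ℕ → X →L[ℝ] ℝ) (φ : ℕ → X) (a : ℕ → ℝ),
    (∀ x y : X, ‖x‖ = 1 → ‖y‖ = 1 → ∀ u : ℝ, 0 < u →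
      (‖x + u • y‖ + ‖x - u • y‖) / 2 - 1 ≤ 5 * u ^ 2) ∧
    (∀ g ∈ D, ‖g‖ = 1) ∧ (∀ g ∈ D, -g ∈ D) ∧ Dense ((Submodule.span ℝ D : Submodule ℝ X) : Set X) ∧
    (∀ m, ‖F m‖ = 1 ∧ F m (f m) = ‖f m‖) ∧ (∀ m, φ m ∈ D ∧ ∀ g ∈ D, F m g ≤ F m (φ m)) ∧
    (∀ m, ∀ b : ℝ, ‖f m - a m • φ m‖ ≤ ‖f m - b • φ m‖) ∧
    (∀ m, f (m + 1) = f m - a m • φ m) ∧ ∀ m, 1 / 2 ≤ ‖f m‖

theorem restrict {X : Type} [NormedAddCommGroup X] [NormedSpace ℝ X] [CompleteSpace X]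
    (hs : ∀ x y : X, ‖x‖ = 1 → ‖y‖ = 1 → ∀ u : ℝ, 0 < u →
      (‖x + u • y‖ + ‖x - u • y‖) / 2 - 1 ≤ 5 * u ^ 2)
    (f : ℕ → X) (F : ℕ → X →L[ℝ] ℝ) (h1 : ∀ m x, F m x ≤ ‖x‖) (h2 : ∀ m, F m (f m) = ‖f m‖)
    (h3 : ∀ m, 1 / 2 ≤ ‖f m‖) (h4 : ∀ m, F (m + 1) (f m - f (m + 1)) = 0)
    (h5 : ∀ m, f m - f (m + 1) ≠ 0)
    (h6 : ∀ m j, |F m (f j - f (j + 1))| / ‖f j - f (j + 1)‖ ≤
      F m (f m - f (m + 1)) / ‖f m - f (m + 1)‖)
    (h7 : f 0 ∈ (Submodule.span ℝ (Set.range fun j => f j - f (j + 1))).topologicalClosure) :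
    Cex := by
  set Y := (Submodule.span ℝ (Set.range fun j => f j - f (j + 1))).topologicalClosure
  have hΔ : ∀ j, f j - f (j + 1) ∈ Y := fun j =>
    Submodule.le_topologicalClosure _ (Submodule.subset_span ⟨j, rfl⟩)
  have hf : ∀ m, f m ∈ Y := by
    intro m
    induction m with
    | zero => exact h7
    | succ m ih => simpa using Y.sub_mem ih (hΔ m)
  let φ : ℕ → Y := fun j => ‖f j - f (j + 1)‖⁻¹ • ⟨_, hΔ j⟩
  have hd : ∀ j, 0 < ‖f j - f (j + 1)‖ := fun j => norm_pos_iff.2 (h5 j)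
  have hφ : ∀ j, ‖φ j‖ = 1 := fun j => by
    rw [norm_smul, norm_inv, norm_norm]
    exact inv_mul_cancel₀ (hd j).ne'
  have hF : ∀ m j, F m (φ j) = F m (f j - f (j + 1)) / ‖f j - f (j + 1)‖ := fun m j => by
    simp [φ, div_eq_inv_mul]
  have he : ∀ m, (⟨f (m + 1), hf _⟩ : Y) = ⟨f m, hf m⟩ - ‖f m - f (m + 1)‖ • φ m := fun m => by
    rw [smul_inv_smul₀ (hd m).ne']
    ext; simp
  refine ⟨Y, inferInstance, inferInstance, (Submodule.isClosed_topologicalClosure _).completeSpace_coe,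
    {g | ∃ j, g = φ j ∨ g = -φ j}, fun m => ⟨f m, hf m⟩, fun m => (F m).comp Y.subtypeL, φ,
    fun m => ‖f m - f (m + 1)‖, fun x y hx hy u hu => hs x y hx hy u hu, ?_, ?_, ?_,
    fun m => ⟨le_antisymm ?_ ?_, h2 m⟩, fun m => ⟨⟨m, Or.inl rfl⟩, ?_⟩, fun m b => ?_, he, h3⟩
  · rintro _ ⟨j, rfl | rfl⟩ <;> simp [hφ]
  · rintro _ ⟨j, rfl | rfl⟩
    · exact ⟨j, Or.inr rfl⟩
    · exact ⟨j, Or.inl (neg_neg _)⟩
  · refine (Subtype.dense_iff (s := (Y : Set X))).2 (closure_mono fun x hx => ?_)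
    have : Submodule.span ℝ (Set.range fun j => f j - f (j + 1)) ≤
        (Submodule.span ℝ {g | ∃ j, g = φ j ∨ g = -φ j}).map Y.subtype := by
      refine Submodule.span_le.2 ?_
      rintro _ ⟨j, rfl⟩
      refine ⟨‖f j - f (j + 1)‖ • φ j, Submodule.smul_mem _ _
        (Submodule.subset_span ⟨j, Or.inl rfl⟩), ?_⟩
      rw [smul_inv_smul₀ (hd j).ne']; rfl
    exact this hx
  · refine ContinuousLinearMap.opNorm_le_bound _ zero_le_one fun x => ?_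
    rw [one_mul, Real.norm_eq_abs, abs_le]
    have := h1 m (-x.1)
    rw [map_neg, norm_neg] at this
    exact ⟨neg_le.1 this, h1 m x.1⟩
  · have := ((F m).comp Y.subtypeL).le_opNorm ⟨f m, hf m⟩
    change ‖F m (f m)‖ ≤ _ * ‖f m‖ at this
    rw [h2, norm_norm] at this
    exact le_of_mul_le_mul_right (by linarith) (by linarith [h3 m] : 0 < ‖f m‖)
  · have h8 : ∀ j, |F m (φ j)| ≤ F m (φ m) := fun j => by
      rw [hF, hF, abs_div, abs_norm]; exact h6 m j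
    rintro _ ⟨j, rfl | rfl⟩
    · exact (le_abs_self _).trans (h8 j)
    · rw [map_neg]; exact (neg_le_abs _).trans (h8 j)
  · rw [← he]
    have h9 := h1 (m + 1) (f m - b • (φ m).1)
    have h10 := h4 m
    rw [map_sub, map_smul, hF, h10, zero_div, smul_zero, sub_zero] at h9
    rw [map_sub, h2, sub_eq_zero] at h10
    rw [h10] at h9
    exact h9

lemma weak_null [CompleteSpace H] (u : ℕ → H) (h1 : ∀ m, ‖u m‖ ≤ 1)
    (h2 : ∀ m, Tendsto (fun j => ⟪u m, u j⟫) atTop (𝓝 0)) (g : H) :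
    Tendsto (fun j => ⟪g, u j⟫) atTop (𝓝 0) := by
  set P := (Submodule.span ℝ (Set.range u)).topologicalClosure
  have : CompleteSpace P := (Submodule.isClosed_topologicalClosure _).completeSpace_coe
  obtain ⟨p, hp, q, hq, rfl⟩ := P.exists_add_mem_mem_orthogonal g
  have h3 : ∀ j, ⟪p + q, u j⟫ = ⟪p, u j⟫ := fun j => by
    rw [inner_add_left, Submodule.inner_left_of_mem_orthogonal
      (Submodule.le_topologicalClosure _ (Submodule.subset_span (Set.mem_range_self j))) hq,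
      add_zero]
  simp only [h3]
  have h4 : ∀ z ∈ Submodule.span ℝ (Set.range u), Tendsto (fun j => ⟪z, u j⟫) atTop (𝓝 0) := by
    intro z hz
    induction hz using Submodule.span_induction with
    | mem x hx => obtain ⟨m, rfl⟩ := hx; exact h2 m
    | zero => simp
    | add x y _ _ hx hy => simpa [inner_add_left] using hx.add hy
    | smul c x _ hx => simpa [inner_smul_left] using hx.const_mul c
  refine Metric.tendsto_nhds.2 fun ε hε => ?_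
  obtain ⟨z, hz, hd⟩ := Metric.mem_closure_iff.1 hp (ε / 2) (by positivity)
  filter_upwards [Metric.tendsto_nhds.1 (h4 z hz) (ε / 2) (by positivity)] with j hj
  rw [Real.dist_eq, sub_zero] at hj ⊢
  have h5 := abs_real_inner_le_norm (p - z) (u j)
  have h6 := mul_le_of_le_one_right (norm_nonneg (p - z)) (h1 j)
  rw [dist_eq_norm] at hd
  rw [inner_sub_left] at h5
  linarith [abs_sub_abs_le_abs_sub ⟪p, u j⟫ ⟪z, u j⟫]

theorem run [CompleteSpace H] [CompleteSpace E] (J : E →L[ℝ] H) (hJ : ∀ y, ‖J y‖ ≤ ‖y‖ / 2)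
    (p b e : ℕ → H) (y : ℕ → E) (r κ η : ℕ → ℝ) (hp : ∀ m, p m = r m • (J (y m) + b m))
    (hy : ∀ m, ‖y m‖ ≤ 1) (hb : ∀ m, ‖b m‖ = 1) (hκ : ∀ m, 0 ≤ κ m)
    (h1 : ∀ m, ⟪b m, J (y m)⟫ = κ m) (h2 : ∀ m z, ⟪b m, J z⟫ ≤ κ m * ‖z‖) (hr : ∀ m, 1 / 2 ≤ r m)
    (h3 : ∀ m, ⟪b (m + 1), p m - p (m + 1)⟫ = 0) (he : ∀ m, ‖e m‖ ≤ 1)
    (he2 : ∀ m z, ⟪e m, J z⟫ ≤ 1 / 4 * ‖z‖) (h4 : ∀ j, 0.2475 ≤ ⟪e j, p j - p (j + 1)⟫)
    (h5 : ∀ j, ‖p j - p (j + 1)‖ ≤ 0.31) (hη : ∀ m, 0 ≤ η m)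
    (h6 : ∀ m, 0.24 * η m ≤ ⟪b m, p m - p (m + 1)⟫)
    (h7 : ∀ m j, j ≠ m → |⟪b m, p j - p (j + 1)⟫| ≤ 0.13 * η m)
    (h8 : ∀ g, Tendsto (fun j => ⟪g, p j⟫) atTop (𝓝 0)) : Cex := by
  obtain ⟨X, _, _, _, S, T, hST, hTS, ha, hb'⟩ := space J
  have hd1 : ∀ j, 0.198 ≤ ‖T (p j) - T (p (j + 1))‖ := fun j => by
    have := func_le hb' (e j) (1 / 4) (by norm_num) (he j) (he2 j) (T (p j) - T (p (j + 1)))
    rw [← map_sub, hST] at this
    rw [← map_sub]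
    linarith [h4 j]
  have hd2 : ∀ j, ‖T (p j) - T (p (j + 1))‖ ≤ 0.31 := fun j =>
    ha _ 0 (p j - p (j + 1)) _ (by simp [hST]) (by norm_num) (h5 j)
  let F : ℕ → X →L[ℝ] ℝ := fun m => (1 + κ m)⁻¹ • (innerSL ℝ (b m)).comp S
  have hF : ∀ m x, F m x = ⟪b m, S x⟫ / (1 + κ m) := fun m x => by simp [F, div_eq_inv_mul]
  have hk : ∀ m, 0 < 1 + κ m := fun m => by linarith [hκ m]
  have hF1 : ∀ m x, F m x ≤ ‖x‖ := fun m x => by
    rw [hF, div_le_iff₀' (hk m)]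
    exact func_le hb' _ _ (hκ m) (hb m).le (h2 m) x
  have hF2 : ∀ m, F m (T (p m)) = r m := fun m => by
    rw [hF, hST, hp, inner_smul_right, inner_add_right, h1, real_inner_self_eq_norm_sq, hb,
      div_eq_iff (hk m).ne']
    ring
  have hn : ∀ m, ‖T (p m)‖ = r m := fun m => by
    have h0 : 0 < r m := by linarith [hr m]
    refine le_antisymm (ha _ (r m • y m) (r m • b m) _ (by simp [hST, hp]) ?_ ?_)
      (hF2 m ▸ hF1 m _)
    · rw [norm_smul, Real.norm_of_nonneg h0.le]; exact mul_le_of_le_one_right h0.le (hy m)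
    · rw [norm_smul, Real.norm_of_nonneg h0.le, hb, mul_one]
  have hFΔ : ∀ m j, F m (T (p j) - T (p (j + 1))) = ⟪b m, p j - p (j + 1)⟫ / (1 + κ m) :=
    fun m j => by rw [hF, ← map_sub, hST]
  refine restrict (smooth hJ ha hb') (fun m => T (p m)) F hF1 (fun m => by rw [hF2, hn])
    (fun m => hn m ▸ hr m) (fun m => by rw [hFΔ, h3, zero_div])
    (fun m => norm_pos_iff.1 (by linarith [hd1 m])) (fun m j => ?_) ?_
  · have h9 : 0 ≤ ⟪b m, p m - p (m + 1)⟫ := by linarith [h6 m, hη m]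
    by_cases hj : j = m
    · rw [hj, abs_of_nonneg (by rw [hFΔ]; exact div_nonneg h9 (hk m).le)]
    rw [hFΔ, hFΔ, abs_div, abs_of_pos (hk m), div_right_comm, div_right_comm _ (1 + κ m)]
    refine div_le_div_of_nonneg_right ?_ (hk m).le
    rw [div_le_div_iff₀ (by linarith [hd1 j]) (by linarith [hd1 m])]
    have a1 := mul_le_mul (h7 m j hj) (hd2 m) (norm_nonneg _) (by linarith [hη m])
    have a2 := mul_le_mul (h6 m) (hd1 j) (by norm_num) h9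
    linarith [hη m]
  · set P := (Submodule.span ℝ (Set.range fun j => p j - p (j + 1))).topologicalClosure
    have : CompleteSpace P := (Submodule.isClosed_topologicalClosure _).completeSpace_coe
    have h9 : p 0 ∈ P := by
      rw [← P.orthogonal_orthogonal]
      intro g hg
      have h10 : ∀ j, ⟪g, p j⟫ = ⟪g, p 0⟫ := by
        intro j
        induction j with
        | zero => rfl
        | succ j ih =>
          have := Submodule.inner_left_of_mem_orthogonal (Submodule.le_topologicalClosure _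
            (Submodule.subset_span (Set.mem_range_self j))) hg
          rw [inner_sub_right] at this
          linarith
      have := h8 g
      simp only [h10] at this
      exact tendsto_const_nhds_iff.1 this
    have h11 : P ≤ ((Submodule.span ℝ (Set.range fun j =>
        T (p j) - T (p (j + 1)))).topologicalClosure).comap T.toLinearMap := by
      refine Submodule.topologicalClosure_minimal _ (Submodule.span_le.2 ?_)
        ((Submodule.isClosed_topologicalClosure _).preimage T.continuous)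
      rintro _ ⟨j, rfl⟩
      exact Submodule.le_topologicalClosure _ (Submodule.subset_span ⟨j, by simp⟩)
    exact h11 h9

end Pool.Agent.H26.DGA
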