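import Mathlib

open Filter Topology

namespace Pool.Agent.H26.DGA

noncomputable def s (m : ℕ) : ℝ := m + 10 ^ 9

noncomputable def ε (m : ℕ) : ℝ := 1000 / s m

noncomputable def β (m : ℕ) : ℝ := √(1 - ε m ^ 2)

noncomputable def g (m j : ℕ) : ℝ := 4 * s m * s j / (s m + s j) ^ 2

noncomputable def r : ℕ → ℝ
  | 0 => 1
  | m + 1 => r m * ((β m * β (m + 1) * g (m + 1) m + ε (m + 1) / 4) / (1 + ε (m + 1) / 4))

lemma s_ge (m : ℕ) : 10 ^ 9 ≤ s m := le_add_of_nonneg_left (Nat.cast_nonneg m)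

lemma s_pos (m : ℕ) : 0 < s m := by linarith [s_ge m]

lemma s_succ (m : ℕ) : s (m + 1) = s m + 1 := by simp [s]; ring

lemma ε_pos (m : ℕ) : 0 < ε m := div_pos (by norm_num) (s_pos m)

lemma ε_le (m : ℕ) : ε m ≤ 1 / 10 ^ 6 := by
  rw [ε, div_le_iff₀ (s_pos m)]; linarith [s_ge m]

lemma ε_succ (m : ℕ) : ε (m + 1) ≤ ε m :=
  div_le_div_of_nonneg_left (by norm_num) (s_pos m) (by rw [s_succ]; linarith)

lemma β_sq (m : ℕ) : β m ^ 2 = 1 - ε m ^ 2 :=
  Real.sq_sqrt (by nlinarith [ε_le m, ε_pos m])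

lemma β_nonneg (m : ℕ) : 0 ≤ β m := Real.sqrt_nonneg _

lemma β_le (m : ℕ) : β m ≤ 1 := by nlinarith [β_sq m, β_nonneg m, sq_nonneg (ε m)]

lemma β_ge (m : ℕ) : 1 - ε m ^ 2 ≤ β m := by nlinarith [β_sq m, β_nonneg m, β_le m]

lemma g_self (m : ℕ) : g m m = 1 := by
  have := s_pos m
  rw [g]; field_simp; norm_num

lemma g_comm (m j : ℕ) : g m j = g j m := by rw [g, g, add_comm, mul_right_comm]

lemma g_nonneg (m j : ℕ) : 0 ≤ g m j := by
  have := s_pos m; have := s_pos j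
  rw [g]; positivity

lemma g_le (m j : ℕ) : g m j ≤ 1 := by
  have := s_pos m; have := s_pos j
  rw [g, div_le_one (by positivity)]
  nlinarith [sq_nonneg (s m - s j)]

lemma g_le' (m j : ℕ) : g m j ≤ 4 * s j / s m := by
  have := s_pos m; have := s_pos j
  rw [g, div_le_div_iff₀ (by positivity) (by positivity)]
  nlinarith [mul_pos this this, mul_pos ‹0 < s m› this, mul_pos (mul_pos this this) this,
    mul_pos (mul_pos this this) ‹0 < s m›]

lemma g_succ (m : ℕ) : 1 - ε m ^ 2 ≤ g (m + 1) m := by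
  have := s_pos m
  have e : g (m + 1) m = 1 - 1 / (2 * s m + 1) ^ 2 := by
    rw [g, s_succ]; field_simp; ring
  rw [e, ε, div_pow]
  gcongr <;> nlinarith

lemma g_diff (m j : ℕ) : |g m j - g m (j + 1)| ≤ 4 / s m := by
  have h1 := s_pos m
  have h2 := s_pos j
  have e : g m j - g m (j + 1) = 4 * s m * (s j ^ 2 + s j - s m ^ 2) /
      ((s m + s j) ^ 2 * (s m + s j + 1) ^ 2) := by
    rw [g, g, s_succ]; field_simp; ring
  have h3 : |s j ^ 2 + s j - s m ^ 2| ≤ (s m + s j + 1) ^ 2 := by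
    rw [abs_le]; constructor <;> nlinarith
  rw [e, abs_div, abs_mul, abs_of_pos (by positivity : 0 < 4 * s m), abs_of_pos (by positivity :
    0 < (s m + s j) ^ 2 * (s m + s j + 1) ^ 2), div_le_div_iff₀ (by positivity) h1]
  have h4 : s m * s m ≤ (s m + s j) ^ 2 := by nlinarith
  nlinarith [mul_le_mul h3 h4 (by positivity) (by positivity)]

lemma ratio (m : ℕ) :
    1 - 3 * ε m ^ 2 ≤ (β m * β (m + 1) * g (m + 1) m + ε (m + 1) / 4) / (1 + ε (m + 1) / 4) ∧
    (β m * β (m + 1) * g (m + 1) m + ε (m + 1) / 4) / (1 + ε (m + 1) / 4) ≤ 1 := by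
  have h0 := ε_pos (m + 1)
  have h1 : β m * β (m + 1) ≤ 1 := mul_le_one₀ (β_le _) (β_nonneg _) (β_le _)
  have h2 : β m * β (m + 1) * g (m + 1) m ≤ 1 := mul_le_one₀ h1 (g_nonneg _ _) (g_le _ _)
  have h3 : ε (m + 1) ^ 2 ≤ ε m ^ 2 := by gcongr; exact ε_succ m
  have h4 : 1 - 2 * ε m ^ 2 ≤ β m * β (m + 1) := by
    nlinarith [β_ge m, β_ge (m + 1), mul_nonneg (sub_nonneg.2 (β_le m)) (sub_nonneg.2 (β_le (m + 1)))]
  have h5 : 1 - 3 * ε m ^ 2 ≤ β m * β (m + 1) * g (m + 1) m := by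
    nlinarith [g_succ m, mul_nonneg (sub_nonneg.2 h1) (sub_nonneg.2 (g_le (m + 1) m))]
  constructor
  · rw [le_div_iff₀ (by positivity)]
    nlinarith [mul_nonneg h0.le (sq_nonneg (ε m))]
  · rw [div_le_one (by positivity)]; linarith

lemma r_bd (m : ℕ) : 0.99 + 6 * 10 ^ 6 / s m ≤ r m ∧ r m ≤ 1 := by
  induction m with
  | zero => simp [r, s]; norm_num
  | succ m ih =>
    have h1 := s_pos m
    have h2 : 0 ≤ r m := le_trans (by positivity) ih.1
    have h3 := mul_le_mul_of_nonneg_left (ratio m).1 h2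
    have h4 := mul_le_mul_of_nonneg_left (ratio m).2 h2
    have h5 : 6 * 10 ^ 6 / s (m + 1) + 3 * ε m ^ 2 ≤ 6 * 10 ^ 6 / s m := by
      rw [ε, s_succ, div_pow, mul_div_assoc', div_add_div _ _ (by positivity) (by positivity),
        div_le_div_iff₀ (by positivity) h1]
      nlinarith [s_ge m, mul_pos h1 h1]
    refine ⟨?_, by rw [r]; linarith [ih.2]⟩
    rw [r]
    nlinarith [mul_le_mul_of_nonneg_right ih.2 (sq_nonneg (ε m)), ih.1]

lemma r_ge (m : ℕ) : 0.99 ≤ r m := by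
  have := s_pos m
  exact le_trans (le_add_of_nonneg_right (by positivity)) (r_bd m).1

lemma r_le (m : ℕ) : r m ≤ 1 := (r_bd m).2

lemma r_succ (m : ℕ) : r m - 3 * ε m ^ 2 ≤ r (m + 1) ∧ r (m + 1) ≤ r m := by
  have h2 : 0 ≤ r m := by linarith [r_ge m]
  have h3 := mul_le_mul_of_nonneg_left (ratio m).1 h2
  have h4 := mul_le_mul_of_nonneg_left (ratio m).2 h2
  rw [r]
  exact ⟨by nlinarith [mul_le_mul_of_nonneg_right (r_le m) (sq_nonneg (ε m))], by linarith⟩

lemma r_eq (m : ℕ) : r (m + 1) * (1 + ε (m + 1) / 4) =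
    r m * (β m * β (m + 1) * g (m + 1) m + ε (m + 1) / 4) := by
  have := ε_pos (m + 1)
  rw [r]; field_simp

lemma A_diff (j : ℕ) : |r j * β j - r (j + 1) * β (j + 1)| ≤ 4 * ε j ^ 2 := by
  have h3 : ε (j + 1) ^ 2 ≤ ε j ^ 2 := by gcongr; exacts [(ε_pos _).le, ε_succ j]
  have e : r j * β j - r (j + 1) * β (j + 1) =
      (r j - r (j + 1)) * β j + r (j + 1) * (β j - β (j + 1)) := by ring
  have h1 : |(r j - r (j + 1)) * β j| ≤ 3 * ε j ^ 2 := by
    rw [abs_of_nonneg (mul_nonneg (sub_nonneg.2 (r_succ j).2) (β_nonneg j))]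
    exact (mul_le_of_le_one_right (sub_nonneg.2 (r_succ j).2) (β_le j)).trans
      (by linarith [(r_succ j).1])
  have h2 : |r (j + 1) * (β j - β (j + 1))| ≤ ε j ^ 2 := by
    rw [abs_mul, abs_of_nonneg (by linarith [r_ge (j + 1)])]
    refine (mul_le_of_le_one_left (abs_nonneg _) (r_le _)).trans (abs_le.2 ⟨?_, ?_⟩) <;>
      linarith [β_ge j, β_ge (j + 1), β_le j, β_le (j + 1)]
  rw [e]
  linarith [abs_add_le ((r j - r (j + 1)) * β j) (r (j + 1) * (β j - β (j + 1)))]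

lemma w_part (m j : ℕ) :
    |β m * (r j * β j * g m j) - β m * (r (j + 1) * β (j + 1) * g m (j + 1))| ≤ 0.005 * ε m := by
  have h1 := s_pos m
  have h2 := s_pos j
  have e : β m * (r j * β j * g m j) - β m * (r (j + 1) * β (j + 1) * g m (j + 1)) = β m *
      ((r j * β j - r (j + 1) * β (j + 1)) * g m j + r (j + 1) * β (j + 1) * (g m j - g m (j + 1))) := by
    ring
  have h3 : |(r j * β j - r (j + 1) * β (j + 1)) * g m j| ≤ 1 / s m := by
    rw [abs_mul, abs_of_nonneg (g_nonneg m j)]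
    refine (mul_le_mul (A_diff j) (g_le' m j) (g_nonneg _ _) (by positivity)).trans ?_
    rw [ε]
    field_simp
    linarith [s_ge j]
  have h4 : |r (j + 1) * β (j + 1) * (g m j - g m (j + 1))| ≤ 4 / s m := by
    rw [abs_mul, abs_of_nonneg (mul_nonneg (by linarith [r_ge (j + 1)]) (β_nonneg _))]
    exact (mul_le_of_le_one_left (abs_nonneg _)
      (mul_le_one₀ (r_le _) (β_nonneg _) (β_le _))).trans (g_diff m j)
  have h5 : 1 / s m + 4 / s m = 0.005 * ε m := by rw [ε]; field_simp; norm_num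
  rw [e, abs_mul, abs_of_nonneg (β_nonneg m)]
  refine (mul_le_of_le_one_left (abs_nonneg _) (β_le m)).trans ((abs_add_le _ _).trans ?_)
  linarith

lemma g_lim (m : ℕ) : Tendsto (g m) atTop (𝓝 0) := by
  have h : Tendsto s atTop atTop := tendsto_atTop_add_const_right _ _ tendsto_natCast_atTop_atTop
  refine squeeze_zero (g_nonneg m) (fun j => (g_comm m j).trans_le (g_le' j m))
    (tendsto_const_nhds.div_atTop h)

end Pool.Agent.H26.DGA
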