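import Pool.Agent.H26.DGA1
import Pool.Agent.H26.DGA2

open Filter Topology
open scoped RealInnerProductSpace

namespace Pool.Agent.H26.DGA

abbrev L2 := lp (fun _ : ℕ => ℝ) 2

noncomputable def ρ (m : ℕ) : ℝ := (s m - 1) / (s m + 1)

lemma ρ_bd (m : ℕ) : 0 ≤ ρ m ∧ ρ m < 1 := by
  have := s_ge m
  exact ⟨div_nonneg (by linarith) (by linarith), by rw [ρ, div_lt_one] <;> linarith⟩

noncomputable def u0 (m n : ℕ) : ℝ := 4 * s m / (s m + 1) ^ 2 * √(n + 1) * ρ m ^ n

lemma u0_sum (m j : ℕ) : HasSum (fun n => u0 m n * u0 j n) (g m j) := by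
  have h0 : ‖ρ m * ρ j‖ < 1 := by
    rw [Real.norm_of_nonneg (mul_nonneg (ρ_bd m).1 (ρ_bd j).1)]
    exact mul_lt_one_of_nonneg_of_lt_one_left (ρ_bd m).1 (ρ_bd m).2 (ρ_bd j).2.le
  have h := (hasSum_choose_mul_geometric_of_norm_lt_one 1 h0).mul_left
    (4 * s m / (s m + 1) ^ 2 * (4 * s j / (s j + 1) ^ 2))
  have h1 := s_pos m
  have h2 := s_pos j
  have e : 1 - ρ m * ρ j = 2 * (s m + s j) / ((s m + 1) * (s j + 1)) := by
    rw [ρ, ρ]; field_simp; ring
  have e2 : 4 * s m / (s m + 1) ^ 2 * (4 * s j / (s j + 1) ^ 2) * (1 / (1 - ρ m * ρ j) ^ (1 + 1)) =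
      g m j := by
    have n1 : s m + 1 ≠ 0 := by positivity
    have n2 : s j + 1 ≠ 0 := by positivity
    have n3 : s m + s j ≠ 0 := by positivity
    rw [e, g, div_pow, one_div_div, show (1 + 1 : ℕ) = 2 from rfl]
    field_simp
    ring
  rw [e2] at h
  refine (congrArg (fun f => HasSum f (g m j)) (funext fun n => ?_)).mp h
  have := Real.mul_self_sqrt (show (0 : ℝ) ≤ n + 1 by positivity)
  simp only [u0, Nat.choose_one_right, Nat.cast_add, Nat.cast_one, mul_pow]
  linear_combination (-(4 * s m / (s m + 1) ^ 2 * (4 * s j / (s j + 1) ^ 2) * ρ m ^ n * ρ j ^ n)) *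
    this

noncomputable def u1 (m : ℕ) : L2 :=
  ⟨u0 m, memℓp_gen (by simpa [sq] using (u0_sum m m).summable)⟩

lemma u1_inner (m j : ℕ) : ⟪u1 m, u1 j⟫ = g m j := by
  rw [lp.inner_eq_tsum, ← (u0_sum m j).tsum_eq]
  exact tsum_congr fun n => by simp [u1, mul_comm]

noncomputable def e1 (n : ℕ) : L2 := lp.single 2 n 1

lemma e1_inner (m n : ℕ) : ⟪e1 m, e1 n⟫ = if m = n then 1 else 0 := by
  simp [e1, lp.inner_single_left, lp.single_apply, Pi.single_apply]

lemma e1_norm (n : ℕ) : ‖e1 n‖ = 1 := by simp [e1, lp.norm_single]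

def sl (n : ℕ) : Fin 4 := ⟨n % 3, by omega⟩

theorem geom : ∃ (H E : Type) (_ : NormedAddCommGroup H) (_ : InnerProductSpace ℝ H)
    (_ : CompleteSpace H) (_ : NormedAddCommGroup E) (_ : NormedSpace ℝ E) (_ : CompleteSpace E)
    (J : E →L[ℝ] H) (e u : ℕ → H) (η : ℕ → E), (∀ y, ‖J y‖ ≤ ‖y‖ / 2) ∧
    (∀ m n, ⟪e m, e n⟫ = if m = n then 1 else 0) ∧ (∀ m j, ⟪u m, u j⟫ = g m j) ∧
    (∀ m n, ⟪u m, e n⟫ = 0) ∧ (∀ m y, ⟪u m, J y⟫ = 0) ∧ (∀ m y, ⟪e m, J y⟫ ≤ 1 / 4 * ‖y‖) ∧
    (∀ n, J (η n) = (1 / 4 : ℝ) • e n) ∧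
    ∀ m, ‖η m + η (m + 1) + (1 / 2 : ℝ) • η (m + 2)‖ ≤ 1 := by
  have h3 : ∀ n, sl n ≠ 3 := fun n h => by
    have := congrArg Fin.val h
    simp only [sl] at this
    omega
  let J : (Fin 4 → L2) →L[ℝ] PiLp 2 fun _ : Fin 4 => L2 :=
    (PiLp.continuousLinearEquiv 2 ℝ fun _ : Fin 4 => L2).symm.toContinuousLinearMap.comp
      (ContinuousLinearMap.pi fun i => (if i = 3 then (0 : ℝ) else 1 / 4) •
        ContinuousLinearMap.proj i)
  have hJ : ∀ y i, J y i = (if i = 3 then (0 : ℝ) else 1 / 4) • y i := fun y i => rfl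
  refine ⟨PiLp 2 fun _ : Fin 4 => L2, Fin 4 → L2, inferInstance, inferInstance, inferInstance,
    inferInstance, inferInstance, inferInstance, J, fun n => PiLp.single 2 (sl n) (e1 n),
    fun m => PiLp.single 2 3 (u1 m), fun n => Pi.single (sl n) (e1 n), fun y => ?_, fun m n => ?_,
    fun m j => ?_, fun m n => ?_, fun m y => ?_, fun m y => ?_, fun n => ?_, fun m => ?_⟩
  · refine abs_le_of_sq_le_sq' ?_ (by positivity) |>.2
    rw [PiLp.norm_sq_eq_of_L2]
    refine (Finset.sum_le_card_nsmul _ _ ((‖y‖ / 4) ^ 2) fun i _ => ?_).trans (by simp; linarith)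
    have := norm_le_pi_norm y i
    rw [hJ, norm_smul]
    gcongr
    split_ifs
    · simp; positivity
    · norm_num; linarith
  · rw [PiLp.inner_apply, Finset.sum_eq_single (sl m) (by simp +contextual) (by simp)]
    by_cases h : m = n
    · simp [h, e1_norm]
    · by_cases h' : sl m = sl n
      · simp [h', e1_inner]
      · simp [h, h']
  · rw [PiLp.inner_apply, Finset.sum_eq_single 3 (by simp +contextual) (by simp)]
    simp [u1_inner]
  · rw [PiLp.inner_apply, Finset.sum_eq_single 3 (by simp +contextual) (by simp)]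
    simp [(h3 n).symm]
  · rw [PiLp.inner_apply, Finset.sum_eq_single 3 (by simp +contextual) (by simp)]
    simp [hJ]
  · rw [PiLp.inner_apply, Finset.sum_eq_single (sl m) (by simp +contextual) (by simp), hJ,
      if_neg (h3 m), inner_smul_right, PiLp.single_eq_same]
    have h1 := real_inner_le_norm (e1 m) (y (sl m))
    rw [e1_norm, one_mul] at h1
    linarith [norm_le_pi_norm y (sl m)]
  · ext1 i
    rw [hJ]
    by_cases h : i = sl n
    · simp [h, h3]
    · simp [h]
  · refine (pi_norm_le_iff_of_nonneg zero_le_one).2 fun i => ?_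
    have a1 : sl m ≠ sl (m + 1) := by simp only [sl, ne_eq, Fin.mk.injEq]; omega
    have a2 : sl m ≠ sl (m + 2) := by simp only [sl, ne_eq, Fin.mk.injEq]; omega
    have a3 : sl (m + 1) ≠ sl (m + 2) := by simp only [sl, ne_eq, Fin.mk.injEq]; omega
    by_cases b1 : i = sl m
    · simp [b1, a1, a2, e1_norm]
    · by_cases b2 : i = sl (m + 1)
      · simp [b2, a1.symm, a3, e1_norm]
      · by_cases b3 : i = sl (m + 2)
        · simp [b3, a2.symm, a3.symm, e1_norm, norm_smul]
          norm_num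
        · simp [b1, b2, b3]

noncomputable def V (j n : ℕ) : ℝ :=
  if n = j then r j * (1 / 4 + ε j) else if n = j + 1 then r j / 4 else
    if n = j + 2 then r j / 8 else 0

theorem cex : Cex := by
  obtain ⟨H, E, _, _, _, _, _, _, J, e, u, η, hJ, hee, huu, hue, huJ, heJ, hη, hy⟩ := geom
  let p : ℕ → H := fun j => (r j * β j) • u j + (r j * (1 / 4 + ε j)) • e j + (r j / 4) • e (j + 1) +
    (r j / 8) • e (j + 2)
  let b : ℕ → H := fun m => β m • u m + ε m • e m
  have heu : ∀ m n, ⟪e n, u m⟫ = 0 := fun m n => by rw [real_inner_comm, hue]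
  have hep : ∀ n j, ⟪e n, p j⟫ = V j n := by
    intro n j
    simp only [p, V, inner_add_right, inner_smul_right, heu, hee]
    split_ifs <;> first | omega | ring
  have hup : ∀ m j, ⟪u m, p j⟫ = r j * β j * g m j := by
    intro m j
    simp [p, inner_add_right, inner_smul_right, hue, huu]
  have hbp : ∀ m j, ⟪b m, p j - p (j + 1)⟫ = (β m * (r j * β j * g m j) -
      β m * (r (j + 1) * β (j + 1) * g m (j + 1))) + ε m * (V j m - V (j + 1) m) := by
    intro m j
    simp only [b, inner_add_left, inner_sub_right, real_inner_smul_left, hep, hup]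
    ring
  have hen : ∀ n, ‖e n‖ = 1 := fun n => by
    have := hee n n
    rw [if_pos rfl, real_inner_self_eq_norm_sq] at this
    nlinarith [norm_nonneg (e n)]
  have hun : ∀ n, ‖u n‖ = 1 := fun n => by
    have := huu n n
    rw [g_self, real_inner_self_eq_norm_sq] at this
    nlinarith [norm_nonneg (u n)]
  have h3 : ∀ m, ⟪b (m + 1), p m - p (m + 1)⟫ = 0 := by
    intro m
    rw [hbp, g_self]
    simp only [V, if_true, Nat.add_eq_left, one_ne_zero, if_false]
    linear_combination -r_eq m - r (m + 1) * β_sq (m + 1)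
  refine run J hJ p b e (fun m => η m + η (m + 1) + (1 / 2 : ℝ) • η (m + 2)) r (fun m => ε m / 4) ε
    (fun m => ?_) hy (fun m => ?_) (fun m => by linarith [ε_pos m]) (fun m => ?_) (fun m z => ?_)
    (fun m => by linarith [r_ge m]) h3 (fun m => (hen m).le) heJ (fun j => ?_) (fun j => ?_)
    (fun m => (ε_pos m).le) (fun m => ?_) (fun m j hj => ?_) (fun z => ?_)
  · simp only [p, b, map_add, map_smul, hη]
    module
  · have : ‖b m‖ ^ 2 = 1 := by
      rw [norm_add_sq_real, real_inner_smul_left, inner_smul_right, hue, norm_smul, norm_smul, hun,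
        hen, mul_one, mul_one, Real.norm_eq_abs, Real.norm_eq_abs, sq_abs, sq_abs, β_sq]
      ring
    nlinarith [norm_nonneg (b m)]
  · simp only [b, inner_add_left, real_inner_smul_left, huJ]
    simp only [map_add, map_smul, hη, inner_add_right, inner_smul_right, hee]
    rw [if_pos trivial, if_neg (by omega), if_neg (by omega)]
    ring
  · simp only [b, inner_add_left, real_inner_smul_left, huJ]
    nlinarith [heJ m z, ε_pos m]
  · rw [inner_sub_right, hep, hep]
    simp only [V, if_true]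
    rw [if_neg (by omega), if_neg (by omega), if_neg (by omega)]
    nlinarith [r_ge j, ε_pos j]
  · have e0 : p j - p (j + 1) = ((r j * β j - r (j + 1) * β (j + 1)) • u j +
        (r (j + 1) * β (j + 1)) • (u j - u (j + 1)) +
        (r j / 4 - r (j + 1) * (1 / 4 + ε (j + 1))) • e (j + 1)) +
        ((r j * (1 / 4 + ε j)) • e j + (r j / 8 - r (j + 1) / 4) • e (j + 2) +
        (-r (j + 1) / 8) • e (j + 3)) := by
      simp only [p]; module
    have q1 := ε_le j
    have q2 := ε_pos j
    have q3 := ε_le (j + 1)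
    have q4 := ε_pos (j + 1)
    have q5 := r_succ j
    have q6 := r_ge (j + 1)
    have q7 := r_le j
    have q8 : ε j ^ 2 ≤ 1 / 10 ^ 6 := by nlinarith
    have a1 : ‖(r j * β j - r (j + 1) * β (j + 1)) • u j‖ ≤ 0.0001 := by
      rw [norm_smul, hun, mul_one]
      exact (A_diff j).trans (by linarith)
    have a2 : ‖(r (j + 1) * β (j + 1)) • (u j - u (j + 1))‖ ≤ 0.0001 := by
      have : ‖u j - u (j + 1)‖ ^ 2 ≤ 0.0001 ^ 2 := by
        rw [norm_sub_sq_real, hun, hun, huu, g_comm]
        nlinarith [g_succ j]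
      rw [norm_smul, Real.norm_of_nonneg (mul_nonneg (by linarith) (β_nonneg _))]
      exact (mul_le_of_le_one_left (norm_nonneg _) (mul_le_one₀ (r_le _) (β_nonneg _)
        (β_le _))).trans (abs_le_of_sq_le_sq' this (by norm_num)).2
    have a3 : ‖(r j / 4 - r (j + 1) * (1 / 4 + ε (j + 1))) • e (j + 1)‖ ≤ 0.0001 := by
      rw [norm_smul, hen, mul_one, Real.norm_eq_abs, abs_le]
      constructor <;> nlinarith
    have a4 : ‖(r j * (1 / 4 + ε j)) • e j + (r j / 8 - r (j + 1) / 4) • e (j + 2) +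
        (-r (j + 1) / 8) • e (j + 3)‖ ^ 2 ≤ 0.309 ^ 2 := by
      rw [norm_add_sq_real, norm_add_sq_real]
      simp only [inner_add_left, real_inner_smul_left, inner_smul_right, hee, norm_smul, hen,
        mul_one, Real.norm_eq_abs, sq_abs]
      rw [if_neg (by omega), if_neg (by omega), if_neg (by omega)]
      have c1 : (r j * (1 / 4 + ε j)) ^ 2 ≤ 0.251 ^ 2 := by
        refine pow_le_pow_left₀ (by nlinarith) (by nlinarith) 2
      have c2 : (r j / 8 - r (j + 1) / 4) ^ 2 ≤ (1 / 8) ^ 2 := sq_le_sq' (by linarith) (by linarith)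
      have c3 : (-r (j + 1) / 8) ^ 2 ≤ (1 / 8) ^ 2 := sq_le_sq' (by linarith) (by linarith)
      linarith
    rw [e0]
    refine (norm_add_le _ _).trans ?_
    linarith [norm_add₃_le (a := (r j * β j - r (j + 1) * β (j + 1)) • u j)
      (b := (r (j + 1) * β (j + 1)) • (u j - u (j + 1)))
      (c := (r j / 4 - r (j + 1) * (1 / 4 + ε (j + 1))) • e (j + 1)),
      (abs_le_of_sq_le_sq' a4 (by norm_num)).2]
  · rw [hbp]
    simp only [V, if_true]
    rw [if_neg (by omega), if_neg (by omega), if_neg (by omega)]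
    have := mul_le_mul_of_nonneg_left (show 0.2475 ≤ r m * (1 / 4 + ε m) - 0 by
      nlinarith [r_ge m, ε_pos m]) (ε_pos m).le
    linarith [(abs_le.1 (w_part m m)).1, ε_pos m]
  · by_cases h : m = j + 1
    · rw [h, h3, abs_zero]; linarith [ε_pos (j + 1)]
    have h1 : |V j m - V (j + 1) m| ≤ 1 / 8 := by
      have q5 := r_succ j
      have q6 := r_ge (j + 1)
      have q7 := r_le j
      simp only [V]
      rw [abs_le]
      split_ifs <;> first | omega | (constructor <;> linarith)
    rw [hbp]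
    refine (abs_add_le _ _).trans ?_
    rw [abs_mul (ε m), abs_of_pos (ε_pos m)]
    nlinarith [w_part m j, ε_pos m]
  · have a1 := weak_null u (fun m => (hun m).le) (fun m => by simpa only [huu] using g_lim m) z
    have a2 := weak_null e (fun m => (hen m).le) (fun m => tendsto_const_nhds.congr' (by
      filter_upwards [eventually_gt_atTop m] with j hj
      rw [hee, if_neg hj.ne])) z
    have a3 := (((a1.abs.add a2.abs).add ((tendsto_add_atTop_iff_nat 1).2 a2).abs).add
      ((tendsto_add_atTop_iff_nat 2).2 a2).abs)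
    simp only [abs_zero, add_zero] at a3
    refine squeeze_zero_norm (fun j => ?_) a3
    have k : ∀ c x : ℝ, 0 ≤ c → c ≤ 1 → |c * x| ≤ |x| := fun c x h0 h1 => by
      rw [abs_mul, abs_of_nonneg h0]; exact mul_le_of_le_one_left (abs_nonneg _) h1
    have q1 := ε_le j
    have q2 := ε_pos j
    have q6 := r_ge j
    have q7 := r_le j
    simp only [p, inner_add_right, inner_smul_right, Real.norm_eq_abs]
    refine (abs_add_le _ _).trans (add_le_add ((abs_add_le _ _).trans (add_le_add
      ((abs_add_le _ _).trans (add_le_add (k _ _ (mul_nonneg (by linarith) (β_nonneg j))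
      (mul_le_one₀ q7 (β_nonneg j) (β_le j))) (k _ _ (by nlinarith) (by nlinarith))))
      (k _ _ (by linarith) (by linarith)))) (k _ _ (by linarith) (by linarith)))

end Pool.Agent.H26.DGA
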