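import Mathlib

open Filter Topology

namespace Pool.Agent.H26.Dieu

variable {𝕜 : Type*} [RCLike 𝕜]

theorem approx {X Y : Type*} [NormedAddCommGroup X] [NormedSpace 𝕜 X] [NormedAddCommGroup Y]
    [NormedSpace 𝕜 Y] (T : X →L[𝕜] Y) (y : Y) (C : ℝ) (hC : 0 ≤ C)
    (h : ∀ L : StrongDual 𝕜 Y, ‖L y‖ ≤ C * ‖L.comp T‖) (ε : ℝ) (hε : 0 < ε) :
    ∃ x, ‖x‖ ≤ C ∧ ‖y - T x‖ < ε := by
  letI : NormedSpace ℝ X := NormedSpace.restrictScalars ℝ 𝕜 X
  letI : NormedSpace ℝ Y := NormedSpace.restrictScalars ℝ 𝕜 Y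
  haveI : IsScalarTower ℝ 𝕜 X := Real.isScalarTower
  haveI : IsScalarTower ℝ 𝕜 Y := Real.isScalarTower
  have key : y ∈ closure (T '' Metric.closedBall 0 C) := by
    by_contra hy
    have hc : Convex ℝ (T '' Metric.closedBall 0 C) :=
      (convex_closedBall (0 : X) C).linear_image (T.toLinearMap.restrictScalars ℝ)
    obtain ⟨L, u, h1, h2⟩ := RCLike.geometric_hahn_banach_closed_point (𝕜 := 𝕜) hc.closure
      isClosed_closure hy
    have h0 : 0 < u := by simpa using h1 0 (subset_closure ⟨0, by simpa using hC, map_zero T⟩)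
    have h3 : ∀ x, ‖x‖ ≤ C → ‖L (T x)‖ ≤ u := by
      intro x hx
      obtain ⟨c, hc1, hc2⟩ := RCLike.exists_norm_eq_mul_self (L (T x))
      have := h1 (T (c • x)) (subset_closure ⟨c • x, by simpa [norm_smul, hc1] using hx, rfl⟩)
      rw [map_smul, map_smul, smul_eq_mul, ← hc2, RCLike.ofReal_re] at this
      exact this.le
    have h4 : C * ‖L.comp T‖ ≤ u := by
      rcases hC.eq_or_lt with rfl | hC
      · simpa using h0.le
      rw [← le_div_iff₀' hC]
      refine ContinuousLinearMap.opNorm_le_of_unit_norm (by positivity) fun x hx => ?_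
      have := h3 ((C : 𝕜) • x) (by simp [norm_smul, hx, abs_of_pos hC])
      rw [map_smul, map_smul, norm_smul, RCLike.norm_ofReal, abs_of_pos hC] at this
      rw [le_div_iff₀' hC]
      exact this
    linarith [h L, RCLike.re_le_norm (L y)]
  obtain ⟨_, ⟨x, hx, rfl⟩, h2⟩ := Metric.mem_closure_iff.1 key ε hε
  exact ⟨x, by simpa using hx, by rwa [← dist_eq_norm]⟩

theorem iterate {X Y : Type*} [NormedAddCommGroup X] [NormedSpace 𝕜 X] [NormedAddCommGroup Y]
    [NormedSpace 𝕜 Y] [CompleteSpace X] (T : X →L[𝕜] Y) (hT : Function.Injective T)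
    (h : ∀ z, ∃ w, ‖w‖ ≤ ‖T z‖ ∧ ‖T (z - w)‖ ≤ ‖T z‖ / 2) (z : X) : ‖z‖ ≤ 2 * ‖T z‖ := by
  choose g hg1 hg2 using h
  let r : ℕ → X := fun n => (fun v => v - g v)^[n] z
  have hr : ∀ n, r (n + 1) = r n - g (r n) := fun n => Function.iterate_succ_apply' _ _ _
  have h1 : ∀ n, ‖T (r n)‖ ≤ ‖T z‖ * (1 / 2) ^ n := by
    intro n
    induction n with
    | zero => simp [r]
    | succ n ih =>
      rw [hr, pow_succ]
      linarith [hg2 (r n)]
  have hs : Summable fun n : ℕ => ‖T z‖ * (1 / 2 : ℝ) ^ n := summable_geometric_two.mul_left _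
  have h2 : Summable fun n => g (r n) :=
    Summable.of_norm_bounded hs fun n => (hg1 _).trans (h1 n)
  have h3 : ‖∑' n, g (r n)‖ ≤ 2 * ‖T z‖ := by
    refine (tsum_of_norm_bounded hs.hasSum fun n => (hg1 _).trans (h1 n)).trans ?_
    rw [tsum_mul_left, tsum_geometric_two, mul_comm]
  have h4 : ∀ n, ∑ i ∈ Finset.range n, g (r i) = z - r n := by
    intro n
    induction n with
    | zero => simp [r]
    | succ n ih => rw [Finset.sum_range_succ, ih, hr]; abel
  have h5 : Tendsto (fun n => T (r n)) atTop (𝓝 0) :=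
    squeeze_zero_norm h1 hs.tendsto_atTop_zero
  have h6 := (T.continuous.tendsto _).comp h2.hasSum.tendsto_sum_nat
  have h7 : T (∑' n, g (r n)) = T z := by
    refine tendsto_nhds_unique h6 ?_
    have := h5.const_sub (T z)
    rw [sub_zero] at this
    refine this.congr fun n => ?_
    simp [h4]
  rwa [hT h7] at h3

theorem surj_of_seq {E V : Type*} [NormedAddCommGroup E] [NormedSpace 𝕜 E] [CompleteSpace E]
    [NormedAddCommGroup V] [NormedSpace 𝕜 V]
    (x : ℕ → E) (hx : (Submodule.span 𝕜 (Set.range x)).topologicalClosure = ⊤)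
    (J : V →L[𝕜] E →L[𝕜] 𝕜) (hJ : ∀ v, ‖J v‖ = ‖v‖) (htot : ∀ z, (∀ v, J v z = 0) → z = 0)
    (hbc : ∀ (g : ℕ → V) (α : ℕ → 𝕜), (∃ C, ∀ j, ‖g j‖ ≤ C) →
      (∀ n, Tendsto (fun j => J (g j) (x n)) atTop (𝓝 (α n))) → ∃ h, ∀ n, J h (x n) = α n)
    (ψ : E →L[𝕜] 𝕜) : ∃ v, J v = ψ := by
  let u : E →L[𝕜] V →L[𝕜] 𝕜 := J.flip
  have hu : ∀ z (v : V), u z v = J v z := fun _ _ => rfl
  have s1 : ∀ (φ : StrongDual 𝕜 E) (C : ℝ), 0 ≤ C → (∀ z, ‖φ z‖ ≤ C * ‖u z‖) → ∃ v, J v = φ := by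
    intro φ C hC hφ
    have h1 : ∀ N : ℕ, ∃ v : V, ‖v‖ ≤ C ∧ ∀ i < N, ‖φ (x i) - J v (x i)‖ < 1 / ((N : ℝ) + 1) := by
      intro N
      refine (approx (ContinuousLinearMap.pi fun i : Fin N => u (x i))
        (fun i => φ (x i)) C hC (fun L => ?_) (1 / ((N : ℝ) + 1)) (by positivity)).elim
        fun v ⟨hv1, hv2⟩ => ?_
      swap
      · exact ⟨v, hv1, fun i hi => lt_of_le_of_lt (norm_le_pi_norm
          ((fun i : Fin N => φ (x i)) - (ContinuousLinearMap.pi fun i : Fin N => u (x i)) v)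
          (⟨i, hi⟩ : Fin N)) hv2⟩
      · have e : ∀ c : Fin N → 𝕜, L c = ∑ i, c i * L (Pi.single i 1) := by
          intro c
          conv_lhs => rw [pi_eq_sum_univ' c, map_sum]
          simp
        have e1 : L (fun i => φ (x i)) = φ (∑ i : Fin N, L (Pi.single i 1) • x i) := by
          rw [e]; simp [mul_comm]
        have e2 : L.comp (ContinuousLinearMap.pi fun i : Fin N => u (x i)) =
            u (∑ i : Fin N, L (Pi.single i 1) • x i) := by
          ext v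
          rw [ContinuousLinearMap.comp_apply, e, hu]
          simp [mul_comm, hu]
        rw [e1, e2]
        exact hφ _
    choose v hv1 hv2 using h1
    obtain ⟨h, hh⟩ := hbc v (fun n => φ (x n)) ⟨C, hv1⟩
      (fun n => by
        rw [tendsto_iff_norm_sub_tendsto_zero]
        refine squeeze_zero' (Eventually.of_forall fun _ => norm_nonneg _) ?_
          tendsto_one_div_add_atTop_nhds_zero_nat
        filter_upwards [eventually_gt_atTop n] with j hj
        rw [norm_sub_rev]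
        exact (hv2 j n hj).le)
    refine ⟨h, ContinuousLinearMap.ext_on (s := Set.range x) ?_ ?_⟩
    · exact Submodule.dense_iff_topologicalClosure_eq_top.2 hx
    · rintro _ ⟨n, rfl⟩
      exact hh n
  have hinj : Function.Injective u := by
    refine (injective_iff_map_eq_zero u).2 fun z hz => htot z fun v => ?_
    rw [← hu z v, hz]; rfl
  have s2 : ∀ z, ∃ w, ‖w‖ ≤ ‖u z‖ ∧ ‖u (z - w)‖ ≤ ‖u z‖ / 2 := by
    intro z
    by_cases h0 : u z = 0
    · exact ⟨0, by simp, by simp [h0]⟩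
    refine (approx u (u z) ‖u z‖ (norm_nonneg _) (fun L => ?_) (‖u z‖ / 2)
      (half_pos (norm_pos_iff.2 h0))).elim fun w ⟨h1, h2⟩ => ?_
    swap
    · exact ⟨w, h1, by rw [map_sub]; exact h2.le⟩
    · obtain ⟨v, hv⟩ := s1 (L.comp u) ‖L‖ (norm_nonneg _) fun z => L.le_opNorm _
      have h3 := (u z).le_opNorm v
      rw [hu, ← hJ, hv] at h3
      exact h3
  refine s1 ψ (‖ψ‖ * 2) (by positivity) fun z => ?_
  rw [mul_assoc]
  exact (ψ.le_opNorm z).trans (mul_le_mul_of_nonneg_left (iterate u hinj s2 z) (norm_nonneg _))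

theorem top_of_seq {E : Type*} [NormedAddCommGroup E] [NormedSpace 𝕜 E] [CompleteSpace E]
    (x : ℕ → E) (hx : (Submodule.span 𝕜 (Set.range x)).topologicalClosure = ⊤)
    (V : Submodule 𝕜 (E →L[𝕜] 𝕜)) (htot : ∀ z, (∀ v ∈ V, v z = 0) → z = 0)
    (hbc : ∀ (g : ℕ → E →L[𝕜] 𝕜) (α : ℕ → 𝕜), (∀ j, g j ∈ V) → (∃ C, ∀ j, ‖g j‖ ≤ C) →
      (∀ n, Tendsto (fun j => g j (x n)) atTop (𝓝 (α n))) → ∃ h ∈ V, ∀ n, h (x n) = α n) :
    V = ⊤ := by
  refine eq_top_iff.2 fun φ _ => ?_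
  refine (surj_of_seq (V := V) x hx V.subtypeL (fun _ => rfl)
    (fun z hz => htot z fun v hv => hz ⟨v, hv⟩) (fun g α hg hα => ?_) φ).elim fun v hv => ?_
  swap
  · exact hv ▸ v.2
  · obtain ⟨h, hV, hh⟩ := hbc (fun j => (g j).1) α (fun j => (g j).2) hg hα
    exact ⟨⟨h, hV⟩, hh⟩

end Pool.Agent.H26.Dieu
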