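import Mathlib

namespace Pool.Agent.H26.PosIso

open Filter Topology Metric

theorem dugundji {A Y : Type*} [MetricSpace A] [CompactSpace A] [Nonempty A] [MetricSpace Y]
    [CompactSpace Y] (j : C(A, Y)) (hj : Function.Injective j) :
    ∃ E : C(A, ℝ) →L[ℝ] C(Y, ℝ), (∀ f, 0 ≤ f → 0 ≤ E f) ∧ ∀ f, (E f).comp j = f := by
  classical
  obtain ⟨a, ha⟩ := TopologicalSpace.exists_dense_seq A
  have hemb : IsClosedEmbedding j := j.continuous.isClosedEmbedding hj
  set J := Set.range j with hJ
  have hJc : IsClosed J := hemb.isClosed_range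
  have hJn : J.Nonempty := Set.range_nonempty _
  obtain ⟨D, hD⟩ : ∃ D, ∀ y z : Y, dist y z ≤ D := by
    obtain ⟨D, hD⟩ := Metric.isBounded_iff.1 (isCompact_univ (X := Y)).isBounded
    exact ⟨D, fun y z => hD trivial trivial⟩
  let w : ℕ → Y → ℝ := fun n y => (1/2) ^ n * max 0 (2 * infDist y J - dist y (j (a n)))
  have hw0 : ∀ n y, 0 ≤ w n y := fun n y => by positivity
  have hwb : ∀ n y, w n y ≤ (1/2) ^ n * (2 * D) := by
    intro n y
    apply mul_le_mul_of_nonneg_left _ (by positivity)
    have h1 := infDist_le_dist_of_mem (x := y) (Set.mem_range_self (f := j) (a n))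
    have h2 := hD y (j (a n))
    have h3 := dist_nonneg (x := y) (y := j (a n))
    apply max_le <;> linarith
  have hwc : ∀ n, Continuous (w n) := fun n => by
    have := continuous_infDist_pt J
    fun_prop
  have hgeo : ∀ c : ℝ, Summable (fun n : ℕ => (1/2:ℝ) ^ n * c) := fun c =>
    summable_geometric_two.mul_right c
  have hbd : ∀ (f : C(A, ℝ)) n y, ‖w n y * f (a n)‖ ≤ (1/2) ^ n * (2 * D * ‖f‖) := by
    intro f n y
    rw [norm_mul, Real.norm_of_nonneg (hw0 n y), ← mul_assoc]
    exact mul_le_mul (hwb n y) (f.norm_coe_le_norm _) (norm_nonneg _) ((hw0 n y).trans (hwb n y))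
  let N : C(A, ℝ) → Y → ℝ := fun f y => ∑' n, w n y * f (a n)
  have hNs : ∀ (f : C(A, ℝ)) y, Summable (fun n => w n y * f (a n)) := fun f y =>
    Summable.of_norm_bounded (hgeo _) (fun n => hbd f n y)
  have hNc : ∀ f, Continuous (N f) := fun f =>
    continuous_tsum (fun n => (hwc n).mul continuous_const) (hgeo _) (hbd f)
  have hN1 : ∀ y, y ∉ J → 0 < N 1 y := by
    intro y hy
    have hd : 0 < infDist y J := (hJc.notMem_iff_infDist_pos hJn).1 hy
    obtain ⟨_, ⟨b, rfl⟩, hb⟩ := (infDist_lt_iff hJn).1 (show infDist y J < 2 * infDist y J by linarith)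
    have ho : IsOpen {b : A | dist y (j b) < 2 * infDist y J} :=
      isOpen_lt (by fun_prop) continuous_const
    obtain ⟨n, hn⟩ := ha.exists_mem_open ho ⟨b, hb⟩
    apply (hNs 1 y).tsum_pos (fun n => by simpa using hw0 n y) n
    have : 0 < 2 * infDist y J - dist y (j (a n)) := sub_pos.2 hn
    simp only [w, ContinuousMap.one_apply, mul_one]
    have : 0 < max 0 (2 * infDist y J - dist y (j (a n))) := lt_max_of_lt_right this
    positivity
  let e : C(A, ℝ) → Y → ℝ := fun f y => if h : y ∈ J then f h.choose else N f y / N 1 y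
  have hej : ∀ f b, e f (j b) = f b := by
    intro f b
    have h : j b ∈ J := Set.mem_range_self b
    simp only [e, dif_pos h]
    rw [hj h.choose_spec]
  have hle : ∀ (f : C(A, ℝ)) y c, (∀ b, dist y (j b) ≤ 2 * infDist y J → f b ≤ c) → e f y ≤ c := by
    intro f y c h
    by_cases hy : y ∈ J
    · obtain ⟨b, rfl⟩ := hy
      rw [hej]
      apply h
      rw [dist_self]
      have := infDist_nonneg (x := j b) (s := J)
      linarith
    · simp only [e, dif_neg hy]
      rw [div_le_iff₀ (hN1 y hy)]
      simp only [N]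
      rw [← tsum_mul_left]
      apply (hNs f y).tsum_le_tsum _ ((hNs 1 y).mul_left c)
      intro n
      simp only [ContinuousMap.one_apply, mul_one]
      by_cases hn : dist y (j (a n)) ≤ 2 * infDist y J
      · rw [mul_comm c]
        exact mul_le_mul_of_nonneg_left (h _ hn) (hw0 n y)
      · have : w n y = 0 := by
          simp only [w]
          rw [max_eq_left (by linarith), mul_zero]
        simp [this]
  have hadd : ∀ f g y, e (f + g) y = e f y + e g y := by
    intro f g y
    by_cases hy : y ∈ J
    · simp only [e, dif_pos hy]; rfl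
    · simp only [e, dif_neg hy, N, ContinuousMap.add_apply, mul_add]
      rw [(hNs f y).tsum_add (hNs g y), add_div]
  have hsmul : ∀ (c : ℝ) f y, e (c • f) y = c * e f y := by
    intro c f y
    by_cases hy : y ∈ J
    · simp only [e, dif_pos hy]; rfl
    · simp only [e, dif_neg hy, N, ContinuousMap.smul_apply, smul_eq_mul]
      rw [← mul_div_assoc, ← tsum_mul_left]
      congr 2
      funext n; ring
  have hge : ∀ (f : C(A, ℝ)) y c, (∀ b, dist y (j b) ≤ 2 * infDist y J → c ≤ f b) → c ≤ e f y := by
    intro f y c h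
    have := hle ((-1:ℝ) • f) y (-c) (fun b hb => by simpa using h b hb)
    rw [hsmul] at this
    linarith
  have hcont : ∀ f, Continuous (e f) := by
    intro f
    rw [continuous_iff_continuousAt]
    intro y
    by_cases hy : y ∈ J
    · obtain ⟨b, rfl⟩ := hy
      rw [Metric.continuousAt_iff]
      intro ε hε
      have h1 : ∀ᶠ b' in 𝓝 b, dist (f b') (f b) < ε / 2 :=
        Metric.tendsto_nhds.1 (f.continuous.tendsto b) _ (by linarith)
      rw [hemb.isInducing.nhds_eq_comap, eventually_comap, Metric.eventually_nhds_iff] at h1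
      obtain ⟨δ, hδ, h1⟩ := h1
      refine ⟨δ / 3, by linarith, fun y hy => ?_⟩
      have h2 : ∀ b', dist y (j b') ≤ 2 * infDist y J → dist (f b') (f b) < ε / 2 := by
        intro b' hb'
        refine h1 (y := j b') ?_ b' rfl
        have h3 := infDist_le_dist_of_mem (x := y) (Set.mem_range_self (f := j) b)
        have h4 := dist_triangle_left (j b') (j b) y
        linarith
      have h5 := hle f y (f b + ε / 2) (fun b' hb' => by
        have := (abs_lt.1 (h2 b' hb')).2; linarith)
      have h6 := hge f y (f b - ε / 2) (fun b' hb' => by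
        have := (abs_lt.1 (h2 b' hb')).1; linarith)
      rw [hej, Real.dist_eq, abs_lt]
      constructor <;> linarith
    · have h1 : ContinuousAt (fun y => N f y / N 1 y) y :=
        (hNc f).continuousAt.div (hNc 1).continuousAt (hN1 y hy).ne'
      apply h1.congr
      filter_upwards [hJc.isOpen_compl.mem_nhds hy] with z hz
      simp only [e, dif_neg (show z ∉ J from hz)]
  let El : C(A, ℝ) →ₗ[ℝ] C(Y, ℝ) :=
    { toFun := fun f => ⟨e f, hcont f⟩
      map_add' := fun f g => by ext y; exact hadd f g y
      map_smul' := fun c f => by ext y; exact hsmul c f y }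
  refine ⟨El.mkContinuous 1 ?_, fun f hf y => hge f y 0 (fun b _ => hf b), fun f => ?_⟩
  · intro f
    rw [one_mul, ContinuousMap.norm_le _ (norm_nonneg _)]
    intro u
    rw [Real.norm_eq_abs, abs_le]
    exact ⟨hge f u _ (fun x _ => (abs_le.1 (f.norm_coe_le_norm x)).1),
      hle f u _ (fun x _ => (abs_le.1 (f.norm_coe_le_norm x)).2)⟩
  · ext b
    exact hej f b

end Pool.Agent.H26.PosIso
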