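import Mathlib

set_option autoImplicit false

namespace Pool.Agent.H26.FB0

variable {E : Type} [NormedAddCommGroup E] [NormedSpace ℝ E]

def Adm {m : ℕ} (x : Fin m → E →L[ℝ] ℝ) : Prop := ∀ v, ‖v‖ ≤ 1 → ∑ i, |x i v| ≤ 1

def Sums (f : (E →L[ℝ] ℝ) → ℝ) : Set ℝ :=
  {r | ∃ (m : ℕ) (x : Fin m → E →L[ℝ] ℝ), Adm x ∧ r = ∑ i, |f (x i)|}

noncomputable def N (f : (E →L[ℝ] ℝ) → ℝ) : ℝ := sSup (Sums f)

def InH (f : (E →L[ℝ] ℝ) → ℝ) : Prop :=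
  (∀ t : ℝ, 0 ≤ t → ∀ x, f (t • x) = t * f x) ∧ BddAbove (Sums f)

inductive Gen : ((E →L[ℝ] ℝ) → ℝ) → Prop
  | delta (v : E) : Gen fun x => x v
  | add {f g : (E →L[ℝ] ℝ) → ℝ} : Gen f → Gen g → Gen fun x => f x + g x
  | smul (c : ℝ) {f : (E →L[ℝ] ℝ) → ℝ} : Gen f → Gen fun x => c * f x
  | sup {f g : (E →L[ℝ] ℝ) → ℝ} : Gen f → Gen g → Gen fun x => max (f x) (g x)

def InFBL (f : (E →L[ℝ] ℝ) → ℝ) : Prop :=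
  InH f ∧ ∀ ε > 0, ∃ g, Gen g ∧ N (fun x => f x - g x) < ε

def IsModel {X : Type} [NormedAddCommGroup X] [NormedSpace ℝ X] (ι : X → (E →L[ℝ] ℝ) → ℝ) : Prop :=
  (∀ x, IsLinearMap ℝ fun a => ι a x) ∧ (∀ f, InFBL f ↔ ∃ a, ι a = f) ∧ ∀ a, ‖a‖ = N (ι a)

def Oct (X : Type) [NormedAddCommGroup X] [NormedSpace ℝ X] : Prop :=
  ∀ Y : Submodule ℝ X, FiniteDimensional ℝ Y → ∀ ε > 0, ∃ y : X, ‖y‖ = 1 ∧
    ∀ z ∈ Y, ∀ c : ℝ, (1 - ε) * (‖z‖ + |c|) ≤ ‖z + c • y‖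

def RankOne {X : Type} [NormedAddCommGroup X] [NormedSpace ℝ X] (T : X →L[ℝ] X) : Prop :=
  Module.finrank ℝ (LinearMap.range T.toLinearMap) = 1

def Daug (X : Type) [NormedAddCommGroup X] [NormedSpace ℝ X] : Prop :=
  ∀ T : X →L[ℝ] X, RankOne T → ‖ContinuousLinearMap.id ℝ X + T‖ = 1 + ‖T‖

end Pool.Agent.H26.FB0
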