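import Mathlib
import Pool.Agent.H26.FB0

set_option autoImplicit false

open Metric

namespace Pool.Agent.H26.FB1

open FB0

variable {E : Type} [NormedAddCommGroup E] [NormedSpace ℝ E]

lemma zero_mem (f : (E →L[ℝ] ℝ) → ℝ) : 0 ∈ Sums f := ⟨0, Fin.elim0, fun _ _ => by simp, by simp⟩

lemma N_le {f : (E →L[ℝ] ℝ) → ℝ} {r : ℝ}
    (h : ∀ (m : ℕ) (x : Fin m → E →L[ℝ] ℝ), Adm x → ∑ i, |f (x i)| ≤ r) :
    BddAbove (Sums f) ∧ N f ≤ r :=
  ⟨⟨r, by rintro _ ⟨m, x, hx, rfl⟩; exact h m x hx⟩,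
    csSup_le ⟨0, zero_mem f⟩ (by rintro _ ⟨m, x, hx, rfl⟩; exact h m x hx)⟩

lemma le_N {f : (E →L[ℝ] ℝ) → ℝ} (h : BddAbove (Sums f)) {m : ℕ} {x : Fin m → E →L[ℝ] ℝ}
    (hx : Adm x) : ∑ i, |f (x i)| ≤ N f := le_csSup h ⟨m, x, hx, rfl⟩

lemma N_dom {f g h : (E →L[ℝ] ℝ) → ℝ} (hf : BddAbove (Sums f)) (hg : BddAbove (Sums g)) {a b : ℝ}
    (ha : 0 ≤ a) (hb : 0 ≤ b) (H : ∀ x, |h x| ≤ a * |f x| + b * |g x|) :
    BddAbove (Sums h) ∧ N h ≤ a * N f + b * N g :=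
  N_le fun _ x hx => (Finset.sum_le_sum fun i _ => H (x i)).trans (by
    rw [Finset.sum_add_distrib, ← Finset.mul_sum, ← Finset.mul_sum]
    exact add_le_add (mul_le_mul_of_nonneg_left (le_N hf hx) ha)
      (mul_le_mul_of_nonneg_left (le_N hg hx) hb))

lemma tuple {f : (E →L[ℝ] ℝ) → ℝ} (h : InH f) {I : Type} [Fintype I] (x : I → E →L[ℝ] ℝ) {c : ℝ}
    (hc : 0 < c) (hx : ∀ v, ‖v‖ ≤ 1 → ∑ i, |x i v| ≤ c) : ∑ i, |f (x i)| ≤ c * N f := by
  have := le_N h.2 (x := fun i => c⁻¹ • x ((Fintype.equivFin I).symm i)) fun v hv => by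
    simp only [smul_apply, smul_eq_mul, abs_mul, abs_of_pos (inv_pos.2 hc), ← Finset.mul_sum]
    rw [(Fintype.equivFin I).symm.sum_comp fun i => |x i v|, inv_mul_le_one₀ hc]
    exact hx v hv
  simp only [h.1 _ (inv_pos.2 hc).le, abs_mul, abs_of_pos (inv_pos.2 hc), ← Finset.mul_sum] at this
  rwa [(Fintype.equivFin I).symm.sum_comp fun i => |f (x i)|, inv_mul_le_iff₀ hc] at this

lemma single {f : (E →L[ℝ] ℝ) → ℝ} (h : InH f) (x : E →L[ℝ] ℝ) {c : ℝ} (hc : 0 < c) (hx : ‖x‖ ≤ c) :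
    |f x| ≤ c * N f := by
  simpa using tuple h (fun _ : Unit => x) hc fun v hv => by
    simpa using x.le_of_opNorm_le_of_le hx hv

lemma delta_N (v : E) : BddAbove (Sums fun x : E →L[ℝ] ℝ => x v) ∧ N (fun x : E →L[ℝ] ℝ => x v) ≤ ‖v‖ :=
  N_le fun _ x hx => by
    rcases eq_or_ne v 0 with rfl | h
    · simp
    have h0 := norm_pos_iff.2 h
    have := hx (‖v‖⁻¹ • v) (by rw [norm_smul, norm_inv, norm_norm, inv_mul_cancel₀ h0.ne'])
    simp only [map_smul, smul_eq_mul, abs_mul, abs_of_pos (inv_pos.2 h0), ← Finset.mul_sum] at this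
    exact (inv_mul_le_one₀ h0).1 this

lemma InH.add {f g : (E →L[ℝ] ℝ) → ℝ} (hf : InH f) (hg : InH g) (c : ℝ) :
    InH fun x => f x + c * g x :=
  ⟨fun t ht x => by simp only [hf.1 t ht, hg.1 t ht]; ring, (N_dom hf.2 hg.2 zero_le_one (abs_nonneg c)
    fun x => by simpa [abs_mul] using abs_add_le (f x) (c * g x)).1⟩

lemma InH.sub {f g : (E →L[ℝ] ℝ) → ℝ} (hf : InH f) (hg : InH g) : InH fun x => f x - g x := by
  simpa [sub_eq_add_neg] using InH.add hf hg (-1)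

lemma InH.sup {f g : (E →L[ℝ] ℝ) → ℝ} (hf : InH f) (hg : InH g) : InH fun x => max (f x) (g x) :=
  ⟨fun t ht x => by simp only [hf.1 t ht, hg.1 t ht, mul_max_of_nonneg _ _ ht],
    (N_dom hf.2 hg.2 zero_le_one zero_le_one fun x => by simpa using norm_sup_le_add (f x) (g x)).1⟩

lemma Gen.inH {f : (E →L[ℝ] ℝ) → ℝ} (h : Gen f) : InH f := by
  induction h with
  | delta v => exact ⟨fun _ _ _ => rfl, (delta_N v).1⟩
  | add _ _ hf hg => simpa using InH.add hf hg 1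
  | smul c _ hf => simpa [sub_mul] using InH.sub (InH.add hf hf c) hf
  | sup _ _ hf hg => exact InH.sup hf hg

lemma Gen.inFBL {f : (E →L[ℝ] ℝ) → ℝ} (h : Gen f) : InFBL f :=
  ⟨Gen.inH h, fun _ hε => ⟨f, h, (N_le fun _ _ _ => by simp).2.trans_lt hε⟩⟩

lemma InFBL.comb {f g : (E →L[ℝ] ℝ) → ℝ} (hf : InFBL f) (hg : InFBL g) (φ : ℝ → ℝ → ℝ) {c : ℝ}
    (hc : 0 < c) (h1 : InH fun x => φ (f x) (g x))
    (h2 : ∀ f g : (E →L[ℝ] ℝ) → ℝ, Gen f → Gen g → Gen fun x => φ (f x) (g x))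
    (h3 : ∀ a b a' b', |φ a b - φ a' b'| ≤ 1 * |a - a'| + c * |b - b'|) :
    InFBL fun x => φ (f x) (g x) :=
  ⟨h1, fun ε hε => by
    obtain ⟨f', f1, f2⟩ := hf.2 _ (half_pos hε)
    obtain ⟨g', g1, g2⟩ := hg.2 _ (div_pos (half_pos hε) hc)
    refine ⟨_, h2 f' g' f1 g1, (N_dom (InH.sub hf.1 (Gen.inH f1)).2 (InH.sub hg.1 (Gen.inH g1)).2
      zero_le_one hc.le fun x => h3 _ _ _ _).2.trans_lt ?_⟩
    linarith [(lt_div_iff₀' hc).1 g2]⟩

lemma InFBL.add {f g : (E →L[ℝ] ℝ) → ℝ} (hf : InFBL f) (hg : InFBL g) (c : ℝ) :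
    InFBL fun x => f x + c * g x :=
  InFBL.comb hf hg (fun a b => a + c * b) (c := |c| + 1) (by positivity) (InH.add hf.1 hg.1 c)
    (fun _ _ h h' => h.add (h'.smul c)) fun a b a' b' => by
      rw [add_sub_add_comm, ← mul_sub]
      refine (abs_add_le _ _).trans ?_
      rw [abs_mul]
      nlinarith [abs_nonneg (b - b')]

theorem exists_model (E : Type) [NormedAddCommGroup E] [NormedSpace ℝ E] :
    ∃ (X : Type) (_ : NormedAddCommGroup X) (_ : NormedSpace ℝ X) (ι : X → (E →L[ℝ] ℝ) → ℝ),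
      IsModel ι := by
  have h0 : InFBL (0 : (E →L[ℝ] ℝ) → ℝ) := by
    simpa [Pi.zero_def] using Gen.inFBL (Gen.delta (0 : E))
  let S : Submodule ℝ ((E →L[ℝ] ℝ) → ℝ) :=
    { carrier := {f | InFBL f}
      add_mem' := fun hf hg => by simpa [Pi.add_def] using InFBL.add hf hg 1
      zero_mem' := h0
      smul_mem' := fun c f hf => by simpa [Pi.smul_def] using InFBL.add h0 hf c }
  have h1 : ∀ (c : ℝ) (f : S), N (c • f).1 ≤ ‖c‖ * N f.1 := fun c f => by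
    simpa using (N_dom (h := (c • f).1) f.2.1.2 f.2.1.2 (abs_nonneg c) le_rfl fun x => by
      simp [abs_mul]).2
  let p : Seminorm ℝ S := .ofSMulLE (fun f => N f.1) (le_antisymm (N_le fun _ _ _ => by simp).2
    (le_csSup h0.1.2 (zero_mem _))) (fun f g => by
      simpa using (N_dom (h := (f + g).1) f.2.1.2 g.2.1.2 zero_le_one zero_le_one fun x => by
        simpa using abs_add_le _ _).2) h1
  letI : NormedAddCommGroup S := AddGroupNorm.toNormedAddCommGroup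
    { p.toAddGroupSeminorm with
      eq_zero_of_map_eq_zero' := fun f hf => Subtype.ext (funext fun x => abs_nonpos_iff.1
        ((single f.2.1 x (c := ‖x‖ + 1) (by positivity) (by linarith)).trans_eq (by
          rw [show N f.1 = 0 from hf, mul_zero]))) }
  exact ⟨S, inferInstance, ⟨h1⟩, Subtype.val, fun x => ⟨fun _ _ => rfl, fun _ _ => rfl⟩,
    fun f => ⟨fun h => ⟨⟨f, h⟩, rfl⟩, by rintro ⟨a, rfl⟩; exact a.2⟩, fun _ => rfl⟩

variable {X : Type} [NormedAddCommGroup X] [NormedSpace ℝ X] {ι : X → (E →L[ℝ] ℝ) → ℝ}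

lemma mem (h : IsModel ι) (a : X) : InFBL (ι a) := (h.2.1 _).2 ⟨a, rfl⟩

lemma m_add (h : IsModel ι) (a b : X) (x : E →L[ℝ] ℝ) : ι (a + b) x = ι a x + ι b x := (h.1 x).1 a b

lemma m_smul (h : IsModel ι) (c : ℝ) (a : X) (x : E →L[ℝ] ℝ) : ι (c • a) x = c * ι a x :=
  (h.1 x).2 c a

lemma m_sub (h : IsModel ι) (a b : X) (x : E →L[ℝ] ℝ) : ι (a - b) x = ι a x - ι b x :=
  (h.1 x).map_sub a b

lemma m_tuple (h : IsModel ι) (a : X) {I : Type} [Fintype I] (x : I → E →L[ℝ] ℝ) {c : ℝ}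
    (hc : 0 < c) (hx : ∀ v, ‖v‖ ≤ 1 → ∑ i, |x i v| ≤ c) : ∑ i, |ι a (x i)| ≤ c * ‖a‖ :=
  h.2.2 a ▸ tuple (mem h a).1 x hc hx

lemma m_lt (h : IsModel ι) {a : X} {r : ℝ} (hr : r < ‖a‖) :
    ∃ (m : ℕ) (x : Fin m → E →L[ℝ] ℝ), Adm x ∧ r < ∑ i, |ι a (x i)| := by
  obtain ⟨_, ⟨m, x, hx, rfl⟩, h'⟩ := exists_lt_of_lt_csSup ⟨0, zero_mem _⟩ (hr.trans_eq (h.2.2 a))
  exact ⟨m, x, hx, h'⟩

lemma m_dom (h : IsModel ι) (a : X) (v : E) (H : ∀ x, |ι a x| ≤ |x v|) : ‖a‖ ≤ ‖v‖ := by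
  simpa [h.2.2] using (N_dom (delta_N v).1 (delta_N v).1 zero_le_one le_rfl
    fun x => by simpa using H x).2.trans (by simpa using (delta_N v).2)

lemma m_gen (h : IsModel ι) {f : (E →L[ℝ] ℝ) → ℝ} (hf : Gen f) : ∃ a, ι a = f :=
  (h.2.1 _).1 (Gen.inFBL hf)

lemma m_sup (h : IsModel ι) (a b : X) : ∃ c, ∀ x, ι c x = max (ι a x) (ι b x) := by
  obtain ⟨c, hc⟩ := (h.2.1 _).1 (InFBL.comb (mem h a) (mem h b) max one_pos
    (InH.sup (mem h a).1 (mem h b).1) (fun _ _ h h' => h.sup h') fun a b a' b' => by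
      simpa using (abs_max_sub_max_le_max a b a' b').trans
        (max_le_add_of_nonneg (abs_nonneg _) (abs_nonneg _)))
  exact ⟨c, congrFun hc⟩

lemma m_inf (h : IsModel ι) (a b : X) : ∃ c, ∀ x, ι c x = min (ι a x) (ι b x) := by
  obtain ⟨c, hc⟩ := m_sup h a b
  exact ⟨a + b - c, fun x => by rw [m_sub h, m_add h, hc, ← min_add_max, add_sub_cancel_right]⟩

lemma Gen.cont {f : (E →L[ℝ] ℝ) → ℝ} (h : Gen f) : ∃ (I : Finset E) (C : ℝ), 0 ≤ C ∧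
    ∀ (x y : E →L[ℝ] ℝ) (δ : ℝ), 0 ≤ δ → (∀ v ∈ I, |x v - y v| ≤ δ) → |f x - f y| ≤ C * δ := by
  classical
  induction h with
  | delta v => exact ⟨{v}, 1, zero_le_one, fun x y δ _ h => by simpa using h⟩
  | add _ _ hf hg =>
    obtain ⟨I, C, c0, hC⟩ := hf
    obtain ⟨J, D, d0, hD⟩ := hg
    refine ⟨I ∪ J, C + D, by positivity, fun x y δ h0 h => ?_⟩
    rw [add_sub_add_comm, add_mul]
    exact (abs_add_le _ _).trans (add_le_add (hC x y δ h0 fun v hv => h v (by simp [hv]))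
      (hD x y δ h0 fun v hv => h v (by simp [hv])))
  | smul c _ hf =>
    obtain ⟨I, C, c0, hC⟩ := hf
    refine ⟨I, |c| * C, by positivity, fun x y δ h0 h => ?_⟩
    rw [← mul_sub, abs_mul, mul_assoc]
    exact mul_le_mul_of_nonneg_left (hC x y δ h0 h) (abs_nonneg c)
  | sup _ _ hf hg =>
    obtain ⟨I, C, c0, hC⟩ := hf
    obtain ⟨J, D, d0, hD⟩ := hg
    refine ⟨I ∪ J, C + D, by positivity, fun x y δ h0 h => ?_⟩
    rw [add_mul]
    exact (abs_max_sub_max_le_max _ _ _ _).trans ((max_le_add_of_nonneg (abs_nonneg _)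
      (abs_nonneg _)).trans (add_le_add (hC x y δ h0 fun v hv => h v (by simp [hv]))
        (hD x y δ h0 fun v hv => h v (by simp [hv]))))

lemma m_cont (h : IsModel ι) (a : X) {ε : ℝ} (hε : 0 < ε) : ∃ (I : Finset E) (δ : ℝ), 0 < δ ∧
    ∀ x y : E →L[ℝ] ℝ, ‖x‖ ≤ 2 → ‖y‖ ≤ 2 → (∀ v ∈ I, |x v - y v| ≤ δ) → |ι a x - ι a y| ≤ ε := by
  obtain ⟨g, g1, g2⟩ := (mem h a).2 (ε / 8) (by positivity)
  obtain ⟨I, C, c0, hC⟩ := Gen.cont g1
  refine ⟨I, ε / 2 / (C + 1), by positivity, fun x y hx hy H => ?_⟩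
  have h1 := abs_le.1 (single (InH.sub (mem h a).1 (Gen.inH g1)) x two_pos hx)
  have h2 := abs_le.1 (single (InH.sub (mem h a).1 (Gen.inH g1)) y two_pos hy)
  have h3 := abs_le.1 ((hC x y _ (by positivity) H).trans (show _ ≤ ε / 2 by
    rw [mul_div_assoc', div_le_iff₀ (by positivity)]; nlinarith))
  exact abs_le.2 ⟨by linarith, by linarith⟩

lemma oct_of_finite (x₀ : X) (h0 : ‖x₀‖ = 1) (h : ∀ s : Set X, s.Finite → (∀ x ∈ s, ‖x‖ = 1) →
    ∀ ε > 0, ∃ y, ‖y‖ ≤ 1 ∧ ∀ x ∈ s, 2 - ε ≤ ‖x + y‖) : Oct X := fun Y _ ε hε => by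
  obtain ⟨η, η0, η1, η2⟩ : ∃ η > 0, η ≤ ε / 3 ∧ η ≤ 1 / 2 :=
    ⟨min (ε / 3) (1 / 2), by positivity, min_le_left _ _, min_le_right _ _⟩
  obtain ⟨t, t1, t2, t3⟩ := finite_cover_balls_of_compact (isCompact_sphere (0 : Y) 1) η0
  obtain ⟨y, y1, y2⟩ := h (insert x₀ (Subtype.val '' t)) ((t2.image _).insert _) (by
    rintro _ (rfl | ⟨z, hz, rfl⟩)
    exacts [h0, mem_sphere_zero_iff_norm.1 (t1 hz)]) η η0
  have y3 : 1 - η ≤ ‖y‖ := by linarith [y2 x₀ (Set.mem_insert _ _), norm_add_le x₀ y]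
  have y4 : 0 < ‖y‖ := by linarith
  have y5 : ‖‖y‖⁻¹ • y‖ = 1 := by rw [norm_smul, norm_inv, norm_norm, inv_mul_cancel₀ y4.ne']
  have y6 : ‖‖y‖⁻¹ • y - y‖ ≤ η := by
    rw [← one_smul ℝ y, smul_smul, one_smul, mul_one, show ‖y‖⁻¹ • y - y = (1 - ‖y‖) • ‖y‖⁻¹ • y by
      rw [sub_smul, one_smul, smul_inv_smul₀ y4.ne'], norm_smul, y5, mul_one, Real.norm_eq_abs,
      abs_of_nonneg (sub_nonneg.2 y1)]
    linarith
  generalize ‖y‖⁻¹ • y = w at y5 y6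
  have h1 : ∀ z ∈ Y, ‖z‖ = 1 → 2 - ε ≤ ‖z + w‖ := fun z hz hz' => by
    obtain ⟨u, hu, hu'⟩ := Set.mem_iUnion₂.1 (t3 (mem_sphere_zero_iff_norm.2
      (show ‖(⟨z, hz⟩ : Y)‖ = 1 from hz')))
    have h2 : ‖z - u‖ < η := mem_ball_iff_norm.1 hu'
    have h3 := y2 u (Set.mem_insert_of_mem _ ⟨u, hu, rfl⟩)
    rw [show u + y = z + w - ((z - u) + (w - y)) by abel] at h3
    linarith [norm_sub_le (z + w) ((z - u) + (w - y)), norm_add_le (z - u) (w - y)]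
  have h2 : ∀ z ∈ Y, ∀ c : ℝ, 0 ≤ c → (1 - ε) * (‖z‖ + c) ≤ ‖z + c • w‖ := fun z hz c hc => by
    rcases eq_or_ne z 0 with rfl | hz'
    · simp only [norm_zero, zero_add, norm_smul, y5, mul_one, Real.norm_of_nonneg hc]
      nlinarith
    have h3 := norm_pos_iff.2 hz'
    have h4 : ‖‖z‖⁻¹ • z‖ = 1 := by rw [norm_smul, norm_inv, norm_norm, inv_mul_cancel₀ h3.ne']
    have h5 := h1 _ (Y.smul_mem _ hz) h4
    rw [← smul_inv_smul₀ h3.ne' z]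
    generalize ‖z‖⁻¹ • z = u at h4 h5
    generalize ‖z‖ = a at h3
    rw [norm_smul, h4, mul_one, Real.norm_of_nonneg h3.le]
    rcases le_total c a with h | h
    · have := norm_add_le (a • u + c • w) ((a - c) • w)
      rw [show a • u + c • w + (a - c) • w = a • (u + w) by module, norm_smul, norm_smul, y5,
        Real.norm_of_nonneg h3.le, Real.norm_of_nonneg (sub_nonneg.2 h)] at this
      nlinarith
    · have := norm_add_le (a • u + c • w) ((c - a) • u)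
      rw [show a • u + c • w + (c - a) • u = c • (u + w) by module, norm_smul, norm_smul, h4,
        Real.norm_of_nonneg hc, Real.norm_of_nonneg (sub_nonneg.2 h)] at this
      nlinarith
  refine ⟨w, y5, fun z hz c => ?_⟩
  rcases le_total 0 c with hc | hc
  · rw [abs_of_nonneg hc]; exact h2 z hz c hc
  · have := h2 (-z) (Y.neg_mem hz) (-c) (neg_nonneg.2 hc)
    rwa [norm_neg, neg_smul, ← neg_add, norm_neg, ← abs_of_nonpos hc] at this

end Pool.Agent.H26.FB1
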