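import Mathlib
import Pool.Agent.H26.FB1

set_option autoImplicit false

open Metric Filter Topology

namespace Pool.Agent.H26.FB2

open FB0 FB1

variable {E : Type} [NormedAddCommGroup E] [NormedSpace ℝ E]
  {X : Type} [NormedAddCommGroup X] [NormedSpace ℝ X] {ι : X → (E →L[ℝ] ℝ) → ℝ}

lemma m_cont' (h : IsModel ι) (a : X) (χ : E →L[ℝ] ℝ) {ε : ℝ} (hε : 0 < ε) : ∃ δ > 0,
    ∀ (x : E →L[ℝ] ℝ) (t : ℝ), ‖x‖ ≤ 3 / 2 → 0 ≤ t → t ≤ δ → |ι a (x + t • χ) - ι a x| ≤ ε := by
  obtain ⟨I, δ, h0, h1⟩ := m_cont h a hε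
  obtain ⟨C, c0, c1, c2⟩ : ∃ C > 0, ‖χ‖ ≤ C ∧ ∀ v ∈ I, |χ v| ≤ C :=
    ⟨‖χ‖ + ∑ v ∈ I, |χ v| + 1, by positivity, by
      linarith [Finset.sum_nonneg fun v (_ : v ∈ I) => abs_nonneg (χ v)], fun v hv => by
      linarith [Finset.single_le_sum (fun v (_ : v ∈ I) => abs_nonneg (χ v)) hv, norm_nonneg χ]⟩
  refine ⟨min δ (1 / 2) / C, by positivity, fun x t hx t0 t1 => h1 _ _ ?_ (by linarith) fun v hv => ?_⟩
  all_goals rw [le_div_iff₀ c0, le_min_iff] at t1
  · refine (norm_add_le _ _).trans ?_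
    rw [norm_smul, Real.norm_of_nonneg t0]
    nlinarith
  · simp only [add_apply, smul_apply, smul_eq_mul, add_sub_cancel_left, abs_mul, abs_of_nonneg t0]
    nlinarith [c2 v hv]

lemma m_abs (h : IsModel ι) (v : E) : ∃ a, ∀ x, ι a x = |x v| := by
  obtain ⟨a, ha⟩ := m_gen h ((Gen.delta v).sup ((Gen.delta v).smul (-1)))
  exact ⟨a, fun x => by simp [ha, abs_eq_max_neg]⟩

lemma step (h : IsModel ι) {x w : E} {χ : E →L[ℝ] ℝ} (h1 : χ x = 0) (h2 : χ w = 1)
    (μ : X →L[ℝ] ℝ) (f : X) (hf : ∀ z, |ι f z| ≤ |z x|) (Q : Set (E →L[ℝ] ℝ)) (hQ : Q.Finite)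
    (p : E →L[ℝ] ℝ) {s : ℝ} (hs : s * s = 1) {η : ℝ} (hη : 0 < η) : ∃ g t, 0 ≤ t ∧ t ≤ η ∧
      (∀ z, |ι g z| ≤ |z x|) ∧ |μ g - μ f| ≤ η ∧ (∀ q ∈ Q, ι g q = ι f q) ∧
      ι g (p + t • χ) = s * |p x| := by
  rcases eq_or_ne (p x) 0 with h0 | h0
  · exact ⟨f, 0, le_rfl, hη.le, hf, by simpa using hη.le, fun _ _ => rfl, by
      simpa [h0] using hf p⟩
  have s1 : |s| = 1 := by nlinarith [abs_mul_abs_self s, abs_nonneg s]
  let t : ℕ → ℝ := fun k => η / 2 ^ k
  have t0 : ∀ k, 0 < t k := fun k => by positivity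
  let β : ℕ → (E →L[ℝ] ℝ) → ℝ := fun k z => max (t k / 4 * |z x| - |p x * z w - (p w + t k) * z x|) 0
  have b1 : ∀ k l z, k < l → β k z = 0 ∨ β l z = 0 := fun k l z hkl => by
    by_contra! H
    have h3 : t l ≤ t k / 2 := by
      rw [div_div, ← pow_succ]
      exact div_le_div_of_nonneg_left hη.le (by positivity) (pow_le_pow_right₀ one_le_two hkl)
    have h4 := abs_sub (p x * z w - (p w + t l) * z x) (p x * z w - (p w + t k) * z x)
    rw [show p x * z w - (p w + t l) * z x - (p x * z w - (p w + t k) * z x) = (t k - t l) * z x by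
      ring, abs_mul, abs_of_nonneg (by linarith [t0 k])] at h4
    have h5 := not_le.1 fun h => H.1 (max_eq_right h)
    have h6 := not_le.1 fun h => H.2 (max_eq_right h)
    nlinarith [abs_nonneg (z x), t0 k, mul_nonneg (t0 k).le (abs_nonneg (z x))]
  have b2 : ∀ k l z, k ≠ l → β k z ≠ 0 → β l z = 0 := fun k l z h h' =>
    (lt_or_gt_of_ne h).elim (fun h => (b1 k l z h).resolve_left h') fun h => (b1 l k z h).resolve_right h'
  have : ∀ k, ∃ g, ∀ z, ι g z = s * min (max (s * ι f z) (8 / t k * β k z - |z x|)) |z x| := fun k => by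
    obtain ⟨a, ha⟩ := m_abs h x
    obtain ⟨b, hb⟩ := m_abs h (p x • w - (p w + t k) • x)
    obtain ⟨c, hc⟩ := m_sup h ((t k / 4) • a - b) ((0 : ℝ) • a)
    obtain ⟨d, hd⟩ := m_sup h (s • f) ((8 / t k) • c - a)
    obtain ⟨e, he⟩ := m_inf h d a
    exact ⟨s • e, fun z => by
      simp only [m_smul h, m_sub h, he, hd, hc, ha, hb, β, map_sub, map_smul, smul_eq_mul, zero_mul]⟩
  choose g hg using this
  have g0 : ∀ z, |s * ι f z| ≤ |z x| := fun z => by rw [abs_mul, s1, one_mul]; exact hf z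
  have g1 : ∀ k z, |ι (g k) z| ≤ |z x| := fun k z => by
    rw [hg, abs_mul, s1, one_mul]
    exact abs_le.2 ⟨le_min (le_max_of_le_left (abs_le.1 (g0 z)).1) (neg_le_self (abs_nonneg _)),
      min_le_right _ _⟩
  have g2 : ∀ k z, β k z = 0 → ι (g k) z = ι f z := fun k z H => by
    rw [hg, H, mul_zero, zero_sub, max_eq_left (abs_le.1 (g0 z)).1, min_eq_left (abs_le.1 (g0 z)).2,
      ← mul_assoc, hs, one_mul]
  have g3 : Summable fun k => |μ (g k) - μ f| := summable_of_sum_range_le (fun _ => abs_nonneg _)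
    (c := ‖μ‖ * ‖(2 : ℝ) • x‖) fun n => by
      let σ : ℕ → ℝ := fun k => if 0 ≤ μ (g k) - μ f then 1 else -1
      have σ1 : ∀ k, |σ k| = 1 := fun k => by simp only [σ]; split_ifs <;> simp
      have h3 : ∑ k ∈ Finset.range n, |μ (g k) - μ f| = μ (∑ k ∈ Finset.range n, σ k • (g k - f)) := by
        rw [map_sum]
        refine Finset.sum_congr rfl fun k _ => ?_
        simp only [σ, map_smul, map_sub, smul_eq_mul]
        split_ifs with H
        exacts [by rw [abs_of_nonneg H, one_mul], by rw [abs_of_neg (not_le.1 H), neg_one_mul]]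
      refine h3.trans_le ((le_abs_self _).trans (μ.le_opNorm_of_le (m_dom h _ _ fun z => ?_)))
      rw [show ι _ z = _ from map_sum ((h.1 z).mk' _) _ _, map_smul, smul_eq_mul, abs_mul, abs_two]
      simp only [IsLinearMap.mk'_apply, m_smul h, m_sub h]
      by_cases H : ∃ k, β k z ≠ 0
      · obtain ⟨k, hk⟩ := H
        refine (Finset.abs_sum_le_sum_abs _ _).trans ((Finset.sum_le_sum (g := fun l =>
          if l = k then 2 * |z x| else 0) fun l _ => ?_).trans (by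
            rw [Finset.sum_ite_eq']; split_ifs; exacts [le_rfl, by positivity]))
        split_ifs with H
        · rw [abs_mul, σ1, one_mul]; linarith [abs_sub (ι (g l) z) (ι f z), g1 l z, hf z]
        · simp [g2 l z (b2 k l z (Ne.symm H) hk)]
      · push Not at H
        simp [g2 _ z (H _)]
  obtain ⟨k, k1, k2⟩ := ((g3.tendsto_atTop_zero.eventually (ge_mem_nhds hη)).and
    (hQ.eventually_all.2 fun q _ => show ∀ᶠ k in atTop, β k q = 0 from by
      by_cases H : ∃ k, β k q ≠ 0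
      · obtain ⟨k, hk⟩ := H
        exact (eventually_ne_atTop k).mono fun l hl => b2 k l q hl.symm hk
      · push Not at H
        exact .of_forall H)).exists
  refine ⟨g k, t k, (t0 k).le, div_le_self hη.le (one_le_pow₀ one_le_two), g1 k, k1,
    fun q hq => g2 k q (k2 q hq), ?_⟩
  have h3 : (p + t k • χ) x = p x := by simp [h1]
  have h4 : β k (p + t k • χ) = t k / 4 * |p x| := by
    simp only [β, h3, add_apply, smul_apply, h2, smul_eq_mul, mul_one, mul_comm (p x), sub_self,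
      abs_zero, sub_zero]
    exact max_eq_left (by have := t0 k; positivity)
  rw [hg, h4, h3, min_eq_right (le_max_of_le_right (by
    have := (t0 k).ne'; field_simp; linarith [abs_nonneg (p x)]))]

lemma interp (h : IsModel ι) {x w : E} {χ : E →L[ℝ] ℝ} (h1 : χ x = 0) (h2 : χ w = 1)
    (μ : X →L[ℝ] ℝ) (f : X) (hf : ∀ z, |ι f z| ≤ |z x|) {J : Type} [Finite J]
    (p : J → E →L[ℝ] ℝ) (s : J → ℝ) (hs : ∀ j, s j * s j = 1) {η : ℝ} (hη : 0 < η) :
    ∃ (g : X) (t : J → ℝ), (∀ j, 0 ≤ t j ∧ t j ≤ η) ∧ (∀ z, |ι g z| ≤ |z x|) ∧ |μ g - μ f| ≤ η ∧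
      ∀ j, ι g (p j + t j • χ) = s j * |p j x| := by
  classical
  have key : ∀ S : Finset J, ∀ η > 0, ∃ (g : X) (t : J → ℝ), (∀ j, 0 ≤ t j ∧ t j ≤ η) ∧
      (∀ z, |ι g z| ≤ |z x|) ∧ |μ g - μ f| ≤ η ∧ ∀ j ∈ S, ι g (p j + t j • χ) = s j * |p j x| :=
    fun S => by
      induction S using Finset.induction_on with
      | empty => exact fun η hη => ⟨f, 0, fun _ => ⟨le_rfl, hη.le⟩, hf, by simpa using hη.le, by simp⟩
      | insert i S hi ih =>
        intro η hη
        obtain ⟨g, t, a1, a2, a3, a4⟩ := ih _ (half_pos hη)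
        obtain ⟨g', u, b1, b2, b3, b4, b5, b6⟩ := step h h1 h2 μ g a2 _
          (S.finite_toSet.image fun j => p j + t j • χ) (p i) (hs i) (half_pos hη)
        refine ⟨g', Function.update t i u, fun j => ?_, b3, by
          linarith [abs_sub_le (μ g') (μ g) (μ f)], fun j hj => ?_⟩
        · rcases eq_or_ne j i with rfl | H
          · rw [Function.update_self]; exact ⟨b1, by linarith⟩
          · rw [Function.update_of_ne H]; exact ⟨(a1 j).1, by linarith [(a1 j).2]⟩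
        · rcases Finset.mem_insert.1 hj with rfl | hj
          · rwa [Function.update_self]
          · rw [Function.update_of_ne (ne_of_mem_of_not_mem hj hi), b5 _ ⟨j, hj, rfl⟩, a4 j hj]
  have := Fintype.ofFinite J
  obtain ⟨g, t, a1, a2, a3, a4⟩ := key Finset.univ η hη
  exact ⟨g, t, a1, a2, a3, fun j => a4 j (Finset.mem_univ j)⟩

lemma exists_sign (r : ℝ) : ∃ s : ℝ, s * s = 1 ∧ s * r = |r| := by
  rcases le_total 0 r with h | h
  exacts [⟨1, by simp, by simp [abs_of_nonneg h]⟩, ⟨-1, by simp, by simp [abs_of_nonpos h]⟩]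

end Pool.Agent.H26.FB2
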