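import Mathlib

set_option autoImplicit false

open Filter Topology Finset

namespace Pool.Agent.H26.Fonf

section
variable {α : Type} (K : Set α) (w : α → ℕ → ℝ)

noncomputable def th (A : α) : ℝ := 1 + 1 / (1 + ∑' n, w A n)

def Inv (k : ℕ) (s : ℕ × (ℕ → ℝ)) : Prop :=
  (∀ n, 0 ≤ s.2 n) ∧ ∀ A ∈ K, th w A * ∑ n ∈ range s.1, s.2 n * w A n ≤ 1 - (1 / 2) ^ k

def Ext (s t : ℕ × (ℕ → ℝ)) : Prop := s.1 < t.1 ∧ ∀ n < s.1, t.2 n = s.2 n

variable {K w} (w0 : ∀ A n, 0 ≤ w A n)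

include w0 in
lemma th_bd (A : α) : 1 ≤ th w A ∧ th w A ≤ 2 := by
  have h : 0 ≤ ∑' n, w A n := tsum_nonneg (w0 A)
  have h1 : 1 / (1 + ∑' n, w A n) ≤ 1 := div_le_one_of_le₀ (by linarith) (by linarith)
  have h2 : 0 ≤ 1 / (1 + ∑' n, w A n) := by positivity
  unfold th
  constructor <;> linarith

lemma split {s t : ℕ × (ℕ → ℝ)} (h : Ext s t) (A : α) : ∑ n ∈ range t.1, t.2 n * w A n =
    ∑ n ∈ range s.1, s.2 n * w A n + ∑ n ∈ Ico s.1 t.1, t.2 n * w A n := by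
  rw [← sum_range_add_sum_Ico _ h.1.le]
  congr 1
  exact sum_congr rfl fun n hn => by rw [h.2 n (mem_range.1 hn)]

include w0 in
lemma step (hK : K.Nonempty) (k : ℕ) (s : ℕ × (ℕ → ℝ)) (hs : Inv K w k s) :
    ∃ t, Ext s t ∧ Inv K w (k + 1) t ∧ ∃ A ∈ K, ∀ u, Ext s u → Inv K w (k + 1) u → ∀ B ∈ K,
      ∑ n ∈ Ico s.1 u.1, u.2 n * w B n ≤ ∑ n ∈ Ico s.1 t.1, t.2 n * w A n + 1 / (k + 1) := by
  set T : Set ℝ := {v | ∃ t, Ext s t ∧ Inv K w (k + 1) t ∧ ∃ A ∈ K,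
    v = ∑ n ∈ Ico s.1 t.1, t.2 n * w A n}
  have hb : BddAbove T := ⟨1, by
    rintro _ ⟨t, h1, h2, A, hA, rfl⟩
    have a1 := h2.2 A hA
    have a2 : 0 ≤ ∑ n ∈ range s.1, s.2 n * w A n :=
      sum_nonneg fun n _ => mul_nonneg (hs.1 n) (w0 A n)
    have a3 : 0 ≤ ∑ n ∈ Ico s.1 t.1, t.2 n * w A n :=
      sum_nonneg fun n _ => mul_nonneg (h2.1 n) (w0 A n)
    rw [split h1] at a1
    nlinarith [(th_bd w0 A).1, pow_pos (one_half_pos (α := ℝ)) (k + 1)]⟩
  obtain ⟨A0, hA0⟩ := hK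
  have e0 : Ext s (s.1 + 1, fun n => if n < s.1 then s.2 n else 0) :=
    ⟨Nat.lt_succ_self _, fun n hn => if_pos hn⟩
  have hn : T.Nonempty := ⟨_, _, e0, ⟨fun n => by
    dsimp only; split_ifs; exacts [hs.1 n, le_rfl], fun A hA => by
      rw [split e0]
      have := hs.2 A hA
      have := pow_pos (one_half_pos (α := ℝ)) k
      simp only [Nat.Ico_succ_singleton, sum_singleton, lt_irrefl, if_false, pow_succ]
      linarith⟩, A0, hA0, rfl⟩
  obtain ⟨_, ⟨t, h1, h2, A, hA, rfl⟩, h⟩ := exists_lt_of_lt_csSup hn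
    (sub_lt_self (sSup T) (Nat.one_div_pos_of_nat (n := k)))
  exact ⟨t, h1, h2, A, hA, fun u u1 u2 B hB => by
    linarith [le_csSup hb ⟨u, u1, u2, B, hB, rfl⟩]⟩

include w0 in
theorem fonf (w1 : ∀ A n, w A n ≤ 1) (hone : ∀ n, ∃ A ∈ K, w A n = 1)
    (cpt : ∀ A : ℕ → α, (∀ j, A j ∈ K) → ∃ B ∈ K, ∀ n, ∀ᶠ j in hyperfilter ℕ, w B n = w (A j) n)
    (L0 : ∀ (a : ℕ → ℝ) (M : ℝ), (∀ n, 0 ≤ a n) →
      (∀ A ∈ K, ∀ N, ∑ n ∈ range N, a n * w A n ≤ M) →
      ∀ δ > 0, ∃ p, ∀ q, ∀ A ∈ K, ∑ n ∈ Ico p q, a n * w A n < δ)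
    (hs : ∀ A ∈ K, Summable (w A)) : False := by
  classical
  have hK : K.Nonempty := (hone 0).imp fun _ h => h.1
  have blk : ∀ (p : ℕ) (τ δ : ℝ), 0 < τ → τ ≤ δ → ∃ q > p, (∃ A ∈ K, δ < ∑ n ∈ Ico p q, τ * w A n) ∧
      ∀ A ∈ K, ∑ n ∈ Ico p q, τ * w A n ≤ 2 * δ := fun p τ δ t0 t1 => by
    have ex : ∃ q, ∃ A ∈ K, δ < ∑ n ∈ Ico p q, τ * w A n := by
      by_contra hn
      push Not at hn
      obtain ⟨r, hr⟩ := L0 (fun _ => τ) (p * τ + δ) (fun _ => t0.le) (fun A hA N => by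
        refine (sum_le_sum_of_subset_of_nonneg (range_mono (le_max_left N p)) fun n _ _ =>
          mul_nonneg t0.le (w0 A n)).trans ?_
        rw [← sum_range_add_sum_Ico _ (le_max_right N p)]
        refine add_le_add ((sum_le_card_nsmul _ _ τ fun n _ =>
          mul_le_of_le_one_right t0.le (w1 A n)).trans_eq (by simp)) (hn _ A hA)) τ t0
      obtain ⟨A, hA, e⟩ := hone r
      simpa [e] using hr (r + 1) A hA
    have h1 := Nat.find_spec ex
    have h2 : p < Nat.find ex := by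
      by_contra h
      obtain ⟨A, -, h1⟩ := h1
      rw [Ico_eq_empty_of_le (not_lt.1 h), sum_empty] at h1
      linarith
    obtain ⟨q, hq⟩ : ∃ q, Nat.find ex = q + 1 := Nat.exists_eq_succ_of_ne_zero (by omega)
    refine ⟨_, h2, h1, fun A hA => ?_⟩
    have h3 := Nat.find_min ex (m := q) (by omega)
    push Not at h3
    rw [hq, sum_Ico_succ_top (by omega)]
    linarith [h3 A hA, mul_le_of_le_one_right t0.le (w1 A q)]
  choose! f f1 f2 G f3 f4 using step w0 hK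
  set S : ℕ → ℕ × (ℕ → ℝ) := fun k => Nat.rec (0, 0) f k
  have hS : ∀ k, Inv K w k (S k) := fun k =>
    Nat.rec ⟨fun _ => le_rfl, fun A _ => by simp [S]⟩ (fun k h => f2 k _ h) k
  have e1 : ∀ k, Ext (S k) (S (k + 1)) := fun k => f1 k _ (hS k)
  have pm : StrictMono fun k => (S k).1 := strictMono_nat_of_lt_succ fun k => (e1 k).1
  have st : ∀ k j, k ≤ j → ∀ n < (S k).1, (S j).2 n = (S k).2 n := fun k j h n hn =>
    Nat.le_induction rfl (fun j hj ih => ((e1 j).2 n (hn.trans_le (pm.monotone hj))).trans ih) j h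
  set s : ℕ → ℝ := fun n => (S (n + 1)).2 n
  have s0 : ∀ n, 0 ≤ s n := fun n => (hS (n + 1)).1 n
  have sk : ∀ k, ∀ n < (S k).1, (S k).2 n = s n := fun k n hn =>
    (st k _ (le_max_left k (n + 1)) n hn).symm.trans
      (st (n + 1) _ (le_max_right _ _) n (pm.le_apply (x := n + 1)))
  have b1 : ∀ A ∈ K, ∀ N, th w A * ∑ n ∈ range N, s n * w A n ≤ 1 := fun A hA N => by
    have a1 := (hS N).2 A hA
    rw [sum_congr rfl fun n hn => by rw [sk N n (mem_range.1 hn)]] at a1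
    have a2 := sum_le_sum_of_subset_of_nonneg (range_mono (pm.le_apply (x := N)))
      fun n _ _ => mul_nonneg (s0 n) (w0 A n)
    nlinarith [(th_bd w0 A).1, pow_pos (one_half_pos (α := ℝ)) N]
  have b2 : ∀ A ∈ K, ∀ N, ∑ n ∈ range N, s n * w A n ≤ 1 := fun A hA N => by
    nlinarith [b1 A hA N, (th_bd w0 A).1,
      sum_nonneg fun n (_ : n ∈ range N) => mul_nonneg (s0 n) (w0 A n)]
  have tl := L0 s 1 s0 b2
  set Z : Set ℝ := {v | ∃ A ∈ K, ∃ N, v = ∑ n ∈ range N, s n * w A n}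
  have zb : BddAbove Z := ⟨1, by rintro _ ⟨A, hA, N, rfl⟩; exact b2 A hA N⟩
  have zn : (0 : ℝ) ∈ Z := hK.imp fun A hA => ⟨hA, 0, by simp⟩
  choose v hv hv' using fun j : ℕ => exists_lt_of_lt_csSup ⟨0, zn⟩
    (sub_lt_self (sSup Z) (Nat.one_div_pos_of_nat (n := j)))
  choose A hA N hN using hv
  obtain ⟨B, hB, hBA⟩ := cpt A hA
  have c1 : th w B * sSup Z ≤ 1 := le_of_forall_pos_le_add fun δ d0 => by
    obtain ⟨p, hp⟩ := tl (δ / 4) (by positivity)
    obtain ⟨j, j1, j2⟩ := (((eventually_all_finset (range p)).2 fun n _ => hBA n).and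
      ((tendsto_one_div_add_atTop_nhds_zero_nat.eventually (gt_mem_nhds (show 0 < δ / 4 by
        positivity))).filter_mono (hyperfilter_le_cofinite.trans Nat.cofinite_eq_atTop.le))).exists
    have a1 := b1 B hB p
    rw [sum_congr rfl fun n hn => by rw [j1 n hn]] at a1
    have a2 := sum_le_sum_of_subset_of_nonneg (range_mono (le_max_left (N j) p))
      fun n _ _ => mul_nonneg (s0 n) (w0 (A j) n)
    rw [← sum_range_add_sum_Ico _ (le_max_right (N j) p), ← hN] at a2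
    nlinarith [hp (max (N j) p) _ (hA j), hv' j, th_bd w0 B]
  set m := ∑' n, w B n
  have m0 : 0 ≤ m := tsum_nonneg (w0 B)
  have z0 : 0 ≤ sSup Z := le_csSup zb zn
  set η := 1 - (1 + 1 / (2 + m)) * sSup Z with hη
  have η0 : 0 < η := by
    have a1 : 1 / (2 + m) < 1 / (1 + m) := one_div_lt_one_div_of_lt (by linarith) (by linarith)
    rcases z0.eq_or_lt with h | h
    · rw [hη, ← h]; simp
    · have : th w B = 1 + 1 / (1 + m) := rfl
      nlinarith
  obtain ⟨p, hp⟩ := tl (η / 16) (by positivity)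
  obtain ⟨k, ⟨k1, k2⟩, k3⟩ := (((tendsto_one_div_add_atTop_nhds_zero_nat.eventually
    (gt_mem_nhds (show 0 < η / 16 by positivity))).and ((tendsto_pow_atTop_nhds_zero_of_lt_one
      one_half_pos.le one_half_lt_one).eventually (gt_mem_nhds η0))).and
        (eventually_ge_atTop p)).exists
  have h2 := pow_pos (one_half_pos (α := ℝ)) k
  set τ := min (η / 8) ((1 / 2) ^ k / (4 * (m + 1)))
  have t0 : 0 < τ := lt_min (by positivity) (by positivity)
  have t1 : τ * (m + 1) ≤ (1 / 2) ^ k / 4 := by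
    rw [← le_div_iff₀ (by positivity), div_div]; exact min_le_right _ _
  obtain ⟨q, q1, ⟨C, hC, q2⟩, q3⟩ := blk (S k).1 τ (η / 8) t0 (min_le_left _ _)
  have e2 : Ext (S k) (q, fun n => if n < (S k).1 then (S k).2 n else τ) :=
    ⟨q1, fun n hn => if_pos hn⟩
  have e3 : ∀ A, ∑ n ∈ Ico (S k).1 q, (if n < (S k).1 then (S k).2 n else τ) * w A n =
      ∑ n ∈ Ico (S k).1 q, τ * w A n := fun A =>
    sum_congr rfl fun n hn => by rw [if_neg (not_lt.2 (mem_Ico.1 hn).1)]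
  have e4 := f4 k _ (hS k) _ e2 ⟨fun n => by
    dsimp only; split_ifs; exacts [(hS k).1 n, t0.le], fun A hA => by
      rw [split e2, e3, pow_succ]
      have a0 : 0 ≤ ∑ n ∈ Ico (S k).1 q, τ * w A n :=
        sum_nonneg fun n _ => mul_nonneg t0.le (w0 A n)
      rcases le_total (∑' n, w A n) (m + 1) with h | h
      · have a1 := (hs A hA).sum_le_tsum (Ico (S k).1 q) fun n _ => w0 A n
        rw [← mul_sum] at a0 ⊢
        nlinarith [(hS k).2 A hA, th_bd w0 A, mul_le_mul_of_nonneg_left (a1.trans h) t0.le]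
      · have a1 : th w A ≤ 1 + 1 / (2 + m) :=
          add_le_add_right (one_div_le_one_div_of_le (by linarith) (by linarith)) _
        have a2 : ∑ n ∈ range (S k).1, (S k).2 n * w A n ≤ sSup Z := le_csSup zb ⟨A, hA, _,
          sum_congr rfl fun n hn => by rw [sk k n (mem_range.1 hn)]⟩
        nlinarith [th_bd w0 A, q3 A hA, mul_le_mul_of_nonneg_right a1 z0]⟩ C hC
  rw [e3] at e4
  have e5 := sum_le_sum_of_subset_of_nonneg (Ico_subset_Ico_left (b := (S (k + 1)).1)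
    (k3.trans (pm.le_apply (x := k)))) fun n _ _ => mul_nonneg (s0 n) (w0 (G k _ (hS k)) n)
  have e6 : ∑ n ∈ Ico (S k).1 (f k (S k)).1, (f k (S k)).2 n * w (G k _ (hS k)) n =
      ∑ n ∈ Ico (S k).1 (S (k + 1)).1, s n * w (G k _ (hS k)) n :=
    sum_congr rfl fun n hn => by rw [← sk (k + 1) n (mem_Ico.1 hn).2]
  linarith [hp (S (k + 1)).1 _ (f3 k _ (hS k))]

end

end Pool.Agent.H26.Fonf
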