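import Mathlib

set_option autoImplicit false

open Filter Topology MeasureTheory Set
open scoped ENNReal

namespace Pool.Agent.H26.HD0

noncomputable def rho (α : ℝ) (A B : ℝ × ℝ) : ℝ := max (α⁻¹ * |A.1 - B.1|) |A.2 - B.2|

noncomputable def dev (α : ℝ) (X Y : Set (ℝ × ℝ)) : ℝ≥0∞ :=
  ⨆ A ∈ X, ⨅ B ∈ Y, ENNReal.ofReal (rho α A B)

noncomputable def haus (α : ℝ) (X Y : Set (ℝ × ℝ)) : ℝ≥0∞ := max (dev α X Y) (dev α Y X)

def Adm (f : ℝ → ℝ) : Prop := (∃ M, ∀ x, |f x| ≤ M) ∧ AEMeasurable f volume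

structure AI {ι : Type} (l : Filter ι) (k : ι → ℝ → ℝ) (ε : ι → ℝ) : Prop where
  pos : ∀ᶠ i in l, 0 < ε i
  lim : Tendsto ε l (𝓝 0)
  nn : ∀ᶠ i in l, ∀ s, 0 ≤ k i s
  int : ∀ᶠ i in l, Integrable (k i) ∧ ∫ s, k i s = 1
  low : ∀ K : ℝ, ∃ c > 0, ∀ᶠ i in l, ∀ s, |s| ≤ K * ε i → c ≤ ε i * k i s
  tail : ∀ η > 0, ∃ (a : ι → ℝ) (φ : ℝ → ℝ), Tendsto a l (𝓝 0) ∧ Integrable φ ∧
    ∀ᶠ i in l, ∀ s, η ≤ |s| → k i s ≤ a i * φ s

structure Env (lo hi : (ℝ → ℝ) → ℝ → ℝ) : Prop where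
  ev : ∀ g M, (∀ x, |g x| ≤ M) → ∀ x, ∀ δ > 0, ∀ᶠ t in 𝓝 x, lo g x - δ ≤ g t ∧ g t ≤ hi g x + δ
  fhi : ∀ g M, (∀ x, |g x| ≤ M) → ∀ x, ∀ δ > 0, ∃ᶠ t in 𝓝 x, hi g x - δ ≤ g t
  flo : ∀ g M, (∀ x, |g x| ≤ M) → ∀ x, ∀ δ > 0, ∃ᶠ t in 𝓝 x, g t ≤ lo g x + δ

lemma shift_int {F k : ℝ → ℝ} {B : ℝ} (hF : AEMeasurable F volume) (hB : ∀ x, |F x| ≤ B)
    (hk : Integrable k) (x : ℝ) : Integrable fun s => F (x + s) * k s :=
  hk.bdd_mul (hF.comp_quasiMeasurePreserving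
    (measurePreserving_add_left volume x).quasiMeasurePreserving).aestronglyMeasurable
    (.of_forall fun s => hB (x + s))

lemma ii {F : ℝ → ℝ} {B : ℝ} (hF : AEMeasurable F volume) (hB : ∀ x, |F x| ≤ B) (a b : ℝ) :
    IntervalIntegrable F volume a b :=
  (intervalIntegrable_const (c := B)).mono_fun' hF.aestronglyMeasurable.restrict
    (.of_forall fun x => hB x)

lemma est {F k φ : ℝ → ℝ} {B a c e K η x0 x1 : ℝ} (hF : AEMeasurable F volume)
    (hB : ∀ x, |F x| ≤ B) (hk : Integrable k) (hφ : Integrable φ) (he : 0 < e)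
    (hnn : ∀ s, 0 ≤ k s) (hlow : ∀ s, |s| ≤ (K + 1) * e → c ≤ e * k s)
    (htail : ∀ s, η ≤ |s| → k s ≤ a * φ s) (hη : (K + 1) * e < η)
    (hpos : ∀ t, |t - x0| < 2 * η → 0 ≤ F t) (hx : |x1 - x0| ≤ K * e) :
    c / e * ∫ t in x0..(x0 + e), F t ≤ (∫ s, F (x1 + s) * k s) + B * |a| * ∫ s, |φ s| := by
  have hB0 : 0 ≤ B := (abs_nonneg _).trans (hB 0)
  have e1 : ∫ t in x0..(x0 + e), F t = ∫ s in (x0 - x1)..(x0 - x1 + e), F (x1 + s) := by
    rw [intervalIntegral.integral_comp_add_left]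
    congr 1 <;> ring
  have hI : IntegrableOn (fun s => F (x1 + s)) (Ioc (x0 - x1) (x0 - x1 + e)) :=
    (ii (hF.comp_quasiMeasurePreserving
      (measurePreserving_add_left volume x1).quasiMeasurePreserving) (fun s => hB (x1 + s)) _ _).1
  rw [e1, intervalIntegral.integral_of_le (by linarith), ← integral_indicator measurableSet_Ioc,
    ← integral_const_mul, ← integral_const_mul, ← integral_add (shift_int hF hB hk x1)
      (hφ.abs.const_mul _)]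
  refine integral_mono (((integrable_indicator_iff measurableSet_Ioc).2 hI).const_mul _)
    ((shift_int hF hB hk x1).add (hφ.abs.const_mul _)) fun s => ?_
  have h0 : 0 ≤ B * |a| * |φ s| := by positivity
  rw [abs_le] at hx
  by_cases hs : η ≤ |s|
  · have h1 : s ∉ Ioc (x0 - x1) (x0 - x1 + e) := fun h =>
      absurd (abs_lt.2 ⟨by linarith [h.1], by linarith [h.2]⟩ : |s| < η) (not_lt.2 hs)
    simp only [indicator_of_notMem h1, mul_zero]
    have h2 : k s ≤ |a| * |φ s| := (htail s hs).trans ((le_abs_self _).trans (abs_mul _ _).le)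
    nlinarith [(abs_le.1 (hB (x1 + s))).1, hnn s]
  · have h3 := abs_lt.1 (not_le.1 hs)
    have h1 : 0 ≤ F (x1 + s) := hpos _ (abs_lt.2 ⟨by linarith, by linarith⟩)
    by_cases h : s ∈ Ioc (x0 - x1) (x0 - x1 + e)
    · simp only [indicator_of_mem h]
      have h4 : c / e ≤ k s := by
        rw [div_le_iff₀' he]
        exact hlow s (abs_le.2 ⟨by linarith [h.1], by linarith [h.2]⟩)
      nlinarith
    · simp only [indicator_of_notMem h, mul_zero]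
      have := mul_nonneg h1 (hnn s)
      linarith

lemma core {ι : Type} {l : Filter ι} [l.NeBot] {k : ι → ℝ → ℝ} {ε : ι → ℝ} (H : AI l k ε)
    {f : ℝ → ℝ} (hf : Adm f) (x0 S I K : ℝ)
    (hS : ∀ δ > 0, ∀ᶠ t in 𝓝 x0, I - δ ≤ f t ∧ f t ≤ S + δ)
    (h1 : ∀ᶠ i in l, ∃ x, |x - x0| ≤ K * ε i ∧ S - K * ε i ≤ ∫ s, f (x + s) * k i s)
    (h2 : ∀ᶠ i in l, ∃ x, |x - x0| ≤ K * ε i ∧ ∫ s, f (x + s) * k i s ≤ I + K * ε i) :
    S ≤ I := by
  by_contra hlt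
  have hd : 0 < S - I := sub_pos.2 (not_le.1 hlt)
  obtain ⟨⟨M, hM⟩, hm⟩ := hf
  obtain ⟨c, c0, hc⟩ := H.low (K + 1)
  set δ := c * (S - I) / 4 with hδ
  have δ0 : 0 < δ := by positivity
  obtain ⟨r, r0, hr⟩ := Metric.eventually_nhds_iff.1 (hS δ δ0)
  obtain ⟨a, φ, ha, hφ, ht⟩ := H.tail (r / 2) (half_pos r0)
  set B := M + |S| + |I| + δ with hB
  have t1 : Tendsto (fun i => (K + 1) * ε i) l (𝓝 0) := by simpa using H.lim.const_mul (K + 1)
  have t2 : Tendsto (fun i => K * ε i + B * |a i| * ∫ s, |φ s|) l (𝓝 0) := by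
    simpa using (H.lim.const_mul K).add ((ha.abs.const_mul B).mul_const (∫ s, |φ s|))
  obtain ⟨i, ⟨⟨⟨⟨he, hnn⟩, hk, hk1⟩, hlow⟩, htl⟩, ⟨⟨x1, p1, q1⟩, x2, p2, q2⟩, hη, hsm⟩ :=
    (((((H.pos.and H.nn).and H.int).and hc).and ht).and ((h1.and h2).and
      ((t1.eventually (gt_mem_nhds (half_pos r0))).and (t2.eventually (gt_mem_nhds δ0))))).exists
  have b1 : ∀ x, |S + δ - f x| ≤ B := fun x => by
    have := abs_le.1 (hM x)
    rw [abs_le]
    constructor <;> linarith [le_abs_self S, neg_abs_le S, abs_nonneg I]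
  have b2 : ∀ x, |f x - (I - δ)| ≤ B := fun x => by
    have := abs_le.1 (hM x)
    rw [abs_le]
    constructor <;> linarith [le_abs_self I, neg_abs_le I, abs_nonneg S]
  have m1 : AEMeasurable (fun x => S + δ - f x) volume := hm.const_sub _
  have m2 : AEMeasurable (fun x => f x - (I - δ)) volume := hm.sub_const _
  have E1 := est m1 b1 hk hφ he hnn hlow htl hη (x0 := x0)
    (fun t h => sub_nonneg.2 (hr (by rw [Real.dist_eq]; linarith)).2) p1
  have E2 := est m2 b2 hk hφ he hnn hlow htl hη (x0 := x0)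
    (fun t h => sub_nonneg.2 (hr (by rw [Real.dist_eq]; linarith)).1) p2
  simp only [sub_mul (S + δ)] at E1
  simp only [sub_mul _ (I - δ)] at E2
  rw [integral_sub (hk.const_mul _) (shift_int hm hM hk x1), integral_const_mul, hk1] at E1
  rw [integral_sub (shift_int hm hM hk x2) (hk.const_mul _), integral_const_mul, hk1] at E2
  have E3 : (∫ t in x0..(x0 + ε i), (S + δ - f t)) + ∫ t in x0..(x0 + ε i), (f t - (I - δ)) =
      ε i * (S - I + 2 * δ) := by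
    rw [← intervalIntegral.integral_add (ii m1 b1 _ _) (ii m2 b2 _ _)]
    simp only [sub_add_sub_cancel, intervalIntegral.integral_const, smul_eq_mul]
    ring
  have E4 : c / ε i * (ε i * (S - I + 2 * δ)) = c * (S - I) + 2 * (c * δ) := by field_simp
  have E5 := add_le_add E1 E2
  rw [← mul_add, E3, E4] at E5
  nlinarith [mul_pos c0 δ0]

def gr (lo hi : (ℝ → ℝ) → ℝ → ℝ) (f : ℝ → ℝ) : Set (ℝ × ℝ) :=
  {A | lo f A.1 ≤ A.2 ∧ A.2 ≤ hi f A.1}

lemma near {α e : ℝ} (hα : 0 < α) {X Y : Set (ℝ × ℝ)} {A : ℝ × ℝ} (hA : A ∈ X)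
    (h : haus α X Y < ENNReal.ofReal e) : ∃ B ∈ Y, |A.1 - B.1| < α * e ∧ |A.2 - B.2| < e := by
  have h1 : ⨅ B ∈ Y, ENNReal.ofReal (rho α A B) < ENNReal.ofReal e :=
    ((le_iSup₂ (f := fun A (_ : A ∈ X) => ⨅ B ∈ Y, ENNReal.ofReal (rho α A B)) A hA).trans
      (le_max_left _ _)).trans_lt h
  obtain ⟨B, hB⟩ := iInf_lt_iff.1 h1
  obtain ⟨hY, hB⟩ := iInf_lt_iff.1 hB
  have h2 := max_lt_iff.1 ((ENNReal.ofReal_lt_ofReal_iff').1 hB).1
  exact ⟨B, hY, (inv_mul_lt_iff₀ hα).1 h2.1, h2.2⟩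

theorem main {lo hi : (ℝ → ℝ) → ℝ → ℝ} (E : Env lo hi) {ι : Type} {l : Filter ι} [l.NeBot]
    {k : ι → ℝ → ℝ} {ε : ι → ℝ} (H : AI l k ε) {α β : ℝ} (hα : 0 < α) (hβ : 0 < β)
    {f : ℝ → ℝ} (hf : Adm f) (g : ι → ℝ → ℝ) (u : ι → ℝ)
    (hg : ∀ i x, g i x = ∫ s, f (x + s) * k i s) (hu : ∀ᶠ i in l, u i * ε i = β)
    (h : limsup (fun i => ENNReal.ofReal (u i) * haus α (gr lo hi f) (gr lo hi (g i))) l < ⊤) :
    Continuous f := by
  obtain ⟨C, hC, -⟩ := ENNReal.lt_iff_exists_nnreal_btwn.1 h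
  obtain ⟨M, hM⟩ := hf.1
  have hb : ∀ᶠ i in l, 0 < ε i ∧ (∀ x, |g i x| ≤ M) ∧
      haus α (gr lo hi f) (gr lo hi (g i)) < ENNReal.ofReal (C / β * ε i) := by
    filter_upwards [eventually_lt_of_limsup_lt hC, hu, H.pos, H.nn, H.int] with i a b c d e
    refine ⟨c, fun x => ?_, ?_⟩
    · rw [hg, ← mul_one M, ← e.2, ← integral_const_mul, ← Real.norm_eq_abs]
      exact norm_integral_le_of_norm_le (e.1.const_mul M) (.of_forall fun s => by
        rw [Real.norm_eq_abs, abs_mul, abs_of_nonneg (d s)]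
        exact mul_le_mul_of_nonneg_right (hM _) (d s))
    · have u0 : 0 < u i := (mul_pos_iff_of_pos_right c).1 (b ▸ hβ)
      by_contra hn
      have := (mul_le_mul_right (not_lt.1 hn) (ENNReal.ofReal (u i))).trans_lt a
      rw [← ENNReal.ofReal_mul u0.le, show u i * (C / β * ε i) = C by
        rw [mul_left_comm, b]; field_simp, ENNReal.ofReal_coe_nnreal] at this
      exact lt_irrefl _ this
  refine continuous_iff_continuousAt.2 fun x0 => ?_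
  have hle : hi f x0 ≤ lo f x0 := by
    by_contra hlt
    have hlt' := (not_le.1 hlt).le
    have hK : ∀ e, 0 < e → α * (C / β * e) + e ≤ ((α + 1) * (C / β) + 1) * e ∧
        C / β * e + e ≤ ((α + 1) * (C / β) + 1) * e := fun e he => by
      have : 0 ≤ C / β * e := by positivity
      constructor <;> nlinarith
    refine hlt (core H hf x0 _ _ ((α + 1) * (C / β) + 1) (E.ev f M hM x0) ?_ ?_)
    · filter_upwards [hb] with i ⟨a, b, c⟩
      obtain ⟨B, hB, p, q⟩ := near hα (A := (x0, hi f x0)) (And.intro hlt' le_rfl) c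
      obtain ⟨t, t1, t2⟩ := ((E.fhi _ M b B.1 _ a).and_eventually
        (Metric.ball_mem_nhds B.1 a)).exists
      rw [Real.dist_eq, abs_lt] at t2
      rw [abs_lt] at p q
      refine ⟨t, abs_le.2 ⟨?_, ?_⟩, ?_⟩ <;> linarith [(hK _ a).1, (hK _ a).2, hB.2, hg i t]
    · filter_upwards [hb] with i ⟨a, b, c⟩
      obtain ⟨B, hB, p, q⟩ := near hα (A := (x0, lo f x0)) (And.intro le_rfl hlt') c
      obtain ⟨t, t1, t2⟩ := ((E.flo _ M b B.1 _ a).and_eventually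
        (Metric.ball_mem_nhds B.1 a)).exists
      rw [Real.dist_eq, abs_lt] at t2
      rw [abs_lt] at p q
      refine ⟨t, abs_le.2 ⟨?_, ?_⟩, ?_⟩ <;> linarith [(hK _ a).1, (hK _ a).2, hB.1, hg i t]
  refine Metric.tendsto_nhds.2 fun δ hδ => ?_
  have h3 := E.ev f M hM x0 (δ / 3) (by positivity)
  have h4 := h3.self_of_nhds
  filter_upwards [h3] with t ht
  rw [Real.dist_eq, abs_lt]
  constructor <;> linarith [ht.1, ht.2, h4.1, h4.2]

end Pool.Agent.H26.HD0
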