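import Mathlib
import Pool.Agent.H26.HD0

set_option autoImplicit false

open Filter Topology MeasureTheory Set Real
open scoped ENNReal

namespace Pool.Agent.H26.HD0

lemma ai_ind {ι : Type} {l : Filter ι} {q : ι → ℝ → ℝ} {ε : ι → ℝ} (pos : ∀ᶠ i in l, 0 < ε i)
    (lim : Tendsto ε l (𝓝 0)) (nn : ∀ᶠ i in l, ∀ s, 0 ≤ q i s)
    (int : ∀ᶠ i in l, Continuous (q i) ∧ ∫ s in (-π)..π, q i s = 1)
    (low : ∀ K : ℝ, ∃ c > 0, ∀ᶠ i in l, ∀ s, |s| ≤ K * ε i → c ≤ ε i * q i s)
    (tail : ∀ η > 0, η ≤ π → ∃ a : ι → ℝ, Tendsto a l (𝓝 0) ∧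
      ∀ᶠ i in l, ∀ s, η ≤ |s| → |s| ≤ π → q i s ≤ a i) :
    AI l (fun i => (Ioc (-π) π).indicator (q i)) ε where
  pos := pos
  lim := lim
  nn := nn.mono fun i h s => indicator_nonneg (fun s _ => h s) s
  int := int.mono fun i h => ⟨(integrable_indicator_iff measurableSet_Ioc).2
    (h.1.intervalIntegrable _ _).1, by
      rw [integral_indicator measurableSet_Ioc,
        ← intervalIntegral.integral_of_le (by linarith [pi_pos]), h.2]⟩
  low := fun K => by
    obtain ⟨c, c0, hc⟩ := low K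
    have t1 : Tendsto (fun i => K * ε i) l (𝓝 0) := by simpa using lim.const_mul K
    refine ⟨c, c0, ?_⟩
    filter_upwards [hc, t1.eventually (gt_mem_nhds pi_pos)] with i h1 h2 s hs
    have := abs_lt.1 (hs.trans_lt h2)
    rw [indicator_of_mem (show s ∈ Ioc (-π) π from ⟨this.1, this.2.le⟩)]
    exact h1 s hs
  tail := fun η hη => by
    obtain ⟨a, ha, h⟩ := tail (min η π) (lt_min hη pi_pos) (min_le_right _ _)
    refine ⟨a, (Ioc (-π) π).indicator fun _ => 1, ha, (integrable_indicator_iff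
      measurableSet_Ioc).2 (intervalIntegrable_const (c := (1 : ℝ))).1, h.mono fun i h s hs => ?_⟩
    by_cases hD : s ∈ Ioc (-π) π
    · simpa [hD] using h s ((min_le_left _ _).trans hs) (abs_le.2 ⟨hD.1.le, hD.2⟩)
    · simp [hD]

lemma int_ind (F q : ℝ → ℝ) :
    ∫ s in (-π)..π, F s * q s = ∫ s, F s * (Ioc (-π) π).indicator q s := by
  rw [intervalIntegral.integral_of_le (by linarith [pi_pos]),
    ← integral_indicator measurableSet_Ioc]
  simp only [indicator_mul_right]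

lemma eps_pos : ∀ᶠ n : ℕ in atTop, 0 < (√(n : ℝ))⁻¹ :=
  (eventually_gt_atTop 0).mono fun n h => by positivity

lemma eps_lim : Tendsto (fun n : ℕ => (√(n : ℝ))⁻¹) atTop (𝓝 0) :=
  (tendsto_sqrt_atTop.comp tendsto_natCast_atTop_atTop).inv_tendsto_atTop

lemma sq_le {n : ℕ} (hn : 0 < n) {K s : ℝ} (h : |s| ≤ K * (√(n : ℝ))⁻¹) : n * s ^ 2 ≤ K ^ 2 := by
  have h0 : (0 : ℝ) < n := by exact_mod_cast hn
  have := pow_le_pow_left₀ (abs_nonneg s) h 2
  rw [sq_abs, mul_pow, inv_pow, sq_sqrt h0.le, ← div_eq_mul_inv, le_div_iff₀' h0] at this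
  exact this

noncomputable def kW (n : ℕ) (s : ℝ) : ℝ := √(n / π) * exp (-n * s ^ 2)

lemma aiW : AI atTop kW fun n => (√(n : ℝ))⁻¹ where
  pos := eps_pos
  lim := eps_lim
  nn := .of_forall fun n s => by unfold kW; positivity
  int := (eventually_gt_atTop 0).mono fun n hn => by
    have h0 : (0 : ℝ) < n := by exact_mod_cast hn
    refine ⟨(integrable_exp_neg_mul_sq h0).const_mul _, ?_⟩
    unfold kW
    rw [integral_const_mul, integral_gaussian, ← sqrt_mul (by positivity),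
      show (n : ℝ) / π * (π / n) = 1 by field_simp, sqrt_one]
  low := fun K => ⟨(√π)⁻¹ * exp (-K ^ 2), by positivity, (eventually_gt_atTop 0).mono
    fun n hn s hs => by
      have h0 : 0 < √(n : ℝ) := by positivity
      unfold kW
      rw [sqrt_div' _ pi_pos.le, ← mul_assoc, show (√(n : ℝ))⁻¹ * (√n / √π) = (√π)⁻¹ by field_simp]
      gcongr
      linarith [sq_le hn hs]⟩
  tail := fun η hη => by
    refine ⟨fun n => exp (η ^ 2) * (n * exp (-η ^ 2) ^ n), fun s => exp (-1 * s ^ 2), ?_,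
      integrable_exp_neg_mul_sq one_pos, (eventually_ge_atTop 1).mono fun n hn s hs => ?_⟩
    · simpa using (tendsto_self_mul_const_pow_of_lt_one (exp_pos _).le
        (exp_lt_one_iff.2 (neg_lt_zero.2 (pow_pos hη 2)))).const_mul (exp (η ^ 2))
    · have h1 : (1 : ℝ) ≤ n := by exact_mod_cast hn
      have h2 : √(n / π) ≤ n := by
        rw [sqrt_le_iff]
        refine ⟨by linarith, (div_le_self (by linarith) (by linarith [pi_gt_three])).trans ?_⟩
        nlinarith
      have h3 : η ^ 2 ≤ s ^ 2 := by rw [← sq_abs s]; gcongr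
      unfold kW
      beta_reduce
      rw [← exp_nat_mul, mul_left_comm, ← exp_add, mul_assoc, ← exp_add]
      gcongr
      nlinarith

noncomputable def qP (ρ s : ℝ) : ℝ := 1 / (2 * π) * ((1 - ρ ^ 2) / (1 + ρ ^ 2 - 2 * ρ * cos s))

lemma den_pos {ρ : ℝ} (h0 : 0 ≤ ρ) (h1 : ρ < 1) (s : ℝ) : 0 < 1 + ρ ^ 2 - 2 * ρ * cos s := by
  nlinarith [cos_le_one s, mul_le_mul_of_nonneg_left (cos_le_one s) h0]

lemma contP {ρ : ℝ} (h0 : 0 ≤ ρ) (h1 : ρ < 1) : Continuous (qP ρ) :=
  continuous_const.mul (continuous_const.div (by fun_prop) fun s => (den_pos h0 h1 s).ne')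

lemma intP {ρ : ℝ} (h0 : 0 ≤ ρ) (h1 : ρ < 1) : ∫ s in (-π)..π, qP ρ s = 1 := by
  have h : ∀ s ∈ uIcc (-π) π, HasDerivAt
      (fun s => 1 / (2 * π) * (s + 2 * arctan (ρ * sin s / (1 - ρ * cos s)))) (qP ρ s) s := by
    intro s _
    have d : 1 - ρ * cos s ≠ 0 := by nlinarith [mul_le_mul_of_nonneg_left (cos_le_one s) h0]
    have d2 := (den_pos h0 h1 s).ne'
    have := (((hasDerivAt_id' s).add ((((hasDerivAt_sin s).const_mul ρ).div
      (((hasDerivAt_cos s).const_mul ρ).const_sub 1) d).arctan.const_mul 2)).const_mul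
        (1 / (2 * π)))
    refine (this.congr_deriv ?_ :)
    unfold qP
    congr 1
    have e : 1 + (ρ * sin s / (1 - ρ * cos s)) ^ 2 =
        (1 + ρ ^ 2 - 2 * ρ * cos s) / (1 - ρ * cos s) ^ 2 := by
      field_simp
      rw [sin_sq]
      ring
    simp only [Pi.div_apply, e]
    field_simp
    rw [sin_sq]
    ring
  rw [intervalIntegral.integral_eq_sub_of_hasDerivAt h ((contP h0 h1).intervalIntegrable _ _)]
  simp
  field_simp
  norm_num

lemma evP : ∀ᶠ ρ : ℝ in 𝓝[<] 1, 1 / 2 < ρ ∧ ρ < 1 :=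
  Ioo_mem_nhdsLT (by norm_num)

lemma limP : Tendsto (fun ρ : ℝ => 1 - ρ) (𝓝[<] 1) (𝓝 0) := by
  have : Tendsto (fun ρ : ℝ => 1 - ρ) (𝓝 1) (𝓝 (1 - 1)) := tendsto_id.const_sub 1
  simpa using this.mono_left nhdsWithin_le_nhds

lemma aiP : AI (𝓝[<] 1) (fun ρ => (Ioc (-π) π).indicator (qP ρ)) fun ρ => 1 - ρ := by
  refine ai_ind (evP.mono fun ρ h => sub_pos.2 h.2) limP (evP.mono fun ρ h s => ?_)
    (evP.mono fun ρ h => ⟨contP (by linarith [h.1]) h.2, intP (by linarith [h.1]) h.2⟩)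
    (fun K => ⟨1 / (2 * π) * (1 / (1 + K ^ 2)), by positivity, evP.mono fun ρ h s hs => ?_⟩)
    fun η h0 h1 => ⟨fun ρ => 1 / (2 * π) * (2 * (1 - ρ) / (1 - cos η)), ?_,
      evP.mono fun ρ h s hs hs' => ?_⟩
  · exact mul_nonneg (by positivity) (div_nonneg (by nlinarith [h.1, h.2])
      (den_pos (by linarith [h.1]) h.2 s).le)
  · unfold qP
    rw [mul_left_comm (1 - ρ), ← mul_div_assoc (1 - ρ)]
    refine mul_le_mul_of_nonneg_left ?_ (by positivity)
    rw [div_le_div_iff₀ (by positivity : (0 : ℝ) < 1 + K ^ 2) (den_pos (by linarith [h.1]) h.2 s)]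
    have a1 := pow_le_pow_left₀ (abs_nonneg s) hs 2
    rw [sq_abs] at a1
    have a2 := one_sub_sq_div_two_le_cos (x := s)
    have a3 : ρ * (1 - cos s) ≤ 1 - cos s := mul_le_of_le_one_left (by linarith [cos_le_one s]) h.2.le
    have a4 : 0 ≤ (1 - ρ) ^ 2 * ρ * (1 + K ^ 2) := by have := h.1; positivity
    nlinarith
  · simpa using ((limP.const_mul 2).div_const (1 - cos η)).const_mul (1 / (2 * π))
  · have a1 : cos s ≤ cos η := by
      rw [← cos_abs s]; exact cos_le_cos_of_nonneg_of_le_pi h0.le hs' hs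
    have a2 : cos η < 1 := by simpa using cos_lt_cos_of_nonneg_of_le_pi le_rfl h1 h0
    refine mul_le_mul_of_nonneg_left (div_le_div₀ (by linarith [h.2]) (by nlinarith [h.1, h.2])
      (by linarith) ?_) (by positivity)
    nlinarith [h.1, sq_nonneg (1 - ρ)]

noncomputable def qV (n : ℕ) (s : ℝ) : ℝ :=
  (n.factorial : ℝ) ^ 2 / (2 * n).factorial * (1 / (2 * π)) * (2 * cos (s / 2)) ^ (2 * n)

noncomputable def b (n : ℕ) : ℝ := (n.factorial : ℝ) ^ 2 / (2 * n).factorial * 4 ^ n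

lemma b_succ (n : ℕ) : b (n + 1) = b n * ((2 * n + 2) / (2 * n + 1)) := by
  unfold b
  rw [show 2 * (n + 1) = 2 * n + 1 + 1 by ring, Nat.factorial_succ, Nat.factorial_succ,
    Nat.factorial_succ]
  push_cast
  field_simp
  ring

lemma b_pos (n : ℕ) : 0 < b n := by unfold b; positivity

lemma b_le (n : ℕ) : b n ≤ 2 * n + 1 := by
  induction n with
  | zero => simp [b]
  | succ n ih =>
    rw [b_succ, ← mul_div_assoc, div_le_iff₀ (by positivity)]
    push_cast
    nlinarith [n.cast_nonneg (α := ℝ)]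

lemma b_ge (n : ℕ) : 2 * n + 1 ≤ b n ^ 2 := by
  induction n with
  | zero => simp [b]
  | succ n ih =>
    rw [b_succ, mul_pow, div_pow, ← mul_div_assoc, le_div_iff₀ (by positivity)]
    push_cast
    nlinarith [n.cast_nonneg (α := ℝ), mul_le_mul_of_nonneg_right ih (sq_nonneg (2 * (n : ℝ) + 2))]

lemma qV_eq (n : ℕ) (s : ℝ) : qV n s = 1 / (2 * π) * (b n * (cos (s / 2) ^ 2) ^ n) := by
  unfold qV b
  rw [mul_pow, pow_mul, pow_mul]
  norm_num
  ring

lemma b_int (n : ℕ) : b n * ∫ u in (-π / 2)..(π / 2), cos u ^ (2 * n) = π := by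
  induction n with
  | zero => simp [b]; ring
  | succ n ih =>
    rw [show 2 * (n + 1) = 2 * n + 2 by ring, integral_cos_pow, b_succ]
    refine Eq.trans ?_ ih
    simp [neg_div]
    field_simp

lemma intV (n : ℕ) : ∫ s in (-π)..π, qV n s = 1 := by
  simp only [qV_eq, ← pow_mul]
  rw [intervalIntegral.integral_const_mul, intervalIntegral.integral_const_mul,
    intervalIntegral.integral_comp_div (fun u => cos u ^ (2 * n)) two_ne_zero, smul_eq_mul,
    mul_left_comm (b n), b_int]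
  field_simp

lemma aiV : AI atTop (fun n => (Ioc (-π) π).indicator (qV n)) fun n => (√(n : ℝ))⁻¹ := by
  refine ai_ind eps_pos eps_lim (.of_forall fun n s => by rw [qV_eq]; have := b_pos n; positivity)
    (.of_forall fun n => ⟨by unfold qV; fun_prop, intV n⟩)
    (fun K => ⟨1 / (2 * π) * (exp (-K ^ 2) / 2), by positivity, ?_⟩)
    fun η h0 h1 => ⟨fun n => 1 / (2 * π) * (2 * (n * (cos (η / 2) ^ 2) ^ n) +
      (cos (η / 2) ^ 2) ^ n), ?_, .of_forall fun n s hs hs' => ?_⟩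
  · filter_upwards [(tendsto_one_add_div_pow_exp (-K ^ 2)).eventually
      (lt_mem_nhds (half_lt_self (exp_pos _))), eventually_gt_atTop 0,
      tendsto_natCast_atTop_atTop.eventually_ge_atTop (K ^ 2)] with n h1 h2 h3 s hs
    have h0 : (0 : ℝ) < n := by exact_mod_cast h2
    have a1 := sq_le h2 hs
    have a2 : 1 + -K ^ 2 / n ≤ cos (s / 2) ^ 2 := by
      have : s ^ 2 ≤ K ^ 2 / n := by rw [le_div_iff₀' h0]; exact a1
      rw [cos_sq', neg_div]
      nlinarith [sin_sq_le_sq (x := s / 2)]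
    have a3 : 0 ≤ 1 + -K ^ 2 / n := by
      rw [neg_div, ← sub_eq_add_neg, sub_nonneg, div_le_one h0]; exact h3
    have a4 : 1 ≤ (√(n : ℝ))⁻¹ * b n := by
      rw [le_inv_mul_iff₀ (by positivity), mul_one, sqrt_le_iff]
      exact ⟨(b_pos n).le, by linarith [b_ge n]⟩
    rw [qV_eq, mul_left_comm, ← mul_assoc _ (b n)]
    refine mul_le_mul_of_nonneg_left ((h1.le.trans (pow_le_pow_left₀ a3 a2 n)).trans
      (le_mul_of_one_le_left (by positivity) a4)) (by positivity)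
  · have a1 : cos (η / 2) < 1 := by
      simpa using cos_lt_cos_of_nonneg_of_le_pi le_rfl (by linarith) (half_pos h0)
    have a2 : 0 ≤ cos (η / 2) := cos_nonneg_of_mem_Icc ⟨by linarith [pi_pos], by linarith⟩
    have a3 : cos (η / 2) ^ 2 < 1 := by nlinarith
    simpa using (((tendsto_self_mul_const_pow_of_lt_one (sq_nonneg _) a3).const_mul 2).add
      (tendsto_pow_atTop_nhds_zero_of_lt_one (sq_nonneg _) a3)).const_mul (1 / (2 * π))
  · have a1 : cos (s / 2) ≤ cos (η / 2) := by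
      rw [← cos_abs (s / 2), abs_div, abs_two]
      exact cos_le_cos_of_nonneg_of_le_pi (by linarith) (by linarith [pi_pos]) (by linarith)
    have a2 : 0 ≤ cos (s / 2) :=
      cos_nonneg_of_mem_Icc ⟨by linarith [(abs_le.1 hs').1], by linarith [(abs_le.1 hs').2]⟩
    rw [qV_eq]
    refine mul_le_mul_of_nonneg_left ?_ (by positivity)
    calc b n * (cos (s / 2) ^ 2) ^ n ≤ (2 * n + 1) * (cos (η / 2) ^ 2) ^ n := by
          gcongr; exact b_le n
      _ = _ := by ring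

lemma four {g : ℝ → ℝ} {M : ℝ} (h : ∀ x, |g x| ≤ M) (F : Filter ℝ) [F.NeBot] {δ : ℝ} (hδ : 0 < δ) :
    (∀ᶠ t in F, liminf g F - δ ≤ g t ∧ g t ≤ limsup g F + δ) ∧
      (∃ᶠ t in F, limsup g F - δ ≤ g t) ∧ ∃ᶠ t in F, g t ≤ liminf g F + δ := by
  have h1 : IsBoundedUnder (· ≤ ·) F g := isBoundedUnder_of ⟨M, fun x => (abs_le.1 (h x)).2⟩
  have h2 : IsBoundedUnder (· ≥ ·) F g := isBoundedUnder_of ⟨-M, fun x => (abs_le.1 (h x)).1⟩
  exact ⟨((eventually_lt_of_lt_liminf (sub_lt_self _ hδ) h2).and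
    (eventually_lt_of_limsup_lt (lt_add_of_pos_right _ hδ) h1)).mono fun t h => ⟨h.1.le, h.2.le⟩,
    (frequently_lt_of_lt_limsup h2.isCoboundedUnder_le (sub_lt_self _ hδ)).mono fun t h => h.le,
    (frequently_lt_of_liminf_lt h1.isCoboundedUnder_ge (lt_add_of_pos_right _ hδ)).mono
      fun t h => h.le⟩

lemma env1 : Env (fun g x => liminf g (𝓝 x)) fun g x => limsup g (𝓝 x) where
  ev := fun _ _ h _ _ hδ => (four h _ hδ).1
  fhi := fun _ _ h _ _ hδ => (four h _ hδ).2.1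
  flo := fun _ _ h _ _ hδ => (four h _ hδ).2.2

lemma env2 : Env (fun g x => min (g x) (liminf g (𝓝[≠] x)))
    fun g x => max (g x) (limsup g (𝓝[≠] x)) where
  ev := fun g _ h x δ hδ => by
    rw [← nhdsNE_sup_pure, eventually_sup, eventually_pure]
    exact ⟨(four h (𝓝[≠] x) hδ).1.mono fun t ht =>
      ⟨by linarith [ht.1, min_le_right (g x) (liminf g (𝓝[≠] x))],
        by linarith [ht.2, le_max_right (g x) (limsup g (𝓝[≠] x))]⟩,
      by linarith [min_le_left (g x) (liminf g (𝓝[≠] x))],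
      by linarith [le_max_left (g x) (limsup g (𝓝[≠] x))]⟩
  fhi := fun g _ h x δ hδ => by
    rcases le_total (g x) (limsup g (𝓝[≠] x)) with e | e
    · rw [max_eq_right e]
      exact (four h (𝓝[≠] x) hδ).2.1.filter_mono nhdsWithin_le_nhds
    · rw [max_eq_left e]
      exact (frequently_pure.2 (by linarith)).filter_mono (pure_le_nhds x)
  flo := fun g _ h x δ hδ => by
    rcases le_total (g x) (liminf g (𝓝[≠] x)) with e | e
    · rw [min_eq_left e]
      exact (frequently_pure.2 (by linarith)).filter_mono (pure_le_nhds x)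
    · rw [min_eq_right e]
      exact (four h (𝓝[≠] x) hδ).2.2.filter_mono nhdsWithin_le_nhds

lemma uN (β : ℝ) : ∀ᶠ n : ℕ in atTop, β * √(n : ℝ) * (√(n : ℝ))⁻¹ = β :=
  (eventually_gt_atTop 0).mono fun n h => by
    have : 0 < √(n : ℝ) := by positivity
    field_simp

lemma uP (β : ℝ) : ∀ᶠ ρ : ℝ in 𝓝[<] 1, β / (1 - ρ) * (1 - ρ) = β :=
  evP.mono fun _ h => div_mul_cancel₀ _ (sub_pos.2 h.2).ne'

end Pool.Agent.H26.HD0
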