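import Mathlib

set_option autoImplicit false

namespace Pool.Agent.H26

open Complex Metric Set Filter Topology

lemma exists_log_ball (h : ℂ → ℂ) (c : ℂ) (R : ℝ) (hR : 0 < R)
    (hh : DifferentiableOn ℂ h (ball c R)) (hne : ∀ z ∈ ball c R, h z ≠ 0) :
    ∃ g : ℂ → ℂ, DifferentiableOn ℂ g (ball c R) ∧ g c = 0 ∧
      ∀ z ∈ ball c R, h z = h c * exp (g z) := by
  have hd : DifferentiableOn ℂ (fun z => deriv h z / h z) (ball c R) :=
    (hh.deriv isOpen_ball).div hh hne
  obtain ⟨g, hg0, hg⟩ := hd.isExactOn_ball.with_val_at c 0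
  refine ⟨g, fun z hz => (hg z hz).differentiableAt.differentiableWithinAt, hg0, ?_⟩
  have key : ∀ z ∈ ball c R, HasDerivAt (fun w => h w * exp (-g w)) 0 z := by
    intro z hz
    have h1 := (hh.differentiableAt (isOpen_ball.mem_nhds hz)).hasDerivAt
    have h2 := h1.mul (hg z hz).neg.cexp
    refine h2.congr_deriv ?_
    have := hne z hz
    simp only [Pi.neg_apply]
    field_simp
    ring
  intro z hz
  have h3 := isOpen_ball.is_const_of_deriv_eq_zero (convex_ball c R).isPreconnected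
    (fun w hw => (key w hw).differentiableAt.differentiableWithinAt)
    (fun w hw => (key w hw).deriv) hz (mem_ball_self hR)
  rw [hg0, neg_zero, exp_zero, mul_one] at h3
  rw [← h3, mul_assoc, ← exp_add]
  simp

lemma harnack (h : ℂ → ℂ) (c : ℂ) (R δ M : ℝ) (hR : 0 < R) (hδ : 0 < δ)
    (hh : DifferentiableOn ℂ h (ball c R)) (hlow : ∀ z ∈ ball c R, δ ≤ ‖h z‖) (hM : ‖h c‖ ≤ M)
    (z : ℂ) (hz : ‖z - c‖ ≤ R / 2) : ‖h z‖ ≤ M * Real.exp (2 * (M / δ)) := by
  obtain ⟨g, hg, hg0, he⟩ := exists_log_ball h c R hR hh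
    (fun w hw => norm_pos_iff.1 (lt_of_lt_of_le hδ (hlow w hw)))
  have hM0 : 0 < M := lt_of_lt_of_le hδ ((hlow c (mem_ball_self hR)).trans hM)
  have hmem : ∀ w ∈ ball (0 : ℂ) R, c + w ∈ ball c R := by
    intro w hw
    simpa using hw
  have hz' : z - c ∈ ball (0 : ℂ) R := by
    rw [mem_ball_zero_iff]; linarith
  have hb := borelCaratheodory_zero (f := fun w => -g (c + w)) (M := M / δ) (R := R) (z := z - c)
    (by positivity) (((hg.comp (by fun_prop) hmem)).neg) ?_ hR hz' (by simp [hg0])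
  · have hzc : c + (z - c) = z := by ring
    have hzb := hmem _ hz'
    rw [hzc] at hb hzb
    rw [norm_neg] at hb
    have h2 : 2 * (M / δ) * ‖z - c‖ / (R - ‖z - c‖) ≤ 2 * (M / δ) := by
      rw [div_le_iff₀ (by linarith)]
      have : 0 < M / δ := by positivity
      nlinarith
    rw [he z hzb, norm_mul, norm_exp]
    gcongr
    exact (re_le_norm _).trans (hb.trans h2)
  · intro w hw
    have h1 := hlow _ (hmem w hw)
    rw [he _ (hmem w hw), norm_mul, norm_exp] at h1
    simp only [mem_ofPred_eq, neg_re]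
    have h2 := Real.add_one_le_exp (-(g (c + w)).re)
    have h3 : Real.exp (-(g (c + w)).re) ≤ M / δ := by
      rw [le_div_iff₀ hδ, Real.exp_neg, inv_mul_le_iff₀ (Real.exp_pos _)]
      have := Real.exp_pos (g (c + w)).re
      nlinarith
    linarith

lemma not_poly (f : ℂ → ℂ) (hne : ∀ z, f z ≠ 0) (a b : ℂ) (hab : f a ≠ f b) :
    ¬ ∃ p : Polynomial ℂ, ∀ z, f z = p.eval z := by
  rintro ⟨p, hp⟩
  by_cases hd : 0 < p.degree
  · obtain ⟨z, hz⟩ := Complex.exists_root hd
    exact hne z (by rw [hp]; exact hz)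
  · rw [Polynomial.eq_C_of_degree_le_zero (not_lt.1 hd)] at hp
    apply hab
    rw [hp, hp]
    simp

end Pool.Agent.H26
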