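import Mathlib

open Filter Topology
open scoped BoundedContinuousFunction

namespace Pool.Agent.H26.SeqSp

def D (W : Type) : Type := W

instance (W : Type) : TopologicalSpace (D W) := ⊥
instance (W : Type) : DiscreteTopology (D W) := ⟨rfl⟩

theorem exists_space0 (𝕜 : Type) [RCLike 𝕜] {ι W V : Type} [NormedAddCommGroup V]
    [NormedSpace 𝕜 V] [CompleteSpace V] (u : ι → W → V) (hb : ∀ n, ∃ C, ∀ w, ‖u n w‖ ≤ C) :
    ∃ (X : Type) (_ : NormedAddCommGroup X) (_ : NormedSpace 𝕜 X) (_ : CompleteSpace X)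
      (e : ι → X) (ev : W → X →L[𝕜] V), Dense (Submodule.span 𝕜 (Set.range e) : Set X) ∧
      (∀ w n, ev w (e n) = u n w) ∧ (∀ w x, ‖ev w x‖ ≤ ‖x‖) ∧
      ∀ x C, 0 ≤ C → (∀ w, ‖ev w x‖ ≤ C) → ‖x‖ ≤ C := by
  choose C hC using hb
  let e0 : ι → (D W →ᵇ V) := fun n =>
    BoundedContinuousFunction.ofNormedAddCommGroupDiscrete (α := D W) (u n) (C n) (hC n)
  let S : Submodule 𝕜 (D W →ᵇ V) := (Submodule.span 𝕜 (Set.range e0)).topologicalClosure
  let e : ι → S := fun n =>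
    ⟨e0 n, Submodule.le_topologicalClosure _ (Submodule.subset_span ⟨n, rfl⟩)⟩
  refine ⟨S, inferInstance, inferInstance,
    (Submodule.isClosed_topologicalClosure _).completeSpace_coe, e,
    fun w => (BoundedContinuousFunction.evalCLM 𝕜 (show D W from w)).comp S.subtypeL, ?_,
    fun w n => rfl, fun w x => x.1.norm_coe_le_norm w,
    fun x C h0 h => (BoundedContinuousFunction.norm_le (f := x.1) h0).2 h⟩
  refine (Subtype.dense_iff (s := (S : Set (D W →ᵇ V)))).2 (closure_mono fun x hx => ?_)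
  have : Submodule.span 𝕜 (Set.range e0) ≤ (Submodule.span 𝕜 (Set.range e)).map S.subtype := by
    refine Submodule.span_le.2 ?_
    rintro _ ⟨i, rfl⟩
    exact ⟨e i, Submodule.subset_span ⟨i, rfl⟩, rfl⟩
  exact this hx

theorem exists_space (𝕜 : Type) [RCLike 𝕜] {ι W V : Type} [DecidableEq ι] [NormedAddCommGroup V]
    [NormedSpace 𝕜 V] [CompleteSpace V] (L : W → (ι → 𝕜) →L[𝕜] V)
    (hb : ∀ n, ∃ C, ∀ w, ‖L w (Pi.single n 1)‖ ≤ C)
    (hc : ∀ n, ∃ (w : W) (g : V →L[𝕜] 𝕜), ∀ c, g (L w c) = c n) :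
    ∃ (X : Type) (_ : NormedAddCommGroup X) (_ : NormedSpace 𝕜 X) (_ : CompleteSpace X)
      (e : ι → X) (co : ι → StrongDual 𝕜 X), (∀ k n, co k (e n) = if k = n then 1 else 0) ∧
      Dense (Submodule.span 𝕜 (Set.range e) : Set X) ∧ (∀ x, (∀ n, co n x = 0) → x = 0) ∧
      (∀ w x, ‖L w (fun n => co n x)‖ ≤ ‖x‖) ∧
      ∀ x C, 0 ≤ C → (∀ w, ‖L w (fun n => co n x)‖ ≤ C) → ‖x‖ ≤ C := by
  obtain ⟨X, _, _, _, e, ev, h1, h2, h3, h4⟩ :=
    exists_space0 𝕜 (fun n w => L w (Pi.single n 1)) hb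
  choose w g hg using hc
  have h5 : ∀ k n, (g k).comp (ev (w k)) (e n) = if k = n then 1 else 0 := by
    intro k n
    rw [ContinuousLinearMap.comp_apply, h2, hg, Pi.single_apply]
  have h6 : ∀ v x, L v (fun n => (g n).comp (ev (w n)) x) = ev v x := by
    intro v x
    have : (L v).comp (ContinuousLinearMap.pi fun n => (g n).comp (ev (w n))) = ev v := by
      refine ContinuousLinearMap.ext_on h1 ?_
      rintro _ ⟨n, rfl⟩
      rw [h2, ContinuousLinearMap.comp_apply]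
      congr 1
      ext k
      rw [ContinuousLinearMap.pi_apply, h5, Pi.single_apply]
    exact congrArg (fun T : X →L[𝕜] V => T x) this
  refine ⟨X, inferInstance, inferInstance, inferInstance, e, fun n => (g n).comp (ev (w n)), h5, h1,
    fun x hx => ?_, fun v x => ?_, fun x C h0 h => h4 x C h0 fun v => ?_⟩
  · refine norm_le_zero_iff.1 (h4 x 0 le_rfl fun v => ?_)
    rw [← h6, show (fun n => (g n).comp (ev (w n)) x) = 0 from funext hx]
    simp
  · rw [h6]; exact h3 v x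
  · rw [← h6]; exact h v

end Pool.Agent.H26.SeqSp
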