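import Mathlib
import Pool.Agent.H26.SeqSp

set_option autoImplicit false

open Filter Topology

namespace Pool.Agent.H26.PTP

theorem exists_ptp (G H : Type) [NormedAddCommGroup G] [NormedSpace ℂ G] [NormedAddCommGroup H]
    [NormedSpace ℂ H] : ∃ (X : Type) (_ : NormedAddCommGroup X) (_ : NormedSpace ℂ X)
      (_ : CompleteSpace X) (t : G →L[ℂ] H →L[ℂ] X),
      Dense (Submodule.span ℂ (Set.range fun p : G × H => t p.1 p.2) : Set X) ∧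
      (∀ (Y : Type) [NormedAddCommGroup Y] [NormedSpace ℂ Y] [CompleteSpace Y]
        (β : G →L[ℂ] H →L[ℂ] Y), ∃ Λ : X →L[ℂ] Y, ∀ g h, Λ (t g h) = β g h) ∧
      ∀ (Λ : X →L[ℂ] ℂ) (M : ℝ), 0 ≤ M → (∀ g h, ‖Λ (t g h)‖ ≤ M * ‖g‖ * ‖h‖) →
        ∀ u, ‖Λ u‖ ≤ M * ‖u‖ := by
  obtain ⟨S, _, _, _, e0, ev, hd, h1, h2, h3⟩ := SeqSp.exists_space0 ℂ (V := ℂ)
    (fun (p : G × H) (w : {β : G →L[ℂ] H →L[ℂ] ℂ // ‖β‖ ≤ 1}) => w.1 p.1 p.2)
    fun p => ⟨1 * ‖p.1‖ * ‖p.2‖, fun w => w.1.le_of_opNorm₂_le_of_le w.2 le_rfl le_rfl⟩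
  have hs : ∀ x y : S, (∀ w, ev w x = ev w y) → x = y := fun x y h =>
    sub_eq_zero.1 (norm_le_zero_iff.1 (h3 _ 0 le_rfl fun w => by simp [h]))
  let t : G →L[ℂ] H →L[ℂ] S := LinearMap.mkContinuous₂ (LinearMap.mk₂ ℂ (fun g h => e0 (g, h))
    (fun _ _ _ => hs _ _ (by simp [h1])) (fun _ _ _ => hs _ _ (by simp [h1]))
    (fun _ _ _ => hs _ _ (by simp [h1])) (fun _ _ _ => hs _ _ (by simp [h1]))) 1 fun g h =>
      h3 _ _ (by positivity) fun w => by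
        rw [LinearMap.mk₂_apply, h1]; exact w.1.le_of_opNorm₂_le_of_le w.2 le_rfl le_rfl
  have hl : ∀ (β : G →L[ℂ] H →L[ℂ] ℂ) (M : ℝ), 0 ≤ M → (∀ g h, ‖β g h‖ ≤ M * ‖g‖ * ‖h‖) →
      ∃ Λ : S →L[ℂ] ℂ, (∀ g h, Λ (t g h) = β g h) ∧ ∀ x, ‖Λ x‖ ≤ M * ‖x‖ := fun β M hM h => by
    rcases hM.eq_or_lt with rfl | hM
    · exact ⟨0, fun g k => (norm_le_zero_iff.1 (by simpa using h g k)).symm, by simp⟩
    refine ⟨(M : ℂ) • ev ⟨(M : ℂ)⁻¹ • β, ContinuousLinearMap.opNorm_le_bound₂ _ zero_le_one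
      fun g k => ?_⟩, fun g k => ?_, fun x => ?_⟩
    · simp only [ContinuousLinearMap.smul_apply, norm_smul, norm_inv, Complex.norm_real,
        Real.norm_of_nonneg hM.le]
      rw [inv_mul_le_iff₀ hM]
      linarith [h g k]
    · change (M : ℂ) • ev _ (e0 (g, k)) = _
      simp [h1, hM.ne']
    · simp only [ContinuousLinearMap.smul_apply, norm_smul, Complex.norm_real,
        Real.norm_of_nonneg hM.le]
      gcongr
      exact h2 _ _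
  refine ⟨S, inferInstance, inferInstance, inferInstance, t, hd, fun Y _ _ _ β => ?_,
    fun Λ M hM h u => ?_⟩
  · let e := TensorProduct.lift t.toLinearMap₁₂
    let f := TensorProduct.lift β.toLinearMap₁₂
    have h1 : DenseRange e := hd.mono (show _ ≤ LinearMap.range e from Submodule.span_le.2 (by
      rintro _ ⟨i, rfl⟩; exact ⟨i.1 ⊗ₜ i.2, rfl⟩))
    refine ⟨f.extendOfNorm e, fun g h => LinearMap.extendOfNorm_eq h1 ⟨‖β‖, fun x => ?_⟩ (g ⊗ₜ h)⟩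
    obtain ⟨φ, h2, h3⟩ := exists_dual_vector'' ℂ (f x)
    obtain ⟨Λ, h5, h6⟩ := hl ((ContinuousLinearMap.compL ℂ H Y ℂ φ).comp β) ‖β‖ β.opNorm_nonneg
      fun g h => (φ.le_of_opNorm_le h2 _).trans (by rw [one_mul]; exact β.le_opNorm₂ g h)
    have h4 : ∀ x, φ (f x) = Λ (e x) := fun x => by
      induction x using TensorProduct.induction_on with
      | zero => simp
      | tmul c d => exact (h5 c d).symm
      | add y z h1 h2 => simp [h1, h2]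
    calc ‖f x‖ = ‖φ (f x)‖ := by simp [h3]
      _ ≤ _ := by rw [h4]; exact h6 _
  · obtain ⟨Λ', h5, h6⟩ := hl ((ContinuousLinearMap.compL ℂ H S ℂ Λ).comp t) M hM h
    have h1 : Λ = Λ' := by
      refine ContinuousLinearMap.ext_on hd ?_
      rintro _ ⟨i, rfl⟩
      exact (h5 i.1 i.2).symm
    rw [h1]
    exact h6 u

lemma sum_bound {G H X Y : Type} [NormedAddCommGroup G] [NormedAddCommGroup H]
    [NormedAddCommGroup X] [NormedSpace ℂ X] [NormedAddCommGroup Y] [NormedSpace ℂ Y]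
    (t : G → H → X) (hb : ∀ (Λ : X →L[ℂ] ℂ) (M : ℝ), 0 ≤ M →
      (∀ g h, ‖Λ (t g h)‖ ≤ M * ‖g‖ * ‖h‖) → ∀ u, ‖Λ u‖ ≤ M * ‖u‖)
    (s : Finset ℕ) (Λ : ℕ → X →L[ℂ] Y) (M : ℝ) (hM : 0 ≤ M)
    (h : ∀ g h, ∑ j ∈ s, ‖Λ j (t g h)‖ ≤ M * ‖g‖ * ‖h‖) (u : X) :
    ∑ j ∈ s, ‖Λ j u‖ ≤ M * ‖u‖ := by
  choose φ h2 h3 using fun j => exists_dual_vector'' ℂ (Λ j u)
  have := hb (∑ j ∈ s, (φ j).comp (Λ j)) M hM (fun g k => le_trans ?_ (h g k)) u
  · simp only [ContinuousLinearMap.sum_apply, ContinuousLinearMap.comp_apply, h3] at this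
    refine le_trans ?_ this
    rw [← RCLike.ofReal_sum, RCLike.norm_ofReal]
    exact le_abs_self _
  · rw [ContinuousLinearMap.sum_apply]
    exact norm_sum_le_of_le _ fun j _ => ((φ j).le_of_opNorm_le (h2 j) _).trans_eq (one_mul _)

lemma sqrt_contra (a M : ℝ) (ha : 0 < a) (h : ∀ N : ℕ, N * a ≤ M * √N) : False := by
  obtain ⟨n, hn⟩ := exists_nat_gt (|M| / a)
  have h1 := h ((n + 1) ^ 2)
  rw [Nat.cast_pow, Real.sqrt_sq (by positivity)] at h1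
  rw [div_lt_iff₀ ha] at hn
  push_cast at h1
  have : (0 : ℝ) < n + 1 := by positivity
  nlinarith [le_abs_self M, mul_pos this ha]

lemma chain_lim {G : Type} [NormedAddCommGroup G] [CompleteSpace G] (a : ℕ → G) (M : ℝ)
    (h : ∀ p q : ℕ → ℕ, (∀ j, p j ≤ q j ∧ q j < p (j + 1)) → ∀ N : ℕ,
      ∑ j ∈ Finset.range N, ‖a (q j) - a (p j)‖ ≤ M * √N) : ∃ v, Tendsto a atTop (𝓝 v) := by
  refine cauchySeq_tendsto_of_complete (Metric.cauchySeq_iff'.2 fun ε hε => ?_)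
  by_contra hn
  push Not at hn
  choose n h1 h2 using hn
  let p : ℕ → ℕ := fun j => Nat.rec 0 (fun _ r => n r + 1) j
  refine sqrt_contra ε M hε fun N => le_trans ?_
    (h p (fun j => n (p j)) (fun j => ⟨h1 _, Nat.lt_succ_self _⟩) N)
  simpa using Finset.card_nsmul_le_sum (Finset.range N) _ ε fun j _ =>
    (h2 (p j)).trans_eq (dist_eq_norm _ _)

end Pool.Agent.H26.PTP
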