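import Mathlib
import Pool.Agent.H26.PTP

set_option autoImplicit false

open Filter Topology Finset ContinuousLinearMap

namespace Pool.Agent.H26.Her1

open PTP

def Ch (p q : ℕ → ℕ) : Prop := ∀ j, p j ≤ q j ∧ q j ≤ p (j + 1)

variable {F : Type} [NormedAddCommGroup F] [NormedSpace ℂ F]

abbrev K (F : Type) [NormedAddCommGroup F] [NormedSpace ℂ F] : Type :=
  compactOperator (RingHom.id ℂ) F F

noncomputable def Q (e : ℕ → F) (ε : ℕ → F →L[ℂ] ℂ) (L : ℕ) : F →L[ℂ] F :=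
  ∑ l ∈ range L, (ε l).smulRight (e l)

noncomputable def R (e : ℕ → F) (ε : ℕ → F →L[ℂ] ℂ) (S : F →L[ℂ] ℂ) (p q : ℕ) : F →L[ℂ] F :=
  (Q e ε q - Q e ε p) - (S.comp (Q e ε q) - S.comp (Q e ε p)).smulRight (e p)

structure James (e : ℕ → F) (ε : ℕ → F →L[ℂ] ℂ) (S : F →L[ℂ] ℂ) (C : ℝ) : Prop where
  nonneg : 0 ≤ C
  bdd : ∀ m, ‖e m‖ ≤ C
  lim : ∀ y, Tendsto (fun L => Q e ε L y) atTop (𝓝 y)
  bi : ∀ l m, ε l (e m) = if l = m then 1 else 0
  sum : ∀ m, S (e m) = 1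
  lo : ∀ p q, Ch p q → ∀ (N : ℕ) y,
    ∑ j ∈ range N, ‖(Q e ε (q j) - Q e ε (p j)) y‖ ≤ C * √N * ‖y‖
  up : ∀ p q, Ch p q → ∀ (N : ℕ) (y : ℕ → F) (M : ℝ), (∀ j, ‖y j‖ ≤ M) →
    ‖∑ j ∈ range N, R e ε S (p j) (q j) (y j)‖ ≤ C * √N * M

variable {e : ℕ → F} {ε : ℕ → F →L[ℂ] ℂ} {S : F →L[ℂ] ℂ} {C : ℝ}

lemma James.Qe (J : James e ε S C) (L m : ℕ) : Q e ε L (e m) = if m < L then e m else 0 := by
  simp [Q, J.bi, ite_smul]

instance [CompleteSpace F] : CompleteSpace (K F) :=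
  (isClosed_setOfPred_isCompactOperator).completeSpace_coe

theorem core [CompleteSpace F] (J : James e ε S C) {G : Type} [NormedAddCommGroup G]
    [NormedSpace ℂ G] [CompleteSpace G] (ι : G →L[ℂ] F →L[ℂ] F) (hι : ∀ b, IsCompactOperator (ι b))
    (π : ℕ → (F →L[ℂ] F) →ₗ[ℂ] F)
    (z : ℕ → (F →L[ℂ] ℂ) →ₗ[ℂ] G) (M : ℝ) (hb : ∀ m f x, π m (smulRight f x) = ι (z m f) x)
    (hc : ∀ m, Tendsto (fun L => π m (Q e ε L)) atTop (𝓝 (e m)))
    (hc' : ∀ m, Tendsto (fun L => z m (S.comp (Q e ε L))) atTop (𝓝 (z m S)))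
    (hd : ∀ f, ∃ w, Tendsto (fun m => z m f) atTop (𝓝 w))
    (he : ∀ m p q, Ch p q → ∀ N : ℕ,
      ∑ j ∈ range N, ‖π m (Q e ε (q j)) - π m (Q e ε (p j))‖ ≤ M * √N)
    (he' : ∀ m p q, Ch p q → ∀ N : ℕ,
      ∑ j ∈ range N, ‖z m (S.comp (Q e ε (q j))) - z m (S.comp (Q e ε (p j)))‖ ≤ M * √N)
    (hf : ∀ p q, Ch p q → ∀ (m : ℕ → ℕ) (N : ℕ),
      ‖∑ j ∈ range N, π (m j) (R e ε S (p j) (q j))‖ ≤ M * √N) : False := by
  choose zi hz using hd
  have ev : ∀ x : F, Continuous fun b : G => ι b x := fun x => by fun_prop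
  have hV : ∀ L, ∃ V, Tendsto (fun m => π m (Q e ε L)) atTop (𝓝 V) := fun L => ⟨_, by
    simp only [Q, map_sum, hb]
    exact tendsto_finsetSum _ fun l _ => ((ev _).tendsto _).comp (hz _)⟩
  choose V hV using hV
  obtain ⟨v₀, hv₀⟩ := chain_lim V M fun p q h N => le_of_tendsto'
    (tendsto_finsetSum _ fun j _ => ((hV _).sub (hV _)).norm)
    fun m => he m p q (fun j => ⟨(h j).1, (h j).2.le⟩) N
  obtain ⟨w₀, hw₀⟩ := chain_lim (fun L => zi (S.comp (Q e ε L))) M fun p q h N => le_of_tendsto'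
    (tendsto_finsetSum _ fun j _ => ((hz _).sub (hz _)).norm)
    fun m => he' m p q (fun j => ⟨(h j).1, (h j).2.le⟩) N
  obtain ⟨T, hT, hT'⟩ := IsCompactOperator.image_closedBall_subset_compact
    (f := (ι (zi S - w₀)).toLinearMap) (hι _) C
  obtain ⟨v₁, -, φ, hφ, hv₁⟩ := hT.tendsto_subseq (x := fun L => ι (zi S - w₀) (e L))
    fun L => hT' ⟨e L, mem_closedBall_zero_iff.2 (J.bdd L), rfl⟩
  have hr : ∀ {a : ℕ → ℂ} {b : ℂ}, Tendsto a atTop (𝓝 b) → 1 / 2 < b.re → ∀ n,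
      ∃ k, n ≤ k ∧ 1 / 2 < (a k).re := fun h1 h2 n => ((eventually_ge_atTop n).and
        (((Complex.continuous_re.tendsto _).comp h1).eventually (lt_mem_nhds h2))).exists
  obtain ⟨k₀, -, hk⟩ := hr ((((S.continuous.tendsto _).comp (J.lim (v₀ + v₁))).const_sub
    (S (v₀ + v₁))).const_sub 1) (by norm_num) 0
  set g := S - S.comp (Q e ε k₀) with hg
  have claim : ∀ n, ∃ L m L', n ≤ L ∧ L ≤ L' ∧ 1 / 2 < (g (π m (R e ε S L L'))).re := fun n => by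
    have h1 : Tendsto (fun k => ι (zi S - zi (S.comp (Q e ε (φ k)))) (e (φ k))) atTop (𝓝 v₁) := by
      have : Tendsto (fun k => ι (w₀ - zi (S.comp (Q e ε (φ k)))) (e (φ k))) atTop (𝓝 0) := by
        refine squeeze_zero_norm (fun k => (le_opNorm_of_le _ (J.bdd _))) ?_
        simpa using (((ι.continuous.tendsto _).comp
          ((hw₀.comp hφ.tendsto_atTop).const_sub w₀)).norm.mul_const C)
      simpa using hv₁.add this
    obtain ⟨k, hk1, hk2⟩ := hr (((g.continuous.tendsto _).comp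
      ((hv₀.comp hφ.tendsto_atTop).add h1)).const_sub 1) (by simpa [hg] using hk) n
    obtain ⟨m, hm1, hm2⟩ := hr (((g.continuous.tendsto _).comp ((hV (φ k)).add
      (((ev (e (φ k))).tendsto _).comp ((hz S).sub (hz _))))).const_sub 1) hk2 k₀
    have h2 : g (e m) = 1 := by simp [hg, J.Qe, J.sum, hm1.not_gt]
    obtain ⟨L', hL1, hL2⟩ := hr ((g.continuous.tendsto _).comp (((hc m).sub_const
      (π m (Q e ε (φ k)))).sub (((ev (e (φ k))).tendsto _).comp ((hc' m).sub_const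
        (z m (S.comp (Q e ε (φ k)))))))) (by
          rw [sub_sub, map_sub, h2]; exact hm2) (φ k)
    refine ⟨φ k, m, L', hk1.trans (hφ.id_le k), hL1, ?_⟩
    rw [R, map_sub (π m), map_sub (π m), hb, map_sub (z m)]
    exact hL2
  choose L m L' h1 h2 h3 using claim
  let r : ℕ → ℕ := fun j => Nat.rec 0 (fun _ r => L' r) j
  refine sqrt_contra (1 / 2) (‖g‖ * M) (by norm_num) fun N => ?_
  have := g.le_opNorm_of_le (hf (fun j => L (r j)) (fun j => L' (r j))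
    (fun j => ⟨h2 _, h1 _⟩) (fun j => m (r j)) N)
  rw [mul_assoc]
  refine le_trans ?_ ((Complex.re_le_norm _).trans this)
  rw [map_sum, Complex.re_sum]
  simpa using card_nsmul_le_sum (range N) _ (1 / 2 : ℝ) fun j _ => (h3 (r j)).le

end Pool.Agent.H26.Her1
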