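import Mathlib
import Pool.Agent.H26.Her1

set_option autoImplicit false

open Filter Topology Finset ContinuousLinearMap

namespace Pool.Agent.H26.Her2

open PTP Her1

variable {F : Type} [NormedAddCommGroup F] [NormedSpace ℂ F]
  {e : ℕ → F} {ε : ℕ → F →L[ℂ] ℂ} {S : F →L[ℂ] ℂ} {C : ℝ}

noncomputable def mulK : K F →L[ℂ] (F →L[ℂ] F) →L[ℂ] K F := LinearMap.mkContinuous₂
  (LinearMap.mk₂ ℂ (fun (b : K F) (c : F →L[ℂ] F) =>
    (⟨b.1.comp c, IsCompactOperator.comp_clm b.2 c⟩ : K F))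
    (fun _ _ _ => Subtype.ext (add_comp _ _ _)) (fun _ _ _ => Subtype.ext (smul_comp _ _ _))
    (fun _ _ _ => Subtype.ext (comp_add _ _ _)) (fun _ _ _ => Subtype.ext (comp_smul _ _ _))) 1
  fun b c => by rw [one_mul]; exact opNorm_comp_le b.1 c

noncomputable def act0 {G H X : Type} [NormedAddCommGroup G] [NormedSpace ℂ G]
    [NormedAddCommGroup H] [NormedSpace ℂ H] [NormedAddCommGroup X] [NormedSpace ℂ X]
    (t : G →L[ℂ] H →L[ℂ] X) (m : H →L[ℂ] H →L[ℂ] H) : G →L[ℂ] H →L[ℂ] H →L[ℂ] X :=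
  ((compL ℂ H (H →L[ℂ] H) (H →L[ℂ] X)).flip m).comp ((compL ℂ H H X).comp t)

noncomputable def P0 {G : Type} [NormedAddCommGroup G] [NormedSpace ℂ G] (ι : G →L[ℂ] F →L[ℂ] F)
    (r : F →L[ℂ] F) (y : F) : G →L[ℂ] (F →L[ℂ] F) →L[ℂ] F :=
  ι.bilinearComp (.id ℂ G) (r.comp (apply ℂ F y))

noncomputable def Z0 {G : Type} [NormedAddCommGroup G] [NormedSpace ℂ G]
    (f : F →L[ℂ] ℂ) (y : F) : G →L[ℂ] (F →L[ℂ] F) →L[ℂ] G :=
  (lsmul ℂ ℂ : ℂ →L[ℂ] G →L[ℂ] G).flip.bilinearComp (.id ℂ G) (f.comp (apply ℂ F y))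

lemma strong_lim {G H X Y : Type} [NormedAddCommGroup X] [NormedSpace ℂ X] [NormedAddCommGroup Y]
    [NormedSpace ℂ Y] (t : G → H → X)
    (hd : Dense (Submodule.span ℂ (Set.range fun p : G × H => t p.1 p.2) : Set X))
    (Λ : ℕ → X →L[ℂ] Y) (Λ' : X →L[ℂ] Y) (M : ℝ) (hM : ∀ n u, ‖Λ n u‖ ≤ M * ‖u‖)
    (h : ∀ g h, Tendsto (fun n => Λ n (t g h)) atTop (𝓝 (Λ' (t g h)))) (u : X) :
    Tendsto (fun n => Λ n u) atTop (𝓝 (Λ' u)) := by
  have hq : Equicontinuous fun n (u : X) => Λ n u :=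
    (LipschitzWith.uniformEquicontinuous _ M.toNNReal fun n => LipschitzWith.of_dist_le_mul
      fun x y => by
        rw [dist_eq_norm, dist_eq_norm, ← map_sub]
        exact (hM _ _).trans (by gcongr; exact Real.le_coe_toNNReal M)).equicontinuous
  refine hd.induction (fun u hu => ?_) (hq.isClosed_setOf_tendsto Λ'.continuous) u
  refine Submodule.span_induction (fun _ ⟨p, hp⟩ => hp ▸ h p.1 p.2) (by simpa using tendsto_const_nhds)
    (fun _ _ _ _ h1 h2 => by simpa using h1.add h2) (fun c _ _ h1 => by simpa using h1.const_smul c) hu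

lemma phase {Y : Type} [NormedAddCommGroup Y] [NormedSpace ℂ Y] (g : Y →L[ℂ] ℂ) (y : ℕ → Y)
    (N : ℕ) : ∃ s : ℕ → ℂ, (∀ j, ‖s j‖ = 1) ∧
      ∑ j ∈ range N, ‖g (y j)‖ ≤ ‖g‖ * ‖∑ j ∈ range N, s j • y j‖ := by
  choose s h1 h2 using fun j => RCLike.exists_norm_eq_mul_self (g (y j))
  refine ⟨s, h1, le_trans ?_ (g.le_opNorm _)⟩
  simp only [map_sum, map_smul, smul_eq_mul, ← h2]
  rw [← RCLike.ofReal_sum, RCLike.norm_ofReal]
  exact le_abs_self _

theorem no_lift [CompleteSpace F] (J : James e ε S C) {G : Type} [NormedAddCommGroup G]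
    [NormedSpace ℂ G] [CompleteSpace G] (ι : G →L[ℂ] F →L[ℂ] F) (hι : ∀ b, IsCompactOperator (ι b))
    (hι' : ∀ b, ‖ι b‖ ≤ ‖b‖) (μ : G →L[ℂ] (F →L[ℂ] F) →L[ℂ] G)
    (hμ : ∀ b c, ι (μ b c) = (ι b).comp c) (inj : Function.Injective ι) :
    ∃ (X : Type) (_ : NormedAddCommGroup X) (_ : NormedSpace ℂ X) (_ : CompleteSpace X)
      (act : X →L[ℂ] (F →L[ℂ] F) →L[ℂ] X) (σ : X →L[ℂ] G) (τ : G →L[ℂ] X),
      (∀ u c d, act u (c.comp d) = act (act u c) d) ∧ (∀ u c, σ (act u c) = μ (σ u) c) ∧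
      (∀ y, σ (τ y) = y) ∧ ∀ (u : ℕ → X) (M : ℝ), (∀ n, ‖u n‖ ≤ M) →
        (∀ m n, m ≤ n → act (u n) (Q e ε m) = u m) → (∀ n, ι (σ (u n)) = Q e ε n) → False := by
  obtain ⟨X, _, _, _, t, hd, hl, hb⟩ := exists_ptp (G) (F →L[ℂ] F)
  obtain ⟨act, h1⟩ := hl _ (act0 t (compL ℂ F F F))
  replace h1 : ∀ b c d, act (t b c) d = t b (c.comp d) := fun b c d => by rw [h1]; rfl
  obtain ⟨σ, h2⟩ := hl G μ
  choose P hP using fun r y => hl F (P0 ι r y)
  replace hP : ∀ r y b c, P r y (t b c) = ι b (r (c y)) := hP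
  choose Z hZ using fun f y => hl (G) (Z0 (F := F) f y)
  replace hZ : ∀ f y b c, Z f y (t b c) = f (c y) • b := hZ
  have ex : ∀ {Y : Type} [NormedAddCommGroup Y] [NormedSpace ℂ Y] (f g : X →L[ℂ] Y),
      (∀ b c, f (t b c) = g (t b c)) → ∀ u, f u = g u := fun f g h u => by
    rw [ext_on hd (f := f) (g := g) (by rintro _ ⟨p, rfl⟩; exact h _ _)]
  let π : F → X → (F →L[ℂ] F) →ₗ[ℂ] F := fun y u =>
    { toFun := fun r => P r y u
      map_add' := fun r r' => ex (P (r + r') y) (P r y + P r' y) (fun _ _ => by simp [hP]) u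
      map_smul' := fun c r => ex (P (c • r) y) (c • P r y) (fun _ _ => by simp [hP]) u }
  let z : F → X → (F →L[ℂ] ℂ) →ₗ[ℂ] G := fun y u =>
    { toFun := fun r => Z r y u
      map_add' := fun r r' => ex (Z (r + r') y) (Z r y + Z r' y)
        (fun _ _ => by simp [hZ, add_smul]) u
      map_smul' := fun c r => ex (Z (c • r) y) (c • Z r y) (fun _ _ => by simp [hZ, mul_smul]) u }
  refine ⟨X, inferInstance, inferInstance, inferInstance, act, σ, t.flip (.id ℂ F), fun u c d =>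
    ex (act.flip (c.comp d)) ((act.flip d).comp (act.flip c)) (fun _ _ => by simp [h1, comp_assoc]) u,
    fun u c => ex (σ.comp (act.flip c)) ((μ.flip c).comp σ)
      (fun _ _ => inj (by simp [h1, h2, hμ, comp_assoc])) u,
    fun y => inj (by simp [h2, hμ]), fun u M hM hu hσ => ?_⟩
  have hC := J.nonneg
  have a1 : ∀ b c x y : ℝ, b * (x * (c * y)) = x * y * b * c := by intros; ring
  have a2 : ∀ s b c x y z : ℝ, s * (x * y * (c * z)) * b = s * x * y * z * b * c := by intros; ring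
  have a3 : ∀ f b c x : ℝ, f * c * x * b = f * x * b * c := by intros; ring
  have c1 : ∀ r m n, m < n → P r (e m) (u (m + 1)) = P r (e m) (u n) := fun r m n h => by
    rw [← hu (m + 1) n h]
    exact ex ((P r (e m)).comp (act.flip _)) _ (fun _ _ => by simp [h1, hP, J.Qe]) _
  have c2 : ∀ f m n, m < n → Z f (e m) (u (m + 1)) = Z f (e m) (u n) := fun f m n h => by
    rw [← hu (m + 1) n h]
    exact ex ((Z f (e m)).comp (act.flip _)) _ (fun _ _ => by simp [h1, hZ, J.Qe]) _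
  have hQ : ∀ L y, ‖Q e ε L y‖ ≤ C * ‖y‖ := fun L y => by
    simpa [Q] using J.lo (fun j => j * L) (fun j => (j + 1) * L)
      (fun j => ⟨Nat.mul_le_mul_right _ (Nat.le_succ _), le_rfl⟩) 1 y
  have hM0 : 0 ≤ M := (norm_nonneg _).trans (hM 0)
  have lo1 : ∀ p q, Ch p q → ∀ (N : ℕ) m u, ∑ j ∈ range N,
      ‖P (Q e ε (q j) - Q e ε (p j)) (e m) u‖ ≤ C * √N * C * ‖u‖ := fun p q h N m u =>
    sum_bound (fun b c => t b c) hb _ _ _ (by positivity) (fun b c => by
      simp only [hP]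
      refine (sum_le_sum fun j _ => (ι b).le_of_opNorm_le (hι' b) _).trans ?_
      rw [← mul_sum]
      calc _ ≤ ‖b‖ * (C * √N * (‖c‖ * C)) := mul_le_mul_of_nonneg_left ((J.lo p q h N _).trans
            (by gcongr; exact c.le_opNorm_of_le (J.bdd m))) (norm_nonneg _)
        _ = _ := a1 _ _ _ _) u
  have lo2 : ∀ p q, Ch p q → ∀ (N : ℕ) m u, ∑ j ∈ range N,
      ‖Z (S.comp (Q e ε (q j) - Q e ε (p j))) (e m) u‖ ≤ ‖S‖ * C * √N * C * ‖u‖ := fun p q h N m u =>
    sum_bound (fun b c => t b c) hb _ _ _ (by positivity) (fun b c => by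
      simp only [hZ, comp_apply]
      refine (sum_le_sum fun j _ => (norm_smul _ b).trans_le
        (mul_le_mul_of_nonneg_right (S.le_opNorm _) (norm_nonneg _))).trans ?_
      rw [← sum_mul, ← mul_sum]
      calc _ ≤ ‖S‖ * (C * √N * (‖c‖ * C)) * ‖b‖ := by
            gcongr
            exact (J.lo p q h N _).trans (by gcongr; exact c.le_opNorm_of_le (J.bdd m))
        _ = _ := a2 _ _ _ _ _ _) u
  have big : ∀ (q : ℕ → ℕ) N, ∃ n, ∀ j ∈ range N, q j < n := fun q N =>
    ⟨(range N).sup q + 1, fun j hj => Nat.lt_succ_of_le (le_sup hj)⟩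
  refine core J ι hι (fun m => π (e m) (u (m + 1)))
    (fun m => z (e m) (u (m + 1))) ((‖S‖ + 1) * C * C * M) (fun m f x =>
      ex (P (f.smulRight x) (e m)) ((apply ℂ F x).comp (ι.comp (Z f (e m))))
        (fun _ _ => by simp [hP, hZ]) _) (fun m => ?_) (fun m => ?_) (fun f => ?_)
    (fun m p q h N => ?_) (fun m p q h N => ?_) fun p q h m N => ?_
  · have := strong_lim (fun b c => t b c) hd (fun L => P (Q e ε L) (e m))
      ((apply ℂ F (e m)).comp (ι.comp σ)) (C * √(1 : ℕ) * C) (fun L u => by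
        simpa [Q] using lo1 (fun j => j * L) (fun j => (j + 1) * L)
          (fun j => ⟨Nat.mul_le_mul_right _ (Nat.le_succ _), le_rfl⟩) 1 m u)
      (fun b c => by
        simp only [hP, comp_apply, h2, hμ]
        exact ((ι b).continuous.tendsto _).comp (J.lim _)) (u (m + 1))
    simpa [hσ, J.Qe, π] using this
  · exact strong_lim (fun b c => t b c) hd (fun L => Z (S.comp (Q e ε L)) (e m))
      (Z S (e m)) (‖S‖ * C * √(1 : ℕ) * C) (fun L u => by
        simpa [Q] using lo2 (fun j => j * L) (fun j => (j + 1) * L)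
          (fun j => ⟨Nat.mul_le_mul_right _ (Nat.le_succ _), le_rfl⟩) 1 m u)
      (fun b c => by
        simp only [hZ]
        exact ((S.continuous.tendsto _).comp (J.lim _)).smul_const _) (u (m + 1))
  · refine chain_lim _ (‖f‖ * C * C * M) fun p q h N => ?_
    obtain ⟨n, hn⟩ := big q N
    have := sum_bound (fun b c => t b c) hb (range N) (fun j => Z f (e (q j)) - Z f (e (p j)))
      (‖f‖ * (C * √N * C)) (by positivity) (fun b c => by
        obtain ⟨s, hs, hs'⟩ := phase (f.comp c) (fun j => e (q j) - e (p j)) N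
        have := J.up p (fun j => q j + 1) (fun j => ⟨(h j).1.trans (Nat.le_succ _), (h j).2⟩) N
          (fun j => s j • e (q j)) C fun j => by simpa [norm_smul, hs] using J.bdd _
        rw [sum_congr rfl (g := fun j => s j • (e (q j) - e (p j))) fun j _ => by
          simp [R, J.Qe, J.sum, (h j).1.not_gt, smul_sub]] at this
        simp only [ContinuousLinearMap.sub_apply, hZ, ← sub_smul, ← map_sub]
        refine (sum_congr rfl fun j _ => norm_smul _ b).trans_le ?_
        rw [← sum_mul]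
        calc _ ≤ ‖f‖ * ‖c‖ * (C * √N * C) * ‖b‖ := mul_le_mul_of_nonneg_right (hs'.trans
              (mul_le_mul (opNorm_comp_le _ _) this (norm_nonneg _) (by positivity))) (norm_nonneg _)
          _ = _ := a3 _ _ _ _) (u n)
    refine le_trans (le_of_eq (sum_congr rfl fun j hj => ?_)) (this.trans ?_)
    · rw [ContinuousLinearMap.sub_apply, ← c2 _ _ _ (hn j hj),
        ← c2 _ _ _ ((h j).1.trans_lt (hn j hj))]
      rfl
    · exact (mul_le_mul_of_nonneg_left (hM n) (by positivity)).trans_eq (by ring)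
  · simp only [← map_sub]
    refine (lo1 p q h N m _).trans ?_
    calc _ ≤ (‖S‖ + 1) * (C * √N * C * M) := by
          refine le_trans ?_ (le_mul_of_one_le_left (by positivity) (by simp))
          gcongr; exact hM _
      _ = _ := by ring
  · simp only [← map_sub, ← comp_sub]
    refine (lo2 p q h N m _).trans ?_
    calc _ ≤ (‖S‖ + 1) * C * √N * C * M := by
          gcongr
          · simp
          · exact hM _
      _ = _ := by ring
  · obtain ⟨n, hn⟩ := big m N
    have := sum_bound (fun b c => t b c) hb {0} (fun _ => ∑ j ∈ range N,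
      P (R e ε S (p j) (q j)) (e (m j))) (C * √N * C) (by positivity) (fun b c => by
        simp only [sum_singleton, ContinuousLinearMap.sum_apply, hP, ← map_sum]
        refine (((ι b).le_of_opNorm_le (hι' b) _).trans (mul_le_mul_of_nonneg_left (J.up p q h N _
          (‖c‖ * C) fun j => c.le_opNorm_of_le (J.bdd _)) (norm_nonneg _))).trans_eq ?_
        exact a1 _ _ _ _) (u n)
    rw [sum_singleton, ContinuousLinearMap.sum_apply] at this
    refine le_trans (le_of_eq (congrArg _ (sum_congr rfl fun j hj => c1 _ _ _ (hn j hj))))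
      (this.trans ?_)
    calc _ ≤ (‖S‖ + 1) * (C * √N * C * M) := by
          refine le_trans ?_ (le_mul_of_one_le_left (by positivity) (by simp))
          gcongr; exact hM _
      _ = _ := by ring

end Pool.Agent.H26.Her2
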