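import Mathlib
import Pool.Agent.H26.Her2

set_option autoImplicit false

open Filter Topology Finset ContinuousLinearMap

namespace Pool.Agent.H26.Her3

open PTP Her1 Her2

def Adm (T : Finset (ℕ × ℕ)) : Prop :=
  (∀ a ∈ T, a.1 ≤ a.2) ∧ ∀ a ∈ T, ∀ b ∈ T, a ≠ b → a.2 ≤ b.1 ∨ b.2 ≤ a.1

noncomputable def var (T : Finset (ℕ × ℕ)) (x : ℕ → ℂ) : ℝ := ∑ a ∈ T, ‖x a.1 - x a.2‖ ^ 2

def cut (p q : ℕ) (g : ℕ → ℂ) (n : ℕ) : ℂ := if n ∈ Ico p q then g n else 0

lemma key {T : Finset (ℕ × ℕ)} (hT : Adm T) (p q : ℕ) (g : ℕ → ℂ) (M : ℝ)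
    (hM : ∀ n ∈ Ico p q, ‖g n‖ ^ 2 ≤ M) (h0 : 0 ≤ M) :
    var T (cut p q g) ≤ var (T.filter (· ∈ Ico p q ×ˢ Ico p q)) g + 2 * M := by
  have h1 : ∀ r, ∑ a ∈ T, (if a.1 < r ∧ r ≤ a.2 then M else 0) ≤ M := fun r => by
    rw [← sum_filter, sum_const, nsmul_eq_mul]
    refine mul_le_of_le_one_left h0 (Nat.cast_le_one.2 (card_le_one.2 fun a ha b hb => ?_))
    rw [mem_filter] at ha hb
    by_contra h
    have := hT.2 a ha.1 b hb.1 h
    omega
  rw [var, var, sum_filter, two_mul, ← add_assoc]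
  refine le_trans ?_ (add_le_add (add_le_add le_rfl (h1 p)) (h1 q))
  rw [← sum_add_distrib, ← sum_add_distrib]
  refine sum_le_sum fun a ha => ?_
  have := hT.1 a ha
  have h2 := hM a.1
  have h3 := hM a.2
  simp only [cut, mem_product, mem_Ico] at *
  split_ifs <;> first | omega | (simp_all; done) | (simp_all; positivity)

lemma two {N : ℕ} (z : ℕ → ℂ) (h : ((range N).filter (z · ≠ 0)).card ≤ 2) :
    ‖∑ i ∈ range N, z i‖ ^ 2 ≤ 2 * ∑ i ∈ range N, ‖z i‖ ^ 2 := by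
  rw [← sum_filter_ne_zero]
  calc _ ≤ (∑ i ∈ (range N).filter (z · ≠ 0), ‖z i‖) ^ 2 := by gcongr; exact norm_sum_le _ _
    _ ≤ _ := sq_sum_le_card_mul_sum_sq
    _ ≤ _ := by
      gcongr
      · exact_mod_cast h
      · exact filter_subset _ _

lemma Ch.lt {p q : ℕ → ℕ} (h : Ch p q) {i j : ℕ} (hij : i < j) : q i ≤ p j :=
  (h i).2.trans (monotone_nat_of_le_succ (fun k => (h k).1.trans (h k).2) hij)

lemma Ch.uniq {p q : ℕ → ℕ} (h : Ch p q) {i j n : ℕ} (hi : n ∈ Ico (p i) (q i))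
    (hj : n ∈ Ico (p j) (q j)) : i = j := by
  rw [mem_Ico] at hi hj
  rcases lt_trichotomy i j with h1 | h1 | h1
  · have := Ch.lt h h1; omega
  · exact h1
  · have := Ch.lt h h1; omega

lemma two' {p q : ℕ → ℕ} (h : Ch p q) (N a b : ℕ) (z : ℕ → ℂ)
    (hz : ∀ i, z i ≠ 0 → a ∈ Ico (p i) (q i) ∨ b ∈ Ico (p i) (q i)) :
    ‖∑ i ∈ range N, z i‖ ^ 2 ≤ 2 * ∑ i ∈ range N, ‖z i‖ ^ 2 := by
  have : ∀ a, ((range N).filter fun i => a ∈ Ico (p i) (q i)).card ≤ 1 := fun a =>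
    card_le_one.2 fun i hi j hj => Ch.uniq h (mem_filter.1 hi).2 (mem_filter.1 hj).2
  refine two z ((card_le_card fun i hi => ?_).trans
    ((card_union_le _ _).trans (add_le_add (this a) (this b))))
  simp only [mem_union, mem_filter] at hi ⊢
  rcases hz i hi.2 with h | h
  exacts [Or.inl ⟨hi.1, h⟩, Or.inr ⟨hi.1, h⟩]

theorem exists_J0 : ∃ (E : Type) (_ : NormedAddCommGroup E) (_ : NormedSpace ℂ E)
    (_ : CompleteSpace E) (d : ℕ → E) (co : ℕ → E →L[ℂ] ℂ),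
    (∀ k n, co k (d n) = if k = n then 1 else 0) ∧
    Dense (Submodule.span ℂ (Set.range d) : Set E) ∧
    (∀ T x, Adm T → var T (co · x) ≤ ‖x‖ ^ 2) ∧ (∀ n x, ‖co n x‖ ≤ ‖x‖) ∧
    ∀ x C, (∀ T, Adm T → var T (co · x) ≤ C) → (∀ n, ‖co n x‖ ^ 2 ≤ C) → ‖x‖ ^ 2 ≤ C := by
  let L : {T // Adm T} ⊕ ℕ → (ℕ → ℂ) →L[ℂ] lp (fun _ : ℕ × ℕ => ℂ) 2 := Sum.elim
    (fun T => ∑ a ∈ T.1, (lp.singleContinuousLinearMap ℂ (fun _ : ℕ × ℕ => ℂ) 2 a).comp
      ((proj a.1 : (ℕ → ℂ) →L[ℂ] ℂ) - proj a.2))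
    fun n => (lp.singleContinuousLinearMap ℂ (fun _ : ℕ × ℕ => ℂ) 2 (0, 0)).comp (proj n)
  have h1 : ∀ T x, ‖L (Sum.inl T) x‖ ^ 2 = var T.1 x := fun T x => by
    simpa [L, var] using lp.norm_sum_single (E := fun _ : ℕ × ℕ => ℂ) (p := 2) (by norm_num)
      (fun a => x a.1 - x a.2) T.1
  have h2 : ∀ n x, ‖L (Sum.inr n) x‖ = ‖x n‖ := fun n x => lp.norm_single (by norm_num) _ _
  obtain ⟨E, _, _, _, d, co, h3, h4, -, h5, h6⟩ := SeqSp.exists_space ℂ L (fun n => ⟨2, fun w => by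
      rcases w with T | k
      · refine (abs_le_of_sq_le_sq' ?_ zero_le_two).2
        have := key T.2 n (n + 1) (fun _ => 1) 1 (by simp) zero_le_one
        rw [h1, show Pi.single n 1 = cut n (n + 1) fun _ => 1 from
          funext fun k => by simp [cut, Pi.single_apply]]
        simp only [var, sub_self, norm_zero] at this ⊢
        norm_num at this ⊢
        linarith
      · rw [h2, Pi.single_apply]; split_ifs <;> simp⟩)
    fun n => ⟨Sum.inr n, lp.evalCLM ℂ (fun _ : ℕ × ℕ => ℂ) 2 (0, 0), fun c =>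
      lp.single_apply_self (E := fun _ : ℕ × ℕ => ℂ) 2 (0, 0) (c n)⟩
  refine ⟨E, inferInstance, inferInstance, inferInstance, d, co, h3, h4, fun T x hT => ?_,
    fun n x => h2 n (co · x) ▸ h5 _ x, fun x C h7 h8 => ?_⟩
  · rw [← h1 ⟨T, hT⟩]
    gcongr
    exact h5 _ x
  · have h0 : 0 ≤ C := (sq_nonneg _).trans (h8 0)
    refine (Real.le_sqrt (norm_nonneg _) h0).1 (h6 x _ (Real.sqrt_nonneg _) fun w => ?_)
    refine Real.le_sqrt_of_sq_le ?_
    rcases w with T | k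
    · rw [h1]; exact h7 _ T.2
    · rw [h2]; exact h8 k

lemma sq_sum_le (N : ℕ) (a : ℕ → ℝ) (B : ℝ) (hB : 0 ≤ B) (h : ∑ j ∈ range N, a j ^ 2 ≤ B ^ 2) :
    ∑ j ∈ range N, a j ≤ √N * B := by
  refine (abs_le_of_sq_le_sq' (sq_sum_le_card_mul_sum_sq.trans ?_) (by positivity)).2
  rw [mul_pow, Real.sq_sqrt (by positivity), card_range]
  gcongr

theorem exists_J1 : ∃ (E : Type) (_ : NormedAddCommGroup E) (_ : NormedSpace ℂ E)
    (_ : CompleteSpace E) (d : ℕ → E) (co : ℕ → E →L[ℂ] ℂ),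
    (∀ k n, co k (d n) = if k = n then 1 else 0) ∧
    Dense (Submodule.span ℂ (Set.range d) : Set E) ∧ (∀ n x, ‖co n x‖ ≤ ‖x‖) ∧
    (∀ p q, ‖∑ n ∈ Ico p q, d n‖ ≤ 2) ∧ (∀ p q x, ‖∑ n ∈ Ico p q, co n x • d n‖ ≤ 2 * ‖x‖) ∧
    (∀ p q, Ch p q → ∀ (N : ℕ) (x : ℕ → E), (∀ j, ‖x j‖ ≤ 1) →
      ‖∑ j ∈ range N, ∑ n ∈ Ico (p j) (q j), co n (x j) • d n‖ ≤ 3 * √N) ∧
    ∀ p q, Ch p q → ∀ (N : ℕ) x, ∑ j ∈ range N,
      ‖∑ n ∈ Ico (p j) (q j), (co n x - co (p j) x) • d n‖ ≤ √N * (2 * ‖x‖) := by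
  classical
  obtain ⟨E, _, _, _, d, co, h1, h2, h3, h4, h5⟩ := exists_J0
  have hc : ∀ p q (g : ℕ → ℂ) k, co k (∑ n ∈ Ico p q, g n • d n) = cut p q g k := fun p q g k => by
    simp [h1, cut]
  have hB : ∀ p q (g : ℕ → ℂ) A M, 0 ≤ M → (∀ n ∈ Ico p q, ‖g n‖ ^ 2 ≤ M) →
      (∀ T, Adm T → T ⊆ Ico p q ×ˢ Ico p q → var T g ≤ A) →
      ‖∑ n ∈ Ico p q, g n • d n‖ ^ 2 ≤ A + 2 * M := fun p q g A M h0 hM hA => by
    refine h5 _ _ (fun T hT => ?_) fun n => ?_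
    · simp only [hc]
      refine (key hT p q g M hM h0).trans (add_le_add (hA _ ⟨fun a ha => hT.1 a (mem_filter.1 ha).1,
        fun a ha b hb => hT.2 a (mem_filter.1 ha).1 b (mem_filter.1 hb).1⟩
        fun a ha => (mem_filter.1 ha).2) le_rfl)
    · have := hA ∅ (by simp [Adm]) (empty_subset _)
      simp only [var, sum_empty] at this
      rw [hc, cut]
      split_ifs with h
      · linarith [hM n h]
      · simp; positivity
  have hP : ∀ p q x, ‖∑ n ∈ Ico p q, co n x • d n‖ ^ 2 ≤ ‖x‖ ^ 2 + 2 * ‖x‖ ^ 2 := fun p q x =>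
    hB p q _ _ _ (by positivity) (fun n _ => by gcongr; exact h4 n x) fun T hT _ => h3 T x hT
  refine ⟨E, inferInstance, inferInstance, inferInstance, d, co, h1, h2, h4, fun p q => ?_,
    fun p q x => (abs_le_of_sq_le_sq' ((hP p q x).trans (by nlinarith [sq_nonneg ‖x‖]))
      (by positivity)).2, fun p q h N x hx => ?_, fun p q h N x => ?_⟩
  · have := hB p q (fun _ => 1) 0 1 zero_le_one (by simp) (by simp [var])
    simp only [one_smul] at this
    exact (abs_le_of_sq_le_sq' (this.trans (by norm_num)) zero_le_two).2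
  · set y := fun j => ∑ n ∈ Ico (p j) (q j), co n (x j) • d n
    have hy : ∀ j, ‖y j‖ ^ 2 ≤ 3 := fun j => (hP _ _ _).trans (by
      nlinarith [hx j, norm_nonneg (x j)])
    have hz : ∀ j k, co k (y j) ≠ 0 → k ∈ Ico (p j) (q j) := fun j k hk => by
      by_contra hn
      exact hk (by rw [hc, cut, if_neg hn])
    have : ‖∑ j ∈ range N, y j‖ ^ 2 ≤ 2 * ∑ j ∈ range N, ‖y j‖ ^ 2 := by
      refine h5 _ _ (fun T hT => ?_) fun n => ?_
      · simp only [var, map_sum, ← sum_sub_distrib]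
        refine (sum_le_sum fun a _ => two' h N a.1 a.2 _ fun i hi => ?_).trans ?_
        · by_contra hn
          push Not at hn
          exact hi (by rw [of_not_not (mt (hz _ _) hn.1), of_not_not (mt (hz _ _) hn.2), sub_zero])
        · rw [← mul_sum, sum_comm]
          gcongr with j
          exact h3 T _ hT
      · rw [map_sum]
        refine (two' h N n n _ fun i hi => Or.inl (hz _ _ hi)).trans ?_
        gcongr with j
        exact h4 _ _
    refine (abs_le_of_sq_le_sq' (this.trans ?_) (by positivity)).2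
    have h6 := sum_le_card_nsmul (range N) _ 3 fun j _ => hy j
    rw [card_range, nsmul_eq_mul] at h6
    rw [mul_pow, Real.sq_sqrt (by positivity)]
    linarith [N.cast_nonneg (α := ℝ)]
  · choose T hT hT' using fun j => exists_max_image
      ((Ico (p j) (q j) ×ˢ Ico (p j) (q j)).powerset.filter Adm) (var · (co · x))
      ⟨∅, by simp [Adm]⟩
    simp only [mem_filter, mem_powerset, and_imp] at hT hT'
    have hm : ∀ j, ∀ a ∈ T j, a.1 ∈ Ico (p j) (q j) ∧ a.2 ∈ Ico (p j) (q j) := fun j a ha =>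
      mem_product.1 ((hT j).1 ha)
    refine sq_sum_le N _ _ (by positivity) ?_
    have h6 : ∑ j ∈ range N, var (T j) (co · x) ≤ ‖x‖ ^ 2 := by
      refine le_trans (sum_biUnion fun i _ j _ hij => disjoint_left.2 fun a hi hj =>
        hij (Ch.uniq h (hm i a hi).1 (hm j a hj).1)).ge (h3 _ x ⟨fun a ha => ?_, fun a ha b hb hab => ?_⟩)
      · obtain ⟨j, -, hj⟩ := mem_biUnion.1 ha
        exact (hT j).2.1 a hj
      · obtain ⟨i, -, hi⟩ := mem_biUnion.1 ha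
        obtain ⟨j, -, hj⟩ := mem_biUnion.1 hb
        have := hm i a hi
        have := hm j b hj
        simp only [mem_Ico] at *
        rcases lt_trichotomy i j with h1 | rfl | h1
        · have := Ch.lt h h1; omega
        · exact (hT i).2.2 a hi b hj hab
        · have := Ch.lt h h1; omega
    have h7 : ∀ j ∈ range N, ‖∑ n ∈ Ico (p j) (q j), (co n x - co (p j) x) • d n‖ ^ 2 ≤
        3 * var (T j) (co · x) := fun j _ => by
      refine (hB _ _ _ (var (T j) (co · x)) (var (T j) (co · x))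
        (sum_nonneg fun _ _ => sq_nonneg _) (fun n hn => ?_) fun U hU hU' => ?_).trans_eq (by ring)
      · have hn' := mem_Ico.1 hn
        have := hT' j {(p j, n)} (by simp; omega) (by simp [Adm]; omega)
        rwa [var, sum_singleton, norm_sub_rev] at this
      · simpa [var] using hT' j U hU' hU
    refine (sum_le_sum h7).trans ?_
    rw [← mul_sum]
    nlinarith [sq_nonneg ‖x‖]

end Pool.Agent.H26.Her3
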