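import Mathlib
import Pool.Agent.H26.Her3

set_option autoImplicit false

open Filter Topology Finset ContinuousLinearMap

namespace Pool.Agent.H26.Her4

open PTP Her1 Her2 Her3

lemma norming {E : Type} [NormedAddCommGroup E] [NormedSpace ℂ E] (g : E →L[ℂ] ℂ) :
    ∃ x, ‖x‖ ≤ 1 ∧ ‖g‖ ≤ 2 * (g x).re := by
  rcases (norm_nonneg g).eq_or_lt with h | h
  · exact ⟨0, by simp, by simp [← h]⟩
  obtain ⟨x, h1, h2⟩ := g.exists_lt_apply_of_lt_opNorm (half_lt_self h)
  obtain ⟨c, h3, h4⟩ := RCLike.exists_norm_eq_mul_self (g x)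
  refine ⟨c • x, by simp [norm_smul, h3, h1.le], ?_⟩
  rw [map_smul, smul_eq_mul, ← h4]
  simp
  linarith

theorem exists_J : ∃ (E : Type) (_ : NormedAddCommGroup E) (_ : NormedSpace ℂ E)
    (_ : CompleteSpace E) (d : ℕ → E) (co : ℕ → E →L[ℂ] ℂ) (S : (E →L[ℂ] ℂ) →L[ℂ] ℂ),
    James co (fun l => apply ℂ ℂ (d l)) S 6 ∧ (∀ k n, co k (d n) = if k = n then 1 else 0) ∧
    (∀ L x, ‖Q d co L x‖ ≤ 2 * ‖x‖) ∧ ∀ x, Tendsto (fun L => Q d co L x) atTop (𝓝 x) := by
  obtain ⟨E, _, _, _, d, co, h1, h2, h3, h4, h5, h6, h7⟩ := exists_J1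
  have hP : ∀ L x, ‖Q d co L x‖ ≤ 2 * ‖x‖ := fun L x => by simpa [Q] using h5 0 L x
  have hP' : ∀ x, Tendsto (fun L => Q d co L x) atTop (𝓝 x) :=
    strong_lim (fun n (_ : Unit) => d n) (h2.mono (Submodule.span_mono (by
      rintro _ ⟨n, rfl⟩; exact ⟨(n, ()), rfl⟩))) (Q d co) (.id ℂ E) 2 hP fun n _ => by
        refine tendsto_const_nhds.congr' ((eventually_gt_atTop n).mono fun L hL => ?_)
        simp [Q, h1, ite_smul, hL]
  set ε : ℕ → (E →L[ℂ] ℂ) →L[ℂ] ℂ := fun l => apply ℂ ℂ (d l)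
  have hQ : ∀ p q, p ≤ q → ∀ (f : E →L[ℂ] ℂ), (Q co ε q - Q co ε p) f =
      ∑ n ∈ Ico p q, f (d n) • co n := fun p q h f => by
    simp [Q, ε, sum_Ico_eq_sub _ h]
  have lo : ∀ p q, Ch p q → ∀ (N : ℕ) f,
      ∑ j ∈ range N, ‖(Q co ε (q j) - Q co ε (p j)) f‖ ≤ 6 * √N * ‖f‖ := fun p q h N f => by
    choose x hx hx' using fun j => norming ((Q co ε (q j) - Q co ε (p j)) f)
    refine (sum_le_sum fun j _ => hx' j).trans ?_
    have := (Complex.re_le_norm _).trans (f.le_opNorm_of_le (h6 p q h N x hx))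
    rw [← mul_sum, ← Complex.re_sum, sum_congr rfl fun j _ => by rw [hQ _ _ (h j).1]]
    simp only [map_sum, map_smul, smul_eq_mul, ContinuousLinearMap.sum_apply,
      ContinuousLinearMap.smul_apply, mul_comm (f _)] at this ⊢
    linarith
  have hS : ∀ f : E →L[ℂ] ℂ, ∃ v, Tendsto (fun L => f (∑ n ∈ range L, d n)) atTop (𝓝 v) := fun f =>
    chain_lim _ (12 * ‖f‖) fun p q h N => by
      have := lo p q (fun j => ⟨(h j).1, (h j).2.le⟩) N f
      refine (sum_le_sum (g := fun j => ‖(Q co ε (q j) - Q co ε (p j)) f‖ * 2)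
        fun j _ => ?_).trans (by rw [← sum_mul]; linarith)
      refine le_trans (le_of_eq ?_) (le_opNorm_of_le _ (h4 (p j) (q j)))
      rw [hQ _ _ (h j).1, ← map_sub, ← sum_Ico_eq_sub _ (h j).1]
      simp +contextual [h1, -mem_Ico]
  choose S0 hS using hS
  let S : (E →L[ℂ] ℂ) →L[ℂ] ℂ := continuousLinearMapOfTendsto
    (fun L => apply ℂ ℂ (∑ n ∈ range L, d n)) (tendsto_pi_nhds.2 hS)
  have hS1 : ∀ m, S (co m) = 1 := fun m => tendsto_nhds_unique (hS _) (tendsto_const_nhds.congr'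
    ((eventually_gt_atTop m).mono fun L hL => by simp [h1, hL]))
  refine ⟨E, inferInstance, inferInstance, inferInstance, d, co, S, ⟨by norm_num, fun m =>
    opNorm_le_bound _ (by norm_num) fun x => by linarith [h3 m x, norm_nonneg x], fun f => ?_,
    fun l m => by simp [ε, h1, eq_comm], hS1, lo, fun p q h N y M hM => ?_⟩, h1, hP, hP'⟩
  · obtain ⟨g, hg⟩ := chain_lim (fun L => Q co ε L f) (6 * ‖f‖) fun p q h N =>
      (lo p q (fun j => ⟨(h j).1, (h j).2.le⟩) N f).trans_eq (by ring)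
    suffices g = f from this ▸ hg
    ext x
    refine tendsto_nhds_unique (((apply ℂ ℂ x).continuous.tendsto _).comp hg)
      (((f.continuous.tendsto _).comp (hP' x)).congr fun L => ?_)
    simp [Q, ε, mul_comm]
  · have h0 : 0 ≤ M := (norm_nonneg _).trans (hM 0)
    refine opNorm_le_bound _ (by positivity) fun x => ?_
    rw [ContinuousLinearMap.sum_apply]
    refine (norm_sum_le_of_le _ (n := fun j => M * ‖∑ n ∈ Ico (p j) (q j),
      (co n x - co (p j) x) • d n‖) fun j _ => ?_).trans ?_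
    · refine le_trans (le_of_eq ?_) ((y j).le_of_opNorm_le (hM j) _)
      rw [R, ← comp_sub, ContinuousLinearMap.sub_apply, smulRight_apply, comp_apply, hQ _ _ (h j).1]
      simp [hS1, mul_sub, sum_sub_distrib, mul_comm, mul_sum]
    · rw [← mul_sum]
      have := mul_le_mul_of_nonneg_left (h7 p q h N x) h0
      have : 0 ≤ √N * M * ‖x‖ := by positivity
      nlinarith

lemma Q_compact {F : Type} [NormedAddCommGroup F] [NormedSpace ℂ F] (e : ℕ → F)
    (ε : ℕ → F →L[ℂ] ℂ) (L : ℕ) : IsCompactOperator (Q e ε L) :=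
  (compactOperator (RingHom.id ℂ) F F).sum_mem fun l _ =>
    (isCompactOperator_of_locallyCompactSpace_dom (ε l)).clm_comp (toSpanSingleton ℂ (e l))

lemma approx {E : Type} [NormedAddCommGroup E] [NormedSpace ℂ E] (P : ℕ → E →L[ℂ] E)
    (hP : ∀ L x, ‖P L x‖ ≤ 2 * ‖x‖) (hP' : ∀ x, Tendsto (fun L => P L x) atTop (𝓝 x))
    (a : E →L[ℂ] E) (ha : IsCompactOperator a) :
    Tendsto (fun L => (P L).comp a) atTop (𝓝 a) := by
  obtain ⟨T, hT, hT'⟩ := IsCompactOperator.image_closedBall_subset_compact (f := a.toLinearMap) ha 1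
  refine Metric.tendsto_nhds.2 fun δ hδ => ?_
  obtain ⟨s, -, hs, hs'⟩ := hT.finite_cover_balls (show 0 < δ / 8 by positivity)
  filter_upwards [(eventually_all_finite hs).2 fun y _ =>
    Metric.tendsto_nhds.1 (hP' y) (δ / 8) (by positivity)] with L hL
  rw [dist_eq_norm]
  refine (opNorm_le_of_unit_norm (by positivity) fun x hx => ?_).trans_lt (half_lt_self hδ)
  obtain ⟨y, hy, hy'⟩ := Set.mem_iUnion₂.1 (hs' (hT' ⟨x, mem_closedBall_zero_iff.2 hx.le, rfl⟩))
  have h1 := hL y hy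
  have h2 := hP L (a x - y)
  have h3 : ‖a x - y‖ < δ / 8 := mem_ball_iff_norm.1 hy'
  rw [dist_eq_norm] at h1
  have : ((P L).comp a - a) x = P L (a x - y) + (P L y - y) - (a x - y) := by simp
  rw [this]
  refine (norm_sub_le _ _).trans ?_
  linarith [norm_add_le (P L (a x - y)) (P L y - y)]

end Pool.Agent.H26.Her4
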