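import Mathlib

set_option autoImplicit false

namespace Pool.Agent.H26.Homog

theorem lift_row {β : Type} (T : β → β → β) (k : ℕ) (h : ∀ r, Function.Bijective (T r))
    (r : β × ZMod k) :
    Function.Bijective (fun c : β × ZMod k => ((T r.1 c.1, r.2 + c.2) : β × ZMod k)) :=
  (h r.1).prodMap (Equiv.addLeft r.2).bijective

theorem lift_col {β : Type} (T : β → β → β) (k : ℕ)
    (h : ∀ c, Function.Bijective (fun r => T r c)) (c : β × ZMod k) :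
    Function.Bijective (fun r : β × ZMod k => ((T r.1 c.1, r.2 + c.2) : β × ZMod k)) :=
  (h c.1).prodMap (Equiv.addRight c.2).bijective

theorem lift_cnt {β : Type} (T : β → β → β) (k : ℕ) (hk : Odd k) (r c : β × ZMod k) :
    Set.ncard {p : (β × ZMod k) × (β × ZMod k) | p.1 ≠ r ∧ p.2 ≠ c ∧
      ((T r.1 c.1, r.2 + c.2) : β × ZMod k) = (T p.1.1 p.2.1, p.1.2 + p.2.2) ∧
      ((T r.1 p.2.1, r.2 + p.2.2) : β × ZMod k) = (T p.1.1 c.1, p.1.2 + c.2)} =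
    Set.ncard {q : β × β | q.1 ≠ r.1 ∧ q.2 ≠ c.1 ∧ T r.1 c.1 = T q.1 q.2 ∧
      T r.1 q.2 = T q.1 c.1} := by
  have hu : IsUnit ((2 : ℕ) : ZMod k) :=
    (ZMod.unitOfCoprime 2 (Nat.coprime_two_left.2 hk)).isUnit
  have hinj : Function.Injective
      (fun q : β × β => (((q.1, r.2), (q.2, c.2)) : (β × ZMod k) × (β × ZMod k))) := by
    rintro ⟨a, b⟩ ⟨a', b'⟩ e
    simp only [Prod.mk.injEq, and_true] at e
    rw [e.1, e.2]
  rw [← Set.ncard_image_of_injective _ hinj]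
  congr 1
  obtain ⟨a, x⟩ := r
  obtain ⟨b, y⟩ := c
  ext ⟨⟨a', x'⟩, ⟨b', y'⟩⟩
  simp only [Set.mem_setOf_eq, Set.mem_image, Prod.mk.injEq, ne_eq, Prod.exists]
  constructor
  · rintro ⟨h1, h2, ⟨h3, h4⟩, h5, h6⟩
    have hy : y = y' := by
      have : ((2 : ℕ) : ZMod k) * y = ((2 : ℕ) : ZMod k) * y' := by
        push_cast
        linear_combination h4 - h6
      exact hu.mul_left_cancel this
    subst hy
    have hx : x = x' := add_right_cancel h4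
    subst hx
    exact ⟨a', b', ⟨fun e => h1 ⟨e, rfl⟩, fun e => h2 ⟨e, rfl⟩, h3, h5⟩, ⟨rfl, rfl⟩, rfl, rfl⟩
  · rintro ⟨a1, b1, ⟨h1, h2, h3, h4⟩, ⟨rfl, rfl⟩, rfl, rfl⟩
    exact ⟨fun e => h1 e.1, fun e => h2 e.1, ⟨h3, rfl⟩, h4, rfl⟩

end Pool.Agent.H26.Homog
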