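import Mathlib
import Pool.Agent.H26.Homog

set_option autoImplicit false

namespace Pool.Agent.H26.Homog12

def T : Fin 12 → Fin 12 → Fin 12 :=
  ![![0, 1, 2, 3, 4, 5, 6, 7, 8, 9, 10, 11],
    ![1, 2, 0, 4, 5, 3, 7, 8, 6, 10, 11, 9],
    ![2, 0, 1, 5, 3, 4, 8, 6, 7, 11, 9, 10],
    ![3, 4, 5, 0, 1, 2, 9, 10, 11, 6, 7, 8],
    ![4, 5, 3, 1, 2, 0, 10, 11, 9, 7, 8, 6],
    ![5, 3, 4, 2, 0, 1, 11, 9, 10, 8, 6, 7],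
    ![6, 8, 7, 11, 10, 9, 2, 1, 0, 3, 5, 4],
    ![8, 7, 6, 10, 9, 11, 1, 0, 2, 5, 4, 3],
    ![7, 6, 8, 9, 11, 10, 0, 2, 1, 4, 3, 5],
    ![11, 10, 9, 7, 6, 8, 4, 3, 5, 2, 1, 0],
    ![9, 11, 10, 8, 7, 6, 5, 4, 3, 0, 2, 1],
    ![10, 9, 11, 6, 8, 7, 3, 5, 4, 1, 0, 2]]

theorem row : ∀ r, Function.Bijective (T r) := by
  decide +kernel

theorem col : ∀ c, Function.Bijective (fun r => T r c) := by
  decide +kernel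

theorem cnt0 : ∀ r c : Fin 12, (Finset.univ.filter (fun q : Fin 12 × Fin 12 =>
    q.1 ≠ r ∧ q.2 ≠ c ∧ T r c = T q.1 q.2 ∧ T r q.2 = T q.1 c)).card = 4 := by
  decide +kernel

theorem cnt (r c : Fin 12) : Set.ncard {q : Fin 12 × Fin 12 |
    q.1 ≠ r ∧ q.2 ≠ c ∧ T r c = T q.1 q.2 ∧ T r q.2 = T q.1 c} = 4 := by
  rw [← cnt0 r c, ← Set.ncard_coe_finset]
  congr 1
  ext q
  simp

end Pool.Agent.H26.Homog12
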