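import Mathlib

set_option autoImplicit false

namespace Pool.Agent.H26.HomogBlk

def nn : Fin 4 → Fin 4 := ![2, 3, 0, 1]
def ss : Fin 4 → Fin 4 := ![1, 0, 3, 2]
def zz : Fin 4 → Fin 4 := ![3, 2, 1, 0]

def blk (m : ℕ) (Q : Fin 4 → Fin 4 → Fin 4) (e : Fin 4 → ℤ) (c : Fin 4 → Fin 4 → ℤ)
    (r s : Fin 4 × ZMod m) : Fin 4 × ZMod m :=
  (Q r.1 s.1, r.2 + (e r.1 : ZMod m) * s.2 + (c r.1 s.1 : ZMod m))

theorem cases4 : ∀ i i' : Fin 4, i' = i ∨ i' = nn i ∨ i' = ss i ∨ i' = zz i := by decide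
theorem ne4 : ∀ i : Fin 4, nn i ≠ i ∧ ss i ≠ i ∧ nn i ≠ ss i := by decide

theorem sq (m : ℕ) (z : ℤ) (h : z = 1 ∨ z = -1) : (z : ZMod m) * (z : ZMod m) = 1 := by
  rcases h with rfl | rfl <;> simp

theorem two (m : ℕ) (hm : Odd m) (a b : ZMod m) (h : 2 * a = 2 * b) : a = b := by
  have hu : IsUnit ((2 : ℕ) : ZMod m) :=
    (ZMod.unitOfCoprime 2 (Nat.coprime_two_left.2 hm)).isUnit
  exact hu.mul_left_cancel (by exact_mod_cast h)

theorem lat (m : ℕ) [NeZero m] (Q : Fin 4 → Fin 4 → Fin 4) (e : Fin 4 → ℤ)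
    (c : Fin 4 → Fin 4 → ℤ) (h1 : ∀ i j j', Q i j = Q i j' → j = j')
    (h2 : ∀ i i' j, Q i j = Q i' j → i = i') (he : ∀ i, e i = 1 ∨ e i = -1) :
    (∀ r, Function.Bijective (fun s => blk m Q e c r s)) ∧
      (∀ s, Function.Bijective (fun r => blk m Q e c r s)) := by
  constructor
  · rintro ⟨i, x⟩
    apply Finite.injective_iff_bijective.1
    rintro ⟨j, y⟩ ⟨j', y'⟩ h
    simp only [blk, Prod.mk.injEq] at h
    obtain rfl := h1 _ _ _ h.1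
    have : y = y' := by
      linear_combination (e i : ZMod m) * h.2 - (y - y') * sq m (e i) (he i)
    rw [this]
  · rintro ⟨j, y⟩
    apply Finite.injective_iff_bijective.1
    rintro ⟨i, x⟩ ⟨i', x'⟩ h
    simp only [blk, Prod.mk.injEq] at h
    obtain rfl := h2 _ _ _ h.1
    have : x = x' := by linear_combination h.2
    rw [this]

theorem cnt (m : ℕ) (hm : Odd m) (h1m : 1 < m) (Q : Fin 4 → Fin 4 → Fin 4) (e : Fin 4 → ℤ)
    (c : Fin 4 → Fin 4 → ℤ) (J : Fin 4 → Fin 4 → Fin 4 → Fin 4)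
    (hJ : ∀ i j i' j', (Q i j = Q i' j' ∧ Q i j' = Q i' j) ↔ j' = J i j i')
    (hJ0 : ∀ i j, J i j i = j) (hJn : ∀ i j i', i' ≠ i → J i j i' ≠ j)
    (he : ∀ i, (e i = 1 ∨ e i = -1) ∧ e (nn i) = e i ∧ e (ss i) = -e i ∧ e (zz i) = -e i)
    (hn : ∀ i j, c (nn i) (J i j (nn i)) - c (nn i) j - c i j + c i (J i j (nn i)) = 0)
    (hs : ∀ i j, c (ss i) (J i j (ss i)) - c (ss i) j - c i j + c i (J i j (ss i)) = 0)
    (hz : ∀ i j, c (zz i) (J i j (zz i)) - c (zz i) j - c i j + c i (J i j (zz i)) = 1 ∨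
      c (zz i) (J i j (zz i)) - c (zz i) j - c i j + c i (J i j (zz i)) = -1)
    (r s : Fin 4 × ZMod m) :
    Set.ncard {p : (Fin 4 × ZMod m) × (Fin 4 × ZMod m) | p.1 ≠ r ∧ p.2 ≠ s ∧
      blk m Q e c r s = blk m Q e c p.1 p.2 ∧ blk m Q e c r p.2 = blk m Q e c p.1 s} = m + 1 := by
  haveI : NeZero m := ⟨by omega⟩
  haveI : Fact (1 < m) := ⟨h1m⟩
  obtain ⟨i, x⟩ := r
  obtain ⟨j, y⟩ := s
  obtain ⟨e0, e1, e2, e3⟩ := he i
  have hE := sq m (e i) e0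
  have kn := congrArg (Int.cast : ℤ → ZMod m) (hn i j)
  have ks := congrArg (Int.cast : ℤ → ZMod m) (hs i j)
  push_cast at kn ks
  let f : ZMod m → (Fin 4 × ZMod m) × (Fin 4 × ZMod m) := fun t =>
    ((ss i, x + (e i : ZMod m) * y + (c i j : ZMod m) + (e i : ZMod m) * t -
      (c (ss i) (J i j (ss i)) : ZMod m)), (J i j (ss i), t))
  have hf : Function.Injective f := fun a b h => (Prod.mk.inj (Prod.mk.inj h).2).2
  have hset : {p : (Fin 4 × ZMod m) × (Fin 4 × ZMod m) | p.1 ≠ (i, x) ∧ p.2 ≠ (j, y) ∧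
      blk m Q e c (i, x) (j, y) = blk m Q e c p.1 p.2 ∧
      blk m Q e c (i, x) p.2 = blk m Q e c p.1 (j, y)} =
      insert ((nn i, x + (c i j : ZMod m) - (c (nn i) (J i j (nn i)) : ZMod m)),
        (J i j (nn i), y)) (Set.range f) := by
    ext ⟨⟨i', x'⟩, ⟨j', y'⟩⟩
    simp only [Set.mem_setOf_eq, blk, Prod.mk.injEq, ne_eq, Set.mem_insert_iff, Set.mem_range, f]
    constructor
    · rintro ⟨a1, a2, ⟨a3, a4⟩, a5, a6⟩
      obtain rfl := (hJ i j i' j').1 ⟨a3, a5⟩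
      rcases cases4 i i' with rfl | rfl | rfl | rfl
      · exfalso
        rw [hJ0] at a2 a4 a6
        exact a2 ⟨rfl, (two m hm y y' (by
          linear_combination (e i' : ZMod m) * (a4 - a6) - 2 * (y - y') * hE)).symm⟩
      · left
        rw [e1] at a4 a6
        have hy : y = y' := two m hm y y' (by
          linear_combination (e i : ZMod m) * (a4 - a6) + (e i : ZMod m) * kn -
            2 * (y - y') * hE)
        subst hy
        exact ⟨⟨rfl, by linear_combination -a4⟩, rfl, rfl⟩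
      · right
        rw [e2] at a4
        push_cast at a4
        exact ⟨y', ⟨rfl, by linear_combination a4⟩, rfl, rfl⟩
      · exfalso
        rw [e3] at a4 a6
        push_cast at a4 a6
        rcases hz i j with kz | kz
        · have k := congrArg (Int.cast : ℤ → ZMod m) kz
          push_cast at k
          exact one_ne_zero (α := ZMod m) (by linear_combination a6 - a4 - k)
        · have k := congrArg (Int.cast : ℤ → ZMod m) kz
          push_cast at k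
          exact one_ne_zero (α := ZMod m) (by linear_combination a4 - a6 + k)
    · rintro (⟨⟨rfl, rfl⟩, rfl, rfl⟩ | ⟨t, ⟨rfl, rfl⟩, rfl, rfl⟩)
      · have q := (hJ i j (nn i) _).2 rfl
        refine ⟨fun h => (ne4 i).1 h.1, fun h => hJn i j _ (ne4 i).1 h.1, ⟨q.1, ?_⟩, q.2, ?_⟩
        · rw [e1]; ring
        · rw [e1]; linear_combination kn
      · have q := (hJ i j (ss i) _).2 rfl
        refine ⟨fun h => (ne4 i).2.1 h.1, fun h => hJn i j _ (ne4 i).2.1 h.1, ⟨q.1, ?_⟩, q.2, ?_⟩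
        · rw [e2]; push_cast; ring
        · rw [e2]; push_cast; linear_combination ks
  rw [hset, Set.ncard_insert_of_notMem, ← Set.image_univ, Set.ncard_image_of_injective _ hf,
    Set.ncard_univ]
  · simp
  · rintro ⟨t, ht⟩
    exact (ne4 i).2.2 (Prod.mk.inj (Prod.mk.inj ht).1).1.symm

def Q1 : Fin 4 → Fin 4 → Fin 4 := ![![0, 1, 2, 3], ![1, 0, 3, 2], ![2, 3, 0, 1], ![3, 2, 1, 0]]
def Q2 : Fin 4 → Fin 4 → Fin 4 := ![![0, 2, 3, 1], ![1, 3, 2, 0], ![2, 0, 1, 3], ![3, 1, 0, 2]]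
def c1 : Fin 4 → Fin 4 → ℤ := ![![0, 0, 0, 0], ![0, 0, -1, -1], ![0, 0, 0, 0], ![0, 0, 1, 1]]
def c2 : Fin 4 → Fin 4 → ℤ := ![![0, 0, 0, 0], ![0, -1, -1, 0], ![0, 0, 0, 0], ![0, 1, 1, 0]]
def J1 : Fin 4 → Fin 4 → Fin 4 → Fin 4 := ![![![0, 1, 2, 3], ![1, 0, 3, 2], ![2, 3, 0, 1], ![3, 2, 1, 0]], ![![1, 0, 3, 2], ![0, 1, 2, 3], ![3, 2, 1, 0], ![2, 3, 0, 1]], ![![2, 3, 0, 1], ![3, 2, 1, 0], ![0, 1, 2, 3], ![1, 0, 3, 2]], ![![3, 2, 1, 0], ![2, 3, 0, 1], ![1, 0, 3, 2], ![0, 1, 2, 3]]]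
def J2 : Fin 4 → Fin 4 → Fin 4 → Fin 4 := ![![![0, 3, 1, 2], ![1, 2, 0, 3], ![2, 1, 3, 0], ![3, 0, 2, 1]], ![![3, 0, 2, 1], ![2, 1, 3, 0], ![1, 2, 0, 3], ![0, 3, 1, 2]], ![![1, 2, 0, 3], ![0, 3, 1, 2], ![3, 0, 2, 1], ![2, 1, 3, 0]], ![![2, 1, 3, 0], ![3, 0, 2, 1], ![0, 3, 1, 2], ![1, 2, 0, 3]]]
def e1 : Fin 4 → ℤ := ![1, -1, 1, -1]
def e2 : Fin 4 → ℤ := ![-1, 1, -1, 1]

theorem orth (m : ℕ) (hm : Odd m) : Function.Injective
    (fun p : (Fin 4 × ZMod m) × (Fin 4 × ZMod m) =>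
      (blk m Q1 e1 c1 p.1 p.2, blk m Q2 e2 c2 p.1 p.2)) := by
  rintro ⟨⟨i, x⟩, j, y⟩ ⟨⟨i', x'⟩, j', y'⟩ h
  simp only [blk, Prod.mk.injEq] at h
  obtain ⟨⟨a1, a2⟩, a3, a4⟩ := h
  have q : ∀ i j i' j', Q1 i j = Q1 i' j' → Q2 i j = Q2 i' j' → i = i' ∧ j = j' := by
    decide +kernel
  obtain ⟨rfl, rfl⟩ := q _ _ _ _ a1 a3
  have q2 : ∀ i, e2 i = -e1 i ∧ (e1 i = 1 ∨ e1 i = -1) := by decide +kernel
  rw [(q2 i).1] at a4
  push_cast at a4
  have hx : x = x' := two m hm x x' (by linear_combination a2 + a4)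
  subst hx
  have hy : y = y' := by
    linear_combination (e1 i : ZMod m) * a2 - (y - y') * sq m (e1 i) (q2 i).2
  rw [hy]

end Pool.Agent.H26.HomogBlk
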