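import Mathlib

open MeasureTheory ProbabilityTheory Filter Topology

namespace Pool.Agent.H26.IID

noncomputable abbrev mu : Measure ℝ := volume.restrict (Set.Icc (0 : ℝ) 1)

instance : IsProbabilityMeasure mu := ⟨by simp⟩

theorem exists_iid {Y : Type*} [MeasurableSpace Y] [StandardBorelSpace Y] [Nonempty Y]
    (ν : Measure Y) [IsProbabilityMeasure ν] :
    ∃ U : ℕ → ℝ → Y, (∀ n, MeasurePreserving (U n) mu ν) ∧ iIndepFun U mu := by
  obtain ⟨f, hf, hf'⟩ := (Measure.infinitePi fun _ : ℕ => ν).exists_measurable_map_eq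
  have hp : Measurable (Set.projIcc (0 : ℝ) 1 zero_le_one) := continuous_projIcc.measurable
  have h1 : MeasurePreserving (Set.projIcc (0 : ℝ) 1 zero_le_one) mu volume := by
    refine ⟨hp, ?_⟩
    rw [mu, ← unitInterval.measurePreserving_coe.map_eq,
      Measure.map_map hp measurable_subtype_coe]
    have : (Set.projIcc (0 : ℝ) 1 zero_le_one) ∘ ((↑) : unitInterval → ℝ) = id := by
      ext x; simp
    rw [this, Measure.map_id]
  have h2 : MeasurePreserving (f ∘ Set.projIcc (0 : ℝ) 1 zero_le_one) mu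
      (Measure.infinitePi fun _ : ℕ => ν) := (⟨hf, hf'⟩ : MeasurePreserving f _ _).comp h1
  have h3 : ∀ n, MeasurePreserving (fun t => (f ∘ Set.projIcc (0 : ℝ) 1 zero_le_one) t n) mu ν :=
    fun n => (measurePreserving_eval_infinitePi (fun _ : ℕ => ν) n).comp h2
  refine ⟨fun n t => (f ∘ Set.projIcc (0 : ℝ) 1 zero_le_one) t n, h3, ?_⟩
  rw [iIndepFun_iff_map_fun_eq_infinitePi_map fun n => (h3 n).measurable]
  simp only [fun n => (h3 n).map_eq]
  exact h2.map_eq

theorem weak_null {Ω : Type*} [MeasurableSpace Ω] {μ : Measure Ω} [IsProbabilityMeasure μ]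
    (X : ℕ → Ω → ℝ) (hm : ∀ n, Measurable (X n)) (C : ℝ) (hC : ∀ n ω, |X n ω| ≤ C)
    (h0 : ∀ n, ∫ ω, X n ω ∂μ = 0) (hi : Pairwise fun i j => X i ⟂ᵢ[μ] X j)
    (hX : ∀ n, MemLp (X n) 1 μ) (x : Lp ℝ 1 μ →L[ℝ] ℝ) :
    Tendsto (fun n => x ((hX n).toLp _)) atTop (𝓝 0) := by
  set a : ℕ → ℝ := fun n => x ((hX n).toLp _) with ha
  have h2 : ∀ n, MemLp (X n) 2 μ := fun n =>
    MemLp.of_bound (hm n).aestronglyMeasurable C (Eventually.of_forall (hC n))
  set l := C ^ 2 * ‖x‖ + 1 with hl
  have hl0 : 0 < l := by positivity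
  have key : ∀ N, ∑ n ∈ Finset.range N, a n ^ 2 ≤ ‖x‖ * l := by
    intro N
    set A := ∑ n ∈ Finset.range N, a n ^ 2 with hA
    have hA0 : 0 ≤ A := Finset.sum_nonneg fun n _ => sq_nonneg _
    set Y : Ω → ℝ := ∑ n ∈ Finset.range N, fun ω => a n * X n ω with hY
    have hY2 : MemLp Y 2 μ := memLp_finsetSum' _ fun n _ => (h2 n).const_mul _
    have hY1 : MemLp Y 1 μ := hY2.mono_exponent (by norm_num)
    have e1 : hY1.toLp Y = ∑ n ∈ Finset.range N, a n • (hX n).toLp _ := by
      apply Lp.ext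
      have h3 : ∀ᵐ ω ∂μ, ∀ n, (a n • (hX n).toLp _ : Lp ℝ 1 μ) ω = a n * X n ω := by
        rw [ae_all_iff]
        intro n
        filter_upwards [Lp.coeFn_smul (a n) ((hX n).toLp _), (hX n).coeFn_toLp] with ω h1 h2
        rw [h1, Pi.smul_apply, h2, smul_eq_mul]
      filter_upwards [hY1.coeFn_toLp, Lp.coeFn_finsetSum (Finset.range N)
        (fun n => a n • (hX n).toLp _), h3] with ω h1 h2 h3
      rw [h1, h2, hY]
      simp only [Finset.sum_apply, h3]
    have e2 : x (hY1.toLp Y) = A := by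
      rw [e1, map_sum, hA]
      refine Finset.sum_congr rfl fun n _ => ?_
      rw [map_smul, smul_eq_mul, sq]
    have e3 : ∫ ω, Y ω ∂μ = 0 := by
      simp only [hY, Finset.sum_apply]
      rw [integral_finsetSum _ fun n _ => (((h2 n).integrable (by norm_num)).const_mul _)]
      simp [integral_const_mul, h0]
    have e4 : ∫ ω, Y ω ^ 2 ∂μ ≤ C ^ 2 * A := by
      rw [← variance_of_integral_eq_zero hY2.aemeasurable e3, hY,
        IndepFun.variance_sum (fun n _ => (h2 n).const_mul _) (fun i _ j _ hij =>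
          (hi hij).comp (measurable_const_mul (a i)) (measurable_const_mul (a j))), hA,
        Finset.mul_sum]
      refine Finset.sum_le_sum fun n _ => ?_
      rw [variance_const_mul, mul_comm]
      refine mul_le_mul_of_nonneg_right ?_ (sq_nonneg _)
      have := variance_le_sq_of_bounded (μ := μ) (a := -C) (b := C)
        (Eventually.of_forall fun ω => abs_le.1 (hC n ω)) (hm n).aemeasurable
      refine this.trans (le_of_eq ?_)
      ring
    have e5 : ‖hY1.toLp Y‖ ≤ (C ^ 2 * A / l + l) / 2 := by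
      rw [L1.norm_eq_integral_norm, integral_congr_ae (hY1.coeFn_toLp.mono fun ω h => by rw [h])]
      have h4 : Integrable (fun ω => Y ω ^ 2) μ := hY2.integrable_sq
      calc ∫ ω, ‖Y ω‖ ∂μ ≤ ∫ ω, (Y ω ^ 2 / l + l) / 2 ∂μ := by
            refine integral_mono (memLp_one_iff_integrable.1 hY1).norm
              (((h4.div_const _).add (integrable_const _)).div_const _) fun ω => ?_
            beta_reduce
            rw [Real.norm_eq_abs, le_div_iff₀ two_pos, div_add' _ _ _ hl0.ne', le_div_iff₀ hl0,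
              ← sq_abs (Y ω)]
            nlinarith [sq_nonneg (|Y ω| - l)]
        _ = ((∫ ω, Y ω ^ 2 ∂μ) / l + l) / 2 := by
            rw [integral_div, integral_add (h4.div_const _) (integrable_const _), integral_div]
            simp
        _ ≤ _ := by gcongr
    have e6 := x.le_opNorm (hY1.toLp Y)
    rw [e2, Real.norm_of_nonneg hA0] at e6
    have e7 := mul_le_mul_of_nonneg_left e5 (norm_nonneg x)
    have e8 : ‖x‖ * (C ^ 2 * A / l) ≤ A := by
      rw [← mul_div_assoc, div_le_iff₀ hl0, hl]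
      nlinarith
    nlinarith
  have hs : Summable fun n => a n ^ 2 := summable_of_sum_range_le (fun n => sq_nonneg _) key
  have := hs.tendsto_atTop_zero.sqrt
  simp only [Real.sqrt_sq_eq_abs, Real.sqrt_zero] at this
  exact (tendsto_zero_iff_abs_tendsto_zero _).2 this

end Pool.Agent.H26.IID
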