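import Mathlib

open Filter Topology

namespace Pool.Agent.H26.InvSC

variable {X : Type*} [NormedAddCommGroup X] [NormedSpace ℝ X]

lemma kak (W D : X →L[ℝ] X) (hc : W * D = D * W) (hU : ‖W + D‖ ≤ 1) (hV : ‖W - D‖ ≤ 1)
    (hW : ‖W‖ ≤ 1) (n : ℕ) :
    ∀ c : ℝ, ‖c • W ^ (n + 1) + (n : ℝ) • (D * W ^ n)‖ ^ 2 ≤ c ^ 2 + n := by
  induction n with
  | zero =>
    intro c
    simp only [zero_add, pow_one, Nat.cast_zero, zero_smul, add_zero, norm_smul, Real.norm_eq_abs]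
    rw [← sq_abs c]
    exact pow_le_pow_left₀ (by positivity) (mul_le_of_le_one_right (abs_nonneg c) hW) 2
  | succ n ih =>
    intro c
    have h1 := ih (c + 1)
    have h2 := ih (c - 1)
    set A := (c + 1) • W ^ (n + 1) + (n : ℝ) • (D * W ^ n) with hA
    set B := (c - 1) • W ^ (n + 1) + (n : ℝ) • (D * W ^ n) with hB
    have e : c • W ^ (n + 1 + 1) + ((n + 1 : ℕ) : ℝ) • (D * W ^ (n + 1))
        = (1 / 2 : ℝ) • ((W + D) * A + (W - D) * B) := by
      have e1 : W * (D * W ^ n) = D * W ^ (n + 1) := by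
        rw [← mul_assoc, hc, mul_assoc, ← pow_succ']
      simp only [hA, hB, add_mul, sub_mul, mul_add, mul_smul_comm, e1, ← pow_succ']
      push_cast
      module
    rw [e, norm_smul]
    have h3 : ‖(W + D) * A + (W - D) * B‖ ≤ ‖A‖ + ‖B‖ := by
      refine (norm_add_le _ _).trans (add_le_add ?_ ?_)
      · exact (norm_mul_le _ _).trans (mul_le_of_le_one_left (norm_nonneg _) hU)
      · exact (norm_mul_le _ _).trans (mul_le_of_le_one_left (norm_nonneg _) hV)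
    have h4 : ‖(1 / 2 : ℝ)‖ = 1 / 2 := by norm_num
    rw [h4]
    have h5 : (1 / 2 * ‖(W + D) * A + (W - D) * B‖) ^ 2 ≤ (1 / 2 * (‖A‖ + ‖B‖)) ^ 2 :=
      pow_le_pow_left₀ (by positivity) (by linarith) 2
    push_cast
    nlinarith [sq_nonneg (‖A‖ - ‖B‖)]

lemma pow_close (W : X →L[ℝ] X) (hW : ‖W‖ ≤ 1) (m : X) (n : ℕ) :
    ‖(W ^ n) m - m‖ ≤ n * ‖W m - m‖ := by
  induction n with
  | zero => simp
  | succ n ih =>
    have e : (W ^ (n + 1)) m - m = W ((W ^ n) m - m) + (W m - m) := by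
      rw [pow_succ', map_sub]; simp
    rw [e]
    have h1 : ‖W ((W ^ n) m - m)‖ ≤ ‖(W ^ n) m - m‖ :=
      (W.le_opNorm _).trans (mul_le_of_le_one_left (norm_nonneg _) hW)
    have := norm_add_le (W ((W ^ n) m - m)) (W m - m)
    rw [Nat.cast_succ]
    linarith

lemma extreme (x y : X)
    (h : ∀ ε : ℝ, 0 < ε → ∃ U V : X →L[ℝ] X, U * V = V * U ∧ ‖U‖ ≤ 1 ∧ ‖V‖ ≤ 1 ∧
      ‖U (x + y) - (2 : ℝ) • x‖ ≤ ε ∧ ‖V (x + y) - (2 : ℝ) • y‖ ≤ ε) : x = y := by
  set m := x + y with hm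
  have key : ∀ n : ℕ, 1 ≤ n → (n : ℝ) * ‖x - y‖ ^ 2 ≤ ‖m‖ ^ 2 := by
    intro n hn
    have hn0 : (0 : ℝ) < n := by exact_mod_cast hn
    have h1 : ‖x - y‖ ≤ ‖m‖ / √n := by
      refine le_of_forall_pos_le_add fun δ hδ => ?_
      obtain ⟨U, V, hc, hU, hV, h1, h2⟩ := h (δ / (n + 1)) (by positivity)
      set W := (1 / 2 : ℝ) • (U + V) with hW
      set D := (1 / 2 : ℝ) • (U - V) with hD
      have e1 : W + D = U := by rw [hW, hD]; module
      have e2 : W - D = V := by rw [hW, hD]; module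
      have h4 : ‖(1 / 2 : ℝ)‖ = 1 / 2 := by norm_num
      have hWn : ‖W‖ ≤ 1 := by
        rw [hW, norm_smul, h4]; linarith [norm_add_le U V]
      have hDn : ‖D‖ ≤ 1 := by
        rw [hD, norm_smul, h4]; linarith [norm_sub_le U V]
      have hc' : W * D = D * W := by
        simp only [hW, hD, smul_mul_smul_comm, add_mul, mul_add, sub_mul, mul_sub, hc]
        module
      have k := kak W D hc' (e1 ▸ hU) (e2 ▸ hV) hWn n 0
      simp only [zero_smul, zero_add, norm_smul, Real.norm_natCast, ne_eq, OfNat.ofNat_ne_zero,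
        not_false_eq_true, zero_pow] at k
      have k2 : ‖D * W ^ n‖ ≤ 1 / √n := by
        rw [le_div_iff₀ (Real.sqrt_pos.2 hn0)]
        refine (sq_le_one_iff₀ (by positivity)).1 ?_
        rw [mul_pow, Real.sq_sqrt hn0.le]
        have : (n : ℝ) * (‖D * W ^ n‖ ^ 2 * n) ≤ n * 1 := by nlinarith
        exact le_of_mul_le_mul_left this hn0
      have k3 : ‖D ((W ^ n) m)‖ ≤ ‖m‖ / √n := by
        have := (D * W ^ n).le_opNorm m
        calc _ ≤ ‖D * W ^ n‖ * ‖m‖ := this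
          _ ≤ 1 / √n * ‖m‖ := mul_le_mul_of_nonneg_right k2 (norm_nonneg _)
          _ = _ := by ring
      have k4 : ‖W m - m‖ ≤ δ / (n + 1) := by
        have : W m - m = (1 / 2 : ℝ) • ((U m - (2 : ℝ) • x) + (V m - (2 : ℝ) • y)) := by
          rw [hW]
          simp only [smul_apply, add_apply]
          rw [hm]; module
        rw [this, norm_smul, h4]
        linarith [norm_add_le (U m - (2 : ℝ) • x) (V m - (2 : ℝ) • y)]
      have k5 : ‖D m - (x - y)‖ ≤ δ / (n + 1) := by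
        have : D m - (x - y) = (1 / 2 : ℝ) • ((U m - (2 : ℝ) • x) - (V m - (2 : ℝ) • y)) := by
          rw [hD]
          simp only [smul_apply, sub_apply]
          module
        rw [this, norm_smul, h4]
        linarith [norm_sub_le (U m - (2 : ℝ) • x) (V m - (2 : ℝ) • y)]
      have k6 : ‖D ((W ^ n) m - m)‖ ≤ n * (δ / (n + 1)) :=
        ((D.le_opNorm _).trans (mul_le_of_le_one_left (norm_nonneg _) hDn)).trans
          ((pow_close W hWn m n).trans (mul_le_mul_of_nonneg_left k4 hn0.le))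
      have e3 : x - y = D ((W ^ n) m) - D ((W ^ n) m - m) - (D m - (x - y)) := by
        rw [map_sub]; abel
      have e4 : (n : ℝ) * (δ / (n + 1)) + δ / (n + 1) = δ := by field_simp
      have := norm_sub_le (D ((W ^ n) m) - D ((W ^ n) m - m)) (D m - (x - y))
      have := norm_sub_le (D ((W ^ n) m)) (D ((W ^ n) m - m))
      rw [e3]
      linarith
    rw [le_div_iff₀ (Real.sqrt_pos.2 hn0)] at h1
    have h2 := pow_le_pow_left₀ (by positivity) h1 2
    rw [mul_pow, Real.sq_sqrt hn0.le] at h2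
    linarith
  by_contra hne
  have hp : 0 < ‖x - y‖ ^ 2 := pow_pos (norm_pos_iff.2 (sub_ne_zero.2 hne)) 2
  obtain ⟨n, hn⟩ := exists_nat_gt (‖m‖ ^ 2 / ‖x - y‖ ^ 2)
  have := key (n + 1) (by omega)
  rw [div_lt_iff₀ hp] at hn
  push_cast at this
  nlinarith

noncomputable def qf (S : Submodule ℝ (X →L[ℝ] X)) (m : X) (ε : ℝ) (z : X) : ℝ :=
  ⨅ U : S, (ε * ‖(U : X →L[ℝ] X)‖ + ‖z - (U : X →L[ℝ] X) m‖)

lemma qf_le (S : Submodule ℝ (X →L[ℝ] X)) (m : X) {ε : ℝ} (hε : 0 < ε) (z : X)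
    {U : X →L[ℝ] X} (hU : U ∈ S) : qf S m ε z ≤ ε * ‖U‖ + ‖z - U m‖ :=
  ciInf_le ⟨0, by rintro _ ⟨V, rfl⟩; positivity⟩ (⟨U, hU⟩ : S)

lemma qf_nonneg (S : Submodule ℝ (X →L[ℝ] X)) (m : X) {ε : ℝ} (hε : 0 < ε) (z : X) :
    0 ≤ qf S m ε z := le_ciInf fun _ => by positivity

lemma qf_norm (S : Submodule ℝ (X →L[ℝ] X)) (m : X) {ε : ℝ} (hε : 0 < ε) (z : X) :
    qf S m ε z ≤ ‖z‖ := by simpa using qf_le S m hε z S.zero_mem

noncomputable def qs (S : Submodule ℝ (X →L[ℝ] X)) (m : X) {ε : ℝ} (hε : 0 < ε) : Seminorm ℝ X :=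
  Seminorm.ofSMulLE (qf S m ε)
    (le_antisymm (by simpa using qf_norm S m hε 0) (qf_nonneg S m hε 0))
    (fun x y => by
      refine le_ciInf_add_ciInf fun U V => (qf_le S m hε _ (S.add_mem U.2 V.2)).trans ?_
      have h1 := mul_le_mul_of_nonneg_left (norm_add_le (U : X →L[ℝ] X) V) hε.le
      have h2 : x + y - ((U : X →L[ℝ] X) + V) m = (x - (U : X →L[ℝ] X) m) +
          (y - (V : X →L[ℝ] X) m) := by
        rw [add_apply]; abel
      rw [h2]
      have := norm_add_le (x - (U : X →L[ℝ] X) m) (y - (V : X →L[ℝ] X) m)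
      linarith)
    (fun c x => by
      unfold qf
      rw [Real.mul_iInf_of_nonneg (norm_nonneg c)]
      refine le_ciInf fun U => (qf_le S m hε _ (S.smul_mem c U.2)).trans (le_of_eq ?_)
      rw [smul_apply, ← smul_sub, norm_smul, norm_smul]
      ring)

def bic (A : Set (X →L[ℝ] X)) : Submodule ℝ (X →L[ℝ] X) where
  carrier := {U | ∀ V, (∀ T ∈ A, V * T = T * V) → V * U = U * V}
  add_mem' := fun {U U'} h h' V hV => by rw [mul_add, add_mul, h V hV, h' V hV]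
  zero_mem' := fun V _ => by simp
  smul_mem' := fun c U h V hV => by rw [mul_smul_comm, smul_mul_assoc, h V hV]

lemma separate (A : Set (X →L[ℝ] X)) (hA : ∀ T ∈ A, ∀ T' ∈ A, T * T' = T' * T)
    (hn : ∀ T ∈ A, ‖T‖ ≤ 1) (x y : X) (hne : x ≠ y) :
    ∃ q : Seminorm ℝ X, (∀ z, q z ≤ ‖z‖) ∧ (∀ T ∈ A, ∀ z, q (T z) ≤ q z) ∧
      q (x + y) ^ 2 < 2 * q x ^ 2 + 2 * q y ^ 2 := by
  by_contra hc
  push Not at hc
  refine hne (extreme x y fun δ hδ => ?_)
  set m := x + y with hm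
  set ε := min 1 (δ / (2 + ‖m‖)) with hε
  have hε0 : 0 < ε := lt_min one_pos (by positivity)
  have hε1 : ε ≤ 1 := min_le_left _ _
  have hε2 : ε * (2 + ‖m‖) ≤ δ := (le_div_iff₀ (by positivity)).1 (min_le_right _ _)
  have hinv : ∀ T ∈ A, ∀ z, qs (bic A) m hε0 (T z) ≤ qs (bic A) m hε0 z := by
    intro T hT z
    refine le_ciInf fun U => ?_
    have hTU : T * (U : X →L[ℝ] X) ∈ bic A := fun V hV => by
      rw [← mul_assoc, hV T hT, mul_assoc, U.2 V hV, mul_assoc]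
    refine (qf_le (bic A) m hε0 _ hTU).trans (add_le_add ?_ ?_)
    · exact mul_le_mul_of_nonneg_left ((norm_mul_le _ _).trans
        (mul_le_of_le_one_left (norm_nonneg _) (hn T hT))) hε0.le
    · rw [mul_apply_eq_comp, ← map_sub]
      exact (T.le_opNorm _).trans (mul_le_of_le_one_left (norm_nonneg _) (hn T hT))
  have h1 := hc (qs (bic A) m hε0) (qf_norm _ m hε0) hinv
  set q := qs (bic A) m hε0 with hq
  have h2 : q m ≤ ε := by
    have h3 : (1 : X →L[ℝ] X) ∈ bic A := fun V _ => by simp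
    refine (qf_le (bic A) m hε0 m h3).trans ?_
    have : ‖(1 : X →L[ℝ] X)‖ ≤ 1 := ContinuousLinearMap.norm_id_le
    simp only [one_apply_eq_self, sub_self, norm_zero, add_zero]
    nlinarith
  have h3 : q m ≤ q x + q y := map_add_le_add q x y
  have hx0 := apply_nonneg q x
  have hy0 := apply_nonneg q y
  have hm0 := apply_nonneg q m
  have h4 : q x = q y := by
    have : (q x - q y) ^ 2 ≤ 0 := by nlinarith
    have := pow_eq_zero_iff (two_ne_zero) |>.1 (le_antisymm this (sq_nonneg _))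
    linarith
  have h5 : 2 * q x ≤ q m := by
    refine abs_le_of_sq_le_sq' ?_ hm0 |>.2
    rw [← h4] at h1
    nlinarith
  have key : ∀ z : X, 2 * q z ≤ ε → ∃ U ∈ bic A, ‖U‖ ≤ 1 ∧ ‖U m - (2 : ℝ) • z‖ ≤ δ := by
    intro z hz
    have h6 : qf (bic A) m ε ((2 : ℝ) • z) < ε * (1 + ε) := by
      have : q ((2 : ℝ) • z) = 2 * q z := by rw [map_smul_eq_mul]; norm_num
      have h7 : qf (bic A) m ε ((2 : ℝ) • z) = q ((2 : ℝ) • z) := rfl
      nlinarith [mul_pos hε0 hε0]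
    obtain ⟨U, hU⟩ := exists_lt_of_ciInf_lt h6
    have h7 : ‖(U : X →L[ℝ] X)‖ ≤ 1 + ε := by
      have : ε * ‖(U : X →L[ℝ] X)‖ ≤ ε * (1 + ε) := by
        linarith [norm_nonneg ((2 : ℝ) • z - (U : X →L[ℝ] X) m)]
      exact le_of_mul_le_mul_left this hε0
    have h8 : ‖(2 : ℝ) • z - (U : X →L[ℝ] X) m‖ ≤ 2 * ε := by
      nlinarith [mul_nonneg hε0.le (norm_nonneg (U : X →L[ℝ] X))]
    have hp : 0 < 1 + ε := by linarith
    have h9 : ‖(1 + ε)⁻¹ • (U : X →L[ℝ] X)‖ ≤ 1 := by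
      rw [norm_smul, Real.norm_of_nonneg (inv_pos.2 hp).le, inv_mul_le_iff₀ hp]
      linarith
    refine ⟨(1 + ε)⁻¹ • (U : X →L[ℝ] X), (bic A).smul_mem _ U.2, h9, ?_⟩
    have e : ((1 + ε)⁻¹ • (U : X →L[ℝ] X)) m - (2 : ℝ) • z =
        -(((2 : ℝ) • z - (U : X →L[ℝ] X) m) + ε • ((1 + ε)⁻¹ • (U : X →L[ℝ] X)) m) := by
      simp only [smul_apply, smul_smul]
      have : (1 + ε)⁻¹ = 1 - ε * (1 + ε)⁻¹ := by field_simp; ring
      nth_rewrite 1 [this]
      module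
    rw [e, norm_neg]
    have h10 : ‖ε • ((1 + ε)⁻¹ • (U : X →L[ℝ] X)) m‖ ≤ ε * ‖m‖ := by
      rw [norm_smul, Real.norm_of_nonneg hε0.le]
      exact mul_le_mul_of_nonneg_left ((ContinuousLinearMap.le_opNorm _ _).trans
        (mul_le_of_le_one_left (norm_nonneg _) h9)) hε0.le
    have := norm_add_le ((2 : ℝ) • z - (U : X →L[ℝ] X) m)
      (ε • ((1 + ε)⁻¹ • (U : X →L[ℝ] X)) m)
    linarith
  obtain ⟨U, hU, hU1, hU2⟩ := key x (by linarith)
  obtain ⟨V, hV, hV1, hV2⟩ := key y (by linarith)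
  refine ⟨U, V, hV U fun T hT => (hU T fun T' hT' => hA T hT T' hT').symm, hU1, hV1, hU2, hV2⟩

theorem build [TopologicalSpace.SeparableSpace X] (P : Seminorm ℝ X → Prop) (hP0 : P 0)
    (hP : ∀ q, P q → ∀ z, q z ≤ ‖z‖)
    (hs : ∀ x y : X, x ≠ y → ∃ q, P q ∧ q (x + y) ^ 2 < 2 * q x ^ 2 + 2 * q y ^ 2) :
    ∃ N : X → ℝ, (∀ x y : X, N (x + y) ≤ N x + N y) ∧
      (∀ (r : ℝ) (x : X), N (r • x) = |r| * N x) ∧
      (∀ x : X, ‖x‖ ≤ N x ∧ N x ≤ 2 * ‖x‖) ∧
      (∀ x y : X, ‖x‖ = ‖y‖ → (∀ q, P q → q x = q y) → N x = N y) ∧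
      (∀ x y : X, N x = 1 → N y = 1 → x ≠ y → N (x + y) < 2) := by
  have : SecondCountableTopology X := UniformSpace.secondCountable_of_separable X
  let O : {q // P q} → Set (X × X) := fun q =>
    {p | q.1 (p.1 + p.2) ^ 2 < 2 * q.1 p.1 ^ 2 + 2 * q.1 p.2 ^ 2}
  have hO : ∀ q, IsOpen (O q) := by
    intro q
    have hc : Continuous q.1 := by
      refine Seminorm.continuous_of_le (q := normSeminorm ℝ X) continuous_norm ?_
      exact fun z => hP q.1 q.2 z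
    exact isOpen_lt (by fun_prop) (by fun_prop)
  obtain ⟨s, hs1, hs2⟩ := TopologicalSpace.isOpen_iUnion_countable O hO
  obtain ⟨f, hf⟩ := (hs1.insert ⟨0, hP0⟩).exists_eq_range (Set.insert_nonempty _ _)
  have hsep : ∀ x y : X, x ≠ y → ∃ k, (x, y) ∈ O (f k) := by
    intro x y h
    obtain ⟨q, hq, hq'⟩ := hs x y h
    have h1 : (x, y) ∈ ⋃ i, O i := Set.mem_iUnion.2 ⟨⟨q, hq⟩, hq'⟩
    rw [← hs2] at h1
    obtain ⟨i, hi, hi'⟩ := Set.mem_iUnion₂.1 h1
    obtain ⟨k, hk⟩ : i ∈ Set.range f := hf ▸ Set.mem_insert_of_mem _ hi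
    exact ⟨k, hk ▸ hi'⟩
  let g : ℕ → X → ℝ := fun k x => (1 / 2 : ℝ) ^ k * (f k).1 x ^ 2
  have hg0 : ∀ k x, 0 ≤ g k x := fun k x => by positivity
  have hg1 : ∀ k x, g k x ≤ (1 / 2 : ℝ) ^ k * ‖x‖ ^ 2 := fun k x =>
    mul_le_mul_of_nonneg_left (pow_le_pow_left₀ (apply_nonneg _ _) (hP _ (f k).2 x) 2)
      (by positivity)
  have hsum : ∀ x, Summable fun k => g k x := fun x =>
    Summable.of_nonneg_of_le (hg0 · x) (hg1 · x) (summable_geometric_two.mul_right _)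
  let Q : X → ℝ := fun x => ‖x‖ ^ 2 + ∑' k, g k x
  have hQ1 : ∀ x, ‖x‖ ^ 2 ≤ Q x := fun x => le_add_of_nonneg_right (tsum_nonneg (hg0 · x))
  have hQ0 : ∀ x, 0 ≤ Q x := fun x => (sq_nonneg _).trans (hQ1 x)
  have hQ2 : ∀ x, Q x ≤ (2 * ‖x‖) ^ 2 := fun x => by
    have := (hsum x).tsum_le_tsum (hg1 · x) (summable_geometric_two.mul_right _)
    rw [tsum_mul_right, tsum_geometric_two] at this
    simp only [Q]
    nlinarith [sq_nonneg ‖x‖]
  have hel : ∀ a b c s t : ℝ, 0 ≤ c → c ≤ a + b → 0 < s → 0 < t →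
      s * t * c ^ 2 ≤ (s + t) * t * a ^ 2 + (s + t) * s * b ^ 2 := by
    intro a b c s t h0 h1 h2 h3
    have := mul_le_mul_of_nonneg_left (pow_le_pow_left₀ h0 h1 2) (mul_pos h2 h3).le
    nlinarith [sq_nonneg (t * a - s * b)]
  have hQ3 : ∀ (x y : X) (s t : ℝ), 0 < s → 0 < t →
      s * t * Q (x + y) ≤ (s + t) * t * Q x + (s + t) * s * Q y := by
    intro x y s t h2 h3
    have h4 := hel _ _ _ s t (norm_nonneg _) (norm_add_le x y) h2 h3
    have h5 := ((hsum (x + y)).mul_left (s * t)).tsum_le_tsum (fun k => by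
      have := mul_le_mul_of_nonneg_left (hel _ _ _ s t (apply_nonneg _ _)
        (map_add_le_add (f k).1 x y) h2 h3) (by positivity : 0 ≤ (1 / 2 : ℝ) ^ k)
      simp only [g]
      linarith) (((hsum x).mul_left ((s + t) * t)).add ((hsum y).mul_left ((s + t) * s)))
    rw [((hsum x).mul_left _).tsum_add ((hsum y).mul_left _), tsum_mul_left, tsum_mul_left,
      tsum_mul_left] at h5
    simp only [Q]
    linarith
  have hN1 : ∀ x, ‖x‖ ≤ √(Q x) := fun x => Real.le_sqrt_of_sq_le (hQ1 x)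
  refine ⟨fun x => √(Q x), fun x y => ?_, fun r x => ?_, fun x => ⟨hN1 x, ?_⟩, fun x y h1 h2 => ?_,
    fun x y hx hy hne => ?_⟩
  · by_cases hx : x = 0
    · simp [hx]
    by_cases hy : y = 0
    · simp [hy]
    have h2 : 0 < √(Q x) := (norm_pos_iff.2 hx).trans_le (hN1 x)
    have h3 : 0 < √(Q y) := (norm_pos_iff.2 hy).trans_le (hN1 y)
    have h4 := hQ3 x y _ _ h2 h3
    refine Real.sqrt_le_iff.2 ⟨by positivity, ?_⟩
    have h5 := Real.sq_sqrt (hQ0 x)
    have h6 := Real.sq_sqrt (hQ0 y)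
    set s := √(Q x)
    set t := √(Q y)
    rw [← h5, ← h6] at h4
    have : s * t * Q (x + y) ≤ s * t * (s + t) ^ 2 := by nlinarith
    exact le_of_mul_le_mul_left this (mul_pos h2 h3)
  · have : Q (r • x) = r ^ 2 * Q x := by
      simp only [Q, g, norm_smul, map_smul_eq_mul, Real.norm_eq_abs, mul_pow, sq_abs, mul_add]
      rw [← tsum_mul_left]
      congr 2
      ext k
      ring
    beta_reduce
    rw [this, Real.sqrt_mul (sq_nonneg r), Real.sqrt_sq_eq_abs]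
  · exact Real.sqrt_le_iff.2 ⟨by positivity, hQ2 x⟩
  · simp only [Q, g, h1, fun k => h2 _ (f k).2]
  · beta_reduce at hx hy ⊢
    rw [Real.sqrt_eq_one] at hx hy
    rw [Real.sqrt_lt' two_pos]
    obtain ⟨k, hk⟩ := hsep x y hne
    have h4 := hel _ _ _ 1 1 (norm_nonneg _) (norm_add_le x y) one_pos one_pos
    have h5 := Summable.tsum_lt_tsum (f := fun k => g k (x + y))
      (g := fun k => 2 * g k x + 2 * g k y) (i := k) (fun j => by
        have := mul_le_mul_of_nonneg_left (hel _ _ _ 1 1 (apply_nonneg _ _)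
          (map_add_le_add (f j).1 x y) one_pos one_pos) (by positivity : 0 ≤ (1 / 2 : ℝ) ^ j)
        simp only [g]
        linarith) (by
        have := mul_lt_mul_of_pos_left hk (by positivity : 0 < (1 / 2 : ℝ) ^ k)
        simp only [g]
        linarith) (hsum _) (((hsum x).mul_left 2).add ((hsum y).mul_left 2))
    rw [((hsum x).mul_left _).tsum_add ((hsum y).mul_left _), tsum_mul_left, tsum_mul_left] at h5
    simp only [Q] at hx hy ⊢
    linarith

end Pool.Agent.H26.InvSC
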