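import Mathlib

set_option autoImplicit false

namespace Pool.Agent.H26.Link

structure HM : Type 1 where
  B : Type
  E : Type
  [cB : NonUnitalCStarAlgebra B]
  [pB : PartialOrder B]
  [sB : StarOrderedRing B]
  [nE : NormedAddCommGroup E]
  [vE : NormedSpace ℂ E]
  [cE : CompleteSpace E]
  [mE : SMul B E]
  [hE : CStarModule B E]

attribute [instance] HM.cB HM.pB HM.sB HM.nE HM.vE HM.cE HM.mE HM.hE

variable (M : HM)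

def X : Type := WithCStarModule M.B (M.B × M.E)

noncomputable instance : NormedAddCommGroup (X M) :=
  inferInstanceAs (NormedAddCommGroup (WithCStarModule M.B (M.B × M.E)))

noncomputable instance : NormedSpace ℂ (X M) :=
  inferInstanceAs (NormedSpace ℂ (WithCStarModule M.B (M.B × M.E)))

abbrev CL (Y : Type) [NormedAddCommGroup Y] [NormedSpace ℂ Y] : Type := Y →L[ℂ] Y

abbrev Sub : Type := Submodule ℂ M.E

def cspan {Y : Type} [NormedAddCommGroup Y] [NormedSpace ℂ Y] (S : Set Y) : Set Y :=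
  closure (Submodule.span ℂ S : Set Y)

variable {M}

def ip (x y : M.E) : M.B := inner M.B x y

def fst (v : X M) : M.B := Prod.fst v

def snd (v : X M) : M.E := Prod.snd v

def BF (F : Sub M) : Set M.B := cspan {b | ∃ x ∈ F, ∃ y ∈ F, b = ip x y}

def KF (F : Sub M) : Set (CL M.E) := cspan {k | ∃ x ∈ F, ∃ y ∈ F, ∀ z, k z = ip y z • x}

def IsBlk (T : CL (X M)) (b : M.B) (y x : M.E) (k : CL M.E) : Prop :=
  ∀ v, fst (T v) = fst v * b + ip y (snd v) ∧ snd (T v) = fst v • x + k (snd v)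

def L (F : Sub M) : Set (CL (X M)) :=
  {T | ∃ b ∈ BF F, ∃ y ∈ F, ∃ x ∈ F, ∃ k ∈ KF F, IsBlk T b y x k}

def Tern (F : Sub M) : Prop :=
  IsClosed (F : Set M.E) ∧ ∀ x ∈ F, ∀ y ∈ F, ∀ z ∈ F, ip y z • x ∈ F

def TernHer (F : Sub M) : Prop := ∀ x ∈ F, ∀ y, ∀ z ∈ F, ip y z • x ∈ F

def LinkHer (F : Sub M) : Prop := ∀ S ∈ L F, ∀ T ∈ L (⊤ : Sub M), ∀ U ∈ L F, S * T * U ∈ L F

def CondExp (F : Sub M) (Φ : CL (X M) → CL (X M)) : Prop :=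
  (∀ S ∈ L (⊤ : Sub M), ∀ T ∈ L (⊤ : Sub M), ∀ c : ℂ, Φ (S + c • T) = Φ S + c • Φ T) ∧
    (∀ T ∈ L (⊤ : Sub M), Φ T ∈ L F ∧ ‖Φ T‖ ≤ ‖T‖) ∧ ∀ T ∈ L F, Φ T = T

def Blockwise (F : Sub M) (Φ : CL (X M) → CL (X M)) : Prop :=
  (∀ T, ∀ b ∈ BF (⊤ : Sub M), IsBlk T b 0 0 0 → ∃ b' ∈ BF F, IsBlk (Φ T) b' 0 0 0) ∧
    (∀ T y, IsBlk T 0 y 0 0 → ∃ y' ∈ F, IsBlk (Φ T) 0 y' 0 0) ∧
    (∀ T x, IsBlk T 0 0 x 0 → ∃ x' ∈ F, IsBlk (Φ T) 0 0 x' 0) ∧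
    ∀ T, ∀ k ∈ KF (⊤ : Sub M), IsBlk T 0 0 0 k → ∃ k' ∈ KF F, IsBlk (Φ T) 0 0 0 k'

def Extends (F : Sub M) (P : M.E → M.E) : Prop :=
  ∃ Φ, CondExp F Φ ∧ Blockwise F Φ ∧ ∀ T x, IsBlk T 0 0 x 0 → IsBlk (Φ T) 0 0 (P x) 0

def IdemOnto (F : Sub M) (P : M.E → M.E) : Prop :=
  IsLinearMap ℂ P ∧ (∀ x, P x ∈ F) ∧ ∀ x ∈ F, P x = x

end Pool.Agent.H26.Link
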