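import Pool.Agent.H26.Link0

set_option autoImplicit false

open Filter Topology BoundedContinuousFunction

namespace Pool.Agent.H26.Link

abbrev A0 := ℕ →ᵇ ℂ

noncomputable instance : PartialOrder A0 := CStarAlgebra.spectralOrder A0

instance : StarOrderedRing A0 := CStarAlgebra.spectralOrderedRing A0

def I0 : Submodule ℂ A0 where
  carrier := {f | Tendsto f atTop (𝓝 0)}
  add_mem' := fun ha hb => by
    have := Tendsto.add ha hb
    rw [add_zero] at this
    exact this
  zero_mem' := tendsto_const_nhds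
  smul_mem' := fun c f hf => by simpa using Tendsto.const_mul c hf

theorem I0_closed : IsClosed (I0 : Set A0) := by
  refine isClosed_of_closure_subset fun f hf => ?_
  refine Metric.tendsto_atTop.2 fun ε hε => ?_
  obtain ⟨g, hg, hd⟩ := Metric.mem_closure_iff.1 hf (ε / 2) (by positivity)
  obtain ⟨N, hN⟩ := Metric.tendsto_atTop.1 hg (ε / 2) (by positivity)
  refine ⟨N, fun n hn => ?_⟩
  have h1 := dist_coe_le_dist (f := f) (g := g) n
  have h2 := dist_triangle (f n) (g n) 0
  linarith [hN n hn]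

theorem I0_mul (a : A0) {f : A0} (hf : f ∈ I0) : a * f ∈ I0 := by
  have h : Tendsto (fun n => ‖a‖ * ‖f n‖) atTop (𝓝 0) := by
    simpa using (tendsto_zero_iff_norm_tendsto_zero.1 hf).const_mul ‖a‖
  refine squeeze_zero_norm (fun n => ?_) h
  simp only [coe_mul, Pi.mul_apply, norm_mul]
  exact mul_le_mul_of_nonneg_right (a.norm_coe_le_norm n) (norm_nonneg _)

instance : CompleteSpace I0 := I0_closed.completeSpace_coe

noncomputable instance : SMul A0 I0 := ⟨fun a f => ⟨a * f, I0_mul a f.2⟩⟩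

noncomputable instance : CStarModule A0 I0 where
  inner x y := (y : A0) * star (x : A0)
  inner_add_right := add_mul ..
  inner_self_nonneg := mul_star_self_nonneg _
  inner_self := by
    intro x
    rw [CStarRing.mul_star_self_eq_zero_iff]; simp
  inner_op_smul_right := mul_assoc ..
  inner_smul_right_complex := smul_mul_assoc ..
  star_inner x y := by simp [mul_comm]
  norm_eq_sqrt_norm_inner_self x := by
    rw [CStarRing.norm_self_mul_star, Real.sqrt_mul_self (norm_nonneg _)]; rfl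

noncomputable def M0 : HM where
  B := A0
  E := WithCStarModule A0 (A0 × I0)

def p1 (v : M0.E) : A0 := Prod.fst v
def p2 (v : M0.E) : I0 := Prod.snd v
def mk (a : A0) (f : I0) : M0.E := (a, f)

theorem ip_eq (u v : M0.E) : ip u v = p1 v * star (p1 u) + (p2 v : A0) * star (p2 u : A0) := rfl

theorem ext0 {u v : M0.E} (h1 : p1 u = p1 v) (h2 : p2 u = p2 v) : u = v := Prod.ext h1 h2

noncomputable def F0 : Sub M0 where
  carrier := {v | p1 v = 0}
  add_mem' := fun {a b} ha hb => by
    show p1 a + p1 b = 0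
    rw [show p1 a = 0 from ha, show p1 b = 0 from hb, add_zero]
  zero_mem' := rfl
  smul_mem' := fun c a ha => by
    show c • p1 a = 0
    rw [show p1 a = 0 from ha, smul_zero]

noncomputable def P0 (v : M0.E) : M0.E := mk 0 (p2 v)

theorem tern0 : Tern F0 := by
  refine ⟨?_, fun x hx y _ z _ => ?_⟩
  · exact isClosed_eq (continuous_fst.comp
      (WithCStarModule.equivL ℂ (A := A0) (E := A0 × I0)).continuous) continuous_const
  · exact (congrArg (fun t : A0 => (show A0 from ip y z) * t) hx).trans (mul_zero _)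

theorem idem0 : IdemOnto F0 P0 :=
  ⟨⟨fun _ _ => ext0 (add_zero _).symm rfl, fun _ _ => ext0 (smul_zero _).symm rfl⟩,
    fun _ => rfl, fun _ hx => ext0 (Eq.symm hx) rfl⟩

theorem norm0 (v : M0.E) : ‖P0 v‖ ≤ ‖v‖ := by
  have h1 := (le_max_right _ _).trans (WithCStarModule.max_le_prod_norm (A := A0) (E := A0) (F := I0) v)
  have h2 := WithCStarModule.prod_norm_le_norm_add (A := A0) (E := A0) (F := I0) (P0 v)
  have h3 : ‖p1 (P0 v)‖ = 0 := norm_zero
  exact h2.trans ((add_le_add h3.le h1).trans (zero_add _).le)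

theorem ident0 (x y z : M0.E) : P0 (ip y (P0 z) • P0 x) = ip (P0 y) (P0 z) • P0 x := by
  have e : ip y (P0 z) = ip (P0 y) (P0 z) := by
    rw [ip_eq, ip_eq]
    show 0 * _ + _ = 0 * _ + _
    rw [zero_mul, zero_mul]; rfl
  rw [e]
  exact ext0 (mul_zero _).symm rfl

variable {M : HM}

def xm (b : M.B) (z : M.E) : X M := (b, z)

theorem nfst (v : X M) : ‖fst v‖ ≤ ‖v‖ :=
  (le_max_left _ _).trans (WithCStarModule.max_le_prod_norm (A := M.B) (E := M.B) (F := M.E) v)

theorem nxm (b : M.B) : ‖xm b (0 : M.E)‖ ≤ ‖b‖ :=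
  (WithCStarModule.prod_norm_le_norm_add (A := M.B) (E := M.B) (F := M.E) (xm b 0)).trans
    (by show ‖b‖ + ‖(0 : M.E)‖ ≤ _; simp)

noncomputable def Tb (b : M.B) : CL (X M) := LinearMap.mkContinuous
  { toFun := fun v => xm (fst v * b) 0
    map_add' := fun u v => Prod.ext (add_mul _ _ _) (add_zero _).symm
    map_smul' := fun c v => Prod.ext (smul_mul_assoc _ _ _) (smul_zero _).symm } ‖b‖ fun v =>
  (nxm _).trans ((norm_mul_le _ _).trans
    (by rw [mul_comm]; exact mul_le_mul_of_nonneg_left (nfst v) (norm_nonneg _)))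

theorem smul_zero0 (a : M.B) : a • (0 : M.E) = 0 :=
  (CStarModule.inner_self (A := M.B)).1 (by simp)

theorem Tb_blk (b : M.B) : IsBlk (Tb b) b 0 0 0 := fun v =>
  ⟨by simp [ip]; rfl, by rw [smul_zero0]; simp; rfl⟩

theorem Tb_norm (b : M.B) : ‖Tb b‖ ≤ ‖b‖ := LinearMap.mkContinuous_norm_le _ (norm_nonneg _) _

theorem Tb_add (a b : M.B) (c : ℂ) : Tb (a + c • b) = Tb a + c • Tb b := by
  ext1 v
  refine Prod.ext ?_ ?_
  · show fst v * (a + c • b) = fst v * a + c • (fst v * b)
    rw [mul_add, mul_smul_comm]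
  · show (0 : M.E) = 0 + c • 0
    simp

theorem sub_cspan {Y : Type} [NormedAddCommGroup Y] [NormedSpace ℂ Y] {S : Set Y} {y : Y}
    (h : y ∈ S) : y ∈ cspan S := subset_closure (Submodule.subset_span h)

theorem zero_cspan {Y : Type} [NormedAddCommGroup Y] [NormedSpace ℂ Y] {S : Set Y} :
    (0 : Y) ∈ cspan S := subset_closure (Submodule.zero_mem _)

theorem cspan_le {Y : Type} [NormedAddCommGroup Y] [NormedSpace ℂ Y] {S : Set Y}
    (W : Submodule ℂ Y) (hW : IsClosed (W : Set Y)) (h : S ⊆ W) : cspan S ⊆ W :=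
  closure_minimal (Submodule.span_le.2 h) hW

theorem Tb_mem {F : Sub M} {b : M.B} (h : b ∈ BF F) : Tb b ∈ L F :=
  ⟨b, h, 0, F.zero_mem, 0, F.zero_mem, 0, zero_cspan, Tb_blk b⟩

theorem not_ext (P : M0.E → M0.E) : ¬ Extends F0 P := by
  rintro ⟨Φ, ⟨h1, h2, h3⟩, ⟨h4, -⟩, -⟩
  have full : ∀ b : A0, b ∈ BF (⊤ : Sub M0) := fun b =>
    sub_cspan ⟨mk 1 0, trivial, mk b 0, trivial, by
      rw [ip_eq]; show b = b * star 1 + 0 * _; simp⟩
  have small : ∀ b ∈ BF F0, b ∈ I0 := fun b hb => cspan_le I0 I0_closed (by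
    rintro _ ⟨x, hx, y, -, rfl⟩
    rw [ip_eq, show p1 x = 0 from hx, star_zero, mul_zero, zero_add, mul_comm]
    exact I0_mul _ (p2 y).2) hb
  let ev : CL (X M0) → A0 := fun T => fst (T (xm (1 : A0) 0))
  have evn : ∀ T, ‖ev T‖ ≤ ‖T‖ := fun T => (nfst _).trans ((T.le_opNorm _).trans
    (mul_le_of_le_one_right (norm_nonneg _) ((nxm _).trans (norm_one (α := A0)).le)))
  have evb : ∀ T (b : A0), IsBlk T b 0 0 0 → ev T = b := fun T b h => by
    have := (h (xm (1 : A0) 0)).1
    rw [show ip (0 : M0.E) (snd (xm (1 : A0) 0)) = 0 by simp [ip], add_zero] at this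
    exact this.trans (one_mul b)
  obtain ⟨u, hu, hu2⟩ : ∃ u : A0, u ∈ BF F0 ∧ IsBlk (Φ (Tb (M := M0) (1 : A0))) u 0 0 0 :=
    h4 _ (1 : A0) (full 1) (Tb_blk _)
  have key : ∀ n, u n = 1 := by
    intro n
    let e : A0 := ofNormedAddCommGroupDiscrete (Pi.single n 1) 1 fun m => by
      by_cases h : m = n <;> simp [Pi.single_apply, h]
    have he : ∀ m, e m = if m = n then 1 else 0 := fun m => Pi.single_apply _ _ _
    have heI : e ∈ I0 := tendsto_const_nhds.congr' ((eventually_gt_atTop n).mono fun m hm => by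
      rw [he, if_neg hm.ne'])
    have heF : e ∈ BF F0 := sub_cspan ⟨mk 0 ⟨e, heI⟩, rfl, mk 0 ⟨e, heI⟩, rfl, by
      rw [ip_eq]
      show e = 0 * _ + e * star e
      ext m
      by_cases h : m = n <;> simp [he, h]⟩
    have hc : ∀ c : ℂ, ‖1 + c‖ ≤ 1 → ‖u n + c‖ ≤ 1 := by
      intro c hc
      have k1 := h1 _ (Tb_mem (full 1)) _ (Tb_mem (full e)) c
      rw [h3 _ (Tb_mem heF), ← Tb_add] at k1
      have k2 := ((evn _).trans (h2 _ (Tb_mem (full (1 + c • e)))).2).trans (Tb_norm _)
      have k3 : ev (Φ (Tb (M := M0) ((1 : A0) + c • e))) = u + c • e := by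
        refine (congrArg ev k1).trans ?_
        refine Eq.trans (b := ev (Φ (Tb (M := M0) (1 : A0))) + c • ev (Tb (M := M0) e)) rfl ?_
        rw [evb _ _ hu2, evb _ _ (Tb_blk (M := M0) e)]
      rw [k3] at k2
      have k4 : ‖(1 : A0) + c • e‖ ≤ 1 := (norm_le zero_le_one).2 fun m => by
        by_cases h : m = n <;> simp [he, h, hc]
      have k5 := (u + c • e).norm_coe_le_norm n
      have k6 : (u + c • e) n = u n + c := by simp [he]
      rw [k6] at k5
      exact k5.trans (k2.trans k4)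
    have a1 := hc 0 (by simp)
    have a2 := hc (-2) (by norm_num)
    set w := u n
    rw [add_zero, ← sq_le_one_iff₀ (norm_nonneg _), Complex.sq_norm, Complex.normSq_apply] at a1
    rw [← sq_le_one_iff₀ (norm_nonneg _), Complex.sq_norm, Complex.normSq_apply] at a2
    simp at a2
    apply Complex.ext <;> simp <;> nlinarith [sq_nonneg w.im, sq_nonneg (w.re - 1)]
  have : Tendsto u atTop (𝓝 0) := small u hu
  rw [show (u : ℕ → ℂ) = fun _ => 1 from funext key] at this
  simpa using tendsto_nhds_unique this tendsto_const_nhds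

end Pool.Agent.H26.Link
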