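import Pool.Agent.H26.Link1

set_option autoImplicit false

open Filter Topology CStarModule

namespace Pool.Agent.H26.Link

theorem cind {Y Z : Type} [NormedAddCommGroup Y] [NormedSpace ℂ Y] [NormedAddCommGroup Z]
    [NormedSpace ℂ Z] {S : Set Y} (f : Y → Z) (hf : Continuous f)
    (ha : ∀ a b, f (a + b) = f a + f b) (hs : ∀ (c : ℂ) y, ∃ d : ℂ, f (c • y) = d • f y)
    (W : Submodule ℂ Z) (hW : IsClosed (W : Set Z)) (h : ∀ y ∈ S, f y ∈ W) :
    ∀ y ∈ cspan S, f y ∈ W := by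
  have h0 : f 0 = 0 := by simpa using ha 0 0
  let V : Submodule ℂ Y :=
    { carrier := f ⁻¹' W
      add_mem' := fun {a b} p q => by show f (a + b) ∈ W; rw [ha]; exact W.add_mem p q
      zero_mem' := by show f 0 ∈ W; rw [h0]; exact W.zero_mem
      smul_mem' := fun c a p => by
        show f (c • a) ∈ W
        obtain ⟨d, hd⟩ := hs c a
        rw [hd]; exact W.smul_mem d p }
  exact fun y hy => cspan_le V (hW.preimage hf) h hy

def cs {Y : Type} [NormedAddCommGroup Y] [NormedSpace ℂ Y] (S : Set Y) : Submodule ℂ Y :=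
  (Submodule.span ℂ S).topologicalClosure

theorem cs_closed {Y : Type} [NormedAddCommGroup Y] [NormedSpace ℂ Y] (S : Set Y) :
    IsClosed (cs S : Set Y) := isClosed_closure

variable {M : HM}

theorem ext_ip {u v : M.E} (h : ∀ w, ip w u = ip w v) : u = v := by
  rw [← sub_eq_zero, ← inner_self (A := M.B), CStarModule.inner_sub_right, sub_eq_zero]
  exact h _

theorem ip_add (w u v : M.E) : ip w (u + v) = ip w u + ip w v := by simp [ip]
theorem add_ip (w u v : M.E) : ip (u + v) w = ip u w + ip v w := by simp [ip]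
theorem ip_sm (w u : M.E) (a : M.B) : ip w (a • u) = a * ip w u := by simp [ip]
theorem sm_ip (w u : M.E) (a : M.B) : ip (a • u) w = ip u w * star a := by simp [ip]
theorem ip_c (w u : M.E) (c : ℂ) : ip w (c • u) = c • ip w u := by simp [ip]
theorem c_ip (w u : M.E) (c : ℂ) : ip (c • u) w = star c • ip u w := by simp [ip]
theorem star_ip (w u : M.E) : star (ip w u) = ip u w := by simp [ip]

theorem add_sm (a b : M.B) (x : M.E) : (a + b) • x = a • x + b • x :=
  ext_ip fun w => by simp [ip_sm, ip_add, add_mul]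
theorem sm_add (a : M.B) (x y : M.E) : a • (x + y) = a • x + a • y :=
  ext_ip fun w => by simp [ip_sm, ip_add, mul_add]
theorem mul_sm (a b : M.B) (x : M.E) : (a * b) • x = a • b • x :=
  ext_ip fun w => by simp [ip_sm, mul_assoc]
theorem c_sm (c : ℂ) (a : M.B) (x : M.E) : (c • a) • x = c • a • x :=
  ext_ip fun w => by simp [ip_sm, ip_c, smul_mul_assoc]
theorem sm_c (c : ℂ) (a : M.B) (x : M.E) : a • c • x = c • a • x :=
  ext_ip fun w => by simp [ip_sm, ip_c, mul_smul_comm]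

theorem norm_sm (a : M.B) (x : M.E) : ‖a • x‖ ≤ ‖a‖ * ‖x‖ := by
  refine abs_le_of_sq_le_sq' ?_ (by positivity) |>.2
  rw [norm_sq_eq M.B, mul_pow, norm_sq_eq M.B (x := x), inner_op_smul_right, inner_op_smul_left]
  calc _ ≤ ‖a‖ * (‖inner M.B x x‖ * ‖star a‖) := (norm_mul_le _ _).trans
        (mul_le_mul_of_nonneg_left (norm_mul_le _ _) (norm_nonneg _))
    _ = _ := by rw [norm_star]; ring

noncomputable def SM : M.B →L[ℂ] M.E →L[ℂ] M.E :=
  LinearMap.mkContinuous₂ (LinearMap.mk₂ ℂ (fun a x => a • x) add_sm c_sm sm_add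
    fun c a x => sm_c c a x) 1 fun a x => by simpa using norm_sm a x

theorem SM_apply (a : M.B) (x : M.E) : SM a x = a • x := rfl

noncomputable def J : M.E →L⋆[ℂ] M.E →L[ℂ] M.B := innerSL

theorem J_apply (x y : M.E) : J x y = ip x y := rfl

@[fun_prop]
theorem cont_sm {α : Type} [TopologicalSpace α] {f : α → M.B} {g : α → M.E} (hf : Continuous f)
    (hg : Continuous g) : Continuous fun t => f t • g t :=
  (SM.continuous.comp hf).clm_apply hg

@[fun_prop]
theorem cont_ip {α : Type} [TopologicalSpace α] {f g : α → M.E} (hf : Continuous f)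
    (hg : Continuous g) : Continuous fun t => ip (f t) (g t) :=
  (J.continuous.comp hf).clm_apply hg

noncomputable def th (x y : M.E) : CL M.E := (SM.flip x).comp (J y)

theorem th_apply (x y z : M.E) : th x y z = ip y z • x := rfl

theorem shrink (z : M.E) : ∃ t : ℝ, ‖z - (t : ℂ) • (ip z z • z)‖ ≤ 1 / 2 * ‖z‖ := by
  by_cases hz : z = 0
  · exact ⟨0, by simp [hz]⟩
  set a : M.B := ip z z with ha
  have a0 : 0 ≤ a := inner_self_nonneg
  have hn : ‖z‖ ^ 2 = ‖a‖ := norm_sq_eq M.B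
  have hp : 0 < ‖a‖ := by rw [← hn]; have := norm_pos_iff.2 hz; positivity
  refine ⟨‖a‖⁻¹, abs_le_of_sq_le_sq' ?_ (by positivity) |>.2⟩
  set t := ‖a‖⁻¹ with ht
  have e : inner M.B (z - (t : ℂ) • (a • z)) (z - (t : ℂ) • (a • z)) =
      cfcₙ (fun s : ℝ => s - (2 * t) • (s * s) + (t * t) • (s * (s * s))) a := by
    have sa : IsSelfAdjoint a := a0.isSelfAdjoint
    rw [cfcₙ_add (fun s : ℝ => s - (2 * t) • (s * s)) _ a, cfcₙ_sub (fun s : ℝ => s) _ a,
      cfcₙ_smul (2 * t) (fun s : ℝ => s * s) a, cfcₙ_smul (t * t) (fun s : ℝ => s * (s * s)) a,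
      cfcₙ_mul (fun s : ℝ => s) (fun s : ℝ => s * s) a,
      cfcₙ_mul (fun s : ℝ => s) (fun s : ℝ => s) a, cfcₙ_id' ℝ a]
    have h1 : inner M.B z z = a := rfl
    simp only [CStarModule.inner_sub_left, CStarModule.inner_sub_right, inner_smul_left_complex, inner_smul_right_complex,
      inner_op_smul_left, inner_op_smul_right, h1, sa.star_eq, Complex.star_def,
      Complex.conj_ofReal, Complex.coe_smul, inner_smul_left_real, inner_smul_right_real,
      mul_smul_comm, smul_smul, smul_sub, mul_sub]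
    module
  rw [norm_sq_eq M.B, e, mul_pow, hn]
  refine norm_cfcₙ_le fun s hs => ?_
  have s0 : 0 ≤ s := quasispectrum_nonneg_of_nonneg a a0 s hs
  have s1 : s ≤ ‖a‖ := (le_abs_self s).trans (by
    simpa [cfcₙ_id' ℝ a] using norm_apply_le_norm_cfcₙ (fun s : ℝ => s) a hs)
  have s2 : t * s ≤ 1 := by rw [ht, inv_mul_le_iff₀ hp]; linarith
  have s3 : 0 ≤ t * s := by positivity
  have e2 : s - (2 * t) • (s * s) + (t * t) • (s * (s * s)) =
      ‖a‖ * ((t * s) * (1 - t * s) ^ 2) := by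
    simp only [smul_eq_mul, ht]; field_simp; ring
  rw [e2, Real.norm_of_nonneg (by positivity), mul_comm]
  refine mul_le_mul_of_nonneg_right ?_ hp.le
  nlinarith [sq_nonneg (t * s - 1 / 2), mul_nonneg s3 (sub_nonneg.2 s2),
    mul_nonneg (mul_nonneg s3 s3) (sub_nonneg.2 s2)]

theorem approx {F : Sub M} (hF : Tern F) {z : M.E} (hz : z ∈ F) :
    z ∈ cspan {w | ∃ p ∈ F, ∃ q ∈ F, ∃ r ∈ F, w = ip q r • p} := by
  set G := Submodule.span ℂ {w : M.E | ∃ p ∈ F, ∃ q ∈ F, ∃ r ∈ F, w = ip q r • p} with hG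
  have key : ∀ n : ℕ, ∀ z ∈ F, ∃ g ∈ G, ‖z - g‖ ≤ (1 / 2) ^ n * ‖z‖ := by
    intro n
    induction n with
    | zero => exact fun z _ => ⟨0, G.zero_mem, by simp⟩
    | succ n ih =>
      intro z hz
      obtain ⟨t, ht⟩ := shrink z
      obtain ⟨g, hg, hg2⟩ := ih _ (F.sub_mem hz (F.smul_mem (t : ℂ) (hF.2 z hz z hz z hz)))
      refine ⟨(t : ℂ) • (ip z z • z) + g, G.add_mem (G.smul_mem _
        (Submodule.subset_span ⟨z, hz, z, hz, z, hz, rfl⟩)) hg, ?_⟩
      rw [← sub_sub, pow_succ, mul_assoc]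
      exact hg2.trans (mul_le_mul_of_nonneg_left ht (by positivity))
  choose! g hg hg2 using fun n => key n z hz
  refine mem_closure_of_tendsto (f := g) (b := atTop) ?_ (Eventually.of_forall hg)
  rw [tendsto_iff_norm_sub_tendsto_zero]
  refine squeeze_zero (fun _ => norm_nonneg _) (fun n => (norm_sub_rev _ _).le.trans (hg2 n)) ?_
  simpa using (tendsto_pow_atTop_nhds_zero_of_lt_one (r := (1 / 2 : ℝ)) (by norm_num)
    (by norm_num)).mul_const ‖z‖

theorem star_BF {F : Sub M} : ∀ b ∈ BF F, star b ∈ BF F :=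
  cind star continuous_star star_add (fun c y => ⟨star c, star_smul c y⟩) (cs _) (cs_closed _)
    (by rintro _ ⟨x, hx, y, hy, rfl⟩; exact sub_cspan ⟨y, hy, x, hx, star_ip _ _⟩)

theorem kmod {G : Sub M} {k : CL M.E} (hk : k ∈ KF G) (a : M.B) (t : M.E) :
    k (a • t) = a • k t := by
  have := cind (fun k : CL M.E => k (a • t) - a • k t) (by fun_prop)
    (fun p q => by simp only [ContinuousLinearMap.add_apply, sm_add]; abel)
    (fun c y => ⟨c, by simp [sm_c, smul_sub]⟩) ⊥ (by simp)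
    (by rintro k ⟨x, -, y, -, h⟩; simp [h, ip_sm, mul_sm]) k hk
  exact sub_eq_zero.1 this

def Jm (F : Sub M) : Submodule ℂ (M.E →L[ℂ] M.B) where
  carrier := J '' F
  add_mem' := by rintro _ _ ⟨a, ha, rfl⟩ ⟨b, hb, rfl⟩; exact ⟨a + b, F.add_mem ha hb, map_add _ _ _⟩
  zero_mem' := ⟨0, F.zero_mem, map_zero _⟩
  smul_mem' := by
    rintro c _ ⟨a, ha, rfl⟩
    exact ⟨star c • a, F.smul_mem _ ha, by ext z; simp [J_apply, c_ip]⟩

theorem Jm_closed {F : Sub M} (h : IsClosed (F : Set M.E)) :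
    IsClosed (Jm F : Set (M.E →L[ℂ] M.B)) := by
  have ha : AntilipschitzWith 1 (J (M := M)) := AddMonoidHomClass.antilipschitz_of_bound _ fun x => by
    by_cases hx : x = 0
    · simp [hx]
    have h1 := (J x).le_opNorm x
    have h2 : ‖x‖ ^ 2 = ‖J x x‖ := norm_sq_eq M.B
    have h3 := norm_pos_iff.2 hx
    simp only [NNReal.coe_one, one_mul]
    nlinarith
  exact (ha.isClosedEmbedding (J (M := M)).lipschitz.uniformContinuous).isClosedMap _ h

section
variable {F : Sub M} (hF : Tern F) (h : TernHer F)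
include hF h

theorem P1 {b : M.B} (hb : b ∈ BF F) (a : M.B) {z : M.E} (hz : z ∈ F) : (b * a) • z ∈ F :=
  cind (fun b => (b * a) • z) (by fun_prop) (fun p q => by rw [add_mul, add_sm])
    (fun c y => ⟨c, by rw [smul_mul_assoc, c_sm]⟩) F hF.1 (by
      rintro _ ⟨u, -, v, hv, rfl⟩
      have := h z hz (star a • u) v hv
      rwa [sm_ip, star_star] at this) b hb

omit hF h in
theorem gen {u v : M.E} (hu : u ∈ F) (hv : v ∈ F) : ip u v ∈ BF F := sub_cspan ⟨u, hu, v, hv, rfl⟩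

theorem Q2 {k : CL M.E} (hk : k ∈ KF (⊤ : Sub M)) {x u w : M.E} (hx : x ∈ F) (hw : w ∈ F) :
    ip u (k x) • w ∈ F :=
  cind (fun k : CL M.E => ip u (k x) • w) (by fun_prop) (fun p q => by simp [ip_add, add_sm])
    (fun c y => ⟨c, by simp [ip_c, c_sm]⟩) F hF.1 (by
      rintro k ⟨a, -, c, -, e⟩
      have := h w hw (ip a u • c) x hx
      rwa [sm_ip, star_ip, ← ip_sm, ← e] at this) k hk

omit hF h in
theorem G1 {β b : M.B} (hβ : ∀ w ∈ F, β • w ∈ F) (hb : b ∈ BF F) : β * b ∈ BF F :=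
  cind (fun b => β * b) (by fun_prop) (mul_add β) (fun c y => ⟨c, mul_smul_comm _ _ _⟩)
    (cs _) (cs_closed _) (by
      rintro _ ⟨u, hu, v, hv, rfl⟩
      rw [← ip_sm]; exact gen hu (hβ v hv)) b hb

omit h in
theorem H1 {ξ u : M.E} (hξ : ∀ u ∈ F, ∀ w ∈ F, ip u ξ • w ∈ F) (hu : u ∈ F) : ip u ξ ∈ BF F := by
  rw [← star_ip]
  exact star_BF _ (cind (fun u => ip ξ u) (by fun_prop) (ip_add ξ) (fun c y => ⟨c, ip_c _ _ _⟩)
    (cs _) (cs_closed _) (by
      rintro _ ⟨p, hp, q, hq, r, hr, rfl⟩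
      rw [ip_sm, ← star_ip p ξ, ← sm_ip]
      exact gen (hξ p hp q hq) hr) u (approx hF hu))

omit h in
theorem K1 {ξ : M.E} (hξ : ∀ u ∈ F, ∀ w ∈ F, ip u ξ • w ∈ F) {k : CL M.E} (hk : k ∈ KF F) :
    k ξ ∈ F :=
  cind (fun k : CL M.E => k ξ) (by fun_prop) (fun _ _ => rfl) (fun c _ => ⟨c, rfl⟩) F hF.1 (by
    rintro k ⟨a, ha, c, hc, e⟩
    rw [e]; exact hξ c hc a ha) k hk

omit h in
theorem D1 (φ : M.E →L[ℂ] M.B) (h1 : ∀ (a : M.B) t, φ (a • t) = a * φ t)
    (h2 : ∀ u ∈ F, ∀ w ∈ F, star (φ u) • w ∈ F) {k : CL M.E} (hk : k ∈ KF F) :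
    ∃ w ∈ F, ∀ z, ip w z = φ (k z) := by
  obtain ⟨w, hw, e⟩ := cind (fun k : CL M.E => φ.comp k) (by fun_prop)
    (fun p q => by ext; simp) (fun c y => ⟨c, by ext; simp⟩) (Jm F) (Jm_closed hF.1) (by
      rintro k ⟨a, ha, c, hc, e⟩
      refine ⟨_, h2 a ha c hc, ?_⟩
      ext z
      simp [J_apply, sm_ip, e, h1]) k hk
  exact ⟨w, hw, fun z => congrArg (fun T : M.E →L[ℂ] M.B => T z) e⟩

omit hF h in
theorem E1 (ψ : CL M.E) (h1 : ∀ (a : M.B) t, ψ (a • t) = a • ψ t) (h2 : ∀ u ∈ F, ψ u ∈ F)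
    {k : CL M.E} (hk : k ∈ KF F) : ψ.comp k ∈ KF F :=
  cind (fun k : CL M.E => ψ.comp k) (by fun_prop)
    (fun p q => by ext; simp) (fun c y => ⟨c, by ext; simp⟩) (cs _) (cs_closed _) (by
      rintro k ⟨a, ha, c, hc, e⟩
      exact sub_cspan ⟨_, h2 a ha, c, hc, fun z => by simp [e, h1]⟩) k hk

omit h in
theorem E2 {ρ y : M.E} (hρ : ∀ u ∈ F, ∀ v ∈ F, ip u v • ρ ∈ F) (hy : y ∈ F) : th ρ y ∈ KF F :=
  cind (fun y => th ρ y) (continuous_const.clm_comp J.continuous)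
    (fun p q => by ext; simp [th_apply, add_ip, add_sm])
    (fun c y => ⟨star c, by ext; simp [th_apply, c_ip, c_sm]⟩) (cs _) (cs_closed _) (by
      rintro _ ⟨p, hp, q, hq, r, hr, rfl⟩
      exact sub_cspan ⟨_, hρ r hr q hq, p, hp, fun z => by
        rw [th_apply, sm_ip, star_ip, mul_sm]⟩) y (approx hF hy)

theorem her : LinkHer F := by
  rintro S ⟨b1, hb1, y1, hy1, x1, hx1, k1, hk1, hS⟩ T ⟨b, -, y, -, x, -, k, hk, hT⟩
    U ⟨b3, hb3, y3, hy3, x3, hx3, k3, hk3, hU⟩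
  have q1 : ∀ w ∈ F, (b3 * b + ip y x3) • w ∈ F := fun w hw => by
    rw [add_sm]; exact F.add_mem (P1 hF h hb3 b hw) (h w hw y x3 hx3)
  have q2 : ∀ u ∈ F, ∀ w ∈ F, ip u (b3 • x + k x3) • w ∈ F := fun u _ w hw => by
    rw [ip_add, add_sm, ip_sm]; exact F.add_mem (P1 hF h hb3 _ hw) (Q2 hF h hk hx3 hw)
  obtain ⟨w, hw, ew⟩ := D1 hF (((ContinuousLinearMap.mul ℂ M.B).flip b1).comp (J y) +
    (J y1).comp k) (fun a t => by simp [J_apply, ip_sm, kmod hk, mul_add, mul_assoc])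
    (fun u hu w hw => by
      simp only [ContinuousLinearMap.add_apply, ContinuousLinearMap.comp_apply, J_apply,
        ContinuousLinearMap.flip_apply, ContinuousLinearMap.mul_apply', star_add, star_mul,
        star_ip, add_sm]
      exact F.add_mem (P1 hF h (star_BF _ hb1) _ hw) (h w hw _ y1 hy1)) hk3
  have r1 := E1 (th x1 y + k1.comp k)
    (fun a t => by simp [th_apply, ip_sm, mul_sm, kmod hk, kmod hk1, sm_add])
    (fun u hu => F.add_mem (h x1 hx1 y u hu) (K1 hF (fun _ _ w hw => Q2 hF h hk hu hw) hk1)) hk3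
  have r2 := E2 hF (ρ := b • x1 + k1 x) (fun u hu v hv => by
    rw [sm_add, ← mul_sm, ← kmod hk1]
    exact F.add_mem (P1 hF h (gen hu hv) b hx1) (K1 hF (fun s _ w hw => by
      rw [ip_sm]; exact P1 hF h (gen hu hv) _ hw) hk1)) hy3
  refine ⟨_, (cs _).add_mem (G1 q1 hb1) (H1 hF q2 hy1), _,
    F.add_mem (F.add_mem (P1 hF h (star_BF _ hb1) (star b) hy3) (h y3 hy3 x y1 hy1)) hw, _,
    F.add_mem (q1 x1 hx1) (K1 hF q2 hk1), _, (cs _).add_mem r1 r2, fun v => ?_⟩
  have e : (S * T * U) v = S (T (U v)) := rfl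
  rw [e, (hS _).1, (hS _).2, (hT _).1, (hT _).2, (hU _).1, (hU _).2]
  constructor
  · simp only [add_ip, sm_ip, ew, ip_add, ip_sm, map_add, kmod hk, star_mul, star_star, star_ip,
      ContinuousLinearMap.add_apply, ContinuousLinearMap.comp_apply, J_apply, add_sm, mul_sm,
      ContinuousLinearMap.flip_apply, ContinuousLinearMap.mul_apply', add_mul, mul_add, mul_assoc]
    abel
  · simp only [ip_add, ip_sm, map_add, kmod hk, kmod hk1, th_apply, add_sm, mul_sm, sm_add,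
      ContinuousLinearMap.add_apply, ContinuousLinearMap.comp_apply, add_mul]
    abel

end

end Pool.Agent.H26.Link
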