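import Mathlib

namespace Pool.Agent.H26.MaxMono

open Set Filter Topology

theorem irr_not_union (K : ℕ → Set ℝ) (hK : ∀ k, IsClosed (K k))
    (h : ⋃ k, K k = {t | Irrational t}) : False := by
  have hd := IsGδ.dense_iUnion_interior_of_closed (IsGδ.setOfPred_irrational) dense_irrational hK
    (by rw [h])
  obtain ⟨x, hx⟩ := hd.nonempty
  obtain ⟨k, hk⟩ := mem_iUnion.1 hx
  obtain ⟨q, hq⟩ := Rat.denseRange_cast.exists_mem_open (isOpen_interior) ⟨x, hk⟩
  have : (q : ℝ) ∈ ⋃ k, K k := mem_iUnion.2 ⟨k, interior_subset hq⟩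
  rw [h] at this
  exact Rat.not_irrational q this

theorem not_image {E F : Type*} [MetricSpace E] [MetricSpace F] [ProperSpace F] [Nonempty F]
    (G : Set F) (hG : IsClosed G) (π : F → E) (hπ : Continuous π) (γ : ℝ → E)
    (hγ : Continuous γ) (C : Set E) (hC : γ ⁻¹' C = {t | Irrational t}) : π '' G ≠ C := by
  intro h
  obtain ⟨z⟩ := ‹Nonempty F›
  apply irr_not_union (fun k => γ ⁻¹' (π '' (G ∩ Metric.closedBall z k)))
  · intro k
    apply IsClosed.preimage hγ
    exact (((isCompact_closedBall z (k : ℝ)).inter_left hG).image hπ).isClosed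
  · rw [← hC, ← h, ← preimage_iUnion, ← image_iUnion, ← inter_iUnion,
      Metric.iUnion_closedBall_nat, inter_univ]

variable {E : Type*} [NormedAddCommGroup E] [InnerProductSpace ℝ E]

theorem closed_graph_max (A : E → Set E)
    (hA : ∀ x y u v, u ∈ A x → v ∈ A y → 0 ≤ inner ℝ (u - v) (x - y))
    (hmax : ∀ B : E → Set E, (∀ x y u v, u ∈ B x → v ∈ B y → 0 ≤ inner ℝ (u - v) (x - y)) →
      (∀ x, A x ⊆ B x) → B = A) : IsClosed {p : E × E | p.2 ∈ A p.1} := by
  set G := {p : E × E | p.2 ∈ A p.1} with hG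
  have key : ∀ p ∈ closure G, ∀ q ∈ closure G, 0 ≤ inner ℝ (p.2 - q.2) (p.1 - q.1) := by
    have h1 : closure (G ×ˢ G) ⊆
        {r : (E × E) × (E × E) | 0 ≤ inner ℝ (r.1.2 - r.2.2) (r.1.1 - r.2.1)} := by
      apply closure_minimal
      · rintro ⟨p, q⟩ ⟨hp, hq⟩
        exact hA _ _ _ _ hp hq
      · apply isClosed_le continuous_const
        fun_prop
    intro p hp q hq
    have : (p, q) ∈ closure (G ×ˢ G) := by
      rw [closure_prod_eq]; exact ⟨hp, hq⟩
    exact h1 this
  have hB := hmax (fun x => {u | (x, u) ∈ closure G})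
    (fun x y u v hu hv => key (x, u) hu (y, v) hv)
    (fun x u hu => subset_closure (s := G) (show (x, u) ∈ G from hu))
  apply isClosed_of_closure_subset
  intro p hp
  show p.2 ∈ A p.1
  rw [← hB]
  exact hp

theorem closed_graph_sub (f : E → EReal) (hf : LowerSemicontinuous f) :
    IsClosed {p : E × E | ∀ y, f p.1 + ((inner ℝ p.2 (y - p.1) : ℝ) : EReal) ≤ f y} := by
  rw [ofPred_forall]
  apply isClosed_iInter
  intro y
  have h1 : LowerSemicontinuous (fun p : E × E => f p.1) :=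
    hf.comp continuous_fst
  have h2 : Continuous (fun p : E × E => ((inner ℝ p.2 (y - p.1) : ℝ) : EReal)) := by
    apply continuous_coe_real_ereal.comp
    fun_prop
  have h3 : LowerSemicontinuous
      (fun p : E × E => f p.1 + ((inner ℝ p.2 (y - p.1) : ℝ) : EReal)) := by
    apply LowerSemicontinuous.add' h1 h2.lowerSemicontinuous
    intro p
    apply EReal.continuousAt_add <;> simp
  exact h3.isClosed_preimage (f y)

noncomputable def gam (n : ℕ) (a b : Fin n) (φ : ℝ → ℝ) (t : ℝ) : EuclideanSpace ℝ (Fin n) :=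
  EuclideanSpace.single a t + EuclideanSpace.single b (φ t)

theorem gam_cont (n : ℕ) (a b : Fin n) (φ : ℝ → ℝ) (hφ : Continuous φ) :
    Continuous (gam n a b φ) := by
  have : gam n a b φ = fun t => t • EuclideanSpace.single a (1:ℝ) +
      φ t • EuclideanSpace.single b (1:ℝ) := by
    funext t
    ext i
    simp [gam, Pi.single_apply]
  rw [this]
  fun_prop

theorem gam_a (n : ℕ) (a b : Fin n) (h : a ≠ b) (φ : ℝ → ℝ) (t : ℝ) : gam n a b φ t a = t := by
  simp [gam, h]

theorem gam_b (n : ℕ) (a b : Fin n) (h : a ≠ b) (φ : ℝ → ℝ) (t : ℝ) : gam n a b φ t b = φ t := by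
  simp [gam, h.symm]

theorem not_proj {n : ℕ} (C : Set (EuclideanSpace ℝ (Fin n))) (γ : ℝ → EuclideanSpace ℝ (Fin n))
    (hγ : Continuous γ) (hC : γ ⁻¹' C = {t | Irrational t})
    (R : EuclideanSpace ℝ (Fin n) → EuclideanSpace ℝ (Fin n) → Prop)
    (hR : IsClosed {p : EuclideanSpace ℝ (Fin n) × EuclideanSpace ℝ (Fin n) | R p.1 p.2}) :
    {x | ∃ u, R x u} ≠ C ∧ {u | ∃ x, R x u} ≠ C := by
  constructor
  · have := not_image _ hR Prod.fst continuous_fst γ hγ C hC
    convert this using 1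
    ext x; simp
  · have := not_image _ hR Prod.snd continuous_snd γ hγ C hC
    convert this using 1
    ext x; simp

theorem exists_convex (n : ℕ) (hn : 2 ≤ n) : ∃ C : Set (EuclideanSpace ℝ (Fin n)),
    C.Nonempty ∧ Convex ℝ C ∧ ∃ γ : ℝ → EuclideanSpace ℝ (Fin n), Continuous γ ∧
      γ ⁻¹' C = {t | Irrational t} := by
  let a : Fin n := ⟨0, by omega⟩
  let b : Fin n := ⟨1, by omega⟩
  have hab : a ≠ b := by simp [a, b, Fin.ext_iff]
  refine ⟨{x | x a ^ 2 < x b ∨ (x a ^ 2 = x b ∧ Irrational (x a))}, ?_, ?_,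
    gam n a b (fun t => t ^ 2), gam_cont _ _ _ _ (by fun_prop), ?_⟩
  · refine ⟨gam n a b (fun _ => 1) 0, Or.inl ?_⟩
    rw [gam_a _ _ _ hab, gam_b _ _ _ hab]; norm_num
  · intro x hx y hy s t hs ht hst
    have hx' : x a ^ 2 ≤ x b := by rcases hx with h | h; exacts [h.le, h.1.le]
    have hy' : y a ^ 2 ≤ y b := by rcases hy with h | h; exacts [h.le, h.1.le]
    rcases hs.eq_or_lt with rfl | hs'
    · have : t = 1 := by linarith
      subst this; simpa using hy
    rcases ht.eq_or_lt with rfl | ht'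
    · have : s = 1 := by linarith
      subst this; simpa using hx
    have e1 : (s • x + t • y) a = s * x a + t * y a := by simp
    have e2 : (s • x + t • y) b = s * x b + t * y b := by simp
    show _ ∨ _
    rw [e1, e2]
    have e3 : (s * x a + t * y a) ^ 2 = s * x a ^ 2 + t * y a ^ 2 - s * t * (x a - y a) ^ 2 := by
      have : t = 1 - s := by linarith
      subst this; ring
    by_cases hxy : x a = y a
    · have e4 : s * x a + t * y a = x a := by
        rw [← hxy, ← add_mul, hst, one_mul]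
      rcases hx with h | h
      · left; rw [e3, hxy]; rw [hxy] at h; nlinarith [mul_pos hs' (sub_pos.2 h), mul_nonneg ht (sub_nonneg.2 hy')]
      rcases hy with h' | h'
      · left; rw [e3, hxy]; rw [hxy] at hx'; nlinarith [mul_pos ht' (sub_pos.2 h'), mul_nonneg hs (sub_nonneg.2 hx')]
      · right
        refine ⟨?_, by rw [e4]; exact h.2⟩
        rw [e3, hxy, ← h.1, ← h'.1, hxy]; ring
    · left
      rw [e3]
      have : 0 < s * t * (x a - y a) ^ 2 := by
        have : x a - y a ≠ 0 := sub_ne_zero.2 hxy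
        positivity
      nlinarith [mul_nonneg ht (sub_nonneg.2 hy'), mul_nonneg hs (sub_nonneg.2 hx')]
  · ext t
    simp only [mem_preimage, mem_ofPred_eq, gam_a _ _ _ hab, gam_b _ _ _ hab]
    simp

theorem exists_nearly (n : ℕ) (hn : 2 ≤ n) : ∃ C : Set (EuclideanSpace ℝ (Fin n)),
    C.Nonempty ∧ (∃ D, Convex ℝ D ∧ D ⊆ C ∧ C ⊆ closure D) ∧ ¬ Convex ℝ C ∧
      ∃ γ : ℝ → EuclideanSpace ℝ (Fin n), Continuous γ ∧ γ ⁻¹' C = {t | Irrational t} := by
  let a : Fin n := ⟨0, by omega⟩
  let b : Fin n := ⟨1, by omega⟩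
  have hab : a ≠ b := by simp [a, b, Fin.ext_iff]
  refine ⟨{x | 0 < x b ∨ (x b = 0 ∧ Irrational (x a))}, ?_, ⟨{x | 0 < x b}, ?_, ?_, ?_⟩, ?_,
    gam n a b (fun _ => 0), gam_cont _ _ _ _ (by fun_prop), ?_⟩
  · refine ⟨gam n a b (fun _ => 1) 0, Or.inl ?_⟩
    rw [gam_b _ _ _ hab]; norm_num
  · intro x hx y hy s t hs ht hst
    have e2 : (s • x + t • y) b = s * x b + t * y b := by simp
    show (0:ℝ) < (s • x + t • y) b
    rw [e2]
    have hx' : 0 < x b := hx
    have hy' : 0 < y b := hy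
    rcases hs.eq_or_lt with rfl | hs'
    · have : t = 1 := by linarith
      subst this; simpa using hy'
    · nlinarith [mul_pos hs' hx', mul_nonneg ht hy'.le]
  · intro x hx; exact Or.inl hx
  · intro x hx
    have hx' : 0 ≤ x b := by rcases hx with h | h; exacts [h.le, h.1.ge]
    have hc : Continuous (fun t : ℝ => x + t • EuclideanSpace.single b (1:ℝ)) := by fun_prop
    have ht : Tendsto (fun t : ℝ => x + t • EuclideanSpace.single b (1:ℝ)) (𝓝[>] 0) (𝓝 x) := by
      have := (hc.tendsto 0).mono_left (nhdsWithin_le_nhds (s := Ioi 0))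
      simpa using this
    apply mem_closure_of_tendsto ht
    filter_upwards [self_mem_nhdsWithin] with t ht
    have : (0:ℝ) < t := ht
    show (0:ℝ) < (x + t • EuclideanSpace.single b (1:ℝ)) b
    simp only [PiLp.add_apply, PiLp.smul_apply, PiLp.single_apply, if_true, smul_eq_mul, mul_one]
    linarith
  · intro hc
    have h1 : gam n a b (fun _ => 0) (√2) ∈ {x : EuclideanSpace ℝ (Fin n) | 0 < x b ∨ (x b = 0 ∧ Irrational (x a))} := by
      right; rw [gam_a _ _ _ hab, gam_b _ _ _ hab]; exact ⟨rfl, irrational_sqrt_two⟩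
    have h2 : gam n a b (fun _ => 0) (-√2) ∈ {x : EuclideanSpace ℝ (Fin n) | 0 < x b ∨ (x b = 0 ∧ Irrational (x a))} := by
      right; rw [gam_a _ _ _ hab, gam_b _ _ _ hab]; exact ⟨rfl, irrational_sqrt_two.neg⟩
    have h3 := hc h1 h2 (a := 1/2) (b := 1/2) (by norm_num) (by norm_num) (by norm_num)
    simp only [mem_ofPred_eq, PiLp.add_apply, PiLp.smul_apply, gam_a _ _ _ hab, gam_b _ _ _ hab,
      smul_eq_mul] at h3
    rcases h3 with h | h
    · norm_num at h
    · have : (1/2 : ℝ) * √2 + 1/2 * (-√2) = ((0:ℚ):ℝ) := by push_cast; ring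
      rw [this] at h
      exact Rat.not_irrational _ h.2
  · ext t
    simp only [mem_preimage, mem_ofPred_eq, gam_a _ _ _ hab, gam_b _ _ _ hab]
    simp

end Pool.Agent.H26.MaxMono
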