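import Mathlib

set_option autoImplicit false

namespace Pool.Agent.H26.NS

open PowerSeries Finset

noncomputable def geo (m : ℕ) : ℤ⟦X⟧ := mk fun n => if m ∣ n then 1 else 0

lemma geo_mul (j : ℕ) : (1 - X ^ (j + 1)) * geo (j + 1) = 1 := by
  ext n
  rw [sub_mul, one_mul, map_sub, coeff_X_pow_mul', coeff_one]
  simp only [geo, coeff_mk]
  by_cases h : j + 1 ≤ n
  · obtain ⟨m, rfl⟩ := Nat.exists_eq_add_of_le h
    simp [Nat.dvd_add_right]
  · rw [if_neg h, sub_zero]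
    by_cases h0 : n = 0
    · simp [h0]
    · rw [if_neg h0, if_neg fun hd => h (Nat.le_of_dvd (Nat.pos_of_ne_zero h0) hd)]

noncomputable def un (j : ℕ) : (ℤ⟦X⟧)ˣ :=
  ⟨1 - X ^ (j + 1), geo (j + 1), geo_mul j, by rw [mul_comm]; exact geo_mul j⟩

def Sp (U : AddSubmonoid ℕ) (f : ℤ⟦X⟧) : Prop := ∀ n, coeff n f ≠ 0 → n ∈ U

lemma Sp.mul {U : AddSubmonoid ℕ} {f g : ℤ⟦X⟧} (hf : Sp U f) (hg : Sp U g) : Sp U (f * g) := by
  intro n hn
  rw [coeff_mul] at hn
  obtain ⟨p, hp, h⟩ := exists_ne_zero_of_sum_ne_zero hn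
  rw [← mem_antidiagonal.mp hp]
  exact U.add_mem (hf _ (left_ne_zero_of_mul h)) (hg _ (right_ne_zero_of_mul h))

lemma sp_one (U : AddSubmonoid ℕ) : Sp U 1 := by
  intro n hn
  rw [coeff_one] at hn
  by_cases h : n = 0
  · exact h ▸ U.zero_mem
  · simp [h] at hn

def Ga (U : AddSubmonoid ℕ) : Subgroup (ℤ⟦X⟧)ˣ where
  carrier := {u | Sp U ↑u ∧ Sp U ↑u⁻¹ ∧ constantCoeff (↑u : ℤ⟦X⟧) = 1}
  mul_mem' := by
    rintro u v ⟨a, b, c⟩ ⟨d, e, f⟩
    refine ⟨a.mul d, ?_, by simp [c, f]⟩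
    rw [mul_inv, Units.val_mul]
    exact b.mul e
  one_mem' := ⟨sp_one U, sp_one U, by simp⟩
  inv_mem' := by
    rintro u ⟨a, b, c⟩
    refine ⟨b, by rwa [inv_inv], ?_⟩
    have := congrArg constantCoeff u.inv_mul
    rwa [map_mul, c, mul_one, map_one] at this

lemma un_mem {U : AddSubmonoid ℕ} {j : ℕ} (h : j + 1 ∈ U) : un j ∈ Ga U := by
  refine ⟨fun n hn => ?_, fun n hn => ?_, by simp [un]⟩
  · simp only [un, map_sub, coeff_one, coeff_X_pow] at hn
    by_cases h0 : n = 0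
    · exact h0 ▸ U.zero_mem
    · by_cases h1 : n = j + 1
      · exact h1 ▸ h
      · simp [h0, h1] at hn
  · have : (j + 1) ∣ n := by
      by_contra hd
      exact hn (by show coeff n (geo (j + 1)) = 0; simp [geo, hd])
    obtain ⟨c, rfl⟩ := this
    rw [mul_comm]
    exact U.nsmul_mem h c

def Irr (U : AddSubmonoid ℕ) (t : ℕ) : Prop := t ≠ 0 ∧ ∀ x ∈ U, ∀ y ∈ U, x + y = t → x = 0 ∨ y = 0

lemma coeff_irr {U : AddSubmonoid ℕ} {t : ℕ} (ht : Irr U t) {f g : ℤ⟦X⟧} (hf : Sp U f)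
    (hg : Sp U g) : coeff t (f * g) = constantCoeff f * coeff t g + coeff t f * constantCoeff g := by
  rw [coeff_mul, ← coeff_zero_eq_constantCoeff_apply, ← coeff_zero_eq_constantCoeff_apply]
  refine sum_eq_add_of_mem (0, t) (t, 0) (by simp) (by simp) (by simp [ht.1.symm]) ?_
  rintro ⟨x, y⟩ hp ⟨h1, h2⟩
  by_contra h
  have e := mem_antidiagonal.mp hp
  rcases ht.2 x (hf _ (left_ne_zero_of_mul h)) y (hg _ (right_ne_zero_of_mul h)) e with h | h
  · exact h1 (by simp [← e, h])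
  · exact h2 (by simp [← e, h])

noncomputable def ch {U : AddSubmonoid ℕ} {t : ℕ} (ht : Irr U t) : Ga U →* Multiplicative ℤ :=
  MonoidHom.mk' (fun u => Multiplicative.ofAdd (coeff t (u.1 : ℤ⟦X⟧))) fun u v => by
    rw [← ofAdd_add, Subgroup.coe_mul, Units.val_mul, coeff_irr ht u.2.1 v.2.1, u.2.2.2, v.2.2.2]
    congr 1
    ring

lemma prod_mem {U : AddSubmonoid ℕ} (J : Finset ℕ) (f : ℕ → ℤ)
    (h : ∀ j ∈ J, f j ≠ 0 → j + 1 ∈ U) : ∏ j ∈ J, un j ^ f j ∈ Ga U := by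
  refine Subgroup.prod_mem _ fun j hj => ?_
  by_cases h0 : f j = 0
  · simp [h0]
  · exact zpow_mem (un_mem (h j hj h0)) _

lemma coeff_prod_un {U : AddSubmonoid ℕ} {t : ℕ} (ht : Irr U (t + 1)) (J : Finset ℕ) (f : ℕ → ℤ)
    (h : ∀ j ∈ J, f j ≠ 0 → j + 1 ∈ U) :
    coeff (t + 1) ((∏ j ∈ J, un j ^ f j : (ℤ⟦X⟧)ˣ) : ℤ⟦X⟧) = if t ∈ J then -f t else 0 := by
  induction J using Finset.induction_on with
  | empty => simp [coeff_one]
  | insert j J hj ih =>
    have h1 := prod_mem J f fun i hi => h i (mem_insert_of_mem hi)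
    have h2 := prod_mem {j} f fun i hi => h i (by simp_all)
    rw [prod_singleton] at h2
    have h3 : coeff (t + 1) ((un j ^ f j : (ℤ⟦X⟧)ˣ) : ℤ⟦X⟧) = if t = j then -f j else 0 := by
      by_cases h0 : f j = 0
      · simp [h0, coeff_one]
      · have := congrArg Multiplicative.toAdd
          (map_zpow (ch ht) ⟨un j, un_mem (h j (mem_insert_self _ _) h0)⟩ (f j))
        simp only [ch, MonoidHom.mk'_apply, toAdd_ofAdd, toAdd_zpow, SubgroupClass.coe_zpow] at this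
        rw [this]
        simp [un, coeff_one, coeff_X_pow]
        split_ifs <;> simp
    rw [prod_insert hj, Units.val_mul, coeff_irr ht h2.1 h1.1, h1.2.2, h2.2.2, h3,
      ih fun i hi => h i (mem_insert_of_mem hi)]
    by_cases e : t = j
    · subst e; simp [hj]
    · simp [e]

lemma exp_supp {U : AddSubmonoid ℕ} (J : Finset ℕ) (f : ℕ → ℤ)
    (h : Sp U ((∏ j ∈ J, un j ^ f j : (ℤ⟦X⟧)ˣ) : ℤ⟦X⟧)) : ∀ j ∈ J, f j ≠ 0 → j + 1 ∈ U := by
  classical
  by_contra hc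
  push Not at hc
  have hm := fun j => Nat.find_min' hc (m := j)
  obtain ⟨a, b, c⟩ := Nat.find_spec hc
  generalize Nat.find hc = t at *
  let V : AddSubmonoid ℕ := ⟨⟨{x | x = 0 ∨ t + 1 ≤ x}, by
    intro x y hx hy; simp only [Set.mem_ofPred_eq] at *; omega⟩, Or.inl rfl⟩
  have hV : Irr V (t + 1) := ⟨by omega, fun x (hx : _ ∨ _) y (hy : _ ∨ _) e => by omega⟩
  have h1 := coeff_prod_un hV (J.filter fun j => j + 1 ∉ U) f fun j hj h0 =>
    Or.inr (by have := hm j ⟨(mem_filter.mp hj).1, h0, (mem_filter.mp hj).2⟩; omega)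
  have h2 := prod_mem (U := U) (J.filter fun j => j + 1 ∈ U) f fun j hj _ => (mem_filter.mp hj).2
  have h3 := h.mul h2.2.1
  rw [← Units.val_mul, ← prod_filter_mul_prod_filter_not J (fun j => j + 1 ∈ U),
    mul_inv_cancel_comm] at h3
  exact c (h3 _ (by rw [h1]; simp [a, b, c]))

lemma cancel_pow (p q : ℕ) (A B : Polynomial ℤ) (hA : A.eval 1 ≠ 0) (hB : B.eval 1 ≠ 0)
    (h : (1 - Polynomial.X) ^ p * A = (1 - Polynomial.X) ^ q * B) : p = q ∧ A.eval 1 = B.eval 1 := by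
  have h0 : (1 - Polynomial.X : Polynomial ℤ) ≠ 0 := fun e => by
    simpa using congrArg (Polynomial.eval 0) e
  have key : ∀ (p r : ℕ) (A B : Polynomial ℤ), A.eval 1 ≠ 0 →
      (1 - Polynomial.X) ^ p * A = (1 - Polynomial.X) ^ (p + r) * B → r = 0 := by
    intro p r A B hA h
    rw [pow_add, mul_assoc] at h
    by_contra hr
    exact hA (by simp [mul_left_cancel₀ (pow_ne_zero p h0) h, hr])
  have e : p = q := by
    rcases le_total p q with l | l <;> obtain ⟨r, rfl⟩ := Nat.exists_eq_add_of_le l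
    · simp [key _ _ _ _ hA h]
    · simp [key _ _ _ _ hB h.symm]
  subst e
  exact ⟨rfl, by rw [mul_left_cancel₀ (pow_ne_zero p h0) h]⟩

end Pool.Agent.H26.NS
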