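import Pool.Agent.H26.NS1

set_option autoImplicit false

namespace Pool.Agent.H26.NS

open PowerSeries Finset

def ph {k : ℕ} (n w : Fin k → ℕ) : ℕ := ∑ i, w i * n i

variable {k : ℕ} {n : Fin k → ℕ}

lemma ph_add (x y : Fin k → ℕ) : ph n (x + y) = ph n x + ph n y := by
  simp [ph, add_mul, sum_add_distrib]

lemma ph_single (i : Fin k) (c : ℕ) : ph n (Pi.single i c) = c * n i := by
  simp [ph, Pi.single_apply]

lemma ph_zero : ph n 0 = 0 := by simp [ph]

lemma ph_eq_zero (h0 : ∀ i, n i ≠ 0) {w : Fin k → ℕ} (h : ph n w = 0) : w = 0 := by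
  funext i
  have := (sum_eq_zero_iff.mp h) i (mem_univ i)
  simpa [h0 i] using this

lemma split {w : Fin k → ℕ} {i : Fin k} {c : ℕ} (h : c ≤ w i) : ∃ y : Fin k → ℕ, w = y + Pi.single i c := by
  refine ⟨w - Pi.single i c, funext fun j => ?_⟩
  by_cases e : j = i
  · subst e; simp; omega
  · simp [e]

lemma exists_Z (h0 : ∀ i, n i ≠ 0) (s : ℕ) : ∃ Z : Finset (Fin k → ℕ), (∀ w, w ∈ Z ↔ ph n w = s) ∧
    coeff s (∏ i, geo (n i)) = Z.card := by
  classical
  refine ⟨((finsuppAntidiag univ s).filter fun l => ∀ i, n i ∣ l i).image fun l i => l i / n i,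
    fun w => ?_, ?_⟩
  · simp only [mem_image, mem_filter, mem_finsuppAntidiag, subset_univ, and_true]
    constructor
    · rintro ⟨l, ⟨h1, h2⟩, rfl⟩
      rw [← h1]
      exact sum_congr rfl fun i _ => Nat.div_mul_cancel (h2 i)
    · intro h
      refine ⟨Finsupp.equivFunOnFinite.symm fun i => w i * n i, ⟨h, fun i => by simp⟩, ?_⟩
      funext i
      simp [Nat.mul_div_cancel _ (Nat.pos_of_ne_zero (h0 i))]
  · rw [card_image_of_injOn, coeff_prod, card_filter]
    · push_cast
      refine sum_congr rfl fun l _ => ?_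
      simp only [geo, coeff_mk, prod_boole, mem_univ, true_imp_iff]
    · intro l hl m hm e
      ext i
      rw [← Nat.div_mul_cancel ((mem_filter.mp hl).2 i),
        ← Nat.div_mul_cancel ((mem_filter.mp hm).2 i), show l i / n i = m i / n i from congrFun e i]

lemma normal (h0 : ∀ i, n i ≠ 0) (hfin : {s | s ∉ Set.range (ph n)}.Finite)
    (c : AddCon (Fin k → ℕ)) (hc : ∀ x y, c x y → ph n x = ph n y) (k0 : Fin k) (d : Fin k → ℕ)
    (hd : ∀ i, ∃ y : Fin k → ℕ, c (Pi.single i (d i)) (y + Pi.single k0 1))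
    (hp : ∏ i, d i = n k0) (x y : Fin k → ℕ) (h : ph n x = ph n y) : c x y := by
  classical
  let W := Fintype.piFinset fun i => range (d i)
  have nf : ∀ s w, ph n w = s → ∃ z ∈ W, ∃ t, c w (z + Pi.single k0 t) := by
    intro s
    induction s using Nat.strong_induction_on with
    | _ s ih =>
      intro w hw
      by_cases hW : w ∈ W
      · exact ⟨w, hW, 0, by simpa using c.refl w⟩
      · simp only [W, Fintype.mem_piFinset, mem_range, not_forall, not_lt] at hW
        obtain ⟨i, hi⟩ := hW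
        obtain ⟨u, rfl⟩ := split hi
        obtain ⟨v, hv⟩ := hd i
        have h1 : c (u + Pi.single i (d i)) (u + v + Pi.single k0 1) := by
          rw [add_assoc]; exact c.add (c.refl u) hv
        have h2 := hc _ _ h1
        rw [hw, ph_add, ph_single] at h2
        obtain ⟨z, hz, t, ht⟩ := ih (ph n (u + v)) (by have := h0 k0; omega) _ rfl
        refine ⟨z, hz, t + 1, c.trans h1 ?_⟩
        rw [Pi.single_add, ← add_assoc]
        exact c.add ht (c.refl _)
  have hpos := Nat.pos_of_ne_zero (h0 k0)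
  have hs : Set.SurjOn (fun w => ph n w % n k0) W (range (n k0)) := by
    intro r hr
    obtain ⟨B, hB⟩ := hfin.bddAbove
    have : r + (B + 1) * n k0 ∈ Set.range (ph n) := by
      by_contra hh
      have := hB hh
      nlinarith
    obtain ⟨w, hw⟩ := this
    obtain ⟨z, hz, t, ht⟩ := nf _ w rfl
    have h2 := congrArg (· % n k0) (hc _ _ ht)
    simp only [hw, ph_add, ph_single, Nat.add_mul_mod_self_right] at h2
    exact ⟨z, hz, h2.symm.trans (Nat.mod_eq_of_lt (by simpa using hr))⟩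
  have hi := injOn_of_surjOn_of_card_le _ (fun w _ => by simpa using Nat.mod_lt _ hpos) hs
    (by simp [W, hp])
  obtain ⟨z, hz, t, ht⟩ := nf _ x rfl
  obtain ⟨z', hz', t', ht'⟩ := nf _ y rfl
  have e := (hc _ _ ht).symm.trans (h.trans (hc _ _ ht'))
  rw [ph_add, ph_add, ph_single, ph_single] at e
  have e1 : z = z' := hi hz hz' (by
    have := congrArg (· % n k0) e
    simpa only [Nat.add_mul_mod_self_right] using this)
  subst e1
  have e2 : t = t' := Nat.eq_of_mul_eq_mul_right hpos (by omega)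
  subst e2
  exact c.trans ht (c.symm ht')

def TT (n : Fin k → ℕ) (s : ℕ) : Prop := ∃ x y, x ≠ y ∧ ph n x = s ∧ ph n y = s

def MinT (n : Fin k → ℕ) (t : ℕ) : Prop := TT n t ∧ ∀ s, TT n s → ∀ w, s + ph n w = t → w = 0

lemma TT.add {s : ℕ} (h : TT n s) (w : Fin k → ℕ) : TT n (s + ph n w) := by
  obtain ⟨x, y, a, b, c⟩ := h
  exact ⟨x + w, y + w, by simpa using a, by rw [ph_add, b], by rw [ph_add, c]⟩

lemma exists_min (h0 : ∀ i, n i ≠ 0) (s : ℕ) (h : TT n s) : ∃ t w, MinT n t ∧ t + ph n w = s := by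
  induction s using Nat.strong_induction_on with
  | _ s ih =>
    by_cases hm : MinT n s
    · exact ⟨s, 0, hm, by simp [ph_zero]⟩
    · simp only [MinT, h, true_and, not_forall] at hm
      obtain ⟨r, hr, w, e, hw⟩ := hm
      have : ph n w ≠ 0 := fun z => hw (ph_eq_zero h0 z)
      obtain ⟨t, v, h1, h2⟩ := ih r (by omega) hr
      exact ⟨t, v + w, h1, by rw [ph_add]; omega⟩

lemma isolated (u : Fin k → ℕ) (hu : MinT n (ph n u))
    (r : (Fin k → ℕ) → (Fin k → ℕ) → Prop)
    (hr : ∀ x y, r x y → ph n x = ph n y ∧ x ≠ y ∧ x ≠ u ∧ y ≠ u) (v : Fin k → ℕ)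
    (h : addConGen r u v) : u = v := by
  have key : ∀ w x y z, ph n w = ph n x → ph n y = ph n z ∧ TT n (ph n y) ∧ y ≠ u ∧ z ≠ u →
      ph n (y + w) = ph n (z + x) ∧ TT n (ph n (y + w)) ∧ y + w ≠ u ∧ z + x ≠ u := by
    rintro w x y z a ⟨b, c, d, e⟩
    refine ⟨by rw [ph_add, ph_add, a, b], by rw [ph_add]; exact c.add w, fun f => d ?_,
      fun f => e ?_⟩
    · rw [← f, hu.2 _ c w (by rw [← f, ph_add]), add_zero]
    · rw [← f, hu.2 _ c x (by rw [← f, ph_add, b]), add_zero]
  let c : AddCon (Fin k → ℕ) :=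
    { r := fun x y => x = y ∨ (ph n x = ph n y ∧ TT n (ph n x) ∧ x ≠ u ∧ y ≠ u)
      iseqv := ⟨fun _ => Or.inl rfl,
        fun h => h.imp Eq.symm fun ⟨a, b, c, d⟩ => ⟨a.symm, a ▸ b, d, c⟩, by
          rintro x y z (rfl | ⟨a, b, c, d⟩) (rfl | ⟨e, f, g, h⟩)
          exacts [Or.inl rfl, Or.inr ⟨e, f, g, h⟩, Or.inr ⟨a, b, c, d⟩,
            Or.inr ⟨a.trans e, b, c, h⟩]⟩
      add' := by
        rintro w x y z (rfl | a) (rfl | b)
        · exact Or.inl rfl
        · rw [add_comm w, add_comm w]; exact Or.inr (key _ _ _ _ rfl b)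
        · exact Or.inr (key _ _ _ _ rfl a)
        · exact Or.inr (key _ _ _ _ b.1 a) }
  have : addConGen r ≤ c := AddCon.addConGen_le.mpr fun x y hxy =>
    Or.inr ⟨(hr x y hxy).1, ⟨x, y, (hr x y hxy).2.1, rfl, (hr x y hxy).1.symm⟩, (hr x y hxy).2.2⟩
  exact (this h).resolve_right fun z => z.2.2.1 rfl

lemma pure_card {a : ℕ} (ha : a ≠ 0) :
    ((univ.filter fun i => n i ∣ a).image fun i => (Pi.single i (a / n i) : Fin k → ℕ)).card =
      (univ.filter fun i => n i ∣ a).card := by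
  refine card_image_of_injOn fun i hi j _ e => ?_
  by_contra hij
  have h1 := congrFun e i
  have h2 := Nat.div_mul_cancel (mem_filter.mp hi).2
  simp only [Pi.single_eq_same, Pi.single_eq_of_ne hij] at h1
  rw [h1] at h2
  omega

lemma pure_sub {a : ℕ} {Z : Finset (Fin k → ℕ)} (hZ : ∀ w, w ∈ Z ↔ ph n w = a) :
    ((univ.filter fun i => n i ∣ a).image fun i => (Pi.single i (a / n i) : Fin k → ℕ)) ⊆ Z := by
  intro w hw
  obtain ⟨i, hi, rfl⟩ := mem_image.mp hw
  rw [hZ, ph_single, Nat.div_mul_cancel (mem_filter.mp hi).2]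

lemma select {a b α β : ℕ} (ha : a ≠ 0) (hb : b ≠ 0) (mb : MinT n b)
    {Z : Finset (Fin k → ℕ)} (hZ : ∀ w, w ∈ Z ↔ ph n w = b) (cZ : Z.card = β + 1)
    (hk : k = α + β + 1) (hA : (univ.filter fun i => n i ∣ a).card = α + 1)
    (hab : ∀ i, n i ∣ a ∨ n i ∣ b) : ∃ (k0 : Fin k) (g : Fin k → ℕ), (∀ i, g i = a ∨ g i = b) ∧
      (∀ i, n i ∣ g i) ∧ ∏ i ∈ univ.erase k0, g i = a ^ α * b ^ β ∧
      (∃ u, ph n u = a ∧ u k0 ≠ 0) ∧ ∃ v, ph n v = b ∧ v k0 ≠ 0 := by
  have pw : ∀ c i, c ≠ 0 → n i ∣ c → ∃ u, ph n u = c ∧ u i ≠ 0 := fun c i hc hi =>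
    ⟨Pi.single i (c / n i), by rw [ph_single, Nat.div_mul_cancel hi], by
      have := Nat.div_mul_cancel hi
      rw [Pi.single_eq_same]
      intro e; rw [e] at this; omega⟩
  obtain ⟨k0, h1, h2⟩ : ∃ k0, n k0 ∣ a ∧ ∃ v, ph n v = b ∧ v k0 ≠ 0 := by
    by_cases hB : (univ.filter fun i => n i ∣ b).card ≤ β
    · obtain ⟨v, hv, hv'⟩ := exists_mem_notMem_of_card_lt_card
        (show _ < Z.card by rw [pure_card (n := n) hb]; omega)
      have e := (hZ v).mp hv
      obtain ⟨i, hi⟩ : ∃ i, v i ≠ 0 := by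
        by_contra hh
        push Not at hh
        rw [show v = 0 from funext hh, ph_zero] at e
        exact hb e.symm
      refine ⟨i, (hab i).resolve_right fun hd => ?_, v, e, hi⟩
      obtain ⟨y, rfl⟩ := split (Nat.one_le_iff_ne_zero.mpr hi)
      have q := Nat.div_mul_cancel hd
      obtain ⟨m, hm⟩ : ∃ m, b / n i = m + 1 :=
        Nat.exists_eq_succ_of_ne_zero fun z => by rw [z] at q; omega
      rw [ph_add, ph_single] at e
      have := mb.2 (ph n y) ⟨y, Pi.single i m, fun z => hv' (mem_image.mpr ⟨i, by simpa using hd, by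
        rw [z, hm, Pi.single_add]⟩), rfl, by rw [ph_single]; rw [hm] at q; linarith⟩
        (Pi.single i 1) (by rw [ph_single, e])
      simpa using congrFun this i
    · have h3 := card_union_add_card_inter (univ.filter fun i => n i ∣ a)
        (univ.filter fun i => n i ∣ b)
      have h4 := card_le_univ ((univ.filter fun i => n i ∣ a) ∪ univ.filter fun i => n i ∣ b)
      rw [Fintype.card_fin] at h4
      obtain ⟨i, hi⟩ := card_pos.mp (show 0 < ((univ.filter fun i => n i ∣ a) ∩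
        univ.filter fun i => n i ∣ b).card by omega)
      simp only [mem_inter, mem_filter, mem_univ, true_and] at hi
      exact ⟨i, hi.1, pw _ _ hb hi.2⟩
  refine ⟨k0, fun i => if n i ∣ a then a else b, fun i => by beta_reduce; split_ifs <;> simp,
    fun i => by
      beta_reduce
      split_ifs with h
      exacts [h, (hab i).resolve_left h], ?_, pw _ _ ha h1, h2⟩
  have h5 : ((univ.erase k0).filter fun i => n i ∣ a).card = α := by
    rw [filter_erase, card_erase_of_mem (by simpa using h1), hA]; rfl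
  have h6 := card_filter_add_card_filter_not (s := univ.erase k0) fun i => n i ∣ a
  rw [card_erase_of_mem (mem_univ _), card_univ, Fintype.card_fin] at h6
  rw [prod_ite, prod_const, prod_const, h5,
    show ((univ.erase k0).filter fun i => ¬ n i ∣ a).card = β by omega]

end Pool.Agent.H26.NS
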