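import Mathlib

set_option autoImplicit false

namespace Pool.Agent.H26.OA0

structure RS : Type 1 where
  X : Type
  [acg : AddCommGroup X]
  [md : Module ℝ X]
  [lat : Lattice X]
  [ord : IsOrderedAddMonoid X]
  [pos : PosSMulMono ℝ X]

attribute [instance] RS.acg RS.md RS.lat RS.ord RS.pos

instance : CoeSort RS Type := ⟨RS.X⟩

def Arch (F : RS) : Prop := ∀ a b : F, (∀ n : ℕ, (n : ℝ) • a ≤ b) → a ≤ 0

def OA {E F : RS} (T : E → F) : Prop := ∀ x y, |x| ⊓ |y| = 0 → T (x + y) = T x + T y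

def IsJoin {E F : RS} (S T U : E → F) : Prop :=
  OA U ∧ (∀ x, S x ≤ U x ∧ T x ≤ U x) ∧ ∀ V, OA V → (∀ x, S x ≤ V x ∧ T x ≤ V x) → ∀ x, U x ≤ V x

def Vals {E F : RS} (S T : E → F) (x : E) : Set F :=
  {w | ∃ u v, x = u + v ∧ |u| ⊓ |v| = 0 ∧ w = S u + T v}

end Pool.Agent.H26.OA0
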