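import Mathlib
import Pool.Agent.H26.OA0

set_option autoImplicit false

open Filter Topology Finset

namespace Pool.Agent.H26.OA1

open OA0

noncomputable def sub {I : Type} (S : Submodule ℝ (I → ℝ))
    (h : ∀ φ : ℝ → ℝ → ℝ, Continuous φ.uncurry → ∀ x ∈ S, ∀ y ∈ S, (fun i => φ (x i) (y i)) ∈ S) : RS :=
  letI : Lattice S := Subtype.lattice (fun x y hx hy => h max continuous_max x hx y hy)
    fun x y hx hy => h min continuous_min x hx y hy
  haveI : IsOrderedAddMonoid S :=
    { add_le_add_left := fun a b h c => add_le_add_left (show (a : I → ℝ) ≤ b from h) c.1 }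
  haveI : PosSMulMono ℝ S := ⟨fun c hc a b h => show c • (a : I → ℝ) ≤ c • (b : I → ℝ) from
    smul_le_smul_of_nonneg_left (show (a : I → ℝ) ≤ b from h) hc⟩
  ⟨S⟩

def Per (x : ℕ → ℝ) : Prop := ∀ᶠ m in atTop, ∀ i, x (i % 2 ^ m) = x i

lemma per_of {x : ℕ → ℝ} {k : ℕ} (h : ∀ i, x (i % 2 ^ k) = x i) {m : ℕ} (hm : k ≤ m) (i : ℕ) :
    x (i % 2 ^ m) = x i := by
  rw [← h, Nat.mod_mod_of_dvd _ (pow_dvd_pow 2 hm), h]

lemma per_mod (k : ℕ) (φ : ℕ → ℝ) : Per fun i => φ (i % 2 ^ k) :=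
  eventually_atTop.2 ⟨k, fun _ => per_of (x := fun i => φ (i % 2 ^ k)) fun i => by rw [Nat.mod_mod]⟩

lemma Per.map {x y : ℕ → ℝ} (hx : Per x) (hy : Per y) (φ : ℝ → ℝ → ℝ) : Per fun i => φ (x i) (y i) :=
  (hx.and hy).mono fun _ h i => by simp only [h.1, h.2]

lemma Per.abs {x : ℕ → ℝ} (hx : Per x) : Per fun i => |x i| := hx.map hx fun a _ => |a|

lemma Per.add {x y : ℕ → ℝ} (hx : Per x) (hy : Per y) : Per fun i => x i + y i := hx.map hy (· + ·)

lemma Per.cut {x : ℕ → ℝ} (hx : Per x) (k : ℕ) (p : ℕ → Prop) [DecidablePred p] :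
    Per fun i => if p (i % 2 ^ k) then x i else 0 := by
  simpa using hx.map (per_mod k fun j => if p j then 1 else 0) fun a b => a * b

noncomputable def A (m : ℕ) (x : ℕ → ℝ) : ℝ := (∑ i ∈ range (2 ^ m), x i) / 2 ^ m

noncomputable def lam (x : ℕ → ℝ) : ℝ := limUnder atTop fun m => A m x

lemma lam_eq {x : ℕ → ℝ} {k : ℕ} (h : ∀ i, x (i % 2 ^ k) = x i) : lam x = A k x := by
  refine Tendsto.limUnder_eq (tendsto_const_nhds.congr' (eventually_atTop.2 ⟨k, fun m hm => ?_⟩))
  induction m, hm using Nat.le_induction with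
  | base => rfl
  | succ m hm ih =>
    have : ∀ i, x (2 ^ m + i) = x i := fun i => by
      rw [← per_of h hm, Nat.add_mod_left, per_of h hm]
    rw [ih]
    simp only [A, pow_succ, mul_two, sum_range_add, this]
    field_simp

lemma lam_add {x y : ℕ → ℝ} (hx : Per x) (hy : Per y) : lam (fun i => x i + y i) = lam x + lam y := by
  obtain ⟨m, h1, h2⟩ := (hx.and hy).exists
  rw [lam_eq h1, lam_eq h2, lam_eq (k := m) fun i => by rw [h1, h2], A, A, A, sum_add_distrib, add_div]

lemma lam_mono {x y : ℕ → ℝ} (hx : Per x) (hy : Per y) (h : ∀ i, x i ≤ y i) : lam x ≤ lam y := by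
  obtain ⟨m, h1, h2⟩ := (hx.and hy).exists
  rw [lam_eq h1, lam_eq h2]
  exact div_le_div_of_nonneg_right (sum_le_sum fun i _ => h i) (by positivity)

lemma lam_const (c : ℝ) : lam (fun _ => c) = c := by
  simp [lam_eq (x := fun _ => c) (k := 0) fun _ => rfl, A]

lemma lam_ind {x : ℕ → ℝ} (hx : Per x) (k : ℕ) (s : Finset ℕ) {c : ℝ} (h1 : ∀ i, x i ≤ c)
    (h2 : ∀ i, i % 2 ^ k ∉ s → x i ≤ 0) (hc : 0 ≤ c) : lam x ≤ s.card * c / 2 ^ k := by
  refine (lam_mono hx (per_mod k fun j => if j ∈ s then c else 0) fun i => by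
    split_ifs with h
    exacts [h1 i, h2 i h]).trans ?_
  rw [lam_eq (k := k) fun i => by rw [Nat.mod_mod]]
  refine div_le_div_of_nonneg_right ?_ (by positivity)
  rw [sum_congr (g := fun i => if i ∈ s then c else 0) rfl fun i hi => by
    simp only [Nat.mod_eq_of_lt (mem_range.1 hi)], sum_ite_mem, sum_const, nsmul_eq_mul]
  exact mul_le_mul_of_nonneg_right (Nat.cast_le.2 (card_le_card inter_subset_right)) hc

def th (k r n i : ℕ) : ℕ := if i % 2 ^ k = r then i % 2 ^ n else i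

def Th : List (ℕ × ℕ) → ℕ → ℕ
  | [], i => i
  | a :: s, i => th (s.length + 2) a.1 a.2 (Th s i)

lemma per_Th (s : List (ℕ × ℕ)) : ∀ {g : ℕ → ℝ}, Per g → Per fun i => g (Th s i) := by
  induction s with
  | nil => exact id
  | cons a s ih =>
    refine fun {g} hg => ih (g := fun i => g (th (s.length + 2) a.1 a.2 i)) ?_
    filter_upwards [hg, eventually_ge_atTop (s.length + 2), eventually_ge_atTop a.2] with m h1 h2 h3 i
    rw [th, th, Nat.mod_mod_of_dvd _ (pow_dvd_pow 2 h2), Nat.mod_mod_of_dvd _ (pow_dvd_pow 2 h3)]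
    split_ifs
    exacts [rfl, h1 i]

lemma loss (s : List (ℕ × ℕ)) : ∃ h, Per h ∧ (∀ i, 0 ≤ h i) ∧ lam h ≤ 1 / 2 - 1 / 2 ^ (s.length + 1) ∧
    ∀ i, Th s i ≠ i → 1 ≤ h i := by
  induction s with
  | nil => exact ⟨fun _ => 0, per_mod 0 fun _ => 0, fun _ => le_rfl, by simp [lam_const], by simp [Th]⟩
  | cons a s ih =>
    obtain ⟨h, h1, h2, h3, h4⟩ := ih
    have h5 := per_mod (s.length + 2) fun j => if j ∈ ({a.1} : Finset ℕ) then 1 else 0
    refine ⟨_, h1.add h5, fun i => add_nonneg (h2 i) (by positivity), ?_, fun i hi => ?_⟩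
    · rw [lam_add h1 h5]
      refine (add_le_add h3 (lam_ind h5 (s.length + 2) {a.1} (fun i => by split_ifs <;> simp)
        (fun i h => (if_neg h).le) zero_le_one)).trans_eq ?_
      simp only [card_singleton, List.length_cons]
      field_simp
      ring
    · by_cases h6 : Th s i = i
      · rw [Th, h6, th] at hi
        rw [if_pos (by by_contra h7; exact hi (if_neg (by simpa using h7)))]
        linarith [h2 i]
      · exact (h4 i h6).trans (le_add_of_nonneg_right (by positivity))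

noncomputable def E : RS := sub
  { carrier := {x | Per x}
    add_mem' := fun hx hy => hx.add hy
    zero_mem' := per_mod 0 fun _ => 0
    smul_mem' := fun c _ hx => hx.map hx fun a _ => c * a } fun φ _ _ hx _ hy => hx.map hy φ

noncomputable def F : RS := sub
  { carrier := {f : List (ℕ × ℕ) → ℝ | ∀ s r, Tendsto (fun n => f ((r, n) :: s)) atTop (𝓝 (f s))}
    add_mem' := fun hx hy s r => (hx s r).add (hy s r)
    zero_mem' := fun _ _ => tendsto_const_nhds
    smul_mem' := fun c _ hx s r => (hx s r).const_mul c }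
  fun _ hφ _ hx _ hy s r => (hφ.tendsto _).comp ((hx s r).prodMk_nhds (hy s r))

def ev (x : E) : ℕ → ℝ := x.1

def fv (x : F) : List (ℕ × ℕ) → ℝ := x.1

lemma per (x : E) : Per (ev x) := x.2

lemma ev_ext {x y : E} (h : ∀ i, ev x i = ev y i) : x = y := Subtype.ext (funext h)

lemma fv_ext {x y : F} (h : ∀ i, fv x i = fv y i) : x = y := Subtype.ext (funext h)

@[simp] lemma ev_add (x y : E) (i : ℕ) : ev (x + y) i = ev x i + ev y i := rfl

@[simp] lemma ev_sub (x y : E) (i : ℕ) : ev (x - y) i = ev x i - ev y i := rfl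

lemma fv_add (x y : F) (i : List (ℕ × ℕ)) : fv (x + y) i = fv x i + fv y i := rfl

lemma disj {x y : E} : |x| ⊓ |y| = 0 ↔ ∀ i, ev x i = 0 ∨ ev y i = 0 := by
  have : ∀ i, ev (|x| ⊓ |y|) i = ev 0 i ↔ ev x i = 0 ∨ ev y i = 0 := fun i => by
    change min |ev x i| |ev y i| = 0 ↔ _
    exact ⟨fun h => (min_eq_iff.1 h).imp (abs_eq_zero.1 ·.1) (abs_eq_zero.1 ·.1), by
      rintro (h | h) <;> simp [h]⟩
  exact ⟨fun h i => (this i).1 (h ▸ rfl), fun h => ev_ext fun i => (this i).2 (h i)⟩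

lemma lam_oa {x y : E} (h : |x| ⊓ |y| = 0) (s : List (ℕ × ℕ)) : lam (fun i => |ev (x + y) (Th s i)|) =
    lam (fun i => |ev x (Th s i)|) + lam fun i => |ev y (Th s i)| := by
  rw [← lam_add (per_Th s (per x).abs) (per_Th s (per y).abs)]
  congr 1
  ext i
  rcases disj.1 h (Th s i) with h | h <;> simp [h]

noncomputable def S (x : E) : F :=
  ⟨fun s => lam (fun i => |ev x i|) - lam fun i => |ev x (Th s i)|, fun s r =>
    tendsto_const_nhds.congr' ((per x).mono fun n h => by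
      simp only [Th, th]
      congr 3
      ext i
      split_ifs
      exacts [by rw [h], rfl])⟩

noncomputable def U (x : E) : F := ⟨fun _ => lam fun i => |ev x i|, fun _ _ => tendsto_const_nhds⟩

lemma S_oa : OA S := fun _ _ h => fv_ext fun s =>
  (congrArg₂ (· - ·) (lam_oa h []) (lam_oa h s)).trans (add_sub_add_comm _ _ _ _)

lemma U_oa : OA U := fun _ _ h => fv_ext fun _ => lam_oa h []

lemma lam_nonneg (x : E) (s : List (ℕ × ℕ)) : 0 ≤ lam fun i => |ev x (Th s i)| :=
  (lam_const 0).ge.trans (lam_mono (per_mod 0 fun _ => 0) (per_Th s (per x).abs) fun _ => abs_nonneg _)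

noncomputable def cut (x : E) (k : ℕ) (p : ℕ → Prop) [DecidablePred p] : E :=
  ⟨fun i => if p (i % 2 ^ k) then ev x i else 0, (per x).cut k p⟩

@[simp] lemma ev_cut (x : E) (k : ℕ) (p : ℕ → Prop) [DecidablePred p] (i : ℕ) :
    ev (cut x k p) i = if p (i % 2 ^ k) then ev x i else 0 := rfl

lemma bdd (y : E) : ∃ C, ∀ i, |ev y i| ≤ C := by
  obtain ⟨m, hm⟩ := (per y).exists
  exact ⟨∑ j ∈ range (2 ^ m), |ev y j|, fun i => (congrArg abs (hm i)).ge.trans
    (single_le_sum (fun j _ => abs_nonneg (ev y j)) (mem_range.2 (Nat.mod_lt _ (by positivity))))⟩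

lemma piece {V : E → F} (h1 : OA V) (h2 : ∀ x, S x ≤ V x ∧ 0 ≤ V x) (s : List (ℕ × ℕ)) (r : ℕ) (y : E)
    (hy : ∀ i, i % 2 ^ (s.length + 2) ≠ r → ev y i = 0) : fv (U y) s ≤ fv (V y) s := by
  obtain ⟨C, hC⟩ := bdd y
  have hV : Tendsto (fun n => fv (V y) ((r, n) :: s)) atTop (𝓝 (fv (V y) s)) := (V y).2 s r
  refine le_of_tendsto_of_tendsto' (f := fun n => fv (U y) s - C * (2 ^ n)⁻¹) (by
    simpa using ((tendsto_pow_atTop_nhds_zero_of_lt_one one_half_pos.le one_half_lt_one).const_mul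
      C).const_sub (fv (U y) s)) hV fun n => ?_
  obtain ⟨y1, b1⟩ : ∃ z, ∀ i, ev z i = if i % 2 ^ (n + n) ∈ range (2 ^ n) then 0 else ev y i :=
    ⟨cut y (n + n) (· ∉ range (2 ^ n)), fun i => ite_not _ _ _⟩
  obtain ⟨y2, b2⟩ : ∃ z, ∀ i, ev z i = if i % 2 ^ (n + n) ∈ range (2 ^ n) then ev y i else 0 :=
    ⟨cut y (n + n) (· ∈ range (2 ^ n)), fun i => rfl⟩
  have e : y = y1 + y2 := ev_ext fun i => by rw [ev_add, b1, b2]; split_ifs <;> simp
  have d : |y1| ⊓ |y2| = 0 := disj.2 fun i => by rw [b1, b2]; split_ifs <;> simp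
  have a1 := congrArg (fv · ((r, n) :: s)) ((congrArg V e).trans (h1 _ _ d))
  have a2 := congrArg (fv · s) ((congrArg U e).trans (U_oa _ _ d))
  have a3 : fv (U y1) s - lam (fun i => |ev y1 (Th ((r, n) :: s) i)|) ≤ fv (V y1) ((r, n) :: s) :=
    (h2 y1).1 _
  have a4 : 0 ≤ fv (V y2) ((r, n) :: s) := (h2 y2).2 _
  have a5 : (fun i => |ev y1 (Th ((r, n) :: s) i)|) = fun _ => 0 := by
    ext i
    simp only [b1, Th, th, abs_eq_zero, ite_eq_left_iff, mem_range]
    split_ifs with h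
    · exact fun h => absurd ((Nat.mod_le _ _).trans_lt (Nat.mod_lt _ (by positivity))) h
    · exact fun _ => hy _ h
  have a6 := lam_ind (per y2).abs (n + n) (range (2 ^ n)) (fun i => by
    rw [b2]
    split_ifs
    exacts [hC i, abs_zero.trans_le ((abs_nonneg _).trans (hC 0))]) (fun i h => by
      rw [b2, if_neg h, abs_zero]) ((abs_nonneg _).trans (hC 0))
  rw [show ((range (2 ^ n)).card : ℝ) * C / 2 ^ (n + n) = C * (2 ^ n)⁻¹ by
    simp [pow_add]; field_simp] at a6
  simp only [fv_add] at a1 a2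
  rw [a5, lam_const] at a3
  change fv (U y2) s ≤ _ at a6
  linarith

lemma join : IsJoin S (fun _ => 0) U := by
  refine ⟨U_oa, fun x => ⟨fun s => sub_le_self _ (lam_nonneg x s), fun _ => lam_nonneg x []⟩,
    fun V h1 h2 x s => ?_⟩
  have key : ∀ j, fv (U (cut x (s.length + 2) (· < j))) s ≤ fv (V (cut x (s.length + 2) (· < j))) s := by
    intro j
    induction j with
    | zero => exact piece h1 h2 s 0 _ fun i _ => by simp
    | succ j ih =>
      have e : cut x (s.length + 2) (· < j + 1) = cut x (s.length + 2) (· < j) +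
          cut x (s.length + 2) (· = j) := ev_ext fun i => by
        simp only [ev_add, ev_cut]
        split_ifs <;> first | omega | simp
      have d : |cut x (s.length + 2) (· < j)| ⊓ |cut x (s.length + 2) (· = j)| = 0 :=
        disj.2 fun i => by
          simp only [ev_cut]
          split_ifs <;> first | omega | simp
      rw [e, h1 _ _ d, U_oa _ _ d]
      exact add_le_add ih (piece h1 h2 s j _ fun i hi => if_neg hi)
  have := key (2 ^ (s.length + 2))
  rwa [show cut x (s.length + 2) (· < 2 ^ (s.length + 2)) = x from ev_ext fun i =>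
    if_pos (Nat.mod_lt _ (by positivity))] at this

lemma bound : ∃ x b, b ∈ upperBounds (Vals S (fun _ => 0) x) ∧ b < U x := by
  refine ⟨⟨fun _ => 1, per_mod 0 fun _ => 1⟩, ⟨fun _ => 1 / 2, fun _ _ => tendsto_const_nhds⟩, ?_,
    lt_of_le_not_ge (fun s => ?_) fun h => ?_⟩
  · rintro _ ⟨u, v, h1, h2, rfl⟩ s
    obtain ⟨h, a1, a2, a3, a4⟩ := loss s
    have := lam_mono (per u).abs ((per_Th s (per u).abs).add a1) fun i => by
      by_cases h3 : Th s i = i
      · simpa [h3] using a2 i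
      have h4 : 1 = ev u i + ev v i := congrArg (ev · i) h1
      have : |ev u i| ≤ 1 := by
        rcases disj.1 h2 i with h | h
        · simp [h]
        · rw [h, add_zero] at h4; simp [← h4]
      linarith [a4 i h3, abs_nonneg (ev u (Th s i))]
    rw [lam_add (per_Th s (per u).abs) a1] at this
    have h5 : (0 : ℝ) < 1 / 2 ^ (s.length + 1) := by positivity
    change lam _ - lam _ + 0 ≤ 1 / 2
    linarith
  · exact one_half_lt_one.le.trans (abs_one.ge.trans (lam_const |1|).ge)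
  · exact one_half_lt_one.not_ge ((abs_one.ge.trans (lam_const |1|).ge).trans (h []))

lemma vals_add {x y : E} (h : |x| ⊓ |y| = 0) :
    Vals S (fun _ => 0) (x + y) = Set.image2 (· + ·) (Vals S (fun _ => 0) x) (Vals S (fun _ => 0) y) := by
  classical
  rw [disj] at h
  obtain ⟨c, hc⟩ : ∃ c : E → E, ∀ u i, ev (c u) i = if ev x i = 0 then 0 else ev u i :=
    ⟨fun u => ⟨_, (per x).map (per u) fun a b => if a = 0 then 0 else b⟩, fun _ _ => rfl⟩
  ext w
  constructor
  · rintro ⟨u, v, h1, h2, rfl⟩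
    have h3 : ∀ i, ev x i + ev y i = ev u i + ev v i := fun i => congrArg (ev · i) h1
    rw [disj] at h2
    refine ⟨_, ⟨c u, c v, ev_ext fun i => ?_, disj.2 fun i => ?_, rfl⟩, _,
      ⟨u - c u, v - c v, ev_ext fun i => ?_, disj.2 fun i => ?_, rfl⟩, ?_⟩
    any_goals
      have := h i; have := h2 i; have := h3 i
      simp only [ev_add, ev_sub, hc]
      split_ifs <;> simp_all
    simp only [add_zero]
    rw [← S_oa _ _ (disj.2 fun i => ?_), add_sub_cancel]
    simp only [ev_sub, hc]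
    split_ifs <;> simp
  · rintro ⟨_, ⟨u, v, rfl, h1, rfl⟩, _, ⟨u', v', rfl, h2, rfl⟩, rfl⟩
    rw [disj] at h1 h2
    simp only [ev_add] at h
    refine ⟨u + u', v + v', add_add_add_comm _ _ _ _, disj.2 fun i => ?_, ?_⟩
    · rcases h1 i with a | a <;> rcases h2 i with b | b <;> rcases h i with c | c <;> simp_all
    · simp only [add_zero]
      rw [S_oa _ _ (disj.2 fun i => ?_)]
      rcases h1 i with a | a <;> rcases h2 i with b | b <;> rcases h i with c | c <;> simp_all

theorem main : ∃ E F : RS, Arch F ∧ ∃ S T U : E → F, OA S ∧ OA T ∧ IsJoin S T U ∧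
    (∃ x b, b ∈ upperBounds (Vals S T x) ∧ b < U x) ∧ ∃ x, ¬ ∃ w, IsLUB (Vals S T x) w := by
  refine ⟨E, F, fun a b h s => ?_, S, fun _ => 0, U, S_oa, fun _ _ _ => (add_zero _).symm, join, bound, ?_⟩
  · by_contra h0
    obtain ⟨n, hn⟩ := exists_lt_nsmul (not_le.1 h0) (fv b s)
    exact hn.not_ge ((nsmul_eq_mul _ _).trans_le (h n s))
  · by_contra! H
    choose R hR using H
    obtain ⟨x, b, h1, h2⟩ := bound
    have S0 : S 0 = 0 := by simpa using S_oa 0 0 (by simp)
    exact h2.not_ge ((join.2.2 R (fun x y h => (hR _).unique (vals_add h ▸ (hR x).add (hR y))) (fun x =>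
      ⟨(hR x).1 ⟨x, 0, by simp, by simp, by simp⟩, (hR x).1 ⟨0, x, by simp, by simp, by simp [S0]⟩⟩)
        x).trans ((hR x).2 h1))

end Pool.Agent.H26.OA1
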