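import Mathlib

namespace Pool.Agent.H26.OpenMul

open Complex

theorem small (x y : ℂ) (h : exp x = exp y) (h2 : ‖x - y‖ < 6) : x = y := by
  obtain ⟨n, hn⟩ := exp_eq_exp_iff_exists_int.1 h
  by_cases h0 : n = 0
  · simpa [h0] using hn
  · exfalso
    have h3 : (1:ℝ) ≤ |(n:ℝ)| := by exact_mod_cast Int.one_le_abs h0
    rw [hn, add_sub_cancel_left] at h2
    simp only [norm_mul, norm_intCast, Complex.norm_ofNat, norm_real, norm_I, mul_one,
      Real.norm_eq_abs, abs_of_pos Real.pi_pos] at h2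
    nlinarith [Real.pi_gt_three]

theorem lg (z w : ℂ) (hw : w ≠ 0) (h : ‖z - w‖ ≤ ‖w‖ / 10) :
    ‖log (z / w)‖ ≤ 1 / 5 ∧ exp (log (z / w)) = z / w := by
  have hw' : 0 < ‖w‖ := norm_pos_iff.2 hw
  have h1 : ‖(z - w) / w‖ ≤ 1 / 10 := by
    rw [norm_div, div_le_iff₀ hw']; linarith
  have h2 : z / w = 1 + (z - w) / w := by field_simp; ring
  constructor
  · rw [h2]
    have := norm_log_one_add_half_le_self (z := (z - w) / w) (by linarith)
    linarith
  · apply exp_log
    intro h3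
    rw [h3] at h2
    have : (z - w) / w = -1 := by linear_combination -h2
    rw [this] at h1
    norm_num at h1

theorem wind (g : ℕ → ℂ) (k0 k1 : ℕ) (hk : k0 ≤ k1) (h0 : ∀ k, k0 ≤ k → g k ≠ 0)
    (h1 : ∀ k, k0 ≤ k → ‖g (k + 1) - g k‖ ≤ ‖g k‖ / 10)
    (h2 : ∀ k, k0 ≤ k → ‖g (2 * k) - g k‖ ≤ ‖g k‖ / 10)
    (ψ : ℕ → ℂ) (a1 : ∀ k, k0 ≤ k → k ≤ 2 * k0 → exp (ψ k) = g k)
    (a2 : ∀ k, k0 ≤ k → k < 2 * k0 → ‖ψ (k + 1) - ψ k‖ ≤ 1)
    (a3 : ‖ψ (2 * k0) - ψ k0 - 2 * Real.pi * I‖ ≤ 1)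
    (χ : ℕ → ℂ) (b1 : ∀ k, k1 ≤ k → exp (χ k) = g k)
    (b2 : ∀ k l, k1 ≤ k → k1 ≤ l → ‖χ l - χ k‖ ≤ 1) : False := by
  let l : ℕ → ℂ := fun i => log (g (i + 1) / g i)
  let d : ℕ → ℂ := fun i => log (g (2 * i) / g i)
  have hl := fun k hk => lg _ _ (h0 k hk) (h1 k hk)
  have hd := fun k hk => lg _ _ (h0 k hk) (h2 k hk)
  let L : ℕ → ℂ := fun k => ∑ i ∈ Finset.range k, l i
  have hL : ∀ k, L (k + 1) = L k + l k := fun k => Finset.sum_range_succ _ _
  let Θ : ℕ → ℂ := fun k => L (2 * k) - L k - d k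
  have hΘ : ∀ k, k0 ≤ k → Θ k = Θ k0 := by
    intro k hk
    induction k, hk using Nat.le_induction with
    | base => rfl
    | succ k hk ih =>
      rw [← ih]
      have e1 : l (2 * k) + l (2 * k + 1) + d k = l k + d (k + 1) := by
        apply small
        · simp only [exp_add, l, d]
          rw [(hl _ (by omega : k0 ≤ 2 * k)).2, (hl _ (by omega : k0 ≤ 2 * k + 1)).2, (hd _ hk).2,
            (hl _ hk).2, (hd _ (by omega : k0 ≤ k + 1)).2]
          have := h0 k hk
          have := h0 (2 * k) (by omega)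
          have := h0 (2 * k + 1) (by omega)
          have := h0 (k + 1) (by omega)
          rw [show 2 * (k + 1) = 2 * k + 1 + 1 by ring]
          field_simp
        · have t1 := (hl _ (by omega : k0 ≤ 2 * k)).1
          have t2 := (hl _ (by omega : k0 ≤ 2 * k + 1)).1
          have t3 := (hd _ hk).1
          have t4 := (hl _ hk).1
          have t5 := (hd _ (by omega : k0 ≤ k + 1)).1
          have u1 := norm_sub_le (l (2 * k) + l (2 * k + 1) + d k) (l k + d (k + 1))
          have u2 := norm_add₃_le (a := l (2 * k)) (b := l (2 * k + 1)) (c := d k)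
          have u3 := norm_add_le (l k) (d (k + 1))
          simp only [l, d] at *
          linarith
      simp only [Θ]
      rw [show 2 * (k + 1) = 2 * k + 1 + 1 by ring, hL, hL, hL]
      linear_combination e1
  have lift : ∀ (m : ℕ) (φ : ℕ → ℂ), k0 ≤ m → (∀ k, m ≤ k → k ≤ 2 * m → exp (φ k) = g k) →
      (∀ k, m ≤ k → k < 2 * m → ‖φ (k + 1) - φ k‖ ≤ 1) → L (2 * m) - L m = φ (2 * m) - φ m := by
    intro m φ hm c1 c2
    have : ∀ k, m ≤ k → k ≤ 2 * m → L k - L m = φ k - φ m := by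
      intro k hk
      induction k, hk using Nat.le_induction with
      | base => intro _; simp
      | succ k hk ih =>
        intro hk2
        have e1 : l k = φ (k + 1) - φ k := by
          apply small
          · rw [exp_sub, c1 _ (by omega) hk2, c1 _ hk (by omega)]
            exact (hl k (by omega)).2
          · have t1 := (hl k (by omega)).1
            have t2 := c2 k hk (by omega)
            have t3 := norm_sub_le (l k) (φ (k + 1) - φ k)
            simp only [l] at *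
            linarith
        rw [hL]
        linear_combination ih (by omega) + e1
    exact this _ (by omega) le_rfl
  have e1 := lift k0 ψ le_rfl a1 a2
  have e2 := lift k1 χ hk (fun k h _ => b1 k h) (fun k h _ => b2 _ _ h (by omega))
  have e3 := hΘ k1 hk
  have e4 : (2 * Real.pi * I : ℂ) = (χ (2 * k1) - χ k1) - d k1 + d k0 -
      (ψ (2 * k0) - ψ k0 - 2 * Real.pi * I) := by
    simp only [Θ] at e3
    linear_combination e2 - e1 - e3
  have e5 : ‖(2 * Real.pi * I : ℂ)‖ = 2 * Real.pi := by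
    simp [abs_of_pos Real.pi_pos]
  have t1 := (hd k0 le_rfl).1
  have t2 := (hd k1 hk).1
  have t3 := b2 k1 (2 * k1) le_rfl (by omega)
  have u1 := norm_sub_le ((χ (2 * k1) - χ k1) - d k1 + d k0) (ψ (2 * k0) - ψ k0 - 2 * Real.pi * I)
  have u2 := norm_add_le ((χ (2 * k1) - χ k1) - d k1) (d k0)
  have u3 := norm_sub_le (χ (2 * k1) - χ k1) (d k1)
  rw [← e4, e5] at u1
  simp only [d] at *
  linarith [Real.pi_gt_three]

def tg (e : ℕ × Bool) : ℕ := cond e.2 (2 * e.1) (e.1 + 1)

noncomputable def s (k : ℕ) : ℝ := 1 / √(1 + Real.log k)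
noncomputable def h (k : ℕ) : ℝ := s k ^ 2
noncomputable def ph (k : ℕ) : ℝ := 2 * Real.pi * (Real.log k / Real.log 2)

theorem lg0 (k : ℕ) : 0 ≤ Real.log k := Real.log_natCast_nonneg k

theorem s_pos (k : ℕ) : 0 < s k := by
  have := lg0 k
  unfold s; positivity

theorem h_pos (k : ℕ) : 0 < h k := pow_pos (s_pos k) 2

theorem h_eq (k : ℕ) : h k = 1 / (1 + Real.log k) := by
  have := lg0 k
  unfold h s
  rw [div_pow, Real.sq_sqrt (by linarith), one_pow]

theorem log_mono {k l : ℕ} (hkl : k ≤ l) : Real.log k ≤ Real.log l := by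
  rcases Nat.eq_zero_or_pos k with rfl | hk
  · simpa using lg0 l
  · exact Real.log_le_log (by exact_mod_cast hk) (by exact_mod_cast hkl)

theorem s_anti {k l : ℕ} (hkl : k ≤ l) : s l ≤ s k := by
  have := lg0 k
  have := log_mono hkl
  unfold s
  gcongr

theorem s_le_one (k : ℕ) : s k ≤ 1 := by
  have := s_anti (Nat.zero_le k)
  simpa [s] using this

theorem log_succ (k : ℕ) : Real.log (k + 1 : ℕ) - Real.log k ≤ h k ∧
    (1 ≤ k → Real.log (k + 1 : ℕ) - Real.log k ≤ 1 / k) := by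
  rcases Nat.eq_zero_or_pos k with rfl | hk
  · simp [(h_pos 0).le]
  · have hk' : (0:ℝ) < k := by exact_mod_cast hk
    have h1 : Real.log (k + 1 : ℕ) - Real.log k ≤ 1 / k := by
      rw [← Real.log_div (by positivity) hk'.ne']
      have := Real.log_le_sub_one_of_pos (show (0:ℝ) < ((k + 1 : ℕ) : ℝ) / k by positivity)
      refine this.trans (le_of_eq ?_)
      push_cast; field_simp; ring
    refine ⟨h1.trans ?_, fun _ => h1⟩
    rw [h_eq]
    have := Real.log_le_sub_one_of_pos hk'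
    have := lg0 k
    apply one_div_le_one_div_of_le <;> linarith

theorem tg_ge (e : ℕ × Bool) : e.1 ≤ tg e := by
  obtain ⟨k, β⟩ := e
  cases β <;> simp [tg]; omega

theorem log_tg (e : ℕ × Bool) : Real.log (tg e) ≤ Real.log e.1 + 1 := by
  obtain ⟨k, β⟩ := e
  cases β
  · have h1 := (log_succ k).1
    have h2 : h k ≤ 1 := pow_le_one₀ (s_pos k).le (s_le_one k)
    simp only [tg, cond_false]
    linarith
  · simp only [tg, cond_true]
    rcases Nat.eq_zero_or_pos k with rfl | hk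
    · simp
    · have hk' : (0:ℝ) < k := by exact_mod_cast hk
      push_cast
      rw [Real.log_mul two_ne_zero hk'.ne']
      have := Real.log_two_lt_d9
      linarith

theorem s_tg (e : ℕ × Bool) : s e.1 - s (tg e) ≤ s e.1 * h e.1 ∧ s e.1 ≤ 2 * s (tg e) := by
  have h1 := log_tg e
  have h2 := log_mono (tg_ge e)
  have h3 := lg0 e.1
  unfold h s
  set x := √(1 + Real.log e.1) with hx
  set y := √(1 + Real.log (tg e)) with hy
  have hx2 : x ^ 2 = 1 + Real.log e.1 := Real.sq_sqrt (by linarith)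
  have hy2 : y ^ 2 = 1 + Real.log (tg e) := Real.sq_sqrt (by linarith)
  have hx1 : 1 ≤ x := by rw [hx]; apply Real.le_sqrt_of_sq_le; linarith
  have hxy : x ≤ y := Real.sqrt_le_sqrt (by linarith)
  have hy0 : 0 < y := by linarith
  have hx0 : 0 < x := by linarith
  constructor
  · have e1 : (y - x) * x ≤ 1 := by nlinarith
    rw [div_sub_div _ _ hx0.ne' hy0.ne', div_pow, div_mul_div_comm, div_le_div_iff₀ (by positivity)
      (by positivity)]
    have : (y - x) * x * x ^ 2 ≤ 1 * x ^ 2 := by gcongr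
    nlinarith
  · rw [mul_one_div, div_le_div_iff₀ hx0 hy0]
    nlinarith

noncomputable def u (η : ℝ) (k : ℕ) : ℂ := exp (((η * ph k : ℝ) : ℂ) * I)

theorem u_norm (η : ℝ) (k : ℕ) : ‖u η k‖ = 1 := norm_exp_ofReal_mul_I _

theorem ph_two (k : ℕ) (hk : 1 ≤ k) : ph (2 * k) = ph k + 2 * Real.pi := by
  have hk' : (0:ℝ) < k := by exact_mod_cast hk
  have := Real.log_pos one_lt_two
  unfold ph
  push_cast
  rw [Real.log_mul two_ne_zero hk'.ne']
  field_simp
  ring

theorem ph_succ (k : ℕ) : |ph (k + 1) - ph k| ≤ 10 * (Real.log (k + 1 : ℕ) - Real.log k) := by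
  have h1 := log_mono (Nat.le_succ k)
  have h2 := Real.log_two_gt_d9
  have h3 := Real.pi_lt_d2
  have e : ph (k + 1) - ph k =
      (2 * Real.pi / Real.log 2) * (Real.log (k + 1 : ℕ) - Real.log k) := by unfold ph; ring
  have h4 : 2 * Real.pi / Real.log 2 ≤ 10 := by rw [div_le_iff₀ (by linarith)]; linarith
  have h5 : 0 ≤ 2 * Real.pi / Real.log 2 := by have := Real.pi_pos; positivity
  rw [e, abs_of_nonneg (mul_nonneg h5 (sub_nonneg.2 h1))]
  exact mul_le_mul_of_nonneg_right h4 (sub_nonneg.2 h1)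

theorem u_tg (η : ℝ) (hη : η = 1 ∨ η = -1) (e : ℕ × Bool) :
    ‖u η e.1 - u η (tg e)‖ ≤ 10 * h e.1 := by
  obtain ⟨k, β⟩ := e
  have hp := h_pos k
  cases β
  · simp only [tg, cond_false]
    have e1 : u η k - u η (k + 1) =
        u η (k + 1) * (exp (I * ((η * (ph k - ph (k + 1)) : ℝ) : ℂ)) - 1) := by
      unfold u
      rw [mul_sub, ← exp_add, mul_one]
      congr 2
      push_cast; ring
    rw [e1, norm_mul, u_norm, one_mul]
    refine (Real.norm_exp_I_mul_ofReal_sub_one_le).trans ?_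
    have h1 := ph_succ k
    have h2 := (log_succ k).1
    have h3 : |η| = 1 := by rcases hη with rfl | rfl <;> simp
    rw [Real.norm_eq_abs, abs_mul, h3, one_mul, abs_sub_comm]
    linarith
  · simp only [tg, cond_true]
    rcases Nat.eq_zero_or_pos k with rfl | hk
    · simp; linarith
    · have : u η (2 * k) = u η k := by
        unfold u
        rw [ph_two k hk, exp_eq_exp_iff_exists_int]
        rcases hη with rfl | rfl
        · exact ⟨1, by push_cast; ring⟩
        · exact ⟨-1, by push_cast; ring⟩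
      rw [this]; simp; linarith

noncomputable def F (η c : ℝ) (k : ℕ) : ℂ := ((min (s k) c : ℝ) : ℂ) * u η k

theorem F_norm (η c : ℝ) (hc : 0 < c) (k : ℕ) : ‖F η c k‖ = min (s k) c := by
  unfold F
  rw [norm_mul, u_norm, mul_one, norm_real, Real.norm_of_nonneg (lt_min (s_pos k) hc).le]

theorem F_tg (η c : ℝ) (hη : η = 1 ∨ η = -1) (hc : 0 < c) (e : ℕ × Bool) :
    ‖F η c e.1 - F η c (tg e)‖ ≤ 12 * c * h e.1 := by
  have h1 := u_tg η hη e
  obtain ⟨h2, h3⟩ := s_tg e
  have h4 := s_anti (tg_ge e)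
  have h5 := h_pos e.1
  have e1 : F η c e.1 - F η c (tg e) = ((min (s e.1) c : ℝ) : ℂ) * (u η e.1 - u η (tg e)) +
      ((min (s e.1) c - min (s (tg e)) c : ℝ) : ℂ) * u η (tg e) := by
    unfold F; push_cast; ring
  rw [e1]
  refine (norm_add_le _ _).trans ?_
  rw [norm_mul, norm_mul, u_norm, mul_one, norm_real, norm_real,
    Real.norm_of_nonneg (lt_min (s_pos _) hc).le,
    Real.norm_of_nonneg (sub_nonneg.2 (min_le_min h4 le_rfl))]
  have h6 : min (s e.1) c * ‖u η e.1 - u η (tg e)‖ ≤ c * (10 * h e.1) :=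
    mul_le_mul (min_le_right _ _) h1 (norm_nonneg _) hc.le
  have h7 : min (s e.1) c - min (s (tg e)) c ≤ 2 * c * h e.1 := by
    rcases le_total c (s (tg e)) with h8 | h8
    · rw [min_eq_right h8, min_eq_right (h8.trans h4), sub_self]; positivity
    · rw [min_eq_left h8]
      have := min_le_left (s e.1) c
      nlinarith
  linarith

theorem s_small (c : ℝ) (hc : 0 < c) : ∃ k, s k ≤ c := by
  obtain ⟨k, hk⟩ := exists_nat_gt (Real.exp (1 / c ^ 2))
  refine ⟨k, ?_⟩
  have h1 : 1 / c ^ 2 ≤ Real.log k := by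
    rw [Real.le_log_iff_exp_le ((Real.exp_pos _).trans hk)]; exact hk.le
  have h2 : s k ^ 2 ≤ c ^ 2 := by
    have := h_eq k
    unfold h at this
    rw [this, div_le_iff₀ (by have := lg0 k; linarith)]
    rw [div_le_iff₀ (by positivity)] at h1
    nlinarith
  exact (pow_le_pow_iff_left₀ (s_pos k).le hc.le two_ne_zero).1 h2

theorem core : ∃ ε : ℝ, 0 < ε ∧ ∀ (δ : ℝ) (f g : ℕ → ℂ), 0 < δ →
    (∀ k, f k * g k = F 1 1 k * F (-1) 1 k + δ) → (∀ k, ‖f k - F 1 1 k‖ ≤ ε) →
    (∀ k, ‖g k - F (-1) 1 k‖ ≤ ε) →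
    (∀ e : ℕ × Bool, ‖(f e.1 - F 1 1 e.1) - (f (tg e) - F 1 1 (tg e))‖ ≤ ε * h e.1) →
    (∀ η, 0 < η → ∃ M c, ∀ k, M ≤ k → ‖f k - c‖ ≤ η) → False := by
  obtain ⟨k2, hk2⟩ := s_small (1 / 1000) (by norm_num)
  obtain ⟨k0, hk0⟩ : ∃ k0, k0 = k2 + 100 := ⟨_, rfl⟩
  have hs0 : s k0 ≤ 1 / 1000 := (s_anti (by omega)).trans hk2
  refine ⟨s (2 * k0) / 10, by have := s_pos (2 * k0); positivity, ?_⟩
  intro δ f g hδ hfg hf hg hd hlim
  have hε : s (2 * k0) / 10 ≤ 1 / 1000 := by have := s_anti (by omega : k0 ≤ 2 * k0); linarith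
  have hF : ∀ η k, F η 1 k = (s k : ℂ) * u η k := fun η k => by
    unfold F; rw [min_eq_left (s_le_one k)]
  have hlow : ∀ k, (h k + δ) / 2 ≤ ‖f k‖ := by
    intro k
    have e1 : F 1 1 k * F (-1) 1 k + δ = ((h k + δ : ℝ) : ℂ) := by
      have : u 1 k * u (-1) k = 1 := by
        unfold u; rw [← exp_add, ← exp_zero]; congr 1; push_cast; ring
      rw [hF, hF]; unfold h; push_cast
      linear_combination (s k : ℂ) ^ 2 * this
    have e2 := congrArg norm (hfg k)
    rw [e1, norm_mul, norm_real, Real.norm_of_nonneg (by have := h_pos k; linarith)] at e2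
    have e3 : ‖g k‖ ≤ 2 := by
      have t1 := norm_le_norm_add_norm_sub' (g k) (F (-1) 1 k)
      have t2 := F_norm (-1) 1 one_pos k
      have t3 := min_le_right (s k) 1
      have := hg k
      linarith
    have := norm_nonneg (f k)
    nlinarith
  have hedge : ∀ e : ℕ × Bool, k0 ≤ e.1 → ‖f (tg e) - f e.1‖ ≤ ‖f e.1‖ / 10 := by
    intro e he
    have t1 := F_tg 1 (s k0) (Or.inl rfl) (s_pos k0) e
    have t2 : ∀ k, k0 ≤ k → F 1 (s k0) k = F 1 1 k := fun k hk => by
      unfold F; rw [min_eq_left (s_le_one k), min_eq_left (s_anti hk)]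
    rw [t2 _ he, t2 _ (he.trans (tg_ge e))] at t1
    have t3 := hd e
    have t4 := norm_add_le ((f e.1 - F 1 1 e.1) - (f (tg e) - F 1 1 (tg e)))
      (F 1 1 e.1 - F 1 1 (tg e))
    rw [show (f e.1 - F 1 1 e.1) - (f (tg e) - F 1 1 (tg e)) + (F 1 1 e.1 - F 1 1 (tg e)) =
      f e.1 - f (tg e) by ring, norm_sub_rev] at t4
    have t5 := hlow e.1
    have t6 := h_pos e.1
    nlinarith
  obtain ⟨M, c, hM⟩ := hlim (δ / 100) (by positivity)
  have hc : δ / 4 ≤ ‖c‖ := by
    have t1 := hM M le_rfl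
    have t2 := hlow M
    have t3 := h_pos M
    have t4 := norm_le_norm_add_norm_sub' (f M) c
    linarith
  have hc0 : c ≠ 0 := norm_pos_iff.1 (by linarith)
  have hq := fun k (hk : M ≤ k) => lg (f k) c hc0 ((hM k hk).trans (by linarith))
  have hF0 : ∀ k, F 1 1 k ≠ 0 := fun k => norm_pos_iff.1 (by
    rw [F_norm 1 1 one_pos]; exact lt_min (s_pos k) one_pos)
  have hp := fun k (hk : k ≤ 2 * k0) => lg (f k) (F 1 1 k) (hF0 k) ((hf k).trans (by
    rw [F_norm 1 1 one_pos, min_eq_left (s_le_one k)]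
    have := s_anti hk; linarith))
  have hls : ∀ e : ℕ × Bool, k0 ≤ e.1 → |Real.log (s (tg e)) - Real.log (s e.1)| ≤ 1 / 10 := by
    intro e he
    obtain ⟨t1, t2⟩ := s_tg e
    have t3 := s_anti (tg_ge e)
    have t4 := s_pos e.1
    have t5 := s_pos (tg e)
    have t6 : h e.1 ≤ 1 / 1000 := by
      have := s_anti he
      unfold h; nlinarith
    rw [abs_sub_comm, abs_of_nonneg (sub_nonneg.2 (Real.log_le_log t5 t3)),
      ← Real.log_div t4.ne' t5.ne']
    refine (Real.log_le_sub_one_of_pos (by positivity)).trans ?_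
    rw [sub_le_iff_le_add, div_le_iff₀ t5]
    nlinarith
  refine wind f k0 (max k0 M) (le_max_left _ _)
    (fun k _ => norm_pos_iff.1 (by have := hlow k; have := h_pos k; linarith))
    (fun k hk => hedge (k, false) hk) (fun k hk => hedge (k, true) hk)
    (fun k => (Real.log (s k) : ℂ) + ((1 * ph k : ℝ) : ℂ) * I + log (f k / F 1 1 k)) ?_ ?_ ?_
    (fun k => log c + log (f k / c)) ?_ ?_
  · intro k _ hk
    rw [exp_add, exp_add, (hp k hk).2, ← ofReal_exp, Real.exp_log (s_pos k)]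
    have := hF 1 k
    unfold u at this
    rw [← this]
    field_simp [hF0 k]
  · intro k hk1 hk2
    have t1 := (hp k hk2.le).1
    have t2 := (hp (k + 1) hk2).1
    have t3 := hls (k, false) hk1
    have t4 := ph_succ k
    have t5 := (log_succ k).2 (by omega)
    have t6 : (1:ℝ) / k ≤ 1 / 100 := by
      apply one_div_le_one_div_of_le (by norm_num)
      exact_mod_cast (by omega : 100 ≤ k)
    have e1 : (Real.log (s (k + 1)) : ℂ) + ((1 * ph (k + 1) : ℝ) : ℂ) * I +
        log (f (k + 1) / F 1 1 (k + 1)) -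
        ((Real.log (s k) : ℂ) + ((1 * ph k : ℝ) : ℂ) * I + log (f k / F 1 1 k)) =
        ((Real.log (s (k + 1)) - Real.log (s k) : ℝ) : ℂ) + ((ph (k + 1) - ph k : ℝ) : ℂ) * I +
        (log (f (k + 1) / F 1 1 (k + 1)) - log (f k / F 1 1 k)) := by push_cast; ring
    rw [e1]
    refine norm_add₃_le.trans ?_
    rw [norm_mul, norm_I, mul_one, norm_real, norm_real, Real.norm_eq_abs, Real.norm_eq_abs]
    have t7 := norm_sub_le (log (f (k + 1) / F 1 1 (k + 1))) (log (f k / F 1 1 k))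
    simp only [tg, cond_false] at t3
    linarith
  · have t1 := (hp k0 (by omega)).1
    have t2 := (hp (2 * k0) le_rfl).1
    have t3 := hls (k0, true) le_rfl
    have e1 : (Real.log (s (2 * k0)) : ℂ) + ((1 * ph (2 * k0) : ℝ) : ℂ) * I +
        log (f (2 * k0) / F 1 1 (2 * k0)) -
        ((Real.log (s k0) : ℂ) + ((1 * ph k0 : ℝ) : ℂ) * I + log (f k0 / F 1 1 k0)) -
        2 * Real.pi * I =
        ((Real.log (s (2 * k0)) - Real.log (s k0) : ℝ) : ℂ) +
        (log (f (2 * k0) / F 1 1 (2 * k0)) - log (f k0 / F 1 1 k0)) := by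
      rw [ph_two k0 (by omega)]; push_cast; ring
    rw [e1]
    refine (norm_add_le _ _).trans ?_
    rw [norm_real, Real.norm_eq_abs]
    have t7 := norm_sub_le (log (f (2 * k0) / F 1 1 (2 * k0))) (log (f k0 / F 1 1 k0))
    simp only [tg, cond_true] at t3
    linarith
  · intro k hk
    rw [exp_add, exp_log hc0, (hq k ((le_max_right _ _).trans hk)).2]
    field_simp
  · intro k l hk hl
    have t1 := (hq k ((le_max_right _ _).trans hk)).1
    have t2 := (hq l ((le_max_right _ _).trans hl)).1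
    rw [add_sub_add_left_eq_sub]
    have := norm_sub_le (log (f l / c)) (log (f k / c))
    linarith

end Pool.Agent.H26.OpenMul
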