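import Mathlib
import Pool.Agent.H26.OpenMulA

namespace Pool.Agent.H26.OpenMul

open BoundedContinuousFunction

abbrev Op0 := ℂ × ℂ →L[ℂ] ℂ × ℂ

noncomputable def T (p q r : ℂ) : Op0 :=
  p • (ContinuousLinearMap.inl ℂ ℂ ℂ).comp (ContinuousLinearMap.fst ℂ ℂ ℂ) +
  q • (ContinuousLinearMap.inl ℂ ℂ ℂ).comp (ContinuousLinearMap.snd ℂ ℂ ℂ) +
  r • (ContinuousLinearMap.inr ℂ ℂ ℂ).comp (ContinuousLinearMap.snd ℂ ℂ ℂ)

theorem T_apply (p q r : ℂ) (v : ℂ × ℂ) : T p q r v = (p * v.1 + q * v.2, r * v.2) := by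
  simp [T]

noncomputable def rep0 (f : ℕ → ℂ) (e : ℕ × Bool) : Op0 :=
  T (f e.1) ((f e.1 - f (tg e)) / h e.1) (f (tg e))

theorem h_ne (k : ℕ) : (h k : ℂ) ≠ 0 := by exact_mod_cast (h_pos k).ne'

theorem rep0_mul (f g : ℕ → ℂ) (e) : rep0 (f * g) e = rep0 f e * rep0 g e := by
  have := h_ne e.1
  refine ContinuousLinearMap.ext fun v => ?_
  simp only [rep0, ContinuousLinearMap.mul_apply, T_apply, Pi.mul_apply, Prod.mk.injEq]
  constructor
  · field_simp; ring
  · ring

theorem rep0_add (f g : ℕ → ℂ) (e) : rep0 (f + g) e = rep0 f e + rep0 g e := by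
  refine ContinuousLinearMap.ext fun v => ?_
  simp only [rep0, ContinuousLinearMap.add_apply, T_apply, Pi.add_apply, Prod.mk_add_mk,
    Prod.mk.injEq]
  constructor <;> ring

theorem rep0_smul (c : ℂ) (f : ℕ → ℂ) (e) : rep0 (c • f) e = c • rep0 f e := by
  refine ContinuousLinearMap.ext fun v => ?_
  simp only [rep0, ContinuousLinearMap.smul_apply, T_apply, Pi.smul_apply, Prod.smul_mk,
    Prod.mk.injEq, smul_eq_mul]
  constructor <;> ring

theorem rep0_const (c : ℂ) (e) : rep0 (fun _ => c) e = c • (1 : Op0) := by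
  refine ContinuousLinearMap.ext fun v => ?_
  simp only [rep0, T_apply]
  ext <;> simp

theorem rep0_le (f : ℕ → ℂ) (C D : ℝ) (h1 : ∀ k, ‖f k‖ ≤ C)
    (h2 : ∀ e : ℕ × Bool, ‖f e.1 - f (tg e)‖ ≤ D * h e.1) (e) : ‖rep0 f e‖ ≤ C + D := by
  have hC : 0 ≤ C := (norm_nonneg _).trans (h1 0)
  have h3 : ‖(f e.1 - f (tg e)) / h e.1‖ ≤ D := by
    rw [norm_div, Complex.norm_real, Real.norm_of_nonneg (h_pos _).le, div_le_iff₀ (h_pos _)]
    exact h2 e
  have hD : 0 ≤ D := (norm_nonneg _).trans h3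
  apply ContinuousLinearMap.opNorm_le_bound _ (by linarith)
  intro v
  have v1 := norm_fst_le v
  have v2 := norm_snd_le v
  rw [rep0, T_apply, Prod.norm_def]
  apply max_le
  · refine (norm_add_le _ _).trans ?_
    rw [norm_mul, norm_mul, add_mul]
    exact add_le_add (mul_le_mul (h1 _) v1 (norm_nonneg _) hC) (mul_le_mul h3 v2 (norm_nonneg _) hD)
  · rw [norm_mul]
    exact mul_le_mul ((h1 _).trans (by linarith)) v2 (norm_nonneg _) (by linarith)

theorem le_rep0 (f : ℕ → ℂ) (e : ℕ × Bool) :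
    ‖f e.1‖ ≤ ‖rep0 f e‖ ∧ ‖f e.1 - f (tg e)‖ ≤ ‖rep0 f e‖ * h e.1 := by
  constructor
  · have := (norm_fst_le _).trans ((rep0 f e).le_opNorm (1, 0))
    simpa [rep0, T_apply] using this
  · have := (norm_fst_le _).trans ((rep0 f e).le_opNorm (0, 1))
    simp only [rep0, T_apply, mul_zero, mul_one, zero_add, Prod.norm_mk, norm_zero, norm_one,
      zero_le_one, sup_of_le_right] at this
    rwa [norm_div, Complex.norm_real, Real.norm_of_nonneg (h_pos _).le,
      div_le_iff₀ (h_pos _)] at this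

def Op : Type := Op0

noncomputable instance : NormedRing Op := inferInstanceAs (NormedRing Op0)
noncomputable instance : NormedAlgebra ℂ Op := inferInstanceAs (NormedAlgebra ℂ Op0)
instance : CompleteSpace Op := inferInstanceAs (CompleteSpace Op0)
instance : NormOneClass Op := inferInstanceAs (NormOneClass Op0)

abbrev Cb := (ℕ × Bool) →ᵇ Op

noncomputable def rep (f : ℕ → ℂ) (e : ℕ × Bool) : Op := rep0 f e

theorem rep_mul (f g : ℕ → ℂ) (e) : rep (f * g) e = rep f e * rep g e := rep0_mul f g e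
theorem rep_add (f g : ℕ → ℂ) (e) : rep (f + g) e = rep f e + rep g e := rep0_add f g e
theorem rep_smul (c : ℂ) (f : ℕ → ℂ) (e) : rep (c • f) e = c • rep f e := rep0_smul c f e
theorem rep_const (c : ℂ) (e) : rep (fun _ => c) e = c • (1 : Op) := rep0_const c e
theorem rep_le (f : ℕ → ℂ) (C D : ℝ) (h1 : ∀ k, ‖f k‖ ≤ C)
    (h2 : ∀ e : ℕ × Bool, ‖f e.1 - f (tg e)‖ ≤ D * h e.1) (e) : ‖rep f e‖ ≤ C + D :=
  rep0_le f C D h1 h2 e
theorem le_rep (f : ℕ → ℂ) (e : ℕ × Bool) :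
    ‖f e.1‖ ≤ ‖rep f e‖ ∧ ‖f e.1 - f (tg e)‖ ≤ ‖rep f e‖ * h e.1 := le_rep0 f e

noncomputable def e11 (x : Op0) : ℂ := (x (1, 0)).1

theorem e11_cont : Continuous (fun x : Op => e11 x) := by
  show Continuous (fun x : Op0 => (x (1, 0)).1)
  fun_prop

theorem rep_cont (e : ℕ × Bool) : Continuous (fun f => rep f e) := by
  show Continuous (fun f => rep0 f e)
  unfold rep0 T
  fun_prop

noncomputable def ev (x : Cb) (k : ℕ) : ℂ := e11 (x (k, false))

theorem ev_rep (x : Cb) (f : ℕ → ℂ) (hx : ∀ e, x e = rep f e) : ev x = f := by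
  funext k
  simp [ev, hx, rep, rep0, e11, T_apply]

theorem ev_cont (k : ℕ) : Continuous (fun x => ev x k) := by
  exact e11_cont.comp (by fun_prop)

noncomputable def P : Subalgebra ℂ Cb where
  carrier := {x | ∃ f M, (∀ k, M ≤ k → f k = f M) ∧ ∀ e, x e = rep f e}
  mul_mem' := by
    rintro x y ⟨f, M, h1, h2⟩ ⟨g, N, h3, h4⟩
    refine ⟨f * g, max M N, fun k hk => ?_, fun e => ?_⟩
    · simp only [Pi.mul_apply]
      rw [h1 k ((le_max_left _ _).trans hk), h3 k ((le_max_right _ _).trans hk),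
        h1 _ (le_max_left _ _), h3 _ (le_max_right _ _)]
    · rw [rep_mul, ← h2, ← h4]; rfl
  add_mem' := by
    rintro x y ⟨f, M, h1, h2⟩ ⟨g, N, h3, h4⟩
    refine ⟨f + g, max M N, fun k hk => ?_, fun e => ?_⟩
    · simp only [Pi.add_apply]
      rw [h1 k ((le_max_left _ _).trans hk), h3 k ((le_max_right _ _).trans hk),
        h1 _ (le_max_left _ _), h3 _ (le_max_right _ _)]
    · rw [rep_add, ← h2, ← h4]; rfl
  algebraMap_mem' := fun c => ⟨fun _ => c, 0, fun _ _ => rfl, fun e => by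
    rw [rep_const, Algebra.algebraMap_eq_smul_one]; rfl⟩

noncomputable def A : Subalgebra ℂ Cb := P.topologicalClosure

theorem A_rep (x : Cb) (hx : x ∈ A) : ∀ e, x e = rep (ev x) e := by
  have h1 : IsClosed {x : Cb | ∀ e, x e = rep (ev x) e} := by
    rw [Set.ofPred_forall]
    refine isClosed_iInter fun e => isClosed_eq (by fun_prop) ?_
    exact (rep_cont e).comp (continuous_pi ev_cont)
  refine closure_minimal (s := (P : Set Cb)) ?_ h1 hx
  rintro y ⟨f, M, -, h2⟩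
  show ∀ e, y e = rep (ev y) e
  rw [ev_rep y f h2]
  exact h2

theorem A_comm (x y : A) : x * y = y * x := by
  apply Subtype.ext
  ext1 e
  show x.1 e * y.1 e = y.1 e * x.1 e
  rw [A_rep _ x.2, A_rep _ y.2, ← rep_mul, ← rep_mul, mul_comm]

noncomputable instance : NormedCommRing A :=
  { (inferInstance : NormedRing A) with mul_comm := A_comm }

instance : CompleteSpace A := (P.isClosed_topologicalClosure).completeSpace_coe

noncomputable def el (f : ℕ → ℂ) (C D : ℝ) (h1 : ∀ k, ‖f k‖ ≤ C)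
    (h2 : ∀ e : ℕ × Bool, ‖f e.1 - f (tg e)‖ ≤ D * h e.1) : Cb :=
  ofNormedAddCommGroupDiscrete (rep f) (C + D) (rep_le f C D h1 h2)

theorem exists_idem (M : ℕ) : ∃ x : A, x * x = x ∧ x.1 ∈ P ∧
    ∀ e, x.1 e = rep (Pi.single M 1) e := by
  have h1 : ∀ k, ‖(Pi.single M 1 : ℕ → ℂ) k‖ ≤ 1 := by
    intro k; by_cases hk : k = M <;> simp [Pi.single_apply, hk]
  have h2 : ∀ e : ℕ × Bool, ‖(Pi.single M 1 : ℕ → ℂ) e.1 - (Pi.single M 1 : ℕ → ℂ) (tg e)‖ ≤
      (2 / h M) * h e.1 := by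
    intro e
    have t1 := h_pos M
    have t2 := h_pos e.1
    by_cases he : e.1 ≤ M
    · have t3 : h M ≤ h e.1 := pow_le_pow_left₀ (s_pos M).le (s_anti he) 2
      refine (norm_sub_le _ _).trans ?_
      have := h1 e.1
      have := h1 (tg e)
      rw [div_mul_eq_mul_div, le_div_iff₀ t1]
      nlinarith
    · have := tg_ge e
      rw [Pi.single_eq_of_ne (by omega), Pi.single_eq_of_ne (by omega), sub_self, norm_zero]
      positivity
  have h3 : el _ _ _ h1 h2 ∈ P := ⟨_, M + 1, fun k hk => by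
    rw [Pi.single_eq_of_ne (by omega), Pi.single_eq_of_ne (by omega)], fun e => rfl⟩
  refine ⟨⟨_, P.le_topologicalClosure h3⟩, ?_, h3, fun e => rfl⟩
  apply Subtype.ext
  ext1 e
  show rep _ e * rep _ e = rep _ e
  rw [← rep_mul]
  congr 1
  funext k
  by_cases hk : k = M <;> simp [Pi.single_apply, hk]

theorem P_span (M : ℕ) : ∀ (x : A) (f : ℕ → ℂ), (∀ k, M ≤ k → f k = f M) →
    (∀ e, x.1 e = rep f e) → x ∈ Submodule.span ℂ {e : A | e * e = e} := by
  induction M with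
  | zero =>
    intro x f h1 h2
    have : x = f 0 • (1 : A) := by
      apply Subtype.ext
      ext1 e
      have : f = fun _ => f 0 := funext fun k => h1 k (Nat.zero_le k)
      rw [h2, this, rep_const]; rfl
    rw [this]
    exact Submodule.smul_mem _ _ (Submodule.subset_span (one_mul (1 : A)))
  | succ M ih =>
    intro x f h1 h2
    obtain ⟨y, hy1, -, hy2⟩ := exists_idem M
    have := ih (x + (f (M + 1) - f M) • y) (f + (f (M + 1) - f M) • Pi.single M 1) (by
      intro k hk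
      rcases hk.eq_or_lt with rfl | hk
      · rfl
      · simp [Pi.single_eq_of_ne hk.ne', h1 k hk]) (by
      intro e
      rw [rep_add, rep_smul, ← h2, ← hy2]; rfl)
    have h3 := Submodule.sub_mem _ this
      (Submodule.smul_mem _ (f (M + 1) - f M) (Submodule.subset_span (s := {e : A | e * e = e}) hy1))
    simpa using h3

theorem approx (x : A) (η : ℝ) (hη : 0 < η) : ∃ y : A, y.1 ∈ P ∧ dist x y < η := by
  obtain ⟨y, hy, hxy⟩ := Metric.mem_closure_iff.1 (show x.1 ∈ closure (P : Set Cb) from x.2) η hη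
  exact ⟨⟨y, P.le_topologicalClosure hy⟩, hy, hxy⟩

theorem dense_idem : Dense (Submodule.span ℂ {e : A | e * e = e} : Set A) := by
  intro x
  rw [Metric.mem_closure_iff]
  intro η hη
  obtain ⟨y, ⟨f, M, h1, h2⟩, hxy⟩ := approx x η hη
  exact ⟨y, P_span M y f h1 h2, hxy⟩

theorem exists_F (η : ℝ) (hη : η = 1 ∨ η = -1) : ∃ a : A, ∀ e, a.1 e = rep (F η 1) e := by
  have hb : ∀ c : ℝ, 0 < c → ∀ k, ‖F η c k‖ ≤ c := fun c hc k => by
    rw [F_norm η c hc]; exact min_le_right _ _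
  let x : ∀ c : ℝ, 0 < c → Cb := fun c hc => el (F η c) c (12 * c) (hb c hc) (F_tg η c hη hc)
  refine ⟨⟨x 1 one_pos, ?_⟩, fun e => rfl⟩
  show x 1 one_pos ∈ closure (P : Set Cb)
  rw [Metric.mem_closure_iff]
  intro ε hε
  have hc : 0 < ε / 14 := by positivity
  obtain ⟨M, hM⟩ := s_small _ hc
  refine ⟨x 1 one_pos + (-1 : ℂ) • x _ hc, ⟨F η 1 + (-1 : ℂ) • F η (ε / 14), M, ?_, fun e => ?_⟩, ?_⟩
  · have : ∀ k, M ≤ k → (F η 1 + (-1 : ℂ) • F η (ε / 14)) k = 0 := by
      intro k hk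
      simp only [Pi.add_apply, Pi.smul_apply, F, min_eq_left (s_le_one k),
        min_eq_left ((s_anti hk).trans hM), smul_eq_mul]
      ring
    intro k hk
    rw [this k hk, this M le_rfl]
  · rw [rep_add, rep_smul]; rfl
  · rw [dist_eq_norm]
    have : x 1 one_pos - (x 1 one_pos + (-1 : ℂ) • x _ hc) = x _ hc := by simp
    rw [this]
    refine lt_of_le_of_lt ((BoundedContinuousFunction.norm_le (by positivity)).2
      (rep_le _ _ _ (hb _ hc) (F_tg η _ hη hc))) (by linarith)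

theorem ev_bd (x : A) : (∀ k, ‖ev x.1 k‖ ≤ ‖x‖) ∧
    ∀ e : ℕ × Bool, ‖ev x.1 e.1 - ev x.1 (tg e)‖ ≤ ‖x‖ * h e.1 := by
  have h1 : ∀ e, ‖rep (ev x.1) e‖ ≤ ‖x‖ := fun e => by
    rw [← A_rep _ x.2]; exact x.1.norm_coe_le_norm e
  exact ⟨fun k => (le_rep _ (k, false)).1.trans (h1 _), fun e => (le_rep _ e).2.trans
    (mul_le_mul_of_nonneg_right (h1 e) (h_pos _).le)⟩

theorem ev_sub (x y : A) (k : ℕ) : ev (x - y).1 k = ev x.1 k - ev y.1 k := rfl

theorem main : ∃ (a b : A) (ε : ℝ), 0 < ε ∧ ∀ δ : ℝ, 0 < δ → ∀ x y : A,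
    dist x a < ε → dist y b < ε → x * y ≠ a * b + (δ : ℂ) • 1 := by
  obtain ⟨a, ha⟩ := exists_F 1 (Or.inl rfl)
  obtain ⟨b, hb⟩ := exists_F (-1) (Or.inr rfl)
  obtain ⟨ε, hε, hcore⟩ := core
  refine ⟨a, b, ε, hε, fun δ hδ x y hx hy hxy => ?_⟩
  rw [dist_eq_norm] at hx hy
  have ea := ev_rep _ _ ha
  have eb := ev_rep _ _ hb
  apply hcore δ (ev x.1) (ev y.1) hδ
  · have h1 : ev (x * y).1 = ev x.1 * ev y.1 := ev_rep _ _ fun e => by
      rw [rep_mul, ← A_rep _ x.2, ← A_rep _ y.2]; rfl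
    have h2 : ev (a * b + (δ : ℂ) • (1 : A)).1 = F 1 1 * F (-1) 1 + fun _ => (δ : ℂ) :=
      ev_rep _ _ fun e => by
        rw [rep_add, rep_mul, rep_const, ← ha, ← hb]; rfl
    intro k
    rw [hxy, h2] at h1
    exact (congrFun h1 k).symm
  · intro k
    have := (ev_bd (x - a)).1 k
    rw [ev_sub, ea] at this
    linarith
  · intro k
    have := (ev_bd (y - b)).1 k
    rw [ev_sub, eb] at this
    linarith
  · intro e
    have := (ev_bd (x - a)).2 e
    rw [ev_sub, ev_sub, ea] at this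
    exact this.trans (mul_le_mul_of_nonneg_right hx.le (h_pos _).le)
  · intro η hη
    obtain ⟨z, ⟨f, M, h1, h2⟩, hz⟩ := approx x η hη
    refine ⟨M, f M, fun k hk => ?_⟩
    have := (ev_bd (x - z)).1 k
    rw [ev_sub, ev_rep _ _ h2, h1 k hk] at this
    rw [dist_eq_norm] at hz
    linarith

theorem zero_dim {B : Type*} [NormedCommRing B] [NormedAlgebra ℂ B] [CompleteSpace B]
    (hd : Dense (Submodule.span ℂ {e : B | e * e = e} : Set B)) :
    TopologicalSpace.IsTopologicalBasis {U : Set (WeakDual.characterSpace ℂ B) | IsClopen U} := by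
  haveI : TotallySeparatedSpace (WeakDual.characterSpace ℂ B) := by
    rw [totallySeparatedSpace_iff_exists_isClopen]
    intro φ ψ hne
    obtain ⟨e, he, hφψ⟩ : ∃ e : B, e * e = e ∧ φ e ≠ ψ e := by
      by_contra hcon
      push Not at hcon
      apply hne
      have h1 : (WeakDual.CharacterSpace.toCLM φ) = WeakDual.CharacterSpace.toCLM ψ :=
        ContinuousLinearMap.ext_on hd (fun e he => hcon e he)
      ext x
      exact congrArg (fun l : B →L[ℂ] ℂ => l x) h1
    have hc : Continuous (fun χ : WeakDual.characterSpace ℂ B => χ e) :=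
      (WeakDual.eval_continuous e).comp continuous_subtype_val
    have h01 : ∀ χ : WeakDual.characterSpace ℂ B, χ e = 0 ∨ χ e = 1 := by
      intro χ
      have : χ e * χ e = χ e := by rw [← map_mul, he]
      exact IsIdempotentElem.iff_eq_zero_or_one.1 this
    refine ⟨{χ | χ e = φ e}, ⟨isClosed_eq hc continuous_const, ?_⟩, rfl, fun h => hφψ (Eq.symm h)⟩
    have : {χ : WeakDual.characterSpace ℂ B | χ e = φ e} = {χ | χ e = ψ e}ᶜ := by
      ext χ
      simp only [Set.mem_ofPred_eq, Set.mem_compl_iff]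
      rcases h01 χ with h1 | h1 <;> rcases h01 φ with h2 | h2 <;> rcases h01 ψ with h3 | h3 <;>
        simp_all
    rw [this]
    exact (isClosed_eq hc continuous_const).isOpen_compl
  exact isTopologicalBasis_isClopen

end Pool.Agent.H26.OpenMul
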