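import Mathlib

namespace Pool.Agent.H26.PosIso

def PI (E F : Type*) [NormedAddCommGroup E] [NormedSpace ℝ E] [PartialOrder E]
    [NormedAddCommGroup F] [NormedSpace ℝ F] [PartialOrder F] : Prop :=
  ∃ T : E ≃L[ℝ] F, ∀ x, 0 ≤ x → 0 ≤ T x

section
variable {E F G : Type*} [NormedAddCommGroup E] [NormedSpace ℝ E] [PartialOrder E]
    [NormedAddCommGroup F] [NormedSpace ℝ F] [PartialOrder F]
    [NormedAddCommGroup G] [NormedSpace ℝ G] [PartialOrder G]

theorem PI.trans (h1 : PI E F) (h2 : PI F G) : PI E G := by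
  obtain ⟨S, hS⟩ := h1
  obtain ⟨T, hT⟩ := h2
  exact ⟨S.trans T, fun x hx => hT _ (hS x hx)⟩

theorem PI.comm : PI (E × F) (F × E) :=
  ⟨ContinuousLinearEquiv.prodComm ℝ E F, fun x hx => ⟨hx.2, hx.1⟩⟩

theorem PI.of_bij [CompleteSpace E] [CompleteSpace F] (T : E →L[ℝ] F) (h : Function.Bijective T)
    (hp : ∀ x, 0 ≤ x → 0 ≤ T x) : PI E F :=
  ⟨ContinuousLinearEquiv.ofBijective T (LinearMap.ker_eq_bot.2 h.1) (LinearMap.range_eq_top.2 h.2),
    hp⟩
end

theorem bij_half {V : Type*} [NormedAddCommGroup V] [NormedSpace ℝ V] [CompleteSpace V]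
    (A : V →L[ℝ] V) (hA : ∀ v, ‖A v‖ ≤ ‖v‖) : Function.Bijective (fun v => v + v + A v) := by
  have h1 : ‖A‖ ≤ 1 := A.opNorm_le_bound zero_le_one (by simpa using hA)
  have h2 : ‖(-(1/2 : ℝ)) • A‖ < 1 := by
    rw [norm_smul]
    have : ‖(-(1/2 : ℝ))‖ = 1/2 := by norm_num
    rw [this]; linarith
  have h3 := isUnit_one_sub_of_norm_lt_one h2
  rw [ContinuousLinearMap.isUnit_iff_bijective] at h3
  have h4 : Function.Bijective (fun v : V => (2:ℝ) • v) :=
    (MulAction.bijective (Units.mk0 (2:ℝ) two_ne_zero))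
  have := h4.comp h3
  convert this using 1
  funext v
  simp only [Function.comp, ContinuousLinearMap.sub_apply, ContinuousLinearMap.one_apply,
    ContinuousLinearMap.smul_apply]
  module

section
variable {E V Z : Type*}
    [NormedAddCommGroup E] [NormedSpace ℝ E] [PartialOrder E] [CompleteSpace E]
    [IsOrderedAddMonoid E]
    [NormedAddCommGroup V] [NormedSpace ℝ V] [PartialOrder V] [CompleteSpace V]
    [IsOrderedAddMonoid V]
    [NormedAddCommGroup Z] [NormedSpace ℝ Z] [PartialOrder Z] [CompleteSpace Z]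

theorem absorb (e : V →L[ℝ] E) (ρ : E →L[ℝ] V) (he : ∀ v, 0 ≤ v → 0 ≤ e v)
    (hρ : ∀ y, 0 ≤ y → 0 ≤ ρ y) (hρe : ∀ v, ρ (e v) = v)
    (s : V →L[ℝ] V × Z) (hs : Function.Bijective s) (hp : ∀ v, 0 ≤ v ↔ 0 ≤ s v)
    (hn1 : ∀ v, ‖(s v).1‖ ≤ ‖v‖) (hn2 : ∀ v, ‖v‖ ≤ ‖s v‖) :
    PI (E × Z) E ∧ PI E (E × Z) := by
  let S : V ≃L[ℝ] V × Z :=
    ContinuousLinearEquiv.ofBijective s (LinearMap.ker_eq_bot.2 hs.1)
      (LinearMap.range_eq_top.2 hs.2)
  have hS : ∀ v, S v = s v := fun v => rfl
  let t : V × Z →L[ℝ] V := S.symm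
  have hst : ∀ p, s (t p) = p := fun p => S.apply_symm_apply p
  have hts : ∀ v, t (s v) = v := fun v => S.symm_apply_apply v
  have ht : ∀ p, 0 ≤ p → 0 ≤ t p := fun p h => (hp _).2 (by rw [hst]; exact h)
  constructor
  · have hB := bij_half ((ContinuousLinearMap.fst ℝ V Z).comp s) hn1
    let W : E × Z →L[ℝ] V × Z :=
      (ρ.comp (ContinuousLinearMap.fst ℝ E Z) + ρ.comp (ContinuousLinearMap.fst ℝ E Z)).prod
        (ContinuousLinearMap.snd ℝ E Z)
    have hW : ∀ p : E × Z, W p = (ρ p.1 + ρ p.1, p.2) := fun p => rfl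
    let T : E × Z →L[ℝ] E := ContinuousLinearMap.fst ℝ E Z + e.comp (t.comp W)
    have hT : ∀ p : E × Z, T p = p.1 + e (t (ρ p.1 + ρ p.1, p.2)) := fun p => rfl
    refine PI.of_bij T ⟨?_, ?_⟩ ?_
    · rw [injective_iff_map_eq_zero]
      rintro ⟨y, z⟩ h
      rw [hT] at h
      have h1 := congrArg (fun w => s (ρ w)) h
      simp only [map_add, hρe, hst, map_zero] at h1
      have h2 := congrArg Prod.fst h1
      have h3 := congrArg Prod.snd h1
      simp only [Prod.fst_add, Prod.snd_add, Prod.fst_zero, Prod.snd_zero] at h2 h3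
      have h4 : ρ y = 0 := by
        apply hB.1
        simp only [ContinuousLinearMap.comp_apply, ContinuousLinearMap.coe_fst', map_zero, add_zero,
          Prod.fst_zero]
        rw [← h2]; abel
      rw [h4] at h3 h
      simp only [map_zero, Prod.snd_zero, zero_add] at h3
      subst h3
      simp only [add_zero, Prod.mk_zero_zero, map_zero] at h
      simp [h]
    · intro w
      obtain ⟨v, hv⟩ := hB.2 (s (ρ w)).1
      simp only [ContinuousLinearMap.comp_apply, ContinuousLinearMap.coe_fst'] at hv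
      let z := (s (ρ w)).2 - (s v).2
      have h1 : v + t (v + v, z) = ρ w := by
        apply hs.1
        rw [map_add, hst]
        ext
        · simp only [Prod.fst_add]; rw [← hv]; abel
        · simp [z]
      have h2 : ρ (w - e (t (v + v, z))) = v := by
        rw [map_sub, hρe, ← h1]; abel
      refine ⟨(w - e (t (v + v, z)), z), ?_⟩
      rw [hT]
      simp only [h2]
      abel
    · intro p hp'
      rw [hT]
      exact add_nonneg hp'.1 (he _ (ht _ ⟨add_nonneg (hρ _ hp'.1) (hρ _ hp'.1), hp'.2⟩))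
  · have hB := bij_half (t.comp (ContinuousLinearMap.inl ℝ V Z)) (by
      intro v
      have := hn2 (t (v, 0))
      rw [hst] at this
      simpa using this)
    let a : E →L[ℝ] E := e.comp ((ContinuousLinearMap.fst ℝ V Z).comp (s.comp ρ))
    let T : E →L[ℝ] E × Z := (ContinuousLinearMap.id ℝ E + a + a).prod
      ((ContinuousLinearMap.snd ℝ V Z).comp (s.comp ρ))
    have hT : ∀ y : E, T y = (y + e (s (ρ y)).1 + e (s (ρ y)).1, (s (ρ y)).2) := fun p => rfl
    have key : ∀ v : V, v + v + t (v, 0) =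
        t (v + (s v).1 + (s v).1, (s v).2 + (s v).2) := by
      intro v
      apply hs.1
      rw [map_add, map_add, hst, hst]
      ext
      · simp only [Prod.fst_add]; abel
      · simp
    refine PI.of_bij T ⟨?_, ?_⟩ ?_
    · rw [injective_iff_map_eq_zero]
      intro y h
      rw [hT] at h
      have h2 := congrArg Prod.fst h
      have h3 := congrArg Prod.snd h
      simp only [Prod.fst_zero, Prod.snd_zero] at h2 h3
      have h5 := congrArg ρ h2
      simp only [map_add, hρe, map_zero] at h5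
      have h4 : ρ y = 0 := by
        apply hB.1
        simp only [ContinuousLinearMap.comp_apply, ContinuousLinearMap.inl_apply, add_zero,
          Prod.mk_zero_zero, map_zero]
        rw [key, h5, h3, add_zero]; exact map_zero t
      rw [h4] at h2
      simpa using h2
    · rintro ⟨w, z⟩
      obtain ⟨v, hv⟩ := hB.2 (t (ρ w, z + z))
      simp only [ContinuousLinearMap.comp_apply, ContinuousLinearMap.inl_apply] at hv
      rw [key] at hv
      have hv' := congrArg s hv
      rw [hst, hst] at hv'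
      have h2 := congrArg Prod.fst hv'
      have h3 := congrArg Prod.snd hv'
      simp only at h2 h3
      have h4 : (s v).2 = z := by
        have : (2:ℝ) • (s v).2 = (2:ℝ) • z := by rw [two_smul, two_smul, h3]
        exact smul_right_injective Z two_ne_zero this
      have h1 : ρ (w - e (s v).1 - e (s v).1) = v := by
        rw [map_sub, map_sub, hρe, ← h2]; abel
      refine ⟨w - e (s v).1 - e (s v).1, ?_⟩
      rw [hT, h1, h4]
      congr 1
      abel
    · intro y hy
      rw [hT]
      have := (hp _).1 (hρ y hy)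
      exact ⟨add_nonneg (add_nonneg hy (he _ this.1)) (he _ this.1), this.2⟩
end

end Pool.Agent.H26.PosIso
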