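import Mathlib

namespace Pool.Agent.H26.PosIso

open Filter Topology unitInterval

abbrev K := ℕ → Bool

def cons (b : Bool) : C(K, K) :=
  ⟨fun x n => Nat.casesOn n b x, by
    apply continuous_pi
    intro n
    cases n with
    | zero => exact continuous_const
    | succ n => exact continuous_apply n⟩

def tail : C(K, K) := ⟨fun x n => x (n + 1), by fun_prop⟩

@[simp] theorem cons_zero (b : Bool) (x : K) : cons b x 0 = b := rfl
@[simp] theorem cons_succ (b : Bool) (x : K) (n : ℕ) : cons b x (n + 1) = x n := rfl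
@[simp] theorem tail_apply (x : K) (n : ℕ) : tail x n = x (n + 1) := rfl
theorem tail_cons (b : Bool) (x : K) : tail (cons b x) = x := rfl
theorem cons_tail (x : K) : cons (x 0) (tail x) = x := by
  funext n; cases n <;> rfl

noncomputable def clamp (c d : ℝ) : C(I, I) :=
  ⟨fun u => Set.projIcc (0:ℝ) 1 zero_le_one (c * u + d),
    continuous_projIcc.comp (by fun_prop)⟩

noncomputable def phi : C(I, ℝ) := ⟨fun u => clamp (-3) 2 u, by fun_prop⟩

theorem phi_nonneg (u : I) : 0 ≤ phi u := (clamp (-3) 2 u).2.1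
theorem phi_le (u : I) : phi u ≤ 1 := (clamp (-3) 2 u).2.2
theorem phi_one (u : I) (h : (u:ℝ) ≤ 1/3) : phi u = 1 := by
  show ((Set.projIcc (0:ℝ) 1 zero_le_one (-3 * u + 2) : I) : ℝ) = 1
  rw [Set.projIcc_of_right_le _ (by linarith)]
theorem phi_zero (u : I) (h : 2/3 ≤ (u:ℝ)) : phi u = 0 := by
  show ((Set.projIcc (0:ℝ) 1 zero_le_one (-3 * u + 2) : I) : ℝ) = 0
  rw [Set.projIcc_of_le_left _ (by linarith)]
theorem clamp_eq (c d : ℝ) (u : I) (h0 : 0 ≤ c * u + d) (h1 : c * u + d ≤ 1) :
    (clamp c d u : ℝ) = c * u + d := by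
  show ((Set.projIcc (0:ℝ) 1 zero_le_one (c * u + d) : I) : ℝ) = _
  rw [Set.projIcc_of_mem _ ⟨h0, h1⟩]

noncomputable def R (a b : C(I, I)) : ℕ → C(K, ℝ) → C(I, ℝ)
  | 0, f => ContinuousMap.const _ (f (fun _ => false))
  | n + 1, f => phi * (R a b n (f.comp (cons false))).comp a +
      (1 - phi) * (R a b n (f.comp (cons true))).comp b

variable (a b : C(I, I))

theorem R_succ (n : ℕ) (f : C(K, ℝ)) (u : I) : R a b (n + 1) f u =
    phi u * R a b n (f.comp (cons false)) (a u) +
      (1 - phi u) * R a b n (f.comp (cons true)) (b u) := rfl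

theorem R_add (n : ℕ) : ∀ f g : C(K, ℝ), R a b n (f + g) = R a b n f + R a b n g := by
  induction n with
  | zero => intro f g; rfl
  | succ n ih =>
    intro f g
    ext u
    simp only [R_succ, ContinuousMap.add_apply, ContinuousMap.add_comp, ih]
    ring

theorem R_smul (n : ℕ) (c : ℝ) : ∀ f : C(K, ℝ), R a b n (c • f) = c • R a b n f := by
  induction n with
  | zero => intro f; rfl
  | succ n ih =>
    intro f
    ext u
    simp only [R_succ, ContinuousMap.smul_apply, ContinuousMap.smul_comp, ih, smul_eq_mul]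
    ring

theorem R_le (n : ℕ) (c : ℝ) : ∀ (f : C(K, ℝ)) (u : I), (∀ x, f x ≤ c) → R a b n f u ≤ c := by
  induction n with
  | zero => intro f u h; exact h _
  | succ n ih =>
    intro f u h
    rw [R_succ]
    have h1 := ih (f.comp (cons false)) (a u) (fun x => h _)
    have h2 := ih (f.comp (cons true)) (b u) (fun x => h _)
    nlinarith [phi_nonneg u, phi_le u, mul_le_mul_of_nonneg_left h1 (phi_nonneg u),
      mul_le_mul_of_nonneg_left h2 (sub_nonneg.2 (phi_le u))]

theorem R_ge (n : ℕ) (c : ℝ) (f : C(K, ℝ)) (u : I) (h : ∀ x, c ≤ f x) : c ≤ R a b n f u := by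
  have := R_le a b n (-c) ((-1:ℝ) • f) u (fun x => by simpa using h x)
  rw [R_smul] at this
  simpa using this

theorem R_osc (n : ℕ) (c : ℝ) : ∀ (f : C(K, ℝ)) (u : I),
    (∀ x y : K, (∀ i < n, x i = y i) → f x - f y ≤ c) →
    ∀ k l, R a b (k + n) f u - R a b (l + n) f u ≤ c := by
  induction n with
  | zero =>
    intro f u h k l
    have h1 : ∀ y, R a b k f u - c ≤ f y := by
      intro y
      have := R_le a b k (f y + c) f u (fun x => by have := h x y (by simp); linarith)
      linarith
    have := R_ge a b l _ f u h1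
    simp only [add_zero]
    linarith
  | succ n ih =>
    intro f u h k l
    have hc : ∀ (β : Bool) (x y : K), (∀ i < n, x i = y i) →
        (f.comp (cons β)) x - (f.comp (cons β)) y ≤ c := by
      intro β x y hxy
      apply h
      intro i hi
      cases i with
      | zero => rfl
      | succ i => exact hxy i (by omega)
    have h1 := ih _ (a u) (hc false) k l
    have h2 := ih _ (b u) (hc true) k l
    rw [← add_assoc, ← add_assoc, R_succ, R_succ]
    nlinarith [phi_nonneg u, phi_le u, mul_le_mul_of_nonneg_left h1 (phi_nonneg u),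
      mul_le_mul_of_nonneg_left h2 (sub_nonneg.2 (phi_le u))]

theorem osc (f : C(K, ℝ)) (ε : ℝ) (hε : 0 < ε) :
    ∃ n, ∀ x y : K, (∀ i < n, x i = y i) → f x - f y ≤ ε := by
  have hu : UniformContinuous f := CompactSpace.uniformContinuous_of_continuous f.continuous
  have h1 : {p : K × K | dist (f p.1) (f p.2) < ε} ∈ uniformity K :=
    hu (Metric.dist_mem_uniformity hε)
  rw [Pi.uniformity, mem_iInf] at h1
  obtain ⟨J, hJ, V, hV, hJV⟩ := h1
  obtain ⟨n, hn⟩ := hJ.bddAbove
  refine ⟨n + 1, fun x y hxy => ?_⟩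
  have : (x, y) ∈ ⋂ i, V i := by
    rw [Set.mem_iInter]
    intro i
    obtain ⟨W, hW, hWV⟩ := mem_comap.1 (hV i)
    apply hWV
    have := hxy i (Nat.lt_succ_of_le (hn i.2))
    simp only [Set.mem_preimage, this]
    exact refl_mem_uniformity hW
  rw [← hJV] at this
  have h2 : dist (f x) (f y) < ε := this
  rw [Real.dist_eq] at h2
  exact (le_abs_self _).trans h2.le

theorem R_cauchy (f : C(K, ℝ)) : CauchySeq (fun n => R a b n f) := by
  rw [Metric.cauchySeq_iff]
  intro ε hε
  obtain ⟨n, hn⟩ := osc f (ε / 2) (by linarith)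
  refine ⟨n, fun k hk l hl => ?_⟩
  obtain ⟨k, rfl⟩ := Nat.exists_eq_add_of_le' hk
  obtain ⟨l, rfl⟩ := Nat.exists_eq_add_of_le' hl
  refine lt_of_le_of_lt ((ContinuousMap.dist_le (by linarith : 0 ≤ ε / 2)).2 fun u => ?_)
    (by linarith)
  rw [Real.dist_eq, abs_le]
  constructor
  · have := R_osc a b n _ f u hn l k; linarith
  · exact R_osc a b n _ f u hn k l

theorem exists_avg : ∃ r : C(K, ℝ) →L[ℝ] C(I, ℝ),
    (∀ f u c, (∀ x, f x ≤ c) → r f u ≤ c) ∧
    ∀ f u, r f u = phi u * r (f.comp (cons false)) (a u) +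
      (1 - phi u) * r (f.comp (cons true)) (b u) := by
  have hex := fun f => cauchySeq_tendsto_of_complete (R_cauchy a b f)
  choose r hr using hex
  have hr' : ∀ f u, Tendsto (fun n => R a b n f u) atTop (𝓝 (r f u)) := fun f u =>
    ((continuous_eval_const u).tendsto _).comp (hr f)
  let rl : C(K, ℝ) →ₗ[ℝ] C(I, ℝ) :=
    { toFun := r
      map_add' := fun f g => by
        refine tendsto_nhds_unique (hr (f + g)) ?_
        simp only [R_add]
        exact (hr f).add (hr g)
      map_smul' := fun c f => by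
        refine tendsto_nhds_unique (hr (c • f)) ?_
        simp only [R_smul]
        exact (hr f).const_smul c }
  have hle : ∀ f u c, (∀ x, f x ≤ c) → r f u ≤ c := fun f u c h =>
    le_of_tendsto' (hr' f u) (fun n => R_le a b n c f u h)
  have hge : ∀ f u c, (∀ x, c ≤ f x) → c ≤ r f u := fun f u c h =>
    ge_of_tendsto' (hr' f u) (fun n => R_ge a b n c f u h)
  refine ⟨rl.mkContinuous 1 ?_, hle, ?_⟩
  · intro f
    rw [one_mul, ContinuousMap.norm_le _ (norm_nonneg _)]
    intro u
    rw [Real.norm_eq_abs, abs_le]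
    exact ⟨hge f u _ (fun x => (abs_le.1 (f.norm_coe_le_norm x)).1),
      hle f u _ (fun x => (abs_le.1 (f.norm_coe_le_norm x)).2)⟩
  · intro f u
    refine tendsto_nhds_unique ((hr' f u).comp (tendsto_add_atTop_nat 1)) ?_
    exact ((hr' _ _).const_mul _).add ((hr' _ _).const_mul _)

noncomputable def emb (l : ℝ) (x : K) : ℝ := ∑' n, (if x n then (1 - l) * l ^ n else 0)

theorem emb_summ (l : ℝ) (h0 : 0 ≤ l) (h1 : l < 1) : Summable (fun n => (1 - l) * l ^ n) :=
  (summable_geometric_of_lt_one h0 h1).mul_left _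

theorem emb_bd (l : ℝ) (h0 : 0 ≤ l) (h1 : l < 1) (x : K) (n : ℕ) :
    ‖(if x n then (1 - l) * l ^ n else 0)‖ ≤ (1 - l) * l ^ n := by
  have : 0 ≤ (1 - l) * l ^ n := mul_nonneg (by linarith) (pow_nonneg h0 n)
  split_ifs
  · rw [Real.norm_of_nonneg this]
  · simpa using this

theorem emb_cont (l : ℝ) (h0 : 0 ≤ l) (h1 : l < 1) : Continuous (emb l) := by
  apply continuous_tsum _ (emb_summ l h0 h1) (fun n x => emb_bd l h0 h1 x n)
  intro n
  exact (continuous_of_discreteTopology
    (f := fun β : Bool => if β then (1 - l) * l ^ n else 0)).comp (continuous_apply n)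

theorem emb_mem (l : ℝ) (h0 : 0 ≤ l) (h1 : l < 1) (x : K) : emb l x ∈ I := by
  constructor
  · apply tsum_nonneg
    intro n
    split_ifs
    · exact mul_nonneg (by linarith) (pow_nonneg h0 n)
    · exact le_rfl
  · have h2 : ∑' n, (1 - l) * l ^ n = 1 := by
      rw [tsum_mul_left, tsum_geometric_of_lt_one h0 h1]
      exact mul_inv_cancel₀ (by linarith)
    rw [← h2]
    exact (Summable.of_norm_bounded (emb_summ l h0 h1) (emb_bd l h0 h1 x)).tsum_le_tsum
      (fun n => (le_abs_self _).trans (emb_bd l h0 h1 x n)) (emb_summ l h0 h1)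

theorem emb_cons (l : ℝ) (h0 : 0 ≤ l) (h1 : l < 1) (β : Bool) (x : K) :
    emb l (cons β x) = (if β then 1 - l else 0) + l * emb l x := by
  unfold emb
  rw [(Summable.of_norm_bounded (emb_summ l h0 h1) (emb_bd l h0 h1 _)).tsum_eq_zero_add,
    ← tsum_mul_left]
  congr 1
  · simp
  · congr 1
    funext n
    simp only [cons_succ]
    split_ifs
    · ring
    · simp

noncomputable def embI (l : ℝ) (h0 : 0 ≤ l) (h1 : l < 1) : C(K, I) :=
  ⟨fun x => ⟨emb l x, emb_mem l h0 h1 x⟩, (emb_cont l h0 h1).subtype_mk _⟩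

theorem exists_ext : ∃ (r : C(K, ℝ) →L[ℝ] C(I, ℝ)) (ι : C(K, I)),
    (∀ f, 0 ≤ f → 0 ≤ r f) ∧ ∀ f, (r f).comp ι = f := by
  obtain ⟨r, hle, hr⟩ := exists_avg (clamp 3 0) (clamp 3 (-2))
  have h0 : (0:ℝ) ≤ 1/3 := by norm_num
  have h1 : (1/3:ℝ) < 1 := by norm_num
  let ι := embI (1/3) h0 h1
  have hι : ∀ x, (ι x : ℝ) = emb (1/3) x := fun x => rfl
  have key : ∀ (n : ℕ) (f : C(K, ℝ)) (x : K) (c : ℝ),
      (∀ y : K, (∀ i < n, y i = x i) → f y ≤ c) → r f (ι x) ≤ c := by
    intro n
    induction n with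
    | zero => intro f x c h; exact hle f _ c (fun y => h y (by simp))
    | succ n ih =>
      intro f x c h
      have hm := emb_mem (1/3) h0 h1 (tail x)
      have hc : r (f.comp (cons (x 0))) (ι (tail x)) ≤ c := by
        apply ih
        intro y hy
        apply h
        intro i hi
        cases i with
        | zero => rfl
        | succ i => exact hy i (by omega)
      have he := emb_cons (1/3) h0 h1 (x 0) (tail x)
      rw [cons_tail] at he
      rw [hr]
      cases hx : x 0 with
      | false =>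
        rw [hx] at he hc
        simp only [Bool.false_eq_true, if_false] at he
        have e1 : clamp 3 0 (ι x) = ι (tail x) := by
          apply Subtype.ext
          rw [clamp_eq] <;> simp only [hι, he] <;> linarith [hm.1, hm.2]
        rw [phi_one _ (by rw [hι, he]; linarith [hm.2]), e1]
        linarith
      | true =>
        rw [hx] at he hc
        simp only [if_true] at he
        have e1 : clamp 3 (-2) (ι x) = ι (tail x) := by
          apply Subtype.ext
          rw [clamp_eq] <;> simp only [hι, he] <;> linarith [hm.1, hm.2]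
        rw [phi_zero _ (by rw [hι, he]; linarith [hm.1]), e1]
        linarith
  have key2 : ∀ (f : C(K, ℝ)) (x : K), r f (ι x) ≤ f x := by
    intro f x
    apply le_of_forall_pos_le_add
    intro ε hε
    obtain ⟨n, hn⟩ := osc f ε hε
    apply key n
    intro y hy
    have := hn y x hy
    linarith
  refine ⟨r, ι, fun f hf u => ?_, fun f => ?_⟩
  · have := hle (-f) u 0 (fun x => by simpa using hf x)
    simpa using this
  · ext x
    apply le_antisymm (key2 f x)
    have := key2 (-f) x
    simpa using this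

theorem exists_mil : ∃ (r : C(K, ℝ) →L[ℝ] C(I, ℝ)) (π : C(K, I)),
    (∀ f, 0 ≤ f → 0 ≤ r f) ∧ ∀ g : C(I, ℝ), r (g.comp π) = g := by
  obtain ⟨r, hle, hr⟩ := exists_avg (clamp (3/2) 0) (clamp (3/2) (-(1/2)))
  have h0 : (0:ℝ) ≤ 2/3 := by norm_num
  have h1 : (2/3:ℝ) < 1 := by norm_num
  let π := embI (2/3) h0 h1
  have hπ : ∀ x, (π x : ℝ) = emb (2/3) x := fun x => rfl
  have key : ∀ (n : ℕ) (f : C(K, ℝ)) (u : I) (c : ℝ),
      (∀ y : K, |emb (2/3) y - u| ≤ (2/3) ^ n → f y ≤ c) → r f u ≤ c := by
    intro n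
    induction n with
    | zero =>
      intro f u c h
      refine hle f _ c (fun y => h y ?_)
      have hm := emb_mem (2/3) h0 h1 y
      rw [abs_le]
      constructor <;> linarith [hm.1, hm.2, u.2.1, u.2.2]
    | succ n ih =>
      intro f u c h
      rw [hr]
      have hA : phi u * r (f.comp (cons false)) (clamp (3/2) 0 u) ≤ phi u * c := by
        by_cases hu : 2/3 ≤ (u:ℝ)
        · rw [phi_zero u hu]; simp
        · apply mul_le_mul_of_nonneg_left _ (phi_nonneg u)
          apply ih
          intro y hy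
          apply h
          rw [clamp_eq _ _ _ (by linarith [u.2.1]) (by linarith)] at hy
          rw [emb_cons _ h0 h1, pow_succ, abs_le] at *
          simp only [Bool.false_eq_true, if_false]
          constructor <;> linarith [hy.1, hy.2]
      have hB : (1 - phi u) * r (f.comp (cons true)) (clamp (3/2) (-(1/2)) u) ≤
          (1 - phi u) * c := by
        by_cases hu : (u:ℝ) ≤ 1/3
        · rw [phi_one u hu]; simp
        · apply mul_le_mul_of_nonneg_left _ (sub_nonneg.2 (phi_le u))
          apply ih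
          intro y hy
          apply h
          rw [clamp_eq _ _ _ (by linarith) (by linarith [u.2.2])] at hy
          rw [emb_cons _ h0 h1, pow_succ, abs_le] at *
          simp only [if_true]
          constructor <;> linarith [hy.1, hy.2]
      linarith
  have key2 : ∀ (g : C(I, ℝ)) (u : I), r (g.comp π) u ≤ g u := by
    intro g u
    apply le_of_forall_pos_le_add
    intro ε hε
    obtain ⟨δ, hδ, hg⟩ := Metric.continuous_iff.1 g.continuous u ε hε
    obtain ⟨n, hn⟩ := exists_pow_lt_of_lt_one hδ h1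
    apply key n
    intro y hy
    have := hg (π y) (lt_of_le_of_lt hy hn)
    rw [Real.dist_eq] at this
    have := (abs_lt.1 this).2
    show g (π y) ≤ _
    linarith
  refine ⟨r, π, fun f hf u => ?_, fun f => ?_⟩
  · have := hle (-f) u 0 (fun x => by simpa using hf x)
    simpa using this
  · ext x
    apply le_antisymm (key2 f x)
    have := key2 (-f) x
    rw [ContinuousMap.neg_comp] at this
    simpa using this

end Pool.Agent.H26.PosIso
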