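import Mathlib
import Pool.Agent.H26.PosIsoA
import Pool.Agent.H26.PosIsoB

namespace Pool.Agent.H26.PosIso

open Filter Topology unitInterval

noncomputable def cp {X Y : Type*} [TopologicalSpace X] [TopologicalSpace Y] [CompactSpace X]
    [CompactSpace Y] (Z : Type*) [NormedAddCommGroup Z] [NormedSpace ℝ Z] (φ : C(X, Y)) :
    C(Y, Z) →L[ℝ] C(X, Z) :=
  LinearMap.mkContinuous
    { toFun := fun f => f.comp φ
      map_add' := fun _ _ => rfl
      map_smul' := fun _ _ => rfl } 1 (by
    intro f
    rw [one_mul, ContinuousMap.norm_le _ (norm_nonneg _)]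
    intro x
    exact f.norm_coe_le_norm _)

@[simp] theorem cp_apply {X Y : Type*} [TopologicalSpace X] [TopologicalSpace Y] [CompactSpace X]
    [CompactSpace Y] (Z : Type*) [NormedAddCommGroup Z] [NormedSpace ℝ Z] (φ : C(X, Y))
    (f : C(Y, Z)) : cp Z φ f = f.comp φ := rfl

theorem step1 : PI (C(I, ℝ) × C(K, ℝ)) C(I, ℝ) ∧ PI C(I, ℝ) (C(I, ℝ) × C(K, ℝ)) := by
  obtain ⟨r, ι, hr, hι⟩ := exists_ext
  have hc : ∀ x : K, x = cons false (tail x) ∨ x = cons true (tail x) := by
    intro x
    have := cons_tail x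
    cases h : x 0 <;> rw [h] at this <;> simp [this]
  refine absorb r (cp ℝ ι) hr (fun y hy x => hy _) hι
    ((cp ℝ (cons false)).prod (cp ℝ (cons true))) ⟨?_, ?_⟩ ?_ ?_ ?_
  · intro f g h
    ext x
    rcases hc x with h1 | h1 <;> rw [h1]
    · exact congrArg (fun p : C(K, ℝ) × C(K, ℝ) => p.1 (tail x)) h
    · exact congrArg (fun p : C(K, ℝ) × C(K, ℝ) => p.2 (tail x)) h
  · rintro ⟨f, g⟩
    refine ⟨⟨fun x => cond (x 0) (g (tail x)) (f (tail x)), ?_⟩, rfl⟩
    have : Continuous (fun p : Bool × ℝ × ℝ => cond p.1 p.2.1 p.2.2) := by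
      rw [continuous_prod_of_discrete_left]
      intro β
      cases β
      · exact continuous_snd
      · exact continuous_fst
    exact this.comp (f := fun x : K => (x 0, g (tail x), f (tail x))) (by fun_prop)
  · intro f
    constructor
    · intro h; exact ⟨fun x => h (cons false x), fun x => h (cons true x)⟩
    · intro h x
      rcases hc x with h1 | h1 <;> rw [h1]
      · exact h.1 (tail x)
      · exact h.2 (tail x)
  · intro f
    rw [ContinuousMap.norm_le _ (norm_nonneg _)]
    intro x
    exact f.norm_coe_le_norm _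
  · intro f
    rw [ContinuousMap.norm_le _ (norm_nonneg _)]
    intro x
    rcases hc x with h1 | h1 <;> rw [h1]
    · exact ((f.comp (cons false)).norm_coe_le_norm (tail x)).trans (le_max_left _ _)
    · exact ((f.comp (cons true)).norm_coe_le_norm (tail x)).trans (le_max_right _ _)

abbrev S := {x : K // ∀ n, x n = true → x (n + 1) = true}

instance : CompactSpace S := by
  apply isCompact_iff_compactSpace.1
  apply IsClosed.isCompact
  have : {x : K | ∀ n, x n = true → x (n + 1) = true} =
      ⋂ n, (fun x : K => (x n, x (n + 1))) ⁻¹' {p | p.1 = true → p.2 = true} := by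
    ext x; simp
  show IsClosed {x : K | ∀ n, x n = true → x (n + 1) = true}
  rw [this]
  exact isClosed_iInter fun n => (isClosed_discrete _).preimage (by fun_prop)

def sc : C(S, S) :=
  ⟨fun x => ⟨cons false x.1, fun n => by
      cases n with
      | zero => simp
      | succ n => exact x.2 n⟩,
    ((cons false).continuous.comp continuous_subtype_val).subtype_mk _⟩

def st : C(S, S) :=
  ⟨fun x => ⟨tail x.1, fun n => x.2 (n + 1)⟩,
    (tail.continuous.comp continuous_subtype_val).subtype_mk _⟩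

def top : S := ⟨fun _ => true, fun _ _ => rfl⟩

def orr (x : K) : ℕ → Bool
  | 0 => x 0
  | n + 1 => orr x n || x (n + 1)

theorem orr_cont (n : ℕ) : Continuous (fun x => orr x n) := by
  induction n with
  | zero => exact continuous_apply 0
  | succ n ih =>
    exact (continuous_of_discreteTopology (f := fun p : Bool × Bool => p.1 || p.2)).comp
      (ih.prodMk (continuous_apply (n + 1)))

def q : C(K, S) :=
  ⟨fun x => ⟨orr x, fun n h => by simp [orr, h]⟩, (continuous_pi orr_cont).subtype_mk _⟩

theorem q_val (x : S) : q x.1 = x := by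
  apply Subtype.ext
  funext n
  show orr x.1 n = x.1 n
  induction n with
  | zero => rfl
  | succ n ih =>
    simp only [orr, ih]
    have := x.2 n
    cases h : x.1 n
    · simp
    · simp [this h]

def ev : C(K, K) := ⟨fun x n => x (2 * n), by fun_prop⟩
def od : C(K, K) := ⟨fun x n => x (2 * n + 1), by fun_prop⟩
def mg : C(S × K, K) :=
  ⟨fun p n => if n % 2 = 0 then p.1.1 (n / 2) else p.2 (n / 2), by
    apply continuous_pi
    intro n
    split_ifs
    · exact (continuous_apply _).comp (continuous_subtype_val.comp continuous_fst)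
    · exact (continuous_apply _).comp continuous_snd⟩

theorem ev_mg (p : S × K) : ev (mg p) = p.1.1 := by
  funext n
  show (if (2 * n) % 2 = 0 then p.1.1 (2 * n / 2) else p.2 (2 * n / 2)) = _
  simp
theorem od_mg (p : S × K) : od (mg p) = p.2 := by
  funext n
  show (if (2 * n + 1) % 2 = 0 then p.1.1 ((2 * n + 1) / 2) else p.2 ((2 * n + 1) / 2)) = _
  rw [if_neg (by omega), show (2 * n + 1) / 2 = n by omega]

theorem step2 : PI (C(K, ℝ) × C(I, ℝ)) C(K, ℝ) ∧ PI C(K, ℝ) (C(K, ℝ) × C(I, ℝ)) := by
  obtain ⟨r, π, hr, hπ⟩ := exists_mil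
  have hc : ∀ x : S, x = sc (st x) ∨ x = top := by
    intro x
    cases h : x.1 0
    · left
      apply Subtype.ext
      have := cons_tail x.1
      rw [h] at this
      exact this.symm
    · right
      apply Subtype.ext
      funext n
      induction n with
      | zero => exact h
      | succ n ih => exact x.2 n ih
  let e0 : C(S, C(I, ℝ)) →ₗ[ℝ] C(K, ℝ) :=
    { toFun := fun v => ⟨fun x => v (q (ev x)) (π (od x)), by fun_prop⟩
      map_add' := fun _ _ => rfl
      map_smul' := fun _ _ => rfl }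
  have he0 : ∀ v, ‖e0 v‖ ≤ 1 * ‖v‖ := by
      intro v
      rw [one_mul, ContinuousMap.norm_le _ (norm_nonneg v)]
      intro x
      exact ((v _).norm_coe_le_norm _).trans (v.norm_coe_le_norm _)
  let e : C(S, C(I, ℝ)) →L[ℝ] C(K, ℝ) :=
    LinearMap.mkContinuous (𝕜 := ℝ) (𝕜₂ := ℝ) (E := C(S, C(I, ℝ))) (F := C(K, ℝ)) e0 1 he0
  let ρ0 : C(K, ℝ) →ₗ[ℝ] C(S, C(I, ℝ)) :=
    { toFun := fun f => ⟨fun x => r ((f.comp mg).curry x), by fun_prop⟩
      map_add' := fun f g => by
        ext1 x
        exact map_add r ((f.comp mg).curry x) ((g.comp mg).curry x)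
      map_smul' := fun c f => by
        ext1 x
        exact map_smul r c ((f.comp mg).curry x) }
  have hρ0 : ∀ f, ‖ρ0 f‖ ≤ ‖r‖ * ‖f‖ := by
      intro f
      rw [ContinuousMap.norm_le _ (by positivity)]
      intro x
      refine (r.le_opNorm _).trans (mul_le_mul_of_nonneg_left ?_ (norm_nonneg _))
      rw [ContinuousMap.norm_le _ (norm_nonneg _)]
      intro y
      exact f.norm_coe_le_norm _
  let ρ : C(K, ℝ) →L[ℝ] C(S, C(I, ℝ)) :=
    LinearMap.mkContinuous (𝕜 := ℝ) (𝕜₂ := ℝ) (F := C(S, C(I, ℝ))) (E := C(K, ℝ)) ρ0 ‖r‖ hρ0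
  refine absorb (E := C(K, ℝ)) (V := C(S, C(I, ℝ))) (Z := C(I, ℝ)) e ρ (fun v hv x => ContinuousMap.le_def.1 (ContinuousMap.le_def.1 hv (q (ev x))) (π (od x)))
    (fun f hf x => hr ((f.comp mg).curry x) (fun y => hf (mg (x, y)))) ?_
    ((cp C(I, ℝ) sc).prod (ContinuousMap.evalCLM ℝ top)) ⟨?_, ?_⟩ ?_ ?_ ?_
  · intro v
    ext1 x
    rw [← hπ (v x)]
    show r _ = r _
    congr 1
    ext y
    show v (q (ev (mg (x, y)))) (π (od (mg (x, y)))) = v x (π y)
    rw [ev_mg, od_mg, q_val]
  · intro f g h
    ext1 x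
    rcases hc x with h1 | h1 <;> rw [h1]
    · exact congrArg (fun p : C(S, C(I, ℝ)) × C(I, ℝ) => p.1 (st x)) h
    · exact congrArg (fun p : C(S, C(I, ℝ)) × C(I, ℝ) => p.2) h
  · rintro ⟨f, g⟩
    refine ⟨⟨fun x => cond (x.1 0) g (f (st x)), ?_⟩, rfl⟩
    have : Continuous (fun p : Bool × C(I, ℝ) × C(I, ℝ) => cond p.1 p.2.1 p.2.2) := by
      rw [continuous_prod_of_discrete_left]
      intro β
      cases β
      · exact continuous_snd
      · exact continuous_fst
    exact this.comp (f := fun x : S => (x.1 0, g, f (st x)))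
      (((continuous_apply 0).comp continuous_subtype_val).prodMk (by fun_prop))
  · intro f
    constructor
    · intro h; exact ⟨fun x => h (sc x), h top⟩
    · intro h x
      rcases hc x with h1 | h1 <;> rw [h1]
      · exact h.1 (st x)
      · exact h.2
  · intro f
    refine (ContinuousMap.norm_le _ (norm_nonneg f)).2 ?_
    intro x
    exact f.norm_coe_le_norm _
  · intro f
    refine (ContinuousMap.norm_le f ((norm_nonneg (f top)).trans (le_max_right _ _))).2 ?_
    intro x
    rcases hc x with h1 | h1 <;> rw [h1]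
    · exact ((f.comp sc).norm_coe_le_norm (st x)).trans (le_max_left _ _)
    · exact le_max_right _ _

theorem KI : PI C(K, ℝ) C(I, ℝ) := step2.2.trans (PI.comm.trans step1.1)
theorem IK : PI C(I, ℝ) C(K, ℝ) := step1.2.trans (PI.comm.trans step2.1)

end Pool.Agent.H26.PosIso
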