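import Mathlib
import Pool.Agent.H26.PosIsoC
import Pool.Agent.H26.Dugundji

namespace Pool.Agent.H26.PosIso

open Filter Topology

section
variable {X : Type*} [MetricSpace X] [CompactSpace X]

noncomputable def RR (φ : ℕ → C(X, ℝ)) : ℕ → ℕ → C(K, ℝ) → C(X, ℝ)
  | 0, _, f => ContinuousMap.const _ (f (fun _ => false))
  | n + 1, t, f => φ t * RR φ n (t + 1) (f.comp (cons false)) +
      (1 - φ t) * RR φ n (t + 1) (f.comp (cons true))

variable (φ : ℕ → C(X, ℝ))

omit [CompactSpace X] in
theorem RR_succ (n t : ℕ) (f : C(K, ℝ)) (u : X) : RR φ (n + 1) t f u =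
    φ t u * RR φ n (t + 1) (f.comp (cons false)) u +
      (1 - φ t u) * RR φ n (t + 1) (f.comp (cons true)) u := rfl

omit [CompactSpace X] in
theorem RR_add (n : ℕ) : ∀ (t : ℕ) (f g : C(K, ℝ)),
    RR φ n t (f + g) = RR φ n t f + RR φ n t g := by
  induction n with
  | zero => intro t f g; rfl
  | succ n ih =>
    intro t f g
    ext u
    simp only [RR_succ, ContinuousMap.add_apply, ContinuousMap.add_comp, ih]
    ring

omit [CompactSpace X] in
theorem RR_smul (n : ℕ) (c : ℝ) : ∀ (t : ℕ) (f : C(K, ℝ)),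
    RR φ n t (c • f) = c • RR φ n t f := by
  induction n with
  | zero => intro t f; rfl
  | succ n ih =>
    intro t f
    ext u
    simp only [RR_succ, ContinuousMap.smul_apply, ContinuousMap.smul_comp, ih, smul_eq_mul]
    ring

variable (h0 : ∀ t u, 0 ≤ φ t u) (h1 : ∀ t u, φ t u ≤ 1)
include h0 h1

omit [CompactSpace X] in
theorem RR_le (n : ℕ) (c : ℝ) : ∀ (t : ℕ) (f : C(K, ℝ)) (u : X),
    (∀ x, f x ≤ c) → RR φ n t f u ≤ c := by
  induction n with
  | zero => intro t f u h; exact h _
  | succ n ih =>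
    intro t f u h
    rw [RR_succ]
    have h2 := ih (t + 1) (f.comp (cons false)) u (fun x => h _)
    have h3 := ih (t + 1) (f.comp (cons true)) u (fun x => h _)
    nlinarith [mul_le_mul_of_nonneg_left h2 (h0 t u),
      mul_le_mul_of_nonneg_left h3 (sub_nonneg.2 (h1 t u))]

omit [CompactSpace X] in
theorem RR_ge (n : ℕ) (c : ℝ) (t : ℕ) (f : C(K, ℝ)) (u : X) (h : ∀ x, c ≤ f x) :
    c ≤ RR φ n t f u := by
  have := RR_le φ h0 h1 n (-c) t ((-1:ℝ) • f) u (fun x => by simpa using h x)
  rw [RR_smul] at this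
  simpa using this

omit [CompactSpace X] in
theorem RR_osc (n : ℕ) (c : ℝ) : ∀ (t : ℕ) (f : C(K, ℝ)) (u : X),
    (∀ x y : K, (∀ i < n, x i = y i) → f x - f y ≤ c) →
    ∀ k l, RR φ (k + n) t f u - RR φ (l + n) t f u ≤ c := by
  induction n with
  | zero =>
    intro t f u h k l
    have h2 : ∀ y, RR φ k t f u - c ≤ f y := by
      intro y
      have := RR_le φ h0 h1 k (f y + c) t f u (fun x => by have := h x y (by simp); linarith)
      linarith
    have := RR_ge φ h0 h1 l _ t f u h2
    simp only [add_zero]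
    linarith
  | succ n ih =>
    intro t f u h k l
    have hc : ∀ (β : Bool) (x y : K), (∀ i < n, x i = y i) →
        (f.comp (cons β)) x - (f.comp (cons β)) y ≤ c := by
      intro β x y hxy
      apply h
      intro i hi
      cases i with
      | zero => rfl
      | succ i => exact hxy i (by omega)
    have h2 := ih (t + 1) _ u (hc false) k l
    have h3 := ih (t + 1) _ u (hc true) k l
    rw [← add_assoc, ← add_assoc, RR_succ, RR_succ]
    nlinarith [mul_le_mul_of_nonneg_left h2 (h0 t u),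
      mul_le_mul_of_nonneg_left h3 (sub_nonneg.2 (h1 t u))]

omit [CompactSpace X] in
theorem RR_supp (n : ℕ) (c : ℝ) (u : X) (k : ℕ) : ∀ (t : ℕ) (f : C(K, ℝ)),
    (∀ x : K, (∀ i < n, (x i = false → 0 < φ (t + i) u) ∧ (x i = true → φ (t + i) u < 1)) →
      f x ≤ c) → RR φ (k + n) t f u ≤ c := by
  induction n with
  | zero => intro t f h; exact RR_le φ h0 h1 _ c t f u (fun x => h x (by simp))
  | succ n ih =>
    intro t f h
    rw [← add_assoc, RR_succ]
    have hA : φ t u * RR φ (k + n) (t + 1) (f.comp (cons false)) u ≤ φ t u * c := by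
      rcases (h0 t u).eq_or_lt with hu | hu
      · rw [← hu]; simp
      · apply mul_le_mul_of_nonneg_left _ hu.le
        apply ih
        intro x hx
        apply h
        intro i hi
        cases i with
        | zero => simpa using hu
        | succ i =>
          have := hx i (by omega)
          rw [show t + 1 + i = t + (i + 1) by omega] at this
          exact this
    have hB : (1 - φ t u) * RR φ (k + n) (t + 1) (f.comp (cons true)) u ≤ (1 - φ t u) * c := by
      rcases (h1 t u).eq_or_lt with hu | hu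
      · rw [hu]; simp
      · apply mul_le_mul_of_nonneg_left _ (sub_nonneg.2 hu.le)
        apply ih
        intro x hx
        apply h
        intro i hi
        cases i with
        | zero => simpa using hu
        | succ i =>
          have := hx i (by omega)
          rw [show t + 1 + i = t + (i + 1) by omega] at this
          exact this
    linarith

theorem RR_cauchy (f : C(K, ℝ)) : CauchySeq (fun n => RR φ n 0 f) := by
  rw [Metric.cauchySeq_iff]
  intro ε hε
  obtain ⟨n, hn⟩ := osc f (ε / 2) (by linarith)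
  refine ⟨n, fun k hk l hl => ?_⟩
  obtain ⟨k, rfl⟩ := Nat.exists_eq_add_of_le' hk
  obtain ⟨l, rfl⟩ := Nat.exists_eq_add_of_le' hl
  refine lt_of_le_of_lt ((ContinuousMap.dist_le (by linarith : 0 ≤ ε / 2)).2 fun u => ?_)
    (by linarith)
  rw [Real.dist_eq, abs_le]
  constructor
  · have := RR_osc φ h0 h1 n _ 0 f u hn l k; linarith
  · exact RR_osc φ h0 h1 n _ 0 f u hn k l

theorem exists_avg' : ∃ r : C(K, ℝ) →L[ℝ] C(X, ℝ), ∀ (f : C(K, ℝ)) (u : X) (c : ℝ),
    (∀ x : K, (∀ i, (x i = false → 0 < φ i u) ∧ (x i = true → φ i u < 1)) → f x ≤ c) →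
      r f u ≤ c := by
  have hex := fun f => cauchySeq_tendsto_of_complete (RR_cauchy φ h0 h1 f)
  choose r hr using hex
  have hr' : ∀ f u, Tendsto (fun n => RR φ n 0 f u) atTop (𝓝 (r f u)) := fun f u =>
    ((continuous_eval_const u).tendsto _).comp (hr f)
  let rl : C(K, ℝ) →ₗ[ℝ] C(X, ℝ) :=
    { toFun := r
      map_add' := fun f g => by
        refine tendsto_nhds_unique (hr (f + g)) ?_
        simp only [RR_add]
        exact (hr f).add (hr g)
      map_smul' := fun c f => by
        refine tendsto_nhds_unique (hr (c • f)) ?_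
        simp only [RR_smul]
        exact (hr f).const_smul c }
  have hle : ∀ f u c, (∀ x, f x ≤ c) → r f u ≤ c := fun f u c h =>
    le_of_tendsto' (hr' f u) (fun n => RR_le φ h0 h1 n c 0 f u h)
  have hge : ∀ f u c, (∀ x, c ≤ f x) → c ≤ r f u := fun f u c h =>
    ge_of_tendsto' (hr' f u) (fun n => RR_ge φ h0 h1 n c 0 f u h)
  refine ⟨rl.mkContinuous 1 ?_, ?_⟩
  · intro f
    rw [one_mul, ContinuousMap.norm_le _ (norm_nonneg _)]
    intro u
    rw [Real.norm_eq_abs, abs_le]
    exact ⟨hge f u _ (fun x => (abs_le.1 (f.norm_coe_le_norm x)).1),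
      hle f u _ (fun x => (abs_le.1 (f.norm_coe_le_norm x)).2)⟩
  · intro f u c h
    show r f u ≤ c
    apply le_of_forall_pos_le_add
    intro ε hε
    let C : ℕ → Set K := fun n =>
      {x | ∀ i < n, (x i = false → 0 < φ i u) ∧ (x i = true → φ i u < 1)} ∩ {x | c + ε ≤ f x}
    have hC : ∀ n, IsClosed (C n) := by
      intro n
      apply IsClosed.inter _ (isClosed_le continuous_const f.continuous)
      have : {x : K | ∀ i < n, (x i = false → 0 < φ i u) ∧ (x i = true → φ i u < 1)} =
          ⋂ i, (fun x : K => x i) ⁻¹'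
            {β | i < n → (β = false → 0 < φ i u) ∧ (β = true → φ i u < 1)} := by
        ext x; simp
      rw [this]
      exact isClosed_iInter fun i => (isClosed_discrete _).preimage (continuous_apply i)
    obtain ⟨n, hn⟩ : ∃ n, C n = ∅ := by
      by_contra hne
      push Not at hne
      obtain ⟨x, hx⟩ := IsCompact.nonempty_iInter_of_sequence_nonempty_isCompact_isClosed C
        (fun n x hx => ⟨fun i hi => hx.1 i (by omega), hx.2⟩) hne (hC 0).isCompact hC
      rw [Set.mem_iInter] at hx
      have h2 := h x (fun i => (hx (i + 1)).1 i (by omega))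
      have h3 : c + ε ≤ f x := (hx 0).2
      linarith
    apply le_of_tendsto ((hr' f u).comp (tendsto_add_atTop_nat n))
    filter_upwards with k
    apply RR_supp φ h0 h1
    intro x hx
    by_contra hlt
    have : x ∈ C n := ⟨by simpa using hx, (not_le.1 hlt).le⟩
    rw [hn] at this
    exact this

end

theorem miljutin (X : Type*) [MetricSpace X] [CompactSpace X] [Nonempty X] :
    ∃ (r : C(K, ℝ) →L[ℝ] C(X, ℝ)) (i : C(X, ℝ) →L[ℝ] C(K, ℝ)),
      (∀ f, 0 ≤ f → 0 ≤ r f) ∧ (∀ g, 0 ≤ g → 0 ≤ i g) ∧ ∀ g, r (i g) = g := by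
  obtain ⟨a, ha⟩ := TopologicalSpace.exists_dense_seq X
  let ψ : ℕ → C(X, ℝ) := fun n =>
    ⟨fun u => 3 - ((Nat.unpair n).2 : ℝ) * dist u (a (Nat.unpair n).1), by fun_prop⟩
  let φ : ℕ → C(X, ℝ) := fun n => ⟨fun u => max 0 (min 1 (ψ n u - 1)), by fun_prop⟩
  have h0 : ∀ t u, 0 ≤ φ t u := fun t u => le_max_left _ _
  have h1 : ∀ t u, φ t u ≤ 1 := fun t u => max_le zero_le_one (min_le_left _ _)
  obtain ⟨r, hr⟩ := exists_avg' φ h0 h1
  let G := {p : K × X | ∀ i, (p.1 i = false → 1 ≤ ψ i p.2) ∧ (p.1 i = true → ψ i p.2 ≤ 2)}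
  have hG : IsClosed G := by
    have : G = ⋂ i, (({p : K × X | p.1 i = true} ∪ {p | 1 ≤ ψ i p.2}) ∩
        ({p | p.1 i = false} ∪ {p | ψ i p.2 ≤ 2})) := by
      ext p
      simp only [G, Set.mem_ofPred_eq, Set.mem_iInter, Set.mem_inter_iff, Set.mem_union]
      refine forall_congr' fun i => ?_
      cases p.1 i <;> simp
    rw [this]
    refine isClosed_iInter fun i => IsClosed.inter (IsClosed.union ?_ ?_) (IsClosed.union ?_ ?_)
    · exact isClosed_eq (by fun_prop) continuous_const
    · exact isClosed_le continuous_const (by fun_prop)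
    · exact isClosed_eq (by fun_prop) continuous_const
    · exact isClosed_le (by fun_prop) continuous_const
  have hmem : ∀ (x : K) (u : X),
      (∀ i, (x i = false → 0 < φ i u) ∧ (x i = true → φ i u < 1)) → (x, u) ∈ G := by
    intro x u h i
    refine ⟨fun hx => ?_, fun hx => ?_⟩
    · have h2 : 0 < max 0 (min 1 (ψ i u - 1)) := (h i).1 hx
      have h3 : 0 < min 1 (ψ i u - 1) := by simpa using h2
      have := (lt_min_iff.1 h3).2
      linarith
    · have h2 : max 0 (min 1 (ψ i u - 1)) < 1 := (h i).2 hx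
      have h3 := (max_lt_iff.1 h2).2
      have : ψ i u - 1 < 1 := by simpa using h3
      linarith
  letI : MetricSpace K := TopologicalSpace.metrizableSpaceMetric K
  haveI : CompactSpace G := isCompact_iff_compactSpace.1 hG.isCompact
  haveI : Nonempty G := by
    obtain ⟨u⟩ := ‹Nonempty X›
    classical
    refine ⟨⟨(fun i => decide (ψ i u ≤ 2), u), fun i => ⟨fun h => ?_, fun h => ?_⟩⟩⟩
    · have : ¬ ψ i u ≤ 2 := by simpa using h
      show 1 ≤ ψ i u
      linarith
    · simpa using h
  let j : C(G, K) := ⟨fun p => p.1.1, by fun_prop⟩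
  let p2 : C(G, X) := ⟨fun p => p.1.2, by fun_prop⟩
  have hj : Function.Injective j := by
    rintro ⟨⟨x, u⟩, hu⟩ ⟨⟨y, v⟩, hv⟩ h
    have h : x = y := h
    subst h
    congr
    by_contra hne
    have hd : 0 < dist u v := dist_pos.2 hne
    obtain ⟨m, hm⟩ := exists_nat_gt (3 / dist u v)
    have hm0 : (0:ℝ) < m := lt_trans (by positivity) hm
    obtain ⟨k, hk⟩ := ha.exists_dist_lt u (show 0 < 1 / (2 * (m:ℝ)) by positivity)
    have e1 : ∀ z, ψ (Nat.pair k m) z = 3 - m * dist z (a k) := by
      intro z; simp [ψ]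
    have e2 : m * dist u (a k) < 1 / 2 := by
      have := mul_lt_mul_of_pos_left hk hm0
      rwa [show (m:ℝ) * (1 / (2 * m)) = 1 / 2 by field_simp] at this
    have e3 : 3 < m * dist u v := by rwa [div_lt_iff₀ hd] at hm
    have e4 := mul_le_mul_of_nonneg_left (dist_triangle_right u v (a k)) hm0.le
    have hu' := hu (Nat.pair k m)
    have hv' := hv (Nat.pair k m)
    simp only [e1] at hu' hv'
    cases hx : x (Nat.pair k m)
    · have := hv'.1 hx; nlinarith
    · have := hu'.2 hx; nlinarith
  obtain ⟨E, hE, hEj⟩ := dugundji j hj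
  have key : ∀ (g : C(X, ℝ)) u, r (E (g.comp p2)) u ≤ g u := by
    intro g u
    apply hr
    intro x hx
    have := congrArg (fun f : C(G, ℝ) => f ⟨(x, u), hmem x u hx⟩) (hEj (g.comp p2))
    exact le_of_eq this
  refine ⟨r, E.comp (cp ℝ p2), fun f hf u => ?_, fun g hg => hE _ (fun p => hg _), fun g => ?_⟩
  · have := hr (-f) u 0 (fun x _ => by simpa using hf x)
    simpa using this
  · ext u
    apply le_antisymm (key g u)
    have := key (-g) u
    rw [ContinuousMap.neg_comp] at this
    simpa using this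

theorem step1' (X : Type*) [MetricSpace X] [CompactSpace X] [Uncountable X] :
    PI (C(X, ℝ) × C(K, ℝ)) C(X, ℝ) ∧ PI C(X, ℝ) (C(X, ℝ) × C(K, ℝ)) := by
  obtain ⟨ι0, -, hι0, hι1⟩ := (isClosed_univ (X := X)).exists_nat_bool_injection_of_not_countable
    Set.not_countable_univ
  letI : MetricSpace K := TopologicalSpace.metrizableSpaceMetric K
  let ι : C(K, X) := ⟨ι0, hι0⟩
  obtain ⟨r, hr, hι⟩ := dugundji ι hι1
  have hc : ∀ x : K, x = cons false (tail x) ∨ x = cons true (tail x) := by
    intro x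
    have := cons_tail x
    cases h : x 0 <;> rw [h] at this <;> simp [this]
  refine absorb r (cp ℝ ι) hr (fun y hy x => hy _) hι
    ((cp ℝ (cons false)).prod (cp ℝ (cons true))) ⟨?_, ?_⟩ ?_ ?_ ?_
  · intro f g h
    ext x
    rcases hc x with h1 | h1 <;> rw [h1]
    · exact congrArg (fun p : C(K, ℝ) × C(K, ℝ) => p.1 (tail x)) h
    · exact congrArg (fun p : C(K, ℝ) × C(K, ℝ) => p.2 (tail x)) h
  · rintro ⟨f, g⟩
    refine ⟨⟨fun x => cond (x 0) (g (tail x)) (f (tail x)), ?_⟩, rfl⟩
    have : Continuous (fun p : Bool × ℝ × ℝ => cond p.1 p.2.1 p.2.2) := by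
      rw [continuous_prod_of_discrete_left]
      intro β
      cases β
      · exact continuous_snd
      · exact continuous_fst
    exact this.comp (f := fun x : K => (x 0, g (tail x), f (tail x))) (by fun_prop)
  · intro f
    constructor
    · intro h; exact ⟨fun x => h (cons false x), fun x => h (cons true x)⟩
    · intro h x
      rcases hc x with h1 | h1 <;> rw [h1]
      · exact h.1 (tail x)
      · exact h.2 (tail x)
  · intro f
    rw [ContinuousMap.norm_le _ (norm_nonneg _)]
    intro x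
    exact f.norm_coe_le_norm _
  · intro f
    rw [ContinuousMap.norm_le _ (norm_nonneg _)]
    intro x
    rcases hc x with h1 | h1 <;> rw [h1]
    · exact ((f.comp (cons false)).norm_coe_le_norm (tail x)).trans (le_max_left _ _)
    · exact ((f.comp (cons true)).norm_coe_le_norm (tail x)).trans (le_max_right _ _)

theorem step2' (X : Type*) [MetricSpace X] [CompactSpace X] [Nonempty X] :
    PI (C(K, ℝ) × C(X, ℝ)) C(K, ℝ) ∧ PI C(K, ℝ) (C(K, ℝ) × C(X, ℝ)) := by
  obtain ⟨r, i, hr, hi, hπ⟩ := miljutin X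
  have hc : ∀ x : S, x = sc (st x) ∨ x = top := by
    intro x
    cases h : x.1 0
    · left
      apply Subtype.ext
      have := cons_tail x.1
      rw [h] at this
      exact this.symm
    · right
      apply Subtype.ext
      funext n
      induction n with
      | zero => exact h
      | succ n ih => exact x.2 n ih
  let e0 : C(S, C(X, ℝ)) →ₗ[ℝ] C(K, ℝ) :=
    { toFun := fun v => ⟨fun x => i (v (q (ev x))) (od x), by fun_prop⟩
      map_add' := fun v w => by ext x; simp
      map_smul' := fun c v => by ext x; simp }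
  have he0 : ∀ v, ‖e0 v‖ ≤ ‖i‖ * ‖v‖ := by
      intro v
      rw [ContinuousMap.norm_le _ (mul_nonneg (norm_nonneg i) (norm_nonneg v))]
      intro x
      exact ((i (v _)).norm_coe_le_norm _).trans ((i.le_opNorm _).trans
        (mul_le_mul_of_nonneg_left (v.norm_coe_le_norm _) (norm_nonneg i)))
  let e : C(S, C(X, ℝ)) →L[ℝ] C(K, ℝ) :=
    LinearMap.mkContinuous (𝕜 := ℝ) (𝕜₂ := ℝ) (E := C(S, C(X, ℝ))) (F := C(K, ℝ)) e0 ‖i‖ he0
  let ρ0 : C(K, ℝ) →ₗ[ℝ] C(S, C(X, ℝ)) :=
    { toFun := fun f => ⟨fun x => r ((f.comp mg).curry x), by fun_prop⟩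
      map_add' := fun f g => by
        ext1 x
        exact map_add r ((f.comp mg).curry x) ((g.comp mg).curry x)
      map_smul' := fun c f => by
        ext1 x
        exact map_smul r c ((f.comp mg).curry x) }
  have hρ0 : ∀ f, ‖ρ0 f‖ ≤ ‖r‖ * ‖f‖ := by
      intro f
      rw [ContinuousMap.norm_le _ (by positivity)]
      intro x
      refine (r.le_opNorm _).trans (mul_le_mul_of_nonneg_left ?_ (norm_nonneg _))
      rw [ContinuousMap.norm_le _ (norm_nonneg _)]
      intro y
      exact f.norm_coe_le_norm _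
  let ρ : C(K, ℝ) →L[ℝ] C(S, C(X, ℝ)) :=
    LinearMap.mkContinuous (𝕜 := ℝ) (𝕜₂ := ℝ) (F := C(S, C(X, ℝ))) (E := C(K, ℝ)) ρ0 ‖r‖ hρ0
  refine absorb (E := C(K, ℝ)) (V := C(S, C(X, ℝ))) (Z := C(X, ℝ)) e ρ (fun v hv x => hi _ (ContinuousMap.le_def.1 hv (q (ev x))) (od x))
    (fun f hf x => hr ((f.comp mg).curry x) (fun y => hf (mg (x, y)))) ?_
    ((cp C(X, ℝ) sc).prod (ContinuousMap.evalCLM ℝ top)) ⟨?_, ?_⟩ ?_ ?_ ?_
  · intro v
    ext1 x
    rw [← hπ (v x)]
    show r _ = r _
    congr 1
    ext y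
    show i (v (q (ev (mg (x, y))))) (od (mg (x, y))) = i (v x) y
    rw [ev_mg, od_mg, q_val]
  · intro f g h
    ext1 x
    rcases hc x with h1 | h1 <;> rw [h1]
    · exact congrArg (fun p : C(S, C(X, ℝ)) × C(X, ℝ) => p.1 (st x)) h
    · exact congrArg (fun p : C(S, C(X, ℝ)) × C(X, ℝ) => p.2) h
  · rintro ⟨f, g⟩
    refine ⟨⟨fun x => cond (x.1 0) g (f (st x)), ?_⟩, rfl⟩
    have : Continuous (fun p : Bool × C(X, ℝ) × C(X, ℝ) => cond p.1 p.2.1 p.2.2) := by
      rw [continuous_prod_of_discrete_left]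
      intro β
      cases β
      · exact continuous_snd
      · exact continuous_fst
    exact this.comp (f := fun x : S => (x.1 0, g, f (st x)))
      (((continuous_apply 0).comp continuous_subtype_val).prodMk (by fun_prop))
  · intro f
    constructor
    · intro h; exact ⟨fun x => h (sc x), h top⟩
    · intro h x
      rcases hc x with h1 | h1 <;> rw [h1]
      · exact h.1 (st x)
      · exact h.2
  · intro f
    refine (ContinuousMap.norm_le _ (norm_nonneg f)).2 ?_
    intro x
    exact f.norm_coe_le_norm _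
  · intro f
    refine (ContinuousMap.norm_le f ((norm_nonneg (f top)).trans (le_max_right _ _))).2 ?_
    intro x
    rcases hc x with h1 | h1 <;> rw [h1]
    · exact ((f.comp sc).norm_coe_le_norm (st x)).trans (le_max_left _ _)
    · exact le_max_right _ _

theorem main (X Y : Type*) [MetricSpace X] [CompactSpace X] [Uncountable X]
    [MetricSpace Y] [CompactSpace Y] [Uncountable Y] : PI C(X, ℝ) C(Y, ℝ) :=
  ((step1' X).2.trans (PI.comm.trans (step2' X).1)).trans
    ((step2' Y).2.trans (PI.comm.trans (step1' Y).1))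

end Pool.Agent.H26.PosIso
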