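import Mathlib

set_option autoImplicit false

open Filter Topology
open scoped ComplexOrder ENNReal

namespace Pool.Agent.H26.RG0

def Pos {G E : Type} (ι : E → G → ℂ) (P : E → E) : Prop :=
  ∀ f, (∀ s, 0 ≤ ι f s) → ∀ s, 0 ≤ ι (P f) s

def Regular {G E : Type} [AddCommGroup E] [Module ℂ E] (ι : E → G → ℂ) (T : E → E) : Prop :=
  ∃ (n : ℕ) (c : Fin n → ℂ) (P : Fin n → E →ₗ[ℂ] E), (∀ i, Pos ι (P i)) ∧ ∀ f, T f = ∑ i, c i • P i f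

section
variable {G E : Type} [NormedAddCommGroup E] [NormedSpace ℂ E] [CompleteSpace E] (ι : G → E →L[ℂ] ℂ)

lemma pos_bdd (h : ∀ f g, (∀ s, ‖ι s g‖ ≤ ‖ι s f‖) → ‖g‖ ≤ ‖f‖) {P : E →ₗ[ℂ] E}
    (hP : Pos (fun f s => ι s f) P) : ∃ C : ℝ, ∀ f, (∀ s, 0 ≤ ι s f) → ‖P f‖ ≤ C * ‖f‖ := by
  by_contra! H
  have H' : ∀ n : ℕ, ∃ g, (∀ s, 0 ≤ ι s g) ∧ ‖g‖ ≤ (1 / 2) ^ n ∧ n < ‖P g‖ := fun n => by
    obtain ⟨f, h1, h2⟩ := H (n * 2 ^ n)
    have h3 : 0 < ‖f‖ := norm_pos_iff.2 (by rintro rfl; simp at h2)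
    have h4 : ‖(((1 / 2) ^ n / ‖f‖ : ℝ) : ℂ)‖ = (1 / 2) ^ n / ‖f‖ := Complex.norm_of_nonneg (by positivity)
    refine ⟨(((1 / 2) ^ n / ‖f‖ : ℝ) : ℂ) • f, fun s => ?_, ?_, ?_⟩
    · rw [map_smul]
      exact mul_nonneg (Complex.zero_le_real.2 (by positivity)) (h1 s)
    · rw [norm_smul, h4, div_mul_cancel₀ _ h3.ne']
    · rw [map_smul, norm_smul, h4, one_div_pow, div_div, one_div, lt_inv_mul_iff₀ (by positivity)]
      linarith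
  choose g g1 g2 g3 using H'
  have h1 := Summable.of_norm_bounded summable_geometric_two g2
  obtain ⟨n, hn⟩ := exists_nat_ge ‖P (∑' n, g n)‖
  refine (g3 n).not_ge ((h _ _ fun s => ?_).trans hn)
  have h2 := hP (∑' n, g n - g n) (fun s => by
    simpa using le_hasSum (h1.hasSum.mapL (ι s)) n fun j _ => g1 j s) s
  have h3 := hP _ (g1 n) s
  simp only [map_sub, sub_nonneg] at h2
  rw [← Complex.re_eq_norm.2 h3, ← Complex.re_eq_norm.2 (h3.trans h2)]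
  exact h2.1

lemma reg_bdd (h : ∀ f g, (∀ s, ‖ι s g‖ ≤ ‖ι s f‖) → ‖g‖ ≤ ‖f‖) {T : E → E}
    (hT : Regular (fun f s => ι s f) T) : ∃ C : ℝ, ∀ (κ : Type) (X : Finset κ) (e : κ → E) (g : E),
      (∀ x s, 0 ≤ ι s (e x)) → (∀ s, ‖ι s g‖ ≤ ∑ x ∈ X, ‖ι s (T (e x))‖) → ‖g‖ ≤ C * ‖∑ x ∈ X, e x‖ := by
  obtain ⟨n, c, P, h1, h2⟩ := hT
  choose C hC using fun i => pos_bdd ι h (h1 i)
  refine ⟨∑ i, ‖c i‖ * C i, fun κ X e g h3 h4 => (h (∑ i, (‖c i‖ : ℂ) • P i (∑ x ∈ X, e x)) g fun s =>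
    (h4 s).trans (le_trans ?_ (Complex.re_le_norm _))).trans ?_⟩
  · simp only [h2, map_sum, map_smul, smul_eq_mul, Complex.re_sum, Complex.re_ofReal_mul, Finset.mul_sum]
    rw [Finset.sum_comm]
    exact Finset.sum_le_sum fun x _ => norm_sum_le_of_le _ fun i _ => by
      rw [norm_mul, Complex.re_eq_norm.2 (h1 i _ (h3 x) s)]
  · rw [Finset.sum_mul]
    exact norm_sum_le_of_le _ fun i _ => by
      rw [norm_smul, Complex.norm_real, norm_norm, mul_assoc]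
      exact mul_le_mul_of_nonneg_left (hC i _ fun s => by
        rw [map_sum]; exact Finset.sum_nonneg fun x _ => h3 x s) (norm_nonneg _)

end

noncomputable def re {G : Type} (p : ℝ≥0∞) [Fact (1 ≤ p)] (hp : 0 < p.toReal) (e : G ≃ G) :
    lp (fun _ : G => ℂ) p →ₗᵢ[ℂ] lp (fun _ : G => ℂ) p where
  toFun f := ⟨fun s => f (e s), memℓp_gen (e.summable_iff.2 ((lp.memℓp f).summable hp))⟩
  map_add' _ _ := rfl
  map_smul' _ _ := rfl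
  norm_map' f := by
    rw [lp.norm_eq_tsum_rpow hp, lp.norm_eq_tsum_rpow hp, ← e.tsum_eq fun s => ‖f s‖ ^ p.toReal]
    rfl

end Pool.Agent.H26.RG0
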