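import Mathlib

open Filter Topology

namespace Pool.Agent.H26.Ribe

variable {𝕜 : Type} [RCLike 𝕜]

def Adm (ψ : ℝ → ℝ) : Prop :=
  (∃ B, ∀ s, |ψ s| ≤ B) ∧ ∀ s t, 0 ≤ s → s ≤ t → s * |ψ s - ψ t| ≤ t - s

abbrev L1 (𝕜 : Type) [RCLike 𝕜] := lp (fun _ : ℕ => 𝕜) 1

def co (n : ℕ) : L1 𝕜 →ₗ[𝕜] 𝕜 where
  toFun a := a n
  map_add' _ _ := rfl
  map_smul' _ _ := rfl

lemma hs (a : L1 𝕜) : HasSum (fun n => ‖co n a‖) ‖a‖ := by
  have := lp.hasSum_norm (p := 1) (by simp) a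
  simp only [ENNReal.toReal_one, Real.rpow_one] at this
  exact this

lemma adm1 {ψ : ℝ → ℝ} (h : Adm ψ) (u : 𝕜) {s t : ℝ} (hu : ‖u‖ ≤ s) (hst : s ≤ t) :
    ‖u * ψ s - u * ψ t‖ ≤ t - s := by
  rw [← mul_sub, ← RCLike.ofReal_sub, norm_mul, RCLike.norm_ofReal]
  exact (mul_le_mul_of_nonneg_right hu (abs_nonneg _)).trans
    (h.2 s t ((norm_nonneg u).trans hu) hst)

lemma ql {ψ : ℝ → ℝ} (h : Adm ψ) (u v : 𝕜) {r s t : ℝ} (hu : ‖u‖ ≤ s) (hv : ‖v‖ ≤ t)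
    (huv : ‖u + v‖ ≤ r) (hr : r ≤ s + t) :
    ‖(u + v) * ψ r - u * ψ s - v * ψ t‖ ≤ 2 * (s + t) := by
  have h1 := adm1 h u hu (le_add_of_nonneg_right ((norm_nonneg v).trans hv))
  have h2 := adm1 h v hv (le_add_of_nonneg_left ((norm_nonneg u).trans hu))
  have h3 := adm1 h (u + v) huv hr
  have e : (u + v) * ψ r - u * ψ s - v * ψ t = ((u + v) * ψ r - (u + v) * ψ (s + t)) -
      (u * ψ s - u * ψ (s + t)) - (v * ψ t - v * ψ (s + t)) := by ring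
  rw [e]
  linarith [norm_sub_le (((u + v) * ψ r - (u + v) * ψ (s + t)) - (u * ψ s - u * ψ (s + t)))
    (v * ψ t - v * ψ (s + t)), norm_sub_le ((u + v) * ψ r - (u + v) * ψ (s + t))
    (u * ψ s - u * ψ (s + t)), (norm_nonneg _).trans huv]

lemma lip {ψ : ℝ → ℝ} (h : Adm ψ) {B : ℝ} (hB : ∀ s, |ψ s| ≤ B) (u v : 𝕜) {s t : ℝ}
    (hu : ‖u‖ ≤ s) (hv : ‖v‖ ≤ t) : ‖u * ψ s - v * ψ t‖ ≤ B * ‖u - v‖ + |s - t| := by
  wlog hst : s ≤ t generalizing u v s t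
  · rw [norm_sub_rev, norm_sub_rev u, abs_sub_comm]
    exact this v u hv hu (le_of_not_ge hst)
  have e : u * ψ s - v * ψ t = (u * ψ s - u * ψ t) + (u - v) * ψ t := by ring
  have h1 := adm1 h u hu hst
  have h2 : ‖(u - v) * (ψ t : 𝕜)‖ ≤ B * ‖u - v‖ := by
    rw [norm_mul, RCLike.norm_ofReal, mul_comm]
    exact mul_le_mul_of_nonneg_right (hB t) (norm_nonneg _)
  rw [e, abs_sub_comm]
  linarith [norm_add_le (u * ψ s - u * ψ t) ((u - v) * ψ t), le_abs_self (t - s)]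

noncomputable def S (a : L1 𝕜) : 𝕜 := ∑' n, co n a

noncomputable def H (ψ : ℝ → ℝ) (a : L1 𝕜) : 𝕜 := ∑' n, co n a * ψ ‖co n a‖

noncomputable def G (ψ : ℝ → ℝ) (a : L1 𝕜) : 𝕜 := H ψ a - S a * ψ ‖a‖

lemma sS (a : L1 𝕜) : Summable fun n => co n a := (hs a).summable.of_norm

lemma sH {ψ : ℝ → ℝ} (h : Adm ψ) (a : L1 𝕜) : Summable fun n => co n a * ψ ‖co n a‖ := by
  obtain ⟨B, hB⟩ := h.1
  refine Summable.of_norm_bounded ((hs a).summable.mul_right B) fun n => ?_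
  rw [norm_mul, RCLike.norm_ofReal]
  exact mul_le_mul_of_nonneg_left (hB _) (norm_nonneg _)

lemma S_le (a : L1 𝕜) : ‖S a‖ ≤ ‖a‖ := tsum_of_norm_bounded (hs a) fun _ => le_rfl

lemma S_add (a b : L1 𝕜) : S (a + b) = S a + S b := by
  simpa [S] using (sS a).tsum_add (sS b)

lemma S_sub (a b : L1 𝕜) : S (a - b) = S a - S b := by
  simpa [S] using (sS a).tsum_sub (sS b)

lemma G_add {ψ : ℝ → ℝ} (h : Adm ψ) (a b : L1 𝕜) :
    ‖G ψ (a + b)‖ ≤ ‖G ψ a‖ + ‖G ψ b‖ + 4 * (‖a‖ + ‖b‖) := by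
  have h1 : ‖H ψ (a + b) - H ψ a - H ψ b‖ ≤ 2 * (‖a‖ + ‖b‖) := by
    rw [H, H, H, ← (sH h (a + b)).tsum_sub (sH h a),
      ← ((sH h (a + b)).sub (sH h a)).tsum_sub (sH h b)]
    refine tsum_of_norm_bounded (((hs a).add (hs b)).mul_left 2) fun n => ?_
    rw [map_add]
    exact ql h (co n a) (co n b) le_rfl le_rfl le_rfl (norm_add_le _ _)
  have h2 := ql h (S a) (S b) (S_le a) (S_le b) (by rw [← S_add]; exact S_le (a + b))
    (norm_add_le a b)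
  have e : G ψ (a + b) = G ψ a + G ψ b + (H ψ (a + b) - H ψ a - H ψ b) -
      ((S a + S b) * ψ ‖a + b‖ - S a * ψ ‖a‖ - S b * ψ ‖b‖) := by
    simp only [G, S_add]; ring
  rw [e]
  refine (norm_sub_le _ _).trans ?_
  linarith [norm_add_le (G ψ a + G ψ b) (H ψ (a + b) - H ψ a - H ψ b), norm_add_le (G ψ a) (G ψ b)]

lemma G_cont {ψ : ℝ → ℝ} (h : Adm ψ) : Continuous (G (𝕜 := 𝕜) ψ) := by
  obtain ⟨B, hB⟩ := h.1
  have h0 : 0 ≤ B := (abs_nonneg _).trans (hB 0)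
  refine (LipschitzWith.of_dist_le_mul (K := ⟨2 * (B + 1), by positivity⟩) fun a b => ?_).continuous
  have h1 : ‖H ψ a - H ψ b‖ ≤ (B + 1) * ‖a - b‖ := by
    rw [H, H, ← (sH h a).tsum_sub (sH h b)]
    refine tsum_of_norm_bounded ((hs (a - b)).mul_left (B + 1)) fun n => ?_
    have := lip h hB (co n a) (co n b) le_rfl le_rfl
    have h3 := abs_norm_sub_norm_le (co n a) (co n b)
    rw [map_sub]
    linarith
  have h2 := lip h hB (S a) (S b) (S_le a) (S_le b)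
  have h3 := mul_le_mul_of_nonneg_left (S_le (a - b)) h0
  rw [S_sub] at h3
  have e : G ψ a - G ψ b = (H ψ a - H ψ b) - (S a * ψ ‖a‖ - S b * ψ ‖b‖) := by
    simp only [G]; ring
  rw [dist_eq_norm, dist_eq_norm, e]
  refine (norm_sub_le _ _).trans ?_
  change _ ≤ 2 * (B + 1) * ‖a - b‖
  linarith [abs_norm_sub_norm_le a b]

lemma G_smul (ψ : ℝ → ℝ) (c : 𝕜) (a : L1 𝕜) : G ψ (c • a) = c * G (fun s => ψ (‖c‖ * s)) a := by
  simp [G, H, S, norm_smul, tsum_mul_left, mul_assoc, mul_sub]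

lemma Adm.dil {ψ : ℝ → ℝ} (h : Adm ψ) {c : ℝ} (hc : 0 < c) : Adm fun s => ψ (c * s) := by
  refine ⟨h.1.imp fun B hB s => hB _, fun s t hs hst => ?_⟩
  have := h.2 (c * s) (c * t) (by positivity) (by gcongr)
  rw [mul_assoc, ← mul_sub] at this
  exact le_of_mul_le_mul_left this hc

def Le (a : L1 𝕜) (M : ℝ) : Prop := ∀ ψ, Adm ψ → ‖a‖ + ‖G ψ a‖ ≤ M

lemma adm0 : Adm fun _ => 0 := ⟨⟨0, by simp⟩, fun s t _ h => by simpa using h⟩

lemma Le.norm {a : L1 𝕜} {M : ℝ} (h : Le a M) : ‖a‖ ≤ M := by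
  linarith [h _ adm0, norm_nonneg (G (fun _ => 0) a)]

lemma Le.add {a b : L1 𝕜} {M N : ℝ} (h : Le a M) (h' : Le b N) : Le (a + b) (5 * (M + N)) := by
  intro ψ hψ
  linarith [G_add hψ a b, h ψ hψ, h' ψ hψ, h.norm, h'.norm, norm_add_le a b]

lemma Le.smul {a : L1 𝕜} {M : ℝ} (h : Le a M) (c : 𝕜) : Le (c • a) (‖c‖ * M) := by
  intro ψ hψ
  by_cases hc : c = 0
  · simp [hc, G, H, S]
  rw [G_smul, norm_smul, norm_mul, ← mul_add]
  exact mul_le_mul_of_nonneg_left (h _ (hψ.dil (norm_pos_iff.2 hc))) (norm_nonneg _)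

lemma Le.mono {a : L1 𝕜} {M N : ℝ} (h : Le a M) (h' : M ≤ N) : Le a N :=
  fun ψ hψ => (h ψ hψ).trans h'

lemma closed_le (M : ℝ) : IsClosed {a : L1 𝕜 | Le a M} := by
  simp only [Le, Set.ofPred_forall]
  exact isClosed_iInter fun ψ => isClosed_iInter fun h =>
    isClosed_le (continuous_norm.add (G_cont h).norm) continuous_const

noncomputable def e0 (n : ℕ) : L1 𝕜 := lp.single 1 n 1

lemma e0_apply (n k : ℕ) : co k (e0 n : L1 𝕜) = if k = n then 1 else 0 := by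
  simp [co, e0, lp.single_apply, Pi.single_apply]

lemma le_e0 (n : ℕ) : Le (e0 n : L1 𝕜) 1 := by
  intro ψ _
  have h1 : ‖(e0 n : L1 𝕜)‖ = 1 := by simp [e0, lp.norm_single]
  have h2 : H ψ (e0 n : L1 𝕜) = ψ 1 := by
    rw [H, tsum_eq_single n] <;> simp +contextual [e0_apply]
  have h3 : S (e0 n : L1 𝕜) = 1 := by
    rw [S, tsum_eq_single n] <;> simp +contextual [e0_apply]
  simp [G, h1, h2, h3]

lemma span_fin {b : L1 𝕜} (hb : b ∈ Submodule.span 𝕜 (Set.range (e0 (𝕜 := 𝕜)))) : ∃ M, Le b M := by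
  induction hb using Submodule.span_induction with
  | mem x hx => obtain ⟨n, rfl⟩ := hx; exact ⟨_, le_e0 n⟩
  | zero => exact ⟨_, by simpa using (le_e0 0).smul (0 : 𝕜)⟩
  | add x y _ _ hx hy => exact ⟨_, hx.choose_spec.add hy.choose_spec⟩
  | smul c x _ hx => exact ⟨_, hx.choose_spec.smul c⟩

noncomputable def X (𝕜 : Type) [RCLike 𝕜] : Submodule 𝕜 (L1 𝕜) where
  carrier := {a | ∀ ε > 0, ∃ b ∈ Submodule.span 𝕜 (Set.range (e0 (𝕜 := 𝕜))), Le (a - b) ε}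
  add_mem' := fun {a a'} ha ha' ε hε => by
    obtain ⟨b, hb, h⟩ := ha (ε / 10) (by positivity)
    obtain ⟨b', hb', h'⟩ := ha' (ε / 10) (by positivity)
    exact ⟨b + b', add_mem hb hb', by
      rw [add_sub_add_comm]; exact (h.add h').mono (by linarith)⟩
  zero_mem' := fun ε hε => ⟨0, zero_mem _, by
    simpa using ((le_e0 0).smul (0 : 𝕜)).mono (by simpa using hε.le)⟩
  smul_mem' := fun c a ha ε hε => by
    obtain ⟨b, hb, h⟩ := ha (ε / (‖c‖ + 1)) (by positivity)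
    refine ⟨c • b, Submodule.smul_mem _ _ hb, by
      rw [← smul_sub]
      refine (h.smul c).mono ?_
      rw [mul_div_assoc', div_le_iff₀ (by positivity)]
      nlinarith⟩

lemma span_le : Submodule.span 𝕜 (Set.range (e0 (𝕜 := 𝕜))) ≤ X 𝕜 := fun b hb ε hε =>
  ⟨b, hb, by simpa using ((le_e0 0).smul (0 : 𝕜)).mono (by simpa using hε.le)⟩

noncomputable def q (a : X 𝕜) : ℝ := sInf {M | Le a.1 M}

lemma q_le {a : X 𝕜} {M : ℝ} (h : Le a.1 M) : q a ≤ M :=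
  csInf_le ⟨0, fun _ h => (norm_nonneg _).trans (Le.norm h)⟩ h

lemma le_q (a : X 𝕜) : Le a.1 (q a) := by
  obtain ⟨b, hb, h⟩ := a.2 1 one_pos
  obtain ⟨M, hM⟩ := span_fin hb
  exact fun ψ hψ => le_csInf ⟨_, by simpa using h.add hM⟩ fun N hN => hN ψ hψ

lemma q_nonneg (a : X 𝕜) : 0 ≤ q a := (norm_nonneg _).trans (le_q a).norm

lemma q_add (a b : X 𝕜) : q (a + b) ≤ 5 * (q a + q b) := q_le ((le_q a).add (le_q b))

lemma q_smul (c : 𝕜) (a : X 𝕜) : q (c • a) = ‖c‖ * q a := by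
  refine le_antisymm (q_le ((le_q a).smul c)) ?_
  by_cases hc : c = 0
  · simpa [hc] using q_nonneg 0
  have := q_le (a := c⁻¹ • c • a) ((le_q (c • a)).smul c⁻¹)
  rwa [inv_smul_smul₀ hc, norm_inv, ← div_eq_inv_mul, le_div_iff₀' (norm_pos_iff.2 hc)] at this

lemma le_sub (a b : X 𝕜) : Le (a.1 - b.1) (q (a - b)) := by
  have := le_q (a - b)
  rwa [Submodule.coe_sub] at this

lemma q_sub_le {a b : X 𝕜} {M : ℝ} (h : Le (a.1 - b.1) M) : q (a - b) ≤ M :=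
  q_le (by rwa [Submodule.coe_sub])

lemma q_complete (u : ℕ → X 𝕜)
    (hu : ∀ ε > 0, ∃ N, ∀ m ≥ N, ∀ n ≥ N, q (u m - u n) < ε) :
    ∃ x, Tendsto (fun n => q (u n - x)) atTop (𝓝 0) := by
  have hc : CauchySeq fun n => (u n).1 := by
    refine Metric.cauchySeq_iff.2 fun ε hε => (hu ε hε).imp fun N h m hm n hn => ?_
    rw [dist_eq_norm]
    exact (le_sub (u m) (u n)).norm.trans_lt (h m hm n hn)
  obtain ⟨a, ha⟩ := cauchySeq_tendsto_of_complete hc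
  have h1 : ∀ ε > 0, ∃ N, ∀ m ≥ N, Le ((u m).1 - a) ε := by
    intro ε hε
    obtain ⟨N, h⟩ := hu ε hε
    refine ⟨N, fun m hm => ?_⟩
    have h3 : Tendsto (fun n => (u m).1 - (u n).1) atTop (𝓝 ((u m).1 - a)) :=
      tendsto_const_nhds.sub ha
    have h4 : ∀ᶠ n in atTop, (u m).1 - (u n).1 ∈ {a : L1 𝕜 | Le a ε} := by
      filter_upwards [eventually_ge_atTop N] with n hn
      exact (le_sub (u m) (u n)).mono (h m hm n hn).le
    have h5 := (closed_le ε).mem_of_tendsto h3 h4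
    rwa [Set.mem_ofPred_eq] at h5
  have h2 : a ∈ X 𝕜 := by
    intro ε hε
    obtain ⟨N, hN⟩ := h1 (ε / 10) (by positivity)
    obtain ⟨b, hb, h⟩ := (u N).2 (ε / 10) (by positivity)
    refine ⟨b, hb, ?_⟩
    have := (h.add ((hN N le_rfl).smul (-1))).mono (N := ε) (by simp; linarith)
    rwa [neg_one_smul, neg_sub, add_comm, sub_add_sub_cancel] at this
  refine ⟨⟨a, h2⟩, Metric.tendsto_atTop.2 fun ε hε => ?_⟩
  obtain ⟨N, h⟩ := h1 (ε / 2) (by positivity)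
  refine ⟨N, fun m hm => ?_⟩
  rw [Real.dist_eq, sub_zero, abs_of_nonneg (q_nonneg _)]
  exact (q_sub_le (b := ⟨a, h2⟩) (h m hm)).trans_lt (by linarith)

lemma pair {E : Type} [AddCommGroup E] [TopologicalSpace E] (k : 𝕜 → E) (hk : k 0 = 0)
    (D : Finset ℕ) (π : ℕ → ℕ) (h1 : Set.InjOn π D) (h2 : ∀ j ∈ D, π j ∉ D) (d : ℕ → 𝕜) :
    ∑' n, k (co n (∑ j ∈ D, d j • (e0 j - e0 (π j)) : L1 𝕜)) = ∑ j ∈ D, (k (d j) + k (-d j)) := by
  have e : ∀ n, co n (∑ j ∈ D, d j • (e0 j - e0 (π j)) : L1 𝕜) =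
      (if n ∈ D then d n else 0) - ∑ j ∈ D, if n = π j then d j else 0 := by
    intro n
    simp [e0_apply, mul_sub]
  rw [tsum_eq_sum (s := D ∪ D.image π), Finset.sum_union, Finset.sum_image h1,
    Finset.sum_add_distrib]
  · congr 1 <;> refine Finset.sum_congr rfl fun n hn => ?_
    · rw [e, if_pos hn, Finset.sum_eq_zero, sub_zero]
      exact fun j hj => if_neg fun (h : n = π j) => h2 j hj (h ▸ hn)
    · rw [e, if_neg (h2 n hn), Finset.sum_eq_single_of_mem n hn, if_pos rfl, zero_sub]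
      exact fun j hj hjn => if_neg fun h => hjn (h1 hj hn h.symm)
  · exact Finset.disjoint_right.2 fun n hn => by
      obtain ⟨j, hj, rfl⟩ := Finset.mem_image.1 hn
      exact h2 j hj
  · intro n hn
    rw [Finset.mem_union, not_or] at hn
    rw [e, if_neg hn.1, Finset.sum_eq_zero, sub_zero, hk]
    exact fun j hj => if_neg fun (h : n = π j) => hn.2 (h ▸ Finset.mem_image_of_mem _ hj)

lemma le_pair (D : Finset ℕ) (π : ℕ → ℕ) (h1 : Set.InjOn π D) (h2 : ∀ j ∈ D, π j ∉ D) (d : ℕ → 𝕜) :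
    Le (∑ j ∈ D, d j • (e0 j - e0 (π j)) : L1 𝕜) (2 * ∑ j ∈ D, ‖d j‖) := by
  intro ψ _
  rw [G, H, S, pair (fun u : 𝕜 => u * (ψ ‖u‖ : 𝕜)) (by simp) D π h1 h2, pair (fun u => u) rfl D π h1 h2,
    ← (hs _).tsum_eq, pair (fun u => ‖u‖) (by simp) D π h1 h2]
  simp [two_mul, Finset.sum_add_distrib]

lemma lower (B : Finset ℕ) (M : ℝ) (h : Le (∑ j ∈ B, e0 j : L1 𝕜) M) :
    B.card * Real.log B.card ≤ M := by
  rcases B.eq_empty_or_nonempty with rfl | hB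
  · simpa using h.norm
  have h1 : (1 : ℝ) ≤ B.card := by exact_mod_cast hB.card_pos
  have hψ : Adm fun s => Real.log (min (max s 1) B.card) := by
    have p : ∀ s, 1 ≤ min (max s 1) (B.card : ℝ) := fun s => le_min (le_max_right _ _) h1
    refine ⟨⟨Real.log B.card, fun s => ?_⟩, fun s t hs hst => ?_⟩
    · rw [abs_of_nonneg (Real.log_nonneg (p s))]
      exact Real.log_le_log (by linarith [p s]) (min_le_right _ _)
    · have m : min (max s 1) (B.card : ℝ) ≤ min (max t 1) B.card := by gcongr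
      have ps := p s
      rw [abs_sub_comm, abs_of_nonneg (sub_nonneg.2 (Real.log_le_log (by linarith) m)),
        ← Real.log_div (by linarith) (by linarith)]
      refine (mul_le_mul_of_nonneg_left (Real.log_le_sub_one_of_pos (div_pos (by linarith)
        (by linarith))) hs).trans ?_
      rw [div_sub_one (by linarith), mul_div_assoc', div_le_iff₀ (by linarith)]
      simp only [min_def, max_def]
      split_ifs <;> nlinarith
  have e : ∀ n, co n (∑ j ∈ B, e0 j : L1 𝕜) = if n ∈ B then 1 else 0 := by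
    intro n
    simp [e0_apply]
  have t : ∀ {E : Type} [AddCommGroup E] [TopologicalSpace E] (k : 𝕜 → E), k 0 = 0 →
      ∑' n, k (co n (∑ j ∈ B, e0 j : L1 𝕜)) = B.card • k 1 := by
    intro E _ _ k hk
    rw [tsum_eq_sum (s := B) fun n hn => by rw [e, if_neg hn, hk]]
    rw [Finset.sum_congr rfl fun n hn => by rw [e, if_pos hn], Finset.sum_const]
  have := h _ hψ
  rw [G, H, S, t (fun u => u * ((fun s => Real.log (min (max s 1) B.card)) ‖u‖ : ℝ)) (by simp),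
    t (fun u => u) rfl, ← (hs _).tsum_eq, t (fun u => ‖u‖) (by simp)] at this
  simp [h1, abs_of_nonneg (Real.log_nonneg h1)] at this
  linarith

end Pool.Agent.H26.Ribe
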