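import Mathlib

set_option autoImplicit false

namespace Pool.Agent.H26.SB155

open scoped ENNReal
open Filter Topology

noncomputable section

abbrev L1 (Γ : Type) : Type := lp (fun _ : Γ => ℝ) 1

variable {Γ : Type}

lemma summ (x : L1 Γ) : Summable (fun i => |x i|) := by
  have := (lp.memℓp x).summable (by simp)
  simpa using this

lemma norm_eq (x : L1 Γ) : ‖x‖ = ∑' i, |x i| := by
  rw [lp.norm_eq_tsum_rpow (by simp) x]
  simp

lemma abs_le_norm (x : L1 Γ) (i : Γ) : |x i| ≤ ‖x‖ := by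
  have := lp.norm_apply_le_norm (E := fun _ : Γ => ℝ) (p := 1) (by simp) x i
  simpa using this

open Classical in
def proj (I : Set Γ) (x : L1 Γ) : L1 Γ :=
  ⟨fun i => if i ∈ I then x i else 0, by
    apply memℓp_gen
    simp only [ENNReal.toReal_one, Real.rpow_one, Real.norm_eq_abs]
    refine Summable.of_nonneg_of_le (fun i => abs_nonneg _) (fun i => ?_) (summ x)
    split_ifs <;> simp⟩

open Classical in
lemma proj_apply (I : Set Γ) (x : L1 Γ) (i : Γ) :
    proj I x i = if i ∈ I then x i else 0 := rfl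

lemma proj_sub (I : Set Γ) (x y : L1 Γ) : proj I (x - y) = proj I x - proj I y := by
  apply lp.ext
  funext i
  simp only [lp.coeFn_sub, Pi.sub_apply, proj_apply]
  split_ifs <;> simp

lemma proj_eq_self (I : Set Γ) (x : L1 Γ) (h : ∀ i, i ∉ I → x i = 0) : proj I x = x := by
  apply lp.ext
  funext i
  simp only [proj_apply]
  split_ifs with hi
  · rfl
  · exact (h i hi).symm

lemma proj_eq_zero (I : Set Γ) (x : L1 Γ) (h : ∀ i, i ∈ I → x i = 0) : proj I x = 0 := by
  apply lp.ext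
  funext i
  simp only [proj_apply]
  split_ifs with hi
  · simpa using h i hi
  · simp

open Classical in
lemma summ_tail (I : Set Γ) (x : L1 Γ) :
    Summable (fun i => if i ∈ I then (0 : ℝ) else |x i|) := by
  refine Summable.of_nonneg_of_le (fun i => ?_) (fun i => ?_) (summ x)
  · split_ifs <;> simp
  · split_ifs <;> simp

open Classical in
lemma norm_split (I : Set Γ) (x : L1 Γ) :
    ‖x‖ = ‖proj I x‖ + ∑' i, if i ∈ I then (0 : ℝ) else |x i| := by
  rw [norm_eq, norm_eq, ← Summable.tsum_add (summ _) (summ_tail I x)]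
  congr 1
  funext i
  simp only [proj_apply]
  split_ifs <;> simp

def cf (ε lam T t : ℝ) : ℝ :=
  ε * min t 2 + (lam - 4 * ε) / (T - 4) * (min (max t 2) (T - 2) - 2)
    + ε * (max t (T - 2) - (T - 2))

lemma cf_low (ε lam T t : ℝ) (hT : 8 ≤ T) (ht : t ≤ 2) : cf ε lam T t = ε * t := by
  unfold cf
  rw [min_eq_left ht, max_eq_right ht, min_eq_left (by linarith), max_eq_right (by linarith)]
  ring

lemma cf_high (ε lam T t : ℝ) (hT : 8 ≤ T) (ht : T - 2 ≤ t) :
    cf ε lam T t = lam + ε * (t - T) := by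
  unfold cf
  rw [min_eq_right (by linarith), max_eq_left (by linarith), min_eq_right ht, max_eq_left ht]
  have : T - 4 ≠ 0 := by linarith
  field_simp
  ring

lemma cf_lip (ε lam T : ℝ) (hε : |ε| ≤ 1) (hT : |lam| + 8 ≤ T) (s t : ℝ) :
    |cf ε lam T t - cf ε lam T s| ≤ |t - s| := by
  wlog h : s ≤ t generalizing s t
  · have := this t s (le_of_not_ge h)
    rwa [abs_sub_comm, abs_sub_comm s t] at this
  have hl := abs_nonneg lam
  have hT4 : 0 < T - 4 := by linarith
  set k := (lam - 4 * ε) / (T - 4) with hk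
  have hk1 : |k| ≤ 1 := by
    rw [hk, abs_div, abs_of_pos hT4, div_le_one hT4]
    have := abs_sub lam (4 * ε)
    rw [abs_mul] at this
    have h4 : |(4 : ℝ)| = 4 := by norm_num
    rw [h4] at this
    linarith
  set A := min t 2 - min s 2 with hA
  set B := min (max t 2) (T - 2) - min (max s 2) (T - 2) with hB
  set C := max t (T - 2) - max s (T - 2) with hC
  have hA0 : 0 ≤ A := sub_nonneg.2 (min_le_min_right _ h)
  have hB0 : 0 ≤ B := sub_nonneg.2 (min_le_min_right _ (max_le_max_right _ h))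
  have hC0 : 0 ≤ C := sub_nonneg.2 (max_le_max_right _ h)
  have key : ∀ u : ℝ, min u 2 + min (max u 2) (T - 2) + max u (T - 2) = u + T := by
    intro u
    rcases le_total u 2 with h1 | h1
    · rw [min_eq_left h1, max_eq_right h1, min_eq_left (by linarith), max_eq_right (by linarith)]
      ring
    · rw [min_eq_right h1, max_eq_left h1]
      rcases le_total u (T - 2) with h2 | h2
      · rw [min_eq_left h2, max_eq_right h2]; ring
      · rw [min_eq_right h2, max_eq_left h2]; ring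
  have hsum : A + B + C = t - s := by
    have h1 := key t
    have h2 := key s
    rw [hA, hB, hC]; linarith
  have heq : cf ε lam T t - cf ε lam T s = ε * A + k * B + ε * C := by
    unfold cf
    rw [hA, hB, hC, hk]; ring
  rw [heq, abs_of_nonneg (sub_nonneg.2 h), ← hsum]
  have e1 : |ε * A| ≤ A := by
    rw [abs_mul, abs_of_nonneg hA0]; nlinarith [abs_nonneg ε]
  have e2 : |k * B| ≤ B := by
    rw [abs_mul, abs_of_nonneg hB0]; nlinarith [abs_nonneg k]
  have e3 : |ε * C| ≤ C := by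
    rw [abs_mul, abs_of_nonneg hC0]; nlinarith [abs_nonneg ε]
  calc |ε * A + k * B + ε * C| ≤ |ε * A + k * B| + |ε * C| := abs_add_le _ _
    _ ≤ |ε * A| + |k * B| + |ε * C| := by gcongr; exact abs_add_le _ _
    _ ≤ A + B + C := by linarith

def Lip (f : L1 Γ → ℝ) : Prop := ∀ x y, |f x - f y| ≤ ‖x - y‖

def bump (p : L1 Γ) (r : ℝ) (x : L1 Γ) : ℝ := max 0 (r - ‖x - p‖)

lemma bump_lip (p : L1 Γ) (r : ℝ) : Lip (bump p r) := by
  intro x y
  unfold bump
  have h1 := abs_max_sub_max_le_abs (r - ‖x - p‖) (r - ‖y - p‖) 0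
  rw [max_comm _ (0 : ℝ), max_comm _ (0 : ℝ)] at h1
  refine h1.trans ?_
  have h2 := abs_norm_sub_norm_le (y - p) (x - p)
  have h3 : y - p - (x - p) = -(x - y) := by abel
  rw [h3, norm_neg] at h2
  have h4 : r - ‖x - p‖ - (r - ‖y - p‖) = ‖y - p‖ - ‖x - p‖ := by ring
  rwa [h4]

lemma bump_zero (p : L1 Γ) (r : ℝ) (x : L1 Γ) (h : r ≤ ‖x - p‖) : bump p r x = 0 := by
  unfold bump
  exact max_eq_left (by linarith)

open Classical in
def glue (I : Set Γ) (g : L1 Γ → ℝ) (c : Γ → ℝ → ℝ) (x : L1 Γ) : ℝ :=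
  g (proj I x) + ∑' δ, if δ ∈ I then 0 else c δ (x δ)

open Classical in
lemma glue_sub (I : Set Γ) (g : L1 Γ → ℝ) (c : Γ → ℝ → ℝ)
    (hc : ∀ δ s t, |c δ t - c δ s| ≤ |t - s|) (hc0 : ∀ δ, c δ 0 = 0) (x y : L1 Γ) :
    glue I g c x - glue I g c y = g (proj I x) - g (proj I y)
      + ∑' δ, if δ ∈ I then 0 else (c δ (x δ) - c δ (y δ)) := by
  have hs : ∀ z : L1 Γ, Summable (fun δ => if δ ∈ I then (0 : ℝ) else c δ (z δ)) := by
    intro z
    refine Summable.of_norm_bounded (summ z) (fun δ => ?_)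
    split_ifs
    · simp
    · have := hc δ 0 (z δ)
      simpa [hc0] using this
  unfold glue
  have h1 := Summable.tsum_sub (hs x) (hs y)
  have h2 : (fun δ => (if δ ∈ I then (0 : ℝ) else c δ (x δ)) - if δ ∈ I then (0 : ℝ) else c δ (y δ))
      = fun δ => if δ ∈ I then (0 : ℝ) else (c δ (x δ) - c δ (y δ)) := by
    funext δ
    split_ifs <;> simp
  rw [h2] at h1
  rw [h1]
  ring

open Classical in
lemma glue_lip (I : Set Γ) (g : L1 Γ → ℝ) (c : Γ → ℝ → ℝ) (hg : Lip g)
    (hc : ∀ δ s t, |c δ t - c δ s| ≤ |t - s|) (hc0 : ∀ δ, c δ 0 = 0) : Lip (glue I g c) := by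
  intro x y
  rw [glue_sub I g c hc hc0, norm_split I (x - y), proj_sub]
  refine (abs_add_le _ _).trans (add_le_add (hg _ _) ?_)
  have hb : ∀ δ, ‖(if δ ∈ I then (0 : ℝ) else (c δ (x δ) - c δ (y δ)))‖
      ≤ if δ ∈ I then (0 : ℝ) else |(x - y) δ| := by
    intro δ
    split_ifs
    · simp
    · simpa using hc δ (y δ) (x δ)
  have := tsum_of_norm_bounded (summ_tail I (x - y)).hasSum hb
  simpa using this

open Classical in
lemma glue_of_mem (I : Set Γ) (g : L1 Γ → ℝ) (c : Γ → ℝ → ℝ) (hc0 : ∀ δ, c δ 0 = 0)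
    (x : L1 Γ) (hx : ∀ i, i ∉ I → x i = 0) : glue I g c x = g x := by
  unfold glue
  rw [proj_eq_self I x hx]
  have : (fun δ => if δ ∈ I then (0 : ℝ) else c δ (x δ)) = fun _ => 0 := by
    funext δ
    split_ifs with h
    · rfl
    · rw [hx δ h, hc0]
  rw [this]
  simp

end

end Pool.Agent.H26.SB155
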