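import Pool.Agent.H26.SB155a

set_option autoImplicit false

namespace Pool.Agent.H26.SB155

open scoped ENNReal
open Filter Topology

noncomputable section

variable {Γ : Type} [LinearOrder Γ] [WellFoundedLT Γ]

def Below (γ : Γ) (x : L1 Γ) : Prop := ∀ δ, γ ≤ δ → x δ = 0

structure Data (Γ : Type) [LinearOrder Γ] where
  Λ : Γ → (L1 Γ → ℝ) → ℝ
  T : Γ → ℝ
  dep : ∀ γ f g, (∀ x, Below γ x → f x = g x) → Λ γ f = Λ γ g
  bd : ∀ γ f, |Λ γ f| + 8 ≤ T γ
  zero : ∀ γ, Λ γ (fun _ => 0) = 0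
  surj : ∀ (a m : ℝ) (x x' : ℕ → L1 Γ), ∃ γ, ∀ (f : L1 Γ → ℝ) (l : ℝ),
    Tendsto (fun n => a * f (x n) + f (x' n)) atTop (𝓝 l) → |l| ≤ m → Λ γ f = l

variable (D : Data Γ)

def pt (γ : Γ) : L1 Γ := lp.single 1 γ (D.T γ)

omit [WellFoundedLT Γ] in
lemma T_ge (γ : Γ) : 8 ≤ D.T γ := by
  have := D.bd γ (fun _ => 0)
  have := abs_nonneg (D.Λ γ (fun _ => 0))
  linarith

omit [WellFoundedLT Γ] in
lemma pt_self (γ : Γ) : pt D γ γ = D.T γ := by simp [pt]

omit [WellFoundedLT Γ] in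
lemma pt_ne (γ δ : Γ) (h : δ ≠ γ) : pt D γ δ = 0 := by
  unfold pt
  exact lp.single_apply_ne (E := fun _ : Γ => ℝ) 1 γ _ h

omit [WellFoundedLT Γ] in
lemma norm_pt (γ : Γ) : ‖pt D γ‖ = D.T γ := by
  unfold pt
  rw [lp.norm_single (by simp), Real.norm_eq_abs, abs_of_nonneg (by linarith [T_ge D γ])]

def active : Γ → Prop :=
  (wellFounded_lt (α := Γ)).fix (fun γ rec => ¬ ∃ x, Below γ x ∧ ∀ g : L1 Γ → ℝ, Lip g → g 0 = 0 →
    (∀ δ (h : δ < γ), rec δ h → g (pt D δ) = D.Λ δ g) → g x = D.Λ γ g)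

def Good (I : Set Γ) (g : L1 Γ → ℝ) : Prop :=
  Lip g ∧ g 0 = 0 ∧ ∀ δ ∈ I, active D δ → g (pt D δ) = D.Λ δ g

lemma active_iff (γ : Γ) : active D γ ↔
    ¬ ∃ x, Below γ x ∧ ∀ g : L1 Γ → ℝ, Good D (Set.Iio γ) g → g x = D.Λ γ g := by
  have : active D γ = _ := WellFounded.fix_eq _ _ γ
  rw [this]
  apply not_congr
  apply exists_congr
  intro x
  apply and_congr_right
  intro _
  apply forall_congr'
  intro g
  constructor
  · rintro h ⟨h1, h2, h3⟩
    exact h h1 h2 (fun δ hδ ha => h3 δ hδ ha)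
  · intro h h1 h2 h3
    exact h ⟨h1, h2, fun δ hδ ha => h3 δ hδ ha⟩

open Classical in
def lamf (I : Set Γ) (g : L1 Γ → ℝ) (ε : Γ → ℝ) : Γ → ℝ :=
  (wellFounded_lt (α := Γ)).fix (fun γ rec => D.Λ γ (glue I g
    (fun δ => cf (ε δ) (if h : δ < γ then rec δ h else 0) (D.T δ))))

open Classical in
lemma lamf_eq (I : Set Γ) (g : L1 Γ → ℝ) (ε : Γ → ℝ) (γ : Γ) :
    lamf D I g ε γ = D.Λ γ (glue I g (fun δ => cf (ε δ) (lamf D I g ε δ) (D.T δ))) := by
  have : lamf D I g ε γ = _ := WellFounded.fix_eq _ _ γ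
  rw [this]
  apply D.dep
  intro x hx
  unfold glue
  congr 2
  funext δ
  split_ifs with h1
  · rfl
  · by_cases h2 : δ < γ
    · simp only [dif_pos h2]
      rfl
    · simp only [dif_neg h2]
      rw [hx δ (le_of_not_gt h2), cf_low _ _ _ _ (T_ge D δ) (by norm_num),
        cf_low _ _ _ _ (T_ge D δ) (by norm_num)]

lemma extend (I : Set Γ) (hI : ∀ a b, a ≤ b → b ∈ I → a ∈ I) (g : L1 Γ → ℝ) (hg : Good D I g)
    (ε : Γ → ℝ) (hε : ∀ δ, |ε δ| ≤ 1) :
    ∃ c : Γ → ℝ → ℝ, Good D Set.univ (glue I g c) ∧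
      (∀ δ s t, |c δ t - c δ s| ≤ |t - s|) ∧
      (∀ δ t, t ≤ 2 → c δ t = ε δ * t) ∧
      (∀ δ t, D.T δ - 2 ≤ t → c δ t = D.Λ δ (glue I g c) + ε δ * (t - D.T δ)) := by
  classical
  set c : Γ → ℝ → ℝ := fun δ => cf (ε δ) (lamf D I g ε δ) (D.T δ) with hc
  have hlam : ∀ δ, lamf D I g ε δ = D.Λ δ (glue I g c) := lamf_eq D I g ε
  have h1 : ∀ δ s t, |c δ t - c δ s| ≤ |t - s| := by
    intro δ s t
    apply cf_lip _ _ _ (hε δ)
    rw [hlam]
    exact D.bd _ _
  have h2 : ∀ δ t, t ≤ 2 → c δ t = ε δ * t := fun δ t ht => cf_low _ _ _ _ (T_ge D δ) ht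
  have h3 : ∀ δ t, D.T δ - 2 ≤ t → c δ t = D.Λ δ (glue I g c) + ε δ * (t - D.T δ) := by
    intro δ t ht
    rw [← hlam]
    exact cf_high _ _ _ _ (T_ge D δ) ht
  have h0 : ∀ δ, c δ 0 = 0 := fun δ => by rw [h2 δ 0 (by norm_num)]; simp
  refine ⟨c, ⟨glue_lip I g c hg.1 h1 h0, ?_, ?_⟩, h1, h2, h3⟩
  · rw [glue_of_mem I g c h0 0 (by simp)]
    exact hg.2.1
  · intro δ _ ha
    by_cases hδ : δ ∈ I
    · rw [glue_of_mem I g c h0 _ (fun i hi => pt_ne D δ i (fun h => hi (h ▸ hδ))),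
        hg.2.2 δ hδ ha]
      apply D.dep
      intro x hx
      rw [glue_of_mem I g c h0 x]
      intro i hi
      apply hx
      by_contra hlt
      exact hi (hI i δ (le_of_lt (lt_of_not_ge hlt)) hδ)
    · have e1 : glue I g c (pt D δ) = c δ (D.T δ) := by
        unfold glue
        rw [proj_eq_zero I _ (fun i hi => pt_ne D δ i (fun h => hδ (h ▸ hi))), hg.2.1, zero_add,
          tsum_eq_single δ]
        · rw [if_neg hδ, pt_self]
        · intro b hb
          rw [pt_ne D δ b hb, h0]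
          simp
      rw [e1, h3 δ _ (by linarith)]
      simp

lemma extend_diff (I : Set Γ) (hI : ∀ a b, a ≤ b → b ∈ I → a ∈ I) (g : L1 Γ → ℝ)
    (hg : Good D I g) (x y : L1 Γ)
    (hz : ∀ δ, δ ∉ I → (x δ ≤ 2 ∧ y δ ≤ 2) ∨ (D.T δ - 2 ≤ x δ ∧ D.T δ - 2 ≤ y δ)) :
    ∃ f, Good D Set.univ f ∧
      f x - f y = g (proj I x) - g (proj I y) + (‖x - y‖ - ‖proj I x - proj I y‖) := by
  classical
  obtain ⟨c, hc, h1, h2, h3⟩ := extend D I hI g hg
    (fun δ => if 0 ≤ x δ - y δ then 1 else -1) (fun δ => by split_ifs <;> simp)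
  have h0 : ∀ δ, c δ 0 = 0 := fun δ => by rw [h2 δ 0 (by norm_num)]; simp
  refine ⟨_, hc, ?_⟩
  rw [glue_sub I g c h1 h0, norm_split I (x - y), proj_sub, add_sub_cancel_left]
  congr 2
  funext δ
  by_cases hδ : δ ∈ I
  · simp [hδ]
  · simp only [if_neg hδ, lp.coeFn_sub, Pi.sub_apply]
    have e : c δ (x δ) - c δ (y δ) = (if 0 ≤ x δ - y δ then 1 else -1) * (x δ - y δ) := by
      rcases hz δ hδ with h | h
      · rw [h2 δ _ h.1, h2 δ _ h.2]; ring
      · rw [h3 δ _ h.1, h3 δ _ h.2]; ring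
    rw [e]
    split_ifs with h
    · rw [abs_of_nonneg h]; ring
    · rw [abs_of_neg (lt_of_not_ge h)]; ring

lemma good_zero (I : Set Γ) : Good D I (fun _ => 0) :=
  ⟨fun x y => by simp, rfl, fun δ _ _ => (D.zero δ).symm⟩

lemma good_bump (γ : Γ) (p : L1 Γ) (r : ℝ) (hr : r ≤ |p γ|)
    (hr' : active D γ → r ≤ ‖pt D γ - p‖) : Good D (Set.Iic γ) (bump p r) := by
  have hv : ∀ x : L1 Γ, x γ = 0 → bump p r x = 0 := by
    intro x hx
    apply bump_zero
    have := abs_le_norm (x - p) γ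
    simp only [lp.coeFn_sub, Pi.sub_apply, hx, zero_sub, abs_neg] at this
    linarith
  refine ⟨bump_lip p r, hv 0 (by simp), ?_⟩
  intro δ hδ ha
  have e : D.Λ δ (bump p r) = 0 := by
    rw [← D.zero δ]
    apply D.dep
    intro x hx
    exact hv x (hx γ hδ)
  rw [e]
  by_cases h : δ = γ
  · subst h
    exact bump_zero _ _ _ (hr' ha)
  · exact hv _ (pt_ne D δ γ (Ne.symm h))

omit [LinearOrder Γ] [WellFoundedLT Γ] in
lemma finite_big (x : L1 Γ) (η : ℝ) (hη : 0 < η) : {δ | η < |x δ|}.Finite := by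
  have h := (summ x).tendsto_cofinite_zero
  have h2 := h.eventually (gt_mem_nhds hη)
  rw [Filter.eventually_cofinite] at h2
  refine h2.subset ?_
  intro δ hδ
  simp only [Set.mem_ofPred_eq, not_lt] at hδ ⊢
  exact hδ.le

omit [LinearOrder Γ] [WellFoundedLT Γ] in
lemma norm_proj_le (I : Set Γ) (x : L1 Γ) : ‖proj I x‖ ≤ ‖x‖ := by
  rw [norm_split I x]
  exact le_add_of_nonneg_right (tsum_nonneg (fun i => by split_ifs <;> simp))

lemma exists_iso (x y : L1 Γ) (h : ‖x - y‖ ≤ 1) :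
    ∃ f, Good D Set.univ f ∧ f x - f y = ‖x - y‖ := by
  classical
  have hxy : ∀ δ, |x δ - y δ| ≤ 1 := fun δ => by
    have := abs_le_norm (x - y) δ
    simp only [lp.coeFn_sub, Pi.sub_apply] at this
    linarith
  have hzone : ∀ δ, ¬ (1 < x δ ∧ x δ < D.T δ - 1) →
      (x δ ≤ 2 ∧ y δ ≤ 2) ∨ (D.T δ - 2 ≤ x δ ∧ D.T δ - 2 ≤ y δ) := by
    intro δ hδ
    have := abs_le.1 (hxy δ)
    rcases not_and_or.1 hδ with h1 | h1
    · left; constructor <;> linarith [not_lt.1 h1]
    · right; constructor <;> linarith [not_lt.1 h1]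
  set B : Set Γ := {δ | 1 < x δ ∧ x δ < D.T δ - 1} with hB
  have hfin : B.Finite := (finite_big x 1 one_pos).subset (fun δ hδ => by
    have := hδ.1
    exact lt_of_lt_of_le this (le_abs_self _))
  by_cases hne : B.Nonempty
  · obtain ⟨γ, hγ, hmax⟩ := Set.exists_max_image B id hfin hne
    set p := proj (Set.Iic γ) x with hp
    have hpγ : p γ = x γ := by rw [hp, proj_apply]; simp
    have hg : Good D (Set.Iic γ) (bump p 1) := by
      apply good_bump
      · rw [hpγ]; exact le_trans hγ.1.le (le_abs_self _)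
      · intro _
        have := abs_le_norm (pt D γ - p) γ
        simp only [lp.coeFn_sub, Pi.sub_apply, pt_self, hpγ] at this
        have h2 := hγ.2
        have h3 := le_abs_self (D.T γ - x γ)
        linarith
    obtain ⟨f, hf, he⟩ := extend_diff D (Set.Iic γ) (fun a b hab hb => le_trans hab hb) _ hg x y
      (fun δ hδ => hzone δ (fun hb => hδ (hmax δ hb)))
    refine ⟨f, hf, ?_⟩
    rw [he, ← hp]
    have hn : ‖proj (Set.Iic γ) y - p‖ ≤ 1 := by
      rw [hp, ← proj_sub]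
      refine (norm_proj_le _ _).trans ?_
      rwa [norm_sub_rev]
    unfold bump
    rw [sub_self, norm_zero, max_eq_right (by norm_num), max_eq_right (by linarith),
      norm_sub_rev p]
    ring
  · obtain ⟨f, hf, he⟩ := extend_diff D ∅ (fun a b _ hb => hb) _ (good_zero D ∅) x y
      (fun δ _ => hzone δ (fun hb => hne ⟨δ, hb⟩))
    refine ⟨f, hf, ?_⟩
    rw [he, proj_eq_zero ∅ x (by simp), proj_eq_zero ∅ y (by simp)]
    simp

lemma sep_aux (x y : L1 Γ) (γ : Γ) (hγ : 2 < x γ)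
    (hz : ∀ δ, γ < δ → x δ ≤ 2 ∧ y δ ≤ 2)
    (h : ∀ f, Good D Set.univ f → f x = f y) : x = y := by
  classical
  have hI : ∀ a b, a ≤ b → b ∈ Set.Iic γ → a ∈ Set.Iic γ := fun a b hab hb => le_trans hab hb
  set p := proj (Set.Iic γ) x with hp
  set q := proj (Set.Iic γ) y with hq
  have hpγ : p γ = x γ := by rw [hp, proj_apply]; simp
  have hqγ : q γ = y γ := by rw [hq, proj_apply]; simp
  have key : ∀ g, Good D (Set.Iic γ) g → g p - g q + (‖x - y‖ - ‖p - q‖) = 0 := by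
    intro g hg
    obtain ⟨f, hf, he⟩ := extend_diff D (Set.Iic γ) hI g hg x y
      (fun δ hδ => Or.inl (hz δ (lt_of_not_ge hδ)))
    rw [← he, h f hf, sub_self]
  have htail : ‖x - y‖ - ‖p - q‖ = 0 := by simpa using key _ (good_zero D _)
  have key2 : ∀ g, Good D (Set.Iic γ) g → g p = g q := by
    intro g hg
    have := key g hg
    linarith
  have hbump : ∀ (a b : L1 Γ) (r : ℝ), 0 < r → bump a r a = bump a r b → a = b := by
    intro a b r hr hab
    unfold bump at hab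
    rw [sub_self, norm_zero, sub_zero, max_eq_right hr.le] at hab
    have hn := norm_nonneg (b - a)
    have : ‖b - a‖ = 0 := by
      rcases le_total 0 (r - ‖b - a‖) with h1 | h1
      · rw [max_eq_right h1] at hab; linarith
      · rw [max_eq_left h1] at hab; linarith
    exact (sub_eq_zero.1 (norm_eq_zero.1 this)).symm
  suffices hpq : p = q by
    rw [hpq, sub_self, norm_zero, sub_zero] at htail
    exact sub_eq_zero.1 (norm_eq_zero.1 htail)
  have hpos : 0 < |p γ| := by rw [hpγ]; exact lt_of_lt_of_le (by linarith) (le_abs_self _)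
  by_cases ha : active D γ
  · by_cases hp0 : pt D γ = p
    · by_cases hq0 : pt D γ = q
      · rw [← hp0, hq0]
      · by_cases hqz : q γ = 0
        · exfalso
          have hbel : Below γ q := by
            intro δ hδ
            rcases eq_or_lt_of_le hδ with h1 | h1
            · rw [← h1]; exact hqz
            · rw [hq, proj_apply, if_neg (by simpa using h1)]
          have hna := (active_iff D γ).1 ha
          push Not at hna
          obtain ⟨g, hg, hne⟩ := hna q hbel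
          obtain ⟨c, hc, h1, h2, h3⟩ := extend D (Set.Iio γ)
            (fun a b hab hb => lt_of_le_of_lt hab hb) g hg (fun _ => 0) (fun _ => by simp)
          have h0 : ∀ δ, c δ 0 = 0 := fun δ => by rw [h2 δ 0 (by norm_num)]; simp
          have hagree : ∀ z, Below γ z → glue (Set.Iio γ) g c z = g z := fun z hz' =>
            glue_of_mem _ g c h0 z (fun i hi => hz' i (le_of_not_gt hi))
          have hG : Good D (Set.Iic γ) (glue (Set.Iio γ) g c) :=
            ⟨hc.1, hc.2.1, fun δ _ hδ => hc.2.2 δ trivial hδ⟩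
          have e1 := key2 _ hG
          rw [← hp0, hc.2.2 γ trivial ha, hagree q hbel, D.dep γ _ g hagree] at e1
          exact hne e1.symm
        · have hr : 0 < min |q γ| ‖pt D γ - q‖ :=
            lt_min (abs_pos.2 hqz) (norm_pos_iff.2 (sub_ne_zero.2 hq0))
          have := key2 _ (good_bump D γ q _ (min_le_left _ _) (fun _ => min_le_right _ _))
          exact (hbump q p _ hr this.symm).symm
    · have hr : 0 < min |p γ| ‖pt D γ - p‖ :=
        lt_min hpos (norm_pos_iff.2 (sub_ne_zero.2 hp0))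
      have := key2 _ (good_bump D γ p _ (min_le_left _ _) (fun _ => min_le_right _ _))
      exact hbump p q _ hr this
  · have := key2 _ (good_bump D γ p _ le_rfl (fun h => absurd h ha))
    exact hbump p q _ hpos this

lemma sep (x y : L1 Γ) (h : ∀ f, Good D Set.univ f → f x = f y) : x = y := by
  classical
  set B : Set Γ := {δ | 2 < x δ ∨ 2 < y δ} with hB
  have hfin : B.Finite := ((finite_big x 2 two_pos).union (finite_big y 2 two_pos)).subset
    (fun δ hδ => by
      rcases hδ with h1 | h1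
      · left; exact lt_of_lt_of_le h1 (le_abs_self _)
      · right; exact lt_of_lt_of_le h1 (le_abs_self _))
  by_cases hne : B.Nonempty
  · obtain ⟨γ, hγ, hmax⟩ := Set.exists_max_image B id hfin hne
    have hz : ∀ δ, γ < δ → x δ ≤ 2 ∧ y δ ≤ 2 := by
      intro δ hδ
      have : δ ∉ B := fun hb => absurd (hmax δ hb) (not_le.2 hδ)
      simp only [hB, Set.mem_ofPred_eq, not_or, not_lt] at this
      exact this
    rcases hγ with h1 | h1
    · exact sep_aux D x y γ h1 hz h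
    · exact (sep_aux D y x γ h1 (fun δ hδ => (hz δ hδ).symm) (fun f hf => (h f hf).symm)).symm
  · obtain ⟨f, hf, he⟩ := extend_diff D ∅ (fun a b _ hb => hb) _ (good_zero D ∅) x y
      (fun δ _ => Or.inl (by
        have : δ ∉ B := fun hb => hne ⟨δ, hb⟩
        simp only [hB, Set.mem_ofPred_eq, not_or, not_lt] at this
        exact this))
    rw [h f hf, proj_eq_zero ∅ x (by simp), proj_eq_zero ∅ y (by simp)] at he
    simp only [sub_self, norm_zero, sub_zero, zero_add] at he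
    exact sub_eq_zero.1 (norm_eq_zero.1 he.symm)

end

end Pool.Agent.H26.SB155
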