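import Pool.Agent.H26.SB155b

set_option autoImplicit false

namespace Pool.Agent.H26.SB155

open scoped ENNReal
open Filter Topology

noncomputable section

variable {Γ : Type} [LinearOrder Γ] [WellFoundedLT Γ] (D : Data Γ)

abbrev LL : Type := {f : L1 Γ → ℝ // Good D Set.univ f}

abbrev W : Type := lp (fun _ : LL D => ℝ) ∞

lemma good_bd (f : LL D) (x : L1 Γ) : |f.1 x| ≤ ‖x‖ := by
  have := f.2.1 x 0
  rwa [f.2.2.1, sub_zero, sub_zero] at this

def U (x : L1 Γ) : W D :=
  ⟨fun f => f.1 x, memℓp_infty ⟨‖x‖, by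
    rintro _ ⟨f, rfl⟩
    exact good_bd D f x⟩⟩

lemma U_apply (x : L1 Γ) (f : LL D) : U D x f = f.1 x := rfl

lemma W_le (y : W D) (f : LL D) : |y f| ≤ ‖y‖ := by
  have := lp.norm_apply_le_norm (E := fun _ : LL D => ℝ) (p := ∞) (by simp) y f
  simpa using this

lemma hit (y : W D) (a : ℝ) (x x' : ℕ → L1 Γ)
    (h : ∀ f : LL D, Tendsto (fun n => a * f.1 (x n) + f.1 (x' n)) atTop (𝓝 (y f))) :
    y ∈ Set.range (U D) := by
  obtain ⟨γ, hγ⟩ := D.surj a ‖y‖ x x'
  have e : ∀ f : LL D, D.Λ γ f.1 = y f := fun f => hγ f.1 _ (h f) (W_le D y f)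
  by_cases ha : active D γ
  · refine ⟨pt D γ, lp.ext ?_⟩
    funext f
    rw [U_apply, f.2.2.2 γ trivial ha, e]
  · rw [active_iff, not_not] at ha
    obtain ⟨z, _, hz⟩ := ha
    refine ⟨z, lp.ext ?_⟩
    funext f
    rw [U_apply, hz f.1 ⟨f.2.1, f.2.2.1, fun δ _ hδ => f.2.2.2 δ trivial hδ⟩, e]

def Ysub : Submodule ℝ (W D) where
  carrier := Set.range (U D)
  zero_mem' := ⟨0, lp.ext (by funext f; rw [U_apply, f.2.2.1]; simp)⟩
  add_mem' := by
    rintro _ _ ⟨x, rfl⟩ ⟨x', rfl⟩
    apply hit D _ 1 (fun _ => x) (fun _ => x')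
    intro f
    simp [U_apply]
  smul_mem' := by
    rintro a _ ⟨x, rfl⟩
    apply hit D _ a (fun _ => x) (fun _ => 0)
    intro f
    simp [U_apply, f.2.2.1]

lemma Ysub_closed : IsClosed (Ysub D : Set (W D)) := by
  apply IsSeqClosed.isClosed
  intro u y hu hy
  choose x hx using hu
  apply hit D y 0 x x
  intro f
  simp only [zero_mul, zero_add]
  rw [tendsto_iff_norm_sub_tendsto_zero] at hy ⊢
  refine squeeze_zero (fun n => norm_nonneg _) (fun n => ?_) hy
  have := W_le D (u n - y) f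
  rw [← hx n] at this ⊢
  simpa [U_apply] using this

lemma dist_U_le (x y : L1 Γ) : ‖U D x - U D y‖ ≤ ‖x - y‖ := by
  apply lp.norm_le_of_forall_le (norm_nonneg _)
  intro f
  simpa [U_apply] using f.2.1 x y

lemma dist_U_eq (x y : L1 Γ) (h : ‖x - y‖ ≤ 1) : ‖U D x - U D y‖ = ‖x - y‖ := by
  refine le_antisymm (dist_U_le D x y) ?_
  obtain ⟨f, hf, he⟩ := exists_iso D x y h
  have := W_le D (U D x - U D y) ⟨f, hf⟩
  simp only [lp.coeFn_sub, Pi.sub_apply, U_apply] at this
  rw [he] at this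
  exact (le_abs_self _).trans this

lemma U_inj : Function.Injective (U D) := by
  intro x y h
  apply sep D
  intro f hf
  have := congrArg (fun w : W D => w ⟨f, hf⟩) h
  simpa [U_apply] using this

lemma exists_active [Nonempty Γ] : ∃ γ, active D γ := by
  by_contra hna
  push Not at hna
  obtain ⟨a⟩ := ‹Nonempty Γ›
  have hp : ‖pt D a‖ = D.T a := norm_pt D a
  have hT := T_ge D a
  obtain ⟨x, hx⟩ : (2 : ℝ) • U D (pt D a) ∈ Set.range (U D) :=
    (Ysub D).smul_mem 2 ⟨pt D a, rfl⟩
  have hg : Good D Set.univ (bump (pt D a) 1) := by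
    refine ⟨bump_lip _ _, bump_zero _ _ _ ?_, fun δ _ h => absurd h (hna δ)⟩
    rw [zero_sub, norm_neg, hp]
    linarith
  have := congrArg (fun w : W D => w ⟨_, hg⟩) hx
  simp only [U_apply, lp.coeFn_smul, Pi.smul_apply, smul_eq_mul] at this
  unfold bump at this
  rw [sub_self, norm_zero, sub_zero, max_eq_right zero_le_one] at this
  have h2 : max 0 (1 - ‖x - pt D a‖) ≤ 1 := max_le zero_le_one (by linarith [norm_nonneg (x - pt D a)])
  linarith

include D in
theorem counter [Nonempty Γ] :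
    ¬ (∀ (X Y : Type) [NormedAddCommGroup X] [NormedSpace ℝ X] [CompleteSpace X]
      [NormedAddCommGroup Y] [NormedSpace ℝ Y] [CompleteSpace Y] (U : X → Y),
      Function.Bijective U →
      (∀ x₀ : X, ∃ r : ℝ, 0 < r ∧ ∀ x ∈ Metric.ball x₀ r, ∀ y ∈ Metric.ball x₀ r,
        dist (U x) (U y) = dist x y) →
      Isometry U) := by
  intro H
  have : CompleteSpace (Ysub D) := (Ysub_closed D).completeSpace_coe
  let V : L1 Γ → Ysub D := fun x => ⟨U D x, x, rfl⟩
  have hV : ∀ x y, dist (V x) (V y) = ‖U D x - U D y‖ := fun x y => by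
    rw [Subtype.dist_eq, dist_eq_norm]
  have hiso := H (L1 Γ) (Ysub D) V
    ⟨fun x y h => U_inj D (congrArg Subtype.val h), fun ⟨_, x, hx⟩ => ⟨x, Subtype.ext hx⟩⟩
    (fun x₀ => ⟨1 / 2, by norm_num, fun x hx y hy => by
      rw [hV, dist_eq_norm]
      apply dist_U_eq
      rw [← dist_eq_norm]
      have := dist_triangle_right x y x₀
      rw [Metric.mem_ball] at hx hy
      linarith⟩)
  obtain ⟨γ, hγ⟩ := exists_active D
  have h1 := hiso.dist_eq (pt D γ) 0
  rw [hV, dist_zero_right, norm_pt] at h1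
  have h2 : ‖U D (pt D γ) - U D 0‖ ≤ D.T γ - 8 := by
    apply lp.norm_le_of_forall_le (by linarith [T_ge D γ])
    intro f
    simp only [lp.coeFn_sub, Pi.sub_apply, U_apply, Real.norm_eq_abs]
    rw [f.2.2.1, sub_zero, f.2.2.2 γ trivial hγ]
    linarith [D.bd γ f.1]
  linarith

end

inductive G : Type
  | base : G
  | node : (ℕ → G) → ℝ → ℝ → (ℕ → ℕ → ℝ) → (ℕ → ℕ → ℝ) → G

def G.child (a b : G) : Prop := ∃ s p q u v, b = G.node s p q u v ∧ ∃ n, s n = a

lemma G.child_wf : WellFounded G.child := by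
  constructor
  intro b
  induction b with
  | base =>
    constructor
    rintro a ⟨s, p, q, u, v, h, _⟩
    cases h
  | node s p q u v ih =>
    constructor
    rintro a ⟨s', p', q', u', v', h, n, rfl⟩
    cases h
    exact ih n

noncomputable section

open Classical in
def decode (s : ℕ → G) (c : ℕ → ℝ) : L1 G :=
  if h : ∃ x : L1 G, (∀ i, i ∉ Set.range s → x i = 0) ∧ ∀ n, x (s n) = c n then h.choose else 0

lemma decode_supp (s : ℕ → G) (c : ℕ → ℝ) (i : G) (hi : i ∉ Set.range s) : decode s c i = 0 := by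
  unfold decode
  split_ifs with h
  · exact h.choose_spec.1 i hi
  · simp

lemma decode_eq (s : ℕ → G) (x : L1 G) (hx : ∀ i, i ∉ Set.range s → x i = 0) :
    decode s (fun n => x (s n)) = x := by
  have h : ∃ z : L1 G, (∀ i, i ∉ Set.range s → z i = 0) ∧ ∀ n, z (s n) = x (s n) :=
    ⟨x, hx, fun _ => rfl⟩
  unfold decode
  rw [dif_pos h]
  apply lp.ext
  funext i
  by_cases hi : i ∈ Set.range s
  · obtain ⟨n, rfl⟩ := hi
    exact h.choose_spec.2 n
  · rw [h.choose_spec.1 i hi, hx i hi]

def GΛ : G → (L1 G → ℝ) → ℝ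
  | G.base, _ => 0
  | G.node s a m u v, f => max (-|m|) (min |m|
      (limUnder atTop (fun n => a * f (decode s (u n)) + f (decode s (v n)))))

def GT : G → ℝ
  | G.base => 8
  | G.node _ _ m _ _ => |m| + 8

theorem exists_data : ∃ (_ : LinearOrder G) (_ : WellFoundedLT G), Nonempty (Data G) := by
  have : IsWellFounded G G.child := ⟨G.child_wf⟩
  obtain ⟨r, hr, hwo⟩ := IsWellFounded.exists_well_order_ge G.child
  classical
  let : LinearOrder G := linearOrderOfSTO r
  have hlt : ∀ a b : G, a < b ↔ r a b := fun a b => Iff.rfl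
  have : WellFoundedLT G := ⟨hwo.wf⟩
  refine ⟨inferInstance, inferInstance, ⟨⟨GΛ, GT, ?_, ?_, ?_, ?_⟩⟩⟩
  · intro γ f g h
    cases γ with
    | base => rfl
    | node s a m u v =>
      have hb : ∀ c, Below (G.node s a m u v) (decode s c) := by
        intro c δ hδ
        apply decode_supp
        rintro ⟨n, rfl⟩
        have : s n < G.node s a m u v := (hlt _ _).2 (hr _ _ ⟨s, a, m, u, v, rfl, n, rfl⟩)
        exact absurd hδ (not_le.2 this)
      simp only [GΛ]
      congr 3
      funext n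
      rw [h _ (hb _), h _ (hb _)]
  · intro γ f
    cases γ with
    | base => simp [GΛ, GT]
    | node s a m u v =>
      simp only [GΛ, GT, add_le_add_iff_right]
      rw [abs_le]
      exact ⟨le_max_left _ _, max_le (by linarith [abs_nonneg m]) (min_le_left _ _)⟩
  · intro γ
    cases γ with
    | base => rfl
    | node s a m u v =>
      simp only [GΛ, mul_zero, add_zero]
      rw [(tendsto_const_nhds (x := (0 : ℝ))).limUnder_eq]
      simp
  · intro a m x x'
    have hc : ∀ z : L1 G, (Function.support (fun i => |z i|)).Countable :=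
      fun z => (summ z).countable_support
    have hS : ({G.base} ∪ ⋃ n, (Function.support (fun i => |x n i|) ∪
        Function.support (fun i => |x' n i|)) : Set G).Countable :=
      (Set.countable_singleton _).union (Set.countable_iUnion (fun n => (hc _).union (hc _)))
    obtain ⟨s, hs⟩ := hS.exists_eq_range ⟨G.base, Or.inl rfl⟩
    refine ⟨G.node s a m (fun n k => x n (s k)) (fun n k => x' n (s k)), ?_⟩
    intro f l hl hm
    have e1 : ∀ n, decode s (fun k => x n (s k)) = x n := by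
      intro n
      apply decode_eq
      intro i hi
      by_contra hne
      exact hi (hs ▸ Or.inr (Set.mem_iUnion.2 ⟨n, Or.inl (by simpa using hne)⟩))
    have e2 : ∀ n, decode s (fun k => x' n (s k)) = x' n := by
      intro n
      apply decode_eq
      intro i hi
      by_contra hne
      exact hi (hs ▸ Or.inr (Set.mem_iUnion.2 ⟨n, Or.inr (by simpa using hne)⟩))
    simp only [GΛ, e1, e2]
    rw [hl.limUnder_eq]
    have h1 := abs_le.1 (hm.trans (le_abs_self m))
    rw [min_eq_right h1.2, max_eq_right h1.1]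

end

end Pool.Agent.H26.SB155
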