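import Mathlib

set_option autoImplicit false

open Filter Topology Ordinal Set

namespace Pool.Agent.H26.SP0

def SPR {K : Type*} [TopologicalSpace K] [CompactSpace K] (C : ℝ) (E : Set C(K, ℝ)) : Prop :=
  ∀ f ∈ E, ∀ g ∈ E, min ‖f - g‖ ‖f + g‖ ≤ C * ‖|f| - |g|‖

lemma clopen (a b : Ordinal.{0}) : IsClopen (Ioc a b) :=
  ⟨by rw [← Order.Icc_succ_left]; exact isClosed_Icc, by rw [← Order.Ioo_succ_right]; exact isOpen_Ioo⟩

lemma pos (n : ℕ) : 0 < (ω : Ordinal.{0}) ^ n := pos_iff_ne_zero.2 (pow_ne_zero n omega0_ne_zero)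

noncomputable def b (γ : Ordinal.{0}) (n j : ℕ) : Ordinal.{0} := γ + ω ^ n * j

lemma b_succ (γ : Ordinal.{0}) (n j : ℕ) : b γ n (j + 1) = b γ n j + ω ^ n := by
  rw [b, b, Nat.cast_succ, mul_add, mul_one, add_assoc]

lemma b_mono (γ : Ordinal.{0}) (n : ℕ) : StrictMono (b γ n) :=
  strictMono_nat_of_lt_succ fun j => b_succ γ n j ▸ lt_add_of_pos_right _ (pos n)

lemma b_zero (γ : Ordinal.{0}) (n : ℕ) : b γ n 0 = γ := by simp [b]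

lemma b_lt (γ : Ordinal.{0}) (n j : ℕ) : b γ n j < γ + ω ^ (n + 1) := by
  rw [b, pow_succ, add_lt_add_iff_left]
  exact mul_lt_mul_of_pos_left (natCast_lt_omega0 j) (pos n)

lemma le_b {γ x : Ordinal.{0}} {n : ℕ} (h : x < γ + ω ^ (n + 1)) : ∃ j, x ≤ b γ n j := by
  obtain ⟨d, h1, h2⟩ := (Ordinal.lt_add_iff (pos _).ne').1 h
  rw [pow_succ] at h1
  obtain ⟨c, h3, h4⟩ := (lt_mul_iff_of_isSuccLimit isSuccLimit_omega0).1 h1
  obtain ⟨j, rfl⟩ := lt_omega0.1 h3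
  exact ⟨j, h2.trans (add_le_add_right h4.le _)⟩

lemma mem_b {γ x : Ordinal.{0}} {n : ℕ} (h0 : γ < x) (h : x < γ + ω ^ (n + 1)) :
    ∃ j, x ∈ Ioc (b γ n j) (b γ n j + ω ^ n) := by
  obtain ⟨j, hj⟩ := le_b h
  induction j with
  | zero => exact absurd (b_zero γ n ▸ hj) h0.not_ge
  | succ j ih => exact (le_or_gt x (b γ n j)).elim ih fun h => ⟨j, h, b_succ γ n j ▸ hj⟩

lemma b_sub (γ : Ordinal.{0}) (n j : ℕ) : Ioc (b γ n j) (b γ n j + ω ^ n) ⊆ Ioo γ (γ + ω ^ (n + 1)) :=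
  fun _ h => ⟨((b_zero γ n).ge.trans ((b_mono γ n).monotone j.zero_le)).trans_lt h.1,
    h.2.trans_lt (b_succ γ n j ▸ b_lt γ n _)⟩

lemma b_disj {γ x : Ordinal.{0}} {n i j : ℕ} (hi : x ∈ Ioc (b γ n i) (b γ n i + ω ^ n))
    (hj : x ∈ Ioc (b γ n j) (b γ n j + ω ^ n)) : i = j := by
  rw [← b_succ] at hi hj
  have h1 := (b_mono γ n).lt_iff_lt.1 (hi.1.trans_le hj.2)
  have h2 := (b_mono γ n).lt_iff_lt.1 (hj.1.trans_le hi.2)
  omega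

lemma near {γ : Ordinal.{0}} {n : ℕ} {U : Set Ordinal.{0}} (h : U ∈ 𝓝 (γ + ω ^ (n + 1))) :
    ∃ j, Ioc (b γ n j) (γ + ω ^ (n + 1)) ⊆ U := by
  obtain ⟨a, h1, h2⟩ := exists_Ioc_subset_of_mem_nhds h ⟨_, b_lt γ n 0⟩
  obtain ⟨j, hj⟩ := le_b h1
  exact ⟨j, (Ioc_subset_Ioc_left hj).trans h2⟩

lemma abs_id (a c : ℝ) : |(|a + c| - |a - c|)| = 2 * min |a| |c| := by
  cases abs_cases a <;> cases abs_cases c <;> cases abs_cases (a + c) <;> cases abs_cases (a - c) <;>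
    cases abs_cases (|a + c| - |a - c|) <;> cases min_cases |a| |c| <;> linarith

end Pool.Agent.H26.SP0
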