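import Mathlib

set_option autoImplicit false

namespace Pool.Agent.H26.Subsum

open Set Filter Topology

def Es (y : ℕ → ℝ) : Set ℝ := {s | ∃ A : Set ℕ, s = ∑' n, A.indicator y n}

def Ps (y : ℕ → ℝ) (n : ℕ) : Set ℝ := {p | ∃ F : Finset ℕ, F ⊆ Finset.range n ∧ p = ∑ i ∈ F, y i}

lemma Es_step (y : ℕ → ℝ) (hy : Summable y) (s : ℝ) :
    s ∈ Es y ↔ ∃ s' ∈ Es (fun n => y (n + 1)), s = s' ∨ s = y 0 + s' := by
  classical
  constructor
  · rintro ⟨A, rfl⟩
    refine ⟨_, ⟨{n | n + 1 ∈ A}, rfl⟩, ?_⟩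
    rw [(hy.indicator A).tsum_eq_zero_add]
    have e : ∑' b, A.indicator y (b + 1) =
        ∑' n, {n | n + 1 ∈ A}.indicator (fun n => y (n + 1)) n :=
      tsum_congr fun n => by simp only [indicator_apply, mem_ofPred_eq]
    rw [e]
    by_cases h : 0 ∈ A
    · right; rw [indicator_of_mem h]
    · left; rw [indicator_of_notMem h, zero_add]
  · rintro ⟨_, ⟨A, rfl⟩, h | h⟩
    · refine ⟨Nat.succ '' A, ?_⟩
      rw [h, (hy.indicator _).tsum_eq_zero_add, indicator_of_notMem (by simp), zero_add]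
      exact tsum_congr fun n => by simp [indicator_apply]
    · refine ⟨insert 0 (Nat.succ '' A), ?_⟩
      rw [h, (hy.indicator _).tsum_eq_zero_add, indicator_of_mem (by simp)]
      congr 1
      exact tsum_congr fun n => by simp [indicator_apply]

lemma Es_scale (y : ℕ → ℝ) (q s : ℝ) : s ∈ Es (fun n => q * y n) ↔ ∃ s' ∈ Es y, s = q * s' := by
  classical
  have e : ∀ A : Set ℕ, ∑' n, A.indicator (fun n => q * y n) n = q * ∑' n, A.indicator y n := by
    intro A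
    rw [← tsum_mul_left]
    exact tsum_congr fun n => by simp [indicator_apply]
  constructor
  · rintro ⟨A, rfl⟩
    exact ⟨_, ⟨A, rfl⟩, e A⟩
  · rintro ⟨_, ⟨A, rfl⟩, rfl⟩
    exact ⟨A, (e A).symm⟩

lemma Es_zero (y : ℕ → ℝ) : 0 ∈ Es y := ⟨∅, by simp⟩

lemma Es_closed (y : ℕ → ℝ) (hy : Summable y) : IsClosed (Es y) := by
  classical
  have hc : Continuous fun ε : ℕ → Bool => ∑' i, (if ε i = true then y i else 0) := by
    refine continuous_tsum (fun i => ?_) hy.norm (fun i ε => ?_)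
    · exact (continuous_of_discreteTopology
        (f := fun t : Bool => if t = true then y i else 0)).comp (continuous_apply i)
    · split_ifs
      · exact le_rfl
      · simp
  have e : Es y = range fun ε : ℕ → Bool => ∑' i, (if ε i = true then y i else 0) := by
    ext s
    constructor
    · rintro ⟨A, rfl⟩
      exact ⟨fun i => decide (i ∈ A), tsum_congr fun i => by simp [indicator_apply]⟩
    · rintro ⟨ε, rfl⟩
      exact ⟨{i | ε i = true}, tsum_congr fun i => by simp only [indicator_apply, mem_ofPred_eq]⟩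
  rw [e]
  exact (isCompact_range hc).isClosed

lemma Es_bound (y : ℕ → ℝ) (hy : Summable y) (h0 : ∀ n, 0 ≤ y n) (s : ℝ) (hs : s ∈ Es y) :
    0 ≤ s ∧ s ≤ ∑' n, y n := by
  obtain ⟨A, rfl⟩ := hs
  exact ⟨tsum_nonneg fun n => indicator_nonneg (fun i _ => h0 i) n,
    (hy.indicator A).tsum_le_tsum (fun n => indicator_le_self' (fun _ _ => h0 _) _) hy⟩

lemma attract (K S F : Set ℝ) (q M : ℝ) (q0 : 0 ≤ q) (q1 : q < 1) (hK : IsClosed K) (h0 : 0 ∈ K)
    (hKF : ∀ f ∈ F, ∀ k ∈ K, f + q * k ∈ K) (hM : ∀ s ∈ S, |s| ≤ M)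
    (hS : ∀ s ∈ S, ∃ f ∈ F, ∃ s' ∈ S, s = f + q * s') : S ⊆ K := by
  have key : ∀ n : ℕ, ∀ s ∈ S, ∃ k ∈ K, |s - k| ≤ M * q ^ n := by
    intro n
    induction n with
    | zero => intro s hs; exact ⟨0, h0, by simpa using hM s hs⟩
    | succ n ih =>
      intro s hs
      obtain ⟨f, hf, s', hs', rfl⟩ := hS s hs
      obtain ⟨k, hk, hk'⟩ := ih s' hs'
      refine ⟨f + q * k, hKF f hf k hk, ?_⟩
      rw [show f + q * s' - (f + q * k) = q * (s' - k) by ring, abs_mul, abs_of_nonneg q0, pow_succ]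
      nlinarith
  intro s hs
  rw [← hK.closure_eq, Metric.mem_closure_iff]
  intro ε hε
  have h1 : Tendsto (fun n : ℕ => M * q ^ n) atTop (𝓝 (M * 0)) :=
    (tendsto_pow_atTop_nhds_zero_of_lt_one q0 q1).const_mul M
  rw [mul_zero] at h1
  obtain ⟨n, hn⟩ := (h1.eventually (gt_mem_nhds hε)).exists
  obtain ⟨k, hk, hk'⟩ := key n s hs
  exact ⟨k, hk, lt_of_le_of_lt hk' hn⟩

lemma Ps_step (y : ℕ → ℝ) (n : ℕ) (p : ℝ) :
    p ∈ Ps y (n + 1) ↔ ∃ p' ∈ Ps (fun n => y (n + 1)) n, p = p' ∨ p = y 0 + p' := by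
  classical
  constructor
  · rintro ⟨F, hF, rfl⟩
    refine ⟨_, ⟨(Finset.range n).filter (fun i => i + 1 ∈ F), Finset.filter_subset _ _, rfl⟩, ?_⟩
    have e : ∑ i ∈ F, y i = ∑ i ∈ Finset.range (n + 1), if i ∈ F then y i else 0 := by
      rw [← Finset.sum_filter, Finset.filter_mem_eq_inter, Finset.inter_eq_right.mpr hF]
    rw [e, Finset.sum_range_succ', Finset.sum_filter]
    by_cases h : 0 ∈ F
    · right; rw [if_pos h, add_comm]
    · left; rw [if_neg h, add_zero]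
  · rintro ⟨_, ⟨F, hF, rfl⟩, h | h⟩
    · refine ⟨F.image Nat.succ, fun i hi => ?_, ?_⟩
      · obtain ⟨j, hj, rfl⟩ := Finset.mem_image.mp hi
        have := Finset.mem_range.mp (hF hj)
        exact Finset.mem_range.mpr (Nat.succ_lt_succ this)
      · rw [h, Finset.sum_image (fun a _ b _ e => Nat.succ_injective e)]
    · refine ⟨insert 0 (F.image Nat.succ), fun i hi => ?_, ?_⟩
      · rcases Finset.mem_insert.mp hi with rfl | hi
        · simp
        · obtain ⟨j, hj, rfl⟩ := Finset.mem_image.mp hi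
          have := Finset.mem_range.mp (hF hj)
          exact Finset.mem_range.mpr (Nat.succ_lt_succ this)
      · rw [h, Finset.sum_insert (by simp), Finset.sum_image (fun a _ b _ e => Nat.succ_injective e)]

lemma Ps_scale (y : ℕ → ℝ) (q : ℝ) (n : ℕ) (p : ℝ) :
    p ∈ Ps (fun n => q * y n) n ↔ ∃ p' ∈ Ps y n, p = q * p' := by
  constructor
  · rintro ⟨F, hF, rfl⟩
    exact ⟨_, ⟨F, hF, rfl⟩, (Finset.mul_sum _ _ _).symm⟩
  · rintro ⟨_, ⟨F, hF, rfl⟩, rfl⟩
    exact ⟨F, hF, Finset.mul_sum _ _ _⟩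

end Pool.Agent.H26.Subsum
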