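import Mathlib

set_option autoImplicit false

namespace Pool.Agent.H26.SwapSign

theorem card_fix (S : Type) [Fintype S] [DecidableEq S] :
    Fintype.card (Function.fixedPoints (Equiv.prodComm S S : Equiv.Perm (S × S))) =
      Fintype.card S := by
  symm
  refine Fintype.card_congr ⟨fun x => ⟨(x, x), rfl⟩, fun p => p.1.1, fun _ => rfl, ?_⟩
  rintro ⟨⟨a, b⟩, h⟩
  have h2 : (b, a) = (a, b) := h
  have h3 : b = a := (Prod.mk.inj h2).1
  subst h3
  rfl

theorem mod_four (S : Type) [Fintype S] [DecidableEq S]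
    (h : Equiv.Perm.sign (Equiv.prodComm S S : Equiv.Perm (S × S)) = 1) :
    Fintype.card S % 4 = 0 ∨ Fintype.card S % 4 = 1 := by
  have h2 : (Equiv.prodComm S S : Equiv.Perm (S × S)) ^ 2 = 1 := by
    ext p <;> rfl
  rw [Equiv.Perm.sign_of_pow_two_eq_one h2, card_fix, Fintype.card_prod] at h
  have he : Even ((Fintype.card S * Fintype.card S - Fintype.card S) / 2) := by
    by_contra hc
    rw [Nat.not_even_iff_odd] at hc
    rw [hc.neg_one_pow] at h
    exact absurd h (by decide)
  generalize Fintype.card S = n at he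
  obtain ⟨k, hk⟩ := he
  obtain ⟨m, hm⟩ : ∃ m, n = 4 * m + n % 4 := ⟨n / 4, by omega⟩
  have hr : n % 4 < 4 := Nat.mod_lt _ (by norm_num)
  by_contra hc
  have h23 : n % 4 = 2 ∨ n % 4 = 3 := by omega
  rcases h23 with h' | h'
  · rw [h'] at hm
    have : n * n = 16 * (m * m) + 16 * m + 4 := by rw [hm]; ring
    omega
  · rw [h'] at hm
    have : n * n = 16 * (m * m) + 24 * m + 9 := by rw [hm]; ring
    omega

noncomputable def lam {S : Type} (op : S → S → S) (h : ∀ a b, ∃! x, op a x = b) :
    Equiv.Perm (S × S) :=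
  Equiv.ofBijective (fun p => (p.1, op p.1 p.2)) (by
    constructor
    · rintro ⟨a, b⟩ ⟨c, d⟩ e
      have e1 : a = c := (Prod.mk.inj e).1
      subst e1
      have e2 : op a b = op a d := (Prod.mk.inj e).2
      have := (h a (op a d)).unique e2 rfl
      rw [this]
    · rintro ⟨a, b⟩
      obtain ⟨x, hx, -⟩ := h a b
      exact ⟨(a, x), by simp [hx]⟩)

noncomputable def rho {S : Type} (op : S → S → S) (h : ∀ a b, ∃! x, op x a = b) :
    Equiv.Perm (S × S) :=
  Equiv.ofBijective (fun p => (op p.1 p.2, p.2)) (by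
    constructor
    · rintro ⟨a, b⟩ ⟨c, d⟩ e
      have e1 : b = d := (Prod.mk.inj e).2
      subst e1
      have e2 : op a b = op c b := (Prod.mk.inj e).1
      have := (h b (op c b)).unique e2 rfl
      rw [this]
    · rintro ⟨a, b⟩
      obtain ⟨x, hx, -⟩ := h b a
      exact ⟨(x, b), by simp [hx]⟩)

theorem lam_apply {S : Type} (op : S → S → S) (h : ∀ a b, ∃! x, op a x = b) (p : S × S) :
    lam op h p = (p.1, op p.1 p.2) := rfl

theorem rho_apply {S : Type} (op : S → S → S) (h : ∀ a b, ∃! x, op x a = b) (p : S × S) :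
    rho op h p = (op p.1 p.2, p.2) := rfl

end Pool.Agent.H26.SwapSign
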