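import Mathlib

set_option autoImplicit false

open Matrix Filter Topology
open scoped ComplexOrder InnerProductSpace

namespace Pool.Agent.H26.Toep

def Toep {A : Type} (n : ℕ) (y : ℤ → A) : Matrix (Fin n) (Fin n) A :=
  Matrix.of fun i j => y ((i : ℕ) - (j : ℕ))

theorem Toep_apply {A : Type} (n : ℕ) (y : ℤ → A) (i j : Fin n) :
    Toep n y i j = y ((i : ℕ) - (j : ℕ)) := rfl

def upd {A : Type} [Star A] (k : ℕ) (a : ℤ → A) (z : A) : ℤ → A :=
  fun l => if l = k then z else if l = -k then star z else a l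

theorem upd_lt {A : Type} [Star A] {k : ℕ} (a : ℤ → A) (z : A) {l : ℤ} (h : |l| < k) :
    upd k a z l = a l := by
  rw [abs_lt] at h
  rw [upd, if_neg (by omega), if_neg (by omega)]

theorem gram_rep {ι : Type} [Fintype ι] [DecidableEq ι] {M : Matrix ι ι ℂ} (h : M.PosSemidef) :
    ∃ u : ι → EuclideanSpace ℂ ι, ∀ i j, M i j = ⟪u i, u j⟫_ℂ := by
  open scoped MatrixOrder in
  obtain ⟨B, rfl⟩ := CStarAlgebra.nonneg_iff_eq_star_mul_self.mp h.nonneg
  exact ⟨fun j => WithLp.toLp 2 fun r => B r j, fun i j => by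
    simp [mul_apply, PiLp.inner_apply, mul_comm]⟩

theorem shift {H : Type} [NormedAddCommGroup H] [InnerProductSpace ℂ H] [FiniteDimensional ℂ H]
    {ι : Type} [Fintype ι] (p q : ι → H) (h : ∀ i j, ⟪p i, p j⟫_ℂ = ⟪q i, q j⟫_ℂ) :
    ∃ U : H →ₗᵢ[ℂ] H, ∀ i, U (p i) = q i := by
  classical
  let f := Fintype.linearCombination ℂ p
  let g := Fintype.linearCombination ℂ q
  have hn : ∀ c, ‖g c‖ = ‖f c‖ := fun c => by
    rw [@norm_eq_sqrt_re_inner ℂ, @norm_eq_sqrt_re_inner ℂ]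
    simp only [f, g, Fintype.linearCombination_apply, sum_inner, inner_sum, inner_smul_left,
      inner_smul_right, h]
  have hk : LinearMap.ker f ≤ LinearMap.ker g := fun c hc => by
    rw [LinearMap.mem_ker, ← norm_eq_zero, hn, norm_eq_zero]; exact hc
  let L0 := (LinearMap.ker f).liftQ g hk ∘ₗ f.quotKerEquivRange.symm.toLinearMap
  have e : ∀ c, L0 ⟨f c, c, rfl⟩ = g c := fun c => by
    simp [L0, LinearMap.quotKerEquivRange_symm_apply_image]
  let L : LinearMap.range f →ₗᵢ[ℂ] H := ⟨L0, by rintro ⟨_, c, rfl⟩; rw [e, hn]; rfl⟩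
  refine ⟨L.extend, fun i => ?_⟩
  have h1 : p i = f (Pi.single i 1) := by simp [f]
  have := L.extend_apply ⟨f (Pi.single i 1), _, rfl⟩
  rw [h1]
  exact this.trans ((e _).trans (by simp [g]))

theorem ext1 {k : ℕ} {a : ℤ → ℂ} (h : (Toep (k + 1) a).PosSemidef) :
    ∃ z, (Toep (k + 2) (upd (k + 1) a z)).PosSemidef := by
  obtain ⟨u, hu⟩ := gram_rep h
  obtain ⟨U, hU⟩ := shift (fun i : Fin k => u i.castSucc) (fun i => u i.succ) fun i j => by
    rw [← hu, ← hu, Toep_apply, Toep_apply]; simp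
  let v : Fin (k + 2) → EuclideanSpace ℂ (Fin (k + 1)) := Fin.cons (u 0) fun i => U (u i)
  refine ⟨⟪U (u (Fin.last k)), u 0⟫_ℂ, ?_⟩
  suffices e : Toep (k + 2) (upd (k + 1) a ⟪U (u (Fin.last k)), u 0⟫_ℂ) = gram ℂ v by
    rw [e]; exact posSemidef_gram ℂ v
  ext i j
  rw [gram_apply, Toep_apply]
  refine Fin.cases ?_ (fun i => ?_) i <;> refine Fin.cases ?_ (fun j => ?_) j
  · rw [upd_lt _ _ (by simp)]; exact hu 0 0
  · refine Fin.lastCases ?_ (fun j => ?_) j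
    · simp [upd, v]
      omega
    · rw [upd_lt _ _ (by have := j.2; rw [abs_lt]; simp; omega)]
      simp only [v, Fin.cons_zero, Fin.cons_succ, hU, ← hu, Toep_apply]
      simp
  · refine Fin.lastCases ?_ (fun i => ?_) i
    · simp [upd, v]
    · rw [upd_lt _ _ (by have := i.2; rw [abs_lt]; simp; omega)]
      simp only [v, Fin.cons_zero, Fin.cons_succ, hU, ← hu, Toep_apply]
      simp
  · rw [upd_lt _ _ (by have := i.2; have := j.2; rw [abs_lt]; simp; omega)]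
    simp only [v, Fin.cons_succ, U.inner_map_map, ← hu, Toep_apply]
    simp

def Q (k : ℕ) (a : ℤ → ℂ) (v : Fin k → ℂ) : ℂ := star v ⬝ᵥ Toep k a *ᵥ v

theorem Q_snoc (k : ℕ) (a : ℤ → ℂ) (v : Fin k → ℂ) : Q (k + 1) a (Fin.snoc v 0) = Q k a v := by
  simp [Q, dotProduct, mulVec, Fin.sum_univ_castSucc, Toep_apply]

theorem Q_cons (k : ℕ) (a : ℤ → ℂ) (v : Fin k → ℂ) : Q (k + 1) a (Fin.cons 0 v) = Q k a v := by
  simp [Q, dotProduct, mulVec, Fin.sum_univ_succ, Toep_apply]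

theorem iso (a : ℤ → ℂ) : ∀ (k : ℕ) (v : Fin (k + 1) → ℂ), v ≠ 0 → Q (k + 1) a v = 0 →
    ∃ w : Fin (k + 1) → ℂ, w 0 ≠ 0 ∧ Q (k + 1) a w = 0 := by
  intro k
  induction k with
  | zero => exact fun v hv h => ⟨v, fun h0 => hv (by ext i; fin_cases i; exact h0), h⟩
  | succ k ih =>
    intro v hv h
    by_cases h0 : v 0 = 0
    · have e : v = Fin.cons 0 (Fin.tail v) := by rw [← h0, Fin.cons_self_tail]
      rw [e, Q_cons] at h
      obtain ⟨w, hw, hq⟩ := ih _ (fun ht => hv (by rw [e, ht]; ext i; exact Fin.cases rfl (fun _ => rfl) i)) h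
      exact ⟨Fin.snoc w 0, by simpa using hw, by rw [Q_snoc, hq]⟩
    · exact ⟨v, h0, h⟩

theorem cs {ι : Type} [Fintype ι] [DecidableEq ι] {M : Matrix ι ι ℂ} (h : M.PosSemidef) (i : ι)
    (w : ι → ℂ) : ‖(M *ᵥ w) i‖ ^ 2 ≤ ‖M i i‖ * ‖star w ⬝ᵥ M *ᵥ w‖ := by
  obtain ⟨u, hu⟩ := gram_rep h
  have e1 : ∀ i, (M *ᵥ w) i = ⟪u i, ∑ j, w j • u j⟫_ℂ := fun i => by
    simp [mulVec, dotProduct, inner_sum, inner_smul_right, hu, mul_comm]
  have e2 : star w ⬝ᵥ M *ᵥ w = ⟪∑ j, w j • u j, ∑ j, w j • u j⟫_ℂ := by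
    rw [sum_inner]; simp only [dotProduct, e1, inner_smul_left]; rfl
  rw [e1, e2, hu, inner_self_eq_norm_sq_to_K, inner_self_eq_norm_sq_to_K]
  simp only [norm_pow, RCLike.norm_ofReal, abs_norm, ← mul_pow]
  exact pow_le_pow_left₀ (norm_nonneg _) (norm_inner_le_norm _ _) 2

theorem gap {ι : Type} [Fintype ι] [DecidableEq ι] [Nonempty ι] {M : Matrix ι ι ℂ}
    (h : M.PosDef) : ∃ ε : ℝ, 0 < ε ∧ (M - (ε : ℂ) • 1).PosSemidef := by
  open scoped MatrixOrder Matrix.Norms.L2Operator in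
  obtain ⟨r, hr, hr2⟩ := (CFC.exists_pos_algebraMap_le_iff (a := M)
    h.isHermitian.isSelfAdjoint).2 fun x hx => h.isStrictlyPositive.spectrum_pos hx
  refine ⟨r, hr, ?_⟩
  have := Matrix.le_iff.1 hr2
  rwa [Algebra.algebraMap_eq_smul_one, ← Complex.coe_smul] at this

theorem pert {ι : Type} [Fintype ι] [DecidableEq ι] {P : Matrix ι ι ℂ} (h : P.PosSemidef)
    {ε : ℝ} (hε : 0 < ε) {N : ℕ → Matrix ι ι ℂ} (hN : ∀ n, (N n).IsHermitian)
    (hl : Tendsto N atTop (𝓝 (P + (ε : ℂ) • 1))) : ∀ᶠ n in atTop, (N n).PosSemidef := by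
  open scoped MatrixOrder Matrix.Norms.L2Operator in
  have h1 : ∀ᶠ n in atTop, ‖N n - (P + (ε : ℂ) • 1)‖ < ε :=
    (tendsto_iff_norm_sub_tendsto_zero.1 hl).eventually (gt_mem_nhds hε)
  refine h1.mono fun n hn => ?_
  open scoped MatrixOrder Matrix.Norms.L2Operator in
  have sa : IsSelfAdjoint (N n - (P + (ε : ℂ) • 1)) :=
    (hN n).isSelfAdjoint.sub (h.isHermitian.isSelfAdjoint.add
      (IsSelfAdjoint.smul (by simp [IsSelfAdjoint]) (IsSelfAdjoint.one _)))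
  open scoped MatrixOrder Matrix.Norms.L2Operator in
  have h2 := Matrix.le_iff.1 sa.neg_algebraMap_norm_le_self
  open scoped Matrix.Norms.L2Operator in
  have h3 := (h2.add h).add (PosSemidef.one.smul (sub_nonneg.2 hn.le))
  rw [Algebra.algebraMap_eq_smul_one, sub_smul, Complex.coe_smul] at h3
  generalize (_ : ℝ) • (1 : Matrix ι ι ℂ) = c at h3
  generalize (_ : ℝ) • (1 : Matrix ι ι ℂ) = d at h3
  rwa [show N n - (P + c) - -d + P + (c - d) = N n by abel] at h3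

end Pool.Agent.H26.Toep
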