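import Mathlib

open Filter Topology
open scoped BoundedContinuousFunction

namespace Pool.Agent.H26.Tsi

inductive W : (ℕ → ℝ) → Prop
  | base (i : ℕ) (s : ℝ) (hs : |s| ≤ 1) : W (fun k => if k = i then s else 0)
  | comb (S : Finset ℕ) (g : ℕ → ℕ → ℝ) (c : ℕ → ℕ) (hc : Monotone c) (hg : ∀ j ∈ S, W (g j))
      (h1 : ∀ j ∈ S, ∀ i, g j i ≠ 0 → c j ≤ i ∧ i < c (j + 1) ∧ S.card ≤ i) :
      W (fun i => (1 / 2) * ∑ j ∈ S, g j i)

lemma sum_le_one {S : Finset ℕ} {u : ℕ → ℝ} (h1 : ∀ j ∈ S, |u j| ≤ 1)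
    (h2 : ∀ j ∈ S, ∀ j' ∈ S, j < j' → u j ≠ 0 → u j' ≠ 0 → False) : |∑ j ∈ S, u j| ≤ 1 := by
  by_cases h : ∃ j ∈ S, u j ≠ 0
  · obtain ⟨j, hj, hj0⟩ := h
    rw [Finset.sum_eq_single_of_mem j hj]
    · exact h1 j hj
    · intro b hb hbj
      by_contra hc
      rcases lt_or_gt_of_ne hbj with h | h
      · exact h2 b hb j hj h hc hj0
      · exact h2 j hj b hb h hj0 hc
  · push Not at h
    simp [Finset.sum_eq_zero h]

lemma W.abs_le {f : ℕ → ℝ} (h : W f) (i : ℕ) : |f i| ≤ 1 := by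
  induction h with
  | base j s hs => beta_reduce; split_ifs <;> simp [hs]
  | comb S g c hc hg h1 ih =>
    have := sum_le_one (u := fun j => g j i) ih fun j hj j' hj' hjj a b => by
      have := h1 j hj i a
      have := h1 j' hj' i b
      have := hc (show j + 1 ≤ j' from hjj)
      omega
    rw [abs_mul, abs_of_pos (by norm_num : (0 : ℝ) < 1 / 2)]
    linarith

lemma W.mul {f : ℕ → ℝ} (h : W f) (u : ℕ → ℝ) (hu : ∀ i, |u i| ≤ 1) : W (fun i => u i * f i) := by
  induction h with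
  | base j s hs =>
    have : (fun i => u i * if i = j then s else 0) = fun k => if k = j then u j * s else 0 := by
      ext k; split_ifs with h <;> simp [h]
    rw [this]
    refine W.base j _ ?_
    rw [abs_mul]
    exact mul_le_one₀ (hu j) (abs_nonneg _) hs
  | comb S g c hc hg h1 ih =>
    have : (fun i => u i * (1 / 2 * ∑ j ∈ S, g j i)) =
        fun i => 1 / 2 * ∑ j ∈ S, (fun j i => u i * g j i) j i := by
      ext i; simp only [← Finset.mul_sum]; ring
    rw [this]
    exact W.comb S _ c hc ih fun j hj i hi => h1 j hj i (right_ne_zero_of_mul hi)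

structure Wt where
  f : ℕ → ℝ
  h : W f

instance : TopologicalSpace Wt := ⊥
instance : DiscreteTopology Wt := ⟨rfl⟩

def sg (i : ℕ) : Wt := ⟨_, W.base i 1 (by simp)⟩

instance : Nonempty Wt := ⟨sg 0⟩

def Wt.neg (w : Wt) : Wt := ⟨_, w.h.mul (fun _ => -1) (by simp)⟩

open Classical in
noncomputable def Wt.res (A : Set ℕ) (w : Wt) : Wt :=
  ⟨_, w.h.mul (fun i => if i ∈ A then 1 else 0) (fun i => by split_ifs <;> simp)⟩

noncomputable def e0 (i : ℕ) : Wt →ᵇ ℝ :=
  BoundedContinuousFunction.ofNormedAddCommGroupDiscrete (fun w => w.f i) 1 (fun w => w.h.abs_le i)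

noncomputable def YS : Submodule ℝ (Wt →ᵇ ℝ) :=
  (Submodule.span ℝ (Set.range e0)).topologicalClosure

def Y : Type := YS

noncomputable instance : NormedAddCommGroup Y := inferInstanceAs (NormedAddCommGroup YS)
noncomputable instance : NormedSpace ℝ Y := inferInstanceAs (NormedSpace ℝ YS)
instance : CompleteSpace Y := (Submodule.isClosed_topologicalClosure _).completeSpace_coe

noncomputable def e (i : ℕ) : Y :=
  (⟨e0 i, Submodule.le_topologicalClosure _ (Submodule.subset_span ⟨i, rfl⟩)⟩ : YS)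

noncomputable def inc : Y →ₗ[ℝ] (Wt →ᵇ ℝ) := YS.subtype

lemma dense_e : Dense (Submodule.span ℝ (Set.range e) : Set Y) := by
  refine (Subtype.dense_iff (s := (YS : Set (Wt →ᵇ ℝ)))).2 ?_
  refine closure_mono ?_
  intro x hx
  have : Submodule.span ℝ (Set.range e0) ≤
      (Submodule.span ℝ (Set.range e)).map inc := by
    refine Submodule.span_le.2 ?_
    rintro _ ⟨i, rfl⟩
    exact ⟨e i, Submodule.subset_span ⟨i, rfl⟩, rfl⟩
  exact this hx

lemma ext_e {E : Type*} [NormedAddCommGroup E] [NormedSpace ℝ E] {L L' : Y →L[ℝ] E}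
    (h : ∀ i, L (e i) = L' (e i)) : L = L' :=
  ContinuousLinearMap.ext_on dense_e (by rintro _ ⟨i, rfl⟩; exact h i)

noncomputable def ev (w : Wt) : Y →L[ℝ] ℝ := (BoundedContinuousFunction.evalCLM ℝ w).comp YS.subtypeL

lemma ev_e (w : Wt) (i : ℕ) : ev w (e i) = w.f i := rfl

lemma ev_abs (w : Wt) (y : Y) : |ev w y| ≤ ‖y‖ :=
  BoundedContinuousFunction.norm_coe_le_norm (show YS from y).1 w

lemma ev_le (w : Wt) (y : Y) : ev w y ≤ ‖y‖ := (le_abs_self _).trans (ev_abs w y)

lemma ev_neg (w : Wt) : ev w.neg = -ev w := ext_e fun i => by simp [ev_e, Wt.neg]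

lemma norm_le {y : Y} {C : ℝ} (h : ∀ w, ev w y ≤ C) : ‖y‖ ≤ C := by
  refine (BoundedContinuousFunction.norm_le_of_nonempty (f := (show YS from y).1)).2 fun w => ?_
  have h1 := h w
  have h2 := h w.neg
  rw [ev_neg] at h2
  rw [neg_apply] at h2
  exact abs_le.2 ⟨neg_le.1 h2, h1⟩

noncomputable def P0 (A : Set ℕ) : (Wt →ᵇ ℝ) →L[ℝ] (Wt →ᵇ ℝ) :=
  BoundedContinuousFunction.compContinuousCLM ℝ ℝ ⟨Wt.res A, continuous_of_discreteTopology⟩

open Classical in
lemma P0_e (A : Set ℕ) (i : ℕ) : P0 A (e0 i) = (if i ∈ A then (1 : ℝ) else 0) • e0 i := by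
  ext w; rfl

lemma P0_mem (A : Set ℕ) {f : Wt →ᵇ ℝ} (hf : f ∈ YS) : P0 A f ∈ YS := by
  have : YS ≤ YS.comap (P0 A).toLinearMap := by
    refine Submodule.topologicalClosure_minimal _ (Submodule.span_le.2 ?_)
      ((Submodule.isClosed_topologicalClosure _).preimage (P0 A).continuous)
    rintro _ ⟨i, rfl⟩
    change P0 A (e0 i) ∈ YS
    rw [P0_e]
    exact YS.smul_mem _ (show YS from e i).2
  exact this hf

noncomputable def pr (A : Set ℕ) : Y →L[ℝ] Y :=
  ((P0 A).comp YS.subtypeL).codRestrict YS fun y => P0_mem A y.2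

open Classical in
lemma pr_e (A : Set ℕ) (i : ℕ) : pr A (e i) = if i ∈ A then e i else 0 := by
  have : pr A (e i) = (if i ∈ A then (1 : ℝ) else 0) • e i := Subtype.ext (P0_e A i)
  rw [this]
  split_ifs <;> simp

lemma ev_pr (w : Wt) (A : Set ℕ) (y : Y) : ev w (pr A y) = ev (w.res A) y := rfl

lemma pr_norm (A : Set ℕ) (y : Y) : ‖pr A y‖ ≤ ‖y‖ := norm_le fun w => ev_le (w.res A) y

lemma pr_pr (A B : Set ℕ) (y : Y) : pr A (pr B y) = pr (A ∩ B) y := by
  have : (pr A).comp (pr B) = pr (A ∩ B) := ext_e fun i => by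
    by_cases h1 : i ∈ A <;> by_cases h2 : i ∈ B <;> simp [pr_e, h1, h2]
  exact congrArg (fun L : Y →L[ℝ] Y => L y) this

lemma ev_zero {w : Wt} {A : Set ℕ} (h : ∀ i ∈ A, w.f i = 0) (y : Y) : ev w (pr A y) = 0 := by
  have : (ev w).comp (pr A) = 0 := ext_e fun i => by
    by_cases h1 : i ∈ A <;> simp [pr_e, h1, ev_e, h]
  exact congrArg (fun L : Y →L[ℝ] ℝ => L y) this

lemma ev_comb {w : Wt} {S : Finset ℕ} {g : ℕ → Wt}
    (h : ∀ i, w.f i = (1 / 2) * ∑ j ∈ S, (g j).f i) (y : Y) :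
    ev w y = (1 / 2) * ∑ j ∈ S, ev (g j) y := by
  have : ev w = (1 / 2 : ℝ) • ∑ j ∈ S, ev (g j) := ext_e fun i => by
    simp only [ev_e, h, smul_apply, _root_.sum_apply, smul_eq_mul]
  rw [this]
  simp only [smul_apply, _root_.sum_apply, smul_eq_mul]

lemma pr_Iio (n : ℕ) (y : Y) :
    pr (Set.Iio n) y = ∑ i ∈ Finset.range n, ev (sg i) y • e i := by
  have : pr (Set.Iio n) = ∑ i ∈ Finset.range n, (ev (sg i)).smulRight (e i) := ext_e fun i => by
    simp [pr_e, _root_.sum_apply, ev_e, sg]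
  rw [this]
  simp [_root_.sum_apply]

lemma pr_Ico {a b : ℕ} (h : a ≤ b) (y : Y) :
    pr (Set.Ico a b) y = pr (Set.Iio b) y - pr (Set.Iio a) y := by
  have : pr (Set.Ico a b) = pr (Set.Iio b) - pr (Set.Iio a) := ext_e fun i => by
    simp only [pr_e, sub_apply, Set.mem_Ico, Set.mem_Iio]
    split_ifs <;> first | omega | simp
  rw [this]; rfl

lemma pr_Ici (a : ℕ) (y : Y) : pr (Set.Ici a) y = y - pr (Set.Iio a) y := by
  have : pr (Set.Ici a) = ContinuousLinearMap.id ℝ Y - pr (Set.Iio a) := ext_e fun i => by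
    simp only [pr_e, sub_apply, Set.mem_Ici, Set.mem_Iio, ContinuousLinearMap.id_apply]
    split_ifs <;> first | omega | simp
  rw [this]; rfl

lemma pr_lim (y : Y) : Tendsto (fun n => pr (Set.Iio n) y) atTop (𝓝 y) := by
  have h1 : ∀ z ∈ Submodule.span ℝ (Set.range e), ∀ᶠ n in atTop, pr (Set.Iio n) z = z := by
    intro z hz
    induction hz using Submodule.span_induction with
    | mem x hx =>
      obtain ⟨j, rfl⟩ := hx
      filter_upwards [eventually_gt_atTop j] with n hn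
      simp [pr_e, hn]
    | zero => simp
    | add x y _ _ hx hy => filter_upwards [hx, hy] with n h1 h2; rw [map_add, h1, h2]
    | smul c x _ hx => filter_upwards [hx] with n h1; rw [map_smul, h1]
  rw [Metric.tendsto_nhds]
  intro ε hε
  obtain ⟨z, hz, hd⟩ := Metric.mem_closure_iff.1 (dense_e y) (ε / 2) (by positivity)
  filter_upwards [h1 z hz] with n hn
  rw [dist_eq_norm] at hd ⊢
  have e1 : pr (Set.Iio n) y - y = pr (Set.Iio n) (y - z) - (y - z) := by
    rw [map_sub, hn]; abel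
  rw [e1]
  linarith [norm_sub_le (pr (Set.Iio n) (y - z)) (y - z), pr_norm (Set.Iio n) (y - z)]

theorem lower (S : Finset ℕ) (c : ℕ → ℕ) (hc : Monotone c) (h : ∀ j ∈ S, S.card ≤ c j) (y : Y) :
    ∑ j ∈ S, ‖pr (Set.Ico (c j) (c (j + 1))) y‖ ≤ 2 * ‖y‖ := by
  refine le_of_forall_pos_le_add fun ε hε => ?_
  have hδ : 0 < ε / (S.card + 1) := by positivity
  have h1 : ∀ j, ∃ w, ‖pr (Set.Ico (c j) (c (j + 1))) y‖ - ε / (S.card + 1) <
      ev w (pr (Set.Ico (c j) (c (j + 1))) y) := fun j => by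
    by_contra hc
    push Not at hc
    linarith [norm_le hc]
  choose w hw using h1
  let g : ℕ → Wt := fun j => (w j).res (Set.Ico (c j) (c (j + 1)))
  have hW := W.comb S (fun j => (g j).f) c hc (fun j _ => (g j).h) fun j hj i hi => by
    have h2 : i ∈ Set.Ico (c j) (c (j + 1)) := by
      by_contra h3
      exact hi (by simp only [g, Wt.res, if_neg h3, zero_mul])
    exact ⟨h2.1, h2.2, (h j hj).trans h2.1⟩
  have h2 := ev_comb (w := ⟨_, hW⟩) (g := g) (fun _ => rfl) y
  have h3 := ev_le ⟨_, hW⟩ y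
  have h4 := Finset.sum_le_sum fun j (_ : j ∈ S) => (hw j).le
  rw [Finset.sum_sub_distrib, Finset.sum_const, nsmul_eq_mul] at h4
  have h5 : (S.card : ℝ) * (ε / (S.card + 1)) ≤ ε := by
    rw [← mul_div_assoc, div_le_iff₀ (by positivity)]
    nlinarith
  simp only [ev_pr] at h4
  linarith

theorem upper (k r : ℕ) (hr : 2 * k ≤ r) (hr0 : 0 < r) (q : ℕ → ℕ) (hq : Monotone q)
    (hk : k ≤ q 0) (y0 : Y) (y : ℕ → Y) (h0 : ‖y0‖ ≤ 1) (hy : ∀ i, ‖y i‖ ≤ 1) :
    ‖pr (Set.Iio k) y0 + (1 / r : ℝ) • ∑ i ∈ Finset.range r,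
      pr (Set.Ico (q i) (q (i + 1))) (y i)‖ ≤ 7 / 4 := by
  classical
  have hr' : (0 : ℝ) < r := by exact_mod_cast hr0
  refine norm_le fun w => ?_
  rw [map_add, map_smul, map_sum, smul_eq_mul]
  have a0 : ev w (pr (Set.Iio k) y0) ≤ 1 := ((ev_le _ _).trans (pr_norm _ _)).trans h0
  have a1 : ∀ (w : Wt) i, |ev w (pr (Set.Ico (q i) (q (i + 1))) (y i))| ≤ 1 :=
    fun w i => ((ev_abs _ _).trans (pr_norm _ _)).trans (hy i)
  have a2 : (1 / r : ℝ) * ∑ i ∈ Finset.range r, ev w (pr (Set.Ico (q i) (q (i + 1))) (y i)) ≤ 1 := by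
    have := Finset.sum_le_sum fun i (_ : i ∈ Finset.range r) => (le_abs_self _).trans (a1 w i)
    rw [Finset.sum_const, Finset.card_range, nsmul_eq_mul, mul_one] at this
    rw [one_div, inv_mul_le_iff₀ hr']
    linarith
  by_cases hz : ∀ i ∈ Set.Iio k, w.f i = 0
  · rw [ev_zero hz]; linarith
  obtain ⟨f, hf⟩ := w
  cases hf with
  | base i s hs =>
    have hi : i < k := by
      by_contra hc
      exact hz fun j hj => if_neg (by rintro rfl; exact hc hj)
    rw [Finset.sum_eq_zero fun j _ => ev_zero (fun l hl => if_neg (by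
      rintro rfl
      have := hq (Nat.zero_le j)
      have := hl.1
      omega)) _]
    linarith
  | comb S g c hc hg h1 =>
    have hS : S.card ≤ k := by
      by_contra hc
      refine hz fun i hi => ?_
      simp only
      rw [Finset.sum_eq_zero, mul_zero]
      intro j hj
      by_contra h2
      have := (h1 j hj i h2).2.2
      have : i < k := hi
      omega
    let g' : ℕ → Wt := fun j => if h : j ∈ S then ⟨g j, hg j h⟩ else sg 0
    have hg' : ∀ j ∈ S, (g' j).f = g j := fun j hj => by simp [g', hj]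
    let bad : ℕ → Prop := fun i => ∃ j ∈ S, q i < c (j + 1) ∧ c (j + 1) < q (i + 1)
    have b1 : ∀ i, ev ⟨_, W.comb S g c hc hg h1⟩ (pr (Set.Ico (q i) (q (i + 1))) (y i)) ≤
        1 / 2 + 1 / 2 * if bad i then 1 else 0 := by
      intro i
      split_ifs with hb
      · linarith [(le_abs_self _).trans (a1 ⟨_, W.comb S g c hc hg h1⟩ i)]
      · rw [ev_comb (g := g') (S := S) (fun l => by
          simp only
          rw [Finset.sum_congr rfl fun j hj => congrFun (hg' j hj) l])]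
        have key : ∀ j ∈ S, ev (g' j) (pr (Set.Ico (q i) (q (i + 1))) (y i)) ≠ 0 →
            ∃ l, q i ≤ l ∧ l < q (i + 1) ∧ c j ≤ l ∧ l < c (j + 1) := by
          intro j hj hne
          by_contra hc
          refine hne (ev_zero (fun l hl => ?_) _)
          by_contra h2
          rw [hg' j hj] at h2
          exact hc ⟨l, hl.1, hl.2, (h1 j hj l h2).1, (h1 j hj l h2).2.1⟩
        have := sum_le_one (fun j _ => a1 (g' j) i) fun j hj j' hj' hjj a b => by
          obtain ⟨l, l1, l2, l3, l4⟩ := key j hj a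
          obtain ⟨m, m1, m2, m3, m4⟩ := key j' hj' b
          have := hc (show j + 1 ≤ j' from hjj)
          exact hb ⟨j, hj, by omega, by omega⟩
        linarith [le_abs_self (∑ j ∈ S, ev (g' j) (pr (Set.Ico (q i) (q (i + 1))) (y i)))]
    have b2 : ((Finset.range r).filter bad).card ≤ S.card := by
      choose! J hJ using fun i (hi : bad i) => hi
      refine Finset.card_le_card_of_injOn J (fun i hi => (hJ i (Finset.mem_filter.1 hi).2).1) ?_
      intro i hi i' hi' hii
      have h2 := (hJ i (Finset.mem_filter.1 hi).2).2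
      have h3 := (hJ i' (Finset.mem_filter.1 hi').2).2
      rw [← hii] at h3
      by_contra hne
      rcases lt_or_gt_of_ne hne with h | h
      · have := hq (show i + 1 ≤ i' from h); omega
      · have := hq (show i' + 1 ≤ i from h); omega
    have b3 := Finset.sum_le_sum fun i (_ : i ∈ Finset.range r) => b1 i
    rw [Finset.sum_add_distrib, ← Finset.mul_sum, Finset.sum_boole, Finset.sum_const,
      Finset.card_range, nsmul_eq_mul] at b3
    have b4 : (2 * ((Finset.range r).filter bad).card : ℝ) ≤ r := by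
      exact_mod_cast (by omega : 2 * ((Finset.range r).filter bad).card ≤ r)
    have b5 : (1 / r : ℝ) * ∑ i ∈ Finset.range r, ev ⟨_, W.comb S g c hc hg h1⟩
        (pr (Set.Ico (q i) (q (i + 1))) (y i)) ≤ 3 / 4 := by
      rw [one_div, inv_mul_le_iff₀ hr']
      linarith
    linarith

theorem shrink (φ : Y →L[ℝ] ℝ) :
    Tendsto (fun n => φ.comp (pr (Set.Iio n))) atTop (𝓝 φ) := by
  set d : ℕ → ℝ := fun n => ‖φ.comp (pr (Set.Ici n))‖ with hd
  have hanti : Antitone d := fun m n hmn => by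
    refine ContinuousLinearMap.opNorm_le_bound _ (norm_nonneg _) fun y => ?_
    have : pr (Set.Ici n) y = pr (Set.Ici m) (pr (Set.Ici n) y) := by
      rw [pr_pr, Set.inter_eq_right.2 (Set.Ici_subset_Ici.2 hmn)]
    rw [ContinuousLinearMap.comp_apply, this]
    exact ((φ.comp (pr (Set.Ici m))).le_opNorm _).trans
      (mul_le_mul_of_nonneg_left (pr_norm _ _) (norm_nonneg _))
  have hb : BddBelow (Set.range d) := ⟨0, by rintro _ ⟨n, rfl⟩; exact norm_nonneg _⟩
  have hl := tendsto_atTop_ciInf hanti hb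
  set δ := ⨅ n, d n with hδ
  have hδ0 : δ = 0 := by
    by_contra hne
    have hpos : 0 < δ := lt_of_le_of_ne (le_ciInf fun n => norm_nonneg _) (Ne.symm hne)
    obtain ⟨n0, hn0⟩ := exists_lt_of_ciInf_lt (show δ < δ * (17 / 16) by linarith)
    have h1 : ∀ n, ∃ m, n ≤ m ∧ ∃ y : Y, ‖y‖ ≤ 1 ∧ δ * (15 / 16) < φ (pr (Set.Ico n m) y) := by
      intro n
      have h2 : δ * (15 / 16) < ‖φ.comp (pr (Set.Ici n))‖ :=
        lt_of_lt_of_le (by linarith) (ciInf_le hb n)
      obtain ⟨y, hy, hy'⟩ := ContinuousLinearMap.exists_lt_apply_of_lt_opNorm _ h2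
      obtain ⟨z, hz, hz'⟩ : ∃ z : Y, ‖z‖ ≤ 1 ∧ δ * (15 / 16) < φ (pr (Set.Ici n) z) := by
        rcases lt_abs.1 hy' with h | h
        · exact ⟨y, hy.le, h⟩
        · exact ⟨-y, by simpa using hy.le, by simpa using h⟩
      have h3 := ((φ.continuous.tendsto _).comp (pr_lim (pr (Set.Ici n) z))).eventually
        (lt_mem_nhds hz')
      obtain ⟨m, hm1, hm2⟩ := ((eventually_ge_atTop n).and h3).exists
      refine ⟨m, hm1, z, hz, ?_⟩
      simpa only [Function.comp_apply, pr_pr, Set.Iio_inter_Ici] using hm2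
    choose M hM y hy hy' using h1
    let q : ℕ → ℕ := fun i => M^[i] (M n0)
    have hq1 : ∀ i, q (i + 1) = M (q i) := fun i => Function.iterate_succ_apply' _ _ _
    have hq : Monotone q := monotone_nat_of_le_succ fun i => hq1 i ▸ hM _
    have hu := upper (M n0) (2 * M n0 + 1) (by omega) (by omega) q hq le_rfl
      (pr (Set.Ici n0) (y n0)) (fun i => y (q i)) ((pr_norm _ _).trans (hy _)) (fun i => hy _)
    set r := 2 * M n0 + 1 with hr
    have hr' : (0 : ℝ) < r := by positivity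
    set z := pr (Set.Iio (M n0)) (pr (Set.Ici n0) (y n0)) + (1 / r : ℝ) •
      ∑ i ∈ Finset.range r, pr (Set.Ico (q i) (q (i + 1))) (y (q i)) with hz
    have e1 : pr (Set.Ici n0) z = z := by
      rw [hz, map_add, map_smul, map_sum]
      congr 1
      · simp only [pr_pr]
        congr 2
        ext i; simp only [Set.mem_inter_iff]; tauto
      · congr 1
        refine Finset.sum_congr rfl fun i _ => ?_
        rw [pr_pr, Set.inter_eq_right.2]
        exact fun l hl => ((hM n0).trans (hq (Nat.zero_le i))).trans hl.1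
    have e2 : φ z ≤ δ * (17 / 16) * (7 / 4) := by
      have := (φ.comp (pr (Set.Ici n0))).le_opNorm z
      rw [ContinuousLinearMap.comp_apply, e1] at this
      exact ((le_abs_self _).trans this).trans
        (mul_le_mul hn0.le hu (norm_nonneg _) (by positivity))
    have e3 : δ * (15 / 16) + δ * (15 / 16) ≤ φ z := by
      rw [hz, map_add, map_smul, map_sum, pr_pr, Set.Iio_inter_Ici, smul_eq_mul]
      refine add_le_add (hy' n0).le ?_
      have := Finset.sum_le_sum fun i (_ : i ∈ Finset.range r) => (hy' (q i)).le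
      rw [Finset.sum_const, Finset.card_range, nsmul_eq_mul] at this
      simp only [hq1]
      rw [one_div, le_inv_mul_iff₀ hr']
      exact this
    linarith
  rw [hδ0] at hl
  rw [tendsto_iff_norm_sub_tendsto_zero]
  refine hl.congr fun n => ?_
  have : φ.comp (pr (Set.Ici n)) = φ - φ.comp (pr (Set.Iio n)) := by
    ext y
    simp [pr_Ici]
  rw [norm_sub_rev, ← this]

lemma comp_pr (φ : Y →L[ℝ] ℝ) (n : ℕ) :
    φ.comp (pr (Set.Iio n)) = ∑ i ∈ Finset.range n, φ (e i) • ev (sg i) := by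
  ext y
  simp [pr_Iio, _root_.sum_apply, mul_comm]

theorem refl_Y (ξ : (Y →L[ℝ] ℝ) →L[ℝ] ℝ) : ∃ y : Y, ∀ φ, ξ φ = φ y := by
  let s : ℕ → Y := fun n => ∑ i ∈ Finset.range n, ξ (ev (sg i)) • e i
  have h1 : ∀ (φ : Y →L[ℝ] ℝ) n, φ (s n) = ξ (φ.comp (pr (Set.Iio n))) := fun φ n => by
    simp [s, comp_pr, mul_comm]
  have h2 : ∀ n, ‖s n‖ ≤ ‖ξ‖ := fun n => norm_le fun w => by
    have h5 : ‖(ev w).comp (pr (Set.Iio n))‖ ≤ 1 :=
      ContinuousLinearMap.opNorm_le_bound _ zero_le_one fun y => by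
        rw [one_mul, ContinuousLinearMap.comp_apply, Real.norm_eq_abs]
        exact (ev_abs _ _).trans (pr_norm _ _)
    have h6 := ξ.le_opNorm ((ev w).comp (pr (Set.Iio n)))
    rw [← h1, Real.norm_eq_abs] at h6
    have h7 := mul_le_of_le_one_right (norm_nonneg ξ) h5
    linarith [le_abs_self (ev w (s n))]
  have h3 : ∀ m n, m ≤ n → pr (Set.Iio m) (s n) = s m := fun m n h => by
    simp only [s, map_sum, map_smul, pr_e, Set.mem_Iio, smul_ite, smul_zero]
    rw [← Finset.sum_filter]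
    congr 1
    ext i
    simp only [Finset.mem_filter, Finset.mem_range]
    omega
  have h4 : CauchySeq s := by
    rw [Metric.cauchySeq_iff']
    by_contra hc
    push Not at hc
    obtain ⟨ε, hε, hc⟩ := hc
    choose M hM hM' using hc
    obtain ⟨m, hm⟩ := exists_nat_gt (2 * ‖ξ‖ / ε)
    let c : ℕ → ℕ := fun i => M^[i] m
    have hc1 : ∀ i, c (i + 1) = M (c i) := fun i => Function.iterate_succ_apply' _ _ _
    have hc : Monotone c := monotone_nat_of_le_succ fun i => hc1 i ▸ hM _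
    have h5 := lower (Finset.range m) c hc
      (fun j _ => by rw [Finset.card_range]; exact hc (Nat.zero_le j)) (s (c m))
    have h6 : ∀ j ∈ Finset.range m, ε ≤ ‖pr (Set.Ico (c j) (c (j + 1))) (s (c m))‖ := by
      intro j hj
      have hj' := Finset.mem_range.1 hj
      rw [pr_Ico (hc (Nat.le_succ j)), h3 _ _ (hc hj'), h3 _ _ (hc hj'.le), ← dist_eq_norm, hc1]
      exact hM' _
    have h7 := Finset.sum_le_sum h6
    rw [Finset.sum_const, Finset.card_range, nsmul_eq_mul] at h7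
    rw [div_lt_iff₀ hε] at hm
    linarith [h2 (c m)]
  obtain ⟨y, hy⟩ := cauchySeq_tendsto_of_complete h4
  refine ⟨y, fun φ => tendsto_nhds_unique ((ξ.continuous.tendsto _).comp (shrink φ)) ?_⟩
  exact ((φ.continuous.tendsto _).comp hy).congr fun n => h1 φ n

end Pool.Agent.H26.Tsi
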