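import Mathlib

open Filter Topology Finset
open scoped RealInnerProductSpace

namespace Pool.Agent.H26.WGA

lemma alg (x y a : ℝ) (hx : 0 < x) (hy : 0 ≤ y) (hy2 : y ≤ x / 2) (ha : 0 ≤ a) (hax : a ≤ x) :
    ∃ p q c s x' y' : ℝ, p ^ 2 + q ^ 2 = 1 ∧ c ^ 2 + s ^ 2 = 1 ∧ x * p ^ 2 - y * q ^ 2 = a ∧
      (0 ≤ x' ∧ x' ≤ x) ∧ (0 ≤ y' ∧ y' ≤ x) ∧ x + y + a / 3 - 2 * a ^ 2 / x ≤ x' + y' ∧
      x' * c ^ 2 - y' * s ^ 2 = x - a * p ^ 2 ∧ (x' + y') * (c * s) = a * p * q ∧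
      y' * c ^ 2 - x' * s ^ 2 = y + a * q ^ 2 := by
  have hs : 0 < x + y := by linarith
  obtain ⟨p, hp⟩ : ∃ p : ℝ, p ^ 2 = (a + y) / (x + y) := ⟨√_, Real.sq_sqrt (by positivity)⟩
  obtain ⟨q, hq⟩ : ∃ q : ℝ, q ^ 2 = (x - a) / (x + y) :=
    ⟨√_, Real.sq_sqrt (div_nonneg (by linarith) hs.le)⟩
  have h1 : p ^ 2 + q ^ 2 = 1 := by rw [hp, hq]; field_simp; ring
  have h2 : x * p ^ 2 - y * q ^ 2 = a := by rw [hp, hq]; field_simp; ring
  have h3 : (x + y) * (q ^ 2 - p ^ 2) = x - y - 2 * a := by rw [hp, hq]; field_simp; ring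
  let z : ℂ := ⟨(x + y + a * (q ^ 2 - p ^ 2)) / 2, a * p * q⟩
  have h4 : ‖z‖ * Real.cos (2 * (z.arg / 2)) = (x + y + a * (q ^ 2 - p ^ 2)) / 2 := by
    rw [mul_div_cancel₀ _ two_ne_zero]; exact z.norm_mul_cos_arg
  have h5 : ‖z‖ * Real.sin (2 * (z.arg / 2)) = a * p * q := by
    rw [mul_div_cancel₀ _ two_ne_zero]; exact z.norm_mul_sin_arg
  have h6 : ‖z‖ ^ 2 = ((x + y + a * (q ^ 2 - p ^ 2)) / 2) ^ 2 + (a * p * q) ^ 2 := by
    rw [Complex.sq_norm, Complex.normSq_mk]; ring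
  have h7 : (x + y + a * (q ^ 2 - p ^ 2)) / 2 ≤ ‖z‖ := Complex.re_le_norm z
  have h8 := Real.cos_sq_add_sin_sq (z.arg / 2)
  rw [Real.cos_two_mul'] at h4
  rw [Real.sin_two_mul] at h5
  have h0 := norm_nonneg z
  generalize ‖z‖ = P at *
  have h9 : 4 * P ^ 2 = (x + y) ^ 2 + 2 * a * (x - y - 2 * a) + a ^ 2 := by
    rw [h6]; linear_combination 2 * a * h3 + a ^ 2 * (p ^ 2 + q ^ 2 + 1) * h1
  have hp1 : a * p ^ 2 ≤ a := mul_le_of_le_one_right ha (by nlinarith [sq_nonneg q])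
  have hq1 : a * q ^ 2 ≤ a := mul_le_of_le_one_right ha (by nlinarith [sq_nonneg p])
  have hp0 : 0 ≤ a * p ^ 2 := by positivity
  have hq0 : 0 ≤ a * q ^ 2 := by positivity
  have e1 : a * p ^ 2 + a * q ^ 2 = a := by rw [← mul_add, h1, mul_one]
  refine ⟨p, q, Real.cos (z.arg / 2), Real.sin (z.arg / 2), P + (x - y - a) / 2,
    P - (x - y - a) / 2, h1, h8, h2, ⟨by linarith, ?_⟩, ⟨by linarith, ?_⟩, ?_, ?_, ?_, ?_⟩
  · have : 2 * P ≤ x + y + a := abs_le_of_sq_le_sq' (by nlinarith) (by linarith) |>.2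
    linarith
  · have : 2 * P ≤ 3 * x - y - a := abs_le_of_sq_le_sq' (by
      nlinarith [sq_nonneg (x - a), mul_nonneg hy ha]) (by linarith) |>.2
    linarith
  · have h10 : q ^ 2 - p ^ 2 = (x - y) / (x + y) - 2 * a / (x + y) := by
      rw [hp, hq]; field_simp; ring
    have h11 : 1 / 3 ≤ (x - y) / (x + y) := by rw [le_div_iff₀ hs]; linarith
    have h12 : 2 * a / (x + y) ≤ 2 * a / x := by gcongr; linarith
    have h13 : a * (1 / 3 - 2 * a / x) ≤ a * (q ^ 2 - p ^ 2) :=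
      mul_le_mul_of_nonneg_left (by linarith) ha
    have : a * (1 / 3 - 2 * a / x) = a / 3 - 2 * a ^ 2 / x := by ring
    linarith
  · linear_combination h4 + (x - y - a) / 2 * h8 + a / 2 * h1
  · linear_combination h5
  · linear_combination h4 - (x - y - a) / 2 * h8 - a / 2 * h1

variable {E H : Type} [NormedAddCommGroup E] [InnerProductSpace ℝ E] [NormedAddCommGroup H]
  [InnerProductSpace ℝ H] {T : E → E → H}
  (hT : ∀ u v u' v', ⟪T u v, T u' v'⟫ = ⟪u, u'⟫ * ⟪v, v'⟫)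

lemma rot {e : ℕ → E} (he : Orthonormal ℝ e) {i j : ℕ} (hij : i ≠ j) {c s : ℝ}
    (h : c ^ 2 + s ^ 2 = 1) : Orthonormal ℝ fun k =>
      if k = i then c • e i + s • e j else if k = j then (-s) • e i + c • e j else e k := by
  rw [orthonormal_iff_ite] at he ⊢
  intro k l
  split_ifs <;>
    simp only [inner_add_left, inner_add_right, real_inner_smul_left, inner_smul_right, he] <;>
    split_ifs <;> first | omega | linarith

include hT

lemma bil (a b c d : ℝ) (u u' v v' : E) : T (a • u + b • u') (c • v + d • v') =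
    (a * c) • T u v + (a * d) • T u v' + (b * c) • T u' v + (b * d) • T u' v' := by
  rw [← sub_eq_zero, ← inner_self_eq_zero (𝕜 := ℝ)]
  simp only [inner_sub_left, inner_sub_right, inner_add_left, inner_add_right,
    real_inner_smul_left, real_inner_smul_right, hT]
  ring

lemma norm_sum {e g : ℕ → E} (he : Orthonormal ℝ e) (hg : Orthonormal ℝ g) (x : ℕ → ℝ)
    (s : Finset ℕ) : ‖∑ i ∈ s, x i • T (e i) (g i)‖ ^ 2 = ∑ i ∈ s, x i ^ 2 := by
  have : Orthonormal ℝ fun i => T (e i) (g i) := by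
    rw [orthonormal_iff_ite] at he hg ⊢
    intro i j
    rw [hT, he, hg]
    split_ifs <;> simp
  rw [← real_inner_self_eq_norm_sq, this.inner_sum]
  simp [sq]

omit hT in
def St (T : E → E → H) (f : H) (σ l : ℝ) : Prop :=
  ∃ (n : ℕ) (x : ℕ → ℝ) (e g : ℕ → E), Orthonormal ℝ e ∧ Orthonormal ℝ g ∧
    f = ∑ i ∈ range n, x i • T (e i) (g i) ∧ (∀ i, 0 ≤ x i ∧ x i ≤ σ) ∧ (∃ i, x i = σ) ∧
    (∀ i, n ≤ i → x i = 0) ∧ n * σ ^ 2 ≤ 5 ∧ l = ∑ i ∈ range n, x i

lemma St.op {f : H} {σ l : ℝ} (h : St T f σ l) {u v : E} (hu : ‖u‖ = 1) (hv : ‖v‖ = 1) :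
    |⟪f, T u v⟫| ≤ σ := by
  obtain ⟨n, x, e, g, he, hg, rfl, hx, -, -, -, -⟩ := h
  have h1 := he.sum_inner_products_le (s := range n) u
  have h2 := hg.sum_inner_products_le (s := range n) v
  have h0 : 0 ≤ σ := (hx 0).1.trans (hx 0).2
  simp only [hu, hv, Real.norm_eq_abs, sq_abs] at h1 h2
  simp only [sum_inner, real_inner_smul_left, hT]
  refine (abs_sum_le_sum_abs _ _).trans ((sum_le_sum (g := fun i =>
    σ / 2 * (⟪e i, u⟫ ^ 2 + ⟪g i, v⟫ ^ 2)) fun i _ => ?_).trans ?_)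
  · rw [abs_mul, abs_of_nonneg (hx i).1, abs_mul, ← sq_abs ⟪e i, u⟫, ← sq_abs ⟪g i, v⟫]
    have := mul_le_mul_of_nonneg_right (hx i).2 (mul_nonneg (abs_nonneg ⟪e i, u⟫)
      (abs_nonneg ⟪g i, v⟫))
    nlinarith [mul_nonneg h0 (sq_nonneg (|⟪e i, u⟫| - |⟪g i, v⟫|))]
  · rw [← mul_sum, sum_add_distrib]
    nlinarith

lemma St.l1 {f : H} {σ l : ℝ} (h : St T f σ l) (hf : ‖f‖ ≤ 1) : σ * l ≤ 3 := by
  obtain ⟨n, x, e, g, he, hg, rfl, hx, -, -, hn, rfl⟩ := h
  have h1 := sq_sum_le_card_mul_sum_sq (s := range n) (f := x)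
  rw [← norm_sum hT he hg, card_range] at h1
  have h2 : ‖∑ i ∈ range n, x i • T (e i) (g i)‖ ^ 2 ≤ 1 := pow_le_one₀ (norm_nonneg _) hf
  refine abs_le_of_sq_le_sq' ?_ (by norm_num) |>.2
  have h3 := mul_le_mul_of_nonneg_left h1 (sq_nonneg σ)
  have h4 := mul_le_mul_of_nonneg_left h2 (mul_nonneg (Nat.cast_nonneg (α := ℝ) n) (sq_nonneg σ))
  nlinarith

lemma St.step {f : H} {σ l a : ℝ} (h : St T f σ l) (hf : ‖f‖ ≤ 1) (ha : 0 ≤ a) (haσ : a ≤ σ) :
    ∃ (u v : E) (σ' l' : ℝ), ‖u‖ = 1 ∧ ‖v‖ = 1 ∧ ⟪f, T u v⟫ = a ∧ σ' ≤ σ ∧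
      l + a / 3 - 2 * a ^ 2 / σ ≤ l' ∧ St T (f - a • T u v) σ' l' := by
  rcases (ha.trans haσ).eq_or_lt with h0 | h0
  · obtain rfl : a = 0 := by linarith
    obtain ⟨_, _, e, _, he, -⟩ := id h
    have := h.op hT (he.1 0) (he.1 0)
    exact ⟨e 0, e 0, σ, l, he.1 0, he.1 0, abs_nonpos_iff.1 (by linarith), le_rfl, by simp,
      by simpa using h⟩
  obtain ⟨n, x, e, g, he, hg, rfl, hx, ⟨i, hi⟩, hn0, hn, rfl⟩ := h
  have hext : ∀ {M : Type} [AddCommMonoid M] (F : ℕ → M) (m : ℕ), n ≤ m →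
      (∀ k, x k = 0 → F k = 0) → ∑ k ∈ range n, F k = ∑ k ∈ range m, F k := fun F m hm hF =>
    sum_subset (range_subset_range.2 hm) fun k _ hk => hF k (hn0 k (by simpa using hk))
  have h1 : ∑ k ∈ range n, x k ^ 2 ≤ 1 := by
    rw [← norm_sum hT he hg]; exact pow_le_one₀ (norm_nonneg _) hf
  have h2 : ∀ m, ∑ k ∈ range m, x k ^ 2 ≤ 1 := fun m => by
    rw [hext (fun k => x k ^ 2) (max n m) (le_max_left _ _) (by simp +contextual)] at h1
    exact (sum_le_sum_of_subset_of_nonneg (range_subset_range.2 (le_max_right _ _))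
      fun _ _ _ => sq_nonneg _).trans h1
  have hin : i < n := not_le.1 fun h => h0.ne' (hi ▸ hn0 i h)
  have hσ : σ ^ 2 ≤ 1 := hi ▸ (single_le_sum (f := fun k => x k ^ 2) (fun _ _ => sq_nonneg _)
    (mem_range.2 hin)).trans h1
  obtain ⟨j, hj1, hj2⟩ : ∃ j : ℕ, j * σ ^ 2 ≤ 4 ∧ x j ≤ σ / 2 := by
    by_contra! hc
    have h3 := card_nsmul_le_sum (range (⌊4 / σ ^ 2⌋₊ + 1)) (fun k => x k ^ 2) ((σ / 2) ^ 2)
      fun k hk => by
        have := (Nat.le_floor_iff (by positivity)).1 (Nat.lt_succ_iff.1 (mem_range.1 hk))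
        have := hc k ((le_div_iff₀ (by positivity)).1 this)
        gcongr
    have h4 := (div_lt_iff₀ (by positivity)).1 (Nat.lt_floor_add_one (4 / σ ^ 2))
    simp only [card_range, nsmul_eq_mul, Nat.cast_add, Nat.cast_one] at h3
    nlinarith [h2 (⌊4 / σ ^ 2⌋₊ + 1)]
  have hij : i ≠ j := by rintro rfl; linarith
  obtain ⟨p, q, c, s, x', y', a1, a2, a3, a4, a5, a6, a7, a8, a9⟩ :=
    alg σ (x j) a h0 (hx j).1 hj2 ha haσ
  set m := max n (j + 1)
  have hi' : i ∈ range m := mem_range.2 (hin.trans_le (le_max_left _ _))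
  have hj' : j ∈ range m := mem_range.2 (Nat.lt_succ_self j |>.trans_le (le_max_right _ _))
  let z : ℕ → ℝ := fun k => if k = i then x' else if k = j then y' else x k
  have hz : ∀ k, 0 ≤ z k ∧ z k ≤ σ := fun k => by
    simp only [z]; split_ifs; exacts [a4, a5, hx k]
  obtain ⟨k, -, hk⟩ := exists_max_image (range m) z ⟨i, hi'⟩
  have hz0 : ∀ k, m ≤ k → z k = 0 := fun k hk => by
    have := mem_range.1 hi'
    have := mem_range.1 hj'
    simp only [z]
    rw [if_neg (by omega), if_neg (by omega), hn0 k ((le_max_left _ _).trans hk)]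
  have hu := rot he hij a1
  have hv := rot hg hij (c := p) (s := -q) (by simpa using a1)
  have he' := orthonormal_iff_ite.1 he
  have hg' := orthonormal_iff_ite.1 hg
  rw [hext (fun i => x i • T (e i) (g i)) m (le_max_left _ _) (by simp +contextual),
    hext x m (le_max_left _ _) (by simp)]
  refine ⟨p • e i + q • e j, p • g i + (-q) • g j, z k, ∑ k ∈ range m, z k, by simpa using hu.1 i,
    by simpa using hv.1 i, ?_, (hz k).2, ?_, m, z, _, _,
    rot he hij (c := c) (s := -s) (by simpa using a2), rot hg hij a2, ?_, fun l => ⟨(hz l).1, ?_⟩,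
    ⟨k, rfl⟩, hz0, ?_, rfl⟩
  · simp only [sum_inner, real_inner_smul_left, hT, inner_add_right, inner_smul_right, he', hg']
    rw [sum_eq_add_of_mem i j hi' hj' hij (by simp +contextual)]
    simp only [hij, hij.symm, if_true, if_false, hi]
    linear_combination a3
  · have : ∑ k ∈ range m, (z k - x k) = (z i - x i) + (z j - x j) :=
      sum_eq_add_of_mem i j hi' hj' hij (by simp +contextual [z])
    simp only [sum_sub_distrib, z, if_true, hij.symm, if_false, hi] at this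
    simp only [z]
    linarith
  · rw [sub_eq_iff_eq_add, ← sub_eq_iff_eq_add', ← sum_sub_distrib,
      sum_eq_add_of_mem i j hi' hj' hij (by simp +contextual [z])]
    simp only [z, if_true, hij.symm, if_false, hi, bil hT]
    match_scalars
    · linear_combination -a7
    · linear_combination -a8
    · linear_combination a8
    · linear_combination -a9
  · by_cases h : l ∈ range m
    · exact hk l h
    · rw [hz0 l (by simpa using h)]; exact (hz k).1
  · have : (m : ℝ) * σ ^ 2 ≤ 5 := by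
      rcases max_choice n (j + 1) with h | h <;> simp only [m, h]
      · exact hn
      · push_cast; linarith
    exact (mul_le_mul_of_nonneg_left (pow_le_pow_left₀ (hz k).1 (hz k).2 2)
      (Nat.cast_nonneg m)).trans this

end Pool.Agent.H26.WGA
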