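import Pool.Agent.H26.WGA1

open Filter Topology Finset
open scoped RealInnerProductSpace

namespace Pool.Agent.H26.WGA

def V (τ : ℕ → ℝ) : Prop := ∃ q : ℕ → ℕ, q 0 = 0 ∧ StrictMono q ∧
  Summable (fun s => (2 : ℝ) ^ (s + 1) / ((q (s + 1) : ℝ) - q s)) ∧
  Summable fun s => ((2 : ℝ) ^ (s + 1))⁻¹ * ∑ k ∈ range (q (s + 1)), τ k ^ 2

lemma V.beta {τ : ℕ → ℝ} (h : V τ) (h0 : ∀ k, 0 ≤ τ k) : ∃ β : ℕ → ℝ, (∀ k, 0 ≤ β k) ∧
    Summable (fun k => β k ^ 2) ∧ ∀ᶠ k in atTop, τ k ≤ 2 * (β k * ∑ j ∈ range k, β j) := by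
  obtain ⟨q, hq0, hq, h1, h2⟩ := h
  have hex : ∀ k, ∃ s, k < q (s + 1) := fun k => ⟨k, (Nat.lt_succ_self k).trans_le hq.le_apply⟩
  have hst : ∀ s, ∀ k ∈ Ico (q s) (q (s + 1)), Nat.find (hex k) = s := fun s k hk =>
    (Nat.find_eq_iff _).2 ⟨(mem_Ico.1 hk).2, fun n hn =>
      not_lt.2 ((hq.monotone hn).trans (mem_Ico.1 hk).1)⟩
  obtain ⟨w, hw0, hw⟩ : ∃ w : ℕ → ℝ, (∀ s, 0 < w s) ∧ ∀ s, w s ^ 2 = 2 ^ (s + 1) :=
    ⟨fun s => √(2 ^ (s + 1)), fun s => by positivity, fun s => Real.sq_sqrt (by positivity)⟩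
  have hd : ∀ s, (0 : ℝ) < q (s + 1) - q s := fun s =>
    sub_pos.2 (Nat.cast_lt.2 (hq (Nat.lt_succ_self s)))
  have hc : ∀ s, ((Ico (q s) (q (s + 1))).card : ℝ) = q (s + 1) - q s := fun s => by
    rw [Nat.card_Ico, Nat.cast_sub (hq.monotone (Nat.le_succ s))]
  let β : ℕ → ℝ := fun k => w (Nat.find (hex k)) / (q (Nat.find (hex k) + 1) - q (Nat.find (hex k)))
    + τ k / w (Nat.find (hex k))
  have hβ : ∀ k, 0 ≤ β k := fun k =>
    add_nonneg (div_nonneg (hw0 _).le (hd _).le) (div_nonneg (h0 k) (hw0 _).le)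
  refine ⟨β, hβ, ?_, ?_⟩
  · have key : ∀ N, ∑ k ∈ range (q N), β k ^ 2 ≤ ∑ s ∈ range N,
        2 * ((2 : ℝ) ^ (s + 1) / ((q (s + 1) : ℝ) - q s) +
          ((2 : ℝ) ^ (s + 1))⁻¹ * ∑ k ∈ range (q (s + 1)), τ k ^ 2) := by
      intro N
      induction N with
      | zero => simp [hq0]
      | succ N ih =>
        rw [sum_range_succ, ← sum_range_add_sum_Ico _ (hq.monotone (Nat.le_succ N))]
        refine add_le_add ih ((sum_le_sum (g := fun k => 2 * (2 ^ (N + 1) /
          (q (N + 1) - q N : ℝ) ^ 2 + ((2 : ℝ) ^ (N + 1))⁻¹ * τ k ^ 2)) fun k hk => ?_).trans ?_)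
        · simp only [β, hst N k hk]
          rw [← hw, ← div_pow, ← div_eq_inv_mul, ← div_pow]
          nlinarith [sq_nonneg (w N / (q (N + 1) - q N : ℝ) - τ k / w N)]
        · rw [← mul_sum, sum_add_distrib, sum_const, nsmul_eq_mul, hc, ← mul_sum]
          have := hd N
          gcongr
          · exact le_of_eq (by field_simp)
          · exact fun k hk => mem_range.2 (mem_Ico.1 hk).2
    exact summable_of_sum_range_le (fun _ => sq_nonneg _) fun n =>
      (sum_le_sum_of_subset_of_nonneg (range_subset_range.2 (hq.le_apply (x := n)))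
        fun _ _ _ => sq_nonneg _).trans ((key n).trans (((h1.add h2).mul_left 2).sum_le_tsum _
          fun s _ => by have := hd s; positivity))
  · filter_upwards [eventually_ge_atTop (q 1)] with k hk
    obtain ⟨s, hs⟩ : ∃ s, Nat.find (hex k) = s + 1 :=
      Nat.exists_eq_succ_of_ne_zero fun h => by
        have := Nat.find_spec (hex k)
        rw [h, zero_add] at this
        omega
    have h3 : q (s + 1) ≤ k := not_lt.1 (Nat.find_min (hex k) (m := s) (by omega))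
    have h4 : w s ≤ ∑ j ∈ range k, β j := by
      refine le_trans ?_ (sum_le_sum_of_subset_of_nonneg (s := Ico (q s) (q (s + 1)))
        (fun j hj => mem_range.2 ((mem_Ico.1 hj).2.trans_le h3)) fun j _ _ => hβ j)
      refine le_trans ?_ (card_nsmul_le_sum _ _ (w s / (q (s + 1) - q s)) fun j hj => ?_)
      · rw [nsmul_eq_mul, hc, mul_div_cancel₀ _ (hd s).ne']
      · simp only [β, hst s j hj]
        exact le_add_of_nonneg_right (div_nonneg (h0 j) (hw0 _).le)
    have h5 : τ k / w (s + 1) ≤ β k := by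
      simp only [β, hs]
      exact le_add_of_nonneg_left (div_nonneg (hw0 _).le (hd _).le)
    have h6 : w (s + 1) ≤ 2 * w s := abs_le_of_sq_le_sq' (by
      rw [mul_pow, hw, hw, pow_succ 2 (s + 1)]; nlinarith [hw s, sq_nonneg (w s)])
      (by linarith [hw0 s]) |>.2
    rw [div_le_iff₀ (hw0 _)] at h5
    nlinarith [mul_le_mul_of_nonneg_left h4 (hβ k), mul_le_mul_of_nonneg_left h6 (hβ k)]

lemma V.of_beta {τ a : ℕ → ℝ} (h0 : ∀ k, 0 ≤ τ k ∧ τ k ≤ 1) (ha : ∀ k, 0 ≤ a k)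
    (hs : Summable fun k => a k ^ 2) {ε : ℝ} (hε : 0 < ε)
    (h : ∀ᶠ k in atTop, ε * τ k ≤ a k * (1 + ∑ j ∈ range (k + 1), a j)) : V τ := by
  obtain ⟨b, hb0, hb, hb1, hb2, hb3⟩ : ∃ b : ℕ → ℝ, (∀ k, 0 ≤ b k) ∧ Summable (fun k => b k ^ 2) ∧
      1 ≤ b 0 ∧ Tendsto (fun n => ∑ j ∈ range n, b j) atTop atTop ∧
      ∀ᶠ k in atTop, ε * τ k ≤ b k * ∑ j ∈ range (k + 1), b j := by
    refine ⟨fun k => a k + 1 / (k + 1), fun k => by have := ha k; positivity, ?_, by simp [ha],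
      tendsto_atTop_mono (fun n => sum_le_sum fun k _ => le_add_of_nonneg_left (ha k))
        Real.tendsto_sum_range_one_div_nat_succ_atTop, h.mono fun k hk => hk.trans ?_⟩
    · have := (summable_nat_add_iff 1).2 (Real.summable_one_div_nat_pow.2 one_lt_two)
      refine .of_nonneg_of_le (fun _ => sq_nonneg _) (fun k => ?_) ((hs.add this).mul_left 2)
      push_cast
      rw [← one_div_pow]
      nlinarith [sq_nonneg (a k - 1 / (k + 1))]
    · have h1 := single_le_sum (f := fun j : ℕ => (1 : ℝ) / (j + 1)) (s := range (k + 1))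
        (fun _ _ => by positivity) (mem_range.2 k.succ_pos)
      have := sum_nonneg (s := range (k + 1)) fun j _ => ha j
      rw [sum_add_distrib]
      refine mul_le_mul (le_add_of_nonneg_right (by positivity)) ?_ (by positivity)
        (by have := ha k; positivity)
      simp only [Nat.cast_zero, zero_add, div_one] at h1
      linarith
  set B := fun n => ∑ j ∈ range n, b j with hB
  have hB0 : ∀ n, 0 ≤ B n := fun n => sum_nonneg fun j _ => hb0 j
  have hex : ∀ s : ℕ, ∃ k, 2 ^ s ≤ B (k + 1) ^ 2 := fun s =>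
    ((tendsto_add_atTop_iff_nat 1).2 ((tendsto_pow_atTop two_ne_zero).comp hb2)
      |>.eventually_ge_atTop _).exists
  let c := fun s => Nat.find (hex s)
  have c0 : c 0 = 0 := (Nat.find_eq_zero _).2 (by simpa [B] using hb1.trans (le_abs_self _))
  have c1 : ∀ s k, k < c s → B (k + 1) ^ 2 ≤ 2 ^ s := fun s k hk =>
    (not_le.1 (Nat.find_min (hex s) hk)).le
  have c2 : ∀ s, c s ≤ c (s + 1) := fun s => Nat.find_min' _ (le_trans
    (pow_le_pow_right₀ one_le_two (Nat.le_succ s)) (Nat.find_spec (hex (s + 1))))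
  set G := fun n => ∑ j ∈ range n, b j ^ 2 with hG
  have G1 : ∀ n, G n ≤ ∑' j, b j ^ 2 := fun n => hb.sum_le_tsum _ fun _ _ => sq_nonneg _
  have G2 : Monotone G := fun m n h =>
    sum_le_sum_of_subset_of_nonneg (range_subset_range.2 h) fun _ _ _ => sq_nonneg _
  have c3 : ∀ s, 2 ^ s ≤ 7 * ((c (s + 1) + 1 - c s) * (G (c (s + 1) + 1) - G (c s))) := by
    intro s
    have h1 := sq_sum_le_card_mul_sum_sq (s := Ico (c s) (c (s + 1) + 1)) (f := b)
    have h2 : c s ≤ c (s + 1) + 1 := (c2 s).trans (Nat.le_succ _)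
    rw [Nat.card_Ico, Nat.cast_sub h2, sum_Ico_eq_sub _ h2, sum_Ico_eq_sub _ h2] at h1
    have h3 : 2 ^ (s + 1) ≤ B (c (s + 1) + 1) ^ 2 := Nat.find_spec (hex (s + 1))
    have h4 : B (c s) ^ 2 ≤ 2 ^ s := by
      rcases (c s).eq_zero_or_eq_succ_pred with h | h
      · simp [h, B]
      · rw [h]; exact c1 s _ (by omega)
    have h5 : 7 / 5 * B (c s) ≤ B (c (s + 1) + 1) := abs_le_of_sq_le_sq' (by
      rw [pow_succ 2] at h3; nlinarith [sq_nonneg (B (c s))]) (hB0 _) |>.2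
    have h6 : (2 / 7 * B (c (s + 1) + 1)) ^ 2 ≤ (B (c (s + 1) + 1) - B (c s)) ^ 2 :=
      pow_le_pow_left₀ (by have := hB0 (c (s + 1) + 1); positivity) (by linarith) 2
    push_cast at h1
    rw [pow_succ 2] at h3
    have : (0 : ℝ) < 2 ^ s := by positivity
    simp only [B, G] at *
    nlinarith
  refine ⟨fun s => c s + s, by simp [c0], strictMono_nat_of_lt_succ fun s => by
    have := c2 s; omega, ?_, ?_⟩
  · have hu : Summable fun s => G (c (s + 1)) - G (c s) :=
      summable_of_sum_range_le (c := ∑' j, b j ^ 2) (fun s => sub_nonneg.2 (G2 (c2 s))) fun n => by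
        rw [sum_range_sub (fun s => G (c s)), c0]
        simpa [G] using G1 (c n)
    refine .of_norm_bounded_eventually_nat ((hu.add ((summable_nat_add_iff 1).2 hu)).mul_left 14) ?_
    filter_upwards [((tendsto_add_atTop_iff_nat 1).2 (tendsto_pow_atTop_atTop_of_one_lt
      (one_lt_two (α := ℝ)))).eventually_gt_atTop (7 * ∑' j, b j ^ 2)] with s hs
    have h1 : c (s + 1) + 1 ≤ c (s + 1 + 1) := lt_of_le_of_ne (c2 _) fun h => by
      have := c3 (s + 1)
      rw [← h] at this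
      have h2 : 0 ≤ G (c (s + 1)) := sum_nonneg fun _ _ => sq_nonneg _
      linarith [G1 (c (s + 1) + 1)]
    have h2 : (0 : ℝ) < c (s + 1) + 1 - c s := by
      have : (c s : ℝ) ≤ c (s + 1) := Nat.cast_le.2 (c2 s)
      linarith
    have e : ((c (s + 1) + (s + 1) : ℕ) : ℝ) - ((c s + s : ℕ) : ℝ) = c (s + 1) + 1 - c s := by
      push_cast; ring
    rw [e, Real.norm_of_nonneg (by positivity), div_le_iff₀ h2, pow_succ]
    nlinarith [c3 s, mul_le_mul_of_nonneg_left (G2 h1) h2.le]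
  · obtain ⟨k₀, hk₀⟩ := eventually_atTop.1 hb3
    set W := fun n => ∑ k ∈ range n, (b k * B (k + 1)) ^ 2 with hW
    have W0 : ∀ n, 0 ≤ W n := fun n => sum_nonneg fun _ _ => sq_nonneg _
    have key : ∀ N, ∑ s ∈ range N, ((2 : ℝ) ^ s)⁻¹ * W (c s) + 2 * ((2 : ℝ) ^ N)⁻¹ * W (c N) ≤
        2 * G (c N) := by
      intro N
      induction N with
      | zero => simp [c0, W, G]
      | succ N ih =>
        have h1 : W (c (N + 1)) - W (c N) ≤ 2 ^ (N + 1) * (G (c (N + 1)) - G (c N)) := by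
          simp only [W, G]
          rw [← sum_Ico_eq_sub _ (c2 N), ← sum_Ico_eq_sub _ (c2 N), mul_sum]
          refine sum_le_sum fun k hk => ?_
          rw [mul_pow, mul_comm]
          exact mul_le_mul_of_nonneg_right (c1 _ k (mem_Ico.1 hk).2) (sq_nonneg _)
        have h2 := mul_le_mul_of_nonneg_left h1 (show 0 ≤ ((2 : ℝ) ^ N)⁻¹ by positivity)
        have e1 : ((2 : ℝ) ^ N)⁻¹ * (2 ^ (N + 1) * (G (c (N + 1)) - G (c N))) =
            2 * (G (c (N + 1)) - G (c N)) := by field_simp; ring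
        have e2 : 2 * ((2 : ℝ) ^ (N + 1))⁻¹ = ((2 : ℝ) ^ N)⁻¹ := by field_simp; ring
        rw [sum_range_succ, e2]
        linarith
    have h1 : Summable fun s => ((2 : ℝ) ^ s)⁻¹ * W (c s) :=
      summable_of_sum_range_le (c := 2 * ∑' j, b j ^ 2) (fun s => by have := W0 (c s); positivity)
        fun n => by
          have : 0 ≤ 2 * ((2 : ℝ) ^ n)⁻¹ * W (c n) := by have := W0 (c n); positivity
          linarith [key n, G1 (c n)]
    have h2 : Summable fun s : ℕ => (s : ℝ) ^ 1 * (2⁻¹ : ℝ) ^ s :=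
      summable_pow_mul_geometric_of_norm_lt_one 1 (by norm_num)
    have h3 : Summable fun s : ℕ => (2⁻¹ : ℝ) ^ s :=
      summable_geometric_of_lt_one (by norm_num) (by norm_num)
    refine (summable_nat_add_iff (f := fun s => ((2 : ℝ) ^ s)⁻¹ * ∑ k ∈ range (c s + s), τ k ^ 2)
      1).2 (.of_nonneg_of_le (fun s => by positivity) (fun s => ?_)
      (((h1.mul_left (ε ^ 2)⁻¹).add h2).add (h3.mul_left (k₀ : ℝ))))
    have h4 : ∀ k, τ k ^ 2 ≤ 1 := fun k => pow_le_one₀ (h0 k).1 (h0 k).2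
    have h5 : ∑ k ∈ range (c s), τ k ^ 2 ≤ (ε ^ 2)⁻¹ * W (c s) + k₀ := by
      refine (sum_le_sum (g := fun k => (ε ^ 2)⁻¹ * (b k * B (k + 1)) ^ 2 +
        if k ∈ range k₀ then 1 else 0) fun k _ => ?_).trans ?_
      · split_ifs with hk
        · exact (h4 k).trans (le_add_of_nonneg_left (by positivity))
        · rw [add_zero, ← div_eq_inv_mul, ← div_pow]
          exact pow_le_pow_left₀ (h0 k).1 ((le_div_iff₀' hε).2 (hk₀ k (by simpa using hk))) 2
      · rw [sum_add_distrib, ← mul_sum, sum_ite_mem, sum_const, nsmul_eq_mul, mul_one]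
        gcongr
        exact (card_le_card inter_subset_right).trans_eq (card_range _)
    have h6 := sum_le_card_nsmul (range s) (fun k => τ (c s + k) ^ 2) 1 fun k _ => h4 _
    rw [card_range, nsmul_eq_mul, mul_one] at h6
    rw [sum_range_add, inv_pow]
    nlinarith [mul_le_mul_of_nonneg_left (add_le_add h5 h6) (show 0 ≤ ((2 : ℝ) ^ s)⁻¹ by positivity)]

end Pool.Agent.H26.WGA
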