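import Pool.Agent.H26.WGA2

open Filter Topology Finset MeasureTheory
open scoped RealInnerProductSpace

namespace Pool.Agent.H26.WGA

variable {E H : Type} [NormedAddCommGroup E] [InnerProductSpace ℝ E] [NormedAddCommGroup H]
  [InnerProductSpace ℝ H]

def Conv (D : Set H) (τ : ℕ → ℝ) : Prop := ∀ f φ : ℕ → H, (∀ m, φ m ∈ D ∧
  τ m * sSup ((fun g => |⟪f m, g⟫|) '' D) ≤ |⟪f m, φ m⟫| ∧ f (m + 1) = f m - ⟪f m, φ m⟫ • φ m) →
  Tendsto f atTop (𝓝 0)

lemma nsq (f φ : H) (h : ‖φ‖ = 1) : ‖f - ⟪f, φ⟫ • φ‖ ^ 2 = ‖f‖ ^ 2 - ⟪f, φ⟫ ^ 2 := by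
  rw [norm_sub_sq_real, inner_smul_right, norm_smul, h, mul_one, Real.norm_eq_abs, sq_abs]
  ring

theorem conv [CompleteSpace H] {D : Set H} (hD : ∀ g ∈ D, ‖g‖ = 1)
    (hd : ∀ f : H, (∀ g ∈ D, ⟪f, g⟫ = 0) → f = 0) {τ : ℕ → ℝ} (h0 : ∀ k, 0 ≤ τ k ∧ τ k ≤ 1)
    (hV : ¬ V τ) : Conv D τ := by
  intro f φ h
  have h1 : ∀ m, ‖f (m + 1)‖ ^ 2 = ‖f m‖ ^ 2 - |⟪f m, φ m⟫| ^ 2 := fun m => by
    rw [(h m).2.2, nsq _ _ (hD _ (h m).1), sq_abs]
  have h2 : Summable fun m => |⟪f m, φ m⟫| ^ 2 :=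
    summable_of_sum_range_le (c := ‖f 0‖ ^ 2) (fun _ => sq_nonneg _) fun n => by
      have := sum_range_sub' (fun m => ‖f m‖ ^ 2) n
      simp only [h1, sub_sub_cancel] at this
      linarith [sq_nonneg ‖f n‖]
  have h3 : ∀ ε > 0, ∃ᶠ k in atTop, ∀ g ∈ D,
      |⟪f k, g⟫| * (1 + ∑ j ∈ range (k + 1), |⟪f j, φ j⟫|) ≤ ε := fun ε hε => by
    refine (not_eventually.1 fun hh =>
      hV (V.of_beta h0 (fun k => abs_nonneg ⟪f k, φ k⟫) h2 hε hh)).mono fun k hk g hg => ?_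
    have a1 : |⟪f k, g⟫| ≤ sSup ((fun g => |⟪f k, g⟫|) '' D) := le_csSup ⟨‖f k‖, by
      rintro _ ⟨g, hg, rfl⟩
      simpa [hD g hg] using abs_real_inner_le_norm (f k) g⟩ ⟨g, hg, rfl⟩
    have a2 : 0 ≤ 1 + ∑ j ∈ range (k + 1), |⟪f j, φ j⟫| := by positivity
    have a3 := mul_le_mul_of_nonneg_right
      ((mul_le_mul_of_nonneg_left a1 (h0 k).1).trans (h k).2.1) a2
    have a4 : 0 < τ k := (mul_pos_iff_of_pos_left hε).1 ((mul_nonneg (abs_nonneg _) a2).trans_lt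
      (not_le.1 hk))
    exact le_of_mul_le_mul_left (by linarith [not_le.1 hk]) a4
  have h4 : Antitone fun m => ‖f m‖ ^ 2 := antitone_nat_of_succ_le fun m => by
    rw [h1]; exact sub_le_self _ (sq_nonneg _)
  have hb : BddBelow (Set.range fun m => ‖f m‖ ^ 2) := ⟨0, by rintro _ ⟨m, rfl⟩; positivity⟩
  have h5 : ∀ n k, n ≤ k → f n - f k = ∑ j ∈ Ico n k, ⟪f j, φ j⟫ • φ j := fun n k hk => by
    induction k, hk using Nat.le_induction with
    | base => simp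
    | succ k hk ih => rw [sum_Ico_succ_top hk, ← ih, (h k).2.2]; abel
  obtain ⟨x, hx⟩ : ∃ x, Tendsto f atTop (𝓝 x) := by
    refine cauchySeq_tendsto_of_complete (Metric.cauchySeq_iff'.2 fun ε hε => ?_)
    obtain ⟨N, hN⟩ := eventually_atTop.1 ((tendsto_atTop_ciInf h4 hb).eventually
      (gt_mem_nhds (lt_add_of_pos_right _ (show 0 < ε ^ 2 / 16 by positivity))))
    refine ⟨N, fun n hn => ?_⟩
    obtain ⟨k, hk, hk'⟩ := frequently_atTop.1 (h3 (ε ^ 2 / 16) (by positivity)) n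
    have key : ∀ m, N ≤ m → m ≤ k → ‖f m - f k‖ < ε / 2 := fun m hm hm' => by
      have a1 : |⟪f k, f m - f k⟫| ≤ ε ^ 2 / 16 := by
        rw [h5 m k hm', inner_sum]
        obtain ⟨i, -, hi⟩ := exists_max_image (range (k + 1)) (fun j => |⟪f k, φ j⟫|) ⟨0, by simp⟩
        refine (abs_sum_le_sum_abs _ _).trans (le_trans ?_ (hk' _ (h i).1))
        have hs : Ico m k ⊆ range (k + 1) := fun j hj => mem_range.2 (by
          have := mem_Ico.1 hj; omega)
        rw [mul_add, mul_sum]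
        refine le_add_of_nonneg_of_le (by positivity) ((sum_le_sum fun j hj => ?_).trans
          (sum_le_sum_of_subset_of_nonneg hs fun _ _ _ => by positivity))
        rw [inner_smul_right, abs_mul, mul_comm]
        exact mul_le_mul_of_nonneg_right (hi j (hs hj)) (abs_nonneg _)
      have a2 := norm_add_sq_real (f k) (f m - f k)
      rw [add_sub_cancel] at a2
      refine lt_of_pow_lt_pow_left₀ 2 (by positivity) ?_
      nlinarith [hN m hm, ciInf_le hb k, (abs_le.1 a1).1, sq_pos_of_pos hε]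
    rw [dist_eq_norm]
    linarith [norm_sub_le_norm_sub_add_norm_sub (f n) (f k) (f N), key n hn hk,
      key N le_rfl (hn.trans hk), norm_sub_rev (f k) (f N)]
  rwa [hd x fun g hg => abs_nonpos_iff.1 (le_of_forall_pos_le_add fun ε hε => ?_)] at hx
  refine isClosed_Iic.mem_of_frequently_of_tendsto ((h3 ε hε).mono fun k hk => ?_)
    (hx.inner (𝕜 := ℝ) tendsto_const_nhds).abs
  rw [zero_add]
  exact (le_mul_of_one_le_right (abs_nonneg _) (le_add_of_nonneg_right (by positivity))).trans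
    (hk g hg)

theorem not_conv {T : E → E → H} (hT : ∀ u v u' v', ⟪T u v, T u' v'⟫ = ⟪u, u'⟫ * ⟪v, v'⟫)
    {e : ℕ → E} (he : Orthonormal ℝ e) {τ : ℕ → ℝ} (h0 : ∀ k, 0 ≤ τ k ∧ τ k ≤ 1) (hV : V τ) :
    ¬ Conv {g | ∃ u v, ‖u‖ = 1 ∧ ‖v‖ = 1 ∧ g = T u v} τ := by
  intro hc
  obtain ⟨β, hβ0, hβ, hτ⟩ := hV.beta fun k => (h0 k).1
  have hTn : ∀ u v, ‖u‖ = 1 → ‖v‖ = 1 → ‖T u v‖ = 1 := fun u v hu hv => by
    have := hT u v u v
    simp only [real_inner_self_eq_norm_sq, hu, hv] at this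
    nlinarith [norm_nonneg (T u v)]
  set K := 15 + ∑' k, β k ^ 2
  have hK : 0 ≤ ∑' k, β k ^ 2 := tsum_nonneg fun _ => sq_nonneg _
  obtain ⟨k₀, hk₀⟩ := ((eventually_forall_ge_atTop.2 hτ).and (((tendsto_sum_nat_add
    fun k => β k ^ 2).const_mul ((2 * K + 1) ^ 2)).eventually
    (gt_mem_nhds (show _ < (1 / 4 : ℝ) by simp)))).exists
  have step : ∀ (k : ℕ) (s : {s : H × ℝ × ℝ // St T s.1 s.2.1 s.2.2 ∧ ‖s.1‖ ≤ 1}),
      ∃ (s' : {s : H × ℝ × ℝ // St T s.1 s.2.1 s.2.2 ∧ ‖s.1‖ ≤ 1}) (u v : E), ‖u‖ = 1 ∧ ‖v‖ = 1 ∧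
      ⟪s.1.1, T u v⟫ = max (τ k * s.1.2.1) (min (β k) s.1.2.1) ∧ 0 ≤ s.1.2.1 ∧ s'.1.2.1 ≤ s.1.2.1 ∧
      s.1.2.2 + ⟪s.1.1, T u v⟫ / 3 - 2 * ⟪s.1.1, T u v⟫ ^ 2 / s.1.2.1 ≤ s'.1.2.2 ∧
      s'.1.1 = s.1.1 - ⟪s.1.1, T u v⟫ • T u v := by
    rintro k ⟨⟨f, σ, l⟩, h1, h2⟩
    have hσ : 0 ≤ σ := (abs_nonneg _).trans (h1.op hT (he.1 0) (he.1 0))
    obtain ⟨u, v, σ', l', a1, a2, a3, a4, a5, a6⟩ := h1.step hT h2
      (a := max (τ k * σ) (min (β k) σ)) (le_max_of_le_right (le_min (hβ0 k) hσ))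
      (max_le (mul_le_of_le_one_left hσ (h0 k).2) (min_le_right _ _))
    rw [← a3] at a5 a6
    refine ⟨⟨(_, σ', l'), a6, abs_le_of_sq_le_sq' ?_ zero_le_one |>.2⟩, u, v, a1, a2, a3, hσ, a4,
      a5, rfl⟩
    rw [nsq _ _ (hTn u v a1 a2)]
    nlinarith [sq_nonneg ⟪f, T u v⟫, norm_nonneg f]
  choose F u v hu hv ha hσ0 hσ hl hf using step
  let x : ℕ → ℝ := fun i => if i < (k₀ + 2) ^ 2 then 1 / (k₀ + 2) else 0
  have hx : ‖∑ i ∈ range ((k₀ + 2) ^ 2), x i • T (e i) (e i)‖ ^ 2 = 1 := by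
    rw [norm_sum hT he he, sum_congr rfl (g := fun _ => (1 / (k₀ + 2) : ℝ) ^ 2)
      (by simp +contextual [x])]
    simp
    field_simp
  let s : ℕ → {s : H × ℝ × ℝ // St T s.1 s.2.1 s.2.2 ∧ ‖s.1‖ ≤ 1} := fun k => Nat.rec
    ⟨(∑ i ∈ range ((k₀ + 2) ^ 2), x i • T (e i) (e i), 1 / (k₀ + 2), ∑ i ∈ range ((k₀ + 2) ^ 2), x i),
      ⟨(k₀ + 2) ^ 2, x, e, e, he, he, rfl, fun i => by
      simp only [x]; split_ifs <;> constructor <;> first | positivity | rfl, ⟨0, by simp [x]⟩,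
      fun i hi => if_neg hi.not_gt, by push_cast; field_simp; norm_num, rfl⟩,
      (pow_le_one_iff_of_nonneg (norm_nonneg _) two_ne_zero).1 hx.le⟩ F k
  have hs : ∀ k, s (k + 1) = F k (s k) := fun k => rfl
  let f := fun k => (s k).1.1
  let σ := fun k => (s k).1.2.1
  let l := fun k => (s k).1.2.2
  let a := fun k => ⟪f k, T (u k (s k)) (v k (s k))⟫
  have b1 : ∀ k, a k = max (τ k * σ k) (min (β k) (σ k)) := fun k => ha k (s k)
  have b2 : Antitone σ := antitone_nat_of_succ_le fun k => hσ k (s k)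
  have b3 : ∀ k, l k + a k / 3 - 2 * a k ^ 2 / σ k ≤ l (k + 1) := fun k => hl k (s k)
  have b4 : ∀ k, f (k + 1) = f k - a k • T (u k (s k)) (v k (s k)) := fun k => hf k (s k)
  have b5 : ∀ k, 0 ≤ σ k := fun k => hσ0 k (s k)
  have b6 : ∀ k, ∑ j ∈ range k, a j ^ 2 = 1 - ‖f k‖ ^ 2 := fun k => by
    have h : ‖f 0‖ ^ 2 = 1 := hx
    rw [← h, ← sum_range_sub' (fun j => ‖f j‖ ^ 2) k]
    exact sum_congr rfl fun j _ => by rw [b4, nsq _ _ (hTn _ _ (hu _ _) (hv _ _))]; ring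
  have b7 : ∀ k, 0 ≤ a k ∧ a k ≤ σ k := fun k => b1 k ▸ ⟨le_max_of_le_right (le_min (hβ0 k) (b5 k)),
    max_le (mul_le_of_le_one_left (b5 k) (h0 k).2) (min_le_right _ _)⟩
  have b8 : ∀ k, σ k * ∑ j ∈ range k, β j ≤ K := fun k => by
    have c1 : ∀ j ∈ range k, σ k * β j ≤ 3 * σ k * (l (j + 1) - l j) + 6 * a j ^ 2 + β j ^ 2 := by
      intro j hj
      have d1 : σ k ≤ σ j := b2 (mem_range.1 hj).le
      have d2 : σ k * (2 * a j ^ 2 / σ j) ≤ 2 * a j ^ 2 := by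
        rw [← mul_div_assoc]
        exact div_le_of_le_mul₀ (b5 j) (by positivity) (by nlinarith [sq_nonneg (a j)])
      have d3 : σ k * β j ≤ σ k * a j + β j ^ 2 := by
        have : min (β j) (σ j) ≤ a j := b1 j ▸ le_max_right _ _
        rcases min_le_iff.1 (le_refl (min (β j) (σ j))) with h | h
        · nlinarith [mul_le_mul_of_nonneg_left (h.trans this) (b5 k), sq_nonneg (β j)]
        · nlinarith [mul_le_mul_of_nonneg_left (h.trans this) (b5 k), hβ0 j, b5 k,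
            sq_nonneg (β j - σ k), mul_le_mul_of_nonneg_left d1 (b5 k)]
      nlinarith [mul_le_mul_of_nonneg_left (b3 j) (b5 k)]
    have c2 := sum_le_sum c1
    rw [sum_add_distrib, sum_add_distrib, ← mul_sum, ← mul_sum, ← mul_sum, sum_range_sub, b6] at c2
    have c3 : σ k * l k ≤ 3 := (s k).2.1.l1 hT (s k).2.2
    have c4 : 0 ≤ l 0 := sum_nonneg (s := range ((k₀ + 2) ^ 2)) (f := x) fun i _ => by
      simp only [x]; split_ifs <;> positivity
    have c5 := hβ.sum_le_tsum (range k) fun _ _ => sq_nonneg _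
    nlinarith [mul_nonneg (b5 k) c4, sq_nonneg ‖f k‖]
  have b9 : ∀ n, 1 / 2 ≤ ‖f (k₀ + n)‖ ^ 2 := fun n => by
    have c1 := sum_le_card_nsmul (range k₀) (fun j => a j ^ 2) ((1 / (k₀ + 2)) ^ 2) fun j _ =>
      pow_le_pow_left₀ (b7 j).1 ((b7 j).2.trans (b2 j.zero_le)) 2
    have c2 : ∑ j ∈ range n, a (k₀ + j) ^ 2 ≤ (2 * K + 1) ^ 2 * ∑' j, β (j + k₀) ^ 2 := by
      refine le_trans ?_ (mul_le_mul_of_nonneg_left ((((summable_nat_add_iff k₀).2 hβ).sum_le_tsum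
        (range n) fun _ _ => sq_nonneg _)) (sq_nonneg _))
      rw [mul_sum]
      refine sum_le_sum fun j _ => ?_
      rw [← mul_pow, add_comm j]
      refine pow_le_pow_left₀ (b7 _).1 (b1 _ ▸ max_le ?_ ((min_le_left _ _).trans ?_)) 2
      · nlinarith [mul_le_mul_of_nonneg_right (hk₀.1 (k₀ + j) (by omega)) (b5 (k₀ + j)),
          mul_le_mul_of_nonneg_left (b8 (k₀ + j)) (hβ0 (k₀ + j)), hβ0 (k₀ + j)]
      · exact le_mul_of_one_le_left (hβ0 _) (by linarith)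
    have c3 := b6 (k₀ + n)
    have c4 : (k₀ : ℝ) * (1 / (k₀ + 2)) ^ 2 ≤ 1 / 4 := by
      rw [div_pow, one_pow, mul_one_div, div_le_iff₀ (by positivity)]
      nlinarith [sq_nonneg (k₀ : ℝ)]
    rw [card_range, nsmul_eq_mul] at c1
    rw [sum_range_add] at c3
    linarith [hk₀.2]
  have := hc f (fun k => T (u k (s k)) (v k (s k))) fun m => ⟨⟨_, _, hu _ _, hv _ _, rfl⟩, ?_, b4 m⟩
  · have h := ge_of_tendsto' ((tendsto_add_atTop_iff_nat k₀).2 (this.norm.pow 2))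
      fun n => add_comm n k₀ ▸ b9 n
    norm_num at h
  · refine le_trans (mul_le_mul_of_nonneg_left (Real.sSup_le ?_ (b5 m)) (h0 m).1)
      (le_trans (b1 m ▸ le_max_left _ _) (le_abs_self (a m)))
    rintro _ ⟨_, ⟨u, v, hu, hv, rfl⟩, rfl⟩
    exact (s m).2.1.op hT hu hv

lemma memLp_mul (u v : Lp ℝ 2 (volume : Measure unitInterval)) :
    MemLp (fun p : unitInterval × unitInterval => u p.1 * v p.2) 2 volume := by
  have h := (Lp.aestronglyMeasurable u).comp_fst.mul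
    ((Lp.aestronglyMeasurable v).comp_snd (μ := (volume : Measure unitInterval)))
  refine (memLp_two_iff_integrable_sq h).2 ?_
  simpa only [Pi.mul_apply, mul_pow] using (Lp.memLp u).integrable_sq.mul_prod (Lp.memLp v).integrable_sq

noncomputable def tens (u v : Lp ℝ 2 (volume : Measure unitInterval)) : Lp ℝ 2 (volume : Measure (unitInterval × unitInterval)) :=
  (memLp_mul u v).toLp _

lemma tens_ae (u v : Lp ℝ 2 (volume : Measure unitInterval)) :
    tens u v =ᵐ[volume] fun p : unitInterval × unitInterval => u p.1 * v p.2 := (memLp_mul u v).coeFn_toLp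

lemma tens_inner (u v u' v' : Lp ℝ 2 (volume : Measure unitInterval)) :
    ⟪tens u v, tens u' v'⟫ = ⟪u, u'⟫ * ⟪v, v'⟫ := by
  simp only [L2.inner_def]
  rw [← integral_prod_mul]
  refine integral_congr_ae ?_
  filter_upwards [tens_ae u v, tens_ae u' v'] with p h1 h2
  simp only [h1, h2, RCLike.inner_apply, conj_trivial]
  ring

lemma tens_dense (f : Lp ℝ 2 (volume : Measure (unitInterval × unitInterval)))
    (h : ∀ u v, ‖u‖ = 1 → ‖v‖ = 1 → ⟪f, tens u v⟫ = 0) : f = 0 := by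
  have h1 : ∀ u v, ⟪f, tens u v⟫ = 0 := fun u v => by
    have := bil tens_inner ‖u‖ 0 ‖v‖ 0 (‖u‖⁻¹ • u) 0 (‖v‖⁻¹ • v) 0
    rcases eq_or_ne u 0 with rfl | hu
    · rw [inner_self_eq_zero.1 (by simpa using tens_inner 0 v 0 v : ⟪tens 0 v, tens 0 v⟫ = 0),
        inner_zero_right]
    rcases eq_or_ne v 0 with rfl | hv
    · rw [inner_self_eq_zero.1 (by simpa using tens_inner u 0 u 0 : ⟪tens u 0, tens u 0⟫ = 0),
        inner_zero_right]
    simp only [zero_smul, add_zero, smul_inv_smul₀ (norm_ne_zero_iff.2 hu), mul_zero, zero_mul,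
      smul_inv_smul₀ (norm_ne_zero_iff.2 hv)] at this
    rw [this, inner_smul_right, h (‖u‖⁻¹ • u) (‖v‖⁻¹ • v) (norm_smul_inv_norm (𝕜 := ℝ) hu)
      (norm_smul_inv_norm (𝕜 := ℝ) hv), mul_zero]
  have hi : Integrable f volume := (Lp.memLp f).integrable one_le_two
  have h2 : ∀ s t : Set unitInterval, MeasurableSet s → MeasurableSet t → ∫ p in s ×ˢ t, f p = 0 := by
    intro s t hs ht
    rw [← h1 (indicatorConstLp 2 hs (measure_ne_top _ _) 1)
      (indicatorConstLp 2 ht (measure_ne_top _ _) 1), L2.inner_def, ← integral_indicator (hs.prod ht)]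
    refine integral_congr_ae ?_
    filter_upwards [tens_ae (indicatorConstLp 2 hs (measure_ne_top _ _) 1)
      (indicatorConstLp 2 ht (measure_ne_top _ _) 1),
      Measure.quasiMeasurePreserving_fst.ae (indicatorConstLp_coeFn (p := 2) (hs := hs)
        (hμs := measure_ne_top volume _) (c := (1 : ℝ))),
      Measure.quasiMeasurePreserving_snd.ae (indicatorConstLp_coeFn (p := 2) (hs := ht)
        (hμs := measure_ne_top volume _) (c := (1 : ℝ)))] with p a1 a2 a3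
    rw [a1, a2, a3]
    by_cases b1 : p.1 ∈ s <;> by_cases b2 : p.2 ∈ t <;> simp [b1, b2]
  have h3 : ∀ s, MeasurableSet s → ∫ p in s, f p = 0 := by
    refine MeasurableSpace.induction_on_inter generateFrom_prod.symm isPiSystem_prod (by simp)
      ?_ (fun t ht h => ?_) fun g hg hm h => ?_
    · rintro _ ⟨s, hs, t, ht, rfl⟩
      exact h2 s t hs ht
    · have := h2 _ _ .univ .univ
      rw [Set.univ_prod_univ, setIntegral_univ] at this
      rw [setIntegral_compl ht hi, this, h, sub_zero]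
    · simp [integral_iUnion hm hg hi.integrableOn, h]
  exact Lp.eq_zero_iff_ae_eq_zero.2 (hi.ae_eq_zero_of_forall_setIntegral_eq_zero fun s hs _ => h3 s hs)

lemma exists_on : ∃ e : ℕ → Lp ℝ 2 (volume : Measure unitInterval), Orthonormal ℝ e := by
  let c : ℕ → unitInterval := fun n => ⟨1 / (n + 1), by positivity, by
    rw [div_le_one (by positivity)]; simp⟩
  have hc : StrictAnti c := strictAnti_nat_of_succ_lt fun n => Subtype.coe_lt_coe.1 (by
    simp only [c]; push_cast; gcongr; simp)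
  let w : ℕ → Lp ℝ 2 (volume : Measure unitInterval) := fun n =>
    indicatorConstLp 2 (measurableSet_Ioc (a := c (n + 1)) (b := c n)) (measure_ne_top _ _) 1
  have h1 : ∀ n, w n ≠ 0 := fun n h => by
    have := L2.real_inner_indicatorConstLp_one_indicatorConstLp_one (μ := (volume : Measure unitInterval))
      (measurableSet_Ioc (a := c (n + 1)) (b := c n)) (measurableSet_Ioc (a := c (n + 1)) (b := c n))
    change ⟪w n, w n⟫ = _ at this
    rw [h, inner_zero_left, Set.inter_self, eq_comm, measureReal_eq_zero_iff] at this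
    rw [unitInterval.volume_Ioc, ENNReal.ofReal_eq_zero, sub_nonpos] at this
    exact (hc n.lt_succ_self).not_ge this
  refine ⟨fun n => ‖w n‖⁻¹ • w n, fun n => norm_smul_inv_norm (𝕜 := ℝ) (h1 n), fun m n h => ?_⟩
  simp only [real_inner_smul_left, inner_smul_right, w]
  rw [L2.real_inner_indicatorConstLp_one_indicatorConstLp_one, Set.Ioc_inter_Ioc,
    Set.Ioc_eq_empty (b := c (m + 1) ⊔ c (n + 1))]
  · simp
  · rcases h.lt_or_gt with h | h
    · exact not_lt.2 (inf_le_right.trans ((hc.antitone h).trans le_sup_left))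
    · exact not_lt.2 (inf_le_left.trans ((hc.antitone h).trans le_sup_right))

theorem main {τ : ℕ → ℝ} (h0 : ∀ k, 0 ≤ τ k ∧ τ k ≤ 1) :
    Conv {g | ∃ u v, ‖u‖ = 1 ∧ ‖v‖ = 1 ∧ g = tens u v} τ ↔ ¬ V τ := by
  obtain ⟨e, he⟩ := exists_on
  refine ⟨fun h hV => not_conv tens_inner he h0 hV h, conv ?_ (fun f h => tens_dense f
    fun u v hu hv => h _ ?_) h0⟩
  swap
  · exact ⟨u, v, hu, hv, rfl⟩
  rintro _ ⟨u, v, hu, hv, rfl⟩
  have := tens_inner u v u v
  simp only [real_inner_self_eq_norm_sq, hu, hv] at this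
  nlinarith [norm_nonneg (tens u v)]

end Pool.Agent.H26.WGA
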