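import Mathlib

set_option autoImplicit false

open MeasureTheory Filter Finset
open scoped ENNReal

namespace Pool.Agent.H26.Walsh

abbrev G := ℕ → Bool

noncomputable def mu : Measure G :=
  Measure.infinitePi fun _ : ℕ => (PMF.uniformOfFintype Bool).toMeasure

def r (k : ℕ) (x : G) : ℝ := if x k then -1 else 1

def w (n : ℕ) (x : G) : ℝ := ∏ k ∈ range n, if n.testBit k then r k x else 1

def head (n : ℕ) (x : G) : Fin n → Bool := fun j => x j

def F : Filtration ℕ (inferInstance : MeasurableSpace G) where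
  seq n := MeasurableSpace.comap (head n) inferInstance
  mono' := fun n m h => by
    have e : head n = (fun (y : Fin m → Bool) (j : Fin n) => y (Fin.castLE h j)) ∘ head m := rfl
    change MeasurableSpace.comap (head n) _ ≤ MeasurableSpace.comap (head m) _
    rw [e, ← MeasurableSpace.comap_comp]
    exact MeasurableSpace.comap_mono (Measurable.comap_le (by fun_prop))
  le' := fun n => Measurable.comap_le (measurable_pi_lambda _ fun j => measurable_pi_apply _)

noncomputable def coef (f : ℕ → G → ℝ) (i : ℕ) : ℝ :=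
  limUnder atTop fun k => ∫ x, f k x * w i x ∂mu

noncomputable def S (f : ℕ → G → ℝ) (k : ℕ) (x : G) : ℝ := ∑ j ∈ range k, coef f j * w j x

noncomputable def Lp (p : ℝ) (g : G → ℝ) : ℝ≥0∞ := (∫⁻ x, ‖g x‖ₑ ^ p ∂mu) ^ (1 / p)

noncomputable def Hp (p : ℝ) (f : ℕ → G → ℝ) : ℝ≥0∞ :=
  (∫⁻ x, (⨆ n, ‖f n x‖ₑ) ^ p ∂mu) ^ (1 / p)

end Pool.Agent.H26.Walsh
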