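import Mathlib
import Pool.Agent.H26.WalshDefs

set_option autoImplicit false

open MeasureTheory Filter Finset
open scoped ENNReal

namespace Pool.Agent.H26.Walsh

instance : IsProbabilityMeasure mu := by unfold mu; infer_instance

theorem r_sq (k : ℕ) (x : G) : r k x * r k x = 1 := by
  unfold r; split_ifs <;> norm_num

theorem w_eq {n K : ℕ} (h : n < 2 ^ K) (x : G) :
    w n x = ∏ k ∈ range K, if n.testBit k then r k x else 1 := by
  have key : ∀ L L', L ≤ L' → n < 2 ^ L → (∏ k ∈ range L, if n.testBit k then r k x else 1) =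
      ∏ k ∈ range L', if n.testBit k then r k x else 1 := by
    intro L L' h1 h2
    refine prod_subset (range_mono h1) fun k _ hk => ?_
    rw [mem_range, not_lt] at hk
    rw [Nat.testBit_lt_two_pow (h2.trans_le (Nat.pow_le_pow_right two_pos hk))]; simp
  rw [w, key n (max n K) (le_max_left _ _) Nat.lt_two_pow_self,
    key K (max n K) (le_max_right _ _) h]

theorem w_zero (x : G) : w 0 x = 1 := by simp [w]

theorem w_sq (n : ℕ) (x : G) : w n x * w n x = 1 := by
  rw [w, ← prod_mul_distrib]
  refine prod_eq_one fun k _ => ?_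
  split_ifs
  · exact r_sq k x
  · simp

theorem w_cases (n : ℕ) (x : G) : w n x = 1 ∨ w n x = -1 := mul_self_eq_one_iff.1 (w_sq n x)

theorem abs_w (n : ℕ) (x : G) : |w n x| = 1 := by
  rcases w_cases n x with h | h <;> simp [h]

theorem w_add {k b : ℕ} (a : ℕ) (hb : b < 2 ^ k) (x : G) :
    w (2 ^ k * a + b) x = w (2 ^ k * a) x * w b x := by
  have h1 : 2 ^ k * a + b < 2 ^ (2 ^ k * a + b) := Nat.lt_two_pow_self
  rw [w_eq h1, w_eq (lt_of_le_of_lt (Nat.le_add_right _ b) h1),
    w_eq (lt_of_le_of_lt (Nat.le_add_left b _) h1), ← prod_mul_distrib]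
  refine prod_congr rfl fun j _ => ?_
  have h2 := Nat.testBit_two_pow_mul_add a (Nat.two_pow_pos k) j
  rw [add_zero] at h2
  rw [Nat.testBit_two_pow_mul_add a hb, h2]
  by_cases hj : j < k
  · simp [hj]
  · have : b.testBit j = false :=
      Nat.testBit_lt_two_pow (hb.trans_le (Nat.pow_le_pow_right two_pos (not_lt.1 hj)))
    simp [hj, this]

theorem w_pow (k : ℕ) (x : G) : w (2 ^ k) x = r k x := by
  rw [w, prod_eq_single k]
  · simp
  · intro j _ hj; simp [Nat.testBit_two_pow, Ne.symm hj]
  · intro h; exact absurd (mem_range.2 Nat.lt_two_pow_self) h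

theorem w_refl {n i : ℕ} (hi : i < 2 ^ n) (x : G) :
    w (2 ^ n - (i + 1)) x = w (2 ^ n - 1) x * w i x := by
  have h0 := Nat.two_pow_pos n
  rw [w_eq (K := n) (by omega), w_eq (K := n) (by omega), w_eq hi, ← prod_mul_distrib]
  refine prod_congr rfl fun j hj => ?_
  rw [Nat.testBit_two_pow_sub_succ hi, Nat.testBit_two_pow_sub_one]
  have := mem_range.1 hj
  cases i.testBit j <;> simp [this, r_sq]

def D (j : ℕ) (x : G) : ℝ := ∑ i ∈ range j, w i x

theorem D_add {k b : ℕ} (a : ℕ) (hb : b ≤ 2 ^ k) (x : G) :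
    D (2 ^ k * a + b) x = D (2 ^ k * a) x + w (2 ^ k * a) x * D b x := by
  rw [D, sum_range_add, D, D, mul_sum]
  congr 1
  exact sum_congr rfl fun i hi => w_add a ((mem_range.1 hi).trans_le hb) x

theorem D_pow_add {k b : ℕ} (hb : b ≤ 2 ^ k) (x : G) :
    D (2 ^ k + b) x = D (2 ^ k) x + r k x * D b x := by
  simpa [w_pow] using D_add 1 hb x

theorem D_pow (k : ℕ) (x : G) :
    D (2 ^ k) x = if ∀ j < k, x j = false then 2 ^ k else 0 := by
  induction k with
  | zero => simp [D, w_zero]
  | succ k ih =>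
    rw [pow_succ, mul_two, D_pow_add le_rfl, ih]
    by_cases h : ∀ j < k, x j = false
    · rw [if_pos h]
      cases hk : x k
      · rw [if_pos fun j hj => by
          rcases (Nat.lt_succ_iff.1 hj).eq_or_lt with rfl | hj
          · exact hk
          · exact h j hj]
        simp [r, hk]; ring
      · rw [if_neg fun h' => by simpa [hk] using h' k (by omega)]
        simp [r, hk]
    · rw [if_neg h, if_neg fun h' => h fun j hj => h' j (by omega)]; simp

theorem D_refl {n j : ℕ} (hj : j ≤ 2 ^ n) (x : G) :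
    D (2 ^ n - j) x = D (2 ^ n) x - w (2 ^ n - 1) x * D j x := by
  induction j with
  | zero => simp [D]
  | succ j ih =>
    have h1 : D (2 ^ n - j) x = D (2 ^ n - (j + 1)) x + w (2 ^ n - (j + 1)) x := by
      rw [show 2 ^ n - j = 2 ^ n - (j + 1) + 1 by omega, D, sum_range_succ, D]
    have h2 : D (j + 1) x = D j x + w j x := by rw [D, sum_range_succ, D]
    have h3 := ih (by omega)
    rw [w_refl hj] at h1
    rw [h2]; linarith

theorem block {k : ℕ} {x : G} (h : D (2 ^ k) x = 0) (u : ℕ → ℝ) (A : ℕ) :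
    D (2 ^ k * A) x = 0 ∧ ∑ j ∈ range (2 ^ k * A), u j * D j x =
      ∑ a ∈ range A, w (2 ^ k * a) x * ∑ b ∈ range (2 ^ k), u (2 ^ k * a + b) * D b x := by
  induction A with
  | zero => simp [D]
  | succ A ih =>
    refine ⟨by rw [Nat.mul_succ, D_add A le_rfl, ih.1, h]; simp, ?_⟩
    rw [Nat.mul_succ, sum_range_add, ih.2, sum_range_succ, mul_sum]
    congr 1
    refine sum_congr rfl fun b hb => ?_
    rw [D_add A (mem_range.1 hb).le, ih.1]; ring

def flip (k : ℕ) (x : G) : G := fun i => if i = k then !x i else x i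

theorem flip_mp (k : ℕ) : MeasurePreserving (flip k) mu mu := by
  have hm : ∀ i : ℕ, Measurable fun b : Bool => if i = k then !b else b :=
    fun i => measurable_from_top
  refine ⟨measurable_pi_lambda _ fun i => (hm i).comp (measurable_pi_apply i), ?_⟩
  have := Measure.infinitePi_map_pi (fun _ : ℕ => (PMF.uniformOfFintype Bool).toMeasure) hm
  refine this.trans ?_
  unfold mu
  congr 1
  funext i
  by_cases h : i = k
  · simp only [h, if_true]
    refine Measure.ext_of_singleton fun b => ?_
    rw [Measure.map_apply measurable_from_top (measurableSet_singleton _)]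
    have : (fun c : Bool => !c) ⁻¹' {b} = {!b} := by ext c; cases b <;> cases c <;> simp
    rw [this]
    simp [PMF.toMeasure_apply_singleton]
  · simp [h]

theorem w_flip (n k : ℕ) (x : G) :
    w n (flip k x) = (if n.testBit k then -1 else 1) * w n x := by
  have h1 : n < 2 ^ (max n k + 1) := Nat.lt_two_pow_self.trans_le
    (Nat.pow_le_pow_right two_pos ((le_max_left n k).trans (Nat.le_succ _)))
  have hk : k ∈ range (max n k + 1) := mem_range.2 (Nat.lt_succ_of_le (le_max_right n k))
  rw [w_eq h1, w_eq h1, ← mul_prod_erase _ _ hk, ← mul_prod_erase _ _ hk, ← mul_assoc]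
  congr 1
  · cases n.testBit k <;> cases hx : x k <;> simp [r, flip, hx]
  · refine prod_congr rfl fun j hj => ?_
    simp [r, flip, ne_of_mem_erase hj]

theorem meas_F {n : ℕ} {g : G → ℝ} (h : ∀ x y, (∀ j < n, x j = y j) → g x = g y) :
    StronglyMeasurable[F n] g := by
  have e : g = (fun z : Fin n → Bool => g fun j => if hj : j < n then z ⟨j, hj⟩ else false) ∘
      head n := by
    funext x
    exact h _ _ fun j hj => by simp [head, hj]
  rw [e]
  exact (StronglyMeasurable.of_discrete).comp_measurable (comap_measurable (head n))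

theorem w_dep {n i : ℕ} (hi : i < 2 ^ n) (x y : G) (h : ∀ j < n, x j = y j) : w i x = w i y := by
  rw [w_eq hi, w_eq hi]
  exact prod_congr rfl fun j hj => by simp [r, h j (mem_range.1 hj)]

theorem w_meas (i : ℕ) : Measurable (w i) :=
  ((meas_F (w_dep (Nat.lt_two_pow_self (n := i)))).mono (F.le i)).measurable

theorem int_flip {g : G → ℝ} (hg : Measurable g) {k : ℕ} (h : ∀ x, g (flip k x) = -g x) :
    ∫ x, g x ∂mu = 0 := by
  have h1 : ∫ x, g x ∂mu = ∫ x, g (flip k x) ∂mu := by
    conv_lhs => rw [← (flip_mp k).map_eq]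
    rw [integral_map (flip_mp k).measurable.aemeasurable hg.aestronglyMeasurable]
  simp only [h, integral_neg] at h1
  linarith

theorem orth (i j : ℕ) : ∫ x, w i x * w j x ∂mu = if i = j then 1 else 0 := by
  split_ifs with h
  · simp [h, w_sq]
  · obtain ⟨k, hk⟩ : ∃ k, i.testBit k ≠ j.testBit k := by
      by_contra hc
      push Not at hc
      exact h (Nat.eq_of_testBit_eq hc)
    refine int_flip ((w_meas i).mul (w_meas j)) (k := k) fun x => ?_
    rw [w_flip, w_flip]
    revert hk
    cases i.testBit k <;> cases j.testBit k <;> simp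

theorem int_ww (i j : ℕ) : Integrable (fun x => w i x * w j x) mu :=
  Integrable.of_bound ((w_meas i).mul (w_meas j)).aestronglyMeasurable 1
    (Eventually.of_forall fun x => by rw [Real.norm_eq_abs, abs_mul, abs_w, abs_w]; simp)

theorem int_w (i : ℕ) : Integrable (w i) mu := by
  simpa [w_zero] using int_ww i 0

theorem mu_cyl (n : ℕ) (b : ℕ → Bool) : mu {x | ∀ j < n, x j = b j} = 2⁻¹ ^ n := by
  have e : {x : G | ∀ j < n, x j = b j} = Set.pi (range n : Finset ℕ) fun j => {b j} := by
    ext x; simp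
  rw [e, mu, Measure.infinitePi_pi _ fun i _ => measurableSet_singleton _]
  simp [PMF.toMeasure_apply_singleton]

theorem meas_cyl (n : ℕ) (b : ℕ → Bool) : MeasurableSet {x : G | ∀ j < n, x j = b j} := by
  have e : {x : G | ∀ j < n, x j = b j} = Set.pi (range n : Finset ℕ) fun j => {b j} := by
    ext x; simp
  rw [e]
  exact MeasurableSet.pi (Finset.countable_toSet _) fun i _ => measurableSet_singleton _

end Pool.Agent.H26.Walsh
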