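import Mathlib
import Pool.Agent.H26.Walsh1

set_option autoImplicit false

open MeasureTheory Filter Finset
open scoped ENNReal NNReal

namespace Pool.Agent.H26.Walsh

def gg (N : ℕ) (x : G) : ℝ := ∑ i ∈ Ico (2 ^ N) (2 ^ (N + 1)), w i x

def ff (N k : ℕ) (x : G) : ℝ := if k ≤ N then 0 else gg N x

theorem gg_eq (N : ℕ) (x : G) : gg N x = r N x * D (2 ^ N) x := by
  rw [gg, sum_Ico_eq_sub _ (Nat.pow_le_pow_right two_pos (Nat.le_succ N))]
  have := D_pow_add (le_refl (2 ^ N)) x
  rw [← two_mul, ← pow_succ'] at this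
  simp only [D] at this ⊢
  linarith

theorem gg_dep (N : ℕ) (x y : G) (h : ∀ j < N + 1, x j = y j) : gg N x = gg N y :=
  sum_congr rfl fun _ hi => w_dep (mem_Ico.1 hi).2 x y h

theorem gg_int (N : ℕ) : Integrable (gg N) mu := integrable_finset_sum _ fun i _ => int_w i

theorem ff_mart (N : ℕ) : Martingale (ff N) F mu := by
  have ha : ∀ k, StronglyMeasurable[F k] (ff N k) := by
    intro k
    refine meas_F fun x y h => ?_
    unfold ff
    split_ifs with hk
    · rfl
    · exact gg_dep N x y fun j hj => h j (by omega)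
  refine ⟨ha, fun i j hij => ?_⟩
  by_cases hj : j ≤ N
  · have e1 : ff N j = 0 := by funext x; simp [ff, hj]
    have e2 : ff N i = 0 := by funext x; simp [ff, hij.trans hj]
    rw [e1, e2, condExp_zero]
  have e1 : ff N j = gg N := by funext x; simp [ff, hj]
  by_cases hi : i ≤ N
  · have e2 : ff N i = fun _ => 0 := by funext x; simp [ff, hi]
    rw [e1, e2]
    refine (ae_eq_condExp_of_forall_setIntegral_eq (F.le i) (gg_int N)
      (fun s _ _ => (integrable_zero _ _ _).integrableOn) (fun s hs _ => ?_)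
      stronglyMeasurable_const.aestronglyMeasurable).symm
    have hs' := F.le i s hs
    rw [← integral_indicator hs', ← integral_indicator hs']
    obtain ⟨t, -, rfl⟩ := hs
    rw [int_flip (g := (head i ⁻¹' t).indicator (gg N)) (k := N)
      (((meas_F (gg_dep N)).mono (F.le _)).measurable.indicator hs') fun x => ?_]
    · simp
    have h1 : head i (flip N x) = head i x := by
      funext l
      have : (l : ℕ) ≠ N := by have := l.2; omega
      simp [head, flip, this]
    have h2 : gg N (flip N x) = -gg N x := by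
      rw [gg_eq, gg_eq, D_pow, D_pow]
      have h3 : (∀ j < N, flip N x j = false) ↔ ∀ j < N, x j = false :=
        forall₂_congr fun j hj => by simp [flip, hj.ne]
      simp only [h3]
      rw [← neg_mul]
      congr 1
      cases hx : x N <;> simp [r, flip, hx]
    by_cases hx : x ∈ head i ⁻¹' t
    · rw [Set.indicator_of_mem (by rwa [Set.mem_preimage, h1]), Set.indicator_of_mem hx, h2]
    · rw [Set.indicator_of_notMem (by rwa [Set.mem_preimage, h1]), Set.indicator_of_notMem hx]
      simp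
  · have e2 : ff N i = gg N := by funext x; simp [ff, hi]
    have := ha i
    rw [e2] at this
    rw [e1, e2, condExp_of_stronglyMeasurable (F.le i) this (gg_int N)]

theorem ff_coef (N i : ℕ) : coef (ff N) i = if i ∈ Ico (2 ^ N) (2 ^ (N + 1)) then 1 else 0 := by
  refine Tendsto.limUnder_eq (tendsto_const_nhds.congr' ?_)
  filter_upwards [eventually_gt_atTop N] with k hk
  simp only [ff, if_neg (not_le.2 hk), gg, sum_mul]
  rw [integral_finsetSum _ fun j _ => int_ww j i]
  simp only [orth, sum_ite_eq']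

theorem ff_S (N k : ℕ) (hk : k ≤ 2 ^ (N + 1)) (x : G) :
    S (ff N) k x = if k ≤ 2 ^ N then 0 else D k x - D (2 ^ N) x := by
  simp only [S, ff_coef, ite_mul, one_mul, zero_mul]
  split_ifs with h
  · refine sum_eq_zero fun j hj => if_neg fun h' => ?_
    have := mem_range.1 hj
    have := (mem_Ico.1 h').1
    omega
  · rw [D, D, ← sum_Ico_eq_sub _ (not_le.1 h).le, ← sum_filter]
    refine sum_congr ?_ fun _ _ => rfl
    ext j
    simp only [mem_filter, mem_range, mem_Ico]
    omega

theorem mean_eq (q : ℕ → ℝ) (N : ℕ) {x : G} (hx : D (2 ^ N) x = 0) :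
    ∑ k ∈ Icc 1 (2 ^ (N + 1)), q (2 ^ (N + 1) - k) * S (ff N) k x =
      -w (2 ^ (N + 1) - 1) x * ∑ j ∈ range (2 ^ N), q j * D j x := by
  have h2 : D (2 ^ (N + 1)) x = 0 := by
    rw [pow_succ, mul_two, D_pow_add le_rfl, hx]; simp
  have h3 : 2 ^ (N + 1) = 2 ^ N + 2 ^ N := by rw [pow_succ, mul_two]
  have e1 : ∑ k ∈ Icc 1 (2 ^ (N + 1)), q (2 ^ (N + 1) - k) * S (ff N) k x =
      ∑ j ∈ range (2 ^ (N + 1)), q j * S (ff N) (2 ^ (N + 1) - j) x := by
    refine sum_bij' (fun k _ => 2 ^ (N + 1) - k) (fun j _ => 2 ^ (N + 1) - j) ?_ ?_ ?_ ?_ ?_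
    · intro k hk; rw [mem_Icc] at hk; rw [mem_range]; omega
    · intro k hk; rw [mem_range] at hk; rw [mem_Icc]; omega
    · intro k hk; rw [mem_Icc] at hk; omega
    · intro k hk; rw [mem_range] at hk; omega
    · intro k hk; rw [mem_Icc] at hk; rw [Nat.sub_sub_self hk.2]
  rw [e1]
  conv_lhs => rw [h3, sum_range_add, ← h3]
  rw [sum_eq_zero (s := range (2 ^ N)) (f := fun j => q (2 ^ N + j) *
    S (ff N) (2 ^ (N + 1) - (2 ^ N + j)) x) fun j _ => by
      rw [ff_S _ _ (Nat.sub_le _ _), if_pos (by rw [h3]; generalize 2 ^ N = m; omega),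
        mul_zero], add_zero, mul_sum]
  refine sum_congr rfl fun j hj => ?_
  have := mem_range.1 hj
  rw [ff_S _ _ (Nat.sub_le _ _), if_neg (by omega), D_refl (by omega), h2, hx]
  ring

theorem tele {d : ℕ → ℝ} (hd : Antitone d) (h0 : ∀ j, 0 ≤ d j) (B c : ℕ) (ε : ℕ → ℝ)
    (hε : ∀ a, -1 ≤ ε a) (hε0 : ε 0 = 1) (A : ℕ) :
    d c - d (B + c) - d (2 * B + c) ≤
      ∑ a ∈ range (A + 1), ε a * (d (2 * B * a + c) - d (2 * B * a + (B + c))) := by
  have key : ∀ A, d c - d (B + c) - d (2 * B + c) + d (2 * B * (A + 1) + c) ≤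
      ∑ a ∈ range (A + 1), ε a * (d (2 * B * a + c) - d (2 * B * a + (B + c))) := by
    intro A
    induction A with
    | zero => simp [hε0]
    | succ A ih =>
      rw [sum_range_succ]
      have k1 : d (2 * B * (A + 1) + (B + c)) ≤ d (2 * B * (A + 1) + c) := hd (by omega)
      have k2 : d (2 * B * (A + 1 + 1) + c) ≤ d (2 * B * (A + 1) + (B + c)) :=
        hd (by rw [mul_add (2 * B) (A + 1) 1]; omega)
      nlinarith [hε (A + 1)]
  linarith [key A, h0 (2 * B * (A + 1) + c)]

theorem lower {q e : ℕ → ℝ} (he : Antitone e) (he0 : ∀ j, 0 ≤ e j)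
    (hlo : ∀ j : ℕ, e j ≤ (j + 2) * (q j - q (j + 1)))
    (hhi : ∀ j : ℕ, (j + 1) * (q j - q (j + 1)) ≤ e j) {s N : ℕ} (hN : s + 3 ≤ N) {x : G}
    (hx : ∀ j < s + 3, x j = decide (s ≤ j)) :
    ((2 : ℝ) ^ s) ^ 2 * e (3 * 2 ^ s) / 80 ≤ ∑ j ∈ range (2 ^ N), q j * D j x := by
  set δ : ℕ → ℝ := fun j => q j - q (j + 1) with hδ
  have δ0 : ∀ j, 0 ≤ δ j := fun j =>
    nonneg_of_mul_nonneg_right ((he0 j).trans (hlo j)) (by positivity)
  have δ1 : ∀ j a : ℕ, ((j + a : ℕ) + 1 : ℝ) * δ (j + a) ≤ (j + 2) * δ j := fun j a =>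
    (hhi _).trans ((he (Nat.le_add_right j a)).trans (hlo j))
  have δa : Antitone δ := antitone_nat_of_succ_le fun j => by
    have := δ1 j 1
    push_cast at this
    exact le_of_mul_le_mul_left (a := (j : ℝ) + 2) (by linarith) (by positivity)
  set M := 2 ^ s with hM
  have M1 : 1 ≤ M := Nat.one_le_two_pow
  have M1' : (1 : ℝ) ≤ M := by exact_mod_cast M1
  set d : ℕ → ℝ := fun c => ∑ i ∈ range (2 * M), δ (c + i) with hd
  have d_eq : ∀ c, d c = q c - q (c + 2 * M) := fun c => by
    simp only [hd, hδ]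
    have := sum_range_sub' (fun i => q (c + i)) (2 * M)
    simpa [add_assoc] using this
  have d0 : ∀ c, 0 ≤ d c := fun c => sum_nonneg fun i _ => δ0 _
  have da : Antitone d := fun a b h => sum_le_sum fun i _ => δa (by omega)
  have r0 : r s x = -1 := by simp [r, hx s (by omega)]
  have r1 : r (s + 1) x = -1 := by simp [r, hx (s + 1) (by omega)]
  have r2 : r (s + 2) x = -1 := by simp [r, hx (s + 2) (by omega)]
  have hz : ∀ k, s < k → D (2 ^ k) x = 0 := fun k hk => by
    rw [D_pow, if_neg fun h => by simpa [hx s (by omega)] using h s hk]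
  have D1 : ∀ b, b ≤ M → D b x = b := fun b hb => by
    rw [D, sum_congr rfl (g := fun _ => (1 : ℝ)) fun i hi => ?_]
    · simp
    · rw [w_dep (n := s) ((mem_range.1 hi).trans_le hb) x (fun _ => false) fun j hj => by
        simp [hx j (by omega), hj]]
      simp [w, r]
  have D0 : ∀ b, b < 2 * M → 0 ≤ D b x := fun b hb => by
    rcases le_total b M with h | h
    · rw [D1 b h]; positivity
    · obtain ⟨c, rfl⟩ := Nat.exists_eq_add_of_le h
      rw [D_pow_add (by omega), r0, D1 _ le_rfl, D1 c (by omega)]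
      have : (c : ℝ) ≤ M := by exact_mod_cast (by omega : c ≤ M)
      linarith
  have p1 : 2 ^ (s + 1) = 2 * M := by rw [pow_succ']
  have p2 : 2 ^ (s + 2) = 4 * M := by rw [pow_add]; omega
  have p3 : 2 ^ (s + 3) = 8 * M := by rw [pow_add]; omega
  have inner : ∀ u : ℕ → ℝ, ∑ b ∈ range (2 ^ (s + 3)), u b * D b x =
      ∑ b ∈ range (2 * M), D b x * (u b - u (2 * M + b) - u (4 * M + b) + u (6 * M + b)) := by
    intro u
    have h1 := (block (hz (s + 1) (by omega)) u 4).2
    have w1 : w (2 * M) x = -1 := by rw [← p1, w_pow, r1]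
    have w2 : w (4 * M) x = -1 := by rw [← p2, w_pow, r2]
    have w3 : w (6 * M) x = 1 := by
      have := w_add (k := s + 2) (b := 2 * M) 1 (by omega) x
      rw [mul_one, p2, w1, w2, show 4 * M + 2 * M = 6 * M by ring] at this
      rw [this]; norm_num
    rw [p1, show 2 * M * 4 = 8 * M by ring] at h1
    rw [p3, h1]
    simp only [sum_range_succ, range_zero, sum_empty, mul_zero, zero_add, mul_one, w_zero,
      show 2 * M * 2 = 4 * M by ring, show 2 * M * 3 = 6 * M by ring, w1, w2, w3, mul_sum,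
      ← sum_add_distrib]
    exact sum_congr rfl fun b _ => by ring
  obtain ⟨A, hA⟩ : ∃ A, 2 ^ N = 2 ^ (s + 3) * (A + 1) := by
    obtain ⟨t, rfl⟩ := Nat.exists_eq_add_of_le hN
    exact ⟨2 ^ t - 1, by rw [pow_add, Nat.sub_add_cancel Nat.one_le_two_pow]⟩
  rw [hA, (block (hz (s + 3) (by omega)) q (A + 1)).2]
  simp only [inner, mul_sum]
  rw [sum_comm]
  have step : ∀ b ∈ range (2 * M), D b x * (d b / 16) ≤ ∑ a ∈ range (A + 1), w (2 ^ (s + 3) * a) x *
      (D b x * (q (2 ^ (s + 3) * a + b) - q (2 ^ (s + 3) * a + (2 * M + b)) -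
        q (2 ^ (s + 3) * a + (4 * M + b)) + q (2 ^ (s + 3) * a + (6 * M + b)))) := by
    intro b hb
    have hb' := mem_range.1 hb
    have t1 := tele da d0 (4 * M) b (fun a => w (2 ^ (s + 3) * a) x)
      (fun a => by rcases w_cases (2 ^ (s + 3) * a) x with h | h <;> simp [h])
      (by simp [w_zero]) A
    have t2 : d b / 16 ≤ d b - d (4 * M + b) - d (2 * (4 * M) + b) := by
      simp only [hd, ← sum_sub_distrib, sum_div]
      refine sum_le_sum fun i hi => ?_
      have hi' := mem_range.1 hi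
      have k1 := δ1 (b + i) (4 * M)
      have k2 := δ1 (b + i) (8 * M)
      rw [show 4 * M + b + i = b + i + 4 * M by ring,
        show 2 * (4 * M) + b + i = b + i + 8 * M by ring]
      have k3 : ((b + i : ℕ) : ℝ) + 2 ≤ 4 * M := by exact_mod_cast (by omega : b + i + 2 ≤ 4 * M)
      have k4 := δ0 (b + i)
      have k5 := δ0 (b + i + 4 * M)
      have k6 := δ0 (b + i + 8 * M)
      have k7 : (0 : ℝ) ≤ ((b + i : ℕ) : ℝ) := by positivity
      generalize δ (b + i) = u at *
      generalize δ (b + i + 4 * M) = v at *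
      generalize δ (b + i + 8 * M) = z at *
      push_cast at k1 k2 k3 k7
      generalize (b : ℝ) + i = j at *
      have l1 : 7 * v ≤ 4 * u := by
        refine le_of_mul_le_mul_left (a := j + 2) ?_ (by linarith)
        nlinarith [mul_nonneg k5 (show 0 ≤ 4 * (j + 4 * M + 1) - 7 * (j + 2) by linarith)]
      have l2 : 11 * z ≤ 4 * u := by
        refine le_of_mul_le_mul_left (a := j + 2) ?_ (by linarith)
        nlinarith [mul_nonneg k6 (show 0 ≤ 4 * (j + 8 * M + 1) - 11 * (j + 2) by linarith)]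
      linarith
    refine (mul_le_mul_of_nonneg_left (t2.trans t1) (D0 b hb')).trans_eq ?_
    rw [mul_sum]
    refine sum_congr rfl fun a _ => ?_
    rw [d_eq, d_eq, p3, show 2 * (4 * M) = 8 * M by ring,
      show 8 * M * a + b + 2 * M = 8 * M * a + (2 * M + b) by ring,
      show 8 * M * a + (4 * M + b) + 2 * M = 8 * M * a + (6 * M + b) by ring]
    ring
  refine le_trans ?_ (sum_le_sum step)
  have t3 : ∀ b ∈ range (M + 1), (b : ℝ) * (2 * M * δ (3 * M) / 16) ≤ D b x * (d b / 16) := by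
    intro b hb
    have hb' := mem_range.1 hb
    rw [D1 b (by omega)]
    refine mul_le_mul_of_nonneg_left (div_le_div_of_nonneg_right ?_ (by norm_num)) (by positivity)
    have := card_nsmul_le_sum (range (2 * M)) (fun i => δ (b + i)) (δ (3 * M))
      fun i hi => δa (by have := mem_range.1 hi; omega)
    simpa using this
  refine le_trans ?_ ((sum_le_sum t3).trans (sum_le_sum_of_subset_of_nonneg
    (range_mono (by omega)) fun b hb _ => mul_nonneg (D0 b (mem_range.1 hb))
      (div_nonneg (d0 b) (by norm_num))))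
  rw [← sum_mul]
  have t4 : (∑ b ∈ range (M + 1), (b : ℝ)) * 2 = (M + 1) * M := by
    have := congrArg (Nat.cast : ℕ → ℝ) (sum_range_id_mul_two (M + 1))
    simpa using this
  have t5 := hlo (3 * M)
  have t6 := δ0 (3 * M)
  have t7 : ((2 : ℝ) ^ s) = M := by simp [hM]
  rw [t7]
  change _ ≤ _ * δ (3 * M) at t5
  push_cast at t5
  have t8 : e (3 * M) ≤ 5 * M * δ (3 * M) := t5.trans (mul_le_mul_of_nonneg_right (by linarith) t6)
  have t9 : (∑ b ∈ range (M + 1), (b : ℝ)) = (M + 1) * M / 2 := by linarith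
  rw [t9]
  have t10 := mul_le_mul_of_nonneg_left t8 (show (0 : ℝ) ≤ (M : ℝ) ^ 2 by positivity)
  nlinarith [mul_nonneg (show (0 : ℝ) ≤ (M : ℝ) ^ 2 by positivity) t6]

end Pool.Agent.H26.Walsh
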