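import Mathlib
import Pool.Agent.H26.Walsh2

set_option autoImplicit false

open MeasureTheory Filter Finset
open scoped ENNReal NNReal

namespace Pool.Agent.H26.Walsh

theorem hp_ff (N : ℕ) {p : ℝ} (hp : 0 < p) :
    ∫⁻ x, (⨆ n, ‖ff N n x‖ₑ) ^ p ∂mu ≤ ENNReal.ofReal (((2 : ℝ) ^ N) ^ (p - 1)) := by
  have h1 : ∀ x, (⨆ n, ‖ff N n x‖ₑ) ^ p ≤ {x : G | ∀ j < N, x j = false}.indicator
      (fun _ => ENNReal.ofReal (((2 : ℝ) ^ N) ^ p)) x := by
    intro x
    have h2 : (⨆ n, ‖ff N n x‖ₑ) ≤ ENNReal.ofReal (D (2 ^ N) x) := by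
      refine iSup_le fun n => ?_
      unfold ff
      split_ifs
      · simp
      · rw [gg_eq, ← ofReal_norm_eq_enorm, norm_mul, ← w_pow, Real.norm_eq_abs, abs_w, one_mul,
          Real.norm_of_nonneg (by rw [D_pow]; split_ifs <;> positivity)]
    refine (ENNReal.rpow_le_rpow h2 hp.le).trans_eq ?_
    rw [D_pow]
    by_cases hx : ∀ j < N, x j = false
    · rw [if_pos hx, Set.indicator_of_mem (by exact hx),
        ENNReal.ofReal_rpow_of_nonneg (by positivity) hp.le]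
    · rw [if_neg hx, Set.indicator_of_notMem (by exact hx)]
      simp [hp]
  refine (lintegral_mono h1).trans_eq ?_
  rw [lintegral_indicator_const (meas_cyl N fun _ => false), mu_cyl N fun _ => false,
    Real.rpow_sub_one (by positivity), div_eq_mul_inv, ENNReal.ofReal_mul (by positivity),
    ← inv_pow, ENNReal.ofReal_pow (by positivity), ENNReal.ofReal_inv_of_pos two_pos]
  simp

theorem lp_lower {g : G → ℝ} {p : ℝ} (hp : 0 < p) (n : ℕ) {B : ℝ} (hB : 0 ≤ B)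
    (h : ∀ s < n, ∀ x : G, (∀ j < s + 3, x j = decide (s ≤ j)) → B * 2 ^ s ≤ |g x| ^ p) :
    ENNReal.ofReal (n * (B / 8)) ≤ ∫⁻ x, ‖g x‖ₑ ^ p ∂mu := by
  have h1 : ∀ x, ∑ s ∈ range n, {x : G | ∀ j < s + 3, x j = decide (s ≤ j)}.indicator
      (fun _ => ENNReal.ofReal (B * 2 ^ s)) x ≤ ‖g x‖ₑ ^ p := by
    intro x
    by_cases hx : ∃ s < n, ∀ j < s + 3, x j = decide (s ≤ j)
    · obtain ⟨s, hs, hx⟩ := hx
      rw [sum_eq_single s (fun t _ hts => Set.indicator_of_notMem (fun ht => ?_) _)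
        fun h => absurd (mem_range.2 hs) h, Set.indicator_of_mem (by exact hx),
        ← ofReal_norm_eq_enorm, ENNReal.ofReal_rpow_of_nonneg (norm_nonneg _) hp.le]
      · exact ENNReal.ofReal_le_ofReal (h s hs x hx)
      · rcases lt_or_gt_of_ne hts with k | k
        · have k1 := ht t (by omega)
          rw [hx t (by omega)] at k1
          simp at k1; omega
        · have k1 := ht s (by omega)
          rw [hx s (by omega)] at k1
          simp at k1; omega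
    · refine le_of_eq_of_le (sum_eq_zero fun s hs => ?_) zero_le
      refine Set.indicator_of_notMem (fun ht => ?_) _
      exact hx ⟨s, mem_range.1 hs, ht⟩
  refine le_trans (le_of_eq ?_) (lintegral_mono h1)
  rw [lintegral_finsetSum _ fun s _ => measurable_const.indicator (meas_cyl _ _),
    sum_congr rfl (g := fun _ => ENNReal.ofReal (B / 8)) fun s _ => ?_]
  · rw [sum_const, card_range, nsmul_eq_mul, ENNReal.ofReal_mul (by positivity),
      ENNReal.ofReal_natCast]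
  · rw [lintegral_indicator_const (meas_cyl _ _), mu_cyl,
      show (2⁻¹ : ℝ≥0∞) = ENNReal.ofReal 2⁻¹ by rw [ENNReal.ofReal_inv_of_pos two_pos]; simp,
      ← ENNReal.ofReal_pow (by positivity), ← ENNReal.ofReal_mul (by positivity)]
    congr 1
    rw [pow_add, inv_pow]
    field_simp
    norm_num

theorem core {α c K : ℝ} (h0 : 0 < α) (h1 : α < 1) (hc : 0 < c) {q e Q : ℕ → ℝ}
    (he : Antitone e) (hlo : ∀ j : ℕ, e j ≤ (j + 2) * (q j - q (j + 1)))
    (hhi : ∀ j : ℕ, (j + 1) * (q j - q (j + 1)) ≤ e j)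
    (hec : ∀ j : ℕ, c * (j + 1 : ℝ) ^ (α - 1) ≤ e j) (hQ0 : ∀ n, 1 ≤ n → 0 < Q n)
    (hQ : ∀ n : ℕ, 1 ≤ n → Q n ≤ K * (n : ℝ) ^ α) :
    ¬ ∃ C : ℝ≥0, ∀ f : ℕ → G → ℝ, Martingale f F mu → Hp (1 / (1 + α)) f < ⊤ → ∀ n : ℕ,
      Lp (1 / (1 + α)) (fun x => (Q (2 ^ n))⁻¹ * ∑ k ∈ Icc 1 (2 ^ n), q (2 ^ n - k) * S f k x) ≤
        C * Hp (1 / (1 + α)) f := by
  rintro ⟨C, hC⟩
  set p := 1 / (1 + α) with hp
  have p0 : 0 < p := by positivity
  have p1 : (1 + α) * p = 1 := by rw [hp]; field_simp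
  have K0 : 0 < K := by simpa using (hQ0 1 le_rfl).trans_le (hQ 1 le_rfl)
  have he0 : ∀ j, 0 ≤ e j := fun j => le_trans (by positivity) (hec j)
  set κ := c / (640 * K) with hκ
  have κ0 : 0 < κ := by positivity
  have κp : 0 < κ ^ p := Real.rpow_pos_of_pos κ0 p
  obtain ⟨n, hn⟩ := exists_nat_gt ((C : ℝ) ^ p / (κ ^ p / 8))
  rw [div_lt_iff₀ (by positivity)] at hn
  set N := n + 2 with hN
  have hY := hp_ff N p0
  have B0 : 0 < ((2 : ℝ) ^ N) ^ (p - 1) := by positivity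
  have h2 := hC (ff N) (ff_mart N) (ENNReal.rpow_lt_top_of_nonneg (by positivity)
    (hY.trans_lt ENNReal.ofReal_lt_top).ne) (N + 1)
  have hX := lp_lower (g := fun x => (Q (2 ^ (N + 1)))⁻¹ *
      ∑ k ∈ Icc 1 (2 ^ (N + 1)), q (2 ^ (N + 1) - k) * S (ff N) k x) p0 n
      (B := κ ^ p * ((2 : ℝ) ^ N) ^ (p - 1)) (by positivity) (by
    intro s hs x hx
    have k0 : D (2 ^ N) x = 0 := by
      rw [D_pow, if_neg fun h => by simpa [hx s (by omega)] using h s (by omega)]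
    have k1 := lower he he0 hlo hhi (N := N) (by omega) hx
    have q0 := hQ0 (2 ^ (N + 1)) Nat.one_le_two_pow
    have q1 := hQ (2 ^ (N + 1)) Nat.one_le_two_pow
    have M0 : (0 : ℝ) < 2 ^ s := by positivity
    have M1 : (1 : ℝ) ≤ 2 ^ s := one_le_pow₀ one_le_two
    have N0 : (0 : ℝ) < 2 ^ N := by positivity
    have k2 : c / 4 * ((2 : ℝ) ^ s) ^ (α - 1) ≤ e (3 * 2 ^ s) := by
      refine le_trans ?_ (hec _)
      push_cast
      have l1 : (4 * (2 : ℝ) ^ s) ^ (α - 1) ≤ (3 * 2 ^ s + 1) ^ (α - 1) :=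
        Real.rpow_le_rpow_of_nonpos (by positivity) (by linarith) (by linarith)
      have l2 : (4 : ℝ) ^ (-1 : ℝ) ≤ 4 ^ (α - 1) :=
        Real.rpow_le_rpow_of_exponent_le (by norm_num) (by linarith)
      rw [Real.rpow_neg_one] at l2
      rw [Real.mul_rpow (by norm_num) M0.le] at l1
      have l3 := mul_le_mul_of_nonneg_right l2 (Real.rpow_pos_of_pos M0 (α - 1)).le
      nlinarith
    have k3 : Q (2 ^ (N + 1)) ≤ 2 * K * ((2 : ℝ) ^ N) ^ α := by
      refine q1.trans ?_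
      push_cast
      rw [pow_succ', Real.mul_rpow (by norm_num) N0.le]
      have l2 : (2 : ℝ) ^ α ≤ 2 ^ (1 : ℝ) := Real.rpow_le_rpow_of_exponent_le (by norm_num) h1.le
      rw [Real.rpow_one] at l2
      have l3 := mul_le_mul_of_nonneg_right l2 (Real.rpow_pos_of_pos N0 α).le
      nlinarith
    have k4 : κ * (((2 : ℝ) ^ s) ^ (1 + α) * ((2 : ℝ) ^ N) ^ (-α)) ≤
        (Q (2 ^ (N + 1)))⁻¹ * ∑ j ∈ range (2 ^ N), q j * D j x := by
      have l1 : ((2 : ℝ) ^ s) ^ (1 + α) = ((2 : ℝ) ^ s) ^ 2 * ((2 : ℝ) ^ s) ^ (α - 1) := by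
        rw [← Real.rpow_two, ← Real.rpow_add M0]; ring_nf
      have l2 := inv_anti₀ q0 k3
      have l3 : ((2 : ℝ) ^ s) ^ 2 * (c / 4 * ((2 : ℝ) ^ s) ^ (α - 1)) / 80 ≤
          ∑ j ∈ range (2 ^ N), q j * D j x := le_trans (by gcongr) k1
      refine le_trans (le_of_eq ?_) (mul_le_mul l2 l3 (by positivity) (by positivity))
      rw [l1, Real.rpow_neg N0.le, hκ]
      field_simp
      norm_num
    rw [mean_eq q N k0, mul_left_comm (Q _)⁻¹, abs_mul, abs_neg, abs_w, one_mul]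
    refine le_trans (le_of_eq ?_)
      (Real.rpow_le_rpow (by positivity) (k4.trans (le_abs_self _)) p0.le)
    rw [Real.mul_rpow κ0.le (by positivity), Real.mul_rpow (by positivity) (by positivity),
      ← Real.rpow_mul M0.le, ← Real.rpow_mul N0.le, p1, Real.rpow_one,
      show -α * p = p - 1 by linarith]
    ring)
  have h3 := ENNReal.rpow_le_rpow h2 p0.le
  rw [Lp, Hp, ENNReal.mul_rpow_of_nonneg _ _ p0.le, ← ENNReal.rpow_mul, ← ENNReal.rpow_mul,
    one_div_mul_cancel p0.ne', ENNReal.rpow_one, ENNReal.rpow_one] at h3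
  have h4 := hX.trans (h3.trans (mul_le_mul_right hY _))
  rw [← ENNReal.ofReal_coe_nnreal, ENNReal.ofReal_rpow_of_nonneg C.coe_nonneg p0.le,
    ← ENNReal.ofReal_mul (Real.rpow_nonneg C.coe_nonneg p),
    ENNReal.ofReal_le_ofReal_iff (mul_nonneg (Real.rpow_nonneg C.coe_nonneg p) B0.le)] at h4
  have h5 := mul_lt_mul_of_pos_right hn B0
  linarith

theorem bern {β x : ℝ} (h0 : 0 ≤ β) (h1 : β ≤ 1) (hx : 0 ≤ x) :
    x ^ β ≤ (x + 1) ^ β * (1 - β / (x + 1)) := by
  have h2 := rpow_one_add_le_one_add_mul_self (s := -(1 / (x + 1)))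
    (neg_le_neg (by rw [div_le_one (by positivity)]; linarith)) h0 h1
  have h3 : x = (x + 1) * (1 + -(1 / (x + 1))) := by field_simp; ring
  have h4 : 0 ≤ 1 + -(1 / (x + 1)) := by
    have : 1 / (x + 1) ≤ 1 := by rw [div_le_one (by positivity)]; linarith
    linarith
  conv_lhs => rw [h3, Real.mul_rpow (by positivity) h4]
  refine mul_le_mul_of_nonneg_left (h2.trans_eq (by ring)) (by positivity)

end Pool.Agent.H26.Walsh
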