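import Mathlib

set_option autoImplicit false

open Filter Topology

namespace Pool.Agent.H26.ZStar

section
variable {A : Type} [NonUnitalCStarAlgebra A]

def ZeroDiv (x : A) : Prop := ∃ y : A, y ≠ 0 ∧ (x * y = 0 ∨ y * x = 0)

def Pos (x : A) : Prop := ∃ z : A, x = star z * z

def IsZStar (A : Type) [NonUnitalCStarAlgebra A] : Prop := ∀ x : A, Pos x → ZeroDiv x

def IsSimple (A : Type) [NonUnitalCStarAlgebra A] : Prop :=
  (∃ x : A, x ≠ 0) ∧ ∀ I : Submodule ℂ A, IsClosed (I : Set A) →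
    (∀ x ∈ I, ∀ y : A, y * x ∈ I ∧ x * y ∈ I) → I = ⊥ ∨ I = ⊤

theorem left_ann {x : A} (hx : Pos x) (h : ZeroDiv x) : ∃ y : A, y ≠ 0 ∧ y * x = 0 := by
  obtain ⟨z, rfl⟩ := hx
  obtain ⟨y, hy, h | h⟩ := h
  · refine ⟨star y, by simpa using hy, ?_⟩
    have := congrArg star h
    simpa [mul_assoc] using this
  · exact ⟨y, hy, h⟩

theorem seq_ann (hA : IsZStar A) (k : ℕ → A) : ∃ z : A, z ≠ 0 ∧ ∀ n, z * k n = 0 := by
  letI := CStarAlgebra.spectralOrder A
  haveI := CStarAlgebra.spectralOrderedRing A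
  let c : ℕ → ℝ := fun n => (1 / 2) ^ n / (1 + ‖k n * star (k n)‖)
  have c0 : ∀ n, 0 < c n := fun n => by positivity
  let t : ℕ → A := fun n => c n • (k n * star (k n))
  have t0 : ∀ n, 0 ≤ t n := fun n => smul_nonneg (c0 n).le (mul_star_self_nonneg _)
  have hs : Summable t := by
    refine Summable.of_norm_bounded summable_geometric_two fun n => ?_
    rw [norm_smul, Real.norm_of_nonneg (c0 n).le, div_mul_eq_mul_div, div_le_iff₀ (by positivity)]
    have : (0 : ℝ) < (1 / 2) ^ n := by positivity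
    nlinarith [norm_nonneg (k n * star (k n))]
  have hb : 0 ≤ ∑' n, t n := tsum_nonneg t0
  obtain ⟨w, hw⟩ := CStarAlgebra.nonneg_iff_eq_star_mul_self.1 hb
  obtain ⟨z, hz, h⟩ := left_ann ⟨w, hw⟩ (hA _ ⟨w, hw⟩)
  refine ⟨z, hz, fun n => ?_⟩
  have h1 : t n ≤ ∑' n, t n := hs.le_tsum n fun m _ => t0 m
  have h2 := star_right_conjugate_le_conjugate h1 z
  rw [h, zero_mul] at h2
  have h3 : z * t n * star z = c n • (z * k n * star (z * k n)) := by
    simp [t, mul_assoc, smul_mul_assoc, mul_smul_comm]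
  have h4 : c n • (z * k n * star (z * k n)) = 0 :=
    le_antisymm (h3 ▸ h2) (smul_nonneg (c0 n).le (mul_star_self_nonneg _))
  exact CStarRing.mul_star_self_eq_zero_iff _ |>.1 ((smul_eq_zero.1 h4).resolve_left (c0 n).ne')

end

theorem countable_closure {E ι : Type} [NormedAddCommGroup E] [NormedSpace ℂ E] (g : ι → E)
    [Nonempty ι] {b : E} (hb : b ∈ closure (Submodule.span ℂ (Set.range g) : Set E)) :
    ∃ s : ℕ → ι, b ∈ closure (Submodule.span ℂ (Set.range (g ∘ s)) : Set E) := by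
  classical
  obtain ⟨v, hv, hl⟩ := mem_closure_iff_seq_limit.1 hb
  have : ∀ n, ∃ t : Finset ι, v n ∈ Submodule.span ℂ (g '' t) := fun n => by
    obtain ⟨T, hT, h⟩ := Submodule.mem_span_finite_of_mem_span (hv n)
    obtain ⟨t, ht⟩ := Finset.subset_set_image_iff.1 (show (T : Set E) ⊆ g '' Set.univ by simpa)
    exact ⟨t, by rw [← ht.2] at h; simpa using h⟩
  choose t ht using this
  have hc : (⋃ n, (t n : Set ι)).Countable := Set.countable_iUnion fun n => (t n).countable_toSet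
  obtain ⟨s, hs⟩ := Set.countable_iff_exists_subset_range.1 hc
  refine ⟨s, mem_closure_of_tendsto hl (Eventually.of_forall fun n => ?_)⟩
  refine Submodule.span_mono ?_ (ht n)
  rintro _ ⟨i, hi, rfl⟩
  obtain ⟨m, rfl⟩ := hs (Set.mem_iUnion.2 ⟨n, hi⟩)
  exact ⟨m, rfl⟩

end Pool.Agent.H26.ZStar
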